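import Mathlib

set_option autoImplicit false

/-!
Torus trick, part A: commutator calculus for lower central series, and the eigenvalue lemma for an
endomorphism acting as squaring on the abelianization.
-/

namespace Pool.Agent.MP5c99ad

open scoped commutatorElement

section basic

variable {G : Type*} [Group G]

/-- three subgroups lemma, relative version -/
theorem three_sub_le {A B C L : Subgroup G} [L.Normal] (h1 : ⁅⁅B, C⁆, A⁆ ≤ L) (h2 : ⁅⁅C, A⁆, B⁆ ≤ L) :
    ⁅⁅A, B⁆, C⁆ ≤ L := by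
  have key : ∀ X Y Z : Subgroup G, ⁅⁅X, Y⁆, Z⁆ ≤ L ↔
      ⁅⁅X.map (QuotientGroup.mk' L), Y.map (QuotientGroup.mk' L)⁆, Z.map (QuotientGroup.mk' L)⁆ = ⊥ := by
    intro X Y Z
    rw [← Subgroup.map_commutator, ← Subgroup.map_commutator, Subgroup.map_eq_bot_iff,
      QuotientGroup.ker_mk']
  rw [key] at h1 h2 ⊢
  exact Subgroup.commutator_commutator_eq_bot_of_rotate h1 h2

theorem lcs_comm_le (S : Subgroup G) [S.Normal] (i j : ℕ) :
    ⁅S.lowerCentralSeries i, S.lowerCentralSeries j⁆ ≤ S.lowerCentralSeries (i + j + 1) := by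
  induction j generalizing i with
  | zero => exact le_rfl
  | succ j ih =>
    rw [Subgroup.commutator_comm, Subgroup.lowerCentralSeries_succ]
    refine three_sub_le ?_ ?_
    · rw [Subgroup.commutator_comm S]
      refine (ih (i + 1)).trans (le_of_eq ?_)
      congr 1
      omega
    · exact (Subgroup.commutator_mono (ih i) le_rfl).trans (le_of_eq rfl)

theorem lcs_lcs_le (S : Subgroup G) [S.Normal] (i j : ℕ) :
    (S.lowerCentralSeries i).lowerCentralSeries j ≤ S.lowerCentralSeries (i * j + i + j) := by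
  induction j with
  | zero => simp
  | succ j ih =>
    rw [Subgroup.lowerCentralSeries_succ]
    refine (Subgroup.commutator_mono ih le_rfl).trans ((lcs_comm_le S _ _).trans (le_of_eq ?_))
    congr 1
    ring

/-- powers in a commutator with central value -/
theorem comm_pow_pow {a b : G} (ha : a * ⁅a, b⁆ = ⁅a, b⁆ * a) (hb : b * ⁅a, b⁆ = ⁅a, b⁆ * b) (m n : ℕ) :
    ⁅a ^ m, b ^ n⁆ = ⁅a, b⁆ ^ (m * n) := by
  have hc : Commute a ⁅a, b⁆ := ha
  have hc' : Commute b ⁅a, b⁆ := hb
  have h0 : a * b = ⁅a, b⁆ * b * a := by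
    rw [commutatorElement_def]
    group
  have h1 : ∀ m : ℕ, a ^ m * b = ⁅a, b⁆ ^ m * b * a ^ m := by
    intro m
    induction m with
    | zero => simp
    | succ m ih =>
      rw [pow_succ a, mul_assoc, h0]
      have e1 : a ^ m * (⁅a, b⁆ * b * a) = ⁅a, b⁆ * (a ^ m * b) * a := by
        have := (hc.pow_left m).eq
        rw [← mul_assoc, ← mul_assoc, this]
        simp only [mul_assoc]
      rw [e1, ih, pow_succ' ⁅a, b⁆]
      simp only [mul_assoc]
  have h2 : ∀ n : ℕ, a ^ m * b ^ n = ⁅a, b⁆ ^ (m * n) * b ^ n * a ^ m := by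
    intro n
    induction n with
    | zero => simp
    | succ n ih =>
      rw [pow_succ b, ← mul_assoc, ih, mul_assoc _ (a ^ m) b, h1]
      have e1 : ⁅a, b⁆ ^ (m * n) * b ^ n * (⁅a, b⁆ ^ m * b * a ^ m) =
          ⁅a, b⁆ ^ (m * n) * (b ^ n * ⁅a, b⁆ ^ m) * (b * a ^ m) := by
        simp only [mul_assoc]
      rw [e1, ((hc'.pow_left n).pow_right m).eq, Nat.mul_succ, pow_add]
      simp only [mul_assoc]
  rw [commutatorElement_def (a ^ m), h2]
  group

end basic

section eigen

variable {N : Type*} [Group N]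

theorem torus_eigen (τ : N →* N) (hτ : ∀ x, τ x * (x ^ 2)⁻¹ ∈ (⊤ : Subgroup N).lowerCentralSeries 1)
    (k : ℕ) : ∀ x ∈ (⊤ : Subgroup N).lowerCentralSeries k,
      τ x * (x ^ (2 ^ (k + 1)))⁻¹ ∈ (⊤ : Subgroup N).lowerCentralSeries (k + 1) := by
  induction k with
  | zero =>
    intro x _
    simpa using hτ x
  | succ k ih =>
    set L : Subgroup N := (⊤ : Subgroup N).lowerCentralSeries (k + 2) with hL
    set π : N →* N ⧸ L := QuotientGroup.mk' L with hπ
    have hker : ∀ z : N, π z = 1 ↔ z ∈ L := fun z => QuotientGroup.eq_one_iff z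
    have hcomm : ∀ x y : N, ⁅x, y⁆ ∈ L → π x * π y = π y * π x := by
      intro x y h
      rw [← commutatorElement_eq_one_iff_mul_comm, ← map_commutatorElement]
      exact (hker _).2 h
    have hcent : ∀ x ∈ (⊤ : Subgroup N).lowerCentralSeries (k + 1), ∀ y : N, π x * π y = π y * π x := by
      intro x hx y
      exact hcomm x y (Subgroup.commutator_mem_commutator hx (Subgroup.mem_top y))
    have key : ∀ x ∈ (⊤ : Subgroup N).lowerCentralSeries (k + 1), π (τ x) = π x ^ (2 ^ (k + 2)) := by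
      intro x hx
      have hx' : x ∈ Subgroup.closure {g | ∃ g₁ ∈ (⊤ : Subgroup N).lowerCentralSeries k,
          ∃ g₂ ∈ (⊤ : Subgroup N), ⁅g₁, g₂⁆ = g} := hx
      clear hx
      induction hx' using Subgroup.closure_induction with
      | mem g hg =>
        obtain ⟨x, hx, n, -, rfl⟩ := hg
        have hz := ih x hx
        have hz' := hτ n
        set z := τ x * (x ^ (2 ^ (k + 1)))⁻¹ with hzd
        set z' := τ n * (n ^ 2)⁻¹ with hzd'
        have e1 : τ x = z * x ^ (2 ^ (k + 1)) := by rw [hzd]; group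
        have e2 : τ n = z' * n ^ 2 := by rw [hzd']; group
        have hxn : ⁅x, n⁆ ∈ (⊤ : Subgroup N).lowerCentralSeries (k + 1) :=
          Subgroup.commutator_mem_commutator hx (Subgroup.mem_top n)
        have c1 := fun y => hcent z hz y
        have c2 : π (x ^ (2 ^ (k + 1))) * π z' = π z' * π (x ^ (2 ^ (k + 1))) := by
          apply hcomm
          exact lcs_comm_le ⊤ k 1 (Subgroup.commutator_mem_commutator (Subgroup.pow_mem _ hx _) hz')
        have c3 := fun y => hcent ⁅x, n⁆ hxn y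
        have e3 : ⁅π x ^ (2 ^ (k + 1)), π n ^ 2⁆ = ⁅π x, π n⁆ ^ (2 ^ (k + 1) * 2) := by
          apply comm_pow_pow
          · rw [← map_commutatorElement]; exact (c3 x).symm
          · rw [← map_commutatorElement]; exact (c3 n).symm
        rw [map_commutatorElement τ, e1, e2, map_commutatorElement π, map_mul π, map_mul π z']
        have e4 : ⁅π z * π (x ^ 2 ^ (k + 1)), π z' * π (n ^ 2)⁆ =
            ⁅π (x ^ 2 ^ (k + 1)), π z' * π (n ^ 2)⁆ := by
          rw [commutatorElement_mul_left_eq_conj_mul]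
          have h1 : ⁅π z, π z' * π (n ^ 2)⁆ = 1 := by
            rw [commutatorElement_eq_one_iff_mul_comm, ← map_mul]
            exact c1 _
          have h2 : ⁅π (x ^ 2 ^ (k + 1)), π z' * π (n ^ 2)⁆ = π ⁅x ^ 2 ^ (k + 1), z' * n ^ 2⁆ := by
            rw [map_commutatorElement, map_mul π z']
          rw [h1, h2, mul_one, c1, mul_assoc, mul_inv_cancel, mul_one]
        have e5 : ⁅π (x ^ 2 ^ (k + 1)), π z' * π (n ^ 2)⁆ = ⁅π (x ^ 2 ^ (k + 1)), π (n ^ 2)⁆ := by
          rw [commutatorElement_mul_right_eq_mul_conj]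
          have h1 : ⁅π (x ^ 2 ^ (k + 1)), π z'⁆ = 1 := by
            rw [commutatorElement_eq_one_iff_mul_comm]
            exact c2
          have h2 : ⁅π (x ^ 2 ^ (k + 1)), π (n ^ 2)⁆ = ⁅π x, π n⁆ ^ (2 ^ (k + 1) * 2) := by
            rw [map_pow, map_pow, e3]
          have h3 : π z' * ⁅π x, π n⁆ ^ (2 ^ (k + 1) * 2) = ⁅π x, π n⁆ ^ (2 ^ (k + 1) * 2) * π z' := by
            have : Commute (π z') ⁅π x, π n⁆ := by
              rw [← map_commutatorElement]; exact (c3 z').symm
            exact this.pow_right _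
          rw [h1, h2, one_mul, h3, mul_assoc, mul_inv_cancel, mul_one]
        rw [e4, e5, map_pow, map_pow, e3, map_commutatorElement]
        congr 1
      | one => simp
      | mul a b ha hb iha ihb =>
        have hab : Commute (π a) (π b) := hcent a ha b
        rw [map_mul, map_mul, map_mul, iha, ihb, hab.mul_pow]
      | inv a _ iha =>
        rw [map_inv, map_inv, map_inv, iha, inv_pow]
    intro x hx
    rw [← hker, map_mul, map_inv, key x hx, map_pow, mul_inv_cancel]

/-- **The eigenvalue lemma.** -/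
theorem torus_eigen_four (h5 : ∀ x : N, x ^ 5 = 1) (τ : N →* N)
    (hτ : ∀ x, τ x * (x ^ 2)⁻¹ ∈ (⊤ : Subgroup N).lowerCentralSeries 1)
    {x : N} (hx : x ∈ (⊤ : Subgroup N).lowerCentralSeries 1) (h : τ x = x ^ 2) :
    x ∈ (⊤ : Subgroup N).lowerCentralSeries 4 := by
  have h1 := torus_eigen τ hτ 1 x hx
  rw [h] at h1
  have e1 : x = (x ^ 2 * (x ^ (2 ^ (1 + 1)))⁻¹) ^ 2 * x ^ 5 := by group
  have h2 : x ∈ (⊤ : Subgroup N).lowerCentralSeries 2 := by
    rw [e1, h5, mul_one]
    exact Subgroup.pow_mem _ h1 2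
  have h3 := torus_eigen τ hτ 2 x h2
  rw [h] at h3
  have e2 : x = (x ^ 2 * (x ^ (2 ^ (2 + 1)))⁻¹) ^ 4 * (x ^ 5) ^ 5 := by group
  have h4 : x ∈ (⊤ : Subgroup N).lowerCentralSeries 3 := by
    rw [e2, h5, mul_one]
    exact Subgroup.pow_mem _ h3 4
  have h5' := torus_eigen τ hτ 3 x h4
  rw [h] at h5'
  have e3 : x = (x ^ 2 * (x ^ (2 ^ (3 + 1)))⁻¹) * (x ^ 5) ^ 3 := by group
  rw [e3, h5, one_pow, mul_one]
  exact h5'

end eigen

end Pool.Agent.MP5c99ad
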