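import Mathlib
import Pool.Agent.Lib.MP_5c99ad_al.TorusA

set_option autoImplicit false

/-!
Torus trick, part B: the action on the abelianization of a subgroup `N` of a group `T` normalized by
the image of `δ : K →* T`, and the torus `u~ = (u, u², u³, u⁴)` in `K⁴`.
-/

namespace Pool.Agent.MP5c99ad

open scoped commutatorElement

theorem four_eq_sum {R : Type*} [Ring R] (x : R) : (x - 1) ^ 4 = (1 + x + x ^ 2 + x ^ 3 + x ^ 4) +
    5 * (- x ^ 3 + x ^ 2 - x) := by
  noncomm_ring

section conjmod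

variable {K T : Type} [Group K] [Group T] (δ : K →* T) (N : Subgroup T)
  (hN : ∀ g : K, ∀ n ∈ N, δ g * n * (δ g)⁻¹ ∈ N)

/-- conjugation by `δ g` on `N` -/
def conjN (g : K) : N →* N where
  toFun n := ⟨δ g * n * (δ g)⁻¹, hN g n n.2⟩
  map_one' := by ext; simp
  map_mul' := by intro a b; ext; simp

/-- the class of an element of `N` in the abelianization, written additively -/
def cls (n : N) : Additive (Abelianization N) := Additive.ofMul (Abelianization.of n)

theorem cls_mul (a b : N) : cls N (a * b) = cls N a + cls N b := by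
  show Additive.ofMul (Abelianization.of (a * b)) = _
  rw [map_mul]
  rfl

theorem cls_one : cls N 1 = 0 := by
  show Additive.ofMul (Abelianization.of 1) = _
  rw [map_one]
  rfl

theorem cls_inv (a : N) : cls N a⁻¹ = - cls N a := by
  show Additive.ofMul (Abelianization.of a⁻¹) = _
  rw [map_inv]
  rfl

theorem cls_pow (a : N) (n : ℕ) : cls N (a ^ n) = n • cls N a := by
  induction n with
  | zero => simp [cls_one]
  | succ n ih => rw [pow_succ, cls_mul, ih, succ_nsmul]

theorem cls_surj (a : Additive (Abelianization N)) : ∃ n : N, cls N n = a := by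
  obtain ⟨n, hn⟩ := QuotientGroup.mk'_surjective (commutator N) (Additive.toMul a)
  exact ⟨n, hn⟩

theorem cls_eq_zero {a : N} (h : cls N a = 0) : a ∈ (⊤ : Subgroup N).lowerCentralSeries 1 := by
  have h' : (Abelianization.of a : Abelianization N) = 1 := h
  have : a ∈ (Abelianization.of : N →* Abelianization N).ker := h'
  rw [Abelianization.ker_of] at this
  exact this

/-- the action of `K` on the abelianization of `N` -/
def rhoN : K →* AddMonoid.End (Additive (Abelianization N)) where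
  toFun g := MonoidHom.toAdditive (Abelianization.map (conjN δ N hN g))
  map_one' := by
    ext a
    obtain ⟨n, rfl⟩ := cls_surj N a
    show Additive.ofMul (Abelianization.of (conjN δ N hN 1 n)) = Additive.ofMul (Abelianization.of n)
    congr 2
    ext
    simp [conjN]
  map_mul' := by
    intro g h
    ext a
    obtain ⟨n, rfl⟩ := cls_surj N a
    show Additive.ofMul (Abelianization.of (conjN δ N hN (g * h) n)) =
      Additive.ofMul (Abelianization.of (conjN δ N hN g (conjN δ N hN h n)))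
    congr 2
    ext
    simp [conjN, mul_assoc]

theorem rhoN_cls (g : K) (n : N) : rhoN δ N hN g (cls N n) = cls N (conjN δ N hN g n) := rfl

theorem rhoN_five (h5 : ∀ x : T, x ^ 5 = 1) : (5 : AddMonoid.End (Additive (Abelianization N))) = 0 := by
  ext a
  obtain ⟨n, rfl⟩ := cls_surj N a
  have e : (5 : AddMonoid.End (Additive (Abelianization N))) (cls N n) = 5 • cls N n := by
    have : (5 : AddMonoid.End (Additive (Abelianization N))) = ((5 : ℕ) : AddMonoid.End (Additive (Abelianization N))) := by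
      norm_num
    rw [this, AddMonoid.End.natCast_apply]
  rw [e, ← cls_pow]
  have : n ^ 5 = 1 := by
    ext
    simpa using h5 n
  rw [this, cls_one]
  rfl

theorem rhoN_four (h5 : ∀ x : T, x ^ 5 = 1) (g : K) : (rhoN δ N hN g - 1) ^ 4 = 0 := by
  have h0 := rhoN_five N h5
  have hsum : (1 : AddMonoid.End (Additive (Abelianization N))) + rhoN δ N hN g + rhoN δ N hN g ^ 2 +
      rhoN δ N hN g ^ 3 + rhoN δ N hN g ^ 4 = 0 := by
    ext a
    obtain ⟨n, rfl⟩ := cls_surj N a
    have e : ((1 : AddMonoid.End (Additive (Abelianization N))) + rhoN δ N hN g + rhoN δ N hN g ^ 2 +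
      rhoN δ N hN g ^ 3 + rhoN δ N hN g ^ 4) (cls N n) =
      cls N (n * conjN δ N hN g n * conjN δ N hN (g ^ 2) n * conjN δ N hN (g ^ 3) n *
        conjN δ N hN (g ^ 4) n) := by
      rw [cls_mul, cls_mul, cls_mul, cls_mul, ← map_pow, ← map_pow, ← map_pow]
      rfl
    rw [e]
    have : n * conjN δ N hN g n * conjN δ N hN (g ^ 2) n * conjN δ N hN (g ^ 3) n *
        conjN δ N hN (g ^ 4) n = 1 := by
      ext
      show (n : T) * (δ g * n * (δ g)⁻¹) * (δ (g ^ 2) * n * (δ (g ^ 2))⁻¹) * (δ (g ^ 3) * n * (δ (g ^ 3))⁻¹) *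
        (δ (g ^ 4) * n * (δ (g ^ 4))⁻¹) = 1
      have h1 := h5 ((n : T) * δ g)
      have h2 := h5 (δ g)
      rw [map_pow, map_pow, map_pow]
      have e : (n : T) * (δ g * n * (δ g)⁻¹) * (δ g ^ 2 * n * (δ g ^ 2)⁻¹) * (δ g ^ 3 * n * (δ g ^ 3)⁻¹) *
        (δ g ^ 4 * n * (δ g ^ 4)⁻¹) = ((n : T) * δ g) ^ 5 * (δ g ^ 5)⁻¹ := by
        simp only [pow_succ, pow_zero, one_mul, mul_inv_rev]
        group
      rw [e, h1, h2]
      simp
    rw [this, cls_one]
    rfl
  rw [four_eq_sum, hsum, h0, zero_mul, zero_add]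

/-- the commutator of `δ g` with an element of `N` -/
def brN (g : K) (n : N) : N := conjN δ N hN g n * n⁻¹

theorem brN_coe (g : K) (n : N) : (brN δ N hN g n : T) = ⁅δ g, (n : T)⁆ := by
  show δ g * n * (δ g)⁻¹ * (n : T)⁻¹ = _
  rw [commutatorElement_def]

theorem cls_brN (g : K) (n : N) : cls N (brN δ N hN g n) = (rhoN δ N hN g - 1) (cls N n) := by
  show cls N (conjN δ N hN g n * n⁻¹) = rhoN δ N hN g (cls N n) - cls N n
  rw [cls_mul, cls_inv, rhoN_cls, sub_eq_add_neg]

end conjmod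

section torus

variable {K : Type} [Group K]

/-- the diagonal -/
def dg (K : Type) [Group K] : K →* (Fin 4 → K) where
  toFun g := fun _ => g
  map_one' := rfl
  map_mul' _ _ := rfl

/-- the index permutation `μ ↦ 2 μ`, `μ = i + 1` -/
def tIdx : Fin 4 → Fin 4 := ![1, 3, 0, 2]

/-- the permutation of coordinates -/
def tau (K : Type) [Group K] : (Fin 4 → K) →* (Fin 4 → K) where
  toFun x := fun i => x (tIdx i)
  map_one' := rfl
  map_mul' _ _ := rfl

/-- `u~ = (u, u², u³, u⁴)` -/
def ut (u : K) : Fin 4 → K := fun i => u ^ (i.val + 1)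

theorem tau_dg (g : K) : tau K (dg K g) = dg K g := rfl

theorem tau_ut (h5 : ∀ x : K, x ^ 5 = 1) (u : K) : tau K (ut u) = ut u ^ 2 := by
  funext i
  show u ^ ((tIdx i).val + 1) = (u ^ (i.val + 1)) ^ 2
  rw [← pow_mul]
  fin_cases i
  · rfl
  · rfl
  · show u ^ 1 = u ^ 6
    rw [pow_succ u 5, h5, one_mul, pow_one]
  · show u ^ 3 = u ^ 8
    have : u ^ 8 = u ^ 5 * u ^ 3 := by rw [← pow_add]
    rw [this, h5, one_mul]

/-- the normal closure of `u~` under the diagonal -/
def Nt (u : K) : Subgroup (Fin 4 → K) :=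
  Subgroup.closure (Set.range (fun g : K => dg K g * ut u * (dg K g)⁻¹))

theorem ut_mem (u : K) : ut u ∈ Nt u := Subgroup.subset_closure ⟨1, by simp⟩

theorem Nt_conj (u : K) (g : K) (n : Fin 4 → K) (hn : n ∈ Nt u) : dg K g * n * (dg K g)⁻¹ ∈ Nt u := by
  induction hn using Subgroup.closure_induction with
  | mem x hx =>
    obtain ⟨h, rfl⟩ := hx
    refine Subgroup.subset_closure ⟨g * h, ?_⟩
    simp only [map_mul]
    group
  | one => simp
  | mul a b _ _ ha hb =>
    have : dg K g * (a * b) * (dg K g)⁻¹ = (dg K g * a * (dg K g)⁻¹) * (dg K g * b * (dg K g)⁻¹) := by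
      group
    rw [this]
    exact mul_mem ha hb
  | inv a _ ha =>
    have : dg K g * a⁻¹ * (dg K g)⁻¹ = (dg K g * a * (dg K g)⁻¹)⁻¹ := by group
    rw [this]
    exact inv_mem ha

theorem Nt_tau (h5 : ∀ x : K, x ^ 5 = 1) (u : K) (n : Fin 4 → K) (hn : n ∈ Nt u) : tau K n ∈ Nt u := by
  induction hn using Subgroup.closure_induction with
  | mem x hx =>
    obtain ⟨h, rfl⟩ := hx
    rw [map_mul, map_mul, map_inv, tau_dg, tau_ut h5]
    exact Nt_conj u h _ (Subgroup.pow_mem _ (ut_mem u) 2)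
  | one => simp
  | mul a b _ _ ha hb => rw [map_mul]; exact mul_mem ha hb
  | inv a _ ha => rw [map_inv]; exact inv_mem ha

/-- `τ` on `N` -/
def tauN (h5 : ∀ x : K, x ^ 5 = 1) (u : K) : Nt u →* Nt u where
  toFun n := ⟨tau K n, Nt_tau h5 u n n.2⟩
  map_one' := by ext; simp
  map_mul' := by intro a b; ext; simp

theorem tauN_cls (h5 : ∀ x : K, x ^ 5 = 1) (u : K) (n : Nt u) :
    cls (Nt u) (tauN h5 u n) = 2 • cls (Nt u) n := by
  obtain ⟨n, hn⟩ := n
  induction hn using Subgroup.closure_induction with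
  | mem x hx =>
    obtain ⟨h, rfl⟩ := hx
    rw [← cls_pow]
    congr 1
    ext1
    show tau K (dg K h * ut u * (dg K h)⁻¹) = (dg K h * ut u * (dg K h)⁻¹) ^ 2
    rw [map_mul, map_mul, map_inv, tau_dg, tau_ut h5, pow_two, pow_two]
    group
  | one =>
    have e : (⟨1, one_mem _⟩ : Nt u) = 1 := rfl
    rw [e, map_one, cls_one, smul_zero]
  | mul a b ha hb iha ihb =>
    have e : (⟨a * b, mul_mem ha hb⟩ : Nt u) = ⟨a, ha⟩ * ⟨b, hb⟩ := rfl
    rw [e, map_mul, cls_mul, cls_mul, iha, ihb, smul_add]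
  | inv a ha iha =>
    have e : (⟨a⁻¹, inv_mem ha⟩ : Nt u) = (⟨a, ha⟩)⁻¹ := rfl
    rw [e, map_inv, cls_inv, cls_inv, iha, smul_neg]

/-- the coordinates of the lower central series of `N` -/
theorem Nt_coord (u : K) (i : Fin 4) (k : ℕ) {x : Nt u} (hx : x ∈ (⊤ : Subgroup (Nt u)).lowerCentralSeries k) :
    (x : Fin 4 → K) i ∈ (Subgroup.normalClosure {u}).lowerCentralSeries k := by
  let f : Nt u →* K := (Pi.evalMonoidHom (fun _ : Fin 4 => K) i).comp (Nt u).subtype
  have h1 : f x ∈ ((⊤ : Subgroup (Nt u)).lowerCentralSeries k).map f := Subgroup.mem_map_of_mem f hx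
  rw [Subgroup.map_lowerCentralSeries] at h1
  refine Subgroup.lowerCentralSeries_mono k ?_ h1
  rintro _ ⟨⟨n, hn⟩, -, rfl⟩
  show n i ∈ Subgroup.normalClosure {u}
  induction hn using Subgroup.closure_induction with
  | mem x hx =>
    obtain ⟨h, rfl⟩ := hx
    show h * u ^ (i.val + 1) * h⁻¹ ∈ _
    exact Subgroup.normalClosure_normal.conj_mem _
      (Subgroup.pow_mem _ (Subgroup.subset_normalClosure (Set.mem_singleton u)) _) h
  | one => exact one_mem _
  | mul a b _ _ ha hb => exact mul_mem ha hb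
  | inv a _ ha => exact inv_mem ha

/-- **The torus trick.** -/
theorem torus_trick (h5 : ∀ x : K, x ^ 5 = 1) (u : K) (t : Nt u) (hcl : cls (Nt u) t = 0)
    (hτ : tau K (t : Fin 4 → K) = (t : Fin 4 → K) ^ 2) (i : Fin 4) :
    (t : Fin 4 → K) i ∈ (Subgroup.normalClosure {u}).lowerCentralSeries 4 := by
  apply Nt_coord
  refine torus_eigen_four ?_ (tauN h5 u) ?_ (cls_eq_zero _ hcl) ?_
  · intro x
    ext j
    exact h5 _
  · intro x
    apply cls_eq_zero
    rw [cls_mul, cls_inv, cls_pow, tauN_cls, add_neg_cancel]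
  · ext1
    exact hτ

/-- the action of `K` on the abelianization of `N` -/
def rhoT (u : K) : K →* AddMonoid.End (Additive (Abelianization (Nt u))) :=
  rhoN (dg K) (Nt u) (Nt_conj u)

theorem rhoT_five (h5 : ∀ x : K, x ^ 5 = 1) (u : K) :
    (5 : AddMonoid.End (Additive (Abelianization (Nt u)))) = 0 :=
  rhoN_five (Nt u) (fun x => by funext i; exact h5 _)

theorem rhoT_four (h5 : ∀ x : K, x ^ 5 = 1) (u : K) (g : K) : (rhoT u g - 1) ^ 4 = 0 :=
  rhoN_four (dg K) (Nt u) (Nt_conj u) (fun x => by funext i; exact h5 _) g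

end torus

end Pool.Agent.MP5c99ad
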