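import Mathlib
import Pool.Agent.Lib.MP_5c99ad_al.TorusB

set_option autoImplicit false

/-!
The adjoint law, part A: the case of central commutators.
-/

namespace Pool.Agent.MP5c99ad

open scoped commutatorElement

/-- hypotheses of the adjoint law -/
structure AdjData (K : Type) [Group K] (K2 : Subgroup K) (S2 : Set K) (v w : K) : Prop where
  five : ∀ g : K, g ^ 5 = 1
  norm : K2.Normal
  gen : Subgroup.closure S2 = K2
  cls : ∀ u ∈ S2, (Subgroup.normalClosure {u}).lowerCentralSeries 4 = ⊥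
  op : ∀ (R : Type) [Ring R] (ρ : K →* R), (5 : R) = 0 → (∀ g, (ρ g - 1) ^ 4 = 0) →
    ∀ k ∈ K2, (ρ w - 1) * ρ k * (ρ v - 1) = 0
  vmem : v ∈ K2
  wmem : w ∈ K2
  comm : v * w = w * v

/-- the subgroup generated by the `K2`-conjugates of `v` -/
def VV {K : Type} [Group K] (K2 : Subgroup K) (v : K) : Subgroup K :=
  Subgroup.closure {x | ∃ k ∈ K2, x = k * v * k⁻¹}

section VVsec
variable {K : Type} [Group K] {K2 : Subgroup K} {v : K}

theorem VV_conj {a k : K} (ha : a ∈ VV K2 v) (hk : k ∈ K2) : k * a * k⁻¹ ∈ VV K2 v := by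
  induction ha using Subgroup.closure_induction with
  | mem x hx =>
    obtain ⟨h, hh, rfl⟩ := hx
    exact Subgroup.subset_closure ⟨k * h, mul_mem hk hh, by group⟩
  | one => simp
  | mul a b _ _ ha hb =>
    have : k * (a * b) * k⁻¹ = (k * a * k⁻¹) * (k * b * k⁻¹) := by group
    rw [this]
    exact mul_mem ha hb
  | inv a _ ha =>
    have : k * a⁻¹ * k⁻¹ = (k * a * k⁻¹)⁻¹ := by group
    rw [this]
    exact inv_mem ha

theorem VV_self : v ∈ VV K2 v := Subgroup.subset_closure ⟨1, one_mem _, by simp⟩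

theorem VV_le (hv : v ∈ K2) : VV K2 v ≤ K2 := by
  refine (Subgroup.closure_le _).2 ?_
  rintro _ ⟨k, hk, rfl⟩
  exact mul_mem (mul_mem hk hv) (inv_mem hk)

end VVsec

section central
variable {K : Type} [Group K]

theorem pair_mem {S T : Set K} {Z : Subgroup K} [Z.Normal] (h : ∀ a ∈ S, ∀ b ∈ T, ⁅a, b⁆ ∈ Z) :
    ∀ a ∈ Subgroup.closure S, ∀ b ∈ Subgroup.closure T, ⁅a, b⁆ ∈ Z := by
  have inv1 : ∀ a b : K, ⁅a, b⁆ ∈ Z → ⁅a⁻¹, b⁆ ∈ Z := by
    intro a b hab
    rw [commutatorElement_inv_left]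
    have h1 : ⁅b, a⁆ ∈ Z := by
      rw [← commutatorElement_inv]
      exact inv_mem hab
    have := Subgroup.Normal.conj_mem inferInstance _ h1 a⁻¹
    rwa [inv_inv] at this
  have inv2 : ∀ a b : K, ⁅a, b⁆ ∈ Z → ⁅a, b⁻¹⁆ ∈ Z := by
    intro a b hab
    rw [commutatorElement_inv_right]
    have h1 : ⁅b, a⁆ ∈ Z := by
      rw [← commutatorElement_inv]
      exact inv_mem hab
    have := Subgroup.Normal.conj_mem inferInstance _ h1 b⁻¹
    rwa [inv_inv] at this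
  intro a ha
  induction ha using Subgroup.closure_induction with
  | mem a ha =>
    intro b hb
    induction hb using Subgroup.closure_induction with
    | mem b hb => exact h a ha b hb
    | one => rw [commutatorElement_one_right]; exact one_mem _
    | mul b c _ _ hb hc =>
      rw [commutatorElement_mul_right_eq_mul_conj, mul_assoc, mul_assoc, ← mul_assoc b]
      exact mul_mem hb (Subgroup.Normal.conj_mem inferInstance _ hc b)
    | inv b _ hb => exact inv2 a b hb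
  | one => intro b _; rw [commutatorElement_one_left]; exact one_mem _
  | mul a c _ _ ha hc =>
    intro b hb
    rw [commutatorElement_mul_left_eq_conj_mul]
    exact mul_mem (Subgroup.Normal.conj_mem inferInstance _ (hc b hb) a) (ha b hb)
  | inv a _ ha => intro b hb; exact inv1 a b (ha b hb)

theorem cmul_left {a a' b : K} (h : ⁅a', b⁆ ∈ Subgroup.center K) : ⁅a * a', b⁆ = ⁅a', b⁆ * ⁅a, b⁆ := by
  rw [commutatorElement_mul_left_eq_conj_mul, Subgroup.mem_center_iff.1 h a, mul_assoc ⁅a', b⁆,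
    mul_inv_cancel, mul_one]

theorem cinv_left {a b : K} (h : ⁅a, b⁆ ∈ Subgroup.center K) : ⁅a⁻¹, b⁆ = ⁅a, b⁆⁻¹ := by
  have h1 : ⁅a⁻¹ * a, b⁆ = ⁅a, b⁆ * ⁅a⁻¹, b⁆ := cmul_left h
  rw [inv_mul_cancel, commutatorElement_one_left] at h1
  exact (inv_eq_of_mul_eq_one_right h1.symm).symm

theorem cpow_left {a b : K} (h : ⁅a, b⁆ ∈ Subgroup.center K) (n : ℕ) : ⁅a ^ n, b⁆ = ⁅a, b⁆ ^ n := by
  induction n with
  | zero => simp
  | succ n ih => rw [pow_succ, cmul_left h, ih, pow_succ']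

/-- the `log`-combination -/
def cc4 (a u : K) : K := a⁻¹ * (u * a * u⁻¹) ^ 3 * (u ^ 2 * a * (u ^ 2)⁻¹) * (u ^ 3 * a * (u ^ 3)⁻¹) ^ 2

/-- the five conjugates multiply to 1 -/
theorem five_conj (h5 : ∀ g : K, g ^ 5 = 1) (a u : K) :
    a * (u * a * u⁻¹) * (u ^ 2 * a * (u ^ 2)⁻¹) * (u ^ 3 * a * (u ^ 3)⁻¹) * (u ^ 4 * a * (u ^ 4)⁻¹) = 1 := by
  have h1 := h5 (a * u)
  have h2 := h5 u
  have e : a * (u * a * u⁻¹) * (u ^ 2 * a * (u ^ 2)⁻¹) * (u ^ 3 * a * (u ^ 3)⁻¹) * (u ^ 4 * a * (u ^ 4)⁻¹) =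
      (a * u) ^ 5 * (u ^ 5)⁻¹ := by
    simp only [pow_succ, pow_zero, one_mul, mul_inv_rev]
    group
  rw [e, h1, h2]
  simp

end central

section lin

variable {A : Type*} [AddCommGroup A]

theorem lin1 (h5 : ∀ a : A, (5 : ℤ) • a = 0) {f0 f1 f2 f3 f4 : A} (h : f0 + f1 + f2 + f3 + f4 = 0) :
    -f0 + (3 : ℤ) • f2 + f4 + (2 : ℤ) • f1 = (2 : ℤ) • (-f0 + (3 : ℤ) • f1 + f2 + (2 : ℤ) • f3) := by
  have h1 := h5 f1
  have h3 := h5 f3
  linear_combination (norm := module) h - h1 - h3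

theorem lin2 (h5 : ∀ a : A, (5 : ℤ) • a = 0) {f0 f1 f2 f3 f4 : A}
    (h1 : -f1 + (3 : ℤ) • f2 + f3 + (2 : ℤ) • f4 = 0)
    (h2 : -f2 + (3 : ℤ) • f3 + f4 + (2 : ℤ) • f0 = 0) : f1 = f0 := by
  have k2 := h5 f2
  have k3 := h5 f3
  have k0 := h5 f0
  linear_combination (norm := module) (2 : ℤ) • h2 - h1 + k2 - k3 - k0

end lin

end Pool.Agent.MP5c99ad
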