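import Mathlib
import Pool.Agent.Lib.MP_5c99ad_al.AdjointA

set_option autoImplicit false

/-!
The adjoint law, part B: the case of central commutators, conclusion.
-/

namespace Pool.Agent.MP5c99ad

open scoped commutatorElement
open scoped IsMulCommutative

section pz
variable {K : Type} [Group K]

open Classical in
/-- a central element, written additively -/
noncomputable def pz (x : K) : Additive (Subgroup.center K) :=
  if h : x ∈ Subgroup.center K then Additive.ofMul ⟨x, h⟩ else 0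

theorem pz_eq {x : K} (h : x ∈ Subgroup.center K) : pz x = Additive.ofMul (⟨x, h⟩ : Subgroup.center K) :=
  dif_pos h

theorem pz_mul {x y : K} (hx : x ∈ Subgroup.center K) (hy : y ∈ Subgroup.center K) :
    pz (x * y) = pz x + pz y := by
  rw [pz_eq hx, pz_eq hy, pz_eq (mul_mem hx hy)]
  rfl

theorem pz_one : pz (1 : K) = 0 := by
  rw [pz_eq (one_mem _)]
  rfl

theorem pz_inv {x : K} (hx : x ∈ Subgroup.center K) : pz x⁻¹ = - pz x := by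
  rw [pz_eq hx, pz_eq (inv_mem hx)]
  rfl

theorem pz_pow {x : K} (hx : x ∈ Subgroup.center K) (n : ℕ) : pz (x ^ n) = (n : ℤ) • pz x := by
  rw [pz_eq hx, pz_eq (pow_mem hx n), natCast_zsmul]
  rfl

theorem pz_inj {x y : K} (hx : x ∈ Subgroup.center K) (hy : y ∈ Subgroup.center K) (h : pz x = pz y) :
    x = y := by
  rw [pz_eq hx, pz_eq hy] at h
  exact congrArg Subtype.val (Additive.ofMul.injective h)

theorem pz_five (h5 : ∀ g : K, g ^ 5 = 1) (a : Additive (Subgroup.center K)) : (5 : ℤ) • a = 0 := by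
  have : (5 : ℤ) • a = (5 : ℕ) • a := by
    rw [← natCast_zsmul]
    rfl
  rw [this]
  apply Additive.toMul.injective
  apply Subtype.ext
  exact h5 _

end pz

section main
variable {K : Type} [Group K] {K2 : Subgroup K} {S2 : Set K} {v w : K}

/-- the pairing evaluated at the conjugate of `a` by `x` -/
noncomputable def fz (a b x : K) : Additive (Subgroup.center K) := pz ⁅x * a * x⁻¹, b⁆

theorem cc4_pz {a b u : K} (h0 : ⁅a, b⁆ ∈ Subgroup.center K)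
    (h1 : ⁅u * a * u⁻¹, b⁆ ∈ Subgroup.center K) (h2 : ⁅u ^ 2 * a * (u ^ 2)⁻¹, b⁆ ∈ Subgroup.center K)
    (h3 : ⁅u ^ 3 * a * (u ^ 3)⁻¹, b⁆ ∈ Subgroup.center K) :
    ⁅cc4 a u, b⁆ ∈ Subgroup.center K ∧
    pz ⁅cc4 a u, b⁆ = - fz a b 1 + (3 : ℤ) • fz a b u + fz a b (u ^ 2) + (2 : ℤ) • fz a b (u ^ 3) := by
  have e0 : ⁅a⁻¹, b⁆ = ⁅a, b⁆⁻¹ := cinv_left h0
  have e1 : ⁅(u * a * u⁻¹) ^ 3, b⁆ = ⁅u * a * u⁻¹, b⁆ ^ 3 := cpow_left h1 3
  have e3 : ⁅(u ^ 3 * a * (u ^ 3)⁻¹) ^ 2, b⁆ = ⁅u ^ 3 * a * (u ^ 3)⁻¹, b⁆ ^ 2 := cpow_left h3 2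
  have m1 : ⁅(u * a * u⁻¹) ^ 3, b⁆ ∈ Subgroup.center K := by rw [e1]; exact pow_mem h1 3
  have m3 : ⁅(u ^ 3 * a * (u ^ 3)⁻¹) ^ 2, b⁆ ∈ Subgroup.center K := by rw [e3]; exact pow_mem h3 2
  have e : ⁅cc4 a u, b⁆ = ⁅u ^ 3 * a * (u ^ 3)⁻¹, b⁆ ^ 2 * (⁅u ^ 2 * a * (u ^ 2)⁻¹, b⁆ *
      (⁅u * a * u⁻¹, b⁆ ^ 3 * ⁅a, b⁆⁻¹)) := by
    unfold cc4
    rw [cmul_left m3, cmul_left h2, cmul_left m1, e0, e1, e3]
  have hi : ⁅a, b⁆⁻¹ ∈ Subgroup.center K := inv_mem h0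
  have p1 : ⁅u * a * u⁻¹, b⁆ ^ 3 ∈ Subgroup.center K := pow_mem h1 3
  have p3 : ⁅u ^ 3 * a * (u ^ 3)⁻¹, b⁆ ^ 2 ∈ Subgroup.center K := pow_mem h3 2
  have e4 : fz a b 1 = pz ⁅a, b⁆ := by
    unfold fz
    simp
  refine ⟨by rw [e]; exact mul_mem p3 (mul_mem h2 (mul_mem p1 hi)), ?_⟩
  rw [e, pz_mul p3 (mul_mem h2 (mul_mem p1 hi)), pz_mul h2 (mul_mem p1 hi), pz_mul p1 hi,
    pz_pow h3, pz_pow h1, pz_inv h0, e4]
  unfold fz
  push_cast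
  abel

theorem five_pz (h5 : ∀ g : K, g ^ 5 = 1) {a b u : K} (h0 : ⁅a, b⁆ ∈ Subgroup.center K)
    (h1 : ⁅u * a * u⁻¹, b⁆ ∈ Subgroup.center K) (h2 : ⁅u ^ 2 * a * (u ^ 2)⁻¹, b⁆ ∈ Subgroup.center K)
    (h3 : ⁅u ^ 3 * a * (u ^ 3)⁻¹, b⁆ ∈ Subgroup.center K)
    (h4 : ⁅u ^ 4 * a * (u ^ 4)⁻¹, b⁆ ∈ Subgroup.center K) :
    fz a b 1 + fz a b u + fz a b (u ^ 2) + fz a b (u ^ 3) + fz a b (u ^ 4) = 0 := by
  have h := congrArg (fun t => pz ⁅t, b⁆) (five_conj h5 a u)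
  simp only [commutatorElement_one_left, pz_one] at h
  rw [cmul_left h4, cmul_left h3, cmul_left h2, cmul_left h1,
    pz_mul h4 (mul_mem h3 (mul_mem h2 (mul_mem h1 h0))), pz_mul h3 (mul_mem h2 (mul_mem h1 h0)),
    pz_mul h2 (mul_mem h1 h0), pz_mul h1 h0] at h
  have e4 : fz a b 1 = pz ⁅a, b⁆ := by
    unfold fz
    simp
  rw [e4, ← h]
  unfold fz
  abel

/-- the operator law for the generated subgroups -/
theorem op_VV (hD : AdjData K K2 S2 v w) {R : Type} [Ring R] (ρ : K →* R) (h5 : (5 : R) = 0)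
    (h4 : ∀ g, (ρ g - 1) ^ 4 = 0) {a b k : K} (ha : a ∈ VV K2 v) (hb : b ∈ VV K2 w) (hk : k ∈ K2) :
    (ρ b - 1) * ρ k * (ρ a - 1) = 0 := by
  have hinv : ∀ g : K, ρ g * ρ g⁻¹ = 1 := by intro g; rw [← map_mul]; simp
  have hinv' : ∀ g : K, ρ g⁻¹ * ρ g = 1 := by intro g; rw [← map_mul]; simp
  have key : ∀ a ∈ VV K2 v, ∀ k ∈ K2, (ρ w - 1) * ρ k * (ρ a - 1) = 0 := by
    intro a ha
    induction ha using Subgroup.closure_induction with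
    | mem x hx =>
      obtain ⟨h, hh, rfl⟩ := hx
      intro k hk
      have h1 := hD.op R ρ h5 h4 (k * h) (mul_mem hk hh)
      have e : ρ (h * v * h⁻¹) - 1 = ρ h * (ρ v - 1) * ρ h⁻¹ := by
        rw [map_mul, map_mul, mul_sub, sub_mul, mul_one, hinv]
      rw [e]
      calc (ρ w - 1) * ρ k * (ρ h * (ρ v - 1) * ρ h⁻¹) = ((ρ w - 1) * ρ (k * h) * (ρ v - 1)) * ρ h⁻¹ := by
            rw [map_mul]; noncomm_ring
        _ = 0 := by rw [h1, zero_mul]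
    | one => intro k _; simp
    | mul x y hx _ ihx ihy =>
      intro k hk
      have h1 := ihx k hk
      have h2 := ihy (k * x) (mul_mem hk (VV_le hD.vmem hx))
      have e : (ρ w - 1) * ρ k * (ρ (x * y) - 1) = (ρ w - 1) * ρ (k * x) * (ρ y - 1) +
          (ρ w - 1) * ρ k * (ρ x - 1) := by
        rw [map_mul, map_mul]; noncomm_ring
      rw [e, h1, h2, add_zero]
    | inv x hx ihx =>
      intro k hk
      have h1 := ihx (k * x⁻¹) (mul_mem hk (inv_mem (VV_le hD.vmem hx)))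
      have e : (ρ w - 1) * ρ k * (ρ x⁻¹ - 1) = - ((ρ w - 1) * ρ (k * x⁻¹) * (ρ x - 1)) := by
        rw [map_mul]
        have : (ρ w - 1) * (ρ k * ρ x⁻¹) * (ρ x - 1) = (ρ w - 1) * ρ k * (ρ x⁻¹ * ρ x) -
            (ρ w - 1) * ρ k * ρ x⁻¹ := by noncomm_ring
        rw [this, hinv']
        noncomm_ring
      rw [e, h1, neg_zero]
  revert k
  induction hb using Subgroup.closure_induction with
  | mem x hx =>
    obtain ⟨h, hh, rfl⟩ := hx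
    intro k hk
    have h1 := key a ha (h⁻¹ * k) (mul_mem (inv_mem hh) hk)
    have e : ρ (h * w * h⁻¹) - 1 = ρ h * (ρ w - 1) * ρ h⁻¹ := by
      rw [map_mul, map_mul, mul_sub, sub_mul, mul_one, hinv]
    rw [e]
    calc ρ h * (ρ w - 1) * ρ h⁻¹ * ρ k * (ρ a - 1) = ρ h * ((ρ w - 1) * ρ (h⁻¹ * k) * (ρ a - 1)) := by
          rw [map_mul]; noncomm_ring
      _ = 0 := by rw [h1, mul_zero]
  | one => intro k _; simp
  | mul x y _ hy ihx ihy =>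
    intro k hk
    have h2 := ihy hk
    have h1 := ihx (mul_mem (VV_le hD.wmem hy) hk)
    have e : (ρ (x * y) - 1) * ρ k * (ρ a - 1) = (ρ x - 1) * ρ (y * k) * (ρ a - 1) +
        (ρ y - 1) * ρ k * (ρ a - 1) := by
      rw [map_mul, map_mul]; noncomm_ring
    rw [e, h1, h2, add_zero]
  | inv x hx ihx =>
    intro k hk
    have h1 := ihx (mul_mem (inv_mem (VV_le hD.wmem hx)) hk)
    have e : (ρ x⁻¹ - 1) * ρ k * (ρ a - 1) = - ((ρ x - 1) * ρ (x⁻¹ * k) * (ρ a - 1)) := by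
      rw [map_mul]
      have : (ρ x - 1) * (ρ x⁻¹ * ρ k) * (ρ a - 1) = (ρ x * ρ x⁻¹) * ρ k * (ρ a - 1) -
          ρ x⁻¹ * ρ k * (ρ a - 1) := by noncomm_ring
      rw [this, hinv]
      noncomm_ring
    rw [e, h1, neg_zero]

/-- the log-combination in the torus: an element of `N` -/
def eN (a u : K) (j : ℕ) : Nt u :=
  (⟨ut u, ut_mem u⟩ : Nt u) ^ j * (conjN (dg K) (Nt u) (Nt_conj u) a (⟨ut u, ut_mem u⟩ ^ j))⁻¹

def cN (a u : K) : Nt u :=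
  conjN (dg K) (Nt u) (Nt_conj u) a⁻¹ (eN a u 1) * eN a u 1 * conjN (dg K) (Nt u) (Nt_conj u) a (eN a u 1) *
    conjN (dg K) (Nt u) (Nt_conj u) (a ^ 2) (eN a u 2) * conjN (dg K) (Nt u) (Nt_conj u) (a ^ 3) (eN a u 3) *
    conjN (dg K) (Nt u) (Nt_conj u) (a ^ 4) (eN a u 3)

theorem cN_coe (h5 : ∀ g : K, g ^ 5 = 1) (a u : K) (i : Fin 4) :
    (cN a u : Fin 4 → K) i = cc4 a (ut u i) := by
  set z := ut u i with hz
  have e1 : ∀ j, (eN a u j : Fin 4 → K) i = z ^ j * (a * z ^ j * a⁻¹)⁻¹ := fun j => rfl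
  show (a⁻¹ * (eN a u 1 : Fin 4 → K) i * (a⁻¹)⁻¹) * (eN a u 1 : Fin 4 → K) i *
    (a * (eN a u 1 : Fin 4 → K) i * a⁻¹) * (a ^ 2 * (eN a u 2 : Fin 4 → K) i * (a ^ 2)⁻¹) *
    (a ^ 3 * (eN a u 3 : Fin 4 → K) i * (a ^ 3)⁻¹) * (a ^ 4 * (eN a u 3 : Fin 4 → K) i * (a ^ 4)⁻¹) = _
  rw [e1, e1, e1]
  have h1 := h5 a
  have e : (a⁻¹ * (z ^ 1 * (a * z ^ 1 * a⁻¹)⁻¹) * (a⁻¹)⁻¹) * (z ^ 1 * (a * z ^ 1 * a⁻¹)⁻¹) *
    (a * (z ^ 1 * (a * z ^ 1 * a⁻¹)⁻¹) * a⁻¹) * (a ^ 2 * (z ^ 2 * (a * z ^ 2 * a⁻¹)⁻¹) * (a ^ 2)⁻¹) *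
    (a ^ 3 * (z ^ 3 * (a * z ^ 3 * a⁻¹)⁻¹) * (a ^ 3)⁻¹) * (a ^ 4 * (z ^ 3 * (a * z ^ 3 * a⁻¹)⁻¹) * (a ^ 4)⁻¹) =
    cc4 a z * (a ^ 5)⁻¹ := by
    unfold cc4
    simp only [pow_succ, pow_zero, one_mul, mul_inv_rev]
    group
  rw [e, h1]
  simp

theorem eN_cls (a u : K) (j : ℕ) : cls (Nt u) (eN a u j) =
    (rhoT u a - 1) (- (j • cls (Nt u) ⟨ut u, ut_mem u⟩)) := by
  unfold eN
  rw [cls_mul, cls_inv, ← rhoN_cls, cls_pow]
  show _ = rhoT u a (- (j • cls (Nt u) ⟨ut u, ut_mem u⟩)) - (- (j • cls (Nt u) ⟨ut u, ut_mem u⟩))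
  rw [map_neg]
  unfold rhoT
  abel

/-- the key identity: the log-combination is orthogonal to `WW` -/
theorem cc4_one (hD : AdjData K K2 S2 v w)
    (hc : ∀ a ∈ VV K2 v, ∀ b ∈ VV K2 w, ⁅a, b⁆ ∈ Subgroup.center K)
    {a b u : K} (ha : a ∈ VV K2 v) (hb : b ∈ VV K2 w) (hu : u ∈ S2) :
    ⁅cc4 a u, b⁆ = 1 := by
  have hu2 : u ∈ K2 := by rw [← hD.gen]; exact Subgroup.subset_closure hu
  have hz : ∀ z ∈ K2, ⁅z * a * z⁻¹, b⁆ ∈ Subgroup.center K := fun z hz => hc _ (VV_conj ha hz) b hb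
  have h0 : ⁅a, b⁆ ∈ Subgroup.center K := hc a ha b hb
  have hsq : ∀ z ∈ K2, ⁅cc4 a (z ^ 2), b⁆ = ⁅cc4 a z, b⁆ ^ 2 := by
    intro z hzm
    obtain ⟨m1, p1⟩ := cc4_pz (u := z ^ 2) h0 (hz _ (pow_mem hzm _)) (hz _ (pow_mem (pow_mem hzm _) _))
      (hz _ (pow_mem (pow_mem hzm _) _))
    obtain ⟨m2, p2⟩ := cc4_pz (u := z) h0 (hz _ hzm) (hz _ (pow_mem hzm _)) (hz _ (pow_mem hzm _))
    have hf := five_pz hD.five h0 (hz _ hzm) (hz _ (pow_mem hzm 2)) (hz _ (pow_mem hzm 3)) (hz _ (pow_mem hzm 4))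
    apply pz_inj m1 (pow_mem m2 2)
    rw [pz_pow m2, p1, p2]
    have e4 : (z ^ 2) ^ 2 = z ^ 4 := by rw [← pow_mul]
    have e6 : (z ^ 2) ^ 3 = z := by
      rw [← pow_mul]
      have : z ^ (2 * 3) = z ^ 5 * z := by rw [← pow_succ]
      rw [this, hD.five, one_mul]
    rw [e4, e6]
    exact lin1 (pz_five hD.five) hf
  let t : Nt u := brN (dg K) (Nt u) (Nt_conj u) b (cN a u)
  have ht : ∀ i, (t : Fin 4 → K) i = ⁅b, cc4 a (ut u i)⁆ := by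
    intro i
    have : (t : Fin 4 → K) = ⁅dg K b, (cN a u : Fin 4 → K)⁆ := brN_coe _ _ _ _ _
    rw [this, ← cN_coe hD.five a u i]
    rfl
  have hcl : cls (Nt u) t = 0 := by
    have hop : ∀ k ∈ K2, ∀ x, (rhoT u b - 1) (rhoT u k ((rhoT u a - 1) x)) = 0 := by
      intro k hk x
      have := op_VV hD (rhoT u) (rhoT_five hD.five u) (rhoT_four hD.five u) ha hb hk
      exact DFunLike.congr_fun this x
    have ham := VV_le hD.vmem ha
    have hk1 := hop _ (inv_mem ham)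
    have hk0 := hop 1 (one_mem _)
    have hka := hop _ ham
    have hk2 := hop _ (pow_mem ham 2)
    have hk3 := hop _ (pow_mem ham 3)
    have hk4 := hop _ (pow_mem ham 4)
    rw [show cls (Nt u) t = _ from cls_brN _ _ _ _ _]
    unfold cN
    rw [cls_mul, cls_mul, cls_mul, cls_mul, cls_mul, ← rhoN_cls, ← rhoN_cls, ← rhoN_cls, ← rhoN_cls,
      ← rhoN_cls, eN_cls, eN_cls, eN_cls, map_add, map_add, map_add, map_add, map_add]
    have hk0' : ∀ x, (rhoT u b - 1) ((rhoT u a - 1) x) = 0 := by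
      intro x
      have := hk0 x
      rw [map_one] at this
      exact this
    unfold rhoT at *
    rw [hk1, hk0', hka, hk2, hk3, hk4]
    simp
  have hτ : tau K (t : Fin 4 → K) = (t : Fin 4 → K) ^ 2 := by
    funext i
    have e1 : tau K (t : Fin 4 → K) i = (t : Fin 4 → K) (tIdx i) := rfl
    have e2 : ((t : Fin 4 → K) ^ 2) i = ((t : Fin 4 → K) i) ^ 2 := rfl
    have e3 : ut u (tIdx i) = (ut u i) ^ 2 := congrFun (tau_ut hD.five u) i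
    have e4 : ut u i ∈ K2 := pow_mem hu2 _
    rw [e1, e2, ht, ht, e3, ← commutatorElement_inv, hsq _ e4, ← commutatorElement_inv _ b, inv_pow]
  have h1 := torus_trick hD.five u t hcl hτ 0
  rw [hD.cls u hu, Subgroup.mem_bot, ht] at h1
  have e : ut u 0 = u := by
    show u ^ (0 + 1) = u
    simp
  rw [e, ← commutatorElement_inv, inv_eq_one] at h1
  exact h1

theorem inv_step (hD : AdjData K K2 S2 v w)
    (hc : ∀ a ∈ VV K2 v, ∀ b ∈ VV K2 w, ⁅a, b⁆ ∈ Subgroup.center K)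
    {a b u : K} (ha : a ∈ VV K2 v) (hb : b ∈ VV K2 w) (hu : u ∈ S2) :
    ⁅u * a * u⁻¹, b⁆ = ⁅a, b⁆ := by
  have hu2 : u ∈ K2 := by rw [← hD.gen]; exact Subgroup.subset_closure hu
  have hz : ∀ z ∈ K2, ⁅z * a * z⁻¹, b⁆ ∈ Subgroup.center K := fun z hz => hc _ (VV_conj ha hz) b hb
  have hz2 : ∀ y ∈ K2, ∀ z ∈ K2, ⁅z * (y * a * y⁻¹) * z⁻¹, b⁆ ∈ Subgroup.center K :=
    fun y hy z hz => hc _ (VV_conj (VV_conj ha hy) hz) b hb
  have hfz : ∀ y z : K, fz (y * a * y⁻¹) b z = fz a b (z * y) := by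
    intro y z
    unfold fz
    congr 2
    group
  have h1 := cc4_one hD hc (VV_conj ha hu2) hb hu
  have h2 := cc4_one hD hc (VV_conj ha (pow_mem hu2 2)) hb hu
  obtain ⟨-, p1⟩ := cc4_pz (a := u * a * u⁻¹) (b := b) (u := u) (hz _ hu2) (hz2 _ hu2 _ hu2)
    (hz2 _ hu2 _ (pow_mem hu2 2)) (hz2 _ hu2 _ (pow_mem hu2 3))
  obtain ⟨-, p2⟩ := cc4_pz (a := u ^ 2 * a * (u ^ 2)⁻¹) (b := b) (u := u) (hz _ (pow_mem hu2 2))
    (hz2 _ (pow_mem hu2 2) _ hu2)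
    (hz2 _ (pow_mem hu2 2) _ (pow_mem hu2 2)) (hz2 _ (pow_mem hu2 2) _ (pow_mem hu2 3))
  rw [h1, pz_one, hfz, hfz, hfz, hfz, one_mul, ← pow_two, ← pow_succ, ← pow_succ] at p1
  rw [h2, pz_one, hfz, hfz, hfz, hfz, one_mul, ← pow_succ', ← pow_add, ← pow_add] at p2
  have e5 : u ^ (3 + 2) = 1 := hD.five u
  rw [e5] at p2
  have := lin2 (pz_five hD.five) p1.symm p2.symm
  unfold fz at this
  have := pz_inj (hz _ hu2) (by simpa using hz _ (one_mem K2)) this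
  simpa using this

/-- **the adjoint law, central case** -/
theorem adj_central (hD : AdjData K K2 S2 v w)
    (hc : ∀ a ∈ VV K2 v, ∀ b ∈ VV K2 w, ⁅a, b⁆ ∈ Subgroup.center K) {k : K} (hk : k ∈ K2) :
    ⁅k * v * k⁻¹, w⁆ = 1 := by
  have key : ∀ k ∈ K2, ∀ a ∈ VV K2 v, ∀ b ∈ VV K2 w, ⁅k * a * k⁻¹, b⁆ = ⁅a, b⁆ := by
    intro k hk
    have hk' : k ∈ Subgroup.closure S2 := by rw [hD.gen]; exact hk
    clear hk
    induction hk' using Subgroup.closure_induction with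
    | mem u hu => intro a ha b hb; exact inv_step hD hc ha hb hu
    | one => intro a _ b _; simp
    | mul x y hx hy ihx ihy =>
      intro a ha b hb
      have hy2 : y ∈ K2 := by rw [← hD.gen]; exact hy
      have e : x * y * a * (x * y)⁻¹ = x * (y * a * y⁻¹) * x⁻¹ := by group
      rw [e, ihx _ (VV_conj ha hy2) b hb, ihy a ha b hb]
    | inv x hx ihx =>
      intro a ha b hb
      have hx2 : x ∈ K2 := by rw [← hD.gen]; exact hx
      have h1 := ihx (x⁻¹ * a * x⁻¹⁻¹) (VV_conj ha (inv_mem hx2)) b hb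
      rw [← h1]
      congr 1
      group
  rw [key k hk v VV_self w VV_self, commutatorElement_eq_one_iff_mul_comm]
  exact hD.comm

end main

end Pool.Agent.MP5c99ad
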