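import Mathlib

set_option autoImplicit false

/-!
Class bound for normal closures in groups of exponent 5, part A: definitions and the passage from
the ring theorem `T1Prop` to its form with a functional.
-/

namespace Pool.Agent.MP5c99ad

universe u

/-- sum over the symmetric group `S₄` of the products of four ring elements -/
def sym4 {U : Type*} [Ring U] (a b c d : U) : U :=
  a*b*c*d + a*b*d*c + a*c*b*d + a*c*d*b + a*d*b*c + a*d*c*b +
  b*a*c*d + b*a*d*c + b*c*a*d + b*c*d*a + b*d*a*c + b*d*c*a +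
  c*a*b*d + c*a*d*b + c*b*a*d + c*b*d*a + c*d*a*b + c*d*b*a +
  d*a*b*c + d*a*c*b + d*b*a*c + d*b*c*a + d*c*a*b + d*c*b*a

/-- Lie monomials in `X` and the elements of `Y` -/
inductive LieMon {U : Type*} [Ring U] (X : U) (Y : Set U) : U → Prop
  | base : LieMon X Y X
  | letter (y : U) : y ∈ Y → LieMon X Y y
  | br (a b : U) : LieMon X Y a → LieMon X Y b → LieMon X Y (a * b - b * a)

/-- products of `s₀ X s₁ X ⋯ X s_k`, with `s_i` in the submonoid generated by `Y` -/
inductive GapWord {U : Type*} [Ring U] (X : U) (Y : Set U) : ℕ → U → Prop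
  | base (s : U) : s ∈ Submonoid.closure Y → GapWord X Y 0 s
  | step (k : ℕ) (w s : U) : GapWord X Y k w → s ∈ Submonoid.closure Y →
      GapWord X Y (k + 1) (w * X * s)

/-- The ring theorem (certificate part): `m` = number of `X`'s. -/
def T1Prop (m : ℕ) : Prop :=
  ∀ (U : Type u) [Ring U], (5 : U) = 0 → ∀ (X : U) (Y : Set U),
    (∀ y ∈ Y, ∀ z ∈ Y, y * z = z * y) →
    (∀ u1 u2 u3 u4, LieMon X Y u1 → LieMon X Y u2 → LieMon X Y u3 → LieMon X Y u4 →
      sym4 u1 u2 u3 u4 = 0) →
    ∀ (A : Type u) [AddCommGroup A] (φ : U →+ A),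
      (∀ y ∈ Y, ∀ v, φ (y * v) = 0) → (∀ y ∈ Y, ∀ v, φ (v * y) = 0) →
      ∀ w, GapWord X Y m w → φ w = 0

theorem sym4_map {U V : Type*} [Ring U] [Ring V] (f : U →+* V) (a b c d : U) :
    f (sym4 a b c d) = sym4 (f a) (f b) (f c) (f d) := by
  simp [sym4]

theorem GapWord.map {U V : Type*} [Ring U] [Ring V] (f : U →+* V) {X : U} {Y : Set U} {k : ℕ} {w : U}
    (h : GapWord X Y k w) : GapWord (f X) (f '' Y) k (f w) := by
  have hs : ∀ s ∈ Submonoid.closure Y, f s ∈ Submonoid.closure (f '' Y) := by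
    intro s hs
    have := Submonoid.mem_map_of_mem f hs
    rw [MonoidHom.map_mclosure] at this
    exact this
  induction h with
  | base s h => exact GapWord.base _ (hs s h)
  | step k w s _ h ih =>
    rw [map_mul, map_mul]
    exact GapWord.step k _ _ ih (hs s h)

theorem LieMon.lift {U V : Type*} [Ring U] [Ring V] (f : U →+* V) {X : U} {Y : Set U} {v : V}
    (h : LieMon (f X) (f '' Y) v) : ∃ w, LieMon X Y w ∧ f w = v := by
  induction h with
  | base => exact ⟨X, LieMon.base, rfl⟩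
  | letter y hy =>
    obtain ⟨z, hz, rfl⟩ := hy
    exact ⟨z, LieMon.letter z hz, rfl⟩
  | br a b _ _ iha ihb =>
    obtain ⟨a', ha', rfl⟩ := iha
    obtain ⟨b', hb', rfl⟩ := ihb
    exact ⟨a' * b' - b' * a', LieMon.br _ _ ha' hb', by simp⟩

/-- `T1` in the form needed: relations only under a functional. -/
theorem T1_functional {m : ℕ} (T1 : T1Prop.{u} m) {U : Type u} [Ring U] {A : Type u} [AddCommGroup A]
    (h5 : ∀ a : A, (5 : ℤ) • a = 0) (X : U) (Y : Set U) (φ : U →+ A)
    (hcomm : ∀ y ∈ Y, ∀ z ∈ Y, ∀ P S, φ (P * (y * z - z * y) * S) = 0)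
    (hsym : ∀ u1 u2 u3 u4, LieMon X Y u1 → LieMon X Y u2 → LieMon X Y u3 → LieMon X Y u4 →
      ∀ P S, φ (P * sym4 u1 u2 u3 u4 * S) = 0)
    (hl : ∀ y ∈ Y, ∀ v, φ (y * v) = 0) (hr : ∀ y ∈ Y, ∀ v, φ (v * y) = 0)
    (w : U) (hw : GapWord X Y m w) : φ w = 0 := by
  let K : TwoSidedIdeal U := TwoSidedIdeal.mk' {k | ∀ P S, φ (P * k * S) = 0}
    (by intro P S; simp)
    (by
      intro x y hx hy P S
      rw [mul_add, add_mul, map_add, hx P S, hy P S, add_zero])
    (by
      intro x hx P S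
      rw [mul_neg, neg_mul, map_neg, hx P S, neg_zero])
    (by
      intro x y hy P S
      have := hy (P * x) S
      rwa [mul_assoc P x y] at this)
    (by
      intro x y hx P S
      have := hx P (y * S)
      rwa [← mul_assoc, mul_assoc P x y] at this)
  have hK : ∀ k, k ∈ K ↔ ∀ P S, φ (P * k * S) = 0 := by
    intro k
    exact TwoSidedIdeal.mem_mk' _ _ _ _ _ _ _
  let c := K.ringCon
  let q : U →+* c.Quotient := c.mk'
  have hq0 : ∀ k, k ∈ K → q k = 0 := by
    intro k hk
    have : c k 0 := hk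
    exact (RingCon.eq c).2 this
  have hφK : ∀ k, k ∈ K → φ k = 0 := by
    intro k hk
    have := (hK k).1 hk 1 1
    simpa using this
  have hcφ : ∀ a b, c a b → φ a = φ b := by
    intro a b hab
    have h1 : a - b ∈ K := by
      have : c (a - b) (b - b) := c.sub hab (c.refl b)
      rw [sub_self] at this
      exact this
    have := hφK _ h1
    rw [map_sub, sub_eq_zero] at this
    exact this
  let φ' : c.Quotient →+ A :=
    { toFun := fun z => Quotient.liftOn z (fun a => φ a) (fun a b hab => hcφ a b hab)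
      map_zero' := by
        show φ 0 = 0
        exact map_zero φ
      map_add' := by
        intro x y
        obtain ⟨x, rfl⟩ := c.mk'_surjective x
        obtain ⟨y, rfl⟩ := c.mk'_surjective y
        show φ (x + y) = φ x + φ y
        exact map_add φ x y }
  have hφ' : ∀ a, φ' (q a) = φ a := fun a => rfl
  have hsurj : Function.Surjective q := c.mk'_surjective
  have h5q : (5 : c.Quotient) = 0 := by
    have h : (5 : U) ∈ K := by
      rw [hK]
      intro P S
      have : P * 5 * S = (5 : ℤ) • (P * S) := by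
        have h5c : P * (5 : U) = (5 : U) * P := (Nat.cast_commute 5 P).symm.eq
        rw [h5c, mul_assoc, zsmul_eq_mul]
        norm_num
      rw [this, map_zsmul, h5]
    have := hq0 _ h
    rw [← this]
    exact (map_ofNat q 5).symm
  have := T1 c.Quotient h5q (q X) (q '' Y) (by
      rintro _ ⟨y, hy, rfl⟩ _ ⟨z, hz, rfl⟩
      rw [← sub_eq_zero, ← map_mul, ← map_mul, ← map_sub]
      exact hq0 _ ((hK _).2 (fun P S => hcomm y hy z hz P S))) (by
      intro u1 u2 u3 u4 h1 h2 h3 h4
      obtain ⟨v1, hv1, rfl⟩ := h1.lift q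
      obtain ⟨v2, hv2, rfl⟩ := h2.lift q
      obtain ⟨v3, hv3, rfl⟩ := h3.lift q
      obtain ⟨v4, hv4, rfl⟩ := h4.lift q
      rw [← sym4_map]
      exact hq0 _ ((hK _).2 (fun P S => hsym _ _ _ _ hv1 hv2 hv3 hv4 P S)))
    A φ' (by
      rintro _ ⟨y, hy, rfl⟩ v
      obtain ⟨v, rfl⟩ := hsurj v
      rw [← map_mul, hφ']
      exact hl y hy v) (by
      rintro _ ⟨y, hy, rfl⟩ v
      obtain ⟨v, rfl⟩ := hsurj v
      rw [← map_mul, hφ']
      exact hr y hy v) (q w) (hw.map q)
  rwa [hφ'] at this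

end Pool.Agent.MP5c99ad
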