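import Mathlib
import Pool.Agent.Lib.MP_5c99ad_al.ClassA

set_option autoImplicit false

/-!
Class bound, part B: in a filtered ring, `sym4` of four differences `a_i - 1` is deeper than expected.
-/

namespace Pool.Agent.MP5c99ad

abbrev Q4 := Bool × Bool × Bool × Bool

/-- weight of a subset -/
def wt4 (w : Fin 4 → ℕ) (b : Q4) : ℕ :=
  (bif b.1 then w 0 else 0) + (bif b.2.1 then w 1 else 0) + (bif b.2.2.1 then w 2 else 0) +
    (bif b.2.2.2 then w 3 else 0)

theorem bif_sup_inf (x y : Bool) (n : ℕ) :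
    (bif x ⊔ y then n else 0) + (bif x ⊓ y then n else 0) =
      (bif x then n else 0) + (bif y then n else 0) := by
  cases x <;> cases y <;> simp

theorem wt4_sup_inf (w : Fin 4 → ℕ) (b c : Q4) :
    wt4 w (b ⊔ c) + wt4 w (b ⊓ c) = wt4 w b + wt4 w c := by
  have h0 := bif_sup_inf b.1 c.1 (w 0)
  have h1 := bif_sup_inf b.2.1 c.2.1 (w 1)
  have h2 := bif_sup_inf b.2.2.1 c.2.2.1 (w 2)
  have h3 := bif_sup_inf b.2.2.2 c.2.2.2 (w 3)
  simp only [wt4, Prod.fst_sup, Prod.snd_sup, Prod.fst_inf, Prod.snd_inf]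
  omega

theorem wt4_mono (w v : Fin 4 → ℕ) (h : ∀ i, w i ≤ v i) (b : Q4) : wt4 w b ≤ wt4 v b := by
  have h0 := h 0
  have h1 := h 1
  have h2 := h 2
  have h3 := h 3
  obtain ⟨b0, b1, b2, b3⟩ := b
  simp only [wt4]
  cases b0 <;> cases b1 <;> cases b2 <;> cases b3 <;> simp <;> omega

variable {R : Type*} [Ring R]

/-- zeta transform -/
def zt (f : Q4 → R) (s : Q4) : R := ∑ b : Q4, if b ≤ s then f b else 0

/-- union convolution -/
def cv (f g : Q4 → R) (b : Q4) : R := ∑ b1 : Q4, ∑ b2 : Q4, if b1 ⊔ b2 = b then f b1 * g b2 else 0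

theorem zt_cv (f g : Q4 → R) (s : Q4) : zt (cv f g) s = zt f s * zt g s := by
  unfold zt cv
  calc (∑ b : Q4, if b ≤ s then ∑ b1 : Q4, ∑ b2 : Q4, if b1 ⊔ b2 = b then f b1 * g b2 else 0 else 0)
      = ∑ b : Q4, ∑ b1 : Q4, ∑ b2 : Q4, if b1 ⊔ b2 = b then (if b ≤ s then f b1 * g b2 else 0) else 0 := by
        refine Finset.sum_congr rfl fun b _ => ?_
        split_ifs with h
        · refine Finset.sum_congr rfl fun b1 _ => Finset.sum_congr rfl fun b2 _ => ?_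
          split_ifs <;> rfl
        · simp
    _ = ∑ b1 : Q4, ∑ b2 : Q4, ∑ b : Q4, if b1 ⊔ b2 = b then (if b ≤ s then f b1 * g b2 else 0) else 0 := by
        rw [Finset.sum_comm]
        refine Finset.sum_congr rfl fun b1 _ => ?_
        rw [Finset.sum_comm]
    _ = ∑ b1 : Q4, ∑ b2 : Q4, (if b1 ≤ s then f b1 else 0) * (if b2 ≤ s then g b2 else 0) := by
        refine Finset.sum_congr rfl fun b1 _ => Finset.sum_congr rfl fun b2 _ => ?_
        rw [Finset.sum_ite_eq]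
        simp only [Finset.mem_univ, if_true, sup_le_iff]
        by_cases h1 : b1 ≤ s <;> by_cases h2 : b2 ≤ s <;> simp [h1, h2]
    _ = _ := by
        rw [Finset.sum_mul_sum]

/-- alternating sum over all subsets -/
def nab (F : Q4 → R) : R :=
  ∑ s : Q4, ((bif s.1 then (-1 : ℤ) else 1) * (bif s.2.1 then (-1 : ℤ) else 1) *
    (bif s.2.2.1 then (-1 : ℤ) else 1) * (bif s.2.2.2 then (-1 : ℤ) else 1)) • F s

theorem nab_add (F G : Q4 → R) : nab (fun s => F s + G s) = nab F + nab G := by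
  simp only [nab, smul_add, Finset.sum_add_distrib]

theorem nab_zt (f : Q4 → R) : nab (zt f) = f (true, true, true, true) := by
  have key : ∀ b : Q4, (∑ s : Q4, if b ≤ s then ((bif s.1 then (-1 : ℤ) else 1) * (bif s.2.1 then (-1 : ℤ) else 1) *
    (bif s.2.2.1 then (-1 : ℤ) else 1) * (bif s.2.2.2 then (-1 : ℤ) else 1)) else 0) =
      if b = (true, true, true, true) then 1 else 0 := by
    decide
  unfold nab zt
  simp only [Finset.smul_sum]
  rw [Finset.sum_comm]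
  have : ∀ b : Q4, (∑ s : Q4, ((bif s.1 then (-1 : ℤ) else 1) * (bif s.2.1 then (-1 : ℤ) else 1) *
    (bif s.2.2.1 then (-1 : ℤ) else 1) * (bif s.2.2.2 then (-1 : ℤ) else 1)) • (if b ≤ s then f b else 0))
      = (if b = (true, true, true, true) then (1 : ℤ) else 0) • f b := by
    intro b
    rw [← key b, Finset.sum_smul]
    refine Finset.sum_congr rfl fun s _ => ?_
    split_ifs <;> simp
  simp only [this]
  simp

/-- coefficient classes -/
def Cls (M : ℕ → ℕ → AddSubgroup R) (α δ : Fin 4 → ℕ) (k : ℕ) (f : Q4 → R) : Prop :=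
  ∀ b, f b ∈ M (wt4 α b) (wt4 δ b) ∧ (wt4 (fun _ => 1) b < k → f b ∈ M (wt4 α b) (wt4 δ b + 1))

theorem Cls.cv {M : ℕ → ℕ → AddSubgroup R} {α δ : Fin 4 → ℕ} (hδ : ∀ i, 1 ≤ δ i)
    (hmul : ∀ a d a' d' x y, x ∈ M a d → y ∈ M a' d' → x * y ∈ M (a + a') (d + d'))
    (hanti : ∀ a d a' d', a ≤ a' → d ≤ d' → M a' d' ≤ M a d) {k l : ℕ} {f g : Q4 → R}
    (hf : Cls M α δ k f) (hg : Cls M α δ l g) : Cls M α δ (k + l) (cv f g) := by
  intro b
  constructor
  · refine AddSubgroup.sum_mem _ fun b1 _ => AddSubgroup.sum_mem _ fun b2 _ => ?_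
    split_ifs with h
    · subst h
      have ha := wt4_sup_inf α b1 b2
      have hd := wt4_sup_inf δ b1 b2
      exact hanti _ _ _ _ (by omega) (by omega) (hmul _ _ _ _ _ _ (hf b1).1 (hg b2).1)
    · exact AddSubgroup.zero_mem _
  · intro hk
    refine AddSubgroup.sum_mem _ fun b1 _ => AddSubgroup.sum_mem _ fun b2 _ => ?_
    split_ifs with h
    · subst h
      have ha := wt4_sup_inf α b1 b2
      have hd := wt4_sup_inf δ b1 b2
      have hc := wt4_sup_inf (fun _ => 1) b1 b2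
      have hm := wt4_mono (fun _ => 1) δ hδ (b1 ⊓ b2)
      by_cases h0 : wt4 (fun _ => 1) (b1 ⊓ b2) = 0
      · by_cases h1 : wt4 (fun _ => 1) b1 < k
        · exact hanti _ _ _ _ (by omega) (by omega) (hmul _ _ _ _ _ _ ((hf b1).2 h1) (hg b2).1)
        · have h2 : wt4 (fun _ => 1) b2 < l := by omega
          exact hanti _ _ _ _ (by omega) (by omega) (hmul _ _ _ _ _ _ (hf b1).1 ((hg b2).2 h2))
      · exact hanti _ _ _ _ (by omega) (by omega) (hmul _ _ _ _ _ _ (hf b1).1 (hg b2).1)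
    · exact AddSubgroup.zero_mem _

/-- `A` if `b`, else `0` -/
def chi (b : Bool) (A : R) : R := bif b then A else 0

/-- `A` if `b`, else `1` -/
def cho (b : Bool) (A : R) : R := bif b then A else 1

/-- the coefficient function of `∏ (1 + χ_i A_i) - 1` -/
def f0 (A0 A1 A2 A3 : R) (b : Q4) : R :=
  if b = (false, false, false, false) then 0 else
    cho b.1 A0 * cho b.2.1 A1 * cho b.2.2.1 A2 * cho b.2.2.2 A3

/-- the linear part -/
def l0 (A0 A1 A2 A3 : R) (b : Q4) : R :=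
  if b = (true, false, false, false) then A0 else
  if b = (false, true, false, false) then A1 else
  if b = (false, false, true, false) then A2 else
  if b = (false, false, false, true) then A3 else 0

theorem not_tf : ¬ (true ≤ false) := by decide

theorem zt_f0 (A0 A1 A2 A3 : R) (s : Q4) :
    zt (f0 A0 A1 A2 A3) s =
      (1 + chi s.1 A0) * (1 + chi s.2.1 A1) * (1 + chi s.2.2.1 A2) * (1 + chi s.2.2.2 A3) - 1 := by
  obtain ⟨s0, s1, s2, s3⟩ := s
  unfold zt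
  simp only [Fintype.sum_prod_type, Fintype.sum_bool, Prod.mk_le_mk]
  cases s0 <;> cases s1 <;> cases s2 <;> cases s3 <;>
    simp [f0, cho, chi, not_tf] <;> noncomm_ring

theorem zt_l0 (A0 A1 A2 A3 : R) (s : Q4) :
    zt (l0 A0 A1 A2 A3) s =
      chi s.1 A0 + chi s.2.1 A1 + chi s.2.2.1 A2 + chi s.2.2.2 A3 := by
  obtain ⟨s0, s1, s2, s3⟩ := s
  unfold zt
  simp only [Fintype.sum_prod_type, Fintype.sum_bool, Prod.mk_le_mk]
  cases s0 <;> cases s1 <;> cases s2 <;> cases s3 <;>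
    simp [l0, chi, not_tf] <;> abel

theorem nab_l0 (A0 A1 A2 A3 : R) :
    nab (fun s => (zt (l0 A0 A1 A2 A3) s) ^ 4) = sym4 A0 A1 A2 A3 := by
  unfold nab
  simp only [zt_l0, Fintype.sum_prod_type, Fintype.sum_bool]
  simp only [chi, cond_true, cond_false, add_zero, zero_add, mul_one, neg_neg, mul_neg,
    one_smul, neg_smul]
  unfold sym4
  noncomm_ring

theorem cho_mem {M : ℕ → ℕ → AddSubgroup R} (hone : (1 : R) ∈ M 0 0) (b : Bool) {A : R} {a d : ℕ}
    (hA : A ∈ M a d) : cho b A ∈ M (bif b then a else 0) (bif b then d else 0) := by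
  cases b
  · simpa [cho] using hone
  · simpa [cho] using hA

theorem f0_cls {M : ℕ → ℕ → AddSubgroup R} {α δ : Fin 4 → ℕ} (hone : (1 : R) ∈ M 0 0)
    (hmul : ∀ a d a' d' x y, x ∈ M a d → y ∈ M a' d' → x * y ∈ M (a + a') (d + d'))
    {A0 A1 A2 A3 : R} (h0 : A0 ∈ M (α 0) (δ 0)) (h1 : A1 ∈ M (α 1) (δ 1))
    (h2 : A2 ∈ M (α 2) (δ 2)) (h3 : A3 ∈ M (α 3) (δ 3)) : Cls M α δ 1 (f0 A0 A1 A2 A3) := by
  intro b
  constructor
  · unfold f0
    split_ifs with h
    · exact AddSubgroup.zero_mem _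
    · exact hmul _ _ _ _ _ _ (hmul _ _ _ _ _ _ (hmul _ _ _ _ _ _ (cho_mem hone _ h0)
        (cho_mem hone _ h1)) (cho_mem hone _ h2)) (cho_mem hone _ h3)
  · intro hb
    obtain ⟨b0, b1, b2, b3⟩ := b
    have : f0 A0 A1 A2 A3 (b0, b1, b2, b3) = 0 := by
      cases b0 <;> cases b1 <;> cases b2 <;> cases b3 <;> simp [wt4] at hb <;> simp [f0]
    rw [this]
    exact AddSubgroup.zero_mem _

theorem l0_cls {M : ℕ → ℕ → AddSubgroup R} {α δ : Fin 4 → ℕ}
    {A0 A1 A2 A3 : R} (h0 : A0 ∈ M (α 0) (δ 0)) (h1 : A1 ∈ M (α 1) (δ 1))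
    (h2 : A2 ∈ M (α 2) (δ 2)) (h3 : A3 ∈ M (α 3) (δ 3)) : Cls M α δ 1 (l0 A0 A1 A2 A3) := by
  intro b
  constructor
  · unfold l0
    split_ifs with e0 e1 e2 e3
    · subst e0; simpa [wt4] using h0
    · subst e1; simpa [wt4] using h1
    · subst e2; simpa [wt4] using h2
    · subst e3; simpa [wt4] using h3
    · exact AddSubgroup.zero_mem _
  · intro hb
    obtain ⟨b0, b1, b2, b3⟩ := b
    have : l0 A0 A1 A2 A3 (b0, b1, b2, b3) = 0 := by
      cases b0 <;> cases b1 <;> cases b2 <;> cases b3 <;> simp [wt4] at hb <;> simp [l0]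
    rw [this]
    exact AddSubgroup.zero_mem _

theorem h0_cls {M : ℕ → ℕ → AddSubgroup R} {α δ : Fin 4 → ℕ} {A0 A1 A2 A3 : R}
    (hf : Cls M α δ 1 (f0 A0 A1 A2 A3)) (hl : Cls M α δ 1 (l0 A0 A1 A2 A3)) :
    Cls M α δ 2 (fun b => f0 A0 A1 A2 A3 b - l0 A0 A1 A2 A3 b) := by
  intro b
  refine ⟨AddSubgroup.sub_mem _ (hf b).1 (hl b).1, fun hb => ?_⟩
  obtain ⟨b0, b1, b2, b3⟩ := b
  have : f0 A0 A1 A2 A3 (b0, b1, b2, b3) - l0 A0 A1 A2 A3 (b0, b1, b2, b3) = 0 := by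
    cases b0 <;> cases b1 <;> cases b2 <;> cases b3 <;> simp [wt4] at hb <;> simp [f0, l0, cho]
  show f0 A0 A1 A2 A3 (b0, b1, b2, b3) - l0 A0 A1 A2 A3 (b0, b1, b2, b3) ∈ _
  rw [this]
  exact AddSubgroup.zero_mem _

theorem zt_sub (f g : Q4 → R) (s : Q4) : zt (fun b => f b - g b) s = zt f s - zt g s := by
  unfold zt
  rw [← Finset.sum_sub_distrib]
  refine Finset.sum_congr rfl fun b _ => ?_
  split_ifs <;> simp

/-- value at the full set of a class-5 function -/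
theorem top5 {M : ℕ → ℕ → AddSubgroup R} {α δ : Fin 4 → ℕ} {f : Q4 → R} (hf : Cls M α δ 5 f) :
    nab (zt f) ∈ M (α 0 + α 1 + α 2 + α 3) (δ 0 + δ 1 + δ 2 + δ 3 + 1) := by
  rw [nab_zt]
  have := (hf (true, true, true, true)).2 (by simp [wt4])
  simpa [wt4] using this

theorem main_sym4 {M : ℕ → ℕ → AddSubgroup R} {α δ : Fin 4 → ℕ} (hδ : ∀ i, 1 ≤ δ i)
    (hone : (1 : R) ∈ M 0 0)
    (hmul : ∀ a d a' d' x y, x ∈ M a d → y ∈ M a' d' → x * y ∈ M (a + a') (d + d'))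
    (hanti : ∀ a d a' d', a ≤ a' → d ≤ d' → M a' d' ≤ M a d)
    {A0 A1 A2 A3 : R} (h0 : A0 ∈ M (α 0) (δ 0)) (h1 : A1 ∈ M (α 1) (δ 1))
    (h2 : A2 ∈ M (α 2) (δ 2)) (h3 : A3 ∈ M (α 3) (δ 3))
    (hpow : ∀ s : Q4, ((1 + chi s.1 A0) * (1 + chi s.2.1 A1) * (1 + chi s.2.2.1 A2) *
      (1 + chi s.2.2.2 A3) - 1) ^ 4 = 0) :
    sym4 A0 A1 A2 A3 ∈ M (α 0 + α 1 + α 2 + α 3) (δ 0 + δ 1 + δ 2 + δ 3 + 1) := by
  have hf := f0_cls hone hmul h0 h1 h2 h3
  have hl := l0_cls h0 h1 h2 h3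
  have hh := h0_cls hf hl
  set f := f0 A0 A1 A2 A3 with hfdef
  set l := l0 A0 A1 A2 A3 with hldef
  set h : Q4 → R := fun b => f b - l b with hhdef
  have e1 : ∀ s, (zt f s) ^ 4 = 0 := by
    intro s
    rw [hfdef, zt_f0]
    exact hpow s
  have e2 : ∀ s, zt f s = zt l s + zt h s := by
    intro s
    rw [hhdef, zt_sub]
    abel
  -- G^4 = L^4 + (H G^3 + L H G^2 + L L H G + L L L H)
  have e3 : ∀ s, (zt l s) ^ 4 = -(zt (cv (cv (cv h f) f) f) s + zt (cv (cv (cv l h) f) f) s +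
      zt (cv (cv (cv l l) h) f) s + zt (cv (cv (cv l l) l) h) s) := by
    intro s
    simp only [zt_cv]
    have h1 := e1 s
    have h2 := e2 s
    have h3 : zt h s = zt f s - zt l s := by rw [h2]; abel
    rw [h3]
    have h4 : zt f s * zt f s * zt f s * zt f s = 0 := by
      rw [← h1]; noncomm_ring
    have : (zt l s) ^ 4 = -((zt f s - zt l s) * zt f s * zt f s * zt f s + zt l s * (zt f s - zt l s) * zt f s * zt f s
      + zt l s * zt l s * (zt f s - zt l s) * zt f s + zt l s * zt l s * zt l s * (zt f s - zt l s)) +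
      zt f s * zt f s * zt f s * zt f s := by noncomm_ring
    rw [this, h4, add_zero]
  have c1 : Cls M α δ 5 (cv (cv (cv h f) f) f) := ((hh.cv hδ hmul hanti hf).cv hδ hmul hanti hf).cv hδ hmul hanti hf
  have c2 : Cls M α δ 5 (cv (cv (cv l h) f) f) := ((hl.cv hδ hmul hanti hh).cv hδ hmul hanti hf).cv hδ hmul hanti hf
  have c3 : Cls M α δ 5 (cv (cv (cv l l) h) f) := ((hl.cv hδ hmul hanti hl).cv hδ hmul hanti hh).cv hδ hmul hanti hf
  have c4 : Cls M α δ 5 (cv (cv (cv l l) l) h) := ((hl.cv hδ hmul hanti hl).cv hδ hmul hanti hl).cv hδ hmul hanti hh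
  rw [← nab_l0]
  rw [← hldef]
  have e4 : nab (fun s => (zt l s) ^ 4) = -(nab (zt (cv (cv (cv h f) f) f)) + nab (zt (cv (cv (cv l h) f) f)) +
      nab (zt (cv (cv (cv l l) h) f)) + nab (zt (cv (cv (cv l l) l) h))) := by
    unfold nab
    rw [← Finset.sum_add_distrib, ← Finset.sum_add_distrib, ← Finset.sum_add_distrib, ← Finset.sum_neg_distrib]
    refine Finset.sum_congr rfl fun s _ => ?_
    simp only []
    rw [e3 s, smul_neg, smul_add, smul_add, smul_add]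
  rw [e4]
  exact AddSubgroup.neg_mem _ (AddSubgroup.add_mem _ (AddSubgroup.add_mem _ (AddSubgroup.add_mem _ (top5 c1)
    (top5 c2)) (top5 c3)) (top5 c4))

end Pool.Agent.MP5c99ad
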