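import Mathlib
import Pool.Agent.Lib.MP_5c99ad_al.ClassB

set_option autoImplicit false

/-!
Class bound, part C: the filtrations of the image of a group ring.
-/

namespace Pool.Agent.MP5c99ad

universe u

section Filt

variable {G : Type u} {R : Type u} [Group G] [Ring R] (ρ : G →* R)

/-- product of differences -/
def dprod (l : List G) : R := (l.map (fun g => ρ g - 1)).prod

/-- powers of the augmentation ideal -/
def Ip (k : ℕ) : AddSubgroup R :=
  AddSubgroup.closure {r | ∃ (h : G) (l : List G), k ≤ l.length ∧ r = ρ h * dprod ρ l}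

theorem closure_mul_mem {S T : Set R} {N : AddSubgroup R} {x y : R} (hx : x ∈ AddSubgroup.closure S)
    (hy : y ∈ AddSubgroup.closure T) (h : ∀ s ∈ S, ∀ t ∈ T, s * t ∈ N) : x * y ∈ N := by
  induction hx using AddSubgroup.closure_induction with
  | mem s hs =>
    induction hy using AddSubgroup.closure_induction with
    | mem t ht => exact h s hs t ht
    | zero => simp
    | add a b _ _ ha hb => rw [mul_add]; exact N.add_mem ha hb
    | neg a _ ha => rw [mul_neg]; exact N.neg_mem ha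
  | zero => simp
  | add a b _ _ ha hb => rw [add_mul]; exact N.add_mem ha hb
  | neg a _ ha => rw [neg_mul]; exact N.neg_mem ha

theorem dprod_mul (l : List G) (h : G) :
    dprod ρ l * ρ h = ρ h * dprod ρ (l.map (fun g => h⁻¹ * g * h)) := by
  induction l with
  | nil => simp [dprod]
  | cons g l ih =>
    have e : dprod ρ (g :: l) = (ρ g - 1) * dprod ρ l := by simp [dprod]
    have e2 : dprod ρ ((g :: l).map (fun g => h⁻¹ * g * h)) =
        (ρ (h⁻¹ * g * h) - 1) * dprod ρ (l.map (fun g => h⁻¹ * g * h)) := by simp [dprod]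
    rw [e, e2, mul_assoc, ih, ← mul_assoc, ← mul_assoc]
    congr 1
    rw [sub_mul, mul_sub, one_mul, mul_one, ← map_mul, ← map_mul]
    congr 2
    group

theorem dprod_append (l l' : List G) : dprod ρ (l ++ l') = dprod ρ l * dprod ρ l' := by
  simp [dprod]

theorem Ip_mul {i j : ℕ} {x y : R} (hx : x ∈ Ip ρ i) (hy : y ∈ Ip ρ j) : x * y ∈ Ip ρ (i + j) := by
  refine closure_mul_mem hx hy ?_
  rintro _ ⟨h, l, hl, rfl⟩ _ ⟨h', l', hl', rfl⟩
  refine AddSubgroup.subset_closure ⟨h * h', l.map (fun g => h'⁻¹ * g * h') ++ l', ?_, ?_⟩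
  · simp only [List.length_append, List.length_map]; omega
  · rw [dprod_append, map_mul, mul_assoc, mul_assoc]
    congr 1
    rw [← mul_assoc, ← mul_assoc, dprod_mul]

theorem Ip_anti {i j : ℕ} (h : i ≤ j) : Ip ρ j ≤ Ip ρ i := by
  refine AddSubgroup.closure_mono ?_
  rintro _ ⟨a, l, hl, rfl⟩
  exact ⟨a, l, h.trans hl, rfl⟩

theorem rho_mem (g : G) : ρ g ∈ Ip ρ 0 :=
  AddSubgroup.subset_closure ⟨g, [], le_refl _, by simp [dprod]⟩

theorem diff_mem (g : G) : ρ g - 1 ∈ Ip ρ 1 :=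
  AddSubgroup.subset_closure ⟨1, [g], le_refl _, by simp [dprod]⟩

theorem Ip_bot {N : ℕ} (hN : ∀ l : List G, l.length = N → dprod ρ l = 0) : Ip ρ N = ⊥ := by
  rw [eq_bot_iff]
  refine (AddSubgroup.closure_le _).2 ?_
  rintro _ ⟨h, l, hl, rfl⟩
  have : dprod ρ l = dprod ρ (l.take N) * dprod ρ (l.drop N) := by
    rw [← dprod_append, List.take_append_drop]
  rw [this, hN _ (by simp [hl])]
  simp

/-- letters: `none` is the marked letter `x - 1`, the others are differences with a weight -/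
abbrev Ltr : Type u := Option {p : G × ℕ // 1 ≤ p.2 ∧ ρ p.1 - 1 ∈ Ip ρ p.2}

variable (x : G)

def val : Ltr ρ → R
  | none => ρ x - 1
  | some p => ρ p.1.1 - 1

def wL : Ltr ρ → ℕ
  | none => 1
  | some p => p.1.2

def cL : Ltr ρ → ℕ
  | none => 1
  | some _ => 0

def nL : Ltr ρ → ℕ
  | none => 0
  | some _ => 1

def evl (w : List (Ltr ρ)) : R := (w.map (val ρ x)).prod
def wtl (w : List (Ltr ρ)) : ℕ := (w.map (wL ρ)).sum
def ctl (w : List (Ltr ρ)) : ℕ := (w.map (cL ρ)).sum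

theorem wL_pos (l : Ltr ρ) : 1 ≤ wL ρ l := by
  cases l with
  | none => exact le_refl _
  | some p => exact p.2.1

theorem val_mem (l : Ltr ρ) : val ρ x l ∈ Ip ρ (wL ρ l) := by
  cases l with
  | none => exact diff_mem ρ x
  | some p => exact p.2.2

theorem evl_append (w w' : List (Ltr ρ)) : evl ρ x (w ++ w') = evl ρ x w * evl ρ x w' := by
  simp [evl]

theorem wtl_append (w w' : List (Ltr ρ)) : wtl ρ (w ++ w') = wtl ρ w + wtl ρ w' := by
  simp [wtl]

theorem ctl_append (w w' : List (Ltr ρ)) : ctl ρ (w ++ w') = ctl ρ w + ctl ρ w' := by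
  simp [ctl]

/-- the double filtration -/
def Mf (a d : ℕ) : AddSubgroup R :=
  AddSubgroup.closure {r | ∃ w : List (Ltr ρ), a ≤ ctl ρ w ∧ d ≤ wtl ρ w ∧ r = evl ρ x w}

theorem evl_mem (w : List (Ltr ρ)) : evl ρ x w ∈ Mf ρ x (ctl ρ w) (wtl ρ w) :=
  AddSubgroup.subset_closure ⟨w, le_refl _, le_refl _, rfl⟩

theorem Mf_mul (a d a' d' : ℕ) (r s : R) (hr : r ∈ Mf ρ x a d) (hs : s ∈ Mf ρ x a' d') :
    r * s ∈ Mf ρ x (a + a') (d + d') := by
  refine closure_mul_mem hr hs ?_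
  rintro _ ⟨w, h1, h2, rfl⟩ _ ⟨w', h1', h2', rfl⟩
  refine AddSubgroup.subset_closure ⟨w ++ w', ?_, ?_, (evl_append ρ x w w').symm⟩
  · rw [ctl_append]; omega
  · rw [wtl_append]; omega

theorem Mf_anti (a d a' d' : ℕ) (ha : a ≤ a') (hd : d ≤ d') : Mf ρ x a' d' ≤ Mf ρ x a d := by
  refine AddSubgroup.closure_mono ?_
  rintro _ ⟨w, h1, h2, rfl⟩
  exact ⟨w, ha.trans h1, hd.trans h2, rfl⟩

theorem one_mem_Mf : (1 : R) ∈ Mf ρ x 0 0 :=
  AddSubgroup.subset_closure ⟨[], by simp, by simp, by simp [evl]⟩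

theorem diff_mem_Mf (g : G) : ρ g - 1 ∈ Mf ρ x 0 1 :=
  AddSubgroup.subset_closure ⟨[some ⟨(g, 1), le_refl _, diff_mem ρ g⟩], by simp, by simp [wtl, wL],
    by simp [evl, val]⟩

theorem rho_mem_Mf (g : G) : ρ g ∈ Mf ρ x 0 0 := by
  have h := AddSubgroup.add_mem _ (Mf_anti ρ x 0 0 0 1 (le_refl _) (by omega) (diff_mem_Mf ρ x g))
    (one_mem_Mf ρ x)
  simpa using h

theorem dprod_mem_Mf (l : List G) : dprod ρ l ∈ Mf ρ x 0 0 := by
  induction l with
  | nil => simpa [dprod] using one_mem_Mf ρ x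
  | cons g l ih =>
    have e : dprod ρ (g :: l) = (ρ g - 1) * dprod ρ l := by simp [dprod]
    rw [e]
    exact Mf_mul ρ x 0 0 0 0 _ _ (Mf_anti ρ x 0 0 0 1 (le_refl _) (by omega) (diff_mem_Mf ρ x g)) ih

theorem Ip_le_Mf (k : ℕ) : Ip ρ k ≤ Mf ρ x 0 0 := by
  refine (AddSubgroup.closure_le _).2 ?_
  rintro _ ⟨h, l, -, rfl⟩
  exact Mf_mul ρ x 0 0 0 0 _ _ (rho_mem_Mf ρ x h) (dprod_mem_Mf ρ x l)

theorem evl_mem_Ip (w : List (Ltr ρ)) : evl ρ x w ∈ Ip ρ (wtl ρ w) := by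
  induction w with
  | nil =>
    simp only [evl, wtl, List.map_nil, List.prod_nil, List.sum_nil]
    have := rho_mem ρ 1
    rwa [map_one] at this
  | cons l w ih =>
    have e : evl ρ x (l :: w) = val ρ x l * evl ρ x w := by simp [evl]
    have e2 : wtl ρ (l :: w) = wL ρ l + wtl ρ w := by simp [wtl]
    rw [e, e2]
    exact Ip_mul ρ (val_mem ρ x l) ih

theorem Mf_bot {N : ℕ} (hN : Ip ρ N = ⊥) (a : ℕ) : Mf ρ x a N = ⊥ := by
  rw [eq_bot_iff]
  refine (AddSubgroup.closure_le _).2 ?_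
  rintro _ ⟨w, -, hw, rfl⟩
  have := Ip_anti ρ hw (evl_mem_Ip ρ x w)
  rw [hN] at this
  exact this

end Filt

end Pool.Agent.MP5c99ad
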