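import Mathlib
import Pool.Agent.Lib.MP_5c99ad_al.ClassC

set_option autoImplicit false

/-!
Class bound, part D: the free ring on the letters, and the transfer of `T1`.
-/

namespace Pool.Agent.MP5c99ad

universe u

section Free

variable {L : Type u}

/-- the free ring -/
abbrev FR (L : Type u) : Type u := MonoidAlgebra ℤ (FreeMonoid L)

/-- a word as an element of the free ring -/
noncomputable def wd (l : List L) : FR L := MonoidAlgebra.single (FreeMonoid.ofList l) 1

theorem wd_mul (l l' : List L) : wd l * wd l' = wd (l ++ l') := by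
  simp [wd, MonoidAlgebra.single_mul_single, FreeMonoid.ofList_append]

theorem wd_nil : (wd [] : FR L) = 1 := rfl

theorem FR_induction {P : FR L → Prop} (x : FR L) (h0 : P 0) (hadd : ∀ x y, P x → P y → P (x + y))
    (hneg : ∀ x, P x → P (-x)) (hw : ∀ l, P (wd l)) : P x := by
  induction x using MonoidAlgebra.induction_linear with
  | zero => exact h0
  | add x y hx hy => exact hadd x y hx hy
  | single m r =>
    have e : (MonoidAlgebra.single m r : FR L) = r • wd (FreeMonoid.toList m) := by
      simp [wd, MonoidAlgebra.smul_single]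
    rw [e]
    have hn : ∀ n : ℕ, P ((n : ℤ) • wd (FreeMonoid.toList m)) := by
      intro n
      induction n with
      | zero => simpa using h0
      | succ n ih =>
        have : ((n + 1 : ℕ) : ℤ) • wd (FreeMonoid.toList m) =
            (n : ℤ) • wd (FreeMonoid.toList m) + wd (FreeMonoid.toList m) := by
          rw [Nat.cast_succ, add_smul, one_smul]
        rw [this]
        exact hadd _ _ ih (hw _)
    obtain ⟨n, rfl | rfl⟩ := r.eq_nat_or_neg
    · exact hn n
    · rw [neg_smul]
      exact hneg _ (hn n)

/-- elements homogeneous of content `κ` -/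
noncomputable def Hom (κ : Multiset L) : AddSubgroup (FR L) :=
  AddSubgroup.closure {r | ∃ l : List L, (l : Multiset L) = κ ∧ r = wd l}

theorem wd_mem (l : List L) : wd l ∈ Hom (l : Multiset L) :=
  AddSubgroup.subset_closure ⟨l, rfl, rfl⟩

theorem Hom_mul {κ μ : Multiset L} {a b : FR L} (ha : a ∈ Hom κ) (hb : b ∈ Hom μ) :
    a * b ∈ Hom (κ + μ) := by
  refine closure_mul_mem ha hb ?_
  rintro _ ⟨l, rfl, rfl⟩ _ ⟨l', rfl, rfl⟩
  rw [wd_mul]
  exact AddSubgroup.subset_closure ⟨_, (Multiset.coe_add _ _).symm, rfl⟩

/-- evaluation -/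
noncomputable def evF {R : Type u} [Ring R] (v : L → R) : FR L →+* R :=
  (MonoidAlgebra.lift ℤ R (FreeMonoid L) (FreeMonoid.lift v)).toRingHom

theorem evF_wd {R : Type u} [Ring R] (v : L → R) (l : List L) : evF v (wd l) = (l.map v).prod := by
  show (MonoidAlgebra.lift ℤ R (FreeMonoid L) (FreeMonoid.lift v)) (wd l) = _
  rw [wd, MonoidAlgebra.lift_single, one_smul, FreeMonoid.lift_apply]
  rfl

open Classical in
/-- the functional component of content `c`, evaluated modulo `K` -/
noncomputable def phiC {R : Type u} [Ring R] (v : L → R) (K : AddSubgroup R) (c : Multiset L) :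
    FR L →+ R ⧸ K :=
  (Finsupp.liftAddHom (fun w : FreeMonoid L => (zmultiplesHom (R ⧸ K))
    (if ((FreeMonoid.toList w : List L) : Multiset L) = c then
      (QuotientAddGroup.mk ((FreeMonoid.toList w).map v).prod : R ⧸ K) else 0))).comp
    (MonoidAlgebra.coeffAddEquiv (R := ℤ) (M := FreeMonoid L)).toAddMonoidHom

open Classical in
theorem phiC_wd {R : Type u} [Ring R] (v : L → R) (K : AddSubgroup R) (c : Multiset L) (l : List L) :
    phiC v K c (wd l) = if (l : Multiset L) = c then (QuotientAddGroup.mk (l.map v).prod : R ⧸ K) else 0 := by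
  unfold phiC wd
  simp [MonoidAlgebra.coeffAddEquiv]

theorem phiC_eq {R : Type u} [Ring R] (v : L → R) (K : AddSubgroup R) (c : Multiset L) {a : FR L}
    (ha : a ∈ Hom c) : phiC v K c a = (QuotientAddGroup.mk (evF v a) : R ⧸ K) := by
  induction ha using AddSubgroup.closure_induction with
  | mem s hs =>
    obtain ⟨l, hl, rfl⟩ := hs
    rw [phiC_wd, if_pos hl, evF_wd]
  | zero => simp
  | add a b _ _ ha hb => rw [map_add, map_add, ha, hb]; rfl
  | neg a _ ha => rw [map_neg, map_neg, ha]; rfl

theorem phiC_ne {R : Type u} [Ring R] (v : L → R) (K : AddSubgroup R) (c : Multiset L) {κ : Multiset L}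
    (hκ : κ ≠ c) {a : FR L} (ha : a ∈ Hom κ) : phiC v K c a = 0 := by
  induction ha using AddSubgroup.closure_induction with
  | mem s hs =>
    obtain ⟨l, hl, rfl⟩ := hs
    rw [phiC_wd, if_neg (by rw [hl]; exact hκ)]
  | zero => simp
  | add a b _ _ ha hb => rw [map_add, ha, hb, add_zero]
  | neg a _ ha => rw [map_neg, ha, neg_zero]

/-- to kill `P k S` it is enough to do so for words -/
theorem phiC_context {A : Type u} [AddCommGroup A] (φ : FR L →+ A) (k : FR L)
    (h : ∀ l l' : List L, φ (wd l * k * wd l') = 0) (P S : FR L) : φ (P * k * S) = 0 := by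
  induction P using FR_induction with
  | h0 => simp
  | hadd x y hx hy => rw [add_mul, add_mul, map_add, hx, hy, add_zero]
  | hneg x hx => rw [neg_mul, neg_mul, map_neg, hx, neg_zero]
  | hw l =>
    induction S using FR_induction with
    | h0 => simp
    | hadd x y hx hy => rw [mul_add, map_add, hx, hy, add_zero]
    | hneg x hx => rw [mul_neg, map_neg, hx, neg_zero]
    | hw l' => exact h l l'

end Free

end Pool.Agent.MP5c99ad
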