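import Mathlib
import Pool.Agent.Lib.MP_5c99ad_al.ClassD

set_option autoImplicit false

/-!
Class bound, part E: the main induction.
-/

namespace Pool.Agent.MP5c99ad

universe u

theorem cast4 {L : Type u} {κ μ : Multiset L} {a : FR L} (h : a ∈ Hom κ) (e : κ = μ) : a ∈ Hom μ := e ▸ h

theorem Hom_sym4 {L : Type u} {κa κb κc κd : Multiset L} {a b c d : FR L} (ha : a ∈ Hom κa)
    (hb : b ∈ Hom κb) (hc : c ∈ Hom κc) (hd : d ∈ Hom κd) : sym4 a b c d ∈ Hom (κa + κb + κc + κd) := by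
  unfold sym4
  exact (AddSubgroup.add_mem _ (AddSubgroup.add_mem _ (AddSubgroup.add_mem _ (AddSubgroup.add_mem _ (AddSubgroup.add_mem _ (AddSubgroup.add_mem _ (AddSubgroup.add_mem _ (AddSubgroup.add_mem _ (AddSubgroup.add_mem _ (AddSubgroup.add_mem _ (AddSubgroup.add_mem _ (AddSubgroup.add_mem _ (AddSubgroup.add_mem _ (AddSubgroup.add_mem _ (AddSubgroup.add_mem _ (AddSubgroup.add_mem _ (AddSubgroup.add_mem _ (AddSubgroup.add_mem _ (AddSubgroup.add_mem _ (AddSubgroup.add_mem _ (AddSubgroup.add_mem _ (AddSubgroup.add_mem _ (AddSubgroup.add_mem _ (cast4 (Hom_mul (Hom_mul (Hom_mul ha hb) hc) hd) (by abel))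
    (cast4 (Hom_mul (Hom_mul (Hom_mul ha hb) hd) hc) (by abel)))
    (cast4 (Hom_mul (Hom_mul (Hom_mul ha hc) hb) hd) (by abel)))
    (cast4 (Hom_mul (Hom_mul (Hom_mul ha hc) hd) hb) (by abel)))
    (cast4 (Hom_mul (Hom_mul (Hom_mul ha hd) hb) hc) (by abel)))
    (cast4 (Hom_mul (Hom_mul (Hom_mul ha hd) hc) hb) (by abel)))
    (cast4 (Hom_mul (Hom_mul (Hom_mul hb ha) hc) hd) (by abel)))
    (cast4 (Hom_mul (Hom_mul (Hom_mul hb ha) hd) hc) (by abel)))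
    (cast4 (Hom_mul (Hom_mul (Hom_mul hb hc) ha) hd) (by abel)))
    (cast4 (Hom_mul (Hom_mul (Hom_mul hb hc) hd) ha) (by abel)))
    (cast4 (Hom_mul (Hom_mul (Hom_mul hb hd) ha) hc) (by abel)))
    (cast4 (Hom_mul (Hom_mul (Hom_mul hb hd) hc) ha) (by abel)))
    (cast4 (Hom_mul (Hom_mul (Hom_mul hc ha) hb) hd) (by abel)))
    (cast4 (Hom_mul (Hom_mul (Hom_mul hc ha) hd) hb) (by abel)))
    (cast4 (Hom_mul (Hom_mul (Hom_mul hc hb) ha) hd) (by abel)))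
    (cast4 (Hom_mul (Hom_mul (Hom_mul hc hb) hd) ha) (by abel)))
    (cast4 (Hom_mul (Hom_mul (Hom_mul hc hd) ha) hb) (by abel)))
    (cast4 (Hom_mul (Hom_mul (Hom_mul hc hd) hb) ha) (by abel)))
    (cast4 (Hom_mul (Hom_mul (Hom_mul hd ha) hb) hc) (by abel)))
    (cast4 (Hom_mul (Hom_mul (Hom_mul hd ha) hc) hb) (by abel)))
    (cast4 (Hom_mul (Hom_mul (Hom_mul hd hb) ha) hc) (by abel)))
    (cast4 (Hom_mul (Hom_mul (Hom_mul hd hb) hc) ha) (by abel)))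
    (cast4 (Hom_mul (Hom_mul (Hom_mul hd hc) ha) hb) (by abel)))
    (cast4 (Hom_mul (Hom_mul (Hom_mul hd hc) hb) ha) (by abel)))

section Main

variable {G : Type u} {R : Type u} [Group G] [Ring R] (ρ : G →* R) (x : G)

theorem Mf_sym4 {a1 a2 a3 a4 d1 d2 d3 d4 A D : ℕ} {a b c d : R} (ha : a ∈ Mf ρ x a1 d1)
    (hb : b ∈ Mf ρ x a2 d2) (hc : c ∈ Mf ρ x a3 d3) (hd : d ∈ Mf ρ x a4 d4)
    (hA : A ≤ a1 + a2 + a3 + a4) (hD : D ≤ d1 + d2 + d3 + d4) : sym4 a b c d ∈ Mf ρ x A D := by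
  unfold sym4
  exact (AddSubgroup.add_mem _ (AddSubgroup.add_mem _ (AddSubgroup.add_mem _ (AddSubgroup.add_mem _ (AddSubgroup.add_mem _ (AddSubgroup.add_mem _ (AddSubgroup.add_mem _ (AddSubgroup.add_mem _ (AddSubgroup.add_mem _ (AddSubgroup.add_mem _ (AddSubgroup.add_mem _ (AddSubgroup.add_mem _ (AddSubgroup.add_mem _ (AddSubgroup.add_mem _ (AddSubgroup.add_mem _ (AddSubgroup.add_mem _ (AddSubgroup.add_mem _ (AddSubgroup.add_mem _ (AddSubgroup.add_mem _ (AddSubgroup.add_mem _ (AddSubgroup.add_mem _ (AddSubgroup.add_mem _ (AddSubgroup.add_mem _ (Mf_anti ρ x _ _ _ _ (by omega) (by omega) (Mf_mul ρ x _ _ _ _ _ _ (Mf_mul ρ x _ _ _ _ _ _ (Mf_mul ρ x _ _ _ _ _ _ ha hb) hc) hd))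
    (Mf_anti ρ x _ _ _ _ (by omega) (by omega) (Mf_mul ρ x _ _ _ _ _ _ (Mf_mul ρ x _ _ _ _ _ _ (Mf_mul ρ x _ _ _ _ _ _ ha hb) hd) hc)))
    (Mf_anti ρ x _ _ _ _ (by omega) (by omega) (Mf_mul ρ x _ _ _ _ _ _ (Mf_mul ρ x _ _ _ _ _ _ (Mf_mul ρ x _ _ _ _ _ _ ha hc) hb) hd)))
    (Mf_anti ρ x _ _ _ _ (by omega) (by omega) (Mf_mul ρ x _ _ _ _ _ _ (Mf_mul ρ x _ _ _ _ _ _ (Mf_mul ρ x _ _ _ _ _ _ ha hc) hd) hb)))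
    (Mf_anti ρ x _ _ _ _ (by omega) (by omega) (Mf_mul ρ x _ _ _ _ _ _ (Mf_mul ρ x _ _ _ _ _ _ (Mf_mul ρ x _ _ _ _ _ _ ha hd) hb) hc)))
    (Mf_anti ρ x _ _ _ _ (by omega) (by omega) (Mf_mul ρ x _ _ _ _ _ _ (Mf_mul ρ x _ _ _ _ _ _ (Mf_mul ρ x _ _ _ _ _ _ ha hd) hc) hb)))
    (Mf_anti ρ x _ _ _ _ (by omega) (by omega) (Mf_mul ρ x _ _ _ _ _ _ (Mf_mul ρ x _ _ _ _ _ _ (Mf_mul ρ x _ _ _ _ _ _ hb ha) hc) hd)))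
    (Mf_anti ρ x _ _ _ _ (by omega) (by omega) (Mf_mul ρ x _ _ _ _ _ _ (Mf_mul ρ x _ _ _ _ _ _ (Mf_mul ρ x _ _ _ _ _ _ hb ha) hd) hc)))
    (Mf_anti ρ x _ _ _ _ (by omega) (by omega) (Mf_mul ρ x _ _ _ _ _ _ (Mf_mul ρ x _ _ _ _ _ _ (Mf_mul ρ x _ _ _ _ _ _ hb hc) ha) hd)))
    (Mf_anti ρ x _ _ _ _ (by omega) (by omega) (Mf_mul ρ x _ _ _ _ _ _ (Mf_mul ρ x _ _ _ _ _ _ (Mf_mul ρ x _ _ _ _ _ _ hb hc) hd) ha)))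
    (Mf_anti ρ x _ _ _ _ (by omega) (by omega) (Mf_mul ρ x _ _ _ _ _ _ (Mf_mul ρ x _ _ _ _ _ _ (Mf_mul ρ x _ _ _ _ _ _ hb hd) ha) hc)))
    (Mf_anti ρ x _ _ _ _ (by omega) (by omega) (Mf_mul ρ x _ _ _ _ _ _ (Mf_mul ρ x _ _ _ _ _ _ (Mf_mul ρ x _ _ _ _ _ _ hb hd) hc) ha)))
    (Mf_anti ρ x _ _ _ _ (by omega) (by omega) (Mf_mul ρ x _ _ _ _ _ _ (Mf_mul ρ x _ _ _ _ _ _ (Mf_mul ρ x _ _ _ _ _ _ hc ha) hb) hd)))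
    (Mf_anti ρ x _ _ _ _ (by omega) (by omega) (Mf_mul ρ x _ _ _ _ _ _ (Mf_mul ρ x _ _ _ _ _ _ (Mf_mul ρ x _ _ _ _ _ _ hc ha) hd) hb)))
    (Mf_anti ρ x _ _ _ _ (by omega) (by omega) (Mf_mul ρ x _ _ _ _ _ _ (Mf_mul ρ x _ _ _ _ _ _ (Mf_mul ρ x _ _ _ _ _ _ hc hb) ha) hd)))
    (Mf_anti ρ x _ _ _ _ (by omega) (by omega) (Mf_mul ρ x _ _ _ _ _ _ (Mf_mul ρ x _ _ _ _ _ _ (Mf_mul ρ x _ _ _ _ _ _ hc hb) hd) ha)))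
    (Mf_anti ρ x _ _ _ _ (by omega) (by omega) (Mf_mul ρ x _ _ _ _ _ _ (Mf_mul ρ x _ _ _ _ _ _ (Mf_mul ρ x _ _ _ _ _ _ hc hd) ha) hb)))
    (Mf_anti ρ x _ _ _ _ (by omega) (by omega) (Mf_mul ρ x _ _ _ _ _ _ (Mf_mul ρ x _ _ _ _ _ _ (Mf_mul ρ x _ _ _ _ _ _ hc hd) hb) ha)))
    (Mf_anti ρ x _ _ _ _ (by omega) (by omega) (Mf_mul ρ x _ _ _ _ _ _ (Mf_mul ρ x _ _ _ _ _ _ (Mf_mul ρ x _ _ _ _ _ _ hd ha) hb) hc)))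
    (Mf_anti ρ x _ _ _ _ (by omega) (by omega) (Mf_mul ρ x _ _ _ _ _ _ (Mf_mul ρ x _ _ _ _ _ _ (Mf_mul ρ x _ _ _ _ _ _ hd ha) hc) hb)))
    (Mf_anti ρ x _ _ _ _ (by omega) (by omega) (Mf_mul ρ x _ _ _ _ _ _ (Mf_mul ρ x _ _ _ _ _ _ (Mf_mul ρ x _ _ _ _ _ _ hd hb) ha) hc)))
    (Mf_anti ρ x _ _ _ _ (by omega) (by omega) (Mf_mul ρ x _ _ _ _ _ _ (Mf_mul ρ x _ _ _ _ _ _ (Mf_mul ρ x _ _ _ _ _ _ hd hb) hc) ha)))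
    (Mf_anti ρ x _ _ _ _ (by omega) (by omega) (Mf_mul ρ x _ _ _ _ _ _ (Mf_mul ρ x _ _ _ _ _ _ (Mf_mul ρ x _ _ _ _ _ _ hd hc) ha) hb)))
    (Mf_anti ρ x _ _ _ _ (by omega) (by omega) (Mf_mul ρ x _ _ _ _ _ _ (Mf_mul ρ x _ _ _ _ _ _ (Mf_mul ρ x _ _ _ _ _ _ hd hc) hb) ha)))

end Main

end Pool.Agent.MP5c99ad
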