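import Mathlib
import Pool.Agent.Lib.MP_5c99ad_al.ClassE

set_option autoImplicit false

/-!
Class bound, part F: the main induction.
-/

namespace Pool.Agent.MP5c99ad

universe u

section Main

variable {G : Type u} {R : Type u} [Group G] [Ring R] (ρ : G →* R) (x : G)

def cM (κ : Multiset (Ltr ρ)) : ℕ := (κ.map (cL ρ)).sum
def wM (κ : Multiset (Ltr ρ)) : ℕ := (κ.map (wL ρ)).sum

theorem cM_coe (l : List (Ltr ρ)) : cM ρ (l : Multiset (Ltr ρ)) = ctl ρ l := by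
  simp [cM, ctl]

theorem wM_coe (l : List (Ltr ρ)) : wM ρ (l : Multiset (Ltr ρ)) = wtl ρ l := by
  simp [wM, wtl]

theorem cM_add (κ μ : Multiset (Ltr ρ)) : cM ρ (κ + μ) = cM ρ κ + cM ρ μ := by simp [cM]
theorem wM_add (κ μ : Multiset (Ltr ρ)) : wM ρ (κ + μ) = wM ρ κ + wM ρ μ := by simp [wM]

/-- the marked letter in the free ring -/
noncomputable def Xh : FR (Ltr ρ) := wd [none]
/-- the other letters in the free ring -/
def Yh : Set (FR (Ltr ρ)) := {r | ∃ p, r = wd [some p]}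

theorem evF_eq (l : List (Ltr ρ)) : evF (val ρ x) (wd l) = evl ρ x l := evF_wd _ _

theorem evF_mem {κ : Multiset (Ltr ρ)} {a : FR (Ltr ρ)} (ha : a ∈ Hom κ) :
    evF (val ρ x) a ∈ Mf ρ x (cM ρ κ) (wM ρ κ) := by
  induction ha using AddSubgroup.closure_induction with
  | mem s hs =>
    obtain ⟨l, rfl, rfl⟩ := hs
    rw [evF_eq, cM_coe, wM_coe]
    exact evl_mem ρ x l
  | zero => simp
  | add a b _ _ ha hb => rw [map_add]; exact AddSubgroup.add_mem _ ha hb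
  | neg a _ ha => rw [map_neg]; exact AddSubgroup.neg_mem _ ha

theorem comm_id (a b : G) : ρ a * ρ b - ρ b * ρ a = ρ (b * a) * (ρ (a⁻¹ * b⁻¹ * a * b) - 1) := by
  rw [mul_sub, mul_one, ← map_mul, ← map_mul, ← map_mul]
  congr 2
  group

theorem comm_id' (a b : G) : (ρ a - 1) * (ρ b - 1) - (ρ b - 1) * (ρ a - 1) =
    ρ (b * a) * (ρ (a⁻¹ * b⁻¹ * a * b) - 1) := by
  rw [← comm_id]
  noncomm_ring

theorem comm_id'' (a b : G) : ρ (a⁻¹ * b⁻¹ * a * b) - 1 =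
    ρ (b * a)⁻¹ * ((ρ a - 1) * (ρ b - 1) - (ρ b - 1) * (ρ a - 1)) := by
  rw [comm_id', ← mul_assoc, ← map_mul, inv_mul_cancel, map_one, one_mul]

/-- a Lie monomial of the free ring is approximated by a group element -/
theorem LieMon_approx {u : FR (Ltr ρ)} (hu : LieMon (Xh ρ) (Yh ρ) u) :
    ∃ κ : Multiset (Ltr ρ), u ∈ Hom κ ∧ 1 ≤ wM ρ κ ∧ ∃ g : G,
      ρ g - 1 ∈ Mf ρ x (cM ρ κ) (wM ρ κ) ∧
      ρ g - 1 - evF (val ρ x) u ∈ Mf ρ x (cM ρ κ) (wM ρ κ + 1) := by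
  induction hu with
  | base =>
    refine ⟨([none] : List (Ltr ρ)), wd_mem _, ?_, x, ?_, ?_⟩
    · rw [wM_coe]; simp [wtl, wL]
    · rw [cM_coe, wM_coe]
      exact AddSubgroup.subset_closure ⟨[none], le_refl _, le_refl _, by simp [evl, val]⟩
    · rw [Xh, evF_eq]
      simp [evl, val]
  | letter y hy =>
    obtain ⟨p, rfl⟩ := hy
    refine ⟨([some p] : List (Ltr ρ)), wd_mem _, ?_, p.1.1, ?_, ?_⟩
    · rw [wM_coe]; simpa [wtl, wL] using p.2.1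
    · rw [cM_coe, wM_coe]
      exact AddSubgroup.subset_closure ⟨[some p], le_refl _, le_refl _, by simp [evl, val]⟩
    · rw [evF_eq]
      simp [evl, val]
  | br a b _ _ iha ihb =>
    obtain ⟨κ, ha, hκ, g, hg, hg'⟩ := iha
    obtain ⟨μ, hb, hμ, h, hh, hh'⟩ := ihb
    have hea := evF_mem ρ x ha
    have heb := evF_mem ρ x hb
    set ea := evF (val ρ x) a with hea_def
    set eb := evF (val ρ x) b with heb_def
    have hc : (ρ g - 1) * (ρ h - 1) - (ρ h - 1) * (ρ g - 1) ∈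
        Mf ρ x (cM ρ κ + cM ρ μ) (wM ρ κ + wM ρ μ) := by
      refine AddSubgroup.sub_mem _ (Mf_mul ρ x _ _ _ _ _ _ hg hh) ?_
      exact Mf_anti ρ x _ _ _ _ (by omega) (by omega) (Mf_mul ρ x _ _ _ _ _ _ hh hg)
    refine ⟨κ + μ, ?_, ?_, g⁻¹ * h⁻¹ * g * h, ?_, ?_⟩
    · refine AddSubgroup.sub_mem _ (Hom_mul ha hb) ?_
      exact cast4 (Hom_mul hb ha) (by abel)
    · rw [wM_add]; omega
    · rw [comm_id'', cM_add, wM_add]
      exact Mf_anti ρ x _ _ _ _ (by omega) (by omega)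
        (Mf_mul ρ x _ _ _ _ _ _ (rho_mem_Mf ρ x ((h * g)⁻¹)) hc)
    · rw [comm_id'', cM_add, wM_add]
      have e : ρ (h * g)⁻¹ * ((ρ g - 1) * (ρ h - 1) - (ρ h - 1) * (ρ g - 1)) -
          evF (val ρ x) (a * b - b * a) =
          (ρ (h * g)⁻¹ - 1) * ((ρ g - 1) * (ρ h - 1) - (ρ h - 1) * (ρ g - 1)) +
          ((ρ g - 1 - ea) * (ρ h - 1) + ea * (ρ h - 1 - eb) -
            ((ρ h - 1 - eb) * (ρ g - 1) + eb * (ρ g - 1 - ea))) := by
        rw [map_sub, map_mul, map_mul, ← hea_def, ← heb_def]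
        noncomm_ring
      rw [e]
      refine AddSubgroup.add_mem _ ?_ (AddSubgroup.sub_mem _ (AddSubgroup.add_mem _ ?_ ?_)
        (AddSubgroup.add_mem _ ?_ ?_))
      · exact Mf_anti ρ x _ _ _ _ (by omega) (by omega)
          (Mf_mul ρ x _ _ _ _ _ _ (diff_mem_Mf ρ x ((h * g)⁻¹)) hc)
      · exact Mf_anti ρ x _ _ _ _ (by omega) (by omega) (Mf_mul ρ x _ _ _ _ _ _ hg' hh)
      · exact Mf_anti ρ x _ _ _ _ (by omega) (by omega) (Mf_mul ρ x _ _ _ _ _ _ hea hh')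
      · exact Mf_anti ρ x _ _ _ _ (by omega) (by omega) (Mf_mul ρ x _ _ _ _ _ _ hh' hg)
      · exact Mf_anti ρ x _ _ _ _ (by omega) (by omega) (Mf_mul ρ x _ _ _ _ _ _ heb hg')

theorem chi_rho (b : Bool) (g : G) : 1 + chi b (ρ g - 1) = ρ (bif b then g else 1) := by
  cases b <;> simp [chi]

theorem sym4_sub (a b c d a' b' c' d' : R) : sym4 a b c d - sym4 a' b' c' d' =
    sym4 (a - a') b c d + sym4 a' (b - b') c d + sym4 a' b' (c - c') d + sym4 a' b' c' (d - d') := by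
  unfold sym4
  noncomm_ring

/-- `sym4` of four Lie monomials is deep -/
theorem sym4_deep (hρ : ∀ g, (ρ g - 1) ^ 4 = 0) {u1 u2 u3 u4 : FR (Ltr ρ)}
    (h1 : LieMon (Xh ρ) (Yh ρ) u1) (h2 : LieMon (Xh ρ) (Yh ρ) u2)
    (h3 : LieMon (Xh ρ) (Yh ρ) u3) (h4 : LieMon (Xh ρ) (Yh ρ) u4) :
    ∃ κ : Multiset (Ltr ρ), sym4 u1 u2 u3 u4 ∈ Hom κ ∧
      evF (val ρ x) (sym4 u1 u2 u3 u4) ∈ Mf ρ x (cM ρ κ) (wM ρ κ + 1) := by
  obtain ⟨κ1, k1, p1, g1, m1, n1⟩ := LieMon_approx ρ x h1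
  obtain ⟨κ2, k2, p2, g2, m2, n2⟩ := LieMon_approx ρ x h2
  obtain ⟨κ3, k3, p3, g3, m3, n3⟩ := LieMon_approx ρ x h3
  obtain ⟨κ4, k4, p4, g4, m4, n4⟩ := LieMon_approx ρ x h4
  refine ⟨κ1 + κ2 + κ3 + κ4, Hom_sym4 k1 k2 k3 k4, ?_⟩
  simp only [cM_add, wM_add]
  rw [sym4_map]
  have e1 := evF_mem ρ x k1
  have e2 := evF_mem ρ x k2
  have e3 := evF_mem ρ x k3
  have e4 := evF_mem ρ x k4
  have main : sym4 (ρ g1 - 1) (ρ g2 - 1) (ρ g3 - 1) (ρ g4 - 1) ∈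
      Mf ρ x (cM ρ κ1 + cM ρ κ2 + cM ρ κ3 + cM ρ κ4) (wM ρ κ1 + wM ρ κ2 + wM ρ κ3 + wM ρ κ4 + 1) := by
    have := main_sym4 (M := Mf ρ x) (α := ![cM ρ κ1, cM ρ κ2, cM ρ κ3, cM ρ κ4])
      (δ := ![wM ρ κ1, wM ρ κ2, wM ρ κ3, wM ρ κ4]) (by
        intro i
        fin_cases i
        · exact p1
        · exact p2
        · exact p3
        · exact p4) (one_mem_Mf ρ x) (Mf_mul ρ x) (fun a d a' d' h h' => Mf_anti ρ x a d a' d' h h')
      (A0 := ρ g1 - 1) (A1 := ρ g2 - 1) (A2 := ρ g3 - 1) (A3 := ρ g4 - 1) m1 m2 m3 m4 (by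
        intro s
        rw [chi_rho, chi_rho, chi_rho, chi_rho, ← map_mul, ← map_mul, ← map_mul]
        exact hρ _)
    exact this
  have hsub := sym4_sub (ρ g1 - 1) (ρ g2 - 1) (ρ g3 - 1) (ρ g4 - 1) (evF (val ρ x) u1)
    (evF (val ρ x) u2) (evF (val ρ x) u3) (evF (val ρ x) u4)
  have hs : sym4 (ρ g1 - 1) (ρ g2 - 1) (ρ g3 - 1) (ρ g4 - 1) - sym4 (evF (val ρ x) u1)
      (evF (val ρ x) u2) (evF (val ρ x) u3) (evF (val ρ x) u4) ∈
      Mf ρ x (cM ρ κ1 + cM ρ κ2 + cM ρ κ3 + cM ρ κ4) (wM ρ κ1 + wM ρ κ2 + wM ρ κ3 + wM ρ κ4 + 1) := by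
    rw [hsub]
    refine AddSubgroup.add_mem _ (AddSubgroup.add_mem _ (AddSubgroup.add_mem _ ?_ ?_) ?_) ?_
    · exact Mf_sym4 ρ x n1 m2 m3 m4 (by omega) (by omega)
    · exact Mf_sym4 ρ x e1 n2 m3 m4 (by omega) (by omega)
    · exact Mf_sym4 ρ x e1 e2 n3 m4 (by omega) (by omega)
    · exact Mf_sym4 ρ x e1 e2 e3 n4 (by omega) (by omega)
  have := AddSubgroup.sub_mem _ main hs
  rwa [sub_sub_cancel] at this

end Main

end Pool.Agent.MP5c99ad
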