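import Mathlib
import Pool.Agent.Lib.MP_5c99ad_al.ClassF

set_option autoImplicit false

/-!
Class bound, part G: `T1Prop m` implies that products with `m` factors `x - 1` vanish.
-/

namespace Pool.Agent.MP5c99ad

universe u

section Main

variable {G : Type u} {R : Type u} [Group G] [Ring R] (ρ : G →* R) (x : G)

def ntl (w : List (Ltr ρ)) : ℕ := (w.map (nL ρ)).sum

theorem ntl_append (w w' : List (Ltr ρ)) : ntl ρ (w ++ w') = ntl ρ w + ntl ρ w' := by
  simp [ntl]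

def nM (κ : Multiset (Ltr ρ)) : ℕ := (κ.map (nL ρ)).sum

theorem nM_coe (l : List (Ltr ρ)) : nM ρ (l : Multiset (Ltr ρ)) = ntl ρ l := by
  simp [nM, ntl]

/-- `I J^m + J^m I` -/
def KL (m : ℕ) : AddSubgroup R := AddSubgroup.closure {r | ∃ i ∈ Ip ρ 1, ∃ y ∈ Mf ρ x m 0, r = i * y}
def KR (m : ℕ) : AddSubgroup R := AddSubgroup.closure {r | ∃ y ∈ Mf ρ x m 0, ∃ i ∈ Ip ρ 1, r = y * i}
def KK (m : ℕ) : AddSubgroup R := KL ρ x m ⊔ KR ρ x m

theorem mem_KL {m : ℕ} {i y : R} (hi : i ∈ Ip ρ 1) (hy : y ∈ Mf ρ x m 0) : i * y ∈ KK ρ x m :=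
  (le_sup_left : KL ρ x m ≤ KK ρ x m) (AddSubgroup.subset_closure ⟨i, hi, y, hy, rfl⟩)

theorem mem_KR {m : ℕ} {i y : R} (hi : i ∈ Ip ρ 1) (hy : y ∈ Mf ρ x m 0) : y * i ∈ KK ρ x m :=
  (le_sup_right : KR ρ x m ≤ KK ρ x m) (AddSubgroup.subset_closure ⟨y, hy, i, hi, rfl⟩)

theorem val_mem_one (l : Ltr ρ) : val ρ x l ∈ Ip ρ 1 := Ip_anti ρ (wL_pos ρ l) (val_mem ρ x l)

theorem evl_mem_zero {m : ℕ} {w : List (Ltr ρ)} (h : m ≤ ctl ρ w) : evl ρ x w ∈ Mf ρ x m 0 :=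
  AddSubgroup.subset_closure ⟨w, h, Nat.zero_le _, rfl⟩

theorem GapWord.mul_right {U : Type u} [Ring U] {X : U} {Y : Set U} {k : ℕ} {w y : U}
    (h : GapWord X Y k w) (hy : y ∈ Submonoid.closure Y) : GapWord X Y k (w * y) := by
  cases h with
  | base _ h => exact GapWord.base _ (Submonoid.mul_mem _ h hy)
  | step k w s hw hs =>
    rw [mul_assoc]
    exact GapWord.step _ _ _ hw (Submonoid.mul_mem _ hs hy)

theorem gap_wd (w : List (Ltr ρ)) : GapWord (Xh ρ) (Yh ρ) (ctl ρ w) (wd w) := by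
  induction w using List.reverseRecOn with
  | nil => exact GapWord.base _ (Submonoid.one_mem _)
  | append_singleton w l ih =>
    cases l with
    | none =>
      have e : ctl ρ (w ++ [none]) = ctl ρ w + 1 := by simp [ctl, cL]
      have e2 : (wd (w ++ [none]) : FR (Ltr ρ)) = wd w * Xh ρ * 1 := by
        rw [mul_one, Xh, wd_mul]
      rw [e, e2]
      exact GapWord.step _ _ _ ih (Submonoid.one_mem _)
    | some p =>
      have e : ctl ρ (w ++ [some p]) = ctl ρ w := by simp [ctl, cL]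
      rw [e, ← wd_mul]
      exact ih.mul_right (Submonoid.subset_closure ⟨p, rfl⟩)

/-- the commutator letter -/
def comL (p q : {p : G × ℕ // 1 ≤ p.2 ∧ ρ p.1 - 1 ∈ Ip ρ p.2}) :
    {p : G × ℕ // 1 ≤ p.2 ∧ ρ p.1 - 1 ∈ Ip ρ p.2} :=
  ⟨(p.1.1⁻¹ * q.1.1⁻¹ * p.1.1 * q.1.1, p.1.2 + q.1.2), by
    refine ⟨by have := p.2.1; show 1 ≤ p.1.2 + q.1.2; omega, ?_⟩
    show ρ (p.1.1⁻¹ * q.1.1⁻¹ * p.1.1 * q.1.1) - 1 ∈ Ip ρ (p.1.2 + q.1.2)
    rw [comm_id'']
    have h1 := Ip_mul ρ p.2.2 q.2.2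
    have h2 := Ip_mul ρ q.2.2 p.2.2
    rw [add_comm q.1.2 p.1.2] at h2
    have := Ip_mul ρ (rho_mem ρ ((q.1.1 * p.1.1)⁻¹)) (AddSubgroup.sub_mem _ h1 h2)
    rwa [zero_add] at this⟩

theorem comm_part {m d n : ℕ} (hdeep : Mf ρ x m (d + 1) ≤ KK ρ x m)
    (ih : ∀ n' < n, ∀ w : List (Ltr ρ), ctl ρ w = m → wtl ρ w = d → ntl ρ w = n' → evl ρ x w ∈ KK ρ x m)
    (l l' : List (Ltr ρ)) (p q : {p : G × ℕ // 1 ≤ p.2 ∧ ρ p.1 - 1 ∈ Ip ρ p.2})
    (hc : ctl ρ (l ++ [some p, some q] ++ l') = m) (hd : wtl ρ (l ++ [some p, some q] ++ l') = d)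
    (hn : ntl ρ (l ++ [some p, some q] ++ l') = n) :
    evl ρ x l * ((ρ p.1.1 - 1) * (ρ q.1.1 - 1) - (ρ q.1.1 - 1) * (ρ p.1.1 - 1)) * evl ρ x l' ∈ KK ρ x m := by
  have hs1 : evl ρ x [some (comL ρ p q)] = ρ (p.1.1⁻¹ * q.1.1⁻¹ * p.1.1 * q.1.1) - 1 := by
    simp [evl, val, comL]
  have hs2 : wtl ρ [some (comL ρ p q)] = p.1.2 + q.1.2 := by simp [wtl, wL, comL]
  have hs3 : ctl ρ [some (comL ρ p q)] = 0 := by simp [ctl, cL]
  have hs4 : ntl ρ [some (comL ρ p q)] = 1 := by simp [ntl, nL]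
  have ha : ctl ρ ([some p, some q] : List (Ltr ρ)) = 0 := by simp [ctl, cL]
  have hb : wtl ρ ([some p, some q] : List (Ltr ρ)) = p.1.2 + q.1.2 := by simp [wtl, wL]
  have hg : ntl ρ ([some p, some q] : List (Ltr ρ)) = 2 := by simp [ntl, nL]
  rw [ctl_append, ctl_append, ha] at hc
  rw [wtl_append, wtl_append, hb] at hd
  rw [ntl_append, ntl_append, hg] at hn
  have e2 : evl ρ x l * ((ρ p.1.1 - 1) * (ρ q.1.1 - 1) - (ρ q.1.1 - 1) * (ρ p.1.1 - 1)) * evl ρ x l' =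
      evl ρ x l * (ρ (q.1.1 * p.1.1) - 1) * evl ρ x [some (comL ρ p q)] * evl ρ x l' +
      evl ρ x (l ++ [some (comL ρ p q)] ++ l') := by
    rw [comm_id', evl_append, evl_append, hs1]
    noncomm_ring
  rw [e2]
  refine AddSubgroup.add_mem _ (hdeep ?_) ?_
  · have h1 := Mf_mul ρ x _ _ _ _ _ _ (Mf_mul ρ x _ _ _ _ _ _ (Mf_mul ρ x _ _ _ _ _ _
      (evl_mem ρ x l) (diff_mem_Mf ρ x (q.1.1 * p.1.1))) (evl_mem ρ x [some (comL ρ p q)])) (evl_mem ρ x l')
    rw [hs2, hs3] at h1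
    exact Mf_anti ρ x _ _ _ _ (by omega) (by omega) h1
  · refine ih (n - 1) (by omega) _ ?_ ?_ ?_
    · rw [ctl_append, ctl_append, hs3]; omega
    · rw [wtl_append, wtl_append, hs2]; omega
    · rw [ntl_append, ntl_append, hs4]; omega

theorem mk_zero_of {K : AddSubgroup R} {r : R} (h : r ∈ K) : (QuotientAddGroup.mk r : R ⧸ K) = 0 :=
  (QuotientAddGroup.eq_zero_iff r).2 h

theorem hcomm_part {m d n : ℕ} (hdeep : Mf ρ x m (d + 1) ≤ KK ρ x m)
    (ih : ∀ n' < n, ∀ w : List (Ltr ρ), ctl ρ w = m → wtl ρ w = d → ntl ρ w = n' → evl ρ x w ∈ KK ρ x m)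
    (w : List (Ltr ρ)) (hcw : ctl ρ w = m) (hdw : wtl ρ w = d) (hnw : ntl ρ w = n)
    (l l' : List (Ltr ρ)) (p q : {p : G × ℕ // 1 ≤ p.2 ∧ ρ p.1 - 1 ∈ Ip ρ p.2}) :
    phiC (val ρ x) (KK ρ x m) (w : Multiset (Ltr ρ))
      (wd l * (wd [some p] * wd [some q] - wd [some q] * wd [some p]) * wd l') = 0 := by
  have hhom : wd l * (wd [some p] * wd [some q] - wd [some q] * wd [some p]) * wd l' ∈
      Hom ((l ++ [some p, some q] ++ l' : List (Ltr ρ)) : Multiset (Ltr ρ)) := by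
    have e : wd l * (wd [some p] * wd [some q] - wd [some q] * wd [some p]) * wd l' =
        (wd (l ++ [some p, some q] ++ l') - wd (l ++ [some q, some p] ++ l') : FR (Ltr ρ)) := by
      rw [wd_mul, wd_mul, mul_sub, sub_mul, wd_mul, wd_mul, wd_mul, wd_mul]
      rfl
    rw [e]
    refine AddSubgroup.sub_mem _ (wd_mem _) (cast4 (wd_mem _) ?_)
    exact Multiset.coe_eq_coe.2 (List.Perm.append_right _ (List.Perm.append_left _ (List.Perm.swap _ _ _)))
  by_cases hκ : ((l ++ [some p, some q] ++ l' : List (Ltr ρ)) : Multiset (Ltr ρ)) = (w : Multiset (Ltr ρ))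
  · rw [hκ] at hhom
    rw [phiC_eq _ _ _ hhom]
    apply mk_zero_of
    have e1 : evF (val ρ x) (wd l * (wd [some p] * wd [some q] - wd [some q] * wd [some p]) * wd l') =
        evl ρ x l * ((ρ p.1.1 - 1) * (ρ q.1.1 - 1) - (ρ q.1.1 - 1) * (ρ p.1.1 - 1)) * evl ρ x l' := by
      rw [map_mul, map_mul, map_sub, map_mul, map_mul, evF_eq, evF_eq, evF_eq, evF_eq]
      simp [evl, val]
    rw [e1]
    refine comm_part ρ x hdeep ih l l' p q ?_ ?_ ?_
    · have := congrArg (cM ρ) hκ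
      rwa [cM_coe, cM_coe, hcw] at this
    · have := congrArg (wM ρ) hκ
      rwa [wM_coe, wM_coe, hdw] at this
    · have := congrArg (nM ρ) hκ
      rwa [nM_coe, nM_coe, hnw] at this
  · exact phiC_ne _ _ _ hκ hhom

theorem hsym_part {m d : ℕ} (hρ : ∀ g, (ρ g - 1) ^ 4 = 0) (hdeep : Mf ρ x m (d + 1) ≤ KK ρ x m)
    (w : List (Ltr ρ)) (hcw : ctl ρ w = m) (hdw : wtl ρ w = d)
    (l l' : List (Ltr ρ)) {u1 u2 u3 u4 : FR (Ltr ρ)}
    (h1 : LieMon (Xh ρ) (Yh ρ) u1) (h2 : LieMon (Xh ρ) (Yh ρ) u2)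
    (h3 : LieMon (Xh ρ) (Yh ρ) u3) (h4 : LieMon (Xh ρ) (Yh ρ) u4) :
    phiC (val ρ x) (KK ρ x m) (w : Multiset (Ltr ρ)) (wd l * sym4 u1 u2 u3 u4 * wd l') = 0 := by
  obtain ⟨κ, hκ, hev⟩ := sym4_deep ρ x hρ h1 h2 h3 h4
  have hhom : wd l * sym4 u1 u2 u3 u4 * wd l' ∈ Hom ((l : Multiset (Ltr ρ)) + κ + (l' : Multiset (Ltr ρ))) :=
    Hom_mul (Hom_mul (wd_mem l) hκ) (wd_mem l')
  by_cases hc : (l : Multiset (Ltr ρ)) + κ + (l' : Multiset (Ltr ρ)) = (w : Multiset (Ltr ρ))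
  · rw [hc] at hhom
    rw [phiC_eq _ _ _ hhom]
    apply mk_zero_of
    refine hdeep ?_
    rw [map_mul, map_mul, evF_eq, evF_eq]
    have hcc := congrArg (cM ρ) hc
    have hww := congrArg (wM ρ) hc
    rw [cM_add, cM_add, cM_coe, cM_coe, cM_coe, hcw] at hcc
    rw [wM_add, wM_add, wM_coe, wM_coe, wM_coe, hdw] at hww
    exact Mf_anti ρ x _ _ _ _ (by omega) (by omega) (Mf_mul ρ x _ _ _ _ _ _
      (Mf_mul ρ x _ _ _ _ _ _ (evl_mem ρ x l) hev) (evl_mem ρ x l'))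
  · exact phiC_ne _ _ _ hc hhom

theorem hl_part {m : ℕ} (w : List (Ltr ρ)) (hcw : ctl ρ w = m)
    (p : {p : G × ℕ // 1 ≤ p.2 ∧ ρ p.1 - 1 ∈ Ip ρ p.2}) (v : FR (Ltr ρ)) :
    phiC (val ρ x) (KK ρ x m) (w : Multiset (Ltr ρ)) (wd [some p] * v) = 0 := by
  induction v using FR_induction with
  | h0 => rw [mul_zero, map_zero]
  | hadd a b ha hb => rw [mul_add, map_add, ha, hb, add_zero]
  | hneg a ha => rw [mul_neg, map_neg, ha, neg_zero]
  | hw l =>
    rw [wd_mul, phiC_wd]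
    split_ifs with hc
    · apply mk_zero_of
      have hcc := congrArg (cM ρ) hc
      rw [cM_coe, cM_coe, hcw] at hcc
      have e : (([some p] ++ l).map (val ρ x)).prod = val ρ x (some p) * evl ρ x l := by
        simp [evl]
      rw [e]
      refine mem_KL ρ x (val_mem_one ρ x _) (evl_mem_zero ρ x ?_)
      rw [← hcc]
      simp [ctl, cL]
    · rfl

theorem hr_part {m : ℕ} (w : List (Ltr ρ)) (hcw : ctl ρ w = m)
    (p : {p : G × ℕ // 1 ≤ p.2 ∧ ρ p.1 - 1 ∈ Ip ρ p.2}) (v : FR (Ltr ρ)) :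
    phiC (val ρ x) (KK ρ x m) (w : Multiset (Ltr ρ)) (v * wd [some p]) = 0 := by
  induction v using FR_induction with
  | h0 => rw [zero_mul, map_zero]
  | hadd a b ha hb => rw [add_mul, map_add, ha, hb, add_zero]
  | hneg a ha => rw [neg_mul, map_neg, ha, neg_zero]
  | hw l =>
    rw [wd_mul, phiC_wd]
    split_ifs with hc
    · apply mk_zero_of
      have hcc := congrArg (cM ρ) hc
      rw [cM_coe, cM_coe, hcw] at hcc
      have e : ((l ++ [some p]).map (val ρ x)).prod = evl ρ x l * val ρ x (some p) := by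
        simp [evl]
      rw [e]
      refine mem_KR ρ x (val_mem_one ρ x _) (evl_mem_zero ρ x ?_)
      rw [← hcc]
      simp [ctl, cL]
    · rfl

theorem five_smul (h5 : (5 : R) = 0) (K : AddSubgroup R) (a : R ⧸ K) : (5 : ℤ) • a = 0 := by
  obtain ⟨r, rfl⟩ := QuotientAddGroup.mk_surjective a
  have : (5 : ℤ) • r = 0 := by
    rw [zsmul_eq_mul]
    norm_num
    rw [h5, zero_mul]
  rw [← QuotientAddGroup.mk_zsmul, this]
  rfl

/-- inner induction -/
theorem inner {m : ℕ} (T1 : T1Prop.{u} m) (h5 : (5 : R) = 0) (hρ : ∀ g, (ρ g - 1) ^ 4 = 0) {d : ℕ}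
    (hdeep : Mf ρ x m (d + 1) ≤ KK ρ x m) :
    ∀ n : ℕ, ∀ w : List (Ltr ρ), ctl ρ w = m → wtl ρ w = d → ntl ρ w = n → evl ρ x w ∈ KK ρ x m := by
  intro n
  induction n using Nat.strong_induction_on with
  | _ n ih =>
  intro w hcw hdw hnw
  have key : phiC (val ρ x) (KK ρ x m) (w : Multiset (Ltr ρ)) (wd w) = 0 := by
    refine T1_functional T1 (A := R ⧸ KK ρ x m) (five_smul h5 _) (Xh ρ) (Yh ρ) _ ?_ ?_ ?_ ?_ (wd w) ?_
    · rintro _ ⟨p, rfl⟩ _ ⟨q, rfl⟩ P S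
      exact phiC_context _ _ (fun l l' => hcomm_part ρ x hdeep ih w hcw hdw hnw l l' p q) P S
    · intro u1 u2 u3 u4 h1 h2 h3 h4 P S
      exact phiC_context _ _ (fun l l' => hsym_part ρ x hρ hdeep w hcw hdw l l' h1 h2 h3 h4) P S
    · rintro _ ⟨p, rfl⟩ v
      exact hl_part ρ x w hcw p v
    · rintro _ ⟨p, rfl⟩ v
      exact hr_part ρ x w hcw p v
    · have := gap_wd ρ w
      rwa [hcw] at this
  rw [phiC_wd, if_pos rfl, QuotientAddGroup.eq_zero_iff] at key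
  exact key

theorem big {m : ℕ} {w : List (Ltr ρ)} (h : m + 1 ≤ ctl ρ w) : evl ρ x w ∈ KK ρ x m := by
  induction w using List.reverseRecOn with
  | nil => simp [ctl] at h
  | append_singleton w l _ =>
    rw [evl_append]
    have h1 : ctl ρ (w ++ [l]) ≤ ctl ρ w + 1 := by
      rw [ctl_append]
      have : ctl ρ [l] ≤ 1 := by cases l <;> simp [ctl, cL]
      omega
    have : evl ρ x [l] = val ρ x l := by simp [evl]
    rw [this]
    exact mem_KR ρ x (val_mem_one ρ x _) (evl_mem_zero ρ x (by omega))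

theorem outer {m N : ℕ} (T1 : T1Prop.{u} m) (h5 : (5 : R) = 0) (hρ : ∀ g, (ρ g - 1) ^ 4 = 0)
    (hN : Ip ρ N = ⊥) : ∀ k d : ℕ, k + d = N → Mf ρ x m d ≤ KK ρ x m := by
  intro k
  induction k with
  | zero =>
    intro d hd
    have : d = N := by omega
    rw [this, Mf_bot ρ x hN]
    exact bot_le
  | succ k ih =>
    intro d hd
    have hdeep := ih (d + 1) (by omega)
    refine (AddSubgroup.closure_le _).2 ?_
    rintro _ ⟨w, h1, h2, rfl⟩
    by_cases hm : ctl ρ w = m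
    · by_cases hw : wtl ρ w = d
      · exact inner ρ x T1 h5 hρ hdeep _ w hm hw rfl
      · exact hdeep (AddSubgroup.subset_closure ⟨w, h1, by omega, rfl⟩)
    · exact big ρ x (by omega)

theorem left_step {m k : ℕ} {i : R} (hi : i ∈ Ip ρ k) {a : R} (ha : a ∈ KL ρ x m) :
    i * a ∈ AddSubgroup.closure {r | ∃ i ∈ Ip ρ (k + 1), ∃ y ∈ Mf ρ x m 0, r = i * y} := by
  induction ha using AddSubgroup.closure_induction with
  | mem s hs =>
    obtain ⟨i', hi', y', hy', rfl⟩ := hs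
    exact AddSubgroup.subset_closure ⟨i * i', Ip_mul ρ hi hi', y', hy', by rw [mul_assoc]⟩
  | zero => rw [mul_zero]; exact AddSubgroup.zero_mem _
  | add a b _ _ ha hb => rw [mul_add]; exact AddSubgroup.add_mem _ ha hb
  | neg a _ ha => rw [mul_neg]; exact AddSubgroup.neg_mem _ ha

theorem mid_step {m k : ℕ} (hIM : ∀ k, ∀ i ∈ Ip ρ k, ∀ y ∈ Mf ρ x m 0, i * y ∈ Mf ρ x m 0)
    {i : R} (hi : i ∈ Ip ρ k) {a : R} (ha : a ∈ KR ρ x m) : i * a ∈ KR ρ x m := by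
  induction ha using AddSubgroup.closure_induction with
  | mem s hs =>
    obtain ⟨y', hy', i', hi', rfl⟩ := hs
    exact AddSubgroup.subset_closure ⟨i * y', hIM k i hi y' hy', i', hi', by rw [mul_assoc]⟩
  | zero => rw [mul_zero]; exact AddSubgroup.zero_mem _
  | add a b _ _ ha hb => rw [mul_add]; exact AddSubgroup.add_mem _ ha hb
  | neg a _ ha => rw [mul_neg]; exact AddSubgroup.neg_mem _ ha

theorem right_step {m k : ℕ} {i : R} (hi : i ∈ Ip ρ k) {a : R} (ha : a ∈ KR ρ x m) :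
    a * i ∈ AddSubgroup.closure {r | ∃ y ∈ Mf ρ x m 0, ∃ i ∈ Ip ρ (k + 1), r = y * i} := by
  induction ha using AddSubgroup.closure_induction with
  | mem s hs =>
    obtain ⟨y', hy', i', hi', rfl⟩ := hs
    refine AddSubgroup.subset_closure ⟨y', hy', i' * i, ?_, by rw [mul_assoc]⟩
    have := Ip_mul ρ hi' hi
    rwa [add_comm] at this
  | zero => rw [zero_mul]; exact AddSubgroup.zero_mem _
  | add a b _ _ ha hb => rw [add_mul]; exact AddSubgroup.add_mem _ ha hb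
  | neg a _ ha => rw [neg_mul]; exact AddSubgroup.neg_mem _ ha

theorem nil_lemma {m N : ℕ} (hN : Ip ρ N = ⊥) (h : Mf ρ x m 0 ≤ KK ρ x m) : Mf ρ x m 0 = ⊥ := by
  have hIM : ∀ k, ∀ i ∈ Ip ρ k, ∀ y ∈ Mf ρ x m 0, i * y ∈ Mf ρ x m 0 := by
    intro k i hi y hy
    have := Mf_mul ρ x _ _ _ _ _ _ (Ip_le_Mf ρ x k hi) hy
    rwa [zero_add] at this
  have s1 : ∀ k, Mf ρ x m 0 ≤ AddSubgroup.closure {r | ∃ i ∈ Ip ρ k, ∃ y ∈ Mf ρ x m 0, r = i * y} ⊔
      KR ρ x m := by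
    intro k
    induction k with
    | zero =>
      refine le_sup_of_le_left ?_
      intro y hy
      refine AddSubgroup.subset_closure ⟨1, ?_, y, hy, by simp⟩
      have := rho_mem ρ 1
      rwa [map_one] at this
    | succ k ih =>
      refine ih.trans (sup_le ?_ le_sup_right)
      refine (AddSubgroup.closure_le _).2 ?_
      rintro _ ⟨i, hi, y, hy, rfl⟩
      obtain ⟨a, ha, b, hb, hab⟩ := AddSubgroup.mem_sup.1 (h hy)
      show i * y ∈ _
      rw [← hab, mul_add]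
      exact AddSubgroup.add_mem_sup (left_step ρ x hi ha) (mid_step ρ x hIM hi hb)
  have s2 : Mf ρ x m 0 ≤ KR ρ x m := by
    have := s1 N
    rw [hN] at this
    refine this.trans (sup_le ?_ le_rfl)
    refine (AddSubgroup.closure_le _).2 ?_
    rintro _ ⟨i, hi, y, hy, rfl⟩
    rw [AddSubgroup.mem_bot] at hi
    rw [hi, zero_mul]
    exact AddSubgroup.zero_mem _
  have s3 : ∀ k, Mf ρ x m 0 ≤ AddSubgroup.closure {r | ∃ y ∈ Mf ρ x m 0, ∃ i ∈ Ip ρ k, r = y * i} := by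
    intro k
    induction k with
    | zero =>
      intro y hy
      refine AddSubgroup.subset_closure ⟨y, hy, 1, ?_, by simp⟩
      have := rho_mem ρ 1
      rwa [map_one] at this
    | succ k ih =>
      refine ih.trans ?_
      refine (AddSubgroup.closure_le _).2 ?_
      rintro _ ⟨y, hy, i, hi, rfl⟩
      exact right_step ρ x hi (s2 hy)
  rw [eq_bot_iff]
  have := s3 N
  rw [hN] at this
  refine this.trans ((AddSubgroup.closure_le _).2 ?_)
  rintro _ ⟨y, hy, i, hi, rfl⟩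
  rw [AddSubgroup.mem_bot] at hi
  rw [hi, mul_zero]
  exact AddSubgroup.zero_mem _

/-- **Class bound.**  If `T1Prop m` holds, then in the image `R` of the group ring of a group all of
whose elements satisfy `(g - 1)^4 = 0` (in characteristic 5, with nilpotent augmentation ideal) every
product with `m` factors `x - 1` vanishes. -/
theorem class_bound {m N : ℕ} (T1 : T1Prop.{u} m) (h5 : (5 : R) = 0) (hρ : ∀ g, (ρ g - 1) ^ 4 = 0)
    (hN : ∀ l : List G, l.length = N → dprod ρ l = 0) (l : List G) (hl : l.length = m) :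
    (l.map (fun g => (ρ x - 1) * ρ g)).prod = 0 := by
  have hb := Ip_bot ρ hN
  have hz := nil_lemma ρ x hb (outer ρ x T1 h5 hρ hb N 0 (by omega))
  have hmem : ∀ l : List G, (l.map (fun g => (ρ x - 1) * ρ g)).prod ∈ Mf ρ x l.length 0 := by
    intro l
    induction l with
    | nil => simpa using one_mem_Mf ρ x
    | cons g l ih =>
      rw [List.map_cons, List.prod_cons, List.length_cons]
      have h1 : ρ x - 1 ∈ Mf ρ x 1 1 :=
        AddSubgroup.subset_closure ⟨[none], by simp [ctl, cL], by simp [wtl, wL], by simp [evl, val]⟩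
      have := Mf_mul ρ x _ _ _ _ _ _ (Mf_mul ρ x _ _ _ _ _ _ h1 (rho_mem_Mf ρ x g)) ih
      exact Mf_anti ρ x _ _ _ _ (by omega) (by omega) this
  have := hmem l
  rw [hl, hz] at this
  exact this

end Main

end Pool.Agent.MP5c99ad
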