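import Mathlib
import Pool.Agent.Lib.MP_5c99ad_al.ClassG

set_option autoImplicit false

/-!
Class bound, part H: nilpotency of the augmentation ideal of a finite 5-group, final forms.
-/

namespace Pool.Agent.MP5c99ad

universe u

/-- nonzero fixed vector -/
theorem exists_fixed {G A : Type*} [Group G] [AddCommGroup A] [Finite A] [Nontrivial A]
    (hG : IsPGroup 5 G) (h5 : ∀ a : A, 5 • a = 0) (ρ : G →* AddMonoid.End A) :
    ∃ b : A, b ≠ 0 ∧ ∀ g, ρ g b = b := by
  haveI : Fact (Nat.Prime 5) := ⟨by norm_num⟩
  letI : MulAction G A :=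
    { smul := fun g a => ρ g a
      one_smul := by intro a; show ρ 1 a = a; rw [map_one]; rfl
      mul_smul := by intro g h a; show ρ (g * h) a = ρ g (ρ h a); rw [map_mul]; rfl }
  obtain ⟨b, hb⟩ := exists_ne (0 : A)
  have hd : 5 ∣ Nat.card A := by
    have h1 : addOrderOf b = 5 := addOrderOf_eq_prime (h5 b) hb
    rw [← h1]
    exact addOrderOf_dvd_natCard b
  obtain ⟨c, hc, hc0⟩ := hG.exists_fixed_point_of_prime_dvd_card_of_fixed_point A hd (a := (0 : A)) (by
    intro g
    show ρ g 0 = 0
    exact map_zero _)
  exact ⟨c, fun h => hc0 h.symm, fun g => hc g⟩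

/-- a finite 5-group acts unipotently on a finite elementary abelian 5-group -/
theorem unipotent_aux {G : Type*} [Group G] (hG : IsPGroup 5 G) :
    ∀ (n : ℕ) (A : Type u) [AddCommGroup A] [Finite A], Nat.card A = n → (∀ a : A, 5 • a = 0) →
      ∀ ρ : G →* AddMonoid.End A, ∃ N : ℕ, ∀ l : List G, l.length = N →
        (l.map (fun g => ρ g - 1)).prod = 0 := by
  intro n
  induction n using Nat.strong_induction_on with
  | _ n ih =>
  intro A _ _ hn h5 ρ
  by_cases hA : Nontrivial A
  · obtain ⟨b, hb, hfix⟩ := exists_fixed hG h5 ρ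
    let B : AddSubgroup A := AddSubgroup.closure {b}
    have hBfix : ∀ g, ∀ c ∈ B, ρ g c = c := by
      intro g c hc
      induction hc using AddSubgroup.closure_induction with
      | mem s hs =>
        rw [Set.mem_singleton_iff] at hs
        subst hs
        exact hfix g
      | zero => exact map_zero _
      | add a b _ _ ha hb => rw [map_add, ha, hb]
      | neg a _ ha => rw [map_neg, ha]
    have hle : ∀ g, B ≤ B.comap (ρ g) := by
      intro g c hc
      show ρ g c ∈ B
      rw [hBfix g c hc]
      exact hc
    let ρ' : G →* AddMonoid.End (A ⧸ B) :=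
      { toFun := fun g => QuotientAddGroup.map B B (ρ g) (hle g)
        map_one' := by
          ext a
          obtain ⟨a, rfl⟩ := QuotientAddGroup.mk_surjective a
          show (QuotientAddGroup.mk (ρ 1 a) : A ⧸ B) = _
          rw [map_one]
          rfl
        map_mul' := by
          intro g h
          ext a
          obtain ⟨a, rfl⟩ := QuotientAddGroup.mk_surjective a
          show (QuotientAddGroup.mk (ρ (g * h) a) : A ⧸ B) = QuotientAddGroup.mk (ρ g (ρ h a))
          rw [map_mul]
          rfl }
    have hcard : Nat.card (A ⧸ B) < n := by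
      rw [← hn]
      have h1 := AddSubgroup.card_eq_card_quotient_mul_card_addSubgroup B
      have h2 : 1 < Nat.card B := by
        rw [Finite.one_lt_card_iff_nontrivial]
        exact ⟨⟨⟨b, AddSubgroup.subset_closure rfl⟩, 0, fun h => hb (by simpa using congrArg Subtype.val h)⟩⟩
      have h3 : 0 < Nat.card (A ⧸ B) := Nat.card_pos
      rw [h1]
      nlinarith
    obtain ⟨N, hN⟩ := ih _ hcard (A ⧸ B) rfl (by
      intro a
      obtain ⟨a, rfl⟩ := QuotientAddGroup.mk_surjective a
      rw [← QuotientAddGroup.mk_nsmul, h5]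
      rfl) ρ'
    refine ⟨N + 1, ?_⟩
    intro l hl
    cases l with
    | nil => simp at hl
    | cons g l =>
      simp only [List.length_cons, Nat.add_right_cancel_iff] at hl
      have hq : ∀ (l : List G) (a : A), (QuotientAddGroup.mk ((l.map (fun g => ρ g - 1)).prod a) : A ⧸ B) =
          (l.map (fun g => ρ' g - 1)).prod (QuotientAddGroup.mk a) := by
        intro l
        induction l with
        | nil => intro a; rfl
        | cons g l ihl =>
          intro a
          simp only [List.map_cons, List.prod_cons]
          show (QuotientAddGroup.mk (ρ g ((l.map (fun g => ρ g - 1)).prod a) -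
            (l.map (fun g => ρ g - 1)).prod a) : A ⧸ B) = ρ' g ((l.map (fun g => ρ' g - 1)).prod (QuotientAddGroup.mk a)) -
              (l.map (fun g => ρ' g - 1)).prod (QuotientAddGroup.mk a)
          rw [← ihl a]
          rfl
      ext a
      rw [List.map_cons, List.prod_cons]
      have h1 := hq l a
      rw [hN l hl] at h1
      have h2 : (l.map (fun g => ρ g - 1)).prod a ∈ B := by
        rw [← QuotientAddGroup.eq_zero_iff]
        exact h1
      show ρ g ((l.map (fun g => ρ g - 1)).prod a) - (l.map (fun g => ρ g - 1)).prod a = 0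
      rw [hBfix g _ h2, sub_self]
  · refine ⟨0, ?_⟩
    intro l _
    rw [not_nontrivial_iff_subsingleton] at hA
    ext a
    exact Subsingleton.elim _ _

/-- the augmentation ideal of a finite 5-group is nilpotent in characteristic 5 -/
theorem aug_nilpotent {G R : Type u} [Group G] [Finite G] [Ring R] (hG : IsPGroup 5 G) (h5 : (5 : R) = 0)
    (ρ : G →* R) : ∃ N : ℕ, ∀ l : List G, l.length = N → dprod ρ l = 0 := by
  let S : AddSubgroup R := AddSubgroup.closure (Set.range ρ)
  have hS5 : ∀ a : S, 5 • a = 0 := by
    intro a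
    ext
    show (5 : ℕ) • (a : R) = 0
    rw [nsmul_eq_mul]
    push_cast
    rw [h5, zero_mul]
  haveI : AddGroup.FG S := by
    rw [AddGroup.fg_iff_addSubgroup_fg]
    exact ⟨(Set.finite_range ρ).toFinset, by simp [S]⟩
  haveI : Finite S := by
    haveI : Module.Finite ℤ S := Module.Finite.iff_addGroup_fg.2 inferInstance
    refine AddCommGroup.finite_of_fg_isAddTorsion S ?_
    intro a
    rw [isOfFinAddOrder_iff_nsmul_eq_zero]
    exact ⟨5, by norm_num, hS5 a⟩
  have hmul : ∀ g : G, ∀ a ∈ S, ρ g * a ∈ S := by
    intro g a ha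
    induction ha using AddSubgroup.closure_induction with
    | mem s hs =>
      obtain ⟨h, rfl⟩ := hs
      rw [← map_mul]
      exact AddSubgroup.subset_closure ⟨_, rfl⟩
    | zero => rw [mul_zero]; exact S.zero_mem
    | add a b _ _ ha hb => rw [mul_add]; exact S.add_mem ha hb
    | neg a _ ha => rw [mul_neg]; exact S.neg_mem ha
  let σ : G →* AddMonoid.End S :=
    { toFun := fun g =>
        { toFun := fun a => ⟨ρ g * a, hmul g a a.2⟩
          map_zero' := by ext; simp
          map_add' := by intro a b; ext; simp [mul_add] }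
      map_one' := by
        ext a
        show ρ 1 * (a : R) = a
        rw [map_one, one_mul]
      map_mul' := by
        intro g h
        ext a
        show ρ (g * h) * (a : R) = ρ g * (ρ h * a)
        rw [map_mul, mul_assoc] }
  obtain ⟨N, hN⟩ := unipotent_aux hG _ S rfl hS5 σ
  refine ⟨N, ?_⟩
  intro l hl
  have key : ∀ (l : List G) (a : S), (((l.map (fun g => σ g - 1)).prod a : S) : R) = dprod ρ l * a := by
    intro l
    induction l with
    | nil => intro a; simp [dprod]
    | cons g l ihl =>
      intro a
      have e : dprod ρ (g :: l) = (ρ g - 1) * dprod ρ l := by simp [dprod]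
      rw [e, List.map_cons, List.prod_cons]
      show ((σ g ((l.map (fun g => σ g - 1)).prod a) - (l.map (fun g => σ g - 1)).prod a : S) : R) = _
      rw [AddSubgroup.coe_sub]
      show ρ g * (((l.map (fun g => σ g - 1)).prod a : S) : R) - _ = _
      rw [ihl a]
      noncomm_ring
  have h1 : (1 : R) ∈ S := AddSubgroup.subset_closure ⟨1, map_one ρ⟩
  have := key l ⟨1, h1⟩
  rw [hN l hl] at this
  simpa using this.symm

/-- **Class bound for finite groups of exponent 5.** -/
theorem class_bound_finite {G R : Type u} [Group G] [Finite G] [Ring R] (ρ : G →* R) (x : G) {m : ℕ}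
    (T1 : T1Prop.{u} m) (hG : ∀ g : G, g ^ 5 = 1) (h5 : (5 : R) = 0) (hρ : ∀ g, (ρ g - 1) ^ 4 = 0)
    (l : List G) (hl : l.length = m) : (l.map (fun g => (ρ x - 1) * ρ g)).prod = 0 := by
  obtain ⟨N, hN⟩ := aug_nilpotent (fun g => ⟨1, by simpa using hG g⟩) h5 ρ
  exact class_bound ρ x T1 h5 hρ hN l hl

end Pool.Agent.MP5c99ad
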