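import Mathlib
import Pool.Agent.Lib.MP_5c99ad_al.ClassA

set_option autoImplicit false

/-!
Exactness for nice letters, part A: filtrations, polynomial functions of a natural number with
values in a noncommutative ring of characteristic 5, and extraction of the linear coefficient.
-/

namespace Pool.Agent.MP5c99ad

/-- a decreasing multiplicative filtration, vanishing from degree 5 on -/
structure Filt (R : Type*) [Ring R] where
  P : ℕ → AddSubgroup R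
  anti : ∀ k, P (k + 1) ≤ P k
  mul : ∀ i j x y, x ∈ P i → y ∈ P j → x * y ∈ P (i + j)
  one : (1 : R) ∈ P 0
  five : ∀ x ∈ P 5, x = 0

namespace Filt
variable {R : Type*} [Ring R] (F : Filt R)

theorem anti' {i j : ℕ} (h : i ≤ j) : F.P j ≤ F.P i := by
  induction h with
  | refl => exact le_rfl
  | step _ ih => exact le_trans (F.anti _) ih

theorem zero_of_le {k : ℕ} (h : 5 ≤ k) {x : R} (hx : x ∈ F.P k) : x = 0 :=
  F.five x (F.anti' h hx)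

theorem mul_zero_of {i j : ℕ} (h : 5 ≤ i + j) {x y : R} (hx : x ∈ F.P i) (hy : y ∈ F.P j) :
    x * y = 0 :=
  F.zero_of_le h (F.mul i j x y hx hy)

end Filt

/-- `f a = f0 + a f1 + a² f2 + a³ f3 + a⁴ f4` with `f_k ∈ P k` -/
def PolyAt {R : Type*} [Ring R] (F : Filt R) (f : ℕ → R) (f0 f1 : R) : Prop :=
  f0 ∈ F.P 0 ∧ f1 ∈ F.P 1 ∧ ∃ f2 ∈ F.P 2, ∃ f3 ∈ F.P 3, ∃ f4 ∈ F.P 4,
    ∀ a : ℕ, f a = f0 + (a : R) * f1 + (a : R) ^ 2 * f2 + (a : R) ^ 3 * f3 + (a : R) ^ 4 * f4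

namespace PolyAt
variable {R : Type*} [Ring R] {F : Filt R}

theorem const {r : R} (hr : r ∈ F.P 0) : PolyAt F (fun _ => r) r 0 := by
  refine ⟨hr, zero_mem _, 0, zero_mem _, 0, zero_mem _, 0, zero_mem _, ?_⟩
  intro a
  simp

theorem add {f g : ℕ → R} {f0 f1 g0 g1 : R} (hf : PolyAt F f f0 f1) (hg : PolyAt F g g0 g1) :
    PolyAt F (fun a => f a + g a) (f0 + g0) (f1 + g1) := by
  obtain ⟨h0, h1, f2, h2, f3, h3, f4, h4, hf⟩ := hf
  obtain ⟨k0, k1, g2, k2, g3, k3, g4, k4, hg⟩ := hg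
  refine ⟨add_mem h0 k0, add_mem h1 k1, f2 + g2, add_mem h2 k2, f3 + g3, add_mem h3 k3,
    f4 + g4, add_mem h4 k4, ?_⟩
  intro a
  show f a + g a = _
  rw [hf, hg]
  simp only [mul_add]
  abel

theorem neg {f : ℕ → R} {f0 f1 : R} (hf : PolyAt F f f0 f1) :
    PolyAt F (fun a => - f a) (- f0) (- f1) := by
  obtain ⟨h0, h1, f2, h2, f3, h3, f4, h4, hf⟩ := hf
  refine ⟨neg_mem h0, neg_mem h1, -f2, neg_mem h2, -f3, neg_mem h3, -f4, neg_mem h4, ?_⟩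
  intro a
  show - f a = _
  rw [hf]
  simp only [mul_neg]
  abel

theorem sub {f g : ℕ → R} {f0 f1 g0 g1 : R} (hf : PolyAt F f f0 f1) (hg : PolyAt F g g0 g1) :
    PolyAt F (fun a => f a - g a) (f0 - g0) (f1 - g1) := by
  have := hf.add hg.neg
  simpa only [sub_eq_add_neg] using this

theorem mul {f g : ℕ → R} {f0 f1 g0 g1 : R} (hf : PolyAt F f f0 f1) (hg : PolyAt F g g0 g1) :
    PolyAt F (fun a => f a * g a) (f0 * g0) (f0 * g1 + f1 * g0) := by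
  obtain ⟨h0, h1, f2, h2, f3, h3, f4, h4, hf⟩ := hf
  obtain ⟨k0, k1, g2, k2, g3, k3, g4, k4, hg⟩ := hg
  refine ⟨F.mul 0 0 _ _ h0 k0, add_mem (F.mul 0 1 _ _ h0 k1) (F.mul 1 0 _ _ h1 k0),
    f0 * g2 + f1 * g1 + f2 * g0,
    add_mem (add_mem (F.mul 0 2 _ _ h0 k2) (F.mul 1 1 _ _ h1 k1)) (F.mul 2 0 _ _ h2 k0),
    f0 * g3 + f1 * g2 + f2 * g1 + f3 * g0,
    add_mem (add_mem (add_mem (F.mul 0 3 _ _ h0 k3) (F.mul 1 2 _ _ h1 k2)) (F.mul 2 1 _ _ h2 k1))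
      (F.mul 3 0 _ _ h3 k0),
    f0 * g4 + f1 * g3 + f2 * g2 + f3 * g1 + f4 * g0,
    add_mem (add_mem (add_mem (add_mem (F.mul 0 4 _ _ h0 k4) (F.mul 1 3 _ _ h1 k3))
      (F.mul 2 2 _ _ h2 k2)) (F.mul 3 1 _ _ h3 k1)) (F.mul 4 0 _ _ h4 k0), ?_⟩
  intro a
  show f a * g a = _
  rw [hf, hg]
  have e14 : f1 * g4 = 0 := F.mul_zero_of (i := 1) (j := 4) (by norm_num) h1 k4
  have e23 : f2 * g3 = 0 := F.mul_zero_of (i := 2) (j := 3) (by norm_num) h2 k3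
  have e32 : f3 * g2 = 0 := F.mul_zero_of (i := 3) (j := 2) (by norm_num) h3 k2
  have e41 : f4 * g1 = 0 := F.mul_zero_of (i := 4) (j := 1) (by norm_num) h4 k1
  have e24 : f2 * g4 = 0 := F.mul_zero_of (i := 2) (j := 4) (by norm_num) h2 k4
  have e33 : f3 * g3 = 0 := F.mul_zero_of (i := 3) (j := 3) (by norm_num) h3 k3
  have e42 : f4 * g2 = 0 := F.mul_zero_of (i := 4) (j := 2) (by norm_num) h4 k2
  have e34 : f3 * g4 = 0 := F.mul_zero_of (i := 3) (j := 4) (by norm_num) h3 k4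
  have e43 : f4 * g3 = 0 := F.mul_zero_of (i := 4) (j := 3) (by norm_num) h4 k3
  have e44 : f4 * g4 = 0 := F.mul_zero_of (i := 4) (j := 4) (by norm_num) h4 k4
  have hc : ∀ (i j : ℕ) (x y : R), ((a : R) ^ i * x) * ((a : R) ^ j * y) = (a : R) ^ (i + j) * (x * y) := by
    intro i j x y
    have hx : x * (a : R) ^ j = (a : R) ^ j * x := ((Nat.cast_commute a x).pow_left j).eq.symm
    calc ((a : R) ^ i * x) * ((a : R) ^ j * y) = (a : R) ^ i * (x * (a : R) ^ j) * y := by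
          simp only [mul_assoc]
      _ = (a : R) ^ (i + j) * (x * y) := by
          rw [hx, pow_add]
          simp only [mul_assoc]
  have hf' : f0 + (a : R) * f1 + (a : R) ^ 2 * f2 + (a : R) ^ 3 * f3 + (a : R) ^ 4 * f4 =
      (a : R) ^ 0 * f0 + (a : R) ^ 1 * f1 + (a : R) ^ 2 * f2 + (a : R) ^ 3 * f3 + (a : R) ^ 4 * f4 := by
    simp
  have hg' : g0 + (a : R) * g1 + (a : R) ^ 2 * g2 + (a : R) ^ 3 * g3 + (a : R) ^ 4 * g4 =
      (a : R) ^ 0 * g0 + (a : R) ^ 1 * g1 + (a : R) ^ 2 * g2 + (a : R) ^ 3 * g3 + (a : R) ^ 4 * g4 := by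
    simp
  rw [hf', hg']
  simp only [add_mul _ _ (_ + _), mul_add ((a : R) ^ _ * _), hc, e14, e23, e32, e41, e24, e33, e42, e34, e43, e44, mul_zero, add_zero]
  simp only [Nat.zero_add, pow_zero, one_mul, mul_add]
  norm_num
  abel

theorem pow {f : ℕ → R} {f0 f1 : R} (hf : PolyAt F f f0 f1) :
    PolyAt F (fun a => f a ^ 2) (f0 ^ 2) (f0 * f1 + f1 * f0) := by
  have := hf.mul hf
  simpa only [sq] using this

/-- extraction of the linear coefficient -/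
theorem extract (h5 : (5 : R) = 0) {f : ℕ → R} {f0 f1 : R} (hf : PolyAt F f f0 f1) :
    f1 = - f 1 - 3 * f 2 - 2 * f 3 - 4 * f 4 := by
  obtain ⟨-, -, f2, -, f3, -, f4, -, hf⟩ := hf
  rw [hf 1, hf 2, hf 3, hf 4]
  have h : (5 : R) * (2 * f0 + 6 * f1 + 19 * f2 + 67 * f3 + 247 * f4) = 0 := by
    rw [h5, zero_mul]
  have h' : 10 • f0 + 30 • f1 + 95 • f2 + 335 • f3 + 1235 • f4 = 0 := by
    rw [← h]
    noncomm_ring
  push_cast
  have e : f1 - (- (f0 + (1 : R) * f1 + (1 : R) ^ 2 * f2 + (1 : R) ^ 3 * f3 + (1 : R) ^ 4 * f4)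
      - 3 * (f0 + (2 : R) * f1 + (2 : R) ^ 2 * f2 + (2 : R) ^ 3 * f3 + (2 : R) ^ 4 * f4)
      - 2 * (f0 + (3 : R) * f1 + (3 : R) ^ 2 * f2 + (3 : R) ^ 3 * f3 + (3 : R) ^ 4 * f4)
      - 4 * (f0 + (4 : R) * f1 + (4 : R) ^ 2 * f2 + (4 : R) ^ 3 * f3 + (4 : R) ^ 4 * f4)) =
      10 • f0 + 30 • f1 + 95 • f2 + 335 • f3 + 1235 • f4 := by
    noncomm_ring
  rw [h'] at e
  rw [← sub_eq_zero]
  simpa using e

end PolyAt
end Pool.Agent.MP5c99ad
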