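import Mathlib
import Pool.Agent.Lib.MP_5c99ad_al.NiceA

set_option autoImplicit false

/-!
Exactness for nice letters, part B: dual numbers and the mixed linear coefficient.
-/

namespace Pool.Agent.MP5c99ad

open TrivSqZeroExt

section
variable {R : Type*} [Ring R]

/-- `PolyAt` with the pair (value, derivative) packed into a dual number -/
def PolyD (F : Filt R) (f : ℕ → R) (z : DualNumber R) : Prop := PolyAt F f z.fst z.snd

theorem PolyD.mul {F : Filt R} {f g : ℕ → R} {z w : DualNumber R} (hf : PolyD F f z)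
    (hg : PolyD F g w) : PolyD F (fun a => f a * g a) (z * w) := by
  have := PolyAt.mul hf hg
  unfold PolyD
  simpa using this

theorem PolyD.sub {F : Filt R} {f g : ℕ → R} {z w : DualNumber R} (hf : PolyD F f z)
    (hg : PolyD F g w) : PolyD F (fun a => f a - g a) (z - w) := by
  have := PolyAt.sub hf hg
  unfold PolyD
  simpa using this

theorem PolyD.const {F : Filt R} {r : R} (hr : r ∈ F.P 0) :
    PolyD F (fun _ => r) (inl r) := by
  have := PolyAt.const hr
  unfold PolyD
  simpa using this

theorem PolyD.pow4 {F : Filt R} {f : ℕ → R} {z : DualNumber R} (hf : PolyD F f z) :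
    PolyD F (fun a => f a ^ 4) (z ^ 4) := by
  have := ((hf.mul hf).mul hf).mul hf
  have e : (fun a => f a ^ 4) = (fun a => f a * f a * f a * f a) := by
    funext a
    simp only [pow_succ, pow_zero, one_mul]
  rw [e]
  have e2 : z ^ 4 = z * z * z * z := by
    simp only [pow_succ, pow_zero, one_mul]
  rw [e2]
  exact this

/-- lifting a filtration to dual numbers -/
def Filt.lift (F : Filt R) : Filt (DualNumber R) where
  P k :=
    { carrier := {z | z.fst ∈ F.P k ∧ z.snd ∈ F.P k}
      zero_mem' := ⟨by simp, by simp⟩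
      add_mem' := by
        rintro a b ⟨h1, h2⟩ ⟨h3, h4⟩
        exact ⟨by simpa using add_mem h1 h3, by simpa using add_mem h2 h4⟩
      neg_mem' := by
        rintro a ⟨h1, h2⟩
        exact ⟨by simpa using neg_mem h1, by simpa using neg_mem h2⟩ }
  anti := by
    rintro k z ⟨h1, h2⟩
    exact ⟨F.anti k h1, F.anti k h2⟩
  mul := by
    rintro i j x y ⟨h1, h2⟩ ⟨h3, h4⟩
    refine ⟨?_, ?_⟩
    · rw [fst_mul]
      exact F.mul i j _ _ h1 h3
    · rw [snd_mul]
      exact add_mem (F.mul i j _ _ h1 h4) (F.mul i j _ _ h2 h3)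
  one := ⟨by simpa using F.one, by simp⟩
  five := by
    rintro z ⟨h1, h2⟩
    ext
    · exact F.five _ h1
    · exact F.five _ h2

theorem Filt.mem_lift {F : Filt R} {k : ℕ} {z : DualNumber R} (h1 : z.fst ∈ F.P k)
    (h2 : z.snd ∈ F.P k) : z ∈ F.lift.P k := ⟨h1, h2⟩

theorem five_lift (h5 : (5 : R) = 0) : (5 : DualNumber R) = 0 := by
  have h : ((5 : ℕ) : DualNumber R) = inl ((5 : ℕ) : R) := (inl_natCast 5).symm
  have h' : ((5 : ℕ) : R) = 0 := by
    rw [← h5]
    norm_num
  rw [h', inl_zero] at h
  rw [← h]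
  norm_num

theorem PolyAt.lift {F : Filt R} {f : ℕ → R} {f0 f1 : R} (hf : PolyAt F f f0 f1) :
    PolyAt F.lift (fun a => (inl (f a) : DualNumber R)) (inl f0) (inl f1) := by
  obtain ⟨h0, h1, f2, h2, f3, h3, f4, h4, hf⟩ := hf
  have z : ∀ k, (0 : R) ∈ F.P k := fun k => zero_mem _
  refine ⟨Filt.mem_lift (by simpa using h0) (by simp),
    Filt.mem_lift (by simpa using h1) (by simp),
    inl f2, Filt.mem_lift (by simpa using h2) (by simp),
    inl f3, Filt.mem_lift (by simpa using h3) (by simp),
    inl f4, Filt.mem_lift (by simpa using h4) (by simp), ?_⟩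
  intro a
  show (inl (f a) : DualNumber R) = _
  rw [hf a]
  have hp : ∀ k : ℕ, (inl ((a : R) ^ k) : DualNumber R) = (a : DualNumber R) ^ k := by
    intro k
    rw [← inl_natCast]
    exact (inl_pow (M := R) (a : R) k).symm
  simp only [inl_add, inl_mul, inl_natCast, hp]

/-- the dual number of an exponential -/
theorem PolyAt.toD {F : Filt R} {f : ℕ → R} {N : R} (hf : PolyAt F f 1 N) :
    PolyD F f (1 + inr N) := by
  unfold PolyD
  simpa using hf

theorem PolyD.snd_eq_zero (h5 : (5 : R) = 0) {F : Filt R} {f : ℕ → R} {z : DualNumber R}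
    (hf : PolyD F f z) {A : Type*} [AddCommGroup A] (φ : R →+ A) (h0 : ∀ a, φ (f a) = 0) :
    φ z.snd = 0 := by
  have := PolyAt.extract h5 hf
  rw [this]
  have e3 : φ (3 * f 2) = 0 := by
    have : (3 : R) * f 2 = 3 • f 2 := by rw [nsmul_eq_mul]; norm_num
    rw [this, map_nsmul, h0, smul_zero]
  have e2 : φ (2 * f 3) = 0 := by
    have : (2 : R) * f 3 = 2 • f 3 := by rw [nsmul_eq_mul]; norm_num
    rw [this, map_nsmul, h0, smul_zero]
  have e4 : φ (4 * f 4) = 0 := by
    have : (4 : R) * f 4 = 4 • f 4 := by rw [nsmul_eq_mul]; norm_num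
    rw [this, map_nsmul, h0, smul_zero]
  rw [map_sub, map_sub, map_sub, map_neg, h0, e3, e2, e4]
  simp

end

/-- second component as additive map -/
def sndA (R : Type*) [Ring R] : DualNumber R →+ R where
  toFun z := z.snd
  map_zero' := snd_zero
  map_add' := snd_add

theorem dn_fst_mul {R : Type*} [Ring R] (x y : DualNumber R) : (x * y).fst = x.fst * y.fst := fst_mul x y

theorem dn_snd_mul {R : Type*} [Ring R] (x y : DualNumber R) :
    (x * y).snd = x.fst * y.snd + x.snd * y.fst := by
  rw [snd_mul]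
  rfl

theorem four_coeff {R : Type*} [Ring R] (Y : DualNumber (DualNumber (DualNumber (DualNumber R))))
    (h : Y.fst.fst.fst.fst = 0) :
    (Y ^ 4).snd.snd.snd.snd = sym4 Y.fst.fst.fst.snd Y.fst.fst.snd.fst Y.fst.snd.fst.fst
      Y.snd.fst.fst.fst := by
  simp only [pow_succ, pow_zero, one_mul, dn_fst_mul, dn_snd_mul, fst_add, snd_add, h, mul_zero,
    zero_mul, add_zero, zero_add, sym4]
  noncomm_ring

theorem mixed_zero {R : Type*} [Ring R] (h5 : (5 : R) = 0) (F1 F2 F3 F4 : Filt R)
    (E1 E2 E3 E4 : ℕ → R) (N1 N2 N3 N4 : R)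
    (p1 : PolyAt F1 E1 1 N1) (p2 : PolyAt F2 E2 1 N2) (p3 : PolyAt F3 E3 1 N3)
    (p4 : PolyAt F4 E4 1 N4)
    (m12 : ∀ b, E2 b ∈ F1.P 0) (m13 : ∀ b, E3 b ∈ F1.P 0) (m14 : ∀ b, E4 b ∈ F1.P 0)
    (m23 : ∀ b, E3 b ∈ F2.P 0) (m24 : ∀ b, E4 b ∈ F2.P 0)
    (m34 : ∀ b, E4 b ∈ F3.P 0)
    (n12 : N1 ∈ F2.P 0) (n13 : N1 ∈ F3.P 0) (n14 : N1 ∈ F4.P 0)
    (n23 : N2 ∈ F3.P 0) (n24 : N2 ∈ F4.P 0) (n34 : N3 ∈ F4.P 0)
    (h : ∀ a b c d, (E1 a * (E2 b * (E3 c * E4 d)) - 1) ^ 4 = 0) :
    sym4 N1 N2 N3 N4 = 0 := by
  have mulm : ∀ (F : Filt R) (x y : R), x ∈ F.P 0 → y ∈ F.P 0 → x * y ∈ F.P 0 := by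
    intro F x y hx hy
    exact F.mul 0 0 x y hx hy
  -- stage 1
  have s1 : ∀ b c d, (((1 + inr N1) * inl (E2 b * (E3 c * E4 d)) - 1 : DualNumber R) ^ 4).snd = 0 := by
    intro b c d
    have hp : PolyD F1 (fun a => (E1 a * (E2 b * (E3 c * E4 d)) - 1) ^ 4)
        (((1 + inr N1) * inl (E2 b * (E3 c * E4 d)) - 1 : DualNumber R) ^ 4) := by
      apply PolyD.pow4
      apply PolyD.sub
      · apply PolyD.mul p1.toD
        exact PolyD.const (mulm _ _ _ (m12 b) (mulm _ _ _ (m13 c) (m14 d)))
      · exact PolyD.const F1.one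
    exact hp.snd_eq_zero h5 (AddMonoidHom.id R) (fun a => h a b c d)
  -- stage 2
  have s2 : ∀ c d, (((inl (1 + inr N1) * ((1 + inr (inl N2)) * inl (inl (E3 c * E4 d))) - 1 :
      DualNumber (DualNumber R)) ^ 4).snd).snd = 0 := by
    intro c d
    have hp : PolyD F2.lift (fun b => ((1 + inr N1) * (inl (E2 b) * inl (E3 c * E4 d)) - 1 : DualNumber R) ^ 4)
        ((inl (1 + inr N1) * ((1 + inr (inl N2)) * inl (inl (E3 c * E4 d))) - 1 :
      DualNumber (DualNumber R)) ^ 4) := by
      apply PolyD.pow4
      apply PolyD.sub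
      · apply PolyD.mul
        · exact PolyD.const (Filt.mem_lift (by simpa using F2.one) (by simpa using n12))
        · apply PolyD.mul
          · have := p2.lift.toD
            exact this
          · exact PolyD.const (Filt.mem_lift (by simpa using mulm _ _ _ (m23 c) (m24 d))
              (by simp))
      · exact PolyD.const F2.lift.one
    exact hp.snd_eq_zero (five_lift h5) (sndA R) (fun b => by
      have := s1 b c d
      rw [inl_mul] at this
      exact this)
  -- stage 3
  have s3 : ∀ d, ((((inl (inl (1 + inr N1)) * (inl (1 + inr (inl N2)) * ((1 + inr (inl (inl N3))) *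
      inl (inl (inl (E4 d))))) - 1 :
      DualNumber (DualNumber (DualNumber R))) ^ 4).snd).snd).snd = 0 := by
    intro d
    have hp : PolyD F3.lift.lift (fun c => (inl (1 + inr N1) * ((1 + inr (inl N2)) *
        (inl (inl (E3 c)) * inl (inl (E4 d)))) - 1 : DualNumber (DualNumber R)) ^ 4)
        ((inl (inl (1 + inr N1)) * (inl (1 + inr (inl N2)) * ((1 + inr (inl (inl N3))) *
      inl (inl (inl (E4 d))))) - 1 :
      DualNumber (DualNumber (DualNumber R))) ^ 4) := by
      apply PolyD.pow4
      apply PolyD.sub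
      · apply PolyD.mul
        · exact PolyD.const (Filt.mem_lift (Filt.mem_lift (by simpa using F3.one) (by simpa using n13))
            (Filt.mem_lift (by simp) (by simp)))
        · apply PolyD.mul
          · exact PolyD.const (Filt.mem_lift (Filt.mem_lift (by simpa using F3.one)
              (by simp))
              (Filt.mem_lift (by simpa using n23) (by simp)))
          · apply PolyD.mul
            · exact p3.lift.lift.toD
            · exact PolyD.const (Filt.mem_lift (Filt.mem_lift (by simpa using m34 d)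
                (by simp))
                (Filt.mem_lift (by simp) (by simp)))
      · exact PolyD.const F3.lift.lift.one
    exact hp.snd_eq_zero (five_lift (five_lift h5)) ((sndA R).comp (sndA (DualNumber R))) (fun c => by
      have := s2 c d
      rw [inl_mul, inl_mul] at this
      exact this)
  -- stage 4
  have s4 : (((((inl (inl (inl (1 + inr N1))) * (inl (inl (1 + inr (inl N2))) *
      (inl (1 + inr (inl (inl N3))) * (1 + inr (inl (inl (inl N4)))))) - 1 :
      DualNumber (DualNumber (DualNumber (DualNumber R)))) ^ 4).snd).snd).snd).snd = 0 := by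
    have z : ∀ k, (0 : R) ∈ F4.P k := fun k => zero_mem _
    have zz : ∀ k, (0 : DualNumber R) ∈ F4.lift.P k := fun k => zero_mem _
    have zzz : ∀ k, (0 : DualNumber (DualNumber R)) ∈ F4.lift.lift.P k := fun k => zero_mem _
    have hp : PolyD F4.lift.lift.lift (fun d => (inl (inl (1 + inr N1)) * (inl (1 + inr (inl N2)) *
        ((1 + inr (inl (inl N3))) * inl (inl (inl (E4 d))))) - 1 :
        DualNumber (DualNumber (DualNumber R))) ^ 4)
        ((inl (inl (inl (1 + inr N1))) * (inl (inl (1 + inr (inl N2))) *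
      (inl (1 + inr (inl (inl N3))) * (1 + inr (inl (inl (inl N4)))))) - 1 :
      DualNumber (DualNumber (DualNumber (DualNumber R)))) ^ 4) := by
      apply PolyD.pow4
      apply PolyD.sub
      · apply PolyD.mul
        · refine PolyD.const (Filt.mem_lift (Filt.mem_lift (Filt.mem_lift (by simpa using F4.one)
            (by simpa using n14)) (Filt.mem_lift (by simp) (by simp)))
            (zzz 0))
        · apply PolyD.mul
          · exact PolyD.const (Filt.mem_lift (Filt.mem_lift (Filt.mem_lift (by simpa using F4.one)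
              (by simp)) (Filt.mem_lift (by simpa using n24) (by simp)))
              (zzz 0))
          · apply PolyD.mul
            · exact PolyD.const (Filt.mem_lift (Filt.mem_lift (Filt.mem_lift (by simpa using F4.one)
                (by simp)) (Filt.mem_lift (by simp) (by simp)))
                (Filt.mem_lift (Filt.mem_lift (by simpa using n34) (by simp))
                  (by simp)))
            · exact p4.lift.lift.lift.toD
      · exact PolyD.const F4.lift.lift.lift.one
    exact hp.snd_eq_zero (five_lift (five_lift (five_lift h5)))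
      (((sndA R).comp (sndA (DualNumber R))).comp (sndA (DualNumber (DualNumber R)))) (fun d => s3 d)
  rw [four_coeff] at s4
  · convert s4 using 2 <;> simp
  · simp

end Pool.Agent.MP5c99ad
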