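import Mathlib
import Pool.Agent.Lib.MP_5c99ad_al.NiceB

set_option autoImplicit false

/-!
Exactness for nice letters, part C: nice elements of a group acting in characteristic 5.
`lg u` is the truncated logarithm, `Lam ρ S` the additive span of the logarithms of the elements
of `S`.  Main results: `Lam_sym4`, `Lam_bracket`, `Lam_conj`, `exp_lg`, `nice_of_mem`,
`nice_comm`.
-/

namespace Pool.Agent.MP5c99ad

section poly
open Polynomial

theorem exp_poly (a : ℕ) : ∃ q r : Polynomial ℤ, (1 + X) ^ a =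
    1 + (a : ℤ[X]) * (X - 3 * X ^ 2 + 2 * X ^ 3) + (a : ℤ[X]) ^ 2 * (3 * (X - 3 * X ^ 2 + 2 * X ^ 3) ^ 2)
    + (a : ℤ[X]) ^ 3 * (X - 3 * X ^ 2 + 2 * X ^ 3) ^ 3 + 5 * q + X ^ 4 * r := by
  induction a with
  | zero => exact ⟨0, 0, by simp⟩
  | succ a ih =>
    obtain ⟨q, r, ih⟩ := ih
    refine ⟨(1 + X) * q + ((3)*X^3 + (-1)*(a : ℤ[X])*X^2 + (6)*(a : ℤ[X])*X^3),
      (1 + X) * r + ((-30)+ (3)*X^1 + (51)*X^2 + (-66)*X^3 + (36)*X^4 + (-8)*X^5 + (-49)*(a : ℤ[X])^1 + (-27)*(a : ℤ[X])^1*X^1 + (165)*(a : ℤ[X])^1*X^2 + (-198)*(a : ℤ[X])^1*X^3 + (108)*(a : ℤ[X])^1*X^4 + (-24)*(a : ℤ[X])^1*X^5 + (9)*(a : ℤ[X])^2*X^0 + (-60)*(a : ℤ[X])^2*X^1 + (153)*(a : ℤ[X])^2*X^2 + (-186)*(a : ℤ[X])^2*X^3 + (108)*(a : ℤ[X])^2*X^4 + (-24)*(a : ℤ[X])^2*X^5 + (1)*(a : ℤ[X])^3*X^0 + (-9)*(a : ℤ[X])^3*X^1 + (33)*(a : ℤ[X])^3*X^2 + (-63)*(a : ℤ[X])^3*X^3 + (66)*(a : ℤ[X])^3*X^4 + (-36)*(a : ℤ[X])^3*X^5 + (8)*(a : ℤ[X])^3*X^6), ?_⟩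
    rw [pow_succ, ih]
    push_cast
    ring

end poly

section ring
variable {R : Type*} [Ring R]

/-- truncated logarithm in characteristic 5 -/
def lg (u : R) : R := (u - 1) - 3 * (u - 1) ^ 2 + 2 * (u - 1) ^ 3

theorem one_add_pow_eq (h5 : (5 : R) = 0) {u : R} (hu : (u - 1) ^ 4 = 0) (a : ℕ) :
    u ^ a = 1 + (a : R) * lg u + (a : R) ^ 2 * (3 * lg u ^ 2) + (a : R) ^ 3 * lg u ^ 3 := by
  obtain ⟨q, r, h⟩ := exp_poly a
  have := congrArg (Polynomial.aeval (u - 1)) h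
  simp only [map_add, map_mul, map_pow, map_sub, map_one, Polynomial.aeval_X, map_natCast,
    map_ofNat, hu, zero_mul, add_zero] at this
  rw [h5, zero_mul, add_zero] at this
  rw [add_sub_cancel] at this
  unfold lg
  exact this

theorem exp_lg (h5 : (5 : R) = 0) {u : R} (hu : (u - 1) ^ 4 = 0) :
    u = 1 + lg u + 3 * lg u ^ 2 + lg u ^ 3 := by
  have := one_add_pow_eq h5 hu 1
  simpa using this

theorem pow_five_eq_one (h5 : (5 : R) = 0) {u : R} (hu : (u - 1) ^ 4 = 0) : u ^ 5 = 1 := by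
  have := one_add_pow_eq h5 hu 5
  rw [this]
  have e : ((5 : ℕ) : R) = 0 := by rw [← h5]; norm_num
  rw [e]
  simp

end ring

section group
variable {G R : Type*} [Group G] [Ring R] (ρ : G →* R)

/-- additive span of the words `ρ h (ρ n - 1) ρ g₁ ⋯ (ρ n - 1) ρ g_k` -/
def W (n : G) (k : ℕ) : AddSubgroup R :=
  AddSubgroup.closure {w | ∃ (h : G) (l : List G), l.length = k ∧
    w = ρ h * (l.map (fun g => (ρ n - 1) * ρ g)).prod}

/-- `n` is nice: products of five differences of conjugates of `n` vanish -/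
def IsNice (n : G) : Prop := ∀ l : List G, l.length = 5 →
  (l.map (fun g => (ρ n - 1) * ρ g)).prod = 0

variable {ρ}

theorem W.word {n : G} (h : G) (l : List G) :
    ρ h * (l.map (fun g => (ρ n - 1) * ρ g)).prod ∈ W ρ n l.length :=
  AddSubgroup.subset_closure ⟨h, l, rfl, rfl⟩

theorem word_mul {n : G} (l : List G) : ∀ (h h' : G), ∃ (h'' : G) (l'' : List G),
    l''.length = l.length ∧ ρ h * (l.map (fun g => (ρ n - 1) * ρ g)).prod * ρ h' =
      ρ h'' * (l''.map (fun g => (ρ n - 1) * ρ g)).prod := by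
  induction l with
  | nil =>
    intro h h'
    exact ⟨h * h', [], rfl, by simp⟩
  | cons g l ih =>
    intro h h'
    obtain ⟨g', l', hl', he⟩ := ih g h'
    refine ⟨h, g' :: l', by simp [hl'], ?_⟩
    rw [List.map_cons, List.prod_cons, List.map_cons, List.prod_cons]
    calc ρ h * ((ρ n - 1) * ρ g * (l.map (fun g => (ρ n - 1) * ρ g)).prod) * ρ h'
        = ρ h * ((ρ n - 1) * (ρ g * (l.map (fun g => (ρ n - 1) * ρ g)).prod * ρ h')) := by
          simp only [mul_assoc]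
      _ = _ := by
          rw [he]
          simp only [mul_assoc]

theorem W.mul {n : G} {i j : ℕ} {x y : R} (hx : x ∈ W ρ n i) (hy : y ∈ W ρ n j) :
    x * y ∈ W ρ n (i + j) := by
  induction hx using AddSubgroup.closure_induction with
  | mem x hx =>
    obtain ⟨h, l, hl, rfl⟩ := hx
    induction hy using AddSubgroup.closure_induction with
    | mem y hy =>
      obtain ⟨h', l', hl', rfl⟩ := hy
      obtain ⟨h'', l'', hl'', he⟩ := word_mul (ρ := ρ) (n := n) l h h'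
      have : ρ h * (l.map (fun g => (ρ n - 1) * ρ g)).prod *
          (ρ h' * (l'.map (fun g => (ρ n - 1) * ρ g)).prod) =
          ρ h'' * ((l'' ++ l').map (fun g => (ρ n - 1) * ρ g)).prod := by
        rw [← mul_assoc, he, List.map_append, List.prod_append, mul_assoc]
      rw [this]
      exact AddSubgroup.subset_closure ⟨h'', l'' ++ l', by simp [hl, hl', hl''], rfl⟩
    | zero => rw [mul_zero]; exact zero_mem _
    | add a b _ _ ha hb => rw [mul_add]; exact add_mem ha hb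
    | neg a _ ha => rw [mul_neg]; exact neg_mem ha
  | zero => rw [zero_mul]; exact zero_mem _
  | add a b _ _ ha hb => rw [add_mul]; exact add_mem ha hb
  | neg a _ ha => rw [neg_mul]; exact neg_mem ha

theorem W.anti (n : G) (k : ℕ) : W ρ n (k + 1) ≤ W ρ n k := by
  rw [W, AddSubgroup.closure_le]
  rintro _ ⟨h, l, hl, rfl⟩
  match l, hl with
  | g :: l, hl =>
    have hl' : l.length = k := by simpa using hl
    rw [List.map_cons, List.prod_cons]
    have : ρ h * ((ρ n - 1) * ρ g * (l.map (fun g => (ρ n - 1) * ρ g)).prod) =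
        ρ (h * n * g) * (l.map (fun g => (ρ n - 1) * ρ g)).prod -
        ρ (h * g) * (l.map (fun g => (ρ n - 1) * ρ g)).prod := by
      rw [map_mul, map_mul, map_mul]
      noncomm_ring
    rw [this]
    exact sub_mem (AddSubgroup.subset_closure ⟨_, l, hl', rfl⟩)
      (AddSubgroup.subset_closure ⟨_, l, hl', rfl⟩)

theorem W.rho_mem (n g : G) : ρ g ∈ W ρ n 0 := by
  have := W.word (ρ := ρ) (n := n) g []
  simpa using this

theorem W.one_mem (n : G) : (1 : R) ∈ W ρ n 0 := by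
  have := W.rho_mem (ρ := ρ) n 1
  simpa using this

theorem W.sub_one_mem (n : G) : ρ n - 1 ∈ W ρ n 1 := by
  have := W.word (ρ := ρ) (n := n) 1 [1]
  simpa using this

theorem W.nat_mul {n : G} {k : ℕ} {x : R} (m : ℕ) (hx : x ∈ W ρ n k) : (m : R) * x ∈ W ρ n k := by
  rw [← nsmul_eq_mul]
  exact nsmul_mem hx m

theorem W.pow_mem {n : G} {k : ℕ} {x : R} (hx : x ∈ W ρ n k) (m : ℕ) : x ^ m ∈ W ρ n (m * k) := by
  induction m with
  | zero => simpa using W.one_mem n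
  | succ m ih =>
    rw [pow_succ, Nat.succ_mul]
    exact W.mul ih hx

theorem W.anti' {n : G} {i j : ℕ} (h : i ≤ j) : W ρ n j ≤ W ρ n i := by
  induction h with
  | refl => exact le_rfl
  | step _ ih => exact le_trans (W.anti n _) ih

theorem W.lg_mem_gen {m : G} {k : ℕ} {u : R} (h : u - 1 ∈ W ρ m k) : lg u ∈ W ρ m k := by
  unfold lg
  have h2 : (u - 1) ^ 2 ∈ W ρ m k := W.anti' (by omega) (W.pow_mem h 2)
  have h3 : (u - 1) ^ 3 ∈ W ρ m k := W.anti' (by omega) (W.pow_mem h 3)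
  have e2 : 3 * (u - 1) ^ 2 ∈ W ρ m k := by
    have := W.nat_mul 3 h2
    simpa using this
  have e3 : 2 * (u - 1) ^ 3 ∈ W ρ m k := by
    have := W.nat_mul 2 h3
    simpa using this
  exact add_mem (sub_mem h e2) e3

theorem W.lg_mem (n : G) : lg (ρ n) ∈ W ρ n 1 := W.lg_mem_gen (W.sub_one_mem n)

theorem W.lg_mem_zero (n m : G) : lg (ρ n) ∈ W ρ m 0 :=
  W.lg_mem_gen (sub_mem (W.rho_mem m n) (W.one_mem m))

/-- the filtration of a nice element -/
def niceFilt (ρ : G →* R) {n : G} (hn : IsNice ρ n) : Filt R where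
  P := W ρ n
  anti := W.anti n
  mul _ _ _ _ hx hy := W.mul hx hy
  one := W.one_mem n
  five := by
    intro x hx
    induction hx using AddSubgroup.closure_induction with
    | mem x hx =>
      obtain ⟨h, l, hl, rfl⟩ := hx
      rw [hn l hl, mul_zero]
    | zero => rfl
    | add a b _ _ ha hb => rw [ha, hb, add_zero]
    | neg a _ ha => rw [ha, neg_zero]

theorem nice_polyAt (h5 : (5 : R) = 0) (h4 : ∀ g, (ρ g - 1) ^ 4 = 0) {n : G} (hn : IsNice ρ n) :
    PolyAt (niceFilt ρ hn) (fun a => ρ n ^ a) 1 (lg (ρ n)) := by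
  have h1 : lg (ρ n) ∈ W ρ n 1 := W.lg_mem n
  refine ⟨W.one_mem n, h1, 3 * lg (ρ n) ^ 2, ?_, lg (ρ n) ^ 3, W.pow_mem h1 3, 0, zero_mem _, ?_⟩
  · show _ ∈ W ρ n 2
    have := W.nat_mul 3 (W.pow_mem h1 2)
    simpa using this
  · intro a
    show ρ n ^ a = _
    rw [one_add_pow_eq h5 (h4 n) a]
    simp

theorem nice_polyAt_inv (h5 : (5 : R) = 0) (h4 : ∀ g, (ρ g - 1) ^ 4 = 0) {n : G}
    (hn : IsNice ρ n) : PolyAt (niceFilt ρ hn) (fun a => ρ n⁻¹ ^ a) 1 (- lg (ρ n)) := by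
  have h1 : lg (ρ n) ∈ W ρ n 1 := W.lg_mem n
  refine ⟨W.one_mem n, neg_mem h1, 48 * lg (ρ n) ^ 2, ?_, 64 * lg (ρ n) ^ 3, ?_, 0, zero_mem _, ?_⟩
  · show _ ∈ W ρ n 2
    have := W.nat_mul 48 (W.pow_mem h1 2)
    simpa using this
  · show _ ∈ W ρ n 3
    have := W.nat_mul 64 (W.pow_mem h1 3)
    simpa using this
  · intro a
    show ρ n⁻¹ ^ a = _
    have hinv : ρ n⁻¹ = ρ n ^ 4 := by
      have e1 : ρ n * ρ n⁻¹ = 1 := by rw [← map_mul]; simp
      have e2 : ρ n ^ 4 * ρ n = 1 := by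
        rw [← pow_succ]
        exact pow_five_eq_one h5 (h4 n)
      calc ρ n⁻¹ = (ρ n ^ 4 * ρ n) * ρ n⁻¹ := by rw [e2, one_mul]
        _ = ρ n ^ 4 := by rw [mul_assoc, e1, mul_one]
    rw [hinv, ← pow_mul, one_add_pow_eq h5 (h4 n) (4 * a)]
    have e5 : (5 : R) * ((a : R) * lg (ρ n)) = 0 := by rw [h5, zero_mul]
    have e : ((4 * a : ℕ) : R) * lg (ρ n) = (a : R) * (- lg (ρ n)) + 5 * ((a : R) * lg (ρ n)) := by
      push_cast
      noncomm_ring
    rw [e, e5, add_zero]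
    have e2 : ((4 * a : ℕ) : R) ^ 2 * (3 * lg (ρ n) ^ 2) = (a : R) ^ 2 * (48 * lg (ρ n) ^ 2) := by
      have e3 : ((4 * a : ℕ) : R) ^ 2 * 3 = (a : R) ^ 2 * 48 := by
        have : (((4 * a) ^ 2 * 3 : ℕ) : R) = ((a ^ 2 * 48 : ℕ) : R) := by
          congr 1
          ring
        push_cast at this ⊢
        exact this
      rw [← mul_assoc, e3, mul_assoc]
    have e3 : ((4 * a : ℕ) : R) ^ 3 * lg (ρ n) ^ 3 = (a : R) ^ 3 * (64 * lg (ρ n) ^ 3) := by
      have e3 : ((4 * a : ℕ) : R) ^ 3 = (a : R) ^ 3 * 64 := by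
        have : (((4 * a) ^ 3 : ℕ) : R) = ((a ^ 3 * 64 : ℕ) : R) := by
          congr 1
          ring
        push_cast at this ⊢
        exact this
      rw [e3, mul_assoc]
    rw [e2, e3]
    simp

/-- **sym4 for logarithms of nice elements** -/
theorem nice_sym4 (h5 : (5 : R) = 0) (h4 : ∀ g, (ρ g - 1) ^ 4 = 0) {n1 n2 n3 n4 : G}
    (hn1 : IsNice ρ n1) (hn2 : IsNice ρ n2) (hn3 : IsNice ρ n3) (hn4 : IsNice ρ n4) :
    sym4 (lg (ρ n1)) (lg (ρ n2)) (lg (ρ n3)) (lg (ρ n4)) = 0 := by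
  have hm : ∀ (m n : G) (a : ℕ), ρ n ^ a ∈ W ρ m 0 := by
    intro m n a
    rw [← map_pow]
    exact W.rho_mem m _
  refine mixed_zero h5 (niceFilt ρ hn1) (niceFilt ρ hn2) (niceFilt ρ hn3) (niceFilt ρ hn4)
    _ _ _ _ _ _ _ _ (nice_polyAt h5 h4 hn1) (nice_polyAt h5 h4 hn2) (nice_polyAt h5 h4 hn3)
    (nice_polyAt h5 h4 hn4) (fun b => hm _ _ b) (fun b => hm _ _ b) (fun b => hm _ _ b)
    (fun b => hm _ _ b) (fun b => hm _ _ b) (fun b => hm _ _ b) (W.lg_mem_zero _ _)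
    (W.lg_mem_zero _ _) (W.lg_mem_zero _ _) (W.lg_mem_zero _ _) (W.lg_mem_zero _ _)
    (W.lg_mem_zero _ _) ?_
  intro a b c d
  have := h4 (n1 ^ a * (n2 ^ b * (n3 ^ c * n4 ^ d)))
  simpa using this

theorem conj_pow_ring (u v : R) (huv : v * u = 1) (x : R) (k : ℕ) :
    (u * x * v) ^ (k + 1) = u * x ^ (k + 1) * v := by
  induction k with
  | zero => simp
  | succ k ih =>
    rw [pow_succ, ih, pow_succ x (k + 1)]
    calc u * x ^ (k + 1) * v * (u * x * v) = u * x ^ (k + 1) * (v * u) * x * v := by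
          simp only [mul_assoc]
      _ = u * (x ^ (k + 1) * x) * v := by
          rw [huv]
          simp only [mul_assoc, mul_one]

theorem lg_conj (g n : G) : lg (ρ (g * n * g⁻¹)) = ρ g * lg (ρ n) * ρ g⁻¹ := by
  have e1 : ρ g⁻¹ * ρ g = 1 := by rw [← map_mul]; simp
  have e1' : ρ g * ρ g⁻¹ = 1 := by rw [← map_mul]; simp
  have e2 : ρ (g * n * g⁻¹) - 1 = ρ g * (ρ n - 1) * ρ g⁻¹ := by
    rw [mul_sub, sub_mul, mul_one, e1', map_mul, map_mul]
  unfold lg
  rw [e2, conj_pow_ring _ _ e1 _ 1, conj_pow_ring _ _ e1 _ 2]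
  noncomm_ring

/-- the bracket of two logarithms lies in the span of the logarithms of conjugates -/
theorem nice_bracket (h5 : (5 : R) = 0) (h4 : ∀ g, (ρ g - 1) ^ 4 = 0) {n1 n2 : G}
    (hn2 : IsNice ρ n2) (L : AddSubgroup R)
    (hL : ∀ g : G, lg (ρ (g * n1 * g⁻¹)) ∈ L) :
    lg (ρ n1) * lg (ρ n2) - lg (ρ n2) * lg (ρ n1) ∈ L := by
  have hp : PolyAt (niceFilt ρ hn2) (fun b => ρ n2⁻¹ ^ b * lg (ρ n1) * ρ n2 ^ b)
      (1 * lg (ρ n1) * 1)
      (1 * lg (ρ n1) * lg (ρ n2) + (1 * 0 + - lg (ρ n2) * lg (ρ n1)) * 1) := by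
    refine PolyAt.mul (PolyAt.mul (nice_polyAt_inv h5 h4 hn2) (PolyAt.const ?_)) (nice_polyAt h5 h4 hn2)
    exact W.lg_mem_zero _ _
  have h := hp.extract h5
  have e : lg (ρ n1) * lg (ρ n2) - lg (ρ n2) * lg (ρ n1) =
      1 * lg (ρ n1) * lg (ρ n2) + (1 * 0 + - lg (ρ n2) * lg (ρ n1)) * 1 := by
    noncomm_ring
  rw [e, h]
  have hb : ∀ b : ℕ, ρ n2⁻¹ ^ b * lg (ρ n1) * ρ n2 ^ b ∈ L := by
    intro b
    have := hL (n2⁻¹ ^ b)
    rw [lg_conj, ← inv_pow, inv_inv, map_pow, map_pow] at this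
    exact this
  have hk : ∀ (k : ℕ) (x : R), x ∈ L → (k : R) * x ∈ L := by
    intro k x hx
    rw [← nsmul_eq_mul]
    exact nsmul_mem hx k
  have h2 := hk 3 _ (hb 2)
  have h3 := hk 2 _ (hb 3)
  have h4 := hk 4 _ (hb 4)
  push_cast at h2 h3 h4
  exact sub_mem (sub_mem (sub_mem (neg_mem (hb 1)) h2) h3) h4

/-- the additive span of the logarithms -/
def Lam (ρ : G →* R) (S : Set G) : AddSubgroup R := AddSubgroup.closure {x | ∃ n ∈ S, x = lg (ρ n)}

theorem Lam.mem {S : Set G} {n : G} (hn : n ∈ S) : lg (ρ n) ∈ Lam ρ S :=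
  AddSubgroup.subset_closure ⟨n, hn, rfl⟩

theorem sym4_add1 (a a' b c d : R) : sym4 (a + a') b c d = sym4 a b c d + sym4 a' b c d := by
  unfold sym4; noncomm_ring
theorem sym4_add2 (a b b' c d : R) : sym4 a (b + b') c d = sym4 a b c d + sym4 a b' c d := by
  unfold sym4; noncomm_ring
theorem sym4_add3 (a b c c' d : R) : sym4 a b (c + c') d = sym4 a b c d + sym4 a b c' d := by
  unfold sym4; noncomm_ring
theorem sym4_add4 (a b c d d' : R) : sym4 a b c (d + d') = sym4 a b c d + sym4 a b c d' := by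
  unfold sym4; noncomm_ring
theorem sym4_neg1 (a b c d : R) : sym4 (-a) b c d = - sym4 a b c d := by
  unfold sym4; noncomm_ring
theorem sym4_neg2 (a b c d : R) : sym4 a (-b) c d = - sym4 a b c d := by
  unfold sym4; noncomm_ring
theorem sym4_neg3 (a b c d : R) : sym4 a b (-c) d = - sym4 a b c d := by
  unfold sym4; noncomm_ring
theorem sym4_neg4 (a b c d : R) : sym4 a b c (-d) = - sym4 a b c d := by
  unfold sym4; noncomm_ring
theorem sym4_zero1 (b c d : R) : sym4 0 b c d = 0 := by simp [sym4]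
theorem sym4_zero2 (a c d : R) : sym4 a 0 c d = 0 := by simp [sym4]
theorem sym4_zero3 (a b d : R) : sym4 a b 0 d = 0 := by simp [sym4]
theorem sym4_zero4 (a b c : R) : sym4 a b c 0 = 0 := by simp [sym4]

theorem Lam_sym4 (h5 : (5 : R) = 0) (h4 : ∀ g, (ρ g - 1) ^ 4 = 0) {S : Set G}
    (hS : ∀ n ∈ S, IsNice ρ n) {a b c d : R} (ha : a ∈ Lam ρ S) (hb : b ∈ Lam ρ S)
    (hc : c ∈ Lam ρ S) (hd : d ∈ Lam ρ S) : sym4 a b c d = 0 := by
  induction ha using AddSubgroup.closure_induction with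
  | mem a ha =>
    obtain ⟨n1, h1, rfl⟩ := ha
    induction hb using AddSubgroup.closure_induction with
    | mem b hb =>
      obtain ⟨n2, h2, rfl⟩ := hb
      induction hc using AddSubgroup.closure_induction with
      | mem c hc =>
        obtain ⟨n3, h3, rfl⟩ := hc
        induction hd using AddSubgroup.closure_induction with
        | mem d hd =>
          obtain ⟨n4, h4', rfl⟩ := hd
          exact nice_sym4 h5 h4 (hS _ h1) (hS _ h2) (hS _ h3) (hS _ h4')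
        | zero => exact sym4_zero4 _ _ _
        | add x y _ _ hx hy => rw [sym4_add4, hx, hy, add_zero]
        | neg x _ hx => rw [sym4_neg4, hx, neg_zero]
      | zero => exact sym4_zero3 _ _ _
      | add x y _ _ hx hy => rw [sym4_add3, hx, hy, add_zero]
      | neg x _ hx => rw [sym4_neg3, hx, neg_zero]
    | zero => exact sym4_zero2 _ _ _
    | add x y _ _ hx hy => rw [sym4_add2, hx, hy, add_zero]
    | neg x _ hx => rw [sym4_neg2, hx, neg_zero]
  | zero => exact sym4_zero1 _ _ _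
  | add x y _ _ hx hy => rw [sym4_add1, hx, hy, add_zero]
  | neg x _ hx => rw [sym4_neg1, hx, neg_zero]

theorem Lam_bracket (h5 : (5 : R) = 0) (h4 : ∀ g, (ρ g - 1) ^ 4 = 0) {S : Set G}
    (hS : ∀ n ∈ S, IsNice ρ n) (hconj : ∀ n ∈ S, ∀ g : G, g * n * g⁻¹ ∈ S) {a b : R}
    (ha : a ∈ Lam ρ S) (hb : b ∈ Lam ρ S) : a * b - b * a ∈ Lam ρ S := by
  induction ha using AddSubgroup.closure_induction with
  | mem a ha =>
    obtain ⟨n1, h1, rfl⟩ := ha
    induction hb using AddSubgroup.closure_induction with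
    | mem b hb =>
      obtain ⟨n2, h2, rfl⟩ := hb
      exact nice_bracket h5 h4 (hS _ h2) _ (fun g => Lam.mem (hconj _ h1 g))
    | zero => simp
    | add x y _ _ hx hy =>
      have : lg (ρ n1) * (x + y) - (x + y) * lg (ρ n1) =
        (lg (ρ n1) * x - x * lg (ρ n1)) + (lg (ρ n1) * y - y * lg (ρ n1)) := by noncomm_ring
      rw [this]
      exact add_mem hx hy
    | neg x _ hx =>
      have : lg (ρ n1) * (-x) - (-x) * lg (ρ n1) = - (lg (ρ n1) * x - x * lg (ρ n1)) := by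
        noncomm_ring
      rw [this]
      exact neg_mem hx
  | zero => simp
  | add x y _ _ hx hy =>
    have : (x + y) * b - b * (x + y) = (x * b - b * x) + (y * b - b * y) := by noncomm_ring
    rw [this]
    exact add_mem hx hy
  | neg x _ hx =>
    have : (-x) * b - b * (-x) = - (x * b - b * x) := by noncomm_ring
    rw [this]
    exact neg_mem hx

theorem Lam_conj {S : Set G} (hconj : ∀ n ∈ S, ∀ g : G, g * n * g⁻¹ ∈ S) {a : R}
    (ha : a ∈ Lam ρ S) (g : G) : ρ g * a * ρ g⁻¹ ∈ Lam ρ S := by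
  induction ha using AddSubgroup.closure_induction with
  | mem a ha =>
    obtain ⟨n, hn, rfl⟩ := ha
    rw [← lg_conj]
    exact Lam.mem (hconj n hn g)
  | zero => simp
  | add x y _ _ hx hy =>
    rw [mul_add, add_mul]
    exact add_mem hx hy
  | neg x _ hx =>
    rw [mul_neg, neg_mul]
    exact neg_mem hx

/-- if `ρ n - 1` is a combination of words with `j` differences of `y`, and words with `5 j`
differences vanish, then `n` is nice -/
theorem nice_of_mem {n y : G} {j : ℕ} (h : ρ n - 1 ∈ W ρ y j)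
    (hy : ∀ l : List G, l.length = 5 * j → (l.map (fun g => (ρ y - 1) * ρ g)).prod = 0) :
    IsNice ρ n := by
  intro l hl
  have key : ∀ l : List G, (l.map (fun g => (ρ n - 1) * ρ g)).prod ∈ W ρ y (l.length * j) := by
    intro l
    induction l with
    | nil => simpa using W.one_mem y
    | cons g l ih =>
      rw [List.map_cons, List.prod_cons, List.length_cons, Nat.succ_mul, add_comm]
      have h1 : (ρ n - 1) * ρ g ∈ W ρ y j := by
        have := W.mul h (W.rho_mem (ρ := ρ) y g)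
        simpa using this
      exact W.mul h1 ih
  have h1 := key l
  rw [hl] at h1
  have h0 : ∀ x ∈ W ρ y (5 * j), x = 0 := by
    intro x hx
    induction hx using AddSubgroup.closure_induction with
    | mem x hx =>
      obtain ⟨h, l, hl, rfl⟩ := hx
      rw [hy l hl, mul_zero]
    | zero => rfl
    | add a b _ _ ha hb => rw [ha, hb, add_zero]
    | neg a _ ha => rw [ha, neg_zero]
  exact h0 _ h1

theorem W.conj_sub_mem {n y : G} {j : ℕ} (h : ρ n - 1 ∈ W ρ y j) (g : G) :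
    ρ (g * n * g⁻¹) - 1 ∈ W ρ y j := by
  have e1' : ρ g * ρ g⁻¹ = 1 := by rw [← map_mul]; simp
  have e2 : ρ (g * n * g⁻¹) - 1 = ρ g * (ρ n - 1) * ρ g⁻¹ := by
    rw [mul_sub, sub_mul, mul_one, e1', map_mul, map_mul]
  rw [e2]
  have := W.mul (W.mul (W.rho_mem (ρ := ρ) y g) h) (W.rho_mem (ρ := ρ) y g⁻¹)
  simpa using this

theorem W.comm_sub_mem (y g : G) :
    ρ (y * (g * y * g⁻¹) * y⁻¹ * (g * y * g⁻¹)⁻¹) - 1 ∈ W ρ y 2 := by
  set z := g * y * g⁻¹ with hz
  have hy1 : ρ y - 1 ∈ W ρ y 1 := W.sub_one_mem y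
  have hz1 : ρ z - 1 ∈ W ρ y 1 := W.conj_sub_mem hy1 g
  have e : ρ (y * z * y⁻¹ * z⁻¹) - 1 =
      ((ρ y - 1) * (ρ z - 1) - (ρ z - 1) * (ρ y - 1)) * ρ (y⁻¹ * z⁻¹) := by
    have h1 : ρ y * ρ z * ρ (y⁻¹ * z⁻¹) = ρ (y * z * y⁻¹ * z⁻¹) := by
      rw [← map_mul, ← map_mul]
      congr 1
      group
    have h2 : ρ z * ρ y * ρ (y⁻¹ * z⁻¹) = 1 := by
      rw [← map_mul, ← map_mul, ← map_one ρ]
      congr 1
      group
    calc ρ (y * z * y⁻¹ * z⁻¹) - 1 = ρ y * ρ z * ρ (y⁻¹ * z⁻¹) - ρ z * ρ y * ρ (y⁻¹ * z⁻¹) := by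
          rw [h1, h2]
      _ = _ := by noncomm_ring
  rw [e]
  have := W.mul (sub_mem (W.mul hy1 hz1) (W.mul hz1 hy1)) (W.rho_mem (ρ := ρ) y (y⁻¹ * z⁻¹))
  simpa using this

/-- commutators of `y` with its conjugates, and their conjugates, are nice if words with ten
differences of `y` vanish -/
theorem nice_comm {y : G}
    (hy : ∀ l : List G, l.length = 10 → (l.map (fun g => (ρ y - 1) * ρ g)).prod = 0) (g h : G) :
    IsNice ρ (h * (y * (g * y * g⁻¹) * y⁻¹ * (g * y * g⁻¹)⁻¹) * h⁻¹) :=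
  nice_of_mem (j := 2) (W.conj_sub_mem (W.comm_sub_mem y g) h) hy

end group

end Pool.Agent.MP5c99ad
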