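import Mathlib
import Pool.Agent.Lib.MP_5c99ad_al.TorusB
import Pool.Agent.Lib.MP_5c99ad_al.ClassH
import Pool.Agent.Lib.MP_5c99ad_al.NiceC

set_option autoImplicit false

/-!
The normal closure of an element of a finite group of exponent 5 has class at most 8, and the normal
closure of `⁅y, g y g⁻¹⁆` has class at most 4.
-/

namespace Pool.Agent.MP5c99ad

open scoped commutatorElement

section rel

variable {K : Type} [Group K]

/-- the elements whose commutators with all conjugates of `y` lie in `L` -/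
def relC (y : K) (L : Subgroup K) [L.Normal] : Subgroup K where
  carrier := {z | ∀ h : K, ⁅h * y * h⁻¹, z⁆ ∈ L}
  one_mem' := by
    intro h
    rw [commutatorElement_one_right]
    exact one_mem _
  mul_mem' := by
    intro a b ha hb h
    rw [commutatorElement_mul_right_eq_mul_conj]
    have := Subgroup.Normal.conj_mem inferInstance _ (hb h) a
    rw [mul_assoc, mul_assoc, ← mul_assoc a]
    exact mul_mem (ha h) this
  inv_mem' := by
    intro a ha h
    rw [commutatorElement_inv_right]
    have h1 : ⁅a, h * y * h⁻¹⁆ ∈ L := by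
      rw [← commutatorElement_inv]
      exact inv_mem (ha h)
    have := Subgroup.Normal.conj_mem inferInstance _ h1 a⁻¹
    rwa [inv_inv] at this

theorem mem_relC {y : K} {L : Subgroup K} [L.Normal] {z : K} :
    z ∈ relC y L ↔ ∀ h : K, ⁅h * y * h⁻¹, z⁆ ∈ L := Iff.rfl

instance relC_normal (y : K) (L : Subgroup K) [L.Normal] : (relC y L).Normal where
  conj_mem := by
    intro z hz k h
    have h1 := hz (k⁻¹ * h)
    have h2 := Subgroup.Normal.conj_mem inferInstance _ h1 k
    rw [conjugate_commutatorElement] at h2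
    have e : k * (k⁻¹ * h * y * (k⁻¹ * h)⁻¹) * k⁻¹ = h * y * h⁻¹ := by group
    rw [e] at h2
    exact h2

theorem relC_comm_le (y : K) (L : Subgroup K) [L.Normal] :
    ⁅relC y L, Subgroup.normalClosure {y}⁆ ≤ L := by
  rw [Subgroup.commutator_comm, Subgroup.commutator_le]
  intro b hb z hz
  induction hb using Subgroup.closure_induction with
  | mem b hb =>
    rw [Group.mem_conjugatesOfSet_iff] at hb
    obtain ⟨a, ha, hab⟩ := hb
    rw [Set.mem_singleton_iff] at ha
    subst ha
    rw [isConj_iff] at hab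
    obtain ⟨c, rfl⟩ := hab
    exact hz c
  | one => rw [commutatorElement_one_left]; exact one_mem _
  | mul a b _ _ ha hb =>
    rw [commutatorElement_mul_left_eq_conj_mul]
    exact mul_mem (Subgroup.Normal.conj_mem inferInstance _ hb a) ha
  | inv a _ ha =>
    rw [commutatorElement_inv_left]
    have h1 : ⁅z, a⁆ ∈ L := by
      rw [← commutatorElement_inv]
      exact inv_mem ha
    have := Subgroup.Normal.conj_mem inferInstance _ h1 a⁻¹
    rwa [inv_inv] at this

/-- iterated commutators with conjugates of `y` -/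
def brL (y : K) (hs : List K) (x : K) : K := hs.foldr (fun h z => ⁅h * y * h⁻¹, z⁆) x

theorem brL_cons (y h : K) (hs : List K) (x : K) : brL y (h :: hs) x = ⁅h * y * h⁻¹, brL y hs x⁆ := rfl

theorem chain_le (y : K) (n : ℕ) : ∀ (j : ℕ) (L : Subgroup K) [L.Normal],
    (∀ x ∈ (Subgroup.normalClosure {y}).lowerCentralSeries n, ∀ hs : List K, hs.length = j →
      brL y hs x ∈ L) → (Subgroup.normalClosure {y}).lowerCentralSeries (n + j) ≤ L := by
  intro j
  induction j with
  | zero =>
    intro L _ h x hx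
    exact h x hx [] rfl
  | succ j ih =>
    intro L _ h
    have h1 := ih (relC y L) (by
      intro x hx hs hl h'
      exact h x hx (h' :: hs) (by simp [hl]))
    rw [← add_assoc, Subgroup.lowerCentralSeries_succ]
    exact (Subgroup.commutator_mono h1 le_rfl).trans (relC_comm_le y L)

theorem conj_mem_nc (y h : K) : h * y * h⁻¹ ∈ Subgroup.normalClosure {y} :=
  Subgroup.normalClosure_normal.conj_mem _ (Subgroup.subset_normalClosure (Set.mem_singleton y)) h

theorem brL_mem (y : K) (hs : List K) {n : ℕ} {x : K}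
    (hx : x ∈ (Subgroup.normalClosure {y}).lowerCentralSeries n) :
    brL y hs x ∈ (Subgroup.normalClosure {y}).lowerCentralSeries (n + hs.length) := by
  induction hs with
  | nil => exact hx
  | cons h hs ih =>
    rw [brL_cons, List.length_cons, ← add_assoc, Subgroup.lowerCentralSeries_succ, Subgroup.commutator_comm]
    exact Subgroup.commutator_mem_commutator (conj_mem_nc y h) ih

/-- iterated commutators are multiplicative up to deep terms -/
theorem brL_mul (y : K) (hs : List K) {n : ℕ} {x x' : K}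
    (hx : x ∈ (Subgroup.normalClosure {y}).lowerCentralSeries n)
    (hx' : x' ∈ (Subgroup.normalClosure {y}).lowerCentralSeries n) :
    ∃ e ∈ (Subgroup.normalClosure {y}).lowerCentralSeries (2 * n + 1 + hs.length),
      brL y hs (x * x') = brL y hs x * brL y hs x' * e := by
  induction hs with
  | nil => exact ⟨1, one_mem _, by simp [brL]⟩
  | cons h hs ih =>
    obtain ⟨e, he, heq⟩ := ih
    set Y := Subgroup.normalClosure {y} with hY
    set b := brL y hs x with hb
    set b' := brL y hs x' with hb'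
    set a := h * y * h⁻¹ with ha
    have haY : a ∈ Y := conj_mem_nc y h
    have hbm : b ∈ Y.lowerCentralSeries (n + hs.length) := brL_mem y hs hx
    have hbm' : b' ∈ Y.lowerCentralSeries (n + hs.length) := brL_mem y hs hx'
    have h1 : ⁅a, e⁆ ∈ Y.lowerCentralSeries (2 * n + 1 + (hs.length + 1)) := by
      rw [← add_assoc, Subgroup.lowerCentralSeries_succ, Subgroup.commutator_comm]
      exact Subgroup.commutator_mem_commutator haY he
    have h2 : ⁅a, b'⁆ ∈ Y.lowerCentralSeries (n + hs.length + 1) := by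
      rw [Subgroup.lowerCentralSeries_succ, Subgroup.commutator_comm]
      exact Subgroup.commutator_mem_commutator haY hbm'
    have h3 : ⁅b, ⁅a, b'⁆⁆ ∈ Y.lowerCentralSeries (2 * n + 1 + (hs.length + 1)) := by
      refine Y.lowerCentralSeries_antitone (?_ : 2 * n + 1 + (hs.length + 1) ≤
        (n + hs.length) + (n + hs.length + 1) + 1) ?_
      · omega
      · exact lcs_comm_le Y _ _ (Subgroup.commutator_mem_commutator hbm h2)
    refine ⟨(⁅a, b'⁆⁻¹ * ⁅b, ⁅a, b'⁆⁆ * ⁅a, b'⁆⁻¹⁻¹) * ((b * b') * ⁅a, e⁆ * (b * b')⁻¹), ?_, ?_⟩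
    · exact mul_mem (Subgroup.Normal.conj_mem inferInstance _ h3 _)
        (Subgroup.Normal.conj_mem inferInstance _ h1 _)
    · rw [brL_cons, brL_cons, brL_cons, heq]
      simp only [← hb, ← hb', ← ha]
      simp only [commutatorElement_def]
      group

end rel

section F1

variable {K R : Type} [Group K] [Finite K] [Ring R] {ρ : K →* R}

theorem W7_zero (T1 : T1Prop.{0} 7) (hK : ∀ g : K, g ^ 5 = 1) (h5 : (5 : R) = 0)
    (hρ : ∀ g, (ρ g - 1) ^ 4 = 0) (y : K) {x : R} (hx : x ∈ W ρ y 7) : x = 0 := by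
  induction hx using AddSubgroup.closure_induction with
  | mem x hx =>
    obtain ⟨h, l, hl, rfl⟩ := hx
    rw [class_bound_finite ρ y T1 hK h5 hρ l hl, mul_zero]
  | zero => rfl
  | add a b _ _ ha hb => rw [ha, hb, add_zero]
  | neg a _ ha => rw [ha, neg_zero]

theorem conj_prod_mem_W (y : K) (hs : List K) :
    (hs.map (fun h => ρ (h * y * h⁻¹) - 1)).prod ∈ W ρ y hs.length := by
  induction hs with
  | nil => simpa using W.one_mem y
  | cons h hs ih =>
    rw [List.map_cons, List.prod_cons, List.length_cons, add_comm]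
    exact W.mul (W.conj_sub_mem (W.sub_one_mem y) h) ih

end F1

section bound

variable {K : Type} [Group K] [Finite K]

/-- iterated commutators in the torus -/
theorem torus_brL (T1 : T1Prop.{0} 7) (hK : ∀ g : K, g ^ 5 = 1) (y u : K) (hs : List K)
    (hl : hs.length = 7) (hsq : ∀ i : Fin 4, brL y hs ((ut u i) ^ 2) = brL y hs (ut u i) ^ 2) :
    brL y hs u ∈ (Subgroup.normalClosure {u}).lowerCentralSeries 4 := by
  let t : Nt u := hs.foldr (fun h n => brN (dg K) (Nt u) (Nt_conj u) (h * y * h⁻¹) n) ⟨ut u, ut_mem u⟩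
  have ht : ∀ (hs : List K) (i : Fin 4),
      ((hs.foldr (fun h n => brN (dg K) (Nt u) (Nt_conj u) (h * y * h⁻¹) n) ⟨ut u, ut_mem u⟩ : Nt u) :
        Fin 4 → K) i = brL y hs (ut u i) := by
    intro hs i
    induction hs with
    | nil => rfl
    | cons h hs ih =>
      rw [List.foldr_cons, brN_coe, brL_cons, ← ih]
      rfl
  have hcl : ∀ hs : List K,
      cls (Nt u) (hs.foldr (fun h n => brN (dg K) (Nt u) (Nt_conj u) (h * y * h⁻¹) n) ⟨ut u, ut_mem u⟩) =
      (hs.map (fun h => rhoT u (h * y * h⁻¹) - 1)).prod (cls (Nt u) ⟨ut u, ut_mem u⟩) := by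
    intro hs
    induction hs with
    | nil => rfl
    | cons h hs ih =>
      rw [List.foldr_cons, cls_brN, ih, List.map_cons, List.prod_cons]
      rfl
  have h0 : cls (Nt u) t = 0 := by
    have h1 := W7_zero T1 hK (rhoT_five hK u) (rhoT_four hK u) y (x := (hs.map (fun h => rhoT u (h * y * h⁻¹) - 1)).prod)
      (by
        have := conj_prod_mem_W (ρ := rhoT u) y hs
        rwa [hl] at this)
    rw [show cls (Nt u) t = _ from hcl hs, h1]
    rfl
  have h1 : tau K (t : Fin 4 → K) = (t : Fin 4 → K) ^ 2 := by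
    funext i
    have e1 : tau K (t : Fin 4 → K) i = (t : Fin 4 → K) (tIdx i) := rfl
    have e2 : ((t : Fin 4 → K) ^ 2) i = ((t : Fin 4 → K) i) ^ 2 := rfl
    rw [e1, e2, ht hs, ht hs, ← hsq i]
    congr 1
    exact congrFun (tau_ut hK u) i
  have := torus_trick hK u t h0 h1 0
  rw [ht hs] at this
  have e : ut u 0 = u := by
    show u ^ (0 + 1) = u
    simp
  rwa [e] at this

theorem class_step (T1 : T1Prop.{0} 7) (hK : ∀ g : K, g ^ 5 = 1) (y : K) (c : ℕ) (hc : 9 ≤ c)
    (h : (Subgroup.normalClosure {y}).lowerCentralSeries c = ⊥) :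
    (Subgroup.normalClosure {y}).lowerCentralSeries (c - 1) = ⊥ := by
  set Y := Subgroup.normalClosure {y} with hY
  have key : ∀ x ∈ Y.lowerCentralSeries (c - 8), ∀ hs : List K, hs.length = 7 → brL y hs x ∈ (⊥ : Subgroup K) := by
    intro u hu hs hl
    have h1 := torus_brL T1 hK y u hs hl (by
      intro i
      have hui : ut u i ∈ Y.lowerCentralSeries (c - 8) := Subgroup.pow_mem _ hu _
      obtain ⟨e, he, heq⟩ := brL_mul y hs hui hui
      have he' : e ∈ Y.lowerCentralSeries c := Y.lowerCentralSeries_antitone (by omega) he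
      rw [h, Subgroup.mem_bot] at he'
      rw [pow_two, heq, he', mul_one, pow_two])
    have h2 : Subgroup.normalClosure {u} ≤ Y.lowerCentralSeries (c - 8) :=
      Subgroup.normalClosure_le_normal (by simpa using hu)
    have h3 := Subgroup.lowerCentralSeries_mono 4 h2 h1
    have h4 := lcs_lcs_le Y _ _ h3
    have h5 : brL y hs u ∈ Y.lowerCentralSeries c := Y.lowerCentralSeries_antitone (by omega) h4
    rwa [h] at h5
  have := chain_le y (c - 8) 7 ⊥ key
  rw [eq_bot_iff]
  have e : c - 8 + 7 = c - 1 := by omega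
  rwa [e] at this

theorem exists_lcs_bot (hK : ∀ g : K, g ^ 5 = 1) (S : Subgroup K) : ∃ n, S.lowerCentralSeries n = ⊥ := by
  haveI : Fact (Nat.Prime 5) := ⟨by norm_num⟩
  have hp : IsPGroup 5 K := fun g => ⟨1, by simpa using hK g⟩
  haveI := hp.isNilpotent
  obtain ⟨n, hn⟩ := (Subgroup.nilpotent_iff_lowerCentralSeries (G := K)).1 inferInstance
  exact ⟨n, eq_bot_iff.2 ((Subgroup.lowerCentralSeries_mono n le_top).trans hn.le)⟩

/-- **γ₉(⟨y⟩^K) = 1** -/
theorem class_nine (T1 : T1Prop.{0} 7) (hK : ∀ g : K, g ^ 5 = 1) (y : K) :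
    (Subgroup.normalClosure {y}).lowerCentralSeries 8 = ⊥ := by
  obtain ⟨n, hn⟩ := exists_lcs_bot hK (Subgroup.normalClosure {y})
  have key : ∀ n, (Subgroup.normalClosure {y}).lowerCentralSeries (8 + n) = ⊥ →
      (Subgroup.normalClosure {y}).lowerCentralSeries 8 = ⊥ := by
    intro n
    induction n with
    | zero => exact fun h => h
    | succ n ih =>
      intro h
      apply ih
      have := class_step T1 hK y (8 + (n + 1)) (by omega) h
      exact this
  apply key n
  rw [eq_bot_iff, ← hn]
  exact Subgroup.lowerCentralSeries_antitone _ (by omega)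

/-- **γ₅ of the normal closure of `⁅y, g y g⁻¹⁆` is trivial** -/
theorem class_comm (T1 : T1Prop.{0} 7) (hK : ∀ g : K, g ^ 5 = 1) (y g : K) :
    (Subgroup.normalClosure {⁅y, g * y * g⁻¹⁆}).lowerCentralSeries 4 = ⊥ := by
  set Y := Subgroup.normalClosure {y} with hY
  have h1 : ⁅y, g * y * g⁻¹⁆ ∈ Y.lowerCentralSeries 1 :=
    Subgroup.commutator_mem_commutator (Subgroup.subset_normalClosure (Set.mem_singleton y)) (conj_mem_nc y g)
  have h2 : Subgroup.normalClosure {⁅y, g * y * g⁻¹⁆} ≤ Y.lowerCentralSeries 1 :=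
    Subgroup.normalClosure_le_normal (by simpa using h1)
  rw [eq_bot_iff]
  refine (Subgroup.lowerCentralSeries_mono 4 h2).trans ((lcs_lcs_le Y 1 4).trans ?_)
  rw [← class_nine T1 hK y]
  exact Y.lowerCentralSeries_antitone (by norm_num)

end bound

end Pool.Agent.MP5c99ad
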