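import Mathlib
import Pool.Agent.Lib.MP_5c99ad_al.AdjointB
import Pool.Agent.Lib.MP_5c99ad_al.ClassBd

set_option autoImplicit false

/-!
The adjoint law, part C: reduction to the central case by nilpotency.
-/

namespace Pool.Agent.MP5c99ad

open scoped commutatorElement

section general

variable {K : Type} [Group K] {K2 : Subgroup K} {S2 : Set K} {v w : K}

theorem AdjData.quot (hD : AdjData K K2 S2 v w) (M : Subgroup K) [M.Normal] :
    AdjData (K ⧸ M) (K2.map (QuotientGroup.mk' M)) (QuotientGroup.mk' M '' S2)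
      (QuotientGroup.mk' M v) (QuotientGroup.mk' M w) where
  five := by
    intro g
    obtain ⟨g, rfl⟩ := QuotientGroup.mk'_surjective M g
    rw [← map_pow, hD.five, map_one]
  norm := hD.norm.map _ (QuotientGroup.mk'_surjective M)
  gen := by rw [← hD.gen, MonoidHom.map_closure]
  cls := by
    rintro _ ⟨u, hu, rfl⟩
    have h := Subgroup.map_normalClosure {u} (QuotientGroup.mk' M) (QuotientGroup.mk'_surjective M)
    rw [Set.image_singleton] at h
    rw [← h, ← Subgroup.map_lowerCentralSeries, hD.cls u hu, Subgroup.map_bot]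
  op := by
    intro R _ ρ h5 h4 k hk
    obtain ⟨k, hk, rfl⟩ := hk
    exact hD.op R (ρ.comp (QuotientGroup.mk' M)) h5 (fun g => h4 _) k hk
  vmem := Subgroup.mem_map_of_mem _ hD.vmem
  wmem := Subgroup.mem_map_of_mem _ hD.wmem
  comm := by rw [← map_mul, ← map_mul, hD.comm]

theorem adj_law [Finite K] (hD : AdjData K K2 S2 v w) {k : K} (hk : k ∈ K2) : ⁅k * v * k⁻¹, w⁆ = 1 := by
  haveI := hD.norm
  set S : Set K := {x | ∃ k ∈ K2, x = ⁅k * v * k⁻¹, w⁆} with hS
  set D : Subgroup K := Subgroup.normalClosure S with hDd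
  have hmem : ∀ k ∈ K2, ⁅k * v * k⁻¹, w⁆ ∈ D := fun k hk =>
    Subgroup.subset_normalClosure ⟨k, hk, rfl⟩
  have hmem2 : ∀ k ∈ K2, ∀ k' ∈ K2, ⁅k * v * k⁻¹, k' * w * k'⁻¹⁆ ∈ D := by
    intro k hk k' hk'
    have h1 := hmem (k'⁻¹ * k) (mul_mem (inv_mem hk') hk)
    have h2 := Subgroup.normalClosure_normal.conj_mem _ h1 k'
    rw [conjugate_commutatorElement] at h2
    have e : k' * (k'⁻¹ * k * v * (k'⁻¹ * k)⁻¹) * k'⁻¹ = k * v * k⁻¹ := by group
    rwa [e] at h2
  set M : Subgroup K := ⁅D, (⊤ : Subgroup K)⁆ with hM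
  haveI : M.Normal := inferInstance
  have hle : D ≤ M := by
    refine Subgroup.normalClosure_le_normal ?_
    rintro _ ⟨k, hk, rfl⟩
    have hDq := hD.quot M
    set π := QuotientGroup.mk' M with hπ
    have hcent : ∀ x ∈ D, π x ∈ Subgroup.center (K ⧸ M) := by
      intro x hx
      rw [Subgroup.mem_center_iff]
      intro g
      obtain ⟨g, rfl⟩ := QuotientGroup.mk'_surjective M g
      have : ⁅x, g⁆ ∈ M := Subgroup.commutator_mem_commutator hx (Subgroup.mem_top g)
      have h1 : π ⁅x, g⁆ = 1 := (QuotientGroup.eq_one_iff _).2 this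
      rw [map_commutatorElement, commutatorElement_eq_one_iff_mul_comm] at h1
      exact h1.symm
    have hc : ∀ a ∈ VV (K2.map π) (π v), ∀ b ∈ VV (K2.map π) (π w), ⁅a, b⁆ ∈ Subgroup.center (K ⧸ M) := by
      refine pair_mem ?_
      rintro _ ⟨_, ⟨k, hk, rfl⟩, rfl⟩ _ ⟨_, ⟨k', hk', rfl⟩, rfl⟩
      have := hcent _ (hmem2 k hk k' hk')
      rw [map_commutatorElement] at this
      simpa using this
    have h1 := adj_central hDq hc (Subgroup.mem_map_of_mem π hk)
    rw [← map_inv, ← map_mul, ← map_mul, ← map_commutatorElement] at h1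
    exact (QuotientGroup.eq_one_iff _).1 h1
  have hbot : ∀ n, D ≤ (⊤ : Subgroup K).lowerCentralSeries n := by
    intro n
    induction n with
    | zero => exact le_top
    | succ n ih =>
      refine hle.trans ?_
      rw [Subgroup.lowerCentralSeries_succ]
      exact Subgroup.commutator_mono ih le_rfl
  obtain ⟨n, hn⟩ := exists_lcs_bot hD.five (⊤ : Subgroup K)
  have h1 := hbot n (hmem k hk)
  rwa [hn, Subgroup.mem_bot] at h1

/-- **The adjoint law**: the subgroups generated by the `K2`-conjugates of `v` and of `w` commute. -/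
theorem adj_law_VV [Finite K] (hD : AdjData K K2 S2 v w) {a b : K} (ha : a ∈ VV K2 v) (hb : b ∈ VV K2 w) :
    a * b = b * a := by
  rw [← commutatorElement_eq_one_iff_mul_comm]
  have h := pair_mem (K := K) (S := {x | ∃ k ∈ K2, x = k * v * k⁻¹}) (T := {x | ∃ k ∈ K2, x = k * w * k⁻¹})
    (Z := (⊥ : Subgroup K)) ?_ a ha b hb
  · simpa using h
  · rintro _ ⟨k, hk, rfl⟩ _ ⟨k', hk', rfl⟩
    have h1 := adj_law hD (k := k'⁻¹ * k) (mul_mem (inv_mem hk') hk)
    have e : ⁅k * v * k⁻¹, k' * w * k'⁻¹⁆ = k' * ⁅k'⁻¹ * k * v * (k'⁻¹ * k)⁻¹, w⁆ * k'⁻¹ := by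
      rw [conjugate_commutatorElement]
      congr 1
      group
    rw [e, h1]
    simp

end general

end Pool.Agent.MP5c99ad
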