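import Pool.Agent.Lib.MP_5c99ad_al.BDat0
import Pool.Agent.Lib.MP_5c99ad_al.BDat1
import Pool.Agent.Lib.MP_5c99ad_al.BDat2
import Pool.Agent.Lib.MP_5c99ad_al.BDat3
import Pool.Agent.Lib.MP_5c99ad_al.BDat4

set_option autoImplicit false
set_option maxRecDepth 100000

/-!
Coverage of all patterns; the theorem `bCert2`.
-/

namespace Pool.Agent.MP5c99ad.BC

theorem wok_of_check (items : List Item) (w0 : List Sy) (h : check items w0 = true) :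
    PW.WOK false w0 := by
  intro U _ g h5 hg S hS hsym
  refine AddSubgroup.closure_mono ?_ (check_sound h5 hg hS hsym items w0 h)
  rintro u ⟨w, hw, rfl⟩
  exact ⟨w, ⟨⟨hw.hi, hw.hj, hw.hk, hw.hh⟩, Or.inl hw.hm⟩, rfl⟩

/-- the trivial window for `q` -/
theorem ok_Iq3 : PW.WOK false (cw [(.q, 3)] 0) :=
  wok_of_check [.t3 1 [] (.q) [] .a .b .c []] (cw [(.q, 3)] 0) (by decide +kernel)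

/-- the trivial window for `q` -/
def Iq3 : PWin := ⟨[(.q, 3)], ok_Iq3, List.cons_ne_nil _ _, by decide⟩

/-- the interior windows -/
def WI : List PWin := [Id3, Ir3, Id0d2, Id0r0, Id1r2, Id2d2, Id2r2, Ir0d2, Ir0r2, Ir2r2, Id0d1r1, Id1d1r1, Id1d2r1, Id1r1d2, Id1r1r1, Ir0d1d2, Ir0d1r1, Ir0r0d1, Ir0r0r1, Ir0r1d2, Ir0r1r2, Ir1d1d2, Ir1d2d1, Ir1d2r1, Ir1r1d2, Ir1r1r2, Ir1r2d1, Ir1r2r1, Id0d1r0r0, Id1r0r1d0, Id1r0r1r0, Id2r0r1r1, Ir0d1r0r0, Ir0r0d0d0, Ir0r0r0d0, Ir0r0r0r0, Ir0r1r1d1, Ir0r1r1r1, Ir1d2r0r1, Ir1r0r1d1, Ir1r0r1r1, Ir1r1r1r1, Ir1r2r0r1, Ir2d2r1r0, Ir2r1r1r1, Id1r1r0r1r0, Id2r0r1r0r0, Id2r1d1r0r0, Id2r1r0r1r0, Ir0r1d1r1r0, Ir0r1r0r1d0, Ir0r1r0r1r0, Ir1r1d1r1r0, Ir2r0r1r1r0, Ir2r1r0r1r0, Ir1r1r0r1r0d0, Iq3]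

/-- the right-end windows -/
def WE : List PWinR := [Rd0d1r0, Rd1r1r0, Rr0d1r0, Rd1r1d1r0, Rr0d1d1r0, Rr1r0r1d0, Rd1d1r0r0r0, Rd1r1d1r0r0, Rd1r1r0r0d0, Rd1r1r0r0r0, Rr0d1d1r0r0, Rr0r1d1r0r0, Rr1d1d1r0r0, Rr1d1r1r0r0, Rr1d2r0r0r0, Rr1r0d1r0d0, Rr1r1d1r0r0, Rr2r0d1r0d0, Rd1r1d1r0r0r0, Rr0r1d1r0r0d0, Rr0r1d1r0r0r0, Rr1r1d1r0r0d0, Rr1r1d1r0r0r0, Rr1r1r0r1d0d0, Rr1r1r1r0r0d0]

/-- the patterns -/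
def PI : List (List (Mk × Nat)) := [
  [(.d, 3)],
  [(.r, 3)],
  [(.d, 0), (.d, 2)],
  [(.d, 0), (.r, 0)],
  [(.d, 1), (.r, 2)],
  [(.d, 2), (.d, 2)],
  [(.d, 2), (.r, 2)],
  [(.r, 0), (.d, 2)],
  [(.r, 0), (.r, 2)],
  [(.r, 2), (.r, 2)],
  [(.d, 0), (.d, 1), (.r, 1)],
  [(.d, 1), (.d, 1), (.r, 1)],
  [(.d, 1), (.d, 2), (.r, 1)],
  [(.d, 1), (.r, 1), (.d, 2)],
  [(.d, 1), (.r, 1), (.r, 1)],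
  [(.r, 0), (.d, 1), (.d, 2)],
  [(.r, 0), (.d, 1), (.r, 1)],
  [(.r, 0), (.r, 0), (.d, 1)],
  [(.r, 0), (.r, 0), (.r, 1)],
  [(.r, 0), (.r, 1), (.d, 2)],
  [(.r, 0), (.r, 1), (.r, 2)],
  [(.r, 1), (.d, 1), (.d, 2)],
  [(.r, 1), (.d, 2), (.d, 1)],
  [(.r, 1), (.d, 2), (.r, 1)],
  [(.r, 1), (.r, 1), (.d, 2)],
  [(.r, 1), (.r, 1), (.r, 2)],
  [(.r, 1), (.r, 2), (.d, 1)],
  [(.r, 1), (.r, 2), (.r, 1)],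
  [(.d, 0), (.d, 1), (.r, 0), (.r, 0)],
  [(.d, 1), (.r, 0), (.r, 1), (.d, 0)],
  [(.d, 1), (.r, 0), (.r, 1), (.r, 0)],
  [(.d, 2), (.r, 0), (.r, 1), (.r, 1)],
  [(.r, 0), (.d, 1), (.r, 0), (.r, 0)],
  [(.r, 0), (.r, 0), (.d, 0), (.d, 0)],
  [(.r, 0), (.r, 0), (.r, 0), (.d, 0)],
  [(.r, 0), (.r, 0), (.r, 0), (.r, 0)],
  [(.r, 0), (.r, 1), (.r, 1), (.d, 1)],
  [(.r, 0), (.r, 1), (.r, 1), (.r, 1)],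
  [(.r, 1), (.d, 2), (.r, 0), (.r, 1)],
  [(.r, 1), (.r, 0), (.r, 1), (.d, 1)],
  [(.r, 1), (.r, 0), (.r, 1), (.r, 1)],
  [(.r, 1), (.r, 1), (.r, 1), (.r, 1)],
  [(.r, 1), (.r, 2), (.r, 0), (.r, 1)],
  [(.r, 2), (.d, 2), (.r, 1), (.r, 0)],
  [(.r, 2), (.r, 1), (.r, 1), (.r, 1)],
  [(.d, 1), (.r, 1), (.r, 0), (.r, 1), (.r, 0)],
  [(.d, 2), (.r, 0), (.r, 1), (.r, 0), (.r, 0)],
  [(.d, 2), (.r, 1), (.d, 1), (.r, 0), (.r, 0)],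
  [(.d, 2), (.r, 1), (.r, 0), (.r, 1), (.r, 0)],
  [(.r, 0), (.r, 1), (.d, 1), (.r, 1), (.r, 0)],
  [(.r, 0), (.r, 1), (.r, 0), (.r, 1), (.d, 0)],
  [(.r, 0), (.r, 1), (.r, 0), (.r, 1), (.r, 0)],
  [(.r, 1), (.r, 1), (.d, 1), (.r, 1), (.r, 0)],
  [(.r, 2), (.r, 0), (.r, 1), (.r, 1), (.r, 0)],
  [(.r, 2), (.r, 1), (.r, 0), (.r, 1), (.r, 0)],
  [(.r, 1), (.r, 1), (.r, 0), (.r, 1), (.r, 0), (.d, 0)],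
  [(.q, 3)]]

/-- the patterns -/
def PE : List (List (Mk × Nat)) := [
  [(.d, 0), (.d, 1), (.r, 0)],
  [(.d, 1), (.r, 1), (.r, 0)],
  [(.r, 0), (.d, 1), (.r, 0)],
  [(.d, 1), (.r, 1), (.d, 1), (.r, 0)],
  [(.r, 0), (.d, 1), (.d, 1), (.r, 0)],
  [(.r, 1), (.r, 0), (.r, 1), (.d, 0)],
  [(.d, 1), (.d, 1), (.r, 0), (.r, 0), (.r, 0)],
  [(.d, 1), (.r, 1), (.d, 1), (.r, 0), (.r, 0)],
  [(.d, 1), (.r, 1), (.r, 0), (.r, 0), (.d, 0)],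
  [(.d, 1), (.r, 1), (.r, 0), (.r, 0), (.r, 0)],
  [(.r, 0), (.d, 1), (.d, 1), (.r, 0), (.r, 0)],
  [(.r, 0), (.r, 1), (.d, 1), (.r, 0), (.r, 0)],
  [(.r, 1), (.d, 1), (.d, 1), (.r, 0), (.r, 0)],
  [(.r, 1), (.d, 1), (.r, 1), (.r, 0), (.r, 0)],
  [(.r, 1), (.d, 2), (.r, 0), (.r, 0), (.r, 0)],
  [(.r, 1), (.r, 0), (.d, 1), (.r, 0), (.d, 0)],
  [(.r, 1), (.r, 1), (.d, 1), (.r, 0), (.r, 0)],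
  [(.r, 2), (.r, 0), (.d, 1), (.r, 0), (.d, 0)],
  [(.d, 1), (.r, 1), (.d, 1), (.r, 0), (.r, 0), (.r, 0)],
  [(.r, 0), (.r, 1), (.d, 1), (.r, 0), (.r, 0), (.d, 0)],
  [(.r, 0), (.r, 1), (.d, 1), (.r, 0), (.r, 0), (.r, 0)],
  [(.r, 1), (.r, 1), (.d, 1), (.r, 0), (.r, 0), (.d, 0)],
  [(.r, 1), (.r, 1), (.d, 1), (.r, 0), (.r, 0), (.r, 0)],
  [(.r, 1), (.r, 1), (.r, 0), (.r, 1), (.d, 0), (.d, 0)],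
  [(.r, 1), (.r, 1), (.r, 1), (.r, 0), (.r, 0), (.d, 0)]]

theorem covered : covT (hit PI PE) 6 2 5 0 = true := by decide +kernel

end Pool.Agent.MP5c99ad.BC

namespace Pool.Agent.MP5c99ad

/-- content `d^5 r^2` -/
theorem bCert2 : BCert2 := by
  refine BC.t1gen_of3 6 2 5 rfl BC.WI BC.WE BC.covered ?_ EB2 trivial
  intro m
  cases m with
  | d => exact ⟨BC.Id3, by simp [BC.WI], rfl⟩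
  | r => exact ⟨BC.Ir3, by simp [BC.WI], rfl⟩
  | q => exact ⟨BC.Iq3, by simp [BC.WI], rfl⟩

end Pool.Agent.MP5c99ad
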