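import Mathlib
import Pool.Agent.Lib.MP_5c99ad_al.ClassH

set_option autoImplicit false

/-!
Soft vanishing theorem with several marked letters, part A: definitions; `sym4` in filtered rings
(first index in an arbitrary canonically ordered monoid).
-/

namespace Pool.Agent.MP5c99ad

universe u

section Defs

/-- Lie monomials in the elements of `S` -/
inductive LieMonS {U : Type*} [Ring U] (S : Set U) : U → Prop
  | letter (y : U) : y ∈ S → LieMonS S y
  | br (a b : U) : LieMonS S a → LieMonS S b → LieMonS S (a * b - b * a)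

theorem LieMonS.lift {U V : Type*} [Ring U] [Ring V] (f : U →+* V) {S : Set U} {v : V}
    (h : LieMonS (f '' S) v) : ∃ w, LieMonS S w ∧ f w = v := by
  induction h with
  | letter y hy =>
    obtain ⟨z, hz, rfl⟩ := hy
    exact ⟨z, LieMonS.letter z hz, rfl⟩
  | br a b _ _ iha ihb =>
    obtain ⟨a', ha', rfl⟩ := iha
    obtain ⟨b', hb', rfl⟩ := ihb
    exact ⟨a' * b' - b' * a', LieMonS.br _ _ ha' hb', by simp⟩

/-- words with exact marked content -/
inductive MWord {U : Type*} [Ring U] {ι : Type} [DecidableEq ι] (X : ι → U) (Y : Set U) : (ι → ℕ) → U → Prop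
  | base (s : U) : s ∈ Submonoid.closure Y → MWord X Y 0 s
  | step (k : ι → ℕ) (i : ι) (w s : U) : MWord X Y k w → s ∈ Submonoid.closure Y →
      MWord X Y (k + Pi.single i 1) (w * X i * s)

/-- The ring theorem needed: `κ` = content in the marked letters, `E` = commutations of marked letters. -/
def T1Gen {ι : Type} [DecidableEq ι] (E : ι → ι → Prop) (κ : ι → ℕ) : Prop :=
  ∀ (U : Type u) [Ring U], (5 : U) = 0 → ∀ (X : ι → U) (Y : Set U),
    (∀ y ∈ Y, ∀ z ∈ Y, y * z = z * y) →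
    (∀ i j, E i j → X i * X j = X j * X i) →
    (∀ u1 u2 u3 u4, LieMonS (Set.range X ∪ Y) u1 → LieMonS (Set.range X ∪ Y) u2 →
      LieMonS (Set.range X ∪ Y) u3 → LieMonS (Set.range X ∪ Y) u4 → sym4 u1 u2 u3 u4 = 0) →
    ∀ (A : Type u) [AddCommGroup A] (φ : U →+ A),
      (∀ y ∈ Y, ∀ v, φ (y * v) = 0) → (∀ y ∈ Y, ∀ v, φ (v * y) = 0) →
      ∀ w, MWord X Y κ w → φ w = 0

theorem closure_map' {U V : Type*} [Ring U] [Ring V] (f : U →+* V) {Y : Set U} {s : U}
    (hs : s ∈ Submonoid.closure Y) : f s ∈ Submonoid.closure (f '' Y) := by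
  have := Submonoid.mem_map_of_mem f hs
  rw [MonoidHom.map_mclosure] at this
  exact this

theorem MWord.map {U V : Type*} [Ring U] [Ring V] (f : U →+* V) {ι : Type} [DecidableEq ι] {X : ι → U}
    {Y : Set U} {k : ι → ℕ} {w : U} (h : MWord X Y k w) : MWord (fun i => f (X i)) (f '' Y) k (f w) := by
  induction h with
  | base s h => exact MWord.base _ (closure_map' f h)
  | step k i w s _ h ih =>
    rw [map_mul, map_mul]
    exact MWord.step k i _ _ ih (closure_map' f h)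

/-- largest two-sided ideal inside the kernel of an additive functional; the quotient ring -/
theorem functional_quotient {U : Type u} [Ring U] {A : Type u} [AddCommGroup A] (φ : U →+ A) :
    ∃ (V : Type u) (_ : Ring V) (q : U →+* V) (ψ : V →+ A), Function.Surjective q ∧
      (∀ a, ψ (q a) = φ a) ∧ (∀ k, (∀ P S, φ (P * k * S) = 0) → q k = 0) := by
  let K : TwoSidedIdeal U := TwoSidedIdeal.mk' {k | ∀ P S, φ (P * k * S) = 0}
    (by intro P S; simp)
    (by
      intro x y hx hy P S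
      rw [mul_add, add_mul, map_add, hx P S, hy P S, add_zero])
    (by
      intro x hx P S
      rw [mul_neg, neg_mul, map_neg, hx P S, neg_zero])
    (by
      intro x y hy P S
      have := hy (P * x) S
      rwa [mul_assoc P x y] at this)
    (by
      intro x y hx P S
      have := hx P (y * S)
      rwa [← mul_assoc, mul_assoc P x y] at this)
  have hK : ∀ k, k ∈ K ↔ ∀ P S, φ (P * k * S) = 0 := by
    intro k
    exact TwoSidedIdeal.mem_mk' _ _ _ _ _ _ _
  let c := K.ringCon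
  have hφK : ∀ k, k ∈ K → φ k = 0 := by
    intro k hk
    have := (hK k).1 hk 1 1
    simpa using this
  have hcφ : ∀ a b, c a b → φ a = φ b := by
    intro a b hab
    have h1 : a - b ∈ K := by
      have : c (a - b) (b - b) := c.sub hab (c.refl b)
      rw [sub_self] at this
      exact this
    have := hφK _ h1
    rw [map_sub, sub_eq_zero] at this
    exact this
  let φ' : c.Quotient →+ A :=
    { toFun := fun z => Quotient.liftOn z (fun a => φ a) (fun a b hab => hcφ a b hab)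
      map_zero' := by
        show φ 0 = 0
        exact map_zero φ
      map_add' := by
        intro x y
        obtain ⟨x, rfl⟩ := c.mk'_surjective x
        obtain ⟨y, rfl⟩ := c.mk'_surjective y
        show φ (x + y) = φ x + φ y
        exact map_add φ x y }
  refine ⟨c.Quotient, inferInstance, c.mk', φ', c.mk'_surjective, fun a => rfl, ?_⟩
  intro k hk
  have : c k 0 := (hK k).2 hk
  exact (RingCon.eq c).2 this

theorem T1Gen_functional {ι : Type} [DecidableEq ι] {E : ι → ι → Prop} {κ : ι → ℕ} (T1 : T1Gen.{u} E κ)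
    {U : Type u} [Ring U] {A : Type u} [AddCommGroup A]
    (h5 : ∀ a : A, (5 : ℤ) • a = 0) (X : ι → U) (Y : Set U) (φ : U →+ A)
    (hcomm : ∀ y ∈ Y, ∀ z ∈ Y, ∀ P S, φ (P * (y * z - z * y) * S) = 0)
    (hE : ∀ i j, E i j → ∀ P S, φ (P * (X i * X j - X j * X i) * S) = 0)
    (hsym : ∀ u1 u2 u3 u4, LieMonS (Set.range X ∪ Y) u1 → LieMonS (Set.range X ∪ Y) u2 →
      LieMonS (Set.range X ∪ Y) u3 → LieMonS (Set.range X ∪ Y) u4 →
      ∀ P S, φ (P * sym4 u1 u2 u3 u4 * S) = 0)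
    (hl : ∀ y ∈ Y, ∀ v, φ (y * v) = 0) (hr : ∀ y ∈ Y, ∀ v, φ (v * y) = 0)
    (w : U) (hw : MWord X Y κ w) : φ w = 0 := by
  obtain ⟨V, _, q, ψ, hsurj, hψ, hker⟩ := functional_quotient φ
  have h5q : (5 : V) = 0 := by
    have := hker (5 : U) (by
      intro P S
      have : P * 5 * S = (5 : ℤ) • (P * S) := by
        have h5c : P * (5 : U) = (5 : U) * P := (Nat.cast_commute 5 P).symm.eq
        rw [h5c, mul_assoc, zsmul_eq_mul]
        norm_num
      rw [this, map_zsmul, h5])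
    rw [← this]
    exact (map_ofNat q 5).symm
  have himg : Set.range (fun i => q (X i)) ∪ q '' Y = q '' (Set.range X ∪ Y) := by
    rw [Set.image_union, ← Set.range_comp]
    rfl
  have := T1 V h5q (fun i => q (X i)) (q '' Y) (by
      rintro _ ⟨y, hy, rfl⟩ _ ⟨z, hz, rfl⟩
      rw [← sub_eq_zero, ← map_mul, ← map_mul, ← map_sub]
      exact hker _ (hcomm y hy z hz)) (by
      intro i j hij
      show q (X i) * q (X j) = q (X j) * q (X i)
      rw [← sub_eq_zero, ← map_mul, ← map_mul, ← map_sub]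
      exact hker _ (hE i j hij)) (by
      rw [himg]
      intro u1 u2 u3 u4 h1 h2 h3 h4
      obtain ⟨v1, hv1, rfl⟩ := h1.lift q
      obtain ⟨v2, hv2, rfl⟩ := h2.lift q
      obtain ⟨v3, hv3, rfl⟩ := h3.lift q
      obtain ⟨v4, hv4, rfl⟩ := h4.lift q
      rw [← sym4_map]
      exact hker _ (hsym _ _ _ _ hv1 hv2 hv3 hv4))
    A ψ (by
      rintro _ ⟨y, hy, rfl⟩ v
      obtain ⟨v, rfl⟩ := hsurj v
      rw [← map_mul, hψ]
      exact hl y hy v) (by
      rintro _ ⟨y, hy, rfl⟩ v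
      obtain ⟨v, rfl⟩ := hsurj v
      rw [← map_mul, hψ]
      exact hr y hy v) (q w) (hw.map q)
  rwa [hψ] at this

end Defs

section Gen

variable {B : Type*} [AddCommMonoid B] [PartialOrder B] [IsOrderedAddMonoid B] [CanonicallyOrderedAdd B]

/-- weight of a subset, values in a monoid -/
def wg (w : Fin 4 → B) (b : Q4) : B :=
  (bif b.1 then w 0 else 0) + (bif b.2.1 then w 1 else 0) + (bif b.2.2.1 then w 2 else 0) +
    (bif b.2.2.2 then w 3 else 0)

omit [PartialOrder B] [IsOrderedAddMonoid B] [CanonicallyOrderedAdd B] in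
theorem bif_sup_inf' (x y : Bool) (n : B) :
    (bif x ⊔ y then n else 0) + (bif x ⊓ y then n else 0) =
      (bif x then n else 0) + (bif y then n else 0) := by
  cases x <;> cases y <;> simp

omit [PartialOrder B] [IsOrderedAddMonoid B] [CanonicallyOrderedAdd B] in
theorem wg_sup_inf (w : Fin 4 → B) (b c : Q4) :
    wg w (b ⊔ c) + wg w (b ⊓ c) = wg w b + wg w c := by
  have h0 := bif_sup_inf' b.1 c.1 (w 0)
  have h1 := bif_sup_inf' b.2.1 c.2.1 (w 1)
  have h2 := bif_sup_inf' b.2.2.1 c.2.2.1 (w 2)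
  have h3 := bif_sup_inf' b.2.2.2 c.2.2.2 (w 3)
  simp only [wg, Prod.fst_sup, Prod.snd_sup, Prod.fst_inf, Prod.snd_inf]
  have key : ∀ s0 s1 s2 s3 i0 i1 i2 i3 : B, s0 + s1 + s2 + s3 + (i0 + i1 + i2 + i3) =
      (s0 + i0) + (s1 + i1) + (s2 + i2) + (s3 + i3) := by
    intros; abel
  rw [key, key, h0, h1, h2, h3]

omit [IsOrderedAddMonoid B] in
theorem wg_sup_le (w : Fin 4 → B) (b c : Q4) : wg w (b ⊔ c) ≤ wg w b + wg w c := by
  rw [← wg_sup_inf]
  exact le_self_add

variable {R : Type*} [Ring R]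

/-- coefficient classes -/
def ClsG (M : B → ℕ → AddSubgroup R) (α : Fin 4 → B) (δ : Fin 4 → ℕ) (k : ℕ) (f : Q4 → R) : Prop :=
  ∀ b, f b ∈ M (wg α b) (wt4 δ b) ∧ (wt4 (fun _ => 1) b < k → f b ∈ M (wg α b) (wt4 δ b + 1))

omit [IsOrderedAddMonoid B] in
theorem ClsG.cv {M : B → ℕ → AddSubgroup R} {α : Fin 4 → B} {δ : Fin 4 → ℕ} (hδ : ∀ i, 1 ≤ δ i)
    (hmul : ∀ a d a' d' x y, x ∈ M a d → y ∈ M a' d' → x * y ∈ M (a + a') (d + d'))
    (hanti : ∀ a d a' d', a ≤ a' → d ≤ d' → M a' d' ≤ M a d) {k l : ℕ} {f g : Q4 → R}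
    (hf : ClsG M α δ k f) (hg : ClsG M α δ l g) : ClsG M α δ (k + l) (cv f g) := by
  intro b
  constructor
  · refine AddSubgroup.sum_mem _ fun b1 _ => AddSubgroup.sum_mem _ fun b2 _ => ?_
    split_ifs with h
    · subst h
      have ha := wg_sup_le α b1 b2
      have hd := wt4_sup_inf δ b1 b2
      exact hanti _ _ _ _ ha (by omega) (hmul _ _ _ _ _ _ (hf b1).1 (hg b2).1)
    · exact AddSubgroup.zero_mem _
  · intro hk
    refine AddSubgroup.sum_mem _ fun b1 _ => AddSubgroup.sum_mem _ fun b2 _ => ?_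
    split_ifs with h
    · subst h
      have ha := wg_sup_le α b1 b2
      have hd := wt4_sup_inf δ b1 b2
      have hc := wt4_sup_inf (fun _ => 1) b1 b2
      have hm := wt4_mono (fun _ => 1) δ hδ (b1 ⊓ b2)
      by_cases h0 : wt4 (fun _ => 1) (b1 ⊓ b2) = 0
      · by_cases h1 : wt4 (fun _ => 1) b1 < k
        · exact hanti _ _ _ _ ha (by omega) (hmul _ _ _ _ _ _ ((hf b1).2 h1) (hg b2).1)
        · have h2 : wt4 (fun _ => 1) b2 < l := by omega
          exact hanti _ _ _ _ ha (by omega) (hmul _ _ _ _ _ _ (hf b1).1 ((hg b2).2 h2))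
      · exact hanti _ _ _ _ ha (by omega) (hmul _ _ _ _ _ _ (hf b1).1 (hg b2).1)
    · exact AddSubgroup.zero_mem _

omit [PartialOrder B] [IsOrderedAddMonoid B] [CanonicallyOrderedAdd B] in
theorem cho_memG {M : B → ℕ → AddSubgroup R} (hone : (1 : R) ∈ M 0 0) (b : Bool) {A : R} {a : B} {d : ℕ}
    (hA : A ∈ M a d) : cho b A ∈ M (bif b then a else 0) (bif b then d else 0) := by
  cases b
  · simpa [cho] using hone
  · simpa [cho] using hA

omit [PartialOrder B] [IsOrderedAddMonoid B] [CanonicallyOrderedAdd B] in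
theorem f0_clsG {M : B → ℕ → AddSubgroup R} {α : Fin 4 → B} {δ : Fin 4 → ℕ} (hone : (1 : R) ∈ M 0 0)
    (hmul : ∀ a d a' d' x y, x ∈ M a d → y ∈ M a' d' → x * y ∈ M (a + a') (d + d'))
    {A0 A1 A2 A3 : R} (h0 : A0 ∈ M (α 0) (δ 0)) (h1 : A1 ∈ M (α 1) (δ 1))
    (h2 : A2 ∈ M (α 2) (δ 2)) (h3 : A3 ∈ M (α 3) (δ 3)) : ClsG M α δ 1 (f0 A0 A1 A2 A3) := by
  intro b
  constructor
  · unfold f0
    split_ifs with h
    · exact AddSubgroup.zero_mem _
    · exact hmul _ _ _ _ _ _ (hmul _ _ _ _ _ _ (hmul _ _ _ _ _ _ (cho_memG hone _ h0)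
        (cho_memG hone _ h1)) (cho_memG hone _ h2)) (cho_memG hone _ h3)
  · intro hb
    obtain ⟨b0, b1, b2, b3⟩ := b
    have : f0 A0 A1 A2 A3 (b0, b1, b2, b3) = 0 := by
      cases b0 <;> cases b1 <;> cases b2 <;> cases b3 <;> simp [wt4] at hb
      simp [f0]
    rw [this]
    exact AddSubgroup.zero_mem _

omit [PartialOrder B] [IsOrderedAddMonoid B] [CanonicallyOrderedAdd B] in
theorem l0_clsG {M : B → ℕ → AddSubgroup R} {α : Fin 4 → B} {δ : Fin 4 → ℕ}
    {A0 A1 A2 A3 : R} (h0 : A0 ∈ M (α 0) (δ 0)) (h1 : A1 ∈ M (α 1) (δ 1))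
    (h2 : A2 ∈ M (α 2) (δ 2)) (h3 : A3 ∈ M (α 3) (δ 3)) : ClsG M α δ 1 (l0 A0 A1 A2 A3) := by
  intro b
  constructor
  · unfold l0
    split_ifs with e0 e1 e2 e3
    · subst e0; simpa [wt4, wg] using h0
    · subst e1; simpa [wt4, wg] using h1
    · subst e2; simpa [wt4, wg] using h2
    · subst e3; simpa [wt4, wg] using h3
    · exact AddSubgroup.zero_mem _
  · intro hb
    obtain ⟨b0, b1, b2, b3⟩ := b
    have : l0 A0 A1 A2 A3 (b0, b1, b2, b3) = 0 := by
      cases b0 <;> cases b1 <;> cases b2 <;> cases b3 <;> simp [wt4] at hb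
      simp [l0]
    rw [this]
    exact AddSubgroup.zero_mem _

omit [PartialOrder B] [IsOrderedAddMonoid B] [CanonicallyOrderedAdd B] in
theorem h0_clsG {M : B → ℕ → AddSubgroup R} {α : Fin 4 → B} {δ : Fin 4 → ℕ} {A0 A1 A2 A3 : R}
    (hf : ClsG M α δ 1 (f0 A0 A1 A2 A3)) (hl : ClsG M α δ 1 (l0 A0 A1 A2 A3)) :
    ClsG M α δ 2 (fun b => f0 A0 A1 A2 A3 b - l0 A0 A1 A2 A3 b) := by
  intro b
  refine ⟨AddSubgroup.sub_mem _ (hf b).1 (hl b).1, fun hb => ?_⟩
  obtain ⟨b0, b1, b2, b3⟩ := b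
  have : f0 A0 A1 A2 A3 (b0, b1, b2, b3) - l0 A0 A1 A2 A3 (b0, b1, b2, b3) = 0 := by
    cases b0 <;> cases b1 <;> cases b2 <;> cases b3 <;> simp [wt4] at hb <;> simp [f0, l0, cho]
  show f0 A0 A1 A2 A3 (b0, b1, b2, b3) - l0 A0 A1 A2 A3 (b0, b1, b2, b3) ∈ _
  rw [this]
  exact AddSubgroup.zero_mem _

omit [PartialOrder B] [IsOrderedAddMonoid B] [CanonicallyOrderedAdd B] in
theorem top5G {M : B → ℕ → AddSubgroup R} {α : Fin 4 → B} {δ : Fin 4 → ℕ} {f : Q4 → R}
    (hf : ClsG M α δ 5 f) :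
    nab (zt f) ∈ M (α 0 + α 1 + α 2 + α 3) (δ 0 + δ 1 + δ 2 + δ 3 + 1) := by
  rw [nab_zt]
  have := (hf (true, true, true, true)).2 (by simp [wt4])
  simpa [wt4, wg] using this

omit [IsOrderedAddMonoid B] in
theorem main_sym4G {M : B → ℕ → AddSubgroup R} {α : Fin 4 → B} {δ : Fin 4 → ℕ} (hδ : ∀ i, 1 ≤ δ i)
    (hone : (1 : R) ∈ M 0 0)
    (hmul : ∀ a d a' d' x y, x ∈ M a d → y ∈ M a' d' → x * y ∈ M (a + a') (d + d'))
    (hanti : ∀ a d a' d', a ≤ a' → d ≤ d' → M a' d' ≤ M a d)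
    {A0 A1 A2 A3 : R} (h0 : A0 ∈ M (α 0) (δ 0)) (h1 : A1 ∈ M (α 1) (δ 1))
    (h2 : A2 ∈ M (α 2) (δ 2)) (h3 : A3 ∈ M (α 3) (δ 3))
    (hpow : ∀ s : Q4, ((1 + chi s.1 A0) * (1 + chi s.2.1 A1) * (1 + chi s.2.2.1 A2) *
      (1 + chi s.2.2.2 A3) - 1) ^ 4 = 0) :
    sym4 A0 A1 A2 A3 ∈ M (α 0 + α 1 + α 2 + α 3) (δ 0 + δ 1 + δ 2 + δ 3 + 1) := by
  have hf := f0_clsG hone hmul h0 h1 h2 h3
  have hl := l0_clsG h0 h1 h2 h3
  have hh := h0_clsG hf hl
  set f := f0 A0 A1 A2 A3 with hfdef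
  set l := l0 A0 A1 A2 A3 with hldef
  set h : Q4 → R := fun b => f b - l b with hhdef
  have e1 : ∀ s, (zt f s) ^ 4 = 0 := by
    intro s
    rw [hfdef, zt_f0]
    exact hpow s
  have e2 : ∀ s, zt f s = zt l s + zt h s := by
    intro s
    rw [hhdef, zt_sub]
    abel
  have e3 : ∀ s, (zt l s) ^ 4 = -(zt (cv (cv (cv h f) f) f) s + zt (cv (cv (cv l h) f) f) s +
      zt (cv (cv (cv l l) h) f) s + zt (cv (cv (cv l l) l) h) s) := by
    intro s
    simp only [zt_cv]
    have h1 := e1 s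
    have h2 := e2 s
    have h3 : zt h s = zt f s - zt l s := by rw [h2]; abel
    rw [h3]
    have h4 : zt f s * zt f s * zt f s * zt f s = 0 := by
      rw [← h1]; noncomm_ring
    have : (zt l s) ^ 4 = -((zt f s - zt l s) * zt f s * zt f s * zt f s + zt l s * (zt f s - zt l s) * zt f s * zt f s
      + zt l s * zt l s * (zt f s - zt l s) * zt f s + zt l s * zt l s * zt l s * (zt f s - zt l s)) +
      zt f s * zt f s * zt f s * zt f s := by noncomm_ring
    rw [this, h4, add_zero]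
  have c1 : ClsG M α δ 5 (cv (cv (cv h f) f) f) := ((hh.cv hδ hmul hanti hf).cv hδ hmul hanti hf).cv hδ hmul hanti hf
  have c2 : ClsG M α δ 5 (cv (cv (cv l h) f) f) := ((hl.cv hδ hmul hanti hh).cv hδ hmul hanti hf).cv hδ hmul hanti hf
  have c3 : ClsG M α δ 5 (cv (cv (cv l l) h) f) := ((hl.cv hδ hmul hanti hl).cv hδ hmul hanti hh).cv hδ hmul hanti hf
  have c4 : ClsG M α δ 5 (cv (cv (cv l l) l) h) := ((hl.cv hδ hmul hanti hl).cv hδ hmul hanti hl).cv hδ hmul hanti hh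
  rw [← nab_l0]
  rw [← hldef]
  have e4 : nab (fun s => (zt l s) ^ 4) = -(nab (zt (cv (cv (cv h f) f) f)) + nab (zt (cv (cv (cv l h) f) f)) +
      nab (zt (cv (cv (cv l l) h) f)) + nab (zt (cv (cv (cv l l) l) h))) := by
    unfold nab
    rw [← Finset.sum_add_distrib, ← Finset.sum_add_distrib, ← Finset.sum_add_distrib, ← Finset.sum_neg_distrib]
    refine Finset.sum_congr rfl fun s _ => ?_
    simp only []
    rw [e3 s, smul_neg, smul_add, smul_add, smul_add]
  rw [e4]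
  exact AddSubgroup.neg_mem _ (AddSubgroup.add_mem _ (AddSubgroup.add_mem _ (AddSubgroup.add_mem _ (top5G c1)
    (top5G c2)) (top5G c3)) (top5G c4))

end Gen

end Pool.Agent.MP5c99ad
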