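import Mathlib
import Pool.Agent.Lib.MP_5c99ad_al.SoftA

set_option autoImplicit false

/-!
Kernel checker for window certificates: marks `d, r, q` (`d` commutes with `r` and `q`) and
commuting letters. Written in continuation style with raw recursors for speed.
-/

namespace Pool.Agent.MP5c99ad.BC

/-- the letters -/
inductive Lt : Type
  | a | b | c | e | f | g

/-- the symbols: marks and letters -/
inductive Sy : Type
  | d | r | q
  | l (t : Lt)

/-- a trie with natural numbers at the nodes -/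
inductive Tr : Type
  | z : Tr
  | n : Nat → Tr → Tr → Tr → Tr → Tr → Tr → Tr → Tr → Tr → Tr

/-- insertion of the monomial `c * w` into the trie, continuation style -/
noncomputable def insK (w : List Sy) : Nat → Tr → (Tr → Bool) → Bool :=
  @List.rec Sy (fun _ => Nat → Tr → (Tr → Bool) → Bool)
    (fun c t k => @Tr.rec (fun _ => Bool)
      (k (Tr.n c Tr.z Tr.z Tr.z Tr.z Tr.z Tr.z Tr.z Tr.z Tr.z))
      (fun v t1 t2 t3 t4 t5 t6 t7 t8 t9 _ _ _ _ _ _ _ _ _ => k (Tr.n (Nat.add v c) t1 t2 t3 t4 t5 t6 t7 t8 t9)) t)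
    (fun l _ ih c t k => @Tr.rec (fun _ => Bool)
      (@Sy.rec (fun _ => Bool)
        (ih c Tr.z (fun s => k (Tr.n Nat.zero s Tr.z Tr.z Tr.z Tr.z Tr.z Tr.z Tr.z Tr.z)))
        (ih c Tr.z (fun s => k (Tr.n Nat.zero Tr.z s Tr.z Tr.z Tr.z Tr.z Tr.z Tr.z Tr.z)))
        (ih c Tr.z (fun s => k (Tr.n Nat.zero Tr.z Tr.z s Tr.z Tr.z Tr.z Tr.z Tr.z Tr.z)))
        (fun t => @Lt.rec (fun _ => Bool)
          (ih c Tr.z (fun s => k (Tr.n Nat.zero Tr.z Tr.z Tr.z s Tr.z Tr.z Tr.z Tr.z Tr.z)))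
          (ih c Tr.z (fun s => k (Tr.n Nat.zero Tr.z Tr.z Tr.z Tr.z s Tr.z Tr.z Tr.z Tr.z)))
          (ih c Tr.z (fun s => k (Tr.n Nat.zero Tr.z Tr.z Tr.z Tr.z Tr.z s Tr.z Tr.z Tr.z)))
          (ih c Tr.z (fun s => k (Tr.n Nat.zero Tr.z Tr.z Tr.z Tr.z Tr.z Tr.z s Tr.z Tr.z)))
          (ih c Tr.z (fun s => k (Tr.n Nat.zero Tr.z Tr.z Tr.z Tr.z Tr.z Tr.z Tr.z s Tr.z)))
          (ih c Tr.z (fun s => k (Tr.n Nat.zero Tr.z Tr.z Tr.z Tr.z Tr.z Tr.z Tr.z Tr.z s)))
          t) l)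
      (fun v t1 t2 t3 t4 t5 t6 t7 t8 t9 _ _ _ _ _ _ _ _ _ => @Sy.rec (fun _ => Bool)
        (ih c t1 (fun s => k (Tr.n v s t2 t3 t4 t5 t6 t7 t8 t9)))
        (ih c t2 (fun s => k (Tr.n v t1 s t3 t4 t5 t6 t7 t8 t9)))
        (ih c t3 (fun s => k (Tr.n v t1 t2 s t4 t5 t6 t7 t8 t9)))
        (fun t => @Lt.rec (fun _ => Bool)
          (ih c t4 (fun s => k (Tr.n v t1 t2 t3 s t5 t6 t7 t8 t9)))
          (ih c t5 (fun s => k (Tr.n v t1 t2 t3 t4 s t6 t7 t8 t9)))
          (ih c t6 (fun s => k (Tr.n v t1 t2 t3 t4 t5 s t7 t8 t9)))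
          (ih c t7 (fun s => k (Tr.n v t1 t2 t3 t4 t5 t6 s t8 t9)))
          (ih c t8 (fun s => k (Tr.n v t1 t2 t3 t4 t5 t6 t7 s t9)))
          (ih c t9 (fun s => k (Tr.n v t1 t2 t3 t4 t5 t6 t7 t8 s)))
          t) l) t) w

/-- rank of a letter -/
noncomputable def rk (t : Lt) : Nat := @Lt.rec (fun _ => Nat) 0 1 2 3 4 5 t

/-- prepend a letter to a normal word -/
noncomputable def preL (c : Lt) (w : List Sy) : List Sy :=
  @List.rec Sy (fun _ => List Sy) (Sy.l c :: [])
    (fun s w ih => @Sy.rec (fun _ => List Sy) (Sy.l c :: s :: w) (Sy.l c :: s :: w)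
      (Sy.l c :: s :: w)
      (fun t => @Bool.rec (fun _ => List Sy) (Sy.l t :: ih) (Sy.l c :: Sy.l t :: w)
        (Nat.ble (rk c) (rk t))) s) w

/-- prepend `d` to a normal word -/
noncomputable def preD (w : List Sy) : List Sy :=
  @List.rec Sy (fun _ => List Sy) (Sy.d :: [])
    (fun s w ih => @Sy.rec (fun _ => List Sy) (Sy.d :: Sy.d :: w) (Sy.r :: ih) (Sy.q :: ih)
      (fun t => Sy.d :: Sy.l t :: w) s) w

/-- prepend a symbol to a normal word -/
noncomputable def pre (c : Sy) (w : List Sy) : List Sy :=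
  @Sy.rec (fun _ => List Sy) (preD w) (Sy.r :: w) (Sy.q :: w) (fun t => preL t w) c

/-- prepend a word to a normal word -/
noncomputable def preW (w s : List Sy) : List Sy :=
  @List.rec Sy (fun _ => List Sy) s (fun c _ ih => pre c ih) w

/-- sum of actions over a list, continuation style -/
noncomputable def sumK {α : Type} (f : α → Tr → (Tr → Bool) → Bool) (l : List α) :
    Tr → (Tr → Bool) → Bool :=
  @List.rec α (fun _ => Tr → (Tr → Bool) → Bool) (fun t k => k t)
    (fun h _ ih t k => f h t (fun t' => ih t' k)) l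

/-- placeholders -/
inductive P4 : Type
  | p0 | p1 | p2 | p3

/-- insertion of all words `u * σ(w) * s`, where `σ` replaces the placeholders by the polynomials;
the word `w` is given reversed -/
noncomputable def run (X0 X1 X2 X3 : List (Nat × List Sy)) (u : List Sy) (w : List P4) :
    List Sy → Nat → Tr → (Tr → Bool) → Bool :=
  @List.rec P4 (fun _ => List Sy → Nat → Tr → (Tr → Bool) → Bool)
    (fun s c => insK (preW u s) c)
    (fun l _ ih s c => @P4.rec (fun _ => Tr → (Tr → Bool) → Bool)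
      (sumK (fun h => ih (preW h.2 s) (Nat.mul c h.1)) X0)
      (sumK (fun h => ih (preW h.2 s) (Nat.mul c h.1)) X1)
      (sumK (fun h => ih (preW h.2 s) (Nat.mul c h.1)) X2)
      (sumK (fun h => ih (preW h.2 s) (Nat.mul c h.1)) X3) l) w

/-- `P * d` -/
noncomputable def polR (d : Sy) (P : List (Nat × List Sy)) : List (Nat × List Sy) :=
  P.map (fun h => (h.1, h.2 ++ [d]))

/-- `- d * P` (mod 5) -/
noncomputable def polL (d : Sy) (P : List (Nat × List Sy)) : List (Nat × List Sy) :=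
  P.map (fun h => (Nat.mul 4 h.1, d :: h.2))

/-- the left-normed bracket of a list of symbols; the list is given reversed -/
noncomputable def brP (l : Sy) (ds : List Sy) : List (Nat × List Sy) :=
  @List.rec Sy (fun _ => List (Nat × List Sy)) [(1, [l])]
    (fun d _ ih => polR d ih ++ polL d ih) ds

open P4 in
/-- the table of `sym4` (words reversed) -/
def tab0 : List (Nat × List P4) :=
  [(1, [p3, p2, p1, p0]),
   (1, [p2, p3, p1, p0]),
   (1, [p3, p1, p2, p0]),
   (1, [p1, p3, p2, p0]),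
   (1, [p2, p1, p3, p0]),
   (1, [p1, p2, p3, p0]),
   (1, [p3, p2, p0, p1]),
   (1, [p2, p3, p0, p1]),
   (1, [p3, p0, p2, p1]),
   (1, [p0, p3, p2, p1]),
   (1, [p2, p0, p3, p1]),
   (1, [p0, p2, p3, p1]),
   (1, [p3, p1, p0, p2]),
   (1, [p1, p3, p0, p2]),
   (1, [p3, p0, p1, p2]),
   (1, [p0, p3, p1, p2]),
   (1, [p1, p0, p3, p2]),
   (1, [p0, p1, p3, p2]),
   (1, [p2, p1, p0, p3]),
   (1, [p1, p2, p0, p3]),
   (1, [p2, p0, p1, p3]),
   (1, [p0, p2, p1, p3]),
   (1, [p1, p0, p2, p3]),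
   (1, [p0, p1, p2, p3])]

open P4 in
/-- the table of `sym4` when the last two slots commute (words reversed) -/
def tab2 : List (Nat × List P4) :=
  [(2, [p3, p2, p1, p0]),
   (1, [p3, p1, p2, p0]),
   (2, [p1, p3, p2, p0]),
   (1, [p2, p1, p3, p0]),
   (2, [p3, p2, p0, p1]),
   (1, [p3, p0, p2, p1]),
   (2, [p0, p3, p2, p1]),
   (1, [p2, p0, p3, p1]),
   (1, [p3, p1, p0, p2]),
   (1, [p1, p3, p0, p2]),
   (1, [p3, p0, p1, p2]),
   (1, [p0, p3, p1, p2]),
   (2, [p1, p0, p3, p2]),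
   (2, [p0, p1, p3, p2]),
   (1, [p2, p1, p0, p3]),
   (1, [p1, p2, p0, p3]),
   (1, [p2, p0, p1, p3]),
   (1, [p0, p2, p1, p3])]

open P4 in
/-- the table of `sym4` when the last three slots commute (words reversed) -/
def tab3 : List (Nat × List P4) :=
  [(6, [p3, p2, p1, p0]),
   (2, [p3, p2, p0, p1]),
   (2, [p3, p0, p2, p1]),
   (6, [p0, p3, p2, p1]),
   (2, [p2, p0, p3, p1]),
   (2, [p3, p1, p0, p2]),
   (2, [p1, p0, p3, p2]),
   (2, [p2, p1, p0, p3])]

/-- an item of a certificate -/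
inductive Item : Type
  | t0 (k : Nat) (u : List Sy) (x : Sy) (xs : List Sy) (y : Sy) (ys : List Sy)
      (z : Sy) (zs : List Sy) (w : Sy) (ws : List Sy) (v : List Sy)
  | t2 (k : Nat) (u : List Sy) (x : Sy) (xs : List Sy) (y : Sy) (ys : List Sy)
      (c1 c2 : Lt) (v : List Sy)
  | t3 (k : Nat) (u : List Sy) (x : Sy) (xs : List Sy) (c1 c2 c3 : Lt) (v : List Sy)

/-- the action of an item -/
noncomputable def itemK (i : Item) : Tr → (Tr → Bool) → Bool :=
  @Item.rec (fun _ => Tr → (Tr → Bool) → Bool)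
    (fun k u x xs y ys z zs w ws v =>
      sumK (fun h => run (brP x xs) (brP y ys) (brP z zs) (brP w ws) u h.2 v (Nat.mul k h.1)) tab0)
    (fun k u x xs y ys c1 c2 v =>
      sumK (fun h => run (brP x xs) (brP y ys) (brP (Sy.l c1) []) (brP (Sy.l c2) []) u h.2 v
        (Nat.mul k h.1)) tab2)
    (fun k u x xs c1 c2 c3 v =>
      sumK (fun h => run (brP x xs) (brP (Sy.l c1) []) (brP (Sy.l c2) []) (brP (Sy.l c3) []) u h.2 v
        (Nat.mul k h.1)) tab3) i

/-- first part of the measure -/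
noncomputable def mu (w : List Sy) (m : Nat) : Nat :=
  @List.rec Sy (fun _ => Nat → Nat) (fun m => m)
    (fun s _ ih m => ih (@Sy.rec (fun _ => Nat) (Nat.mul m 100) (Nat.mul m 100) (Nat.mul m 100)
      (fun _ => Nat.succ m) s)) w m

/-- second part of the measure -/
noncomputable def nu (w : List Sy) (m : Nat) : Nat :=
  @List.rec Sy (fun _ => Nat → Nat) (fun m => m)
    (fun s _ ih m => ih (@Sy.rec (fun _ => Nat) (Nat.mul m 3) (Nat.add (Nat.mul m 3) 1)
      (Nat.add (Nat.mul m 3) 2) (fun _ => m) s)) w m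

/-- counters -/
noncomputable def cd (w : List Sy) (m : Nat) : Nat :=
  @List.rec Sy (fun _ => Nat → Nat) (fun m => m)
    (fun s _ ih m => ih (@Sy.rec (fun _ => Nat) (Nat.succ m) m m (fun _ => m) s)) w m
@[inherit_doc cd]
noncomputable def cr (w : List Sy) (m : Nat) : Nat :=
  @List.rec Sy (fun _ => Nat → Nat) (fun m => m)
    (fun s _ ih m => ih (@Sy.rec (fun _ => Nat) m (Nat.succ m) m (fun _ => m) s)) w m
@[inherit_doc cd]
noncomputable def cq (w : List Sy) (m : Nat) : Nat :=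
  @List.rec Sy (fun _ => Nat → Nat) (fun m => m)
    (fun s _ ih m => ih (@Sy.rec (fun _ => Nat) m m (Nat.succ m) (fun _ => m) s)) w m
@[inherit_doc cd]
noncomputable def cl (w : List Sy) (m : Nat) : Nat :=
  @List.rec Sy (fun _ => Nat → Nat) (fun m => m)
    (fun s _ ih m => ih (@Sy.rec (fun _ => Nat) m m m (fun _ => Nat.succ m) s)) w m

/-- conjunction -/
noncomputable def band (a b : Bool) : Bool := @Bool.rec (fun _ => Bool) false b a

/-- all words with a value not divisible by 5 have measure `> (M, V)` and content `I, J, K, H` -/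
noncomputable def allgt (M V I J K H : Nat) (t : Tr) : Nat → Nat → Nat → Nat → Nat → Nat → Bool :=
  @Tr.rec (fun _ => Nat → Nat → Nat → Nat → Nat → Nat → Bool) (fun _ _ _ _ _ _ => true)
    (fun v _ _ _ _ _ _ _ _ _ h1 h2 h3 h4 h5 h6 h7 h8 h9 m n i j k h =>
      band (@Bool.rec (fun _ => Bool)
          (band (Nat.beq i I) (band (Nat.beq j J) (band (Nat.beq k K) (band (Nat.beq h H)
            (@Bool.rec (fun _ => Bool)
            (band (Nat.beq m M) (Nat.ble (Nat.succ V) n)) true (Nat.ble (Nat.succ M) m))))))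
          true (Nat.beq (Nat.mod v 5) 0))
      (band (h1 (Nat.mul m 100) (Nat.mul n 3) (Nat.succ i) j k h)
      (band (h2 (Nat.mul m 100) (Nat.add (Nat.mul n 3) 1) i (Nat.succ j) k h)
      (band (h3 (Nat.mul m 100) (Nat.add (Nat.mul n 3) 2) i j (Nat.succ k) h)
      (band (h4 (Nat.succ m) n i j k (Nat.succ h))
      (band (h5 (Nat.succ m) n i j k (Nat.succ h))
      (band (h6 (Nat.succ m) n i j k (Nat.succ h))
      (band (h7 (Nat.succ m) n i j k (Nat.succ h))
      (band (h8 (Nat.succ m) n i j k (Nat.succ h))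
        (h9 (Nat.succ m) n i j k (Nat.succ h))))))))))) t

/-- the check: the sum of the items plus `-w0` has only bigger words -/
noncomputable def check (items : List Item) (w0 : List Sy) : Bool :=
  sumK itemK items Tr.z (fun t => insK (preW w0 []) 4 t
    (fun t => allgt (mu w0 0) (nu w0 0) (cd w0 0) (cr w0 0) (cq w0 0) (cl w0 0) t 0 0 0 0 0 0))

end Pool.Agent.MP5c99ad.BC
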