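import Mathlib
import Pool.Agent.Lib.MP_5c99ad_al.BCertA

set_option autoImplicit false

/-!
Soundness of the window checker `BCertA`.
-/

namespace Pool.Agent.MP5c99ad.BC

variable {U : Type} [Ring U]

/-- the value of a word -/
def ev (g : Sy → U) (w : List Sy) : U := (w.map g).prod

@[simp] theorem ev_nil (g : Sy → U) : ev g [] = 1 := rfl

@[simp] theorem ev_cons (g : Sy → U) (l : Sy) (w : List Sy) : ev g (l :: w) = g l * ev g w := by
  simp [ev]

theorem ev_append (g : Sy → U) (w s : List Sy) : ev g (w ++ s) = ev g w * ev g s := by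
  simp [ev]

/-- the value of a trie -/
def val (g : Sy → U) : Tr → U
  | Tr.z => 0
  | Tr.n v t1 t2 t3 t4 t5 t6 t7 t8 t9 =>
    (v : U) + (g Sy.d * val g t1 + g Sy.r * val g t2 + g Sy.q * val g t3 + g (Sy.l Lt.a) * val g t4 + g (Sy.l Lt.b) * val g t5 + g (Sy.l Lt.c) * val g t6 + g (Sy.l Lt.e) * val g t7 + g (Sy.l Lt.f) * val g t8 + g (Sy.l Lt.g) * val g t9)

/-- the commutations -/
structure Comm (g : Sy → U) : Prop where
  rd : g .r * g .d = g .d * g .r
  qd : g .q * g .d = g .d * g .q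
  ll : ∀ s t, g (.l s) * g (.l t) = g (.l t) * g (.l s)

/-- the action `A` adds `d` -/
def Adds (g : Sy → U) (A : Tr → (Tr → Bool) → Bool) (d : U) : Prop :=
  ∀ t k, ∃ t', A t k = k t' ∧ val g t' = val g t + d

theorem adds_insK (g : Sy → U) (w : List Sy) (c : Nat) : Adds g (insK w c) ((c : U) * ev g w) := by
  induction w with
  | nil =>
    intro t k
    cases t with
    | z => exact ⟨Tr.n c Tr.z Tr.z Tr.z Tr.z Tr.z Tr.z Tr.z Tr.z Tr.z, rfl, by simp [val]⟩
    | n v t1 t2 t3 t4 t5 t6 t7 t8 t9 =>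
      refine ⟨Tr.n (v + c) t1 t2 t3 t4 t5 t6 t7 t8 t9, rfl, ?_⟩
      simp only [val, ev_nil, mul_one, Nat.cast_add]
      abel
  | cons l w ih =>
    have e1 : ∀ a b d : U, d = b + (c : U) * ev g w → a * d = a * b + (c : U) * (a * ev g w) := by
      intro a b d h
      rw [h, mul_add, ← mul_assoc, ← mul_assoc, Nat.cast_comm]
    have e0 : ∀ a d : U, d = 0 + (c : U) * ev g w → a * d = (c : U) * (a * ev g w) := by
      intro a d h
      have := e1 a 0 d h
      rwa [mul_zero, zero_add] at this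
    intro t k
    cases t with
    | z =>
      cases l with
      | d =>
        obtain ⟨s, hs1, hs2⟩ := ih Tr.z (fun s => k (Tr.n Nat.zero s Tr.z Tr.z Tr.z Tr.z Tr.z Tr.z Tr.z Tr.z))
        refine ⟨_, hs1, ?_⟩
        have := e0 (g Sy.d) _ hs2
        simp only [val, ev_cons, Nat.cast_zero, mul_zero, add_zero, zero_add]
        exact this
      | r =>
        obtain ⟨s, hs1, hs2⟩ := ih Tr.z (fun s => k (Tr.n Nat.zero Tr.z s Tr.z Tr.z Tr.z Tr.z Tr.z Tr.z Tr.z))
        refine ⟨_, hs1, ?_⟩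
        have := e0 (g Sy.r) _ hs2
        simp only [val, ev_cons, Nat.cast_zero, mul_zero, add_zero, zero_add]
        exact this
      | q =>
        obtain ⟨s, hs1, hs2⟩ := ih Tr.z (fun s => k (Tr.n Nat.zero Tr.z Tr.z s Tr.z Tr.z Tr.z Tr.z Tr.z Tr.z))
        refine ⟨_, hs1, ?_⟩
        have := e0 (g Sy.q) _ hs2
        simp only [val, ev_cons, Nat.cast_zero, mul_zero, add_zero, zero_add]
        exact this
      | l t =>
        cases t with
        | a =>
          obtain ⟨s, hs1, hs2⟩ := ih Tr.z (fun s => k (Tr.n Nat.zero Tr.z Tr.z Tr.z s Tr.z Tr.z Tr.z Tr.z Tr.z))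
          refine ⟨_, hs1, ?_⟩
          have := e0 (g (Sy.l Lt.a)) _ hs2
          simp only [val, ev_cons, Nat.cast_zero, mul_zero, add_zero, zero_add]
          exact this
        | b =>
          obtain ⟨s, hs1, hs2⟩ := ih Tr.z (fun s => k (Tr.n Nat.zero Tr.z Tr.z Tr.z Tr.z s Tr.z Tr.z Tr.z Tr.z))
          refine ⟨_, hs1, ?_⟩
          have := e0 (g (Sy.l Lt.b)) _ hs2
          simp only [val, ev_cons, Nat.cast_zero, mul_zero, add_zero, zero_add]
          exact this
        | c =>
          obtain ⟨s, hs1, hs2⟩ := ih Tr.z (fun s => k (Tr.n Nat.zero Tr.z Tr.z Tr.z Tr.z Tr.z s Tr.z Tr.z Tr.z))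
          refine ⟨_, hs1, ?_⟩
          have := e0 (g (Sy.l Lt.c)) _ hs2
          simp only [val, ev_cons, Nat.cast_zero, mul_zero, add_zero, zero_add]
          exact this
        | e =>
          obtain ⟨s, hs1, hs2⟩ := ih Tr.z (fun s => k (Tr.n Nat.zero Tr.z Tr.z Tr.z Tr.z Tr.z Tr.z s Tr.z Tr.z))
          refine ⟨_, hs1, ?_⟩
          have := e0 (g (Sy.l Lt.e)) _ hs2
          simp only [val, ev_cons, Nat.cast_zero, mul_zero, add_zero, zero_add]
          exact this
        | f =>
          obtain ⟨s, hs1, hs2⟩ := ih Tr.z (fun s => k (Tr.n Nat.zero Tr.z Tr.z Tr.z Tr.z Tr.z Tr.z Tr.z s Tr.z))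
          refine ⟨_, hs1, ?_⟩
          have := e0 (g (Sy.l Lt.f)) _ hs2
          simp only [val, ev_cons, Nat.cast_zero, mul_zero, add_zero, zero_add]
          exact this
        | g =>
          obtain ⟨s, hs1, hs2⟩ := ih Tr.z (fun s => k (Tr.n Nat.zero Tr.z Tr.z Tr.z Tr.z Tr.z Tr.z Tr.z Tr.z s))
          refine ⟨_, hs1, ?_⟩
          have := e0 (g (Sy.l Lt.g)) _ hs2
          simp only [val, ev_cons, Nat.cast_zero, mul_zero, add_zero, zero_add]
          exact this
    | n v t1 t2 t3 t4 t5 t6 t7 t8 t9 =>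
      cases l with
      | d =>
        obtain ⟨s, hs1, hs2⟩ := ih t1 (fun s => k (Tr.n v s t2 t3 t4 t5 t6 t7 t8 t9))
        refine ⟨_, hs1, ?_⟩
        simp only [val, ev_cons]
        rw [e1 (g Sy.d) _ _ hs2]
        abel
      | r =>
        obtain ⟨s, hs1, hs2⟩ := ih t2 (fun s => k (Tr.n v t1 s t3 t4 t5 t6 t7 t8 t9))
        refine ⟨_, hs1, ?_⟩
        simp only [val, ev_cons]
        rw [e1 (g Sy.r) _ _ hs2]
        abel
      | q =>
        obtain ⟨s, hs1, hs2⟩ := ih t3 (fun s => k (Tr.n v t1 t2 s t4 t5 t6 t7 t8 t9))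
        refine ⟨_, hs1, ?_⟩
        simp only [val, ev_cons]
        rw [e1 (g Sy.q) _ _ hs2]
        abel
      | l t =>
        cases t with
        | a =>
          obtain ⟨s, hs1, hs2⟩ := ih t4 (fun s => k (Tr.n v t1 t2 t3 s t5 t6 t7 t8 t9))
          refine ⟨_, hs1, ?_⟩
          simp only [val, ev_cons]
          rw [e1 (g (Sy.l Lt.a)) _ _ hs2]
          abel
        | b =>
          obtain ⟨s, hs1, hs2⟩ := ih t5 (fun s => k (Tr.n v t1 t2 t3 t4 s t6 t7 t8 t9))
          refine ⟨_, hs1, ?_⟩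
          simp only [val, ev_cons]
          rw [e1 (g (Sy.l Lt.b)) _ _ hs2]
          abel
        | c =>
          obtain ⟨s, hs1, hs2⟩ := ih t6 (fun s => k (Tr.n v t1 t2 t3 t4 t5 s t7 t8 t9))
          refine ⟨_, hs1, ?_⟩
          simp only [val, ev_cons]
          rw [e1 (g (Sy.l Lt.c)) _ _ hs2]
          abel
        | e =>
          obtain ⟨s, hs1, hs2⟩ := ih t7 (fun s => k (Tr.n v t1 t2 t3 t4 t5 t6 s t8 t9))
          refine ⟨_, hs1, ?_⟩
          simp only [val, ev_cons]
          rw [e1 (g (Sy.l Lt.e)) _ _ hs2]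
          abel
        | f =>
          obtain ⟨s, hs1, hs2⟩ := ih t8 (fun s => k (Tr.n v t1 t2 t3 t4 t5 t6 t7 s t9))
          refine ⟨_, hs1, ?_⟩
          simp only [val, ev_cons]
          rw [e1 (g (Sy.l Lt.f)) _ _ hs2]
          abel
        | g =>
          obtain ⟨s, hs1, hs2⟩ := ih t9 (fun s => k (Tr.n v t1 t2 t3 t4 t5 t6 t7 t8 s))
          refine ⟨_, hs1, ?_⟩
          simp only [val, ev_cons]
          rw [e1 (g (Sy.l Lt.g)) _ _ hs2]
          abel

theorem ev_preL {g : Sy → U} (hg : Comm g) (c : Lt) (w : List Sy) :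
    ev g (preL c w) = g (.l c) * ev g w := by
  induction w with
  | nil => simp [preL]
  | cons s w ih =>
    cases s with
    | d => exact ev_cons g _ _
    | r => exact ev_cons g _ _
    | q => exact ev_cons g _ _
    | l t =>
      have h : preL c (Sy.l t :: w) = @Bool.rec (fun _ => List Sy) (Sy.l t :: preL c w)
        (Sy.l c :: Sy.l t :: w) (Nat.ble (rk c) (rk t)) := rfl
      rw [h]
      cases Nat.ble (rk c) (rk t) with
      | true => exact ev_cons g _ _
      | false =>
        show ev g (Sy.l t :: preL c w) = _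
        rw [ev_cons, ih, ev_cons, ← mul_assoc, ← mul_assoc, hg.ll]

theorem ev_preD {g : Sy → U} (hg : Comm g) (w : List Sy) :
    ev g (preD w) = g .d * ev g w := by
  induction w with
  | nil => simp [preD]
  | cons s w ih =>
    cases s with
    | d => exact ev_cons g _ _
    | r =>
      show ev g (Sy.r :: preD w) = _
      rw [ev_cons, ih, ev_cons, ← mul_assoc, ← mul_assoc, hg.rd]
    | q =>
      show ev g (Sy.q :: preD w) = _
      rw [ev_cons, ih, ev_cons, ← mul_assoc, ← mul_assoc, hg.qd]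
    | l t => exact ev_cons g _ _

theorem ev_pre {g : Sy → U} (hg : Comm g) (c : Sy) (w : List Sy) :
    ev g (pre c w) = g c * ev g w := by
  cases c with
  | d => exact ev_preD hg w
  | r => exact ev_cons g _ w
  | q => exact ev_cons g _ w
  | l t => exact ev_preL hg t w

theorem ev_preW {g : Sy → U} (hg : Comm g) (w s : List Sy) :
    ev g (preW w s) = ev g w * ev g s := by
  induction w with
  | nil => simp [preW]
  | cons c w ih =>
    show ev g (pre c (preW w s)) = _
    rw [ev_pre hg, ih, ev_cons, mul_assoc]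

theorem adds_congr {g : Sy → U} {A : Tr → (Tr → Bool) → Bool} {d e : U} (h : Adds g A d)
    (he : d = e) : Adds g A e := he ▸ h

theorem adds_sumK {α : Type} {g : Sy → U} {f : α → Tr → (Tr → Bool) → Bool} {d : α → U}
    (h : ∀ z, Adds g (f z) (d z)) (l : List α) : Adds g (sumK f l) (l.map d).sum := by
  induction l with
  | nil => intro t k; exact ⟨t, rfl, by simp⟩
  | cons z l ih =>
    intro t k
    obtain ⟨t1, h1, h2⟩ := h z t (fun t' => sumK f l t' k)
    obtain ⟨t2, h3, h4⟩ := ih t1 k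
    exact ⟨t2, h1.trans h3, by rw [h4, h2, List.map_cons, List.sum_cons, add_assoc]⟩

/-- the value of a polynomial -/
def pev (g : Sy → U) (P : List (Nat × List Sy)) : U :=
  (P.map (fun h => (h.1 : U) * ev g h.2)).sum

/-- the value of a reversed word in the placeholders -/
def rev (X0 X1 X2 X3 : U) : List P4 → U
  | [] => 1
  | .p0 :: w => rev X0 X1 X2 X3 w * X0
  | .p1 :: w => rev X0 X1 X2 X3 w * X1
  | .p2 :: w => rev X0 X1 X2 X3 w * X2
  | .p3 :: w => rev X0 X1 X2 X3 w * X3

theorem adds_run {g : Sy → U} (hg : Comm g) (X0 X1 X2 X3 : List (Nat × List Sy)) (u : List Sy)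
    (w : List P4) :
    ∀ (s : List Sy) (c : Nat), Adds g (run X0 X1 X2 X3 u w s c)
      ((c : U) * (ev g u * rev (pev g X0) (pev g X1) (pev g X2) (pev g X3) w * ev g s)) := by
  induction w with
  | nil =>
    intro s c
    refine adds_congr (adds_insK g (preW u s) c) ?_
    rw [ev_preW hg]
    simp [rev]
  | cons l w ih =>
    intro s c
    have key : ∀ Z : List (Nat × List Sy), Adds g
        (sumK (fun h => run X0 X1 X2 X3 u w (preW h.2 s) (Nat.mul c h.1)) Z)
        ((c : U) * (ev g u * (rev (pev g X0) (pev g X1) (pev g X2) (pev g X3) w * pev g Z) *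
          ev g s)) := by
      intro Z
      refine adds_congr (adds_sumK (fun h => ih (preW h.2 s) (Nat.mul c h.1)) Z) ?_
      induction Z with
      | nil => simp [pev]
      | cons z Z ihZ =>
        rw [List.map_cons, List.sum_cons, ihZ, ev_preW hg]
        have : ((Nat.mul c z.1 : Nat) : U) = (c : U) * (z.1 : U) := Nat.cast_mul c z.1
        rw [this]
        have hz : pev g (z :: Z) = (z.1 : U) * ev g z.2 + pev g Z := by simp [pev]
        rw [hz]
        generalize rev (pev g X0) (pev g X1) (pev g X2) (pev g X3) w = R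
        generalize pev g Z = PZ
        have hc : ev g u * (R * ((z.1 : U) * ev g z.2)) = (z.1 : U) * (ev g u * (R * ev g z.2)) := by
          rw [← mul_assoc R, ← Nat.cast_comm, mul_assoc, ← mul_assoc (ev g u), ← Nat.cast_comm,
            mul_assoc]
        rw [mul_add, mul_add, add_mul, mul_add, hc]
        simp only [mul_assoc]
    cases l with
    | p0 => exact key X0
    | p1 => exact key X1
    | p2 => exact key X2
    | p3 => exact key X3

/-- the left-normed bracket -/
def brv (g : Sy → U) (l : Sy) : List Sy → U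
  | [] => g l
  | d :: ds => brv g l ds * g d - g d * brv g l ds

theorem four_eq (h5 : (5 : U) = 0) : (4 : U) = -1 := by
  have : (4 : U) + 1 = 0 := by rw [← h5]; norm_num
  exact eq_neg_of_add_eq_zero_left this

theorem pev_brP {g : Sy → U} (h5 : (5 : U) = 0) (l : Sy) (ds : List Sy) :
    pev g (brP l ds) = brv g l ds := by
  induction ds with
  | nil =>
    show pev g [(1, [l])] = _
    simp [pev, brv]
  | cons d ds ih =>
    show pev g (polR d (brP l ds) ++ polL d (brP l ds)) = _
    rw [brv, ← ih]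
    generalize brP l ds = P
    have h1 : pev g (polR d P) = pev g P * g d := by
      induction P with
      | nil => simp [pev, polR]
      | cons z P ihP =>
        have e1 : pev g (polR d (z :: P)) = (z.1 : U) * ev g (z.2 ++ [d]) + pev g (polR d P) := by
          simp [pev, polR]
        have e2 : pev g (z :: P) = (z.1 : U) * ev g z.2 + pev g P := by simp [pev]
        rw [e1, e2, ihP, ev_append, add_mul]
        simp [mul_assoc]
    have h2 : pev g (polL d P) = - (g d * pev g P) := by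
      clear h1
      induction P with
      | nil => simp [pev, polL]
      | cons z P ihP =>
        have e1 : pev g (polL d (z :: P)) =
            ((Nat.mul 4 z.1 : Nat) : U) * (g d * ev g z.2) + pev g (polL d P) := by
          simp [pev, polL]
        have e2 : pev g (z :: P) = (z.1 : U) * ev g z.2 + pev g P := by simp [pev]
        have e3 : ((Nat.mul 4 z.1 : Nat) : U) = - (z.1 : U) := by
          have : ((Nat.mul 4 z.1 : Nat) : U) = (4 : U) * (z.1 : U) := by
            exact_mod_cast Nat.cast_mul 4 z.1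
          rw [this, four_eq h5]; simp
        rw [e1, e2, ihP, e3, mul_add, ← mul_assoc (g d), ← Nat.cast_comm]
        simp only [neg_mul, mul_assoc, neg_add]
    have h3 : pev g (polR d P ++ polL d P) = pev g (polR d P) + pev g (polL d P) := by
      simp [pev]
    rw [h3, h1, h2, sub_eq_add_neg]

theorem band_true {a b : Bool} (h : band a b = true) : a = true ∧ b = true := by
  cases a with
  | false => exact absurd h (by simp [band])
  | true => exact ⟨rfl, h⟩

/-- the words admitted by the final test -/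
structure Good (M V I J K H m n i j k h : Nat) (w : List Sy) : Prop where
  hi : cd w i = I
  hj : cr w j = J
  hk : cq w k = K
  hh : cl w h = H
  hm : M < mu w m ∨ (mu w m = M ∧ V < nu w n)

theorem allgt_sound {g : Sy → U} (h5 : (5 : U) = 0) (M V I J K H : Nat) (t : Tr) :
    ∀ m n i j k h, allgt M V I J K H t m n i j k h = true →
      val g t ∈ AddSubgroup.closure {u : U | ∃ w, Good M V I J K H m n i j k h w ∧ u = ev g w} := by
  induction t with
  | z => intro m n i j k h _; exact AddSubgroup.zero_mem _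
  | n v t1 t2 t3 t4 t5 t6 t7 t8 t9 ih1 ih2 ih3 ih4 ih5 ih6 ih7 ih8 ih9 =>
    intro m n i j k h H0
    have step : ∀ (s : Sy) (t : Tr) (m' n' i' j' k' h' : Nat),
        (∀ w, Good M V I J K H m' n' i' j' k' h' w → Good M V I J K H m n i j k h (s :: w)) →
        val g t ∈ AddSubgroup.closure
          {u : U | ∃ w, Good M V I J K H m' n' i' j' k' h' w ∧ u = ev g w} →
        g s * val g t ∈ AddSubgroup.closure
          {u : U | ∃ w, Good M V I J K H m n i j k h w ∧ u = ev g w} := by
      intro s t m' n' i' j' k' h' hG ht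
      generalize val g t = z at ht ⊢
      induction ht using AddSubgroup.closure_induction with
      | mem u hu =>
        obtain ⟨w, hw, rfl⟩ := hu
        exact AddSubgroup.subset_closure ⟨s :: w, hG w hw, (ev_cons g s w).symm⟩
      | zero => rw [mul_zero]; exact AddSubgroup.zero_mem _
      | add a b _ _ ha hb => rw [mul_add]; exact AddSubgroup.add_mem _ ha hb
      | neg a _ ha => rw [mul_neg]; exact AddSubgroup.neg_mem _ ha
    obtain ⟨c0, H1⟩ := band_true H0
    obtain ⟨c1, H2⟩ := band_true H1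
    obtain ⟨c2, H3⟩ := band_true H2
    obtain ⟨c3, H4⟩ := band_true H3
    obtain ⟨c4, H5⟩ := band_true H4
    obtain ⟨c5, H6⟩ := band_true H5
    obtain ⟨c6, H7⟩ := band_true H6
    obtain ⟨c7, H8⟩ := band_true H7
    obtain ⟨c8, c9⟩ := band_true H8
    have hv : (v : U) ∈ AddSubgroup.closure
        {u : U | ∃ w, Good M V I J K H m n i j k h w ∧ u = ev g w} := by
      cases hb : Nat.beq (Nat.mod v 5) 0 with
      | true =>
        have hm : v % 5 = 0 := Nat.eq_of_beq_eq_true hb
        have hvv : (v : U) = 0 := by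
          obtain ⟨w, rfl⟩ := Nat.dvd_of_mod_eq_zero hm
          push_cast
          rw [h5, zero_mul]
        rw [hvv]; exact AddSubgroup.zero_mem _
      | false =>
        rw [hb] at c0
        obtain ⟨b1, c0⟩ := band_true c0
        obtain ⟨b2, c0⟩ := band_true c0
        obtain ⟨b3, c0⟩ := band_true c0
        obtain ⟨b4, c0⟩ := band_true c0
        have hG : Good M V I J K H m n i j k h [] := by
          refine ⟨Nat.eq_of_beq_eq_true b1, Nat.eq_of_beq_eq_true b2, Nat.eq_of_beq_eq_true b3,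
            Nat.eq_of_beq_eq_true b4, ?_⟩
          cases hl : Nat.ble (Nat.succ M) m with
          | true => exact Or.inl (Nat.le_of_ble_eq_true hl)
          | false =>
            rw [hl] at c0
            obtain ⟨b5, b6⟩ := band_true c0
            exact Or.inr ⟨Nat.eq_of_beq_eq_true b5, Nat.le_of_ble_eq_true b6⟩
        have h1 : (1 : U) ∈ AddSubgroup.closure
            {u : U | ∃ w, Good M V I J K H m n i j k h w ∧ u = ev g w} :=
          AddSubgroup.subset_closure ⟨[], hG, rfl⟩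
        have := AddSubgroup.nsmul_mem _ h1 v
        rwa [nsmul_one] at this
    simp only [val]
    refine AddSubgroup.add_mem _ hv ?_
    repeat refine AddSubgroup.add_mem _ ?_ ?_
    · exact step Sy.d t1 (m * 100) (n * 3) (i + 1) j k h (fun w hw => ⟨hw.hi, hw.hj, hw.hk, hw.hh, hw.hm⟩)
        (ih1 _ _ _ _ _ _ c1)
    · exact step Sy.r t2 (m * 100) (n * 3 + 1) i (j + 1) k h (fun w hw => ⟨hw.hi, hw.hj, hw.hk, hw.hh, hw.hm⟩)
        (ih2 _ _ _ _ _ _ c2)
    · exact step Sy.q t3 (m * 100) (n * 3 + 2) i j (k + 1) h (fun w hw => ⟨hw.hi, hw.hj, hw.hk, hw.hh, hw.hm⟩)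
        (ih3 _ _ _ _ _ _ c3)
    · exact step (Sy.l Lt.a) t4 (m + 1) n i j k (h + 1) (fun w hw => ⟨hw.hi, hw.hj, hw.hk, hw.hh, hw.hm⟩)
        (ih4 _ _ _ _ _ _ c4)
    · exact step (Sy.l Lt.b) t5 (m + 1) n i j k (h + 1) (fun w hw => ⟨hw.hi, hw.hj, hw.hk, hw.hh, hw.hm⟩)
        (ih5 _ _ _ _ _ _ c5)
    · exact step (Sy.l Lt.c) t6 (m + 1) n i j k (h + 1) (fun w hw => ⟨hw.hi, hw.hj, hw.hk, hw.hh, hw.hm⟩)
        (ih6 _ _ _ _ _ _ c6)
    · exact step (Sy.l Lt.e) t7 (m + 1) n i j k (h + 1) (fun w hw => ⟨hw.hi, hw.hj, hw.hk, hw.hh, hw.hm⟩)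
        (ih7 _ _ _ _ _ _ c7)
    · exact step (Sy.l Lt.f) t8 (m + 1) n i j k (h + 1) (fun w hw => ⟨hw.hi, hw.hj, hw.hk, hw.hh, hw.hm⟩)
        (ih8 _ _ _ _ _ _ c8)
    · exact step (Sy.l Lt.g) t9 (m + 1) n i j k (h + 1) (fun w hw => ⟨hw.hi, hw.hj, hw.hk, hw.hh, hw.hm⟩)
        (ih9 _ _ _ _ _ _ c9)

theorem brv_lie {g : Sy → U} {S : Set U} (hS : ∀ l, g l ∈ S) (l : Sy) (ds : List Sy) :
    LieMonS S (brv g l ds) := by
  induction ds with
  | nil => exact LieMonS.letter _ (hS l)
  | cons d ds ih => exact LieMonS.br _ _ ih (LieMonS.letter _ (hS d))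

theorem sum_map_mul {α : Type} (l : List α) (f : α → U) (c d : U) :
    (l.map (fun z => c * f z * d)).sum = c * (l.map f).sum * d := by
  induction l with
  | nil => simp
  | cons z l ih => simp only [List.map_cons, List.sum_cons, ih]; noncomm_ring

theorem adds_table {g : Sy → U} (h5 : (5 : U) = 0) (hg : Comm g) (k : Nat) (u v : List Sy)
    (x : Sy) (xs : List Sy) (y : Sy) (ys : List Sy) (z : Sy) (zs : List Sy) (w : Sy) (ws : List Sy)
    (tb : List (Nat × List P4)) (h0 : (tb.map (fun h => (h.1 : U) *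
      rev (brv g x xs) (brv g y ys) (brv g z zs) (brv g w ws) h.2)).sum = 0) :
    Adds g (sumK (fun h => run (brP x xs) (brP y ys) (brP z zs) (brP w ws) u h.2 v
      (Nat.mul k h.1)) tb) 0 := by
  have A := adds_sumK (fun h : Nat × List P4 =>
    adds_run hg (brP x xs) (brP y ys) (brP z zs) (brP w ws) u h.2 v (Nat.mul k h.1)) tb
  refine adds_congr A ?_
  simp only [pev_brP h5]
  set s := rev (brv g x xs) (brv g y ys) (brv g z zs) (brv g w ws) with hs
  have e : ∀ h : Nat × List P4, ((Nat.mul k h.1 : Nat) : U) * (ev g u * s h.2 * ev g v) =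
      ((k : U) * ev g u) * ((h.1 : U) * s h.2) * ev g v := by
    intro h
    have e1 : ((Nat.mul k h.1 : Nat) : U) = (k : U) * (h.1 : U) := Nat.cast_mul _ _
    have e2 : (h.1 : U) * ev g u = ev g u * (h.1 : U) := Nat.cast_comm _ _
    rw [e1, mul_assoc (k : U), ← mul_assoc (h.1 : U), ← mul_assoc (h.1 : U), e2]
    simp only [mul_assoc]
  rw [List.map_congr_left (fun h _ => e h), sum_map_mul, h0]
  simp

theorem tab0_sum (X0 X1 X2 X3 : U) :
    (tab0.map (fun h => (h.1 : U) * rev X0 X1 X2 X3 h.2)).sum = sym4 X0 X1 X2 X3 := by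
  simp only [tab0, List.map_cons, List.map_nil, List.sum_cons, List.sum_nil, rev, sym4,
    Nat.cast_one, one_mul, add_zero, mul_assoc]
  abel

theorem tab2_sum (X0 X1 X2 X3 : U) (h : X3 * X2 = X2 * X3) :
    (tab2.map (fun h => (h.1 : U) * rev X0 X1 X2 X3 h.2)).sum = sym4 X0 X1 X2 X3 := by
  have h' : ∀ z, X3 * (X2 * z) = X2 * (X3 * z) := fun z => by rw [← mul_assoc, h, mul_assoc]
  simp only [tab2, List.map_cons, List.map_nil, List.sum_cons, List.sum_nil, rev, sym4,
    Nat.cast_one, Nat.cast_ofNat, one_mul, add_zero, mul_assoc, h]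
  noncomm_ring

theorem tab3_sum (X0 X1 X2 X3 : U) (h : X3 * X2 = X2 * X3) (h1 : X2 * X1 = X1 * X2)
    (h2 : X3 * X1 = X1 * X3) :
    (tab3.map (fun h => (h.1 : U) * rev X0 X1 X2 X3 h.2)).sum = sym4 X0 X1 X2 X3 := by
  have h' : ∀ z, X3 * (X2 * z) = X2 * (X3 * z) := fun z => by rw [← mul_assoc, h, mul_assoc]
  have h1' : ∀ z, X2 * (X1 * z) = X1 * (X2 * z) := fun z => by rw [← mul_assoc, h1, mul_assoc]
  have h2' : ∀ z, X3 * (X1 * z) = X1 * (X3 * z) := fun z => by rw [← mul_assoc, h2, mul_assoc]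
  simp only [tab3, List.map_cons, List.map_nil, List.sum_cons, List.sum_nil, rev, sym4,
    Nat.cast_one, Nat.cast_ofNat, one_mul, add_zero, mul_assoc, h, h', h1, h1', h2, h2']
  noncomm_ring

theorem adds_item {g : Sy → U} (h5 : (5 : U) = 0) (hg : Comm g)
    {S : Set U} (hS : ∀ l, g l ∈ S)
    (hsym : ∀ u1 u2 u3 u4, LieMonS S u1 → LieMonS S u2 → LieMonS S u3 → LieMonS S u4 →
      sym4 u1 u2 u3 u4 = 0) (i : Item) : Adds g (itemK i) 0 := by
  cases i with
  | t0 k u x xs y ys z zs w ws v =>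
    refine adds_table h5 hg k u v x xs y ys z zs w ws tab0 ?_
    rw [tab0_sum]
    exact hsym _ _ _ _ (brv_lie hS _ _) (brv_lie hS _ _) (brv_lie hS _ _) (brv_lie hS _ _)
  | t2 k u x xs y ys c1 c2 v =>
    refine adds_table h5 hg k u v x xs y ys (.l c1) [] (.l c2) [] tab2 ?_
    rw [tab2_sum (brv g x xs) (brv g y ys) (brv g (.l c1) []) (brv g (.l c2) []) (hg.ll _ _)]
    exact hsym _ _ _ _ (brv_lie hS _ _) (brv_lie hS _ _) (brv_lie hS _ _) (brv_lie hS _ _)
  | t3 k u x xs c1 c2 c3 v =>
    refine adds_table h5 hg k u v x xs (.l c1) [] (.l c2) [] (.l c3) [] tab3 ?_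
    rw [tab3_sum (brv g x xs) (brv g (.l c1) []) (brv g (.l c2) []) (brv g (.l c3) [])
      (hg.ll _ _) (hg.ll _ _) (hg.ll _ _)]
    exact hsym _ _ _ _ (brv_lie hS _ _) (brv_lie hS _ _) (brv_lie hS _ _) (brv_lie hS _ _)

/-- soundness of the check -/
theorem check_sound {g : Sy → U} (h5 : (5 : U) = 0) (hg : Comm g)
    {S : Set U} (hS : ∀ l, g l ∈ S)
    (hsym : ∀ u1 u2 u3 u4, LieMonS S u1 → LieMonS S u2 → LieMonS S u3 → LieMonS S u4 →
      sym4 u1 u2 u3 u4 = 0) (items : List Item) (w0 : List Sy)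
    (h : check items w0 = true) :
    ev g w0 ∈ AddSubgroup.closure {u : U | ∃ w,
      Good (mu w0 0) (nu w0 0) (cd w0 0) (cr w0 0) (cq w0 0) (cl w0 0) 0 0 0 0 0 0 w ∧
        u = ev g w} := by
  unfold check at h
  have A := adds_sumK (fun i => adds_item h5 hg hS hsym i) items
  have B := adds_insK g (preW w0 []) 4
  obtain ⟨t1, h1, h2⟩ := A Tr.z (fun t => insK (preW w0 []) 4 t
    (fun t => allgt (mu w0 0) (nu w0 0) (cd w0 0) (cr w0 0) (cq w0 0) (cl w0 0) t 0 0 0 0 0 0))
  obtain ⟨t2, h3, h4⟩ := B t1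
    (fun t => allgt (mu w0 0) (nu w0 0) (cd w0 0) (cr w0 0) (cq w0 0) (cl w0 0) t 0 0 0 0 0 0)
  rw [h1, h3] at h
  have := allgt_sound (g := g) h5 _ _ _ _ _ _ t2 _ _ _ _ _ _ h
  rw [h4, h2, ev_preW hg, ev_nil, mul_one] at this
  have h0 : val g Tr.z = 0 := rfl
  have h9 : val g Tr.z + (items.map (fun _ => (0 : U))).sum + ((4 : Nat) : U) * ev g w0 =
      - ev g w0 := by
    rw [h0]
    push_cast
    rw [four_eq h5]
    simp
  rw [h9] at this
  exact neg_neg (ev g w0) ▸ AddSubgroup.neg_mem _ this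

end Pool.Agent.MP5c99ad.BC
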