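import Mathlib
import Pool.Agent.Lib.MP_5c99ad_al.BCertB

set_option autoImplicit false

/-!
Pattern induction for words with marks `d, r, q` and commuting letters.
-/

namespace Pool.Agent.MP5c99ad.BC

/-- the marks -/
inductive Mk : Type
  | d | r | q

/-- the symbol of a mark -/
def Mk.sy : Mk → Sy
  | .d => .d
  | .r => .r
  | .q => .q

section Words

variable {U : Type}

/-- first measure of a general word -/
def gmu : List (Mk ⊕ U) → Nat → Nat
  | [], m => m
  | .inl _ :: w, m => gmu w (m * 100)
  | .inr _ :: w, m => gmu w (m + 1)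

/-- second measure of a general word -/
def gnu : List (Mk ⊕ U) → Nat → Nat
  | [], m => m
  | .inl .d :: w, m => gnu w (m * 3)
  | .inl .r :: w, m => gnu w (m * 3 + 1)
  | .inl .q :: w, m => gnu w (m * 3 + 2)
  | .inr _ :: w, m => gnu w m

/-- number of marks `d` -/
def gd : List (Mk ⊕ U) → Nat
  | [] => 0
  | .inl .d :: w => gd w + 1
  | _ :: w => gd w

/-- number of marks `r` -/
def gr : List (Mk ⊕ U) → Nat
  | [] => 0
  | .inl .r :: w => gr w + 1
  | _ :: w => gr w

/-- number of marks `q` -/
def gq : List (Mk ⊕ U) → Nat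
  | [] => 0
  | .inl .q :: w => gq w + 1
  | _ :: w => gq w

/-- number of letters -/
def gl : List (Mk ⊕ U) → Nat
  | [] => 0
  | .inr _ :: w => gl w + 1
  | .inl _ :: w => gl w

theorem gd_append (v w : List (Mk ⊕ U)) : gd (v ++ w) = gd v + gd w := by
  induction v with
  | nil => simp [gd]
  | cons s v ih => rcases s with (_ | _ | _) | _ <;> simp [gd, ih] <;> omega

theorem gr_append (v w : List (Mk ⊕ U)) : gr (v ++ w) = gr v + gr w := by
  induction v with
  | nil => simp [gr]
  | cons s v ih => rcases s with (_ | _ | _) | _ <;> simp [gr, ih] <;> omega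

theorem gq_append (v w : List (Mk ⊕ U)) : gq (v ++ w) = gq v + gq w := by
  induction v with
  | nil => simp [gq]
  | cons s v ih => rcases s with (_ | _ | _) | _ <;> simp [gq, ih] <;> omega

theorem gl_append (v w : List (Mk ⊕ U)) : gl (v ++ w) = gl v + gl w := by
  induction v with
  | nil => simp [gl]
  | cons s v ih => rcases s with (_ | _ | _) | _ <;> simp [gl, ih] <;> omega

theorem gmu_append (v w : List (Mk ⊕ U)) (m : Nat) : gmu (v ++ w) m = gmu w (gmu v m) := by
  induction v generalizing m with
  | nil => rfl
  | cons s v ih => rcases s with (_ | _ | _) | _ <;> simp [gmu, ih]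

theorem gnu_append (v w : List (Mk ⊕ U)) (m : Nat) : gnu (v ++ w) m = gnu w (gnu v m) := by
  induction v generalizing m with
  | nil => rfl
  | cons s v ih => rcases s with (_ | _ | _) | _ <;> simp [gnu, ih]

/-- number of marks -/
def gm (w : List (Mk ⊕ U)) : Nat := gd w + gr w + gq w

theorem gm_cons_inl (s : Mk) (w : List (Mk ⊕ U)) : gm (.inl s :: w) = gm w + 1 := by
  cases s <;> simp [gm, gd, gr, gq] <;> omega

theorem gm_cons_inr (s : U) (w : List (Mk ⊕ U)) : gm (.inr s :: w) = gm w := by
  simp [gm, gd, gr, gq]

theorem gmu_lin (w : List (Mk ⊕ U)) (m : Nat) : gmu w m = m * 100 ^ gm w + gmu w 0 := by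
  induction w generalizing m with
  | nil => simp [gmu, gm, gd, gr, gq]
  | cons s w ih =>
    rcases s with s | s
    · rw [gm_cons_inl]; simp only [gmu]; rw [ih (m * 100), ih (0 * 100)]; ring
    · rw [gm_cons_inr]; simp only [gmu]; rw [ih (m + 1), ih (0 + 1)]; ring

theorem gnu_lin (w : List (Mk ⊕ U)) (m : Nat) : gnu w m = m * 3 ^ gm w + gnu w 0 := by
  induction w generalizing m with
  | nil => simp [gnu, gm, gd, gr, gq]
  | cons s w ih =>
    rcases s with s | s
    · rw [gm_cons_inl]
      cases s
      · simp only [gnu]; rw [ih (m * 3), ih (0 * 3)]; ring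
      · simp only [gnu]; rw [ih (m * 3 + 1), ih (0 * 3 + 1)]; ring
      · simp only [gnu]; rw [ih (m * 3 + 2), ih (0 * 3 + 2)]; ring
    · rw [gm_cons_inr]; simp only [gnu]; exact ih m

theorem gmu_lt (w : List (Mk ⊕ U)) {m n : Nat} (h : m < n) : gmu w m < gmu w n := by
  rw [gmu_lin w m, gmu_lin w n]
  have : m * 100 ^ gm w < n * 100 ^ gm w := Nat.mul_lt_mul_of_pos_right h (by positivity)
  omega

theorem gnu_lt (w : List (Mk ⊕ U)) {m n : Nat} (h : m < n) : gnu w m < gnu w n := by
  rw [gnu_lin w m, gnu_lin w n]
  have : m * 3 ^ gm w < n * 3 ^ gm w := Nat.mul_lt_mul_of_pos_right h (by positivity)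
  omega

theorem gmu_le (w : List (Mk ⊕ U)) (m : Nat) : gmu w m ≤ (m + gl w) * 100 ^ gm w := by
  induction w generalizing m with
  | nil => simp [gmu, gm, gd, gr, gq, gl]
  | cons s w ih =>
    rcases s with s | s
    · rw [gm_cons_inl]; simp only [gmu, gl]
      refine (ih (m * 100)).trans ?_
      rw [pow_succ]
      nlinarith [Nat.pos_of_ne_zero (pow_ne_zero (gm w) (show (100 : Nat) ≠ 0 by norm_num)),
        Nat.zero_le (gl w)]
    · rw [gm_cons_inr]; simp only [gmu, gl]
      refine (ih (m + 1)).trans (le_of_eq ?_)
      ring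

theorem gnu_ub (w : List (Mk ⊕ U)) : gnu w 0 < 3 ^ gm w := by
  have key : ∀ (w : List (Mk ⊕ U)) (m : Nat), gnu w m + 1 ≤ (m + 1) * 3 ^ gm w := by
    intro w
    induction w with
    | nil => intro m; simp [gnu, gm, gd, gr, gq]
    | cons s w ih =>
      intro m
      rcases s with s | s
      · rw [gm_cons_inl, pow_succ]
        have h3 : 0 < 3 ^ gm w := by positivity
        cases s
        · simp only [gnu]; refine (ih (m * 3)).trans ?_; nlinarith
        · simp only [gnu]; refine (ih (m * 3 + 1)).trans ?_; nlinarith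
        · simp only [gnu]; refine (ih (m * 3 + 2)).trans ?_; nlinarith
      · rw [gm_cons_inr]; simp only [gnu]; exact ih m
  have := key w 0
  omega

/-- substitution of the symbols -/
def th (y : Lt → U) : Sy → Mk ⊕ U
  | .d => .inl .d
  | .r => .inl .r
  | .q => .inl .q
  | .l t => .inr (y t)

theorem gmu_th (y : Lt → U) (w : List Sy) (m : Nat) : gmu (w.map (th y)) m = mu w m := by
  induction w generalizing m with
  | nil => rfl
  | cons s w ih => cases s <;> exact ih _

theorem gnu_th (y : Lt → U) (w : List Sy) (m : Nat) : gnu (w.map (th y)) m = nu w m := by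
  induction w generalizing m with
  | nil => rfl
  | cons s w ih => cases s <;> exact ih _

theorem gd_th (y : Lt → U) (w : List Sy) (m : Nat) : m + gd (w.map (th y)) = cd w m := by
  induction w generalizing m with
  | nil => rfl
  | cons s w ih =>
    cases s
    · have := ih (m + 1)
      show m + (gd (w.map (th y)) + 1) = cd w (m + 1)
      omega
    · exact ih m
    · exact ih m
    · exact ih m

theorem gr_th (y : Lt → U) (w : List Sy) (m : Nat) : m + gr (w.map (th y)) = cr w m := by
  induction w generalizing m with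
  | nil => rfl
  | cons s w ih =>
    cases s
    · exact ih m
    · have := ih (m + 1)
      show m + (gr (w.map (th y)) + 1) = cr w (m + 1)
      omega
    · exact ih m
    · exact ih m

theorem gq_th (y : Lt → U) (w : List Sy) (m : Nat) : m + gq (w.map (th y)) = cq w m := by
  induction w generalizing m with
  | nil => rfl
  | cons s w ih =>
    cases s
    · exact ih m
    · exact ih m
    · have := ih (m + 1)
      show m + (gq (w.map (th y)) + 1) = cq w (m + 1)
      omega
    · exact ih m

theorem gl_th (y : Lt → U) (w : List Sy) (m : Nat) : m + gl (w.map (th y)) = cl w m := by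
  induction w generalizing m with
  | nil => rfl
  | cons s w ih =>
    cases s
    · exact ih m
    · exact ih m
    · exact ih m
    · have := ih (m + 1)
      show m + (gl (w.map (th y)) + 1) = cl w (m + 1)
      omega

end Words

section Step

variable {U : Type} [Ring U]

/-- the value of a general word -/
def evG (X : Mk → U) (w : List (Mk ⊕ U)) : U := (w.map (Sum.elim X id)).prod

theorem evG_append (X : Mk → U) (v w : List (Mk ⊕ U)) : evG X (v ++ w) = evG X v * evG X w := by
  simp [evG]

theorem evG_th (X : Mk → U) (y : Lt → U) (w : List Sy) :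
    evG X (w.map (th y)) = ev (fun s => Sum.elim X id (th y s)) w := by
  simp only [evG, ev, List.map_map]
  rfl

/-- the setting -/
structure Setting (X : Mk → U) (Y : Set U) {A : Type} [AddCommGroup A] (φ : U →+ A) : Prop where
  five : (5 : U) = 0
  rd : X .r * X .d = X .d * X .r
  qd : X .q * X .d = X .d * X .q
  yy : ∀ y ∈ Y, ∀ z ∈ Y, y * z = z * y
  sym : ∀ u1 u2 u3 u4, LieMonS (Set.range X ∪ Y) u1 → LieMonS (Set.range X ∪ Y) u2 →
    LieMonS (Set.range X ∪ Y) u3 → LieMonS (Set.range X ∪ Y) u4 → sym4 u1 u2 u3 u4 = 0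
  left : ∀ y ∈ Y, ∀ v, φ (y * v) = 0

/-- content of a general word -/
structure Cont (Y : Set U) (I J K H : Nat) (w : List (Mk ⊕ U)) : Prop where
  hi : gd w = I
  hj : gr w = J
  hk : gq w = K
  hh : gl w = H
  hy : ∀ y, Sum.inr y ∈ w → y ∈ Y

/-- combined measure -/
def Mz (w : List (Mk ⊕ U)) : Nat := gmu w 0 * 3 ^ gm w + gnu w 0

theorem window_step {X : Mk → U} {Y : Set U} {A : Type} [AddCommGroup A] {φ : U →+ A}
    (hS : Setting X Y φ) (items : List Item) (w0 : List Sy) (hc : check items w0 = true)
    (y : Lt → U) (hy : ∀ t, y t ∈ Y) (P T : List (Mk ⊕ U)) {I J K H : Nat}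
    (hcont : Cont Y I J K H (P ++ w0.map (th y) ++ T))
    (ih : ∀ w : List (Mk ⊕ U), Cont Y I J K H w → Mz (P ++ w0.map (th y) ++ T) < Mz w →
      φ (evG X w) = 0) : φ (evG X (P ++ w0.map (th y) ++ T)) = 0 := by
  let g : Sy → U := fun s => Sum.elim X id (th y s)
  have hg : Comm g := ⟨hS.rd, hS.qd, fun s t => hS.yy _ (hy s) _ (hy t)⟩
  have hgS : ∀ l, g l ∈ Set.range X ∪ Y := by
    intro l
    cases l with
    | d => exact Or.inl ⟨.d, rfl⟩
    | r => exact Or.inl ⟨.r, rfl⟩
    | q => exact Or.inl ⟨.q, rfl⟩
    | l t => exact Or.inr (hy t)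
  have key := check_sound hS.five hg hgS hS.sym items w0 hc
  have hev : evG X (w0.map (th y)) = ev g w0 := evG_th X y w0
  rw [evG_append, evG_append, hev]
  have gen : ∀ u ∈ AddSubgroup.closure {u : U | ∃ w,
      Good (mu w0 0) (nu w0 0) (cd w0 0) (cr w0 0) (cq w0 0) (cl w0 0) 0 0 0 0 0 0 w ∧
        u = ev g w}, φ (evG X P * u * evG X T) = 0 := by
    intro u hu
    induction hu using AddSubgroup.closure_induction with
    | mem u hu =>
      obtain ⟨w, hw, rfl⟩ := hu
      have e1 : evG X P * ev g w * evG X T = evG X (P ++ w.map (th y) ++ T) := by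
        rw [evG_append, evG_append, evG_th]
      rw [e1]
      have d1 : gd (w.map (th y)) = gd (w0.map (th y)) := by
        have a1 := gd_th y w 0; have a2 := gd_th y w0 0; have := hw.hi; omega
      have d2 : gr (w.map (th y)) = gr (w0.map (th y)) := by
        have a1 := gr_th y w 0; have a2 := gr_th y w0 0; have := hw.hj; omega
      have d3 : gq (w.map (th y)) = gq (w0.map (th y)) := by
        have a1 := gq_th y w 0; have a2 := gq_th y w0 0; have := hw.hk; omega
      have d4 : gl (w.map (th y)) = gl (w0.map (th y)) := by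
        have a1 := gl_th y w 0; have a2 := gl_th y w0 0; have := hw.hh; omega
      have dm : gm (w.map (th y)) = gm (w0.map (th y)) := by
        simp only [gm, d1, d2, d3]
      have dM : gm (P ++ w.map (th y) ++ T) = gm (P ++ w0.map (th y) ++ T) := by
        simp only [gm, gd_append, gr_append, gq_append, d1, d2, d3]
      refine ih _ ⟨?_, ?_, ?_, ?_, ?_⟩ ?_
      · rw [← hcont.hi]; simp only [gd_append, d1]
      · rw [← hcont.hj]; simp only [gr_append, d2]
      · rw [← hcont.hk]; simp only [gq_append, d3]
      · rw [← hcont.hh]; simp only [gl_append, d4]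
      · intro z hz
        rw [List.mem_append, List.mem_append] at hz
        rcases hz with (hz | hz) | hz
        · exact hcont.hy z (by simp [hz])
        · obtain ⟨s, _, hs⟩ := List.mem_map.1 hz
          cases s with
          | d => exact absurd hs (by simp [th])
          | r => exact absurd hs (by simp [th])
          | q => exact absurd hs (by simp [th])
          | l t =>
            have : y t = z := by simpa [th] using hs
            rw [← this]; exact hy t
        · exact hcont.hy z (by simp [hz])
      · unfold Mz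
        rw [dM]
        have hnu := gnu_ub (P ++ w0.map (th y) ++ T)
        set G := gm (P ++ w0.map (th y) ++ T) with hG
        rcases hw.hm with h1 | ⟨h1, h2⟩
        · have h3 : gmu (P ++ w0.map (th y) ++ T) 0 < gmu (P ++ w.map (th y) ++ T) 0 := by
            rw [gmu_append, gmu_append, gmu_append, gmu_append]
            refine gmu_lt T ?_
            rw [gmu_lin (w0.map (th y)), gmu_lin (w.map (th y)), dm, gmu_th, gmu_th]
            omega
          have h4 : (gmu (P ++ w0.map (th y) ++ T) 0 + 1) * 3 ^ G ≤
              gmu (P ++ w.map (th y) ++ T) 0 * 3 ^ G := Nat.mul_le_mul_right _ h3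
          rw [add_mul, one_mul] at h4
          omega
        · have h3 : gmu (P ++ w0.map (th y) ++ T) 0 = gmu (P ++ w.map (th y) ++ T) 0 := by
            rw [gmu_append, gmu_append, gmu_append, gmu_append]
            congr 1
            rw [gmu_lin (w0.map (th y)), gmu_lin (w.map (th y)), dm, gmu_th, gmu_th, h1]
          have h4 : gnu (P ++ w0.map (th y) ++ T) 0 < gnu (P ++ w.map (th y) ++ T) 0 := by
            rw [gnu_append, gnu_append, gnu_append, gnu_append]
            refine gnu_lt T ?_
            rw [gnu_lin (w0.map (th y)), gnu_lin (w.map (th y)), dm, gnu_th, gnu_th]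
            omega
          rw [h3]
          omega
    | zero => simp
    | add a b _ _ ha hb => rw [mul_add, add_mul, map_add, ha, hb, add_zero]
    | neg a _ ha => rw [mul_neg, neg_mul, map_neg, ha, neg_zero]
  exact gen _ key

end Step

end Pool.Agent.MP5c99ad.BC
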