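import Mathlib
import Pool.Agent.Lib.MP_5c99ad_al.BCertC

set_option autoImplicit false

/-!
Windows, coverage of all patterns, and the marked vanishing theorem.
-/

namespace Pool.Agent.MP5c99ad.BC

/-- equality of marks -/
noncomputable def beqM (m n : Mk) : Bool :=
  @Mk.rec (fun _ => Bool) (@Mk.rec (fun _ => Bool) true false false n)
    (@Mk.rec (fun _ => Bool) false true false n) (@Mk.rec (fun _ => Bool) false false true n) m

theorem beqM_eq {m n : Mk} (h : beqM m n = true) : m = n := by
  cases m <;> cases n <;> first | rfl | exact absurd h (by simp [beqM])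

/-- the window pattern `wp` matches at the beginning of the pattern -/
noncomputable def pm (wp : List (Mk × Nat)) : List (Mk × Nat) → Bool :=
  @List.rec (Mk × Nat) (fun _ => List (Mk × Nat) → Bool) (fun _ => true)
    (fun w ws ih p => @List.rec (Mk × Nat) (fun _ => Bool) false
      (fun h t _ => band (beqM w.1 h.1)
        (@List.rec (Mk × Nat) (fun _ => Bool) (Nat.ble w.2 h.2)
          (fun _ _ _ => band (Nat.beq w.2 h.2) (ih t)) ws)) p) wp

/-- some window matches at the beginning -/
noncomputable def found (W : List (List (Mk × Nat))) (p : List (Mk × Nat)) : Bool :=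
  @List.rec (List (Mk × Nat)) (fun _ => Bool) false
    (fun w _ ih => @Bool.rec (fun _ => Bool) ih true (pm w p)) W

/-- disjunction -/
noncomputable def bor (a b : Bool) : Bool := @Bool.rec (fun _ => Bool) b true a

/-- coverage test: patterns are extended at the front -/
noncomputable def cov (W : List (List (Mk × Nat))) (fuel : Nat) :
    Nat → Nat → Nat → List (Mk × Nat) → Bool :=
  @Nat.rec (fun _ => Nat → Nat → Nat → List (Mk × Nat) → Bool) (fun _ _ _ _ => false)
    (fun _ ih i j k p =>
      band (@Nat.rec (fun _ => Bool) true (fun i' _ =>
        band (bor (found W ((.d, 0) :: p)) (ih i' j k ((.d, 0) :: p)))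
        (band (bor (found W ((.d, 1) :: p)) (ih i' j k ((.d, 1) :: p)))
          (bor (found W ((.d, 2) :: p)) (ih i' j k ((.d, 2) :: p))))) i)
      (band (@Nat.rec (fun _ => Bool) true (fun j' _ =>
        band (bor (found W ((.r, 0) :: p)) (ih i j' k ((.r, 0) :: p)))
        (band (bor (found W ((.r, 1) :: p)) (ih i j' k ((.r, 1) :: p)))
          (bor (found W ((.r, 2) :: p)) (ih i j' k ((.r, 2) :: p))))) j)
      (@Nat.rec (fun _ => Bool) true (fun k' _ =>
        band (bor (found W ((.q, 0) :: p)) (ih i j k' ((.q, 0) :: p)))
        (band (bor (found W ((.q, 1) :: p)) (ih i j k' ((.q, 1) :: p)))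
          (bor (found W ((.q, 2) :: p)) (ih i j k' ((.q, 2) :: p))))) k))) fuel

theorem bor_true {a b : Bool} (h : bor a b = true) : a = true ∨ b = true := by
  cases a with
  | false => exact Or.inr h
  | true => exact Or.inl rfl

/-- marks in a pattern -/
noncomputable def pc (m : Mk) : List (Mk × Nat) → Nat
  | [] => 0
  | x :: p => (if beqM m x.1 then 1 else 0) + pc m p

theorem cov_sound (W : List (List (Mk × Nat))) : ∀ (fuel i j k : Nat) (p : List (Mk × Nat)),
    cov W fuel i j k p = true → ∀ ql : List (Mk × Nat), ql.length = fuel →
    pc .d ql = i → pc .r ql = j → pc .q ql = k → (∀ x ∈ ql, x.2 ≤ 2) →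
    ∃ s1 s2, ql.reverse ++ p = s1 ++ s2 ∧ found W s2 = true := by
  intro fuel
  induction fuel with
  | zero => intro i j k p h; exact absurd h (by simp [cov])
  | succ fuel ih =>
    intro i j k p h ql hl hi hj hk hg
    cases ql with
    | nil => simp at hl
    | cons x ql =>
      obtain ⟨m, g⟩ := x
      have hg2 : g ≤ 2 := hg (m, g) (by simp)
      have hg' : ∀ x ∈ ql, x.2 ≤ 2 := fun x hx => hg x (by simp [hx])
      have hl' : ql.length = fuel := by simpa using hl
      have fin : ∀ i' j' k', pc .d ql = i' → pc .r ql = j' → pc .q ql = k' →
          bor (found W ((m, g) :: p)) (cov W fuel i' j' k' ((m, g) :: p)) = true →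
          ∃ s1 s2, ((m, g) :: ql).reverse ++ p = s1 ++ s2 ∧ found W s2 = true := by
        intro i' j' k' h1 h2 h3 hb
        have e : ((m, g) :: ql).reverse ++ p = ql.reverse ++ ((m, g) :: p) := by simp
        rw [e]
        rcases bor_true hb with hb | hb
        · exact ⟨ql.reverse, (m, g) :: p, rfl, hb⟩
        · exact ih i' j' k' _ hb ql hl' h1 h2 h3 hg'
      obtain ⟨hd, h⟩ := band_true h
      obtain ⟨hr, hq⟩ := band_true h
      cases m with
      | d =>
        have hi' : pc .d ql + 1 = i := by rw [← hi]; simp [pc, beqM]; omega
        have hj' : pc .r ql = j := by rw [← hj]; simp [pc, beqM]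
        have hk' : pc .q ql = k := by rw [← hk]; simp [pc, beqM]
        rw [← hi'] at hd
        obtain ⟨a0, hd⟩ := band_true hd
        obtain ⟨a1, a2⟩ := band_true hd
        interval_cases g
        · exact fin _ _ _ rfl hj' hk' a0
        · exact fin _ _ _ rfl hj' hk' a1
        · exact fin _ _ _ rfl hj' hk' a2
      | r =>
        have hi' : pc .d ql = i := by rw [← hi]; simp [pc, beqM]
        have hj' : pc .r ql + 1 = j := by rw [← hj]; simp [pc, beqM]; omega
        have hk' : pc .q ql = k := by rw [← hk]; simp [pc, beqM]
        rw [← hj'] at hr
        obtain ⟨a0, hr⟩ := band_true hr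
        obtain ⟨a1, a2⟩ := band_true hr
        interval_cases g
        · exact fin _ _ _ hi' rfl hk' a0
        · exact fin _ _ _ hi' rfl hk' a1
        · exact fin _ _ _ hi' rfl hk' a2
      | q =>
        have hi' : pc .d ql = i := by rw [← hi]; simp [pc, beqM]
        have hj' : pc .r ql = j := by rw [← hj]; simp [pc, beqM]
        have hk' : pc .q ql + 1 = k := by rw [← hk]; simp [pc, beqM]; omega
        rw [← hk'] at hq
        obtain ⟨a0, hq⟩ := band_true hq
        obtain ⟨a1, a2⟩ := band_true hq
        interval_cases g
        · exact fin _ _ _ hi' hj' rfl a0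
        · exact fin _ _ _ hi' hj' rfl a1
        · exact fin _ _ _ hi' hj' rfl a2

theorem found_mem {W : List (List (Mk × Nat))} {p : List (Mk × Nat)} (h : found W p = true) :
    ∃ w ∈ W, pm w p = true := by
  induction W with
  | nil => exact absurd h (by simp [found])
  | cons w W ih =>
    cases hw : pm w p with
    | true => exact ⟨w, by simp, hw⟩
    | false =>
      have h' : @Bool.rec (fun _ => Bool) (found W p) true (pm w p) = true := h
      rw [hw] at h'
      obtain ⟨w', h1, h2⟩ := ih h'
      exact ⟨w', by simp [h1], h2⟩

/-- the six letters -/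
def L6 : List Lt := [.a, .b, .c, .e, .f, .g]

/-- the word of a window pattern -/
def cw : List (Mk × Nat) → Nat → List Sy
  | [], _ => []
  | w :: ws, j => w.1.sy :: (((L6.drop j).take w.2).map Sy.l ++ cw ws (j + w.2))

/-- number of letters of a window -/
def tot : List (Mk × Nat) → Nat
  | [] => 0
  | w :: ws => w.2 + tot ws

theorem rk_L6 : ∀ k : Nat, (h : k < L6.length) → rk (L6[k]) = k := by
  intro k h
  have : k < 6 := h
  interval_cases k <;> rfl

section Match

variable {U : Type} [Zero U]

theorem L6_getD (yl : List U) (j g : Nat) (h6 : j + g ≤ 6) (hl : j + g ≤ yl.length) :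
    ((L6.drop j).take g).map (fun t => yl.getD (rk t) 0) = (yl.drop j).take g := by
  have hL : L6.length = 6 := rfl
  apply List.ext_getElem
  · simp [hL]; omega
  · intro i h1 h2
    have hi : i < g := by simp at h2; omega
    rw [List.getElem_map, List.getElem_take, List.getElem_drop, List.getElem_take,
      List.getElem_drop, rk_L6 (j + i) (by rw [hL]; omega)]
    rw [List.getD_eq_getElem _ _ (by omega)]

/-- the word of a list of blocks -/
def flat : List (Mk × List U) → List (Mk ⊕ U)
  | [] => []
  | b :: B => .inl b.1 :: (b.2.map .inr ++ flat B)

/-- the pattern of a list of blocks -/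
def pat (B : List (Mk × List U)) : List (Mk × Nat) := B.map (fun b => (b.1, b.2.length))

theorem th_sy (y : Lt → U) (m : Mk) : th y m.sy = .inl m := by cases m <;> rfl

theorem match_flat : ∀ (wp : List (Mk × Nat)) (B : List (Mk × List U)) (pr : List U),
    wp ≠ [] → pm wp (pat B) = true → pr.length + tot wp ≤ 6 →
    ∃ yl T, pr <+: yl ∧ (∀ z ∈ yl, z ∈ pr ∨ Sum.inr z ∈ flat B) ∧
      pr.length + tot wp ≤ yl.length ∧
      flat B = (cw wp pr.length).map (th (fun t => yl.getD (rk t) 0)) ++ T := by
  intro wp
  induction wp with
  | nil => intro B pr h; exact absurd rfl h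
  | cons w ws ih =>
    intro B pr _ hm h6
    cases B with
    | nil => exact absurd hm (by simp [pm, pat])
    | cons b B =>
      obtain ⟨m, A⟩ := b
      obtain ⟨hm1, hm2⟩ := band_true hm
      have hmm : w.1 = m := beqM_eq hm1
      cases ws with
      | nil =>
        have hle : w.2 ≤ A.length := Nat.le_of_ble_eq_true hm2
        have ht : tot [w] = w.2 := by simp [tot]
        rw [ht] at h6
        refine ⟨pr ++ A.take w.2, (A.drop w.2).map .inr ++ flat B, List.prefix_append _ _,
          ?_, ?_, ?_⟩
        · intro z hz
          rw [List.mem_append] at hz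
          rcases hz with hz | hz
          · exact Or.inl hz
          · right
            simp only [flat, List.mem_cons, List.mem_append, List.mem_map]
            right; left
            exact ⟨z, List.mem_of_mem_take hz, rfl⟩
        · rw [ht]; simp; omega
        · have key := L6_getD (pr ++ A.take w.2) pr.length w.2 h6 (by simp; omega)
          simp only [cw, flat, List.map_cons, List.map_append, List.map_map, th_sy, hmm,
            List.map_nil, List.append_nil, List.cons_append, List.append_assoc]
          congr 1
          have e1 : (List.map (th (fun t => (pr ++ A.take w.2).getD (rk t) 0) ∘ Sy.l)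
              (List.take w.2 (List.drop pr.length L6))) =
              (((L6.drop pr.length).take w.2).map
                (fun t => (pr ++ A.take w.2).getD (rk t) 0)).map Sum.inr := by
            rw [List.map_map]; rfl
          rw [e1, key, List.drop_left', List.take_take, min_self, ← List.append_assoc,
            ← List.map_append, List.take_append_drop]
          rfl
      | cons w2 ws2 =>
        obtain ⟨hm3, hm4⟩ := band_true hm2
        have hlen : w.2 = A.length := Nat.eq_of_beq_eq_true hm3
        have ht : tot (w :: w2 :: ws2) = w.2 + tot (w2 :: ws2) := rfl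
        obtain ⟨yl, T, hp, hz, hlen2, hf⟩ := ih B (pr ++ A) (by simp) hm4
          (by rw [List.length_append]; rw [ht] at h6; omega)
        refine ⟨yl, T, (List.prefix_append pr A).trans hp, ?_, ?_, ?_⟩
        · intro z hz'
          rcases hz z hz' with h | h
          · rw [List.mem_append] at h
            rcases h with h | h
            · exact Or.inl h
            · right
              simp only [flat, List.mem_cons, List.mem_append, List.mem_map]
              right; left
              exact ⟨z, h, rfl⟩
          · right
            simp only [flat, List.mem_cons, List.mem_append]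
            right; right
            exact h
        · rw [List.length_append] at hlen2; rw [ht]; omega
        · have key := L6_getD yl pr.length w.2 (by rw [ht] at h6; omega)
            (by rw [List.length_append] at hlen2; omega)
          have hA : (yl.drop pr.length).take w.2 = A := by
            obtain ⟨s, rfl⟩ := hp
            rw [List.append_assoc, List.drop_left' rfl, hlen, List.take_left']
            rfl
          rw [hA] at key
          have e1 : (List.map (th (fun t => yl.getD (rk t) 0) ∘ Sy.l)
              (List.take w.2 (List.drop pr.length L6))) =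
              (((L6.drop pr.length).take w.2).map (fun t => yl.getD (rk t) 0)).map Sum.inr := by
            rw [List.map_map]; rfl
          rw [show cw (w :: w2 :: ws2) pr.length = w.1.sy ::
            (((L6.drop pr.length).take w.2).map Sy.l ++ cw (w2 :: ws2) (pr.length + w.2)) from rfl]
          rw [show flat ((m, A) :: B) = .inl m :: (A.map .inr ++ flat B) from rfl]
          rw [List.length_append] at hf
          rw [List.map_cons, List.map_append, List.map_map, e1, key, th_sy, hmm, hf, hlen]
          simp only [List.cons_append, List.append_assoc]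

end Match

end Pool.Agent.MP5c99ad.BC
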