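import Mathlib
import Pool.Agent.Lib.MP_5c99ad_al.SoftA

set_option autoImplicit false

/-!
Soft vanishing theorem with several marked letters, part B: filtrations and approximation of Lie
monomials.
-/

namespace Pool.Agent.MP5c99ad

universe u

section FiltG

variable {ι : Type} [DecidableEq ι] {G : Type u} {R : Type u} [Group G] [Ring R] (ρ : G →* R)

/-- letters: `inl i` is the marked letter `x i - 1`, the others are differences with a weight -/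
abbrev LG (ι : Type) : Type u := ι ⊕ {p : G × ℕ // 1 ≤ p.2 ∧ ρ p.1 - 1 ∈ Ip ρ p.2}

variable (x : ι → G)

def valG : LG ρ ι → R
  | .inl i => ρ (x i) - 1
  | .inr p => ρ p.1.1 - 1

def wLG : LG ρ ι → ℕ
  | .inl _ => 1
  | .inr p => p.1.2

def cLG : LG ρ ι → (ι → ℕ)
  | .inl i => Pi.single i 1
  | .inr _ => 0

def nLG : LG ρ ι → ℕ
  | .inl _ => 0
  | .inr _ => 1

def evG (w : List (LG ρ ι)) : R := (w.map (valG ρ x)).prod
def wtG (w : List (LG ρ ι)) : ℕ := (w.map (wLG ρ)).sum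
def ctG (w : List (LG ρ ι)) : ι → ℕ := (w.map (cLG ρ)).sum
def ntG (w : List (LG ρ ι)) : ℕ := (w.map (nLG ρ)).sum

theorem wLG_pos (l : LG ρ ι) : 1 ≤ wLG ρ l := by
  cases l with
  | inl _ => exact le_refl _
  | inr p => exact p.2.1

theorem valG_mem (l : LG ρ ι) : valG ρ x l ∈ Ip ρ (wLG ρ l) := by
  cases l with
  | inl i => exact diff_mem ρ (x i)
  | inr p => exact p.2.2

theorem evG_append (w w' : List (LG ρ ι)) : evG ρ x (w ++ w') = evG ρ x w * evG ρ x w' := by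
  simp [evG]

theorem wtG_append (w w' : List (LG ρ ι)) : wtG ρ (w ++ w') = wtG ρ w + wtG ρ w' := by
  simp [wtG]

theorem ctG_append (w w' : List (LG ρ ι)) : ctG ρ (w ++ w') = ctG ρ w + ctG ρ w' := by
  simp [ctG]

theorem ntG_append (w w' : List (LG ρ ι)) : ntG ρ (w ++ w') = ntG ρ w + ntG ρ w' := by
  simp [ntG]

/-- the double filtration -/
def MG (a : ι → ℕ) (d : ℕ) : AddSubgroup R :=
  AddSubgroup.closure {r | ∃ w : List (LG ρ ι), a ≤ ctG ρ w ∧ d ≤ wtG ρ w ∧ r = evG ρ x w}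

theorem evG_mem (w : List (LG ρ ι)) : evG ρ x w ∈ MG ρ x (ctG ρ w) (wtG ρ w) :=
  AddSubgroup.subset_closure ⟨w, le_refl _, le_refl _, rfl⟩

theorem MG_mul (a : ι → ℕ) (d : ℕ) (a' : ι → ℕ) (d' : ℕ) (r s : R) (hr : r ∈ MG ρ x a d)
    (hs : s ∈ MG ρ x a' d') : r * s ∈ MG ρ x (a + a') (d + d') := by
  refine closure_mul_mem hr hs ?_
  rintro _ ⟨w, h1, h2, rfl⟩ _ ⟨w', h1', h2', rfl⟩
  refine AddSubgroup.subset_closure ⟨w ++ w', ?_, ?_, (evG_append ρ x w w').symm⟩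
  · rw [ctG_append]; exact add_le_add h1 h1'
  · rw [wtG_append]; omega

theorem MG_anti (a : ι → ℕ) (d : ℕ) (a' : ι → ℕ) (d' : ℕ) (ha : a ≤ a') (hd : d ≤ d') :
    MG ρ x a' d' ≤ MG ρ x a d := by
  refine AddSubgroup.closure_mono ?_
  rintro _ ⟨w, h1, h2, rfl⟩
  exact ⟨w, ha.trans h1, hd.trans h2, rfl⟩

theorem one_mem_MG : (1 : R) ∈ MG ρ x 0 0 :=
  AddSubgroup.subset_closure ⟨[], by simp [ctG], by simp, by simp [evG]⟩

theorem diff_mem_MG (g : G) : ρ g - 1 ∈ MG ρ x 0 1 :=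
  AddSubgroup.subset_closure ⟨[.inr ⟨(g, 1), le_refl _, diff_mem ρ g⟩], by simp [ctG, cLG],
    by simp [wtG, wLG], by simp [evG, valG]⟩

theorem mark_mem_MG (i : ι) : ρ (x i) - 1 ∈ MG ρ x (Pi.single i 1) 1 :=
  AddSubgroup.subset_closure ⟨[.inl i], by simp [ctG, cLG], by simp [wtG, wLG],
    by simp [evG, valG]⟩

theorem rho_mem_MG (g : G) : ρ g ∈ MG ρ x 0 0 := by
  have h := AddSubgroup.add_mem _ (MG_anti ρ x 0 0 0 1 (le_refl _) (by omega) (diff_mem_MG ρ x g))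
    (one_mem_MG ρ x)
  simpa using h

theorem dprod_mem_MG (l : List G) : dprod ρ l ∈ MG ρ x 0 0 := by
  induction l with
  | nil => simpa [dprod] using one_mem_MG ρ x
  | cons g l ih =>
    have e : dprod ρ (g :: l) = (ρ g - 1) * dprod ρ l := by simp [dprod]
    rw [e]
    have := MG_mul ρ x 0 0 0 0 _ _ (MG_anti ρ x 0 0 0 1 (le_refl _) (by omega) (diff_mem_MG ρ x g)) ih
    simpa using this

theorem Ip_le_MG (k : ℕ) : Ip ρ k ≤ MG ρ x 0 0 := by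
  refine (AddSubgroup.closure_le _).2 ?_
  rintro _ ⟨h, l, -, rfl⟩
  have := MG_mul ρ x 0 0 0 0 _ _ (rho_mem_MG ρ x h) (dprod_mem_MG ρ x l)
  simpa using this

theorem evG_mem_Ip (w : List (LG ρ ι)) : evG ρ x w ∈ Ip ρ (wtG ρ w) := by
  induction w with
  | nil =>
    simp only [evG, wtG, List.map_nil, List.prod_nil, List.sum_nil]
    have := rho_mem ρ 1
    rwa [map_one] at this
  | cons l w ih =>
    have e : evG ρ x (l :: w) = valG ρ x l * evG ρ x w := by simp [evG]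
    have e2 : wtG ρ (l :: w) = wLG ρ l + wtG ρ w := by simp [wtG]
    rw [e, e2]
    exact Ip_mul ρ (valG_mem ρ x l) ih

theorem MG_bot {N : ℕ} (hN : Ip ρ N = ⊥) (a : ι → ℕ) : MG ρ x a N = ⊥ := by
  rw [eq_bot_iff]
  refine (AddSubgroup.closure_le _).2 ?_
  rintro _ ⟨w, -, hw, rfl⟩
  have := Ip_anti ρ hw (evG_mem_Ip ρ x w)
  rw [hN] at this
  exact this

/-- membership with explicit bookkeeping -/
theorem MG_mul' {a a' A : ι → ℕ} {d d' D : ℕ} {r s : R} (hr : r ∈ MG ρ x a d)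
    (hs : s ∈ MG ρ x a' d') (hA : A ≤ a + a') (hD : D ≤ d + d') : r * s ∈ MG ρ x A D :=
  MG_anti ρ x _ _ _ _ hA hD (MG_mul ρ x _ _ _ _ _ _ hr hs)

theorem prod4 {a b c d : ι → ℕ} {i j k l : ℕ} {r s t u : R} (h1 : r ∈ MG ρ x a i)
    (h2 : s ∈ MG ρ x b j) (h3 : t ∈ MG ρ x c k) (h4 : u ∈ MG ρ x d l) {A : ι → ℕ} {D : ℕ}
    (hA : A ≤ a + b + c + d) (hD : D ≤ i + j + k + l) : r * s * t * u ∈ MG ρ x A D :=
  MG_anti ρ x _ _ _ _ hA hD (MG_mul ρ x _ _ _ _ _ _ (MG_mul ρ x _ _ _ _ _ _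
    (MG_mul ρ x _ _ _ _ _ _ h1 h2) h3) h4)

theorem MG_sym4 {a1 a2 a3 a4 A : ι → ℕ} {d1 d2 d3 d4 D : ℕ} {a b c d : R} (ha : a ∈ MG ρ x a1 d1)
    (hb : b ∈ MG ρ x a2 d2) (hc : c ∈ MG ρ x a3 d3) (hd : d ∈ MG ρ x a4 d4)
    (hA : A ≤ a1 + a2 + a3 + a4) (hD : D ≤ d1 + d2 + d3 + d4) : sym4 a b c d ∈ MG ρ x A D := by
  unfold sym4
  refine AddSubgroup.add_mem _ (AddSubgroup.add_mem _ (AddSubgroup.add_mem _ (AddSubgroup.add_mem _ (AddSubgroup.add_mem _ (AddSubgroup.add_mem _ (AddSubgroup.add_mem _ (AddSubgroup.add_mem _ (AddSubgroup.add_mem _ (AddSubgroup.add_mem _ (AddSubgroup.add_mem _ (AddSubgroup.add_mem _ (AddSubgroup.add_mem _ (AddSubgroup.add_mem _ (AddSubgroup.add_mem _ (AddSubgroup.add_mem _ (AddSubgroup.add_mem _ (AddSubgroup.add_mem _ (AddSubgroup.add_mem _ (AddSubgroup.add_mem _ (AddSubgroup.add_mem _ (AddSubgroup.add_mem _ (AddSubgroup.add_mem _ (prod4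 ρ x ha hb hc hd ?_ ?_) (prod4 ρ x ha hb hd hc ?_ ?_)) (prod4 ρ x ha hc hb hd ?_ ?_)) (prod4 ρ x ha hc hd hb ?_ ?_)) (prod4 ρ x ha hd hb hc ?_ ?_)) (prod4 ρ x ha hd hc hb ?_ ?_)) (prod4 ρ x hb ha hc hd ?_ ?_)) (prod4 ρ x hb ha hd hc ?_ ?_)) (prod4 ρ x hb hc ha hd ?_ ?_)) (prod4 ρ x hb hc hd ha ?_ ?_)) (prod4 ρ x hb hd ha hc ?_ ?_)) (prod4 ρ x hb hd hc ha ?_ ?_)) (prod4 ρ x hc ha hb hd ?_ ?_)) (prod4 ρ x hc ha hd hb ?_ ?_)) (prod4 ρ x hc hb ha hd ?_ ?_)) (prod4 ρ x hc hb hd ha ?_ ?_)) (prod4 ρ x hc hd ha hb ?_ ?_)) (prod4 ρ x hc hd hb ha ?_ ?_)) (prod4 ρ x hd ha hb hc ?_ ?_)) (prod4 ρ x hd ha hc hb ?_ ?_)) (prod4 ρ x hd hb ha hc ?_ ?_)) (prod4 ρ x hd hb hc ha ?_ ?_)) (prod4 ρ x hd hc ha hb ?_ ?_)) (prod4 ρ x hd hc hb ha ?_ ?_)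
  all_goals first
    | omega
    | (refine hA.trans (le_of_eq ?_); abel)

def cMG (κ : Multiset (LG ρ ι)) : ι → ℕ := (κ.map (cLG ρ)).sum
def wMG (κ : Multiset (LG ρ ι)) : ℕ := (κ.map (wLG ρ)).sum
def nMG (κ : Multiset (LG ρ ι)) : ℕ := (κ.map (nLG ρ)).sum

theorem cMG_coe (l : List (LG ρ ι)) : cMG ρ (l : Multiset (LG ρ ι)) = ctG ρ l := by
  simp [cMG, ctG]

theorem wMG_coe (l : List (LG ρ ι)) : wMG ρ (l : Multiset (LG ρ ι)) = wtG ρ l := by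
  simp [wMG, wtG]

theorem nMG_coe (l : List (LG ρ ι)) : nMG ρ (l : Multiset (LG ρ ι)) = ntG ρ l := by
  simp [nMG, ntG]

theorem cMG_add (κ μ : Multiset (LG ρ ι)) : cMG ρ (κ + μ) = cMG ρ κ + cMG ρ μ := by simp [cMG]
theorem wMG_add (κ μ : Multiset (LG ρ ι)) : wMG ρ (κ + μ) = wMG ρ κ + wMG ρ μ := by simp [wMG]

/-- the marked letters in the free ring -/
noncomputable def XG (i : ι) : FR (LG ρ ι) := wd [.inl i]
/-- the other letters in the free ring -/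
def YG (ι : Type) : Set (FR (LG ρ ι)) := {r | ∃ p, r = wd [.inr p]}

theorem evFG_eq (l : List (LG ρ ι)) : evF (valG ρ x) (wd l) = evG ρ x l := evF_wd _ _

theorem evFG_mem {κ : Multiset (LG ρ ι)} {a : FR (LG ρ ι)} (ha : a ∈ Hom κ) :
    evF (valG ρ x) a ∈ MG ρ x (cMG ρ κ) (wMG ρ κ) := by
  induction ha using AddSubgroup.closure_induction with
  | mem s hs =>
    obtain ⟨l, rfl, rfl⟩ := hs
    rw [evFG_eq, cMG_coe, wMG_coe]
    exact evG_mem ρ x l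
  | zero => simp
  | add a b _ _ ha hb => rw [map_add]; exact AddSubgroup.add_mem _ ha hb
  | neg a _ ha => rw [map_neg]; exact AddSubgroup.neg_mem _ ha

/-- a Lie monomial of the free ring is approximated by a group element -/
theorem LieMonS_approx {u : FR (LG ρ ι)} (hu : LieMonS (Set.range (XG ρ (ι := ι)) ∪ YG ρ ι) u) :
    ∃ κ : Multiset (LG ρ ι), u ∈ Hom κ ∧ 1 ≤ wMG ρ κ ∧ ∃ g : G,
      ρ g - 1 ∈ MG ρ x (cMG ρ κ) (wMG ρ κ) ∧
      ρ g - 1 - evF (valG ρ x) u ∈ MG ρ x (cMG ρ κ) (wMG ρ κ + 1) := by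
  induction hu with
  | letter y hy =>
    rcases hy with ⟨i, rfl⟩ | ⟨p, rfl⟩
    · refine ⟨([.inl i] : List (LG ρ ι)), wd_mem _, ?_, x i, ?_, ?_⟩
      · rw [wMG_coe]; simp [wtG, wLG]
      · rw [cMG_coe, wMG_coe]
        exact AddSubgroup.subset_closure ⟨[.inl i], le_refl _, le_refl _, by simp [evG, valG]⟩
      · rw [XG, evFG_eq]
        simp [evG, valG]
    · refine ⟨([.inr p] : List (LG ρ ι)), wd_mem _, ?_, p.1.1, ?_, ?_⟩
      · rw [wMG_coe]; simpa [wtG, wLG] using p.2.1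
      · rw [cMG_coe, wMG_coe]
        exact AddSubgroup.subset_closure ⟨[.inr p], le_refl _, le_refl _, by simp [evG, valG]⟩
      · rw [evFG_eq]
        simp [evG, valG]
  | br a b _ _ iha ihb =>
    obtain ⟨κ, ha, hκ, g, hg, hg'⟩ := iha
    obtain ⟨μ, hb, hμ, h, hh, hh'⟩ := ihb
    have hea := evFG_mem ρ x ha
    have heb := evFG_mem ρ x hb
    set ea := evF (valG ρ x) a with hea_def
    set eb := evF (valG ρ x) b with heb_def
    have hc : (ρ g - 1) * (ρ h - 1) - (ρ h - 1) * (ρ g - 1) ∈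
        MG ρ x (cMG ρ κ + cMG ρ μ) (wMG ρ κ + wMG ρ μ) := by
      refine AddSubgroup.sub_mem _ (MG_mul ρ x _ _ _ _ _ _ hg hh) ?_
      exact MG_mul' ρ x hh hg (le_of_eq (add_comm _ _)) (by omega)
    refine ⟨κ + μ, ?_, ?_, g⁻¹ * h⁻¹ * g * h, ?_, ?_⟩
    · refine AddSubgroup.sub_mem _ (Hom_mul ha hb) ?_
      exact cast4 (Hom_mul hb ha) (by abel)
    · rw [wMG_add]; omega
    · rw [comm_id'', cMG_add, wMG_add]
      exact MG_mul' ρ x (rho_mem_MG ρ x ((h * g)⁻¹)) hc (le_of_eq (zero_add _).symm) (by omega)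
    · rw [comm_id'', cMG_add, wMG_add]
      have e : ρ (h * g)⁻¹ * ((ρ g - 1) * (ρ h - 1) - (ρ h - 1) * (ρ g - 1)) -
          evF (valG ρ x) (a * b - b * a) =
          (ρ (h * g)⁻¹ - 1) * ((ρ g - 1) * (ρ h - 1) - (ρ h - 1) * (ρ g - 1)) +
          ((ρ g - 1 - ea) * (ρ h - 1) + ea * (ρ h - 1 - eb) -
            ((ρ h - 1 - eb) * (ρ g - 1) + eb * (ρ g - 1 - ea))) := by
        rw [map_sub, map_mul, map_mul, ← hea_def, ← heb_def]
        noncomm_ring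
      rw [e]
      refine AddSubgroup.add_mem _ ?_ (AddSubgroup.sub_mem _ (AddSubgroup.add_mem _ ?_ ?_)
        (AddSubgroup.add_mem _ ?_ ?_))
      · exact MG_mul' ρ x (diff_mem_MG ρ x ((h * g)⁻¹)) hc (le_of_eq (zero_add _).symm) (by omega)
      · exact MG_mul' ρ x hg' hh le_rfl (by omega)
      · exact MG_mul' ρ x hea hh' le_rfl (by omega)
      · exact MG_mul' ρ x hh' hg (le_of_eq (add_comm _ _)) (by omega)
      · exact MG_mul' ρ x heb hg' (le_of_eq (add_comm _ _)) (by omega)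

/-- `sym4` of four Lie monomials is deep -/
theorem sym4_deepG (hρ : ∀ g, (ρ g - 1) ^ 4 = 0) {u1 u2 u3 u4 : FR (LG ρ ι)}
    (h1 : LieMonS (Set.range (XG ρ (ι := ι)) ∪ YG ρ ι) u1)
    (h2 : LieMonS (Set.range (XG ρ (ι := ι)) ∪ YG ρ ι) u2)
    (h3 : LieMonS (Set.range (XG ρ (ι := ι)) ∪ YG ρ ι) u3)
    (h4 : LieMonS (Set.range (XG ρ (ι := ι)) ∪ YG ρ ι) u4) :
    ∃ κ : Multiset (LG ρ ι), sym4 u1 u2 u3 u4 ∈ Hom κ ∧
      evF (valG ρ x) (sym4 u1 u2 u3 u4) ∈ MG ρ x (cMG ρ κ) (wMG ρ κ + 1) := by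
  obtain ⟨κ1, k1, p1, g1, m1, n1⟩ := LieMonS_approx ρ x h1
  obtain ⟨κ2, k2, p2, g2, m2, n2⟩ := LieMonS_approx ρ x h2
  obtain ⟨κ3, k3, p3, g3, m3, n3⟩ := LieMonS_approx ρ x h3
  obtain ⟨κ4, k4, p4, g4, m4, n4⟩ := LieMonS_approx ρ x h4
  refine ⟨κ1 + κ2 + κ3 + κ4, Hom_sym4 k1 k2 k3 k4, ?_⟩
  simp only [cMG_add, wMG_add]
  rw [sym4_map]
  have e1 := evFG_mem ρ x k1
  have e2 := evFG_mem ρ x k2
  have e3 := evFG_mem ρ x k3
  have e4 := evFG_mem ρ x k4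
  have main : sym4 (ρ g1 - 1) (ρ g2 - 1) (ρ g3 - 1) (ρ g4 - 1) ∈
      MG ρ x (cMG ρ κ1 + cMG ρ κ2 + cMG ρ κ3 + cMG ρ κ4) (wMG ρ κ1 + wMG ρ κ2 + wMG ρ κ3 + wMG ρ κ4 + 1) := by
    have := main_sym4G (M := MG ρ x) (α := ![cMG ρ κ1, cMG ρ κ2, cMG ρ κ3, cMG ρ κ4])
      (δ := ![wMG ρ κ1, wMG ρ κ2, wMG ρ κ3, wMG ρ κ4]) (by
        intro i
        fin_cases i
        · exact p1
        · exact p2
        · exact p3
        · exact p4) (one_mem_MG ρ x) (MG_mul ρ x) (fun a d a' d' h h' => MG_anti ρ x a d a' d' h h')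
      (A0 := ρ g1 - 1) (A1 := ρ g2 - 1) (A2 := ρ g3 - 1) (A3 := ρ g4 - 1) m1 m2 m3 m4 (by
        intro s
        rw [chi_rho, chi_rho, chi_rho, chi_rho, ← map_mul, ← map_mul, ← map_mul]
        exact hρ _)
    exact this
  have hsub := sym4_sub (ρ g1 - 1) (ρ g2 - 1) (ρ g3 - 1) (ρ g4 - 1) (evF (valG ρ x) u1)
    (evF (valG ρ x) u2) (evF (valG ρ x) u3) (evF (valG ρ x) u4)
  have hs : sym4 (ρ g1 - 1) (ρ g2 - 1) (ρ g3 - 1) (ρ g4 - 1) - sym4 (evF (valG ρ x) u1)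
      (evF (valG ρ x) u2) (evF (valG ρ x) u3) (evF (valG ρ x) u4) ∈
      MG ρ x (cMG ρ κ1 + cMG ρ κ2 + cMG ρ κ3 + cMG ρ κ4) (wMG ρ κ1 + wMG ρ κ2 + wMG ρ κ3 + wMG ρ κ4 + 1) := by
    rw [hsub]
    refine AddSubgroup.add_mem _ (AddSubgroup.add_mem _ (AddSubgroup.add_mem _ ?_ ?_) ?_) ?_
    · exact MG_sym4 ρ x n1 m2 m3 m4 le_rfl (by omega)
    · exact MG_sym4 ρ x e1 n2 m3 m4 le_rfl (by omega)
    · exact MG_sym4 ρ x e1 e2 n3 m4 le_rfl (by omega)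
    · exact MG_sym4 ρ x e1 e2 e3 n4 le_rfl (by omega)
  have := AddSubgroup.sub_mem _ main hs
  rwa [sub_sub_cancel] at this

end FiltG

end Pool.Agent.MP5c99ad
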