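import Mathlib
import Pool.Agent.Lib.MP_5c99ad_al.SoftB

set_option autoImplicit false

/-!
Soft vanishing theorem with several marked letters, part C: `T1Gen E κ` implies that products with
content at least `κ` vanish.
-/

namespace Pool.Agent.MP5c99ad

universe u

section Main

variable {ι : Type} [DecidableEq ι] {G : Type u} {R : Type u} [Group G] [Ring R] (ρ : G →* R) (x : ι → G)

/-- `I J^m + J^m I` -/
def KLG (m : ι → ℕ) : AddSubgroup R := AddSubgroup.closure {r | ∃ i ∈ Ip ρ 1, ∃ y ∈ MG ρ x m 0, r = i * y}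
def KRG (m : ι → ℕ) : AddSubgroup R := AddSubgroup.closure {r | ∃ y ∈ MG ρ x m 0, ∃ i ∈ Ip ρ 1, r = y * i}
def KKG (m : ι → ℕ) : AddSubgroup R := KLG ρ x m ⊔ KRG ρ x m

theorem mem_KLG {m : ι → ℕ} {i y : R} (hi : i ∈ Ip ρ 1) (hy : y ∈ MG ρ x m 0) : i * y ∈ KKG ρ x m :=
  (le_sup_left : KLG ρ x m ≤ KKG ρ x m) (AddSubgroup.subset_closure ⟨i, hi, y, hy, rfl⟩)

theorem mem_KRG {m : ι → ℕ} {i y : R} (hi : i ∈ Ip ρ 1) (hy : y ∈ MG ρ x m 0) : y * i ∈ KKG ρ x m :=
  (le_sup_right : KRG ρ x m ≤ KKG ρ x m) (AddSubgroup.subset_closure ⟨y, hy, i, hi, rfl⟩)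

theorem valG_mem_one (l : LG ρ ι) : valG ρ x l ∈ Ip ρ 1 := Ip_anti ρ (wLG_pos ρ l) (valG_mem ρ x l)

theorem evG_mem_zero {m : ι → ℕ} {w : List (LG ρ ι)} (h : m ≤ ctG ρ w) : evG ρ x w ∈ MG ρ x m 0 :=
  AddSubgroup.subset_closure ⟨w, h, Nat.zero_le _, rfl⟩

theorem MWord.mul_right {U : Type u} [Ring U] {X : ι → U} {Y : Set U} {k : ι → ℕ} {w y : U}
    (h : MWord X Y k w) (hy : y ∈ Submonoid.closure Y) : MWord X Y k (w * y) := by
  cases h with
  | base _ h => exact MWord.base _ (Submonoid.mul_mem _ h hy)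
  | step k i w s hw hs =>
    rw [mul_assoc]
    exact MWord.step _ _ _ _ hw (Submonoid.mul_mem _ hs hy)

theorem mword_wd (w : List (LG ρ ι)) : MWord (XG ρ) (YG ρ ι) (ctG ρ w) (wd w) := by
  induction w using List.reverseRecOn with
  | nil => exact MWord.base _ (Submonoid.one_mem _)
  | append_singleton w l ih =>
    cases l with
    | inl i =>
      have e : ctG ρ (w ++ [Sum.inl i]) = ctG ρ w + Pi.single i 1 := by simp [ctG, cLG]
      have e2 : (wd (w ++ [Sum.inl i]) : FR (LG ρ ι)) = wd w * XG ρ i * 1 := by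
        rw [mul_one, XG, wd_mul]
      rw [e, e2]
      exact MWord.step _ _ _ _ ih (Submonoid.one_mem _)
    | inr p =>
      have e : ctG ρ (w ++ [Sum.inr p]) = ctG ρ w := by simp [ctG, cLG]
      rw [e, ← wd_mul]
      exact ih.mul_right (Submonoid.subset_closure ⟨p, rfl⟩)

theorem comm_partG {m : ι → ℕ} {d n : ℕ} (hdeep : MG ρ x m (d + 1) ≤ KKG ρ x m)
    (ih : ∀ n' < n, ∀ w : List (LG ρ ι), ctG ρ w = m → wtG ρ w = d → ntG ρ w = n' → evG ρ x w ∈ KKG ρ x m)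
    (l l' : List (LG ρ ι)) (p q : {p : G × ℕ // 1 ≤ p.2 ∧ ρ p.1 - 1 ∈ Ip ρ p.2})
    (hc : ctG ρ (l ++ [Sum.inr p, Sum.inr q] ++ l') = m) (hd : wtG ρ (l ++ [Sum.inr p, Sum.inr q] ++ l') = d)
    (hn : ntG ρ (l ++ [Sum.inr p, Sum.inr q] ++ l') = n) :
    evG ρ x l * ((ρ p.1.1 - 1) * (ρ q.1.1 - 1) - (ρ q.1.1 - 1) * (ρ p.1.1 - 1)) * evG ρ x l' ∈ KKG ρ x m := by
  have hs1 : evG ρ x [Sum.inr (comL ρ p q)] = ρ (p.1.1⁻¹ * q.1.1⁻¹ * p.1.1 * q.1.1) - 1 := by
    simp [evG, valG, comL]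
  have hs2 : wtG ρ ([Sum.inr (comL ρ p q)] : List (LG ρ ι)) = p.1.2 + q.1.2 := by simp [wtG, wLG, comL]
  have hs3 : ctG ρ ([Sum.inr (comL ρ p q)] : List (LG ρ ι)) = 0 := by simp [ctG, cLG]
  have hs4 : ntG ρ ([Sum.inr (comL ρ p q)] : List (LG ρ ι)) = 1 := by simp [ntG, nLG]
  have ha : ctG ρ ([Sum.inr p, Sum.inr q] : List (LG ρ ι)) = 0 := by simp [ctG, cLG]
  have hb : wtG ρ ([Sum.inr p, Sum.inr q] : List (LG ρ ι)) = p.1.2 + q.1.2 := by simp [wtG, wLG]
  have hg : ntG ρ ([Sum.inr p, Sum.inr q] : List (LG ρ ι)) = 2 := by simp [ntG, nLG]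
  rw [ctG_append, ctG_append, ha, add_zero] at hc
  rw [wtG_append, wtG_append, hb] at hd
  rw [ntG_append, ntG_append, hg] at hn
  have e2 : evG ρ x l * ((ρ p.1.1 - 1) * (ρ q.1.1 - 1) - (ρ q.1.1 - 1) * (ρ p.1.1 - 1)) * evG ρ x l' =
      evG ρ x l * (ρ (q.1.1 * p.1.1) - 1) * evG ρ x [Sum.inr (comL ρ p q)] * evG ρ x l' +
      evG ρ x (l ++ [Sum.inr (comL ρ p q)] ++ l') := by
    rw [comm_id', evG_append, evG_append, hs1]
    noncomm_ring
  rw [e2]
  refine AddSubgroup.add_mem _ (hdeep ?_) ?_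
  · have h1 := MG_mul ρ x _ _ _ _ _ _ (MG_mul ρ x _ _ _ _ _ _ (MG_mul ρ x _ _ _ _ _ _
      (evG_mem ρ x l) (diff_mem_MG ρ x (q.1.1 * p.1.1))) (evG_mem ρ x [Sum.inr (comL ρ p q)])) (evG_mem ρ x l')
    rw [hs2, hs3] at h1
    refine MG_anti ρ x _ _ _ _ (le_of_eq ?_) (by omega) h1
    rw [← hc]; abel
  · refine ih (n - 1) (by omega) _ ?_ ?_ ?_
    · rw [ctG_append, ctG_append, hs3, ← hc]; abel
    · rw [wtG_append, wtG_append, hs2]; omega
    · rw [ntG_append, ntG_append, hs4]; omega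

theorem hcomm_partG {m : ι → ℕ} {d n : ℕ} (hdeep : MG ρ x m (d + 1) ≤ KKG ρ x m)
    (ih : ∀ n' < n, ∀ w : List (LG ρ ι), ctG ρ w = m → wtG ρ w = d → ntG ρ w = n' → evG ρ x w ∈ KKG ρ x m)
    (w : List (LG ρ ι)) (hcw : ctG ρ w = m) (hdw : wtG ρ w = d) (hnw : ntG ρ w = n)
    (l l' : List (LG ρ ι)) (p q : {p : G × ℕ // 1 ≤ p.2 ∧ ρ p.1 - 1 ∈ Ip ρ p.2}) :
    phiC (valG ρ x) (KKG ρ x m) (w : Multiset (LG ρ ι))
      (wd l * (wd [Sum.inr p] * wd [Sum.inr q] - wd [Sum.inr q] * wd [Sum.inr p]) * wd l') = 0 := by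
  have hhom : wd l * (wd [Sum.inr p] * wd [Sum.inr q] - wd [Sum.inr q] * wd [Sum.inr p]) * wd l' ∈
      Hom ((l ++ [Sum.inr p, Sum.inr q] ++ l' : List (LG ρ ι)) : Multiset (LG ρ ι)) := by
    have e : wd l * (wd [Sum.inr p] * wd [Sum.inr q] - wd [Sum.inr q] * wd [Sum.inr p]) * wd l' =
        (wd (l ++ [Sum.inr p, Sum.inr q] ++ l') - wd (l ++ [Sum.inr q, Sum.inr p] ++ l') : FR (LG ρ ι)) := by
      rw [wd_mul, wd_mul, mul_sub, sub_mul, wd_mul, wd_mul, wd_mul, wd_mul]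
      rfl
    rw [e]
    refine AddSubgroup.sub_mem _ (wd_mem _) (cast4 (wd_mem _) ?_)
    exact Multiset.coe_eq_coe.2 (List.Perm.append_right _ (List.Perm.append_left _ (List.Perm.swap _ _ _)))
  by_cases hκ : ((l ++ [Sum.inr p, Sum.inr q] ++ l' : List (LG ρ ι)) : Multiset (LG ρ ι)) = (w : Multiset (LG ρ ι))
  · rw [hκ] at hhom
    rw [phiC_eq _ _ _ hhom]
    apply mk_zero_of
    have e1 : evF (valG ρ x) (wd l * (wd [Sum.inr p] * wd [Sum.inr q] - wd [Sum.inr q] * wd [Sum.inr p]) * wd l') =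
        evG ρ x l * ((ρ p.1.1 - 1) * (ρ q.1.1 - 1) - (ρ q.1.1 - 1) * (ρ p.1.1 - 1)) * evG ρ x l' := by
      rw [map_mul, map_mul, map_sub, map_mul, map_mul, evFG_eq, evFG_eq, evFG_eq, evFG_eq]
      simp [evG, valG]
    rw [e1]
    refine comm_partG ρ x hdeep ih l l' p q ?_ ?_ ?_
    · have := congrArg (cMG ρ) hκ
      rwa [cMG_coe, cMG_coe, hcw] at this
    · have := congrArg (wMG ρ) hκ
      rwa [wMG_coe, wMG_coe, hdw] at this
    · have := congrArg (nMG ρ) hκ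
      rwa [nMG_coe, nMG_coe, hnw] at this
  · exact phiC_ne _ _ _ hκ hhom

theorem hE_partG {m : ι → ℕ} (w : List (LG ρ ι)) (l l' : List (LG ρ ι)) (i j : ι)
    (hij : x i * x j = x j * x i) :
    phiC (valG ρ x) (KKG ρ x m) (w : Multiset (LG ρ ι))
      (wd l * (XG ρ i * XG ρ j - XG ρ j * XG ρ i) * wd l') = 0 := by
  have hhom : wd l * (XG ρ i * XG ρ j - XG ρ j * XG ρ i) * wd l' ∈
      Hom ((l ++ [Sum.inl i, Sum.inl j] ++ l' : List (LG ρ ι)) : Multiset (LG ρ ι)) := by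
    have e : wd l * (XG ρ i * XG ρ j - XG ρ j * XG ρ i) * wd l' =
        (wd (l ++ [Sum.inl i, Sum.inl j] ++ l') - wd (l ++ [Sum.inl j, Sum.inl i] ++ l') : FR (LG ρ ι)) := by
      rw [XG, XG, wd_mul, wd_mul, mul_sub, sub_mul, wd_mul, wd_mul, wd_mul, wd_mul]
      rfl
    rw [e]
    refine AddSubgroup.sub_mem _ (wd_mem _) (cast4 (wd_mem _) ?_)
    exact Multiset.coe_eq_coe.2 (List.Perm.append_right _ (List.Perm.append_left _ (List.Perm.swap _ _ _)))
  by_cases hκ : ((l ++ [Sum.inl i, Sum.inl j] ++ l' : List (LG ρ ι)) : Multiset (LG ρ ι)) = (w : Multiset (LG ρ ι))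
  · rw [hκ] at hhom
    rw [phiC_eq _ _ _ hhom]
    apply mk_zero_of
    have e1 : evF (valG ρ x) (wd l * (XG ρ i * XG ρ j - XG ρ j * XG ρ i) * wd l') = 0 := by
      have hc : (ρ (x i) - 1) * (ρ (x j) - 1) = (ρ (x j) - 1) * (ρ (x i) - 1) := by
        have : ρ (x i) * ρ (x j) = ρ (x j) * ρ (x i) := by rw [← map_mul, hij, map_mul]
        linear_combination (norm := noncomm_ring) this
      rw [map_mul, map_mul, map_sub, map_mul, map_mul, XG, XG, evFG_eq, evFG_eq, evFG_eq, evFG_eq]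
      simp only [evG, valG, List.map_cons, List.map_nil, List.prod_cons, List.prod_nil, mul_one]
      rw [hc, sub_self, mul_zero, zero_mul]
    rw [e1]
    exact AddSubgroup.zero_mem _
  · exact phiC_ne _ _ _ hκ hhom

theorem hsym_partG {m : ι → ℕ} {d : ℕ} (hρ : ∀ g, (ρ g - 1) ^ 4 = 0) (hdeep : MG ρ x m (d + 1) ≤ KKG ρ x m)
    (w : List (LG ρ ι)) (hcw : ctG ρ w = m) (hdw : wtG ρ w = d)
    (l l' : List (LG ρ ι)) {u1 u2 u3 u4 : FR (LG ρ ι)}
    (h1 : LieMonS (Set.range (XG ρ (ι := ι)) ∪ YG ρ ι) u1)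
    (h2 : LieMonS (Set.range (XG ρ (ι := ι)) ∪ YG ρ ι) u2)
    (h3 : LieMonS (Set.range (XG ρ (ι := ι)) ∪ YG ρ ι) u3)
    (h4 : LieMonS (Set.range (XG ρ (ι := ι)) ∪ YG ρ ι) u4) :
    phiC (valG ρ x) (KKG ρ x m) (w : Multiset (LG ρ ι)) (wd l * sym4 u1 u2 u3 u4 * wd l') = 0 := by
  obtain ⟨κ, hκ, hev⟩ := sym4_deepG ρ x hρ h1 h2 h3 h4
  have hhom : wd l * sym4 u1 u2 u3 u4 * wd l' ∈ Hom ((l : Multiset (LG ρ ι)) + κ + (l' : Multiset (LG ρ ι))) :=
    Hom_mul (Hom_mul (wd_mem l) hκ) (wd_mem l')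
  by_cases hc : (l : Multiset (LG ρ ι)) + κ + (l' : Multiset (LG ρ ι)) = (w : Multiset (LG ρ ι))
  · rw [hc] at hhom
    rw [phiC_eq _ _ _ hhom]
    apply mk_zero_of
    refine hdeep ?_
    rw [map_mul, map_mul, evFG_eq, evFG_eq]
    have hcc := congrArg (cMG ρ) hc
    have hww := congrArg (wMG ρ) hc
    rw [cMG_add, cMG_add, cMG_coe, cMG_coe, cMG_coe, hcw] at hcc
    rw [wMG_add, wMG_add, wMG_coe, wMG_coe, wMG_coe, hdw] at hww
    exact MG_anti ρ x _ _ _ _ (le_of_eq hcc.symm) (by omega) (MG_mul ρ x _ _ _ _ _ _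
      (MG_mul ρ x _ _ _ _ _ _ (evG_mem ρ x l) hev) (evG_mem ρ x l'))
  · exact phiC_ne _ _ _ hc hhom

theorem hl_partG {m : ι → ℕ} (w : List (LG ρ ι)) (hcw : ctG ρ w = m)
    (p : {p : G × ℕ // 1 ≤ p.2 ∧ ρ p.1 - 1 ∈ Ip ρ p.2}) (v : FR (LG ρ ι)) :
    phiC (valG ρ x) (KKG ρ x m) (w : Multiset (LG ρ ι)) (wd [Sum.inr p] * v) = 0 := by
  induction v using FR_induction with
  | h0 => rw [mul_zero, map_zero]
  | hadd a b ha hb => rw [mul_add, map_add, ha, hb, add_zero]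
  | hneg a ha => rw [mul_neg, map_neg, ha, neg_zero]
  | hw l =>
    rw [wd_mul, phiC_wd]
    split_ifs with hc
    · apply mk_zero_of
      have hcc := congrArg (cMG ρ) hc
      rw [cMG_coe, cMG_coe, hcw] at hcc
      have e : (([Sum.inr p] ++ l).map (valG ρ x)).prod = valG ρ x (Sum.inr p) * evG ρ x l := by
        simp [evG]
      rw [e]
      refine mem_KLG ρ x (valG_mem_one ρ x _) (evG_mem_zero ρ x ?_)
      rw [← hcc]
      simp [ctG, cLG]
    · rfl

theorem hr_partG {m : ι → ℕ} (w : List (LG ρ ι)) (hcw : ctG ρ w = m)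
    (p : {p : G × ℕ // 1 ≤ p.2 ∧ ρ p.1 - 1 ∈ Ip ρ p.2}) (v : FR (LG ρ ι)) :
    phiC (valG ρ x) (KKG ρ x m) (w : Multiset (LG ρ ι)) (v * wd [Sum.inr p]) = 0 := by
  induction v using FR_induction with
  | h0 => rw [zero_mul, map_zero]
  | hadd a b ha hb => rw [add_mul, map_add, ha, hb, add_zero]
  | hneg a ha => rw [neg_mul, map_neg, ha, neg_zero]
  | hw l =>
    rw [wd_mul, phiC_wd]
    split_ifs with hc
    · apply mk_zero_of
      have hcc := congrArg (cMG ρ) hc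
      rw [cMG_coe, cMG_coe, hcw] at hcc
      have e : ((l ++ [Sum.inr p]).map (valG ρ x)).prod = evG ρ x l * valG ρ x (Sum.inr p) := by
        simp [evG]
      rw [e]
      refine mem_KRG ρ x (valG_mem_one ρ x _) (evG_mem_zero ρ x ?_)
      rw [← hcc]
      simp [ctG, cLG]
    · rfl

/-- inner induction -/
theorem innerG {E : ι → ι → Prop} {m : ι → ℕ} (T1 : T1Gen.{u} E m) (h5 : (5 : R) = 0)
    (hρ : ∀ g, (ρ g - 1) ^ 4 = 0) (hE : ∀ i j, E i j → x i * x j = x j * x i) {d : ℕ}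
    (hdeep : MG ρ x m (d + 1) ≤ KKG ρ x m) :
    ∀ n : ℕ, ∀ w : List (LG ρ ι), ctG ρ w = m → wtG ρ w = d → ntG ρ w = n → evG ρ x w ∈ KKG ρ x m := by
  intro n
  induction n using Nat.strong_induction_on with
  | _ n ih =>
  intro w hcw hdw hnw
  have key : phiC (valG ρ x) (KKG ρ x m) (w : Multiset (LG ρ ι)) (wd w) = 0 := by
    refine T1Gen_functional T1 (A := R ⧸ KKG ρ x m) (five_smul h5 _) (XG ρ) (YG ρ ι) _ ?_ ?_ ?_ ?_ ?_ (wd w) ?_
    · rintro _ ⟨p, rfl⟩ _ ⟨q, rfl⟩ P S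
      exact phiC_context _ _ (fun l l' => hcomm_partG ρ x hdeep ih w hcw hdw hnw l l' p q) P S
    · intro i j hij P S
      exact phiC_context _ _ (fun l l' => hE_partG ρ x w l l' i j (hE i j hij)) P S
    · intro u1 u2 u3 u4 h1 h2 h3 h4 P S
      exact phiC_context _ _ (fun l l' => hsym_partG ρ x hρ hdeep w hcw hdw l l' h1 h2 h3 h4) P S
    · rintro _ ⟨p, rfl⟩ v
      exact hl_partG ρ x w hcw p v
    · rintro _ ⟨p, rfl⟩ v
      exact hr_partG ρ x w hcw p v
    · have := mword_wd ρ w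
      rwa [hcw] at this
  rw [phiC_wd, if_pos rfl, QuotientAddGroup.eq_zero_iff] at key
  exact key

/-- extra marks are turned into unmarked letters -/
theorem reduce_marks (w : List (LG ρ ι)) : ∀ m : ι → ℕ, m ≤ ctG ρ w →
    ∃ w' : List (LG ρ ι), ctG ρ w' = m ∧ wtG ρ w' = wtG ρ w ∧ evG ρ x w' = evG ρ x w := by
  induction w with
  | nil =>
    intro m hm
    refine ⟨[], ?_, rfl, rfl⟩
    have : ctG ρ ([] : List (LG ρ ι)) = 0 := by simp [ctG]
    rw [this] at hm ⊢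
    exact le_antisymm (fun i => Nat.zero_le _) hm
  | cons l w ih =>
    intro m hm
    cases l with
    | inl i =>
      have e : ctG ρ (Sum.inl i :: w) = Pi.single i 1 + ctG ρ w := by simp [ctG, cLG]
      rw [e] at hm
      by_cases hi : m i ≤ ctG ρ w i
      · obtain ⟨w', h1, h2, h3⟩ := ih m (by
          intro j
          by_cases hj : j = i
          · subst hj; exact hi
          · have := hm j
            simpa [Pi.single_apply, hj] using this)
        refine ⟨Sum.inr ⟨(x i, 1), le_refl _, diff_mem ρ (x i)⟩ :: w', ?_, ?_, ?_⟩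
        · simpa [ctG, cLG] using h1
        · have : wtG ρ w' = wtG ρ w := h2
          simp only [wtG, List.map_cons, List.sum_cons, wLG] at this ⊢
          rw [this]
        · have : evG ρ x w' = evG ρ x w := h3
          simp only [evG, List.map_cons, List.prod_cons, valG] at this ⊢
          rw [this]
      · have hmi : m i = ctG ρ w i + 1 := by
          have := hm i
          simp at this
          omega
        obtain ⟨w', h1, h2, h3⟩ := ih (m - Pi.single i 1) (by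
          intro j
          by_cases hj : j = i
          · subst hj; simp [hmi]
          · have := hm j
            simpa [Pi.single_apply, hj] using this)
        refine ⟨Sum.inl i :: w', ?_, ?_, ?_⟩
        · have e' : ctG ρ (Sum.inl i :: w') = Pi.single i 1 + ctG ρ w' := by simp [ctG, cLG]
          rw [e', h1]
          funext j
          by_cases hj : j = i
          · subst hj; simp [hmi]; omega
          · simp [Pi.single_apply, hj]
        · have : wtG ρ w' = wtG ρ w := h2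
          simp only [wtG, List.map_cons, List.sum_cons, wLG] at this ⊢
          rw [this]
        · have : evG ρ x w' = evG ρ x w := h3
          simp only [evG, List.map_cons, List.prod_cons, valG] at this ⊢
          rw [this]
    | inr p =>
      have e : ctG ρ (Sum.inr p :: w) = ctG ρ w := by simp [ctG, cLG]
      rw [e] at hm
      obtain ⟨w', h1, h2, h3⟩ := ih m hm
      refine ⟨Sum.inr p :: w', ?_, ?_, ?_⟩
      · simpa [ctG, cLG] using h1
      · have : wtG ρ w' = wtG ρ w := h2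
        simp only [wtG, List.map_cons, List.sum_cons, wLG] at this ⊢
        rw [this]
      · have : evG ρ x w' = evG ρ x w := h3
        simp only [evG, List.map_cons, List.prod_cons, valG] at this ⊢
        rw [this]

theorem outerG {E : ι → ι → Prop} {m : ι → ℕ} {N : ℕ} (T1 : T1Gen.{u} E m) (h5 : (5 : R) = 0)
    (hρ : ∀ g, (ρ g - 1) ^ 4 = 0) (hE : ∀ i j, E i j → x i * x j = x j * x i)
    (hN : Ip ρ N = ⊥) : ∀ k d : ℕ, k + d = N → MG ρ x m d ≤ KKG ρ x m := by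
  intro k
  induction k with
  | zero =>
    intro d hd
    have : d = N := by omega
    rw [this, MG_bot ρ x hN]
    exact bot_le
  | succ k ih =>
    intro d hd
    have hdeep := ih (d + 1) (by omega)
    refine (AddSubgroup.closure_le _).2 ?_
    rintro _ ⟨w, h1, h2, rfl⟩
    by_cases hw : wtG ρ w = d
    · obtain ⟨w', h1', h2', h3'⟩ := reduce_marks ρ x w m h1
      rw [← h3']
      exact innerG ρ x T1 h5 hρ hE hdeep _ w' h1' (h2'.trans hw) rfl
    · exact hdeep (AddSubgroup.subset_closure ⟨w, h1, by omega, rfl⟩)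

theorem left_stepG {m : ι → ℕ} {k : ℕ} {i : R} (hi : i ∈ Ip ρ k) {a : R} (ha : a ∈ KLG ρ x m) :
    i * a ∈ AddSubgroup.closure {r | ∃ i ∈ Ip ρ (k + 1), ∃ y ∈ MG ρ x m 0, r = i * y} := by
  induction ha using AddSubgroup.closure_induction with
  | mem s hs =>
    obtain ⟨i', hi', y', hy', rfl⟩ := hs
    exact AddSubgroup.subset_closure ⟨i * i', Ip_mul ρ hi hi', y', hy', by rw [mul_assoc]⟩
  | zero => rw [mul_zero]; exact AddSubgroup.zero_mem _
  | add a b _ _ ha hb => rw [mul_add]; exact AddSubgroup.add_mem _ ha hb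
  | neg a _ ha => rw [mul_neg]; exact AddSubgroup.neg_mem _ ha

theorem mid_stepG {m : ι → ℕ} {k : ℕ} (hIM : ∀ k, ∀ i ∈ Ip ρ k, ∀ y ∈ MG ρ x m 0, i * y ∈ MG ρ x m 0)
    {i : R} (hi : i ∈ Ip ρ k) {a : R} (ha : a ∈ KRG ρ x m) : i * a ∈ KRG ρ x m := by
  induction ha using AddSubgroup.closure_induction with
  | mem s hs =>
    obtain ⟨y', hy', i', hi', rfl⟩ := hs
    exact AddSubgroup.subset_closure ⟨i * y', hIM k i hi y' hy', i', hi', by rw [mul_assoc]⟩
  | zero => rw [mul_zero]; exact AddSubgroup.zero_mem _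
  | add a b _ _ ha hb => rw [mul_add]; exact AddSubgroup.add_mem _ ha hb
  | neg a _ ha => rw [mul_neg]; exact AddSubgroup.neg_mem _ ha

theorem right_stepG {m : ι → ℕ} {k : ℕ} {i : R} (hi : i ∈ Ip ρ k) {a : R} (ha : a ∈ KRG ρ x m) :
    a * i ∈ AddSubgroup.closure {r | ∃ y ∈ MG ρ x m 0, ∃ i ∈ Ip ρ (k + 1), r = y * i} := by
  induction ha using AddSubgroup.closure_induction with
  | mem s hs =>
    obtain ⟨y', hy', i', hi', rfl⟩ := hs
    refine AddSubgroup.subset_closure ⟨y', hy', i' * i, ?_, by rw [mul_assoc]⟩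
    have := Ip_mul ρ hi' hi
    rwa [add_comm] at this
  | zero => rw [zero_mul]; exact AddSubgroup.zero_mem _
  | add a b _ _ ha hb => rw [add_mul]; exact AddSubgroup.add_mem _ ha hb
  | neg a _ ha => rw [neg_mul]; exact AddSubgroup.neg_mem _ ha

theorem nil_lemmaG {m : ι → ℕ} {N : ℕ} (hN : Ip ρ N = ⊥) (h : MG ρ x m 0 ≤ KKG ρ x m) : MG ρ x m 0 = ⊥ := by
  have hIM : ∀ k, ∀ i ∈ Ip ρ k, ∀ y ∈ MG ρ x m 0, i * y ∈ MG ρ x m 0 := by
    intro k i hi y hy
    have := MG_mul ρ x _ _ _ _ _ _ (Ip_le_MG ρ x k hi) hy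
    rwa [zero_add, zero_add] at this
  have s1 : ∀ k, MG ρ x m 0 ≤ AddSubgroup.closure {r | ∃ i ∈ Ip ρ k, ∃ y ∈ MG ρ x m 0, r = i * y} ⊔
      KRG ρ x m := by
    intro k
    induction k with
    | zero =>
      refine le_sup_of_le_left ?_
      intro y hy
      refine AddSubgroup.subset_closure ⟨1, ?_, y, hy, by simp⟩
      have := rho_mem ρ 1
      rwa [map_one] at this
    | succ k ih =>
      refine ih.trans (sup_le ?_ le_sup_right)
      refine (AddSubgroup.closure_le _).2 ?_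
      rintro _ ⟨i, hi, y, hy, rfl⟩
      obtain ⟨a, ha, b, hb, hab⟩ := AddSubgroup.mem_sup.1 (h hy)
      show i * y ∈ _
      rw [← hab, mul_add]
      exact AddSubgroup.add_mem_sup (left_stepG ρ x hi ha) (mid_stepG ρ x hIM hi hb)
  have s2 : MG ρ x m 0 ≤ KRG ρ x m := by
    have := s1 N
    rw [hN] at this
    refine this.trans (sup_le ?_ le_rfl)
    refine (AddSubgroup.closure_le _).2 ?_
    rintro _ ⟨i, hi, y, hy, rfl⟩
    rw [AddSubgroup.mem_bot] at hi
    rw [hi, zero_mul]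
    exact AddSubgroup.zero_mem _
  have s3 : ∀ k, MG ρ x m 0 ≤ AddSubgroup.closure {r | ∃ y ∈ MG ρ x m 0, ∃ i ∈ Ip ρ k, r = y * i} := by
    intro k
    induction k with
    | zero =>
      intro y hy
      refine AddSubgroup.subset_closure ⟨y, hy, 1, ?_, by simp⟩
      have := rho_mem ρ 1
      rwa [map_one] at this
    | succ k ih =>
      refine ih.trans ?_
      refine (AddSubgroup.closure_le _).2 ?_
      rintro _ ⟨y, hy, i, hi, rfl⟩
      exact right_stepG ρ x hi (s2 hy)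
  rw [eq_bot_iff]
  have := s3 N
  rw [hN] at this
  refine this.trans ((AddSubgroup.closure_le _).2 ?_)
  rintro _ ⟨y, hy, i, hi, rfl⟩
  rw [AddSubgroup.mem_bot] at hi
  rw [hi, mul_zero]
  exact AddSubgroup.zero_mem _

/-- factor of a product: a marked difference or a group element -/
def fac : ι ⊕ G → R
  | Sum.inl i => ρ (x i) - 1
  | Sum.inr g => ρ g

/-- content of a list of factors -/
def cnt (l : List (ι ⊕ G)) : ι → ℕ := (l.map (Sum.elim (fun i => Pi.single i 1) (fun _ => 0))).sum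

theorem cnt_append (l l' : List (ι ⊕ G)) : cnt (l ++ l') = cnt l + cnt l' := by simp [cnt]

theorem fac_prod_mem (l : List (ι ⊕ G)) : (l.map (fac ρ x)).prod ∈ MG ρ x (cnt l) 0 := by
  induction l with
  | nil => simpa [cnt] using one_mem_MG ρ x
  | cons a l ih =>
    have hc : cnt (a :: l) = cnt [a] + cnt l := by
      rw [← cnt_append]; rfl
    rw [List.map_cons, List.prod_cons, hc]
    cases a with
    | inl i =>
      refine MG_mul' ρ x (mark_mem_MG ρ x i) ih ?_ (Nat.zero_le _)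
      simp [cnt]
    | inr g =>
      refine MG_mul' ρ x (rho_mem_MG ρ x g) ih ?_ (Nat.zero_le _)
      simp [cnt]

/-- **Soft vanishing theorem.** -/
theorem soft_vanish {E : ι → ι → Prop} {m : ι → ℕ} {N : ℕ} (T1 : T1Gen.{u} E m) (h5 : (5 : R) = 0)
    (hρ : ∀ g, (ρ g - 1) ^ 4 = 0) (hE : ∀ i j, E i j → x i * x j = x j * x i)
    (hN : ∀ l : List G, l.length = N → dprod ρ l = 0) (l : List (ι ⊕ G)) (hl : m ≤ cnt l) :
    (l.map (fac ρ x)).prod = 0 := by
  have hb := Ip_bot ρ hN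
  have hz := nil_lemmaG ρ x hb (outerG ρ x T1 h5 hρ hE hb N 0 (by omega))
  have := MG_anti ρ x _ _ _ _ hl (le_refl 0) (fac_prod_mem ρ x l)
  rw [hz] at this
  exact this

/-- **Soft vanishing theorem for finite groups of exponent 5.** -/
theorem soft_vanish_finite [Finite G] {E : ι → ι → Prop} {m : ι → ℕ} (T1 : T1Gen.{u} E m)
    (hG : ∀ g : G, g ^ 5 = 1) (h5 : (5 : R) = 0)
    (hρ : ∀ g, (ρ g - 1) ^ 4 = 0) (hE : ∀ i j, E i j → x i * x j = x j * x i)
    (l : List (ι ⊕ G)) (hl : m ≤ cnt l) :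
    (l.map (fac ρ x)).prod = 0 := by
  obtain ⟨N, hN⟩ := aug_nilpotent (fun g => ⟨1, by simpa using hG g⟩) h5 ρ
  exact soft_vanish ρ x T1 h5 hρ hE hN l hl

end Main

end Pool.Agent.MP5c99ad
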