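import Mathlib
import Pool.Agent.Lib.MP_5c99ad_al.SoftC
import Pool.Agent.Lib.MP_5c99ad_al.NiceC

set_option autoImplicit false

/-!
Exact transfer of ring laws, part A: functions of natural parameters with values in the ring,
graded by monomials; leading terms of commutator words.
-/

namespace Pool.Agent.MP5c99ad

section Mono

variable {Λ : Type} [Fintype Λ] [DecidableEq Λ] {G R : Type} [Group G] [Ring R] (ρ : G →* R) (h : Λ → G)

/-- monomial function -/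
def mono (e : Λ → ℕ) (f : R) : (Λ → ℕ) → R := fun t => (∏ l, t l ^ e l) • f

omit [DecidableEq Λ] in
theorem mono_mul (e e' : Λ → ℕ) (f f' : R) : mono e f * mono e' f' = mono (e + e') (f * f') := by
  funext t
  show ((∏ l, t l ^ e l) • f) * ((∏ l, t l ^ e' l) • f') = (∏ l, t l ^ (e l + e' l)) • (f * f')
  rw [smul_mul_smul_comm, ← Finset.prod_mul_distrib]
  congr 1
  exact Finset.prod_congr rfl fun l _ => (pow_add _ _ _).symm

omit [DecidableEq Λ] in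
theorem mono_zero (e : Λ → ℕ) : mono e (0 : R) = 0 := by
  funext t; simp [mono]

omit [DecidableEq Λ] in
theorem mono_add (e : Λ → ℕ) (f g : R) : mono e (f + g) = mono e f + mono e g := by
  funext t; simp [mono]

omit [DecidableEq Λ] in
theorem mono_neg (e : Λ → ℕ) (f : R) : mono e (-f) = -mono e f := by
  funext t; simp [mono]

omit [DecidableEq Λ] in
theorem mono_sub (e : Λ → ℕ) (f g : R) : mono e (f - g) = mono e f - mono e g := by
  funext t; simp [mono, smul_sub]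

/-- total degree -/
def tot (e : Λ → ℕ) : ℕ := ∑ l, e l

omit [DecidableEq Λ] in
theorem tot_add (e e' : Λ → ℕ) : tot (e + e') = tot e + tot e' := by
  simp [tot, Finset.sum_add_distrib]

theorem tot_single (l : Λ) (n : ℕ) : tot (Pi.single l n) = n := by
  simp [tot, Pi.single_apply]

omit [DecidableEq Λ] in
theorem tot_mono {e e' : Λ → ℕ} (h : e ≤ e') : tot e ≤ tot e' :=
  Finset.sum_le_sum fun l _ => h l

/-- the filtration of the ring of functions -/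
def MF (m : Λ → ℕ) (d : ℕ) : AddSubgroup ((Λ → ℕ) → R) :=
  AddSubgroup.closure {F | ∃ (e : Λ → ℕ) (f : R), m ≤ e ∧ d ≤ tot e ∧ f ∈ MG ρ h e 0 ∧ F = mono e f}

theorem mono_mem_MF {m e : Λ → ℕ} {d : ℕ} {f : R} (hm : m ≤ e) (hd : d ≤ tot e) (hf : f ∈ MG ρ h e 0) :
    mono e f ∈ MF ρ h m d :=
  AddSubgroup.subset_closure ⟨e, f, hm, hd, hf, rfl⟩

theorem MF_mul (a : Λ → ℕ) (d : ℕ) (a' : Λ → ℕ) (d' : ℕ) (x y : (Λ → ℕ) → R) (hx : x ∈ MF ρ h a d)
    (hy : y ∈ MF ρ h a' d') : x * y ∈ MF ρ h (a + a') (d + d') := by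
  refine closure_mul_mem hx hy ?_
  rintro _ ⟨e, f, h1, h2, h3, rfl⟩ _ ⟨e', f', h1', h2', h3', rfl⟩
  rw [mono_mul]
  refine mono_mem_MF ρ h (add_le_add h1 h1') ?_ ?_
  · rw [tot_add]; omega
  · exact MG_mul' ρ h (a := e) (a' := e') (d := 0) (d' := 0) h3 h3' le_rfl le_rfl

theorem MF_anti (a : Λ → ℕ) (d : ℕ) (a' : Λ → ℕ) (d' : ℕ) (ha : a ≤ a') (hd : d ≤ d') :
    MF ρ h a' d' ≤ MF ρ h a d := by
  refine AddSubgroup.closure_mono ?_
  rintro _ ⟨e, f, h1, h2, h3, rfl⟩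
  exact ⟨e, f, ha.trans h1, hd.trans h2, h3, rfl⟩

theorem MF_mul' {a a' A : Λ → ℕ} {d d' D : ℕ} {r s : (Λ → ℕ) → R} (hr : r ∈ MF ρ h a d)
    (hs : s ∈ MF ρ h a' d') (hA : A ≤ a + a') (hD : D ≤ d + d') : r * s ∈ MF ρ h A D :=
  MF_anti ρ h _ _ _ _ hA hD (MF_mul ρ h _ _ _ _ _ _ hr hs)

theorem one_mem_MF : (1 : (Λ → ℕ) → R) ∈ MF ρ h 0 0 := by
  have : (1 : (Λ → ℕ) → R) = mono 0 1 := by
    funext t; simp [mono]
  rw [this]
  exact mono_mem_MF ρ h le_rfl (Nat.zero_le _) (one_mem_MG ρ h)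

/-- `g` is a group-valued function with leading term `t^m u` -/
structure Lead (u : R) (m : Λ → ℕ) (g : (Λ → ℕ) → G) : Prop where
  umem : u ∈ MG ρ h m 0
  pos : 1 ≤ tot m
  mem : (fun t => ρ (g t) - 1) ∈ MF ρ h m (tot m)
  lead : (fun t => ρ (g t) - 1) - mono m u ∈ MF ρ h m (tot m + 1)

theorem lg_mem_MG {a : Λ → ℕ} {u : R} (hu : u - 1 ∈ MG ρ h a 0) : lg u ∈ MG ρ h a 0 := by
  have h2 : (u - 1) ^ 2 ∈ MG ρ h a 0 := by
    rw [pow_two]
    refine MG_mul' ρ h hu hu ?_ le_rfl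
    intro i; simp
  have h3 : (u - 1) ^ 3 ∈ MG ρ h a 0 := by
    rw [pow_succ]
    refine MG_mul' ρ h h2 hu ?_ le_rfl
    intro i; simp
  unfold lg
  have e2 : (3 : R) * (u - 1) ^ 2 = 3 • (u - 1) ^ 2 := by rw [nsmul_eq_mul]; norm_num
  have e3 : (2 : R) * (u - 1) ^ 3 = 2 • (u - 1) ^ 3 := by rw [nsmul_eq_mul]; norm_num
  rw [e2, e3]
  exact AddSubgroup.add_mem _ (AddSubgroup.sub_mem _ hu (AddSubgroup.nsmul_mem _ h2 _))
    (AddSubgroup.nsmul_mem _ h3 _)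

theorem mark_mem (l : Λ) : ρ (h l) - 1 ∈ MG ρ h (Pi.single l 1) 0 :=
  MG_anti ρ h _ _ _ _ le_rfl (Nat.zero_le _) (mark_mem_MG ρ h l)

theorem lgm (l : Λ) : lg (ρ (h l)) ∈ MG ρ h (Pi.single l 1) 0 := lg_mem_MG ρ h (mark_mem ρ h l)

theorem pow_mem_MG {a : Λ → ℕ} {u : R} (hu : u ∈ MG ρ h a 0) (n : ℕ) : u ^ n ∈ MG ρ h (n • a) 0 := by
  induction n with
  | zero => simpa using one_mem_MG ρ h
  | succ n ih =>
    rw [pow_succ]
    refine MG_mul' ρ h ih hu (le_of_eq ?_) le_rfl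
    rw [succ_nsmul]

theorem lead_letter (h5 : (5 : R) = 0) (hρ : ∀ g, (ρ g - 1) ^ 4 = 0) (l : Λ) :
    Lead ρ h (lg (ρ (h l))) (Pi.single l 1) (fun t => h l ^ t l) := by
  have hB := lgm ρ h l
  set B := lg (ρ (h l)) with hBdef
  have e : (fun t : Λ → ℕ => ρ (h l ^ t l) - 1) = mono (Pi.single l 1) B +
      (mono (Pi.single l 2) (3 • B ^ 2) + mono (Pi.single l 3) (B ^ 3)) := by
    funext t
    have hp : ∀ n : ℕ, ∏ j, t j ^ (Pi.single l n : Λ → ℕ) j = t l ^ n := by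
      intro n
      rw [Finset.prod_eq_single l]
      · simp
      · intro j _ hj
        simp [Pi.single_apply, hj]
      · simp
    rw [map_pow, one_add_pow_eq h5 (hρ (h l)) (t l)]
    simp only [Pi.add_apply, mono, hp]
    rw [← hBdef]
    simp only [nsmul_eq_mul, pow_one]
    push_cast
    noncomm_ring
  have m2 : mono (Pi.single l 2) (3 • B ^ 2) ∈ MF ρ h (Pi.single l 1) 2 := by
    refine mono_mem_MF ρ h ?_ ?_ ?_
    · intro j; by_cases hj : j = l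
      · subst hj; simp
      · simp [Pi.single_apply, hj]
    · rw [tot_single]
    · refine AddSubgroup.nsmul_mem _ (MG_anti ρ h _ _ _ _ (le_of_eq ?_) le_rfl (pow_mem_MG ρ h hB 2)) _
      funext j; by_cases hj : j = l
      · subst hj; simp
      · simp [Pi.single_apply, hj]
  have m3 : mono (Pi.single l 3) (B ^ 3) ∈ MF ρ h (Pi.single l 1) 2 := by
    refine mono_mem_MF ρ h ?_ ?_ ?_
    · intro j; by_cases hj : j = l
      · subst hj; simp
      · simp [Pi.single_apply, hj]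
    · rw [tot_single]; omega
    · refine (MG_anti ρ h _ _ _ _ (le_of_eq ?_) le_rfl (pow_mem_MG ρ h hB 3))
      funext j; by_cases hj : j = l
      · subst hj; simp
      · simp [Pi.single_apply, hj]
  have m1 : mono (Pi.single l 1) B ∈ MF ρ h (Pi.single l 1) 1 := by
    refine mono_mem_MF ρ h le_rfl ?_ hB
    rw [tot_single]
  refine ⟨hB, by rw [tot_single], ?_, ?_⟩
  · rw [e, tot_single]
    exact AddSubgroup.add_mem _ m1 (AddSubgroup.add_mem _ (MF_anti ρ h _ _ _ _ le_rfl (by omega) m2)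
      (MF_anti ρ h _ _ _ _ le_rfl (by omega) m3))
  · rw [e, tot_single, add_sub_cancel_left]
    exact AddSubgroup.add_mem _ m2 m3

theorem inv_mem_MF (h5 : (5 : R) = 0) (hρ : ∀ g, (ρ g - 1) ^ 4 = 0) {g : (Λ → ℕ) → G} {m : Λ → ℕ} {d : ℕ}
    (hg : (fun t => ρ (g t) - 1) ∈ MF ρ h m d) : (fun t => ρ ((g t)⁻¹) - 1) ∈ MF ρ h m d := by
  set F : (Λ → ℕ) → R := fun t => ρ (g t) - 1 with hF
  have e : (fun t => ρ ((g t)⁻¹) - 1) = 4 • F + 6 • (F * F) + 4 • (F * F * F) + F * F * F * F := by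
    funext t
    have h1 : ρ ((g t)⁻¹) = (1 + F t) ^ 4 := by
      have h2 : (1 + F t) = ρ (g t) := by simp [hF]
      rw [h2]
      have e1 : ρ (g t) * ρ (g t)⁻¹ = 1 := by rw [← map_mul]; simp
      have e2 : ρ (g t) ^ 4 * ρ (g t) = 1 := by
        rw [← pow_succ]
        exact pow_five_eq_one h5 (hρ (g t))
      calc ρ (g t)⁻¹ = (ρ (g t) ^ 4 * ρ (g t)) * ρ (g t)⁻¹ := by rw [e2, one_mul]
        _ = ρ (g t) ^ 4 := by rw [mul_assoc, e1, mul_one]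
    show ρ ((g t)⁻¹) - 1 = 4 • F t + 6 • (F t * F t) + 4 • (F t * F t * F t) + F t * F t * F t * F t
    rw [h1]
    noncomm_ring
  rw [e]
  have m2 : F * F ∈ MF ρ h m d := MF_mul' ρ h hg hg (fun i => by simp) (by omega)
  have m3 : F * F * F ∈ MF ρ h m d := MF_mul' ρ h m2 hg (fun i => by simp) (by omega)
  have m4 : F * F * F * F ∈ MF ρ h m d := MF_mul' ρ h m3 hg (fun i => by simp) (by omega)
  exact AddSubgroup.add_mem _ (AddSubgroup.add_mem _ (AddSubgroup.add_mem _ (AddSubgroup.nsmul_mem _ hg _)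
    (AddSubgroup.nsmul_mem _ m2 _)) (AddSubgroup.nsmul_mem _ m3 _)) m4

theorem lead_mono_mem {u : R} {m : Λ → ℕ} (hu : u ∈ MG ρ h m 0) : mono m u ∈ MF ρ h m (tot m) :=
  mono_mem_MF ρ h le_rfl le_rfl hu

/-- the two estimates for commutators, for abstract functions -/
theorem comm_est {m n : Λ → ℕ} {F K D M N : (Λ → ℕ) → R} (hF : F ∈ MF ρ h m (tot m))
    (hK : K ∈ MF ρ h n (tot n)) (hD : D ∈ MF ρ h 0 1) (hM : M ∈ MF ρ h m (tot m))
    (hN : N ∈ MF ρ h n (tot n)) (hFM : F - M ∈ MF ρ h m (tot m + 1))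
    (hKN : K - N ∈ MF ρ h n (tot n + 1)) :
    (F * K - K * F) + D * (F * K - K * F) ∈ MF ρ h (m + n) (tot m + tot n) ∧
    (F * K - K * F) + D * (F * K - K * F) - (M * N - N * M) ∈ MF ρ h (m + n) (tot m + tot n + 1) := by
  have hc : F * K - K * F ∈ MF ρ h (m + n) (tot m + tot n) := by
    refine AddSubgroup.sub_mem _ (MF_mul ρ h _ _ _ _ _ _ hF hK) ?_
    exact MF_mul' ρ h hK hF (le_of_eq (add_comm _ _)) (by omega)
  have hd : D * (F * K - K * F) ∈ MF ρ h (m + n) (tot m + tot n + 1) :=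
    MF_mul' ρ h hD hc (by simp) (by omega)
  refine ⟨AddSubgroup.add_mem _ hc (MF_anti ρ h _ _ _ _ le_rfl (by omega) hd), ?_⟩
  have e2 : (F * K - K * F) + D * (F * K - K * F) - (M * N - N * M) =
      D * (F * K - K * F) + ((F - M) * K + M * (K - N) - ((K - N) * F + N * (F - M))) := by
    noncomm_ring
  rw [e2]
  refine AddSubgroup.add_mem _ hd (AddSubgroup.sub_mem _ (AddSubgroup.add_mem _ ?_ ?_)
    (AddSubgroup.add_mem _ ?_ ?_))
  · exact MF_mul' ρ h hFM hK le_rfl (by omega)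
  · exact MF_mul' ρ h hM hKN le_rfl (by omega)
  · exact MF_mul' ρ h hKN hF (le_of_eq (add_comm _ _)) (by omega)
  · exact MF_mul' ρ h hN hFM (le_of_eq (add_comm _ _)) (by omega)

theorem comm_fun (g k : (Λ → ℕ) → G) :
    (fun t => ρ ((g t)⁻¹ * (k t)⁻¹ * g t * k t) - 1) =
      ((fun t => ρ (g t) - 1) * (fun t => ρ (k t) - 1) - (fun t => ρ (k t) - 1) * (fun t => ρ (g t) - 1)) +
      ((fun t => ρ ((g t)⁻¹) - 1) + (fun t => ρ ((k t)⁻¹) - 1) +
        (fun t => ρ ((g t)⁻¹) - 1) * (fun t => ρ ((k t)⁻¹) - 1)) *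
      ((fun t => ρ (g t) - 1) * (fun t => ρ (k t) - 1) - (fun t => ρ (k t) - 1) * (fun t => ρ (g t) - 1)) := by
  funext t
  rw [comm_id'']
  simp only [Pi.add_apply, Pi.sub_apply, Pi.mul_apply, mul_inv_rev, map_mul]
  noncomm_ring

theorem lead_comm (h5 : (5 : R) = 0) (hρ : ∀ g, (ρ g - 1) ^ 4 = 0) {u v : R} {m n : Λ → ℕ}
    {g k : (Λ → ℕ) → G} (hg : Lead ρ h u m g) (hk : Lead ρ h v n k) :
    Lead ρ h (u * v - v * u) (m + n) (fun t => (g t)⁻¹ * (k t)⁻¹ * g t * k t) := by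
  have hgi := inv_mem_MF ρ h h5 hρ hg.mem
  have hki := inv_mem_MF ρ h h5 hρ hk.mem
  have hpos := hg.pos
  have hpos' := hk.pos
  have hF1 := MF_anti ρ h 0 1 _ _ (fun i => Nat.zero_le _) hpos hgi
  have hK1 := MF_anti ρ h 0 1 _ _ (fun i => Nat.zero_le _) hpos' hki
  have hD := AddSubgroup.add_mem _ (AddSubgroup.add_mem _ hF1 hK1)
    (MF_mul' ρ h (A := 0) (D := 1) hF1 hK1 (by simp) (by omega))
  have hest := comm_est ρ h hg.mem hk.mem hD (lead_mono_mem ρ h hg.umem) (lead_mono_mem ρ h hk.umem)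
    hg.lead hk.lead
  rw [← comm_fun] at hest
  refine ⟨?_, by rw [tot_add]; omega, ?_, ?_⟩
  · refine AddSubgroup.sub_mem _ (MG_mul' ρ h hg.umem hk.umem le_rfl le_rfl) ?_
    exact MG_mul' ρ h hk.umem hg.umem (le_of_eq (add_comm _ _)) le_rfl
  · rw [tot_add]
    exact hest.1
  · rw [tot_add]
    have e3 : mono (m + n) (u * v - v * u) = mono m u * mono n v - mono n v * mono m u := by
      rw [mono_mul, mono_mul, mono_sub, add_comm n m]
    rw [e3]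
    exact hest.2

theorem chi_fun (b : Bool) (g : (Λ → ℕ) → G) :
    (1 + chi b (fun t => ρ (g t) - 1) : (Λ → ℕ) → R) = fun t => ρ (bif b then g t else 1) := by
  funext t
  cases b <;> simp [chi]

theorem prodF4 {a b c d : Λ → ℕ} {i j k l : ℕ} {r s t u : (Λ → ℕ) → R} (h1 : r ∈ MF ρ h a i)
    (h2 : s ∈ MF ρ h b j) (h3 : t ∈ MF ρ h c k) (h4 : u ∈ MF ρ h d l) {A : Λ → ℕ} {D : ℕ}
    (hA : A ≤ a + b + c + d) (hD : D ≤ i + j + k + l) : r * s * t * u ∈ MF ρ h A D :=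
  MF_anti ρ h _ _ _ _ hA hD (MF_mul ρ h _ _ _ _ _ _ (MF_mul ρ h _ _ _ _ _ _
    (MF_mul ρ h _ _ _ _ _ _ h1 h2) h3) h4)

theorem MF_sym4 {a1 a2 a3 a4 A : Λ → ℕ} {d1 d2 d3 d4 D : ℕ} {a b c d : (Λ → ℕ) → R} (ha : a ∈ MF ρ h a1 d1)
    (hb : b ∈ MF ρ h a2 d2) (hc : c ∈ MF ρ h a3 d3) (hd : d ∈ MF ρ h a4 d4)
    (hA : A ≤ a1 + a2 + a3 + a4) (hD : D ≤ d1 + d2 + d3 + d4) : sym4 a b c d ∈ MF ρ h A D := by
  unfold sym4
  refine AddSubgroup.add_mem _ (AddSubgroup.add_mem _ (AddSubgroup.add_mem _ (AddSubgroup.add_mem _ (AddSubgroup.add_mem _ (AddSubgroup.add_mem _ (AddSubgroup.add_mem _ (AddSubgroup.add_mem _ (AddSubgroup.add_mem _ (AddSubgroup.add_mem _ (AddSubgroup.add_mem _ (AddSubgroup.add_mem _ (AddSubgroup.add_mem _ (AddSubgroup.add_mem _ (AddSubgroup.add_mem _ (AddSubgroup.add_mem _ (AddSubgroup.add_mem _ (AddSubgroup.add_mem _ (AddSubgroup.add_mem _ (AddSubgroup.add_mem _ (AddSubgroup.add_mem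 _ (AddSubgroup.add_mem _ (AddSubgroup.add_mem _ (prodF4 ρ h ha hb hc hd ?_ ?_) (prodF4 ρ h ha hb hd hc ?_ ?_)) (prodF4 ρ h ha hc hb hd ?_ ?_)) (prodF4 ρ h ha hc hd hb ?_ ?_)) (prodF4 ρ h ha hd hb hc ?_ ?_)) (prodF4 ρ h ha hd hc hb ?_ ?_)) (prodF4 ρ h hb ha hc hd ?_ ?_)) (prodF4 ρ h hb ha hd hc ?_ ?_)) (prodF4 ρ h hb hc ha hd ?_ ?_)) (prodF4 ρ h hb hc hd ha ?_ ?_)) (prodF4 ρ h hb hd ha hc ?_ ?_)) (prodF4 ρ h hb hd hc ha ?_ ?_)) (prodF4 ρ h hc ha hb hd ?_ ?_)) (prodF4 ρ h hc ha hd hb ?_ ?_)) (prodF4 ρ h hc hb ha hd ?_ ?_)) (prodF4 ρ h hc hb hd ha ?_ ?_)) (prodF4 ρ h hc hd ha hb ?_ ?_)) (prodF4 ρ h hc hd hb ha ?_ ?_)) (prodF4 ρ h hd ha hb hc ?_ ?_)) (prodF4 ρ h hd ha hc hb ?_ ?_)) (prodF4 ρ h hd hb ha hc ?_ ?_)) (prodF4 ρ h hd hb hc ha ?_ ?_)) (prodF4 ρ h hd hc ha hb ?_ ?_)) (prodF4 ρ h hd hc hb ha ?_ ?_)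
  all_goals first
    | omega
    | (refine hA.trans (le_of_eq ?_); abel)
    | exact hA

theorem sym4_nsmul (n1 n2 n3 n4 : ℕ) (a b c d : R) :
    sym4 (n1 • a) (n2 • b) (n3 • c) (n4 • d) = (n1 * n2 * n3 * n4) • sym4 a b c d := by
  have e1 : ∀ (n : ℕ) (a b c d : R), sym4 (n • a) b c d = n • sym4 a b c d := by
    intro n a b c d
    simp only [sym4, smul_mul_assoc, mul_smul_comm, smul_add]
  have e2 : ∀ (n : ℕ) (a b c d : R), sym4 a (n • b) c d = n • sym4 a b c d := by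
    intro n a b c d
    simp only [sym4, smul_mul_assoc, mul_smul_comm, smul_add]
  have e3 : ∀ (n : ℕ) (a b c d : R), sym4 a b (n • c) d = n • sym4 a b c d := by
    intro n a b c d
    simp only [sym4, smul_mul_assoc, mul_smul_comm, smul_add]
  have e4 : ∀ (n : ℕ) (a b c d : R), sym4 a b c (n • d) = n • sym4 a b c d := by
    intro n a b c d
    simp only [sym4, smul_mul_assoc, mul_smul_comm, smul_add]
  rw [e1, e2, e3, e4, smul_smul, smul_smul, smul_smul]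

omit [DecidableEq Λ] in
theorem sym4_mono (m1 m2 m3 m4 : Λ → ℕ) (a b c d : R) :
    sym4 (mono m1 a) (mono m2 b) (mono m3 c) (mono m4 d) = mono (m1 + m2 + m3 + m4) (sym4 a b c d) := by
  funext t
  have e : sym4 (mono m1 a) (mono m2 b) (mono m3 c) (mono m4 d) t =
      sym4 (mono m1 a t) (mono m2 b t) (mono m3 c t) (mono m4 d t) := by
    simp only [sym4, Pi.add_apply, Pi.mul_apply]
  rw [e]
  simp only [mono]
  rw [sym4_nsmul]
  congr 1
  rw [← Finset.prod_mul_distrib, ← Finset.prod_mul_distrib, ← Finset.prod_mul_distrib]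
  refine Finset.prod_congr rfl fun l _ => ?_
  simp only [Pi.add_apply, pow_add]

/-- the leading term of `sym4` -/
theorem lead_sym4 (hρ : ∀ g, (ρ g - 1) ^ 4 = 0) {u1 u2 u3 u4 : R} {m1 m2 m3 m4 : Λ → ℕ}
    {g1 g2 g3 g4 : (Λ → ℕ) → G} (l1 : Lead ρ h u1 m1 g1) (l2 : Lead ρ h u2 m2 g2)
    (l3 : Lead ρ h u3 m3 g3) (l4 : Lead ρ h u4 m4 g4) :
    mono (m1 + m2 + m3 + m4) (sym4 u1 u2 u3 u4) ∈ MF ρ h (m1 + m2 + m3 + m4)
      (tot (m1 + m2 + m3 + m4) + 1) := by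
  rw [tot_add, tot_add, tot_add]
  have main : sym4 (fun t => ρ (g1 t) - 1) (fun t => ρ (g2 t) - 1) (fun t => ρ (g3 t) - 1)
      (fun t => ρ (g4 t) - 1) ∈ MF ρ h (m1 + m2 + m3 + m4) (tot m1 + tot m2 + tot m3 + tot m4 + 1) := by
    have := main_sym4G (M := MF ρ h) (α := ![m1, m2, m3, m4]) (δ := ![tot m1, tot m2, tot m3, tot m4]) (by
        intro i
        fin_cases i
        · exact l1.pos
        · exact l2.pos
        · exact l3.pos
        · exact l4.pos) (one_mem_MF ρ h) (MF_mul ρ h) (fun a d a' d' h1 h2 => MF_anti ρ h a d a' d' h1 h2)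
      (A0 := fun t => ρ (g1 t) - 1) (A1 := fun t => ρ (g2 t) - 1) (A2 := fun t => ρ (g3 t) - 1)
      (A3 := fun t => ρ (g4 t) - 1) l1.mem l2.mem l3.mem l4.mem (by
        intro s
        rw [chi_fun, chi_fun, chi_fun, chi_fun]
        funext t
        show (ρ (bif s.1 then g1 t else 1) * ρ (bif s.2.1 then g2 t else 1) *
          ρ (bif s.2.2.1 then g3 t else 1) * ρ (bif s.2.2.2 then g4 t else 1) - 1) ^ 4 = 0
        rw [← map_mul, ← map_mul, ← map_mul]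
        exact hρ _)
    exact this
  have k1 := lead_mono_mem ρ h l1.umem
  have k2 := lead_mono_mem ρ h l2.umem
  have k3 := lead_mono_mem ρ h l3.umem
  have hsub := sym4_sub (fun t => ρ (g1 t) - 1) (fun t => ρ (g2 t) - 1) (fun t => ρ (g3 t) - 1)
    (fun t => ρ (g4 t) - 1) (mono m1 u1) (mono m2 u2) (mono m3 u3) (mono m4 u4)
  have hs : sym4 (fun t => ρ (g1 t) - 1) (fun t => ρ (g2 t) - 1) (fun t => ρ (g3 t) - 1)
      (fun t => ρ (g4 t) - 1) - sym4 (mono m1 u1) (mono m2 u2) (mono m3 u3) (mono m4 u4) ∈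
      MF ρ h (m1 + m2 + m3 + m4) (tot m1 + tot m2 + tot m3 + tot m4 + 1) := by
    rw [hsub]
    refine AddSubgroup.add_mem _ (AddSubgroup.add_mem _ (AddSubgroup.add_mem _ ?_ ?_) ?_) ?_
    · exact MF_sym4 ρ h l1.lead l2.mem l3.mem l4.mem le_rfl (by omega)
    · exact MF_sym4 ρ h k1 l2.lead l3.mem l4.mem le_rfl (by omega)
    · exact MF_sym4 ρ h k1 k2 l3.lead l4.mem le_rfl (by omega)
    · exact MF_sym4 ρ h k1 k2 k3 l4.lead le_rfl (by omega)
  have := AddSubgroup.sub_mem _ main hs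
  rw [sub_sub_cancel, sym4_mono] at this
  exact this

end Mono

end Pool.Agent.MP5c99ad
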