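import Mathlib
import Pool.Agent.Lib.MP_5c99ad_al.LawA

set_option autoImplicit false

/-!
Exact transfer of ring laws, part B: extraction of coefficients and the transfer theorem.
-/

namespace Pool.Agent.MP5c99ad

section Ext

variable {Λ : Type} [Fintype Λ] [DecidableEq Λ] {G R : Type} [Group G] [Ring R] (ρ : G →* R) (h : Λ → G)

/-- weight of one variable -/
def wgt (k : ℕ) (i : Fin 4) : ℤ := -((i : ℤ) + 1) ^ (3 * k)

/-- extraction of the coefficients with exponents congruent to `κ` modulo 4 -/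
def Ext (κ : Λ → ℕ) : ((Λ → ℕ) → R) →+ R where
  toFun F := ∑ a : Λ → Fin 4, (∏ l, wgt (κ l) (a l)) • F (fun l => (a l : ℕ) + 1)
  map_zero' := by simp
  map_add' := by
    intro F F'
    simp [smul_add, Finset.sum_add_distrib]

theorem sum_four (n : ℕ) : ∃ c : ℤ, ∑ i : Fin 4, -((i : ℤ) + 1) ^ n = (if 4 ∣ n then 1 else 0) + 5 * c := by
  have h4 : ∀ i : Fin 4, (((i : ℤ) + 1) ^ 4) ≡ 1 [ZMOD 5] := by decide
  have hm : ∀ i : Fin 4, ((i : ℤ) + 1) ^ n ≡ ((i : ℤ) + 1) ^ (n % 4) [ZMOD 5] := by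
    intro i
    have : n = 4 * (n / 4) + n % 4 := (Nat.div_add_mod n 4).symm
    calc ((i : ℤ) + 1) ^ n = (((i : ℤ) + 1) ^ 4) ^ (n / 4) * ((i : ℤ) + 1) ^ (n % 4) := by
          rw [← pow_mul, ← pow_add, ← this]
      _ ≡ 1 ^ (n / 4) * ((i : ℤ) + 1) ^ (n % 4) [ZMOD 5] := Int.ModEq.mul_right _ ((h4 i).pow _)
      _ = ((i : ℤ) + 1) ^ (n % 4) := by simp
  have hs : ∑ i : Fin 4, -((i : ℤ) + 1) ^ n ≡ ∑ i : Fin 4, -((i : ℤ) + 1) ^ (n % 4) [ZMOD 5] := by
    simp only [Fin.sum_univ_four]
    exact ((((hm 0).neg).add (hm 1).neg).add (hm 2).neg).add (hm 3).neg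
  have hr : n % 4 < 4 := Nat.mod_lt _ (by norm_num)
  have hd : (4 ∣ n) ↔ n % 4 = 0 := Nat.dvd_iff_mod_eq_zero
  have hv : ∑ i : Fin 4, -((i : ℤ) + 1) ^ (n % 4) ≡ (if 4 ∣ n then 1 else 0) [ZMOD 5] := by
    simp only [hd]
    interval_cases (n % 4) <;> decide
  obtain ⟨c, hc⟩ := (hs.trans hv).dvd
  refine ⟨-c, ?_⟩
  linarith

theorem prod_mod (f g : Λ → ℤ) (hfg : ∀ l, ∃ c, f l = g l + 5 * c) (s : Finset Λ) :
    ∃ c, ∏ l ∈ s, f l = ∏ l ∈ s, g l + 5 * c := by
  induction s using Finset.induction_on with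
  | empty => exact ⟨0, by simp⟩
  | insert a s ha ih =>
    obtain ⟨c, hc⟩ := ih
    obtain ⟨c', hc'⟩ := hfg a
    rw [Finset.prod_insert ha, Finset.prod_insert ha, hc, hc']
    exact ⟨g a * c + c' * (∏ l ∈ s, g l) + 5 * c' * c, by ring⟩

theorem Ext_mono (h5 : (5 : R) = 0) (κ e : Λ → ℕ) (f : R) :
    Ext κ (mono e f) = if ∀ l, 4 ∣ 3 * κ l + e l then f else 0 := by
  have e1 : Ext κ (mono e f) = (∏ l, ∑ i : Fin 4, -((i : ℤ) + 1) ^ (3 * κ l + e l)) • f := by
    rw [Finset.prod_univ_sum, Finset.sum_smul]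
    show ∑ a : Λ → Fin 4, (∏ l, wgt (κ l) (a l)) • mono e f (fun l => (a l : ℕ) + 1) = _
    rw [Fintype.piFinset_univ]
    refine Finset.sum_congr rfl fun a _ => ?_
    have e2 : mono e f (fun l => (a l : ℕ) + 1) = (∏ l, (((a l : ℕ) : ℤ) + 1) ^ e l) • f := by
      show (∏ l, ((a l : ℕ) + 1) ^ e l) • f = _
      rw [← natCast_zsmul]
      congr 1
      push_cast
      rfl
    rw [e2, smul_smul, ← Finset.prod_mul_distrib]
    congr 1
    refine Finset.prod_congr rfl fun l _ => ?_
    rw [wgt, pow_add]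
    push_cast
    ring
  have h5' : ∀ c : ℤ, (5 * c) • f = 0 := by
    intro c
    rw [mul_comm, mul_smul]
    have : (5 : ℤ) • f = 0 := by
      rw [zsmul_eq_mul]
      norm_num
      rw [h5, zero_mul]
    rw [this, smul_zero]
  obtain ⟨c, hc⟩ := prod_mod _ (fun l => if 4 ∣ 3 * κ l + e l then (1 : ℤ) else 0)
    (fun l => sum_four (3 * κ l + e l)) Finset.univ
  rw [e1, hc, add_smul, h5', add_zero]
  split_ifs with hd
  · rw [Finset.prod_congr rfl (fun l _ => if_pos (hd l)), Finset.prod_const_one, one_smul]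
  · push_neg at hd
    obtain ⟨l, hl⟩ := hd
    rw [Finset.prod_eq_zero (Finset.mem_univ l) (if_neg hl), zero_smul]

/-- the span of the products in which one letter occurs 4 times too often -/
def Dd (c : Λ → ℕ) : AddSubgroup R := ⨆ l, MG ρ h (c + Pi.single l 4) 0

theorem Ext_deep (h5 : (5 : R) = 0) {κ : Λ → ℕ} {F : (Λ → ℕ) → R} (hF : F ∈ MF ρ h κ (tot κ + 1)) :
    Ext κ F ∈ Dd ρ h κ := by
  induction hF using AddSubgroup.closure_induction with
  | mem s hs =>
    obtain ⟨e, f, h1, h2, h3, rfl⟩ := hs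
    rw [Ext_mono h5]
    split_ifs with hd
    · have hne : ∃ l, κ l < e l := by
        by_contra hcon
        push_neg at hcon
        have : tot e ≤ tot κ := tot_mono hcon
        omega
      obtain ⟨l, hl⟩ := hne
      refine (le_iSup (fun l => MG ρ h (κ + Pi.single l 4) 0) l) (MG_anti ρ h _ _ _ _ ?_ le_rfl h3)
      intro j
      by_cases hj : j = l
      · subst hj
        have := hd j
        simp only [Pi.add_apply, Pi.single_eq_same]
        omega
      · simpa [Pi.single_apply, hj] using h1 j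
    · exact AddSubgroup.zero_mem _
  | zero => rw [map_zero]; exact AddSubgroup.zero_mem _
  | add a b _ _ ha hb => rw [map_add]; exact AddSubgroup.add_mem _ ha hb
  | neg a _ ha => rw [map_neg]; exact AddSubgroup.neg_mem _ ha

/-- a Lie polynomial in logarithms is the extraction of its commutator word, up to deep terms -/
theorem Lead.ext_sub (h5 : (5 : R) = 0) {u : R} {m : Λ → ℕ} {g : (Λ → ℕ) → G} (hg : Lead ρ h u m g) :
    Ext m (fun t => ρ (g t) - 1) - u ∈ Dd ρ h m := by
  have h1 := Ext_deep ρ h h5 hg.lead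
  rw [map_sub, Ext_mono h5, if_pos (fun l => ⟨m l, by ring⟩)] at h1
  exact h1

/-- `sym4` of four Lie polynomials in logarithms is deep -/
theorem sym4_exact (h5 : (5 : R) = 0) (hρ : ∀ g, (ρ g - 1) ^ 4 = 0) {u1 u2 u3 u4 : R} {m1 m2 m3 m4 : Λ → ℕ}
    {g1 g2 g3 g4 : (Λ → ℕ) → G} (l1 : Lead ρ h u1 m1 g1) (l2 : Lead ρ h u2 m2 g2)
    (l3 : Lead ρ h u3 m3 g3) (l4 : Lead ρ h u4 m4 g4) :
    sym4 u1 u2 u3 u4 ∈ Dd ρ h (m1 + m2 + m3 + m4) := by
  have h1 := Ext_deep ρ h h5 (lead_sym4 ρ h hρ l1 l2 l3 l4)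
  rw [Ext_mono h5, if_pos (fun l => ⟨(m1 + m2 + m3 + m4) l, by ring⟩)] at h1
  exact h1

theorem Dd_mul_left {a b : Λ → ℕ} {r s : R} (hr : r ∈ MG ρ h a 0) (hs : s ∈ Dd ρ h b) :
    r * s ∈ Dd ρ h (a + b) := by
  unfold Dd at hs ⊢
  induction hs using AddSubgroup.iSup_induction' with
  | hp l y hy =>
    refine (le_iSup (fun l => MG ρ h (a + b + Pi.single l 4) 0) l) (MG_mul' ρ h hr hy (le_of_eq ?_) le_rfl)
    rw [add_assoc]
  | h1 => rw [mul_zero]; exact AddSubgroup.zero_mem _
  | hadd x y _ _ hx hy => rw [mul_add]; exact AddSubgroup.add_mem _ hx hy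

theorem Dd_mul_right {a b : Λ → ℕ} {r s : R} (hr : r ∈ Dd ρ h a) (hs : s ∈ MG ρ h b 0) :
    r * s ∈ Dd ρ h (a + b) := by
  unfold Dd at hr ⊢
  induction hr using AddSubgroup.iSup_induction' with
  | hp l y hy =>
    refine (le_iSup (fun l => MG ρ h (a + b + Pi.single l 4) 0) l) (MG_mul' ρ h hy hs (le_of_eq ?_) le_rfl)
    abel
  | h1 => rw [zero_mul]; exact AddSubgroup.zero_mem _
  | hadd x y _ _ hx hy => rw [add_mul]; exact AddSubgroup.add_mem _ hx hy

/-- the values of the letters -/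
def lgv (l : Λ) : R := lg (ρ (h l))

/-- content of a multiset as a function -/
def mct (C : Multiset Λ) : Λ → ℕ := fun l => C.count l

theorem mct_add (C D : Multiset Λ) : mct (C + D) = mct C + mct D := by
  funext l; simp [mct]

theorem mct_single (l : Λ) : mct ({l} : Multiset Λ) = Pi.single l 1 := by
  funext j
  by_cases hj : j = l
  · subst hj; simp [mct]
  · simp [mct, Pi.single_apply, hj]

theorem prod_lgv_mem (w : List Λ) : (w.map (lgv ρ h)).prod ∈ MG ρ h (mct (w : Multiset Λ)) 0 := by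
  induction w with
  | nil =>
    have : mct ((([] : List Λ)) : Multiset Λ) = 0 := by funext l; simp [mct]
    rw [this]
    simpa using one_mem_MG ρ h
  | cons a w ih =>
    rw [List.map_cons, List.prod_cons]
    have : mct (((a :: w : List Λ)) : Multiset Λ) = Pi.single a 1 + mct (w : Multiset Λ) := by
      rw [← mct_single, ← mct_add]
      rfl
    rw [this]
    exact MG_mul' ρ h (lgm ρ h a) ih le_rfl le_rfl

theorem evF_lgv_mem {C : Multiset Λ} {a : FR Λ} (ha : a ∈ Hom C) :
    evF (lgv ρ h) a ∈ MG ρ h (mct C) 0 := by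
  induction ha using AddSubgroup.closure_induction with
  | mem s hs =>
    obtain ⟨l, rfl, rfl⟩ := hs
    rw [evF_wd]
    exact prod_lgv_mem ρ h l
  | zero => rw [map_zero]; exact AddSubgroup.zero_mem _
  | add a b _ _ ha hb => rw [map_add]; exact AddSubgroup.add_mem _ ha hb
  | neg a _ ha => rw [map_neg]; exact AddSubgroup.neg_mem _ ha

/-- Lie monomials of the free ring have leading-term functions -/
theorem LieMonS_lead (h5 : (5 : R) = 0) (hρ : ∀ g, (ρ g - 1) ^ 4 = 0) {u : FR Λ}
    (hu : LieMonS (Set.range (fun l : Λ => (wd [l] : FR Λ))) u) :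
    ∃ C : Multiset Λ, u ∈ Hom C ∧ ∃ g, Lead ρ h (evF (lgv ρ h) u) (mct C) g := by
  induction hu with
  | letter y hy =>
    obtain ⟨l, rfl⟩ := hy
    refine ⟨([l] : List Λ), wd_mem _, fun t => h l ^ t l, ?_⟩
    have e : evF (lgv ρ h) (wd [l] : FR Λ) = lg (ρ (h l)) := by
      rw [evF_wd]; simp [lgv]
    have e2 : mct ((([l] : List Λ)) : Multiset Λ) = Pi.single l 1 := mct_single l
    show Lead ρ h (evF (lgv ρ h) (wd [l] : FR Λ)) _ _
    rw [e, e2]
    exact lead_letter ρ h h5 hρ l
  | br a b _ _ iha ihb =>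
    obtain ⟨C, hC, g, hg⟩ := iha
    obtain ⟨D, hD, k, hk⟩ := ihb
    refine ⟨C + D, ?_, fun t => (g t)⁻¹ * (k t)⁻¹ * g t * k t, ?_⟩
    · exact AddSubgroup.sub_mem _ (Hom_mul hC hD) (cast4 (Hom_mul hD hC) (by abel))
    · rw [mct_add, map_sub, map_mul, map_mul]
      exact lead_comm ρ h h5 hρ hg hk

/-- **Transfer of ring laws.**  A homogeneous element `law` of content `C` of the free ring on `Λ` which
vanishes in all rings of characteristic 5 with commutations `E` and all relations `sym4 = 0` for Lie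
monomials takes on the logarithms of the `h l` a value in the deep part. -/
theorem law_transfer (h5 : (5 : R) = 0) (hρ : ∀ g, (ρ g - 1) ^ 4 = 0) {E : Λ → Λ → Prop}
    (hE : ∀ i j, E i j → h i * h j = h j * h i) (C : Multiset Λ) (law : FR Λ) (hlaw : law ∈ Hom C)
    (hring : ∀ (U : Type) [Ring U], (5 : U) = 0 → ∀ X : Λ → U, (∀ i j, E i j → X i * X j = X j * X i) →
      (∀ u1 u2 u3 u4, LieMonS (Set.range X) u1 → LieMonS (Set.range X) u2 → LieMonS (Set.range X) u3 →
        LieMonS (Set.range X) u4 → sym4 u1 u2 u3 u4 = 0) → evF X law = 0) :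
    evF (lgv ρ h) law ∈ Dd ρ h (mct C) := by
  set K : AddSubgroup R := Dd ρ h (mct C) with hK
  obtain ⟨V, _, q, ψ, hsurj, hψ, hker⟩ := functional_quotient (phiC (lgv ρ h) K C)
  have h5q : (5 : V) = 0 := by
    have := hker (5 : FR Λ) (by
      intro P S
      have : P * 5 * S = (5 : ℤ) • (P * S) := by
        have h5c : P * (5 : FR Λ) = (5 : FR Λ) * P := (Nat.cast_commute 5 P).symm.eq
        rw [h5c, mul_assoc, zsmul_eq_mul]
        norm_num
      rw [this, map_zsmul]
      exact five_smul h5 K _)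
    rw [← this]
    exact (map_ofNat q 5).symm
  have hq : q law = 0 := by
    have := hring V h5q (fun l => q (wd [l])) ?_ ?_
    · have e : evF (fun l => q (wd [l])) law = q law := by
        have : (evF (fun l => q (wd [l])) : FR Λ →+* V) = q := by
          apply MonoidAlgebra.ringHom_ext
          · intro r
            have e1 : (MonoidAlgebra.single 1 r : FR Λ) = ((r : ℤ) : FR Λ) := by
              simp [MonoidAlgebra.intCast_def]
            rw [e1, map_intCast, map_intCast]
          · intro w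
            have e2 : (MonoidAlgebra.single w 1 : FR Λ) = wd (FreeMonoid.toList w) := rfl
            rw [e2, evF_wd]
            generalize FreeMonoid.toList w = l
            induction l with
            | nil => rw [wd_nil, map_one]; rfl
            | cons a l ih =>
              have e3 : (wd (a :: l) : FR Λ) = wd [a] * wd l := by rw [wd_mul]; rfl
              rw [e3, map_mul, ← ih]
              rfl
        rw [this]
      rw [← e]
      exact this
    · intro i j hij
      rw [← sub_eq_zero, ← map_mul, ← map_mul, ← map_sub]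
      refine hker _ (phiC_context _ _ ?_)
      intro l l'
      have hhom : wd l * (wd [i] * wd [j] - wd [j] * wd [i]) * wd l' ∈
          Hom ((l ++ [i, j] ++ l' : List Λ) : Multiset Λ) := by
        have e : wd l * (wd [i] * wd [j] - wd [j] * wd [i]) * wd l' =
            (wd (l ++ [i, j] ++ l') - wd (l ++ [j, i] ++ l') : FR Λ) := by
          rw [wd_mul, wd_mul, mul_sub, sub_mul, wd_mul, wd_mul, wd_mul, wd_mul]
          rfl
        rw [e]
        refine AddSubgroup.sub_mem _ (wd_mem _) (cast4 (wd_mem _) ?_)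
        exact Multiset.coe_eq_coe.2 (List.Perm.append_right _ (List.Perm.append_left _ (List.Perm.swap _ _ _)))
      by_cases hκ : ((l ++ [i, j] ++ l' : List Λ) : Multiset Λ) = C
      · rw [hκ] at hhom
        rw [phiC_eq _ _ _ hhom]
        apply mk_zero_of
        have hc : lgv ρ h i * lgv ρ h j = lgv ρ h j * lgv ρ h i := by
          have hcc : Commute (ρ (h i)) (ρ (h j)) := by
            show ρ (h i) * ρ (h j) = ρ (h j) * ρ (h i)
            rw [← map_mul, hE i j hij, map_mul]
          have h1 : Commute (ρ (h i) - 1) (ρ (h j) - 1) :=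
            (hcc.sub_left (Commute.one_left _)).sub_right (Commute.one_right _)
          have hlg : ∀ a b : R, Commute (a - 1) (b - 1) → Commute (lg a) (b - 1) := by
            intro a b hab
            unfold lg
            have h3 : Commute (3 : R) (b - 1) := Nat.cast_commute 3 _
            have h2 : Commute (2 : R) (b - 1) := Nat.cast_commute 2 _
            exact (hab.sub_left (h3.mul_left (hab.pow_left 2))).add_left (h2.mul_left (hab.pow_left 3))
          have h2 := hlg _ _ h1
          have hlg' : Commute (lg (ρ (h i))) (lg (ρ (h j))) := by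
            unfold lg at h2 ⊢
            have h3 : ∀ a : R, Commute a (3 : R) := fun a => (Nat.cast_commute 3 a).symm
            have h2' : ∀ a : R, Commute a (2 : R) := fun a => (Nat.cast_commute 2 a).symm
            exact (h2.sub_right ((h3 _).mul_right (h2.pow_right 2))).add_right
              ((h2' _).mul_right (h2.pow_right 3))
          exact hlg'
        rw [map_mul, map_mul, map_sub, map_mul, map_mul, evF_wd, evF_wd, evF_wd, evF_wd]
        simp only [List.map_cons, List.map_nil, List.prod_cons, List.prod_nil, mul_one]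
        rw [hc, sub_self, mul_zero, zero_mul]
        exact AddSubgroup.zero_mem _
      · exact phiC_ne _ _ _ hκ hhom
    · intro u1 u2 u3 u4 h1 h2 h3 h4
      have himg : Set.range (fun l => q (wd [l])) = q '' (Set.range (fun l : Λ => (wd [l] : FR Λ))) := by
        rw [← Set.range_comp]
        rfl
      rw [himg] at h1 h2 h3 h4
      obtain ⟨v1, hv1, rfl⟩ := h1.lift q
      obtain ⟨v2, hv2, rfl⟩ := h2.lift q
      obtain ⟨v3, hv3, rfl⟩ := h3.lift q
      obtain ⟨v4, hv4, rfl⟩ := h4.lift q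
      rw [← sym4_map]
      refine hker _ (phiC_context _ _ ?_)
      intro l l'
      obtain ⟨C1, c1, g1, l1⟩ := LieMonS_lead ρ h h5 hρ hv1
      obtain ⟨C2, c2, g2, l2⟩ := LieMonS_lead ρ h h5 hρ hv2
      obtain ⟨C3, c3, g3, l3⟩ := LieMonS_lead ρ h h5 hρ hv3
      obtain ⟨C4, c4, g4, l4⟩ := LieMonS_lead ρ h h5 hρ hv4
      have hhom : wd l * sym4 v1 v2 v3 v4 * wd l' ∈ Hom ((l : Multiset Λ) + (C1 + C2 + C3 + C4) +
          (l' : Multiset Λ)) := Hom_mul (Hom_mul (wd_mem l) (Hom_sym4 c1 c2 c3 c4)) (wd_mem l')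
      by_cases hc : (l : Multiset Λ) + (C1 + C2 + C3 + C4) + (l' : Multiset Λ) = C
      · rw [hc] at hhom
        rw [phiC_eq _ _ _ hhom]
        apply mk_zero_of
        rw [map_mul, map_mul, evF_wd, evF_wd, sym4_map]
        have h6 := Dd_mul_right ρ h (Dd_mul_left ρ h (prod_lgv_mem ρ h l) (sym4_exact ρ h h5 hρ l1 l2 l3 l4))
          (prod_lgv_mem ρ h l')
        rw [← mct_add, ← mct_add, ← mct_add, ← mct_add, ← mct_add, hc] at h6
        exact h6
      · exact phiC_ne _ _ _ hc hhom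
  have h7 : phiC (lgv ρ h) K C law = 0 := by
    rw [← hψ, hq, map_zero]
  rw [phiC_eq _ _ _ hlaw] at h7
  exact (QuotientAddGroup.eq_zero_iff _).1 h7

end Ext

end Pool.Agent.MP5c99ad
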