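import Mathlib
import Pool.Agent.Lib.MP_5c99ad_al.LawB

set_option autoImplicit false

/-!
The block laws at ring level: from three certificates to words of arbitrary length.
-/

namespace Pool.Agent.MP5c99ad

section RingLaw

/-- the bracket -/
def brk {U : Type*} [Ring U] (a b : U) : U := a * b - b * a

/-- rings of characteristic 5 with two commuting blocks `p, a` and `r, q` and further letters `S`,
in which all `sym4` relations hold -/
structure BlockRing (U : Type) [Ring U] (p a r q : U) (S : Set U) : Prop where
  five : (5 : U) = 0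
  pr : p * r = r * p
  pq : p * q = q * p
  ar : a * r = r * a
  aq : a * q = q * a
  sym : ∀ u1 u2 u3 u4, LieMonS ({p, a, r, q} ∪ S) u1 → LieMonS ({p, a, r, q} ∪ S) u2 →
    LieMonS ({p, a, r, q} ∪ S) u3 → LieMonS ({p, a, r, q} ∪ S) u4 → sym4 u1 u2 u3 u4 = 0

/-- certificate 1 -/
def LawVW : Prop := ∀ (U : Type) [Ring U] (p a r q : U), BlockRing U p a r q ∅ →
  brk (brk p a) a * brk (brk r q) q = 0

/-- certificate 2 -/
def LawXY : Prop := ∀ (U : Type) [Ring U] (p a r q x y : U), BlockRing U p a r q {x, y} →
  brk (brk p a) a * x * y * brk (brk r q) q = 0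

/-- certificate 3 -/
def LawBX : Prop := ∀ (U : Type) [Ring U] (p a r q x : U), BlockRing U p a r q {x} →
  brk (brk p a) a * x * brk (brk r q) q * x = 0

/-- span of the Lie monomials -/
def LSp {U : Type*} [Ring U] (S : Set U) : AddSubgroup U := AddSubgroup.closure {u | LieMonS S u}

variable {U : Type} [Ring U]

theorem LSp_brk {S : Set U} {x y : U} (hx : x ∈ LSp S) (hy : y ∈ LSp S) : brk x y ∈ LSp S := by
  unfold brk
  induction hx using AddSubgroup.closure_induction with
  | mem s hs =>
    induction hy using AddSubgroup.closure_induction with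
    | mem t ht => exact AddSubgroup.subset_closure (LieMonS.br s t hs ht)
    | zero => simp
    | add a b _ _ ha hb =>
      have : s * (a + b) - (a + b) * s = (s * a - a * s) + (s * b - b * s) := by noncomm_ring
      rw [this]; exact AddSubgroup.add_mem _ ha hb
    | neg a _ ha =>
      have : s * (-a) - (-a) * s = -(s * a - a * s) := by noncomm_ring
      rw [this]; exact AddSubgroup.neg_mem _ ha
  | zero => simp
  | add a b _ _ ha hb =>
    have : (a + b) * y - y * (a + b) = (a * y - y * a) + (b * y - y * b) := by noncomm_ring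
    rw [this]; exact AddSubgroup.add_mem _ ha hb
  | neg a _ ha =>
    have : (-a) * y - y * (-a) = -(a * y - y * a) := by noncomm_ring
    rw [this]; exact AddSubgroup.neg_mem _ ha

theorem LSp_of {S T : Set U} (h : ∀ t ∈ T, t ∈ LSp S) {u : U} (hu : LieMonS T u) : u ∈ LSp S := by
  induction hu with
  | letter y hy => exact h y hy
  | br a b _ _ iha ihb => exact LSp_brk iha ihb

theorem LSp_mono {S T : Set U} (h : S ⊆ T) : LSp S ≤ LSp T := by
  refine (AddSubgroup.closure_le _).2 ?_
  intro u hu
  exact LSp_of (fun t ht => AddSubgroup.subset_closure (LieMonS.letter t (h ht))) hu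

theorem sym4_LSp {S : Set U} (hs : ∀ u1 u2 u3 u4, LieMonS S u1 → LieMonS S u2 → LieMonS S u3 →
    LieMonS S u4 → sym4 u1 u2 u3 u4 = 0) {a b c d : U} (ha : a ∈ LSp S) (hb : b ∈ LSp S)
    (hc : c ∈ LSp S) (hd : d ∈ LSp S) : sym4 a b c d = 0 := by
  induction ha using AddSubgroup.closure_induction with
  | mem s1 h1 =>
    induction hb using AddSubgroup.closure_induction with
    | mem s2 h2 =>
      induction hc using AddSubgroup.closure_induction with
      | mem s3 h3 =>
        induction hd using AddSubgroup.closure_induction with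
        | mem s4 h4 => exact hs _ _ _ _ h1 h2 h3 h4
        | zero => exact sym4_zero4 _ _ _
        | add a b _ _ ha hb => rw [sym4_add4, ha, hb, add_zero]
        | neg a _ ha => rw [sym4_neg4, ha, neg_zero]
      | zero => exact sym4_zero3 _ _ _
      | add a b _ _ ha hb => rw [sym4_add3, ha, hb, add_zero]
      | neg a _ ha => rw [sym4_neg3, ha, neg_zero]
    | zero => exact sym4_zero2 _ _ _
    | add a b _ _ ha hb => rw [sym4_add2, ha, hb, add_zero]
    | neg a _ ha => rw [sym4_neg2, ha, neg_zero]
  | zero => exact sym4_zero1 _ _ _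
  | add a b _ _ ha hb => rw [sym4_add1, ha, hb, add_zero]
  | neg a _ ha => rw [sym4_neg1, ha, neg_zero]

theorem BlockRing.sub {p a r q : U} {S T : Set U} (h : BlockRing U p a r q S) (hT : ∀ t ∈ T, t ∈ LSp S) :
    BlockRing U p a r q T := by
  have hincl : ∀ t ∈ ({p, a, r, q} ∪ T : Set U), t ∈ LSp ({p, a, r, q} ∪ S) := by
    rintro t (ht | ht)
    · exact AddSubgroup.subset_closure (LieMonS.letter t (Or.inl ht))
    · exact LSp_mono Set.subset_union_right (hT t ht)
  refine ⟨h.five, h.pr, h.pq, h.ar, h.aq, ?_⟩
  intro u1 u2 u3 u4 h1 h2 h3 h4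
  exact sym4_LSp h.sym (LSp_of hincl h1) (LSp_of hincl h2) (LSp_of hincl h3) (LSp_of hincl h4)

theorem five_mul_eq_zero (h5 : (5 : U) = 0) (f : U) : (5 : ℕ) • f = 0 := by
  rw [nsmul_eq_mul]
  push_cast
  rw [h5, zero_mul]

theorem law2 (hXY : LawXY) {p a r q : U} {S : Set U} (h : BlockRing U p a r q S) {x y : U}
    (hx : x ∈ LSp S) (hy : y ∈ LSp S) : brk (brk p a) a * x * y * brk (brk r q) q = 0 := by
  refine hXY U p a r q x y (h.sub ?_)
  rintro t (rfl | rfl)
  · exact hx
  · exact hy

theorem law3a (hVW : LawVW) (hXY : LawXY) (hBX : LawBX) {p a r q : U} {S : Set U}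
    (h : BlockRing U p a r q S) {x : U}
    (hx : x ∈ LSp S) : brk (brk p a) a * x * x * x * brk (brk r q) q = 0 := by
  have h1 := hVW U p a r q (h.sub (by simp))
  have h2 := law2 hXY h hx hx
  have h3 := hBX U p a r q x (h.sub (by rintro t rfl; exact hx))
  have hx' : x ∈ LSp ({p, a, r, q} ∪ S) := LSp_mono Set.subset_union_right hx
  have hr : r ∈ LSp ({p, a, r, q} ∪ S) := AddSubgroup.subset_closure (LieMonS.letter _ (by simp))
  have hq : q ∈ LSp ({p, a, r, q} ∪ S) := AddSubgroup.subset_closure (LieMonS.letter _ (by simp))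
  have hW : brk (brk r q) q ∈ LSp ({p, a, r, q} ∪ S) := LSp_brk (LSp_brk hr hq) hq
  have h4 := sym4_LSp h.sym hx' hx' hx' hW
  set V := brk (brk p a) a with hV
  set W := brk (brk r q) q with hWd
  have h5 : V * sym4 x x x W = 6 • (V * x * x * x * W) + 6 • ((V * x * x * W) * x) +
      6 • ((V * x * W * x) * x) + 6 • ((V * W) * x * x * x) := by
    unfold sym4
    noncomm_ring
  rw [h4, h2, h3, h1] at h5
  simp only [mul_zero, zero_mul, smul_zero, add_zero] at h5
  have h6 := five_mul_eq_zero h.five (V * x * x * x * W)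
  have h7 : V * x * x * x * W = 6 • (V * x * x * x * W) - 5 • (V * x * x * x * W) := by
    noncomm_ring
  rw [h7, ← h5, h6, sub_zero]

theorem law3 (hVW : LawVW) (hXY : LawXY) (hBX : LawBX) {p a r q : U} {S : Set U}
    (h : BlockRing U p a r q S) {x y z : U} (hx : x ∈ LSp S) (hy : y ∈ LSp S) (hz : z ∈ LSp S) :
    brk (brk p a) a * x * y * z * brk (brk r q) q = 0 := by
  set V := brk (brk p a) a with hV
  set W := brk (brk r q) q with hWd
  have s1 : ∀ x ∈ LSp S, ∀ y ∈ LSp S, ∀ z ∈ LSp S, V * x * y * z * W = V * y * x * z * W := by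
    intro x hx y hy z hz
    have := law2 hXY h (LSp_brk hx hy) hz
    have e : V * brk x y * z * W = V * x * y * z * W - V * y * x * z * W := by
      unfold brk; noncomm_ring
    rw [← hV, ← hWd, e, sub_eq_zero] at this
    exact this
  have s2 : ∀ x ∈ LSp S, ∀ y ∈ LSp S, ∀ z ∈ LSp S, V * x * y * z * W = V * x * z * y * W := by
    intro x hx y hy z hz
    have := law2 hXY h hx (LSp_brk hy hz)
    have e : V * x * brk y z * W = V * x * y * z * W - V * x * z * y * W := by
      unfold brk; noncomm_ring
    rw [← hV, ← hWd, e, sub_eq_zero] at this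
    exact this
  have key : ∀ x ∈ LSp S, ∀ y ∈ LSp S, V * x * y * y * W = 0 := by
    intro x hx y hy
    have h1 := law3a hVW hXY hBX h (AddSubgroup.add_mem _ hx hy)
    have h2 := law3a hVW hXY hBX h (AddSubgroup.sub_mem _ hx hy)
    have h3 := law3a hVW hXY hBX h hx
    rw [← hV, ← hWd] at h1 h2 h3
    have e : V * (x + y) * (x + y) * (x + y) * W + V * (x - y) * (x - y) * (x - y) * W =
        2 • (V * x * x * x * W) + 2 • (V * x * y * y * W) + 2 • (V * y * x * y * W) +
          2 • (V * y * y * x * W) := by
      noncomm_ring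
    rw [h1, h2, h3, ← s1 x hx y hy y hy, s2 y hy y hy x hx, ← s1 x hx y hy y hy] at e
    have h6 := five_mul_eq_zero h.five (V * x * y * y * W)
    have e2 : V * x * y * y * W = (2 • (0 : U) + 2 • (V * x * y * y * W) + 2 • (V * x * y * y * W) +
          2 • (V * x * y * y * W)) - 5 • (V * x * y * y * W) := by
      noncomm_ring
    rw [e2, ← e, h6]
    simp
  have h1 := key x hx (y + z) (AddSubgroup.add_mem _ hy hz)
  have h2 := key x hx y hy
  have h3 := key x hx z hz
  have e : V * x * (y + z) * (y + z) * W = V * x * y * y * W + V * x * z * z * W + V * x * y * z * W +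
      V * x * z * y * W := by noncomm_ring
  rw [h1, h2, h3, ← s2 x hx y hy z hz] at e
  have h6 := five_mul_eq_zero h.five (V * x * y * z * W)
  have e2 : V * x * y * z * W = 3 • ((0 : U) + 0 + V * x * y * z * W + V * x * y * z * W) -
      5 • (V * x * y * z * W) := by
    noncomm_ring
  rw [e2, ← e, h6]
  simp

/-- the case of at least four factors, abstractly -/
theorem four_fold {V : U} (h5 : (5 : U) = 0) (𝓢 : AddSubgroup U) (Q : U)
    (hs : ∀ a ∈ 𝓢, ∀ b ∈ 𝓢, ∀ c ∈ 𝓢, ∀ d ∈ 𝓢, sym4 a b c d = 0)
    (s1' : ∀ a ∈ 𝓢, ∀ b ∈ 𝓢, ∀ c ∈ 𝓢, ∀ d ∈ 𝓢, V * a * b * c * d * Q = V * b * a * c * d * Q)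
    (s2' : ∀ a ∈ 𝓢, ∀ b ∈ 𝓢, ∀ c ∈ 𝓢, ∀ d ∈ 𝓢, V * a * b * c * d * Q = V * a * c * b * d * Q)
    (s3' : ∀ a ∈ 𝓢, ∀ b ∈ 𝓢, ∀ c ∈ 𝓢, ∀ d ∈ 𝓢, V * a * b * c * d * Q = V * a * b * d * c * Q)
    (a b c d : 𝓢) : V * a * b * c * d * Q = 0 := by
  let f : 𝓢 → 𝓢 → 𝓢 → 𝓢 → U := fun a b c d => V * a * b * c * d * Q
  have s1 : ∀ a b c d, f a b c d = f b a c d := fun a b c d => s1' a a.2 b b.2 c c.2 d d.2
  have s2 : ∀ a b c d, f a b c d = f a c b d := fun a b c d => s2' a a.2 b b.2 c c.2 d d.2
  have s3 : ∀ a b c d, f a b c d = f a b d c := fun a b c d => s3' a a.2 b b.2 c c.2 d d.2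
  have hsum : V * sym4 (a : U) b c d * Q = 24 • f a b c d := by
    have ebacd : f b a c d = f a b c d := s1 b a c d
    have eacbd : f a c b d = f a b c d := s2 a c b d
    have eabdc : f a b d c = f a b c d := s3 a b d c
    have ebcad : f b c a d = f a b c d := (s2 b c a d).trans ebacd
    have ebadc : f b a d c = f a b c d := (s3 b a d c).trans ebacd
    have ecabd : f c a b d = f a b c d := (s1 c a b d).trans eacbd
    have eacdb : f a c d b = f a b c d := (s3 a c d b).trans eacbd
    have eadbc : f a d b c = f a b c d := (s2 a d b c).trans eabdc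
    have ecbad : f c b a d = f a b c d := (s1 c b a d).trans ebcad
    have ebcda : f b c d a = f a b c d := (s3 b c d a).trans ebcad
    have ebdac : f b d a c = f a b c d := (s2 b d a c).trans ebadc
    have ecadb : f c a d b = f a b c d := (s3 c a d b).trans ecabd
    have eadcb : f a d c b = f a b c d := (s2 a d c b).trans eacdb
    have edabc : f d a b c = f a b c d := (s1 d a b c).trans eadbc
    have ecbda : f c b d a = f a b c d := (s3 c b d a).trans ecbad
    have ebdca : f b d c a = f a b c d := (s2 b d c a).trans ebcda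
    have edbac : f d b a c = f a b c d := (s1 d b a c).trans ebdac
    have ecdab : f c d a b = f a b c d := (s2 c d a b).trans ecadb
    have edacb : f d a c b = f a b c d := (s1 d a c b).trans eadcb
    have ecdba : f c d b a = f a b c d := (s2 c d b a).trans ecbda
    have edbca : f d b c a = f a b c d := (s1 d b c a).trans ebdca
    have edcab : f d c a b = f a b c d := (s1 d c a b).trans ecdab
    have edcba : f d c b a = f a b c d := (s1 d c b a).trans ecdba
    have e : V * sym4 (a : U) b c d * Q = f a b c d + f a b d c + f a c b d + f a c d b + f a d b c + f a d c b + f b a c d + f b a d c + f b c a d + f b c d a + f b d a c + f b d c a + f c a b d + f c a d b + f c b a d + f c b d a + f c d a b + f c d b a + f d a b c + f d a c b + f d b a c + f d b c a + f d c a b + f d c b a := by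
      show _ = _
      simp only [f, sym4]
      noncomm_ring
    rw [e, eabdc, eacbd, eacdb, eadbc, eadcb, ebacd, ebadc, ebcad, ebcda, ebdac, ebdca, ecabd, ecadb, ecbad, ecbda, ecdab, ecdba, edabc, edacb, edbac, edbca, edcab, edcba]
    abel
  rw [hs a a.2 b b.2 c c.2 d d.2] at hsum
  have h6 := five_mul_eq_zero h5 (f a b c d)
  have e2 : f a b c d = 5 • (5 • f a b c d) - 24 • f a b c d := by
    noncomm_ring
  show f a b c d = 0
  rw [e2, ← hsum, h6]
  simp

/-- **The law for all words.** -/
theorem law_words (hVW : LawVW) (hXY : LawXY) (hBX : LawBX) {p a r q : U} {S : Set U}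
    (h : BlockRing U p a r q S) : ∀ (n : ℕ) (l : List U), l.length = n → 2 ≤ n → (∀ x ∈ l, x ∈ LSp S) →
    brk (brk p a) a * l.prod * brk (brk r q) q = 0 := by
  intro n
  induction n using Nat.strong_induction_on with
  | _ n ih =>
  intro l hl hn hS
  match l, hl with
  | [], hl => simp at hl; omega
  | [x], hl => simp at hl; omega
  | [x, y], hl =>
    have := law2 hXY h (hS x (by simp)) (hS y (by simp))
    simpa [mul_assoc] using this
  | [x, y, z], hl =>
    have := law3 hVW hXY hBX h (hS x (by simp)) (hS y (by simp)) (hS z (by simp))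
    simpa [mul_assoc] using this
  | x :: y :: z :: w :: t, hl =>
    simp only [List.length_cons] at hl
    set V := brk (brk p a) a with hV
    set W := brk (brk r q) q with hWd
    have hx := hS x (by simp)
    have hy := hS y (by simp)
    have hz := hS z (by simp)
    have hw := hS w (by simp)
    have ht : ∀ u ∈ t, u ∈ LSp S := fun u hu => hS u (by simp [hu])
    have hstep : ∀ l' : List U, l'.length = n - 1 → (∀ u ∈ l', u ∈ LSp S) → V * l'.prod * W = 0 :=
      fun l' h1 h2 => ih (n - 1) (by omega) l' h1 (by omega) h2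
    have r1 := four_fold h.five (LSp S) (t.prod * W) (V := V)
      (fun a ha b hb c hc d hd => sym4_LSp h.sym (LSp_mono Set.subset_union_right ha)
        (LSp_mono Set.subset_union_right hb) (LSp_mono Set.subset_union_right hc)
        (LSp_mono Set.subset_union_right hd))
      (fun a ha b hb c hc d hd => by
        have := hstep (brk a b :: c :: d :: t) (by simp; omega) (by
          intro u hu
          simp only [List.mem_cons] at hu
          rcases hu with rfl | rfl | rfl | hu
          · exact LSp_brk ha hb
          · exact hc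
          · exact hd
          · exact ht u hu)
        simp only [List.prod_cons] at this
        rw [← sub_eq_zero, ← this]
        unfold brk
        noncomm_ring)
      (fun a ha b hb c hc d hd => by
        have := hstep (a :: brk b c :: d :: t) (by simp; omega) (by
          intro u hu
          simp only [List.mem_cons] at hu
          rcases hu with rfl | rfl | rfl | hu
          · exact ha
          · exact LSp_brk hb hc
          · exact hd
          · exact ht u hu)
        simp only [List.prod_cons] at this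
        rw [← sub_eq_zero, ← this]
        unfold brk
        noncomm_ring)
      (fun a ha b hb c hc d hd => by
        have := hstep (a :: b :: brk c d :: t) (by simp; omega) (by
          intro u hu
          simp only [List.mem_cons] at hu
          rcases hu with rfl | rfl | rfl | hu
          · exact ha
          · exact hb
          · exact LSp_brk hc hd
          · exact ht u hu)
        simp only [List.prod_cons] at this
        rw [← sub_eq_zero, ← this]
        unfold brk
        noncomm_ring)
      ⟨x, hx⟩ ⟨y, hy⟩ ⟨z, hz⟩ ⟨w, hw⟩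
    simp only [List.prod_cons]
    rw [← r1]
    simp only [mul_assoc]

end RingLaw

end Pool.Agent.MP5c99ad
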