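import Mathlib
import Pool.Agent.Lib.MP_5c99ad_al.LawC

set_option autoImplicit false

/-!
The block law on the group level.
-/

namespace Pool.Agent.MP5c99ad

section Bot

/-- vanishing of the span of all products of given content -/
theorem soft_bot_finite {ι : Type} [DecidableEq ι] {G R : Type} [Group G] [Ring R] (ρ : G →* R)
    (x : ι → G) [Finite G] {E : ι → ι → Prop} {m : ι → ℕ} (T1 : T1Gen.{0} E m)
    (hG : ∀ g : G, g ^ 5 = 1) (h5 : (5 : R) = 0)
    (hρ : ∀ g, (ρ g - 1) ^ 4 = 0) (hE : ∀ i j, E i j → x i * x j = x j * x i) : MG ρ x m 0 = ⊥ := by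
  obtain ⟨N, hN⟩ := aug_nilpotent (fun g => ⟨1, by simpa using hG g⟩) h5 ρ
  have hb := Ip_bot ρ hN
  exact nil_lemmaG ρ x hb (outerG ρ x T1 h5 hρ hE hb N 0 (by omega))

variable {Λ : Type} [DecidableEq Λ] {G R : Type} [Group G] [Ring R] (ρ : G →* R) (h : Λ → G)

/-- forgetting some of the marks -/
theorem MG_reindex {ι : Type} [DecidableEq ι] (j : ι → Λ) (hj : Function.Injective j) (a : Λ → ℕ) :
    MG ρ h a 0 ≤ MG ρ (h ∘ j) (a ∘ j) 0 := by
  have key : ∀ w : List (LG ρ Λ), evG ρ h w ∈ MG ρ (h ∘ j) (ctG ρ w ∘ j) 0 := by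
    intro w
    induction w with
    | nil =>
      have : (ctG ρ ([] : List (LG ρ Λ)) ∘ j : ι → ℕ) = 0 := by funext i; simp [ctG]
      rw [this]
      simpa [evG] using one_mem_MG ρ (h ∘ j)
    | cons l w ih =>
      have e : evG ρ h (l :: w) = valG ρ h l * evG ρ h w := by simp [evG]
      rw [e]
      cases l with
      | inl l =>
        have e2 : ctG ρ (Sum.inl l :: w) = Pi.single l 1 + ctG ρ w := by simp [ctG, cLG]
        rw [e2]
        by_cases hl : ∃ i, j i = l
        · obtain ⟨i, rfl⟩ := hl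
          refine MG_mul' ρ (h ∘ j) (mark_mem_MG ρ (h ∘ j) i) ih ?_ (Nat.zero_le _)
          intro k
          by_cases hk : k = i
          · subst hk; simp
          · have : j k ≠ j i := fun hh => hk (hj hh)
            simp [Pi.single_apply, this]
        · refine MG_mul' ρ (h ∘ j) (diff_mem_MG ρ (h ∘ j) (h l)) ih ?_ (Nat.zero_le _)
          intro k
          have : j k ≠ l := fun hh => hl ⟨k, hh⟩
          simp [Pi.single_apply, this]
      | inr p =>
        have e2 : ctG ρ (Sum.inr p :: w) = ctG ρ w := by simp [ctG, cLG]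
        rw [e2]
        exact MG_mul' ρ (h ∘ j) (diff_mem_MG ρ (h ∘ j) p.1.1) ih (by simp) (Nat.zero_le _)
  refine (AddSubgroup.closure_le _).2 ?_
  rintro _ ⟨w, h1, -, rfl⟩
  exact MG_anti ρ (h ∘ j) _ _ _ _ (fun i => h1 (j i)) le_rfl (key w)

theorem evG_mem_W (l : Λ) (w : List (LG ρ Λ)) : evG ρ h w ∈ W ρ (h l) (ctG ρ w l) := by
  induction w with
  | nil =>
    have : ctG ρ ([] : List (LG ρ Λ)) l = 0 := by simp [ctG]
    rw [this]
    simpa [evG] using W.one_mem (ρ := ρ) (h l)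
  | cons a w ih =>
    have e : evG ρ h (a :: w) = valG ρ h a * evG ρ h w := by simp [evG]
    rw [e]
    cases a with
    | inl b =>
      have e2 : ctG ρ (Sum.inl b :: w) l = (Pi.single b 1 : Λ → ℕ) l + ctG ρ w l := by simp [ctG, cLG]
      rw [e2]
      by_cases hb : b = l
      · subst hb
        rw [Pi.single_eq_same]
        exact W.mul (W.sub_one_mem (h b)) ih
      · have : (Pi.single b 1 : Λ → ℕ) l = 0 := by
          simp [Pi.single_apply, Ne.symm hb]
        rw [this]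
        exact W.mul (AddSubgroup.sub_mem _ (W.rho_mem (h l) (h b)) (W.one_mem (h l))) ih
    | inr p =>
      have e2 : ctG ρ (Sum.inr p :: w) l = 0 + ctG ρ w l := by simp [ctG, cLG]
      rw [e2]
      exact W.mul (AddSubgroup.sub_mem _ (W.rho_mem (h l) p.1.1) (W.one_mem (h l))) ih

/-- nice letters: content at least 5 gives zero -/
theorem MG_bot_nice {l : Λ} (hn : IsNice ρ (h l)) {a : Λ → ℕ} (ha : 5 ≤ a l) : MG ρ h a 0 = ⊥ := by
  rw [eq_bot_iff]
  refine (AddSubgroup.closure_le _).2 ?_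
  rintro _ ⟨w, h1, -, rfl⟩
  have h2 : evG ρ h w ∈ W ρ (h l) 5 := W.anti' (ha.trans (h1 l)) (evG_mem_W ρ h l w)
  exact (niceFilt ρ hn).five _ h2

/-- commutations: the letter 0 commutes with all -/
def EB : Fin 3 → Fin 3 → Prop := fun i j => i = 0 ∨ j = 0

/-- the certificate for arbitrary letters: content `(d^5; r, q)` (not used any more) -/
def BCert : Prop := T1Gen.{0} EB ![5, 1, 1]

/-- commutations in the second kind of certificate: the two marked letters commute -/
def EB2 : Fin 2 → Fin 2 → Prop := fun _ _ => True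

/-- the certificate for arbitrary letters: content `(d^5; r^2)` -/
def BCert2 : Prop := T1Gen.{0} EB2 ![5, 2]

theorem MG_bot_D [Finite G] (hB : BCert2) (hG : ∀ g : G, g ^ 5 = 1) (h5 : (5 : R) = 0)
    (hρ : ∀ g, (ρ g - 1) ^ 4 = 0) {d r : Λ} (hdr : d ≠ r)
    (c1 : h d * h r = h r * h d) {a : Λ → ℕ}
    (hd : 5 ≤ a d) (hr : 2 ≤ a r) : MG ρ h a 0 = ⊥ := by
  have hj : Function.Injective ![d, r] := by
    intro i j hij
    fin_cases i <;> fin_cases j <;> simp_all
  have h1 := MG_reindex ρ h ![d, r] hj a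
  have h2 : MG ρ (h ∘ ![d, r]) ![5, 2] 0 = ⊥ := by
    refine soft_bot_finite ρ _ hB hG h5 hρ ?_
    intro i j _
    fin_cases i <;> fin_cases j
    · rfl
    · exact c1
    · exact c1.symm
    · rfl
  rw [eq_bot_iff, ← h2]
  refine h1.trans (MG_anti ρ _ _ _ _ _ ?_ le_rfl)
  intro i
  fin_cases i
  · exact hd
  · exact hr

end Bot

section BlockLaw

variable {G R : Type} [Group G] [Ring R] (ρ : G →* R)

/-- the letters of the two blocks -/
def blk (p a r q : G) : Fin 4 → G := ![p, a, r, q]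

/-- the law as an element of the free ring -/
noncomputable def lawFR (k : ℕ) : FR (Fin 4 ⊕ Fin k) :=
  brk (brk (wd [Sum.inl 0]) (wd [Sum.inl 1])) (wd [Sum.inl 1]) *
    wd (List.ofFn (fun i : Fin k => (Sum.inr i : Fin 4 ⊕ Fin k))) *
    brk (brk (wd [Sum.inl 2]) (wd [Sum.inl 3])) (wd [Sum.inl 3])

/-- its content -/
def lawC (k : ℕ) : Multiset (Fin 4 ⊕ Fin k) :=
  ({Sum.inl 0} + {Sum.inl 1} + {Sum.inl 1}) +
    ((List.ofFn (fun i : Fin k => (Sum.inr i : Fin 4 ⊕ Fin k)) : List (Fin 4 ⊕ Fin k)) : Multiset (Fin 4 ⊕ Fin k)) +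
    ({Sum.inl 2} + {Sum.inl 3} + {Sum.inl 3})

theorem brk_Hom {L : Type} {C D : Multiset L} {a b : FR L} (ha : a ∈ Hom C) (hb : b ∈ Hom D) :
    brk a b ∈ Hom (C + D) :=
  AddSubgroup.sub_mem _ (Hom_mul ha hb) (cast4 (Hom_mul hb ha) (by abel))

theorem wd_single_mem {L : Type} (l : L) : (wd [l] : FR L) ∈ Hom ({l} : Multiset L) := wd_mem [l]

theorem lawFR_mem (k : ℕ) : lawFR k ∈ Hom (lawC k) :=
  Hom_mul (Hom_mul (brk_Hom (brk_Hom (wd_single_mem _) (wd_single_mem _)) (wd_single_mem _)) (wd_mem _))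
    (brk_Hom (brk_Hom (wd_single_mem _) (wd_single_mem _)) (wd_single_mem _))

theorem map_brk {U V : Type*} [Ring U] [Ring V] (f : U →+* V) (a b : U) : f (brk a b) = brk (f a) (f b) := by
  simp [brk]

theorem evF_lawFR {U : Type} [Ring U] (k : ℕ) (X : Fin 4 ⊕ Fin k → U) : evF X (lawFR k) =
    brk (brk (X (Sum.inl 0)) (X (Sum.inl 1))) (X (Sum.inl 1)) * (List.ofFn (fun i => X (Sum.inr i))).prod *
      brk (brk (X (Sum.inl 2)) (X (Sum.inl 3))) (X (Sum.inl 3)) := by
  unfold lawFR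
  rw [map_mul, map_mul, map_brk, map_brk, map_brk, map_brk]
  simp only [evF_wd, List.map_cons, List.map_nil, List.prod_cons, List.prod_nil, mul_one]
  rw [List.map_ofFn]
  rfl

theorem mct_le_of_add {Λ : Type} [DecidableEq Λ] (C : Multiset Λ) (l : Λ) (n : ℕ) (j : Λ) :
    C.count j ≤ (mct C + Pi.single l n : Λ → ℕ) j := by
  simp [mct]

theorem lawC_count_a (k : ℕ) : 2 ≤ (lawC k).count (Sum.inl 1) := by
  simp [lawC, Multiset.count_singleton]

theorem lawC_count_q (k : ℕ) : 2 ≤ (lawC k).count (Sum.inl 3) := by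
  simp [lawC, Multiset.count_singleton]

theorem lawC_count (k : ℕ) (l : Fin 4 ⊕ Fin k) : 1 ≤ (lawC k).count l := by
  rw [Nat.one_le_iff_ne_zero, Ne, Multiset.count_eq_zero, not_not]
  rcases l with l | i
  · fin_cases l <;> simp [lawC]
  · simp [lawC, List.mem_ofFn]

/-- **The block law in groups.** -/
theorem block_law [Finite G] (hB : BCert2) (hVW : LawVW) (hXY : LawXY) (hBX : LawBX)
    (hG : ∀ g : G, g ^ 5 = 1) (h5 : (5 : R) = 0)
    (hρ : ∀ g, (ρ g - 1) ^ 4 = 0) {p a r q : G} (hpr : p * r = r * p) (hpq : p * q = q * p)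
    (har : a * r = r * a) (haq : a * q = q * a) (l : List G) (hl : 2 ≤ l.length)
    (hn : ∀ x ∈ l, IsNice ρ x) :
    brk (brk (lg (ρ p)) (lg (ρ a))) (lg (ρ a)) * (l.map (fun g => lg (ρ g))).prod *
      brk (brk (lg (ρ r)) (lg (ρ q))) (lg (ρ q)) = 0 := by
  set k := l.length with hk
  let h : Fin 4 ⊕ Fin k → G := Sum.elim (blk p a r q) (fun i => l.get i)
  have htr := law_transfer ρ h h5 hρ (E := fun i j => h i * h j = h j * h i) (fun i j hij => hij)
    (lawC k) (lawFR k) (lawFR_mem k) (by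
      intro U _ h5U X hX hsym
      rw [evF_lawFR]
      refine law_words hVW hXY hBX (S := Set.range (fun i => X (Sum.inr i))) ?_ k _ (by simp) hl ?_
      · refine ⟨h5U, hX _ _ hpr, hX _ _ hpq, hX _ _ har, hX _ _ haq, ?_⟩
        have hsub : ∀ u, LieMonS ({X (Sum.inl 0), X (Sum.inl 1), X (Sum.inl 2), X (Sum.inl 3)} ∪
            Set.range (fun i => X (Sum.inr i))) u → LieMonS (Set.range X) u := by
          intro u hu
          induction hu with
          | letter y hy =>
            refine LieMonS.letter y ?_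
            rcases hy with hy | ⟨i, rfl⟩
            · simp only [Set.mem_insert_iff, Set.mem_singleton_iff] at hy
              rcases hy with rfl | rfl | rfl | rfl <;> exact ⟨_, rfl⟩
            · exact ⟨_, rfl⟩
          | br a b _ _ iha ihb => exact LieMonS.br a b iha ihb
        intro u1 u2 u3 u4 h1 h2 h3 h4
        exact hsym _ _ _ _ (hsub _ h1) (hsub _ h2) (hsub _ h3) (hsub _ h4)
      · intro x hx
        rw [List.mem_ofFn] at hx
        obtain ⟨i, rfl⟩ := hx
        exact AddSubgroup.subset_closure (LieMonS.letter _ ⟨i, rfl⟩))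
  have hbot : Dd ρ h (mct (lawC k)) = ⊥ := by
    unfold Dd
    rw [iSup_eq_bot]
    intro l'
    have hge : ∀ j, 1 ≤ (mct (lawC k) + Pi.single l' 4 : Fin 4 ⊕ Fin k → ℕ) j := fun j =>
      (lawC_count k j).trans (mct_le_of_add _ _ _ _)
    have hself : 5 ≤ (mct (lawC k) + Pi.single l' 4 : Fin 4 ⊕ Fin k → ℕ) l' := by
      have := lawC_count k l'
      simp only [Pi.add_apply, mct, Pi.single_eq_same]
      omega
    have hga : 2 ≤ (mct (lawC k) + Pi.single l' 4 : Fin 4 ⊕ Fin k → ℕ) (Sum.inl 1) :=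
      (lawC_count_a k).trans (mct_le_of_add _ _ _ _)
    have hgq : 2 ≤ (mct (lawC k) + Pi.single l' 4 : Fin 4 ⊕ Fin k → ℕ) (Sum.inl 3) :=
      (lawC_count_q k).trans (mct_le_of_add _ _ _ _)
    rcases l' with l' | i
    · fin_cases l'
      · exact MG_bot_D ρ h hB hG h5 hρ (d := Sum.inl 0) (r := Sum.inl 3) (by simp) hpq hself hgq
      · exact MG_bot_D ρ h hB hG h5 hρ (d := Sum.inl 1) (r := Sum.inl 3) (by simp) haq hself hgq
      · exact MG_bot_D ρ h hB hG h5 hρ (d := Sum.inl 2) (r := Sum.inl 1) (by simp) har.symm hself hga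
      · exact MG_bot_D ρ h hB hG h5 hρ (d := Sum.inl 3) (r := Sum.inl 1) (by simp) haq.symm hself hga
    · exact MG_bot_nice ρ h (l := Sum.inr i) (hn _ (List.get_mem l i)) hself
  rw [hbot, AddSubgroup.mem_bot, evF_lawFR] at htr
  have e : (List.ofFn (fun i : Fin k => lgv ρ h (Sum.inr i))) = l.map (fun g => lg (ρ g)) := by
    have : (fun i : Fin k => lgv ρ h (Sum.inr i)) = (fun g => lg (ρ g)) ∘ l.get := by
      funext i
      rfl
    rw [this, ← List.map_ofFn, List.ofFn_get]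
  rw [e] at htr
  exact htr

end BlockLaw

end Pool.Agent.MP5c99ad
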