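import Mathlib
import Pool.Agent.Lib.MP_5c99ad_al.BCertD
import Pool.Agent.Lib.MP_5c99ad_al.LawD

set_option autoImplicit false

/-!
The vanishing theorem from a covering set of checked windows.
-/

namespace Pool.Agent.MP5c99ad.BC

/-- a window with its certificate -/
structure Win where
  /-- the pattern -/
  wp : List (Mk × Nat)
  /-- the certificate -/
  items : List Item
  /-- the certificate is valid -/
  ok : check items (cw wp 0) = true
  /-- the pattern is nonempty -/
  ne : wp ≠ []
  /-- at most six letters -/
  le : tot wp ≤ 6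

section Main

variable {U : Type}

/-- decomposition of a word in blocks -/
theorem exists_blocks (w : List (Mk ⊕ U)) :
    (∃ y v, w = .inr y :: v) ∨ ∃ B : List (Mk × List U), w = flat B := by
  have key : ∀ w : List (Mk ⊕ U), ∃ (L : List U) (B : List (Mk × List U)),
      w = L.map .inr ++ flat B := by
    intro w
    induction w with
    | nil => exact ⟨[], [], rfl⟩
    | cons s w ih =>
      obtain ⟨L, B, h⟩ := ih
      rcases s with m | y
      · exact ⟨[], (m, L) :: B, by rw [h]; rfl⟩
      · exact ⟨y :: L, B, by rw [h]; rfl⟩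
  obtain ⟨L, B, h⟩ := key w
  cases L with
  | nil => exact Or.inr ⟨B, by simpa using h⟩
  | cons y L => exact Or.inl ⟨y, L.map .inr ++ flat B, by simpa using h⟩

theorem flat_append (B1 B2 : List (Mk × List U)) : flat (B1 ++ B2) = flat B1 ++ flat B2 := by
  induction B1 with
  | nil => rfl
  | cons b B1 ih => simp [flat, ih]

theorem gd_inr (L : List U) : gd (L.map (Sum.inr (α := Mk))) = 0 := by
  induction L with
  | nil => rfl
  | cons y L ih => simpa [gd] using ih

theorem gr_inr (L : List U) : gr (L.map (Sum.inr (α := Mk))) = 0 := by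
  induction L with
  | nil => rfl
  | cons y L ih => simpa [gr] using ih

theorem gq_inr (L : List U) : gq (L.map (Sum.inr (α := Mk))) = 0 := by
  induction L with
  | nil => rfl
  | cons y L ih => simpa [gq] using ih

theorem pc_d (B : List (Mk × List U)) : pc .d (pat B) = gd (flat B) := by
  induction B with
  | nil => rfl
  | cons b B ih =>
    obtain ⟨m, A⟩ := b
    have e : pat ((m, A) :: B) = (m, A.length) :: pat B := rfl
    rw [e]
    cases m <;> simp [flat, pc, gd, gd_append, gd_inr, ih, beqM] <;> omega

theorem pc_r (B : List (Mk × List U)) : pc .r (pat B) = gr (flat B) := by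
  induction B with
  | nil => rfl
  | cons b B ih =>
    obtain ⟨m, A⟩ := b
    have e : pat ((m, A) :: B) = (m, A.length) :: pat B := rfl
    rw [e]
    cases m <;> simp [flat, pc, gr, gr_append, gr_inr, ih, beqM] <;> omega

theorem pc_q (B : List (Mk × List U)) : pc .q (pat B) = gq (flat B) := by
  induction B with
  | nil => rfl
  | cons b B ih =>
    obtain ⟨m, A⟩ := b
    have e : pat ((m, A) :: B) = (m, A.length) :: pat B := rfl
    rw [e]
    cases m <;> simp [flat, pc, gq, gq_append, gq_inr, ih, beqM] <;> omega

theorem pc_reverse (m : Mk) (p : List (Mk × Nat)) : pc m p.reverse = pc m p := by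
  have happ : ∀ p q : List (Mk × Nat), pc m (p ++ q) = pc m p + pc m q := by
    intro p q
    induction p with
    | nil => simp [pc]
    | cons x p ih => simp [pc, ih]; omega
  induction p with
  | nil => rfl
  | cons x p ih => rw [List.reverse_cons, happ, ih]; simp [pc]; omega

theorem length_pc (p : List (Mk × Nat)) : p.length = pc .d p + pc .r p + pc .q p := by
  induction p with
  | nil => rfl
  | cons x p ih =>
    obtain ⟨m, g⟩ := x
    cases m <;> simp [pc, beqM, ih] <;> omega

end Main

section Vanish

variable {U : Type} [Ring U]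

theorem vanish {X : Mk → U} {Y : Set U} {A : Type} [AddCommGroup A] {φ : U →+ A}
    (hS : Setting X Y φ) (h0 : (0 : U) ∈ Y) (W : List Win) (I J K : Nat)
    (hcov : cov (W.map Win.wp) (I + J + K) I J K [] = true)
    (h3 : ∀ m : Mk, ∃ x ∈ W, x.wp = [(m, 3)]) (H : Nat) :
    ∀ w : List (Mk ⊕ U), Cont Y I J K H w → φ (evG X w) = 0 := by
  have hbound : ∀ w : List (Mk ⊕ U), Cont Y I J K H w →
      Mz w ≤ H * 100 ^ (I + J + K) * 3 ^ (I + J + K) + 3 ^ (I + J + K) := by
    intro w hw
    have hgm : gm w = I + J + K := by rw [gm, hw.hi, hw.hj, hw.hk]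
    have h1 := gmu_le w 0
    rw [hgm, hw.hh, zero_add] at h1
    have h2 := gnu_ub w
    rw [hgm] at h2
    unfold Mz
    rw [hgm]
    have := Nat.mul_le_mul_right (3 ^ (I + J + K)) h1
    omega
  have main : ∀ n : Nat, ∀ w : List (Mk ⊕ U), Cont Y I J K H w →
      H * 100 ^ (I + J + K) * 3 ^ (I + J + K) + 3 ^ (I + J + K) - Mz w = n →
      φ (evG X w) = 0 := by
    intro n
    induction n using Nat.strong_induction_on with
    | _ n ih =>
      intro w hw hn
      rcases exists_blocks w with ⟨y, v, rfl⟩ | ⟨B, rfl⟩
      · have e : evG X (Sum.inr y :: v) = y * evG X v := by simp [evG]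
        rw [e]
        exact hS.left y (hw.hy y (by simp)) _
      · -- find a matching window
        have hm : ∃ (x : Win) (B1 B2 : List (Mk × List U)), B = B1 ++ B2 ∧
            pm x.wp (pat B2) = true := by
          by_cases hb : ∃ b ∈ B, 3 ≤ b.2.length
          · obtain ⟨b, hb, hlen⟩ := hb
            obtain ⟨B1, B2, rfl⟩ := List.append_of_mem hb
            obtain ⟨m, A⟩ := b
            obtain ⟨x, _, hx⟩ := h3 m
            refine ⟨x, B1, (m, A) :: B2, rfl, ?_⟩
            rw [hx]
            have e1 : beqM m m = true := by cases m <;> rfl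
            have e2 : Nat.ble 3 A.length = true := Nat.ble_eq_true_of_le hlen
            show band (beqM m m) (Nat.ble 3 A.length) = true
            rw [e1, e2]
            rfl
          · have hb' : ∀ x ∈ (pat B).reverse, x.2 ≤ 2 := by
              intro x hx
              rw [List.mem_reverse, pat, List.mem_map] at hx
              obtain ⟨b, hb2, rfl⟩ := hx
              have : ¬ 3 ≤ b.2.length := fun hc => hb ⟨b, hb2, hc⟩
              show b.2.length ≤ 2
              omega
            have hd : pc .d (pat B).reverse = I := by rw [pc_reverse, pc_d, hw.hi]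
            have hr : pc .r (pat B).reverse = J := by rw [pc_reverse, pc_r, hw.hj]
            have hq : pc .q (pat B).reverse = K := by rw [pc_reverse, pc_q, hw.hk]
            obtain ⟨s1, s2, hs, hf⟩ := cov_sound (W.map Win.wp) (I + J + K) I J K [] hcov
              (pat B).reverse (by rw [length_pc, hd, hr, hq]) hd hr hq hb'
            rw [List.reverse_reverse, List.append_nil] at hs
            obtain ⟨B1, B2, hB, h1, h2⟩ := List.map_eq_append_iff.1 hs
            obtain ⟨wp, hwp, hpm⟩ := found_mem hf
            obtain ⟨x, _, rfl⟩ := List.mem_map.1 hwp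
            refine ⟨x, B1, B2, hB, ?_⟩
            rw [← h2] at hpm
            exact hpm
        obtain ⟨x, B1, B2, rfl, hpm⟩ := hm
        obtain ⟨yl, T, _, hz, _, hf⟩ := match_flat x.wp B2 [] x.ne hpm (by simpa using x.le)
        have hw2 := hw
        rw [flat_append, hf, ← List.append_assoc] at hw2
        rw [flat_append, hf, ← List.append_assoc] at hn ⊢
        have hyl : ∀ z ∈ yl, z ∈ Y := by
          intro z hz'
          rcases hz z hz' with h | h
          · simp at h
          · exact hw.hy z (by rw [flat_append]; simp [h])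
        refine window_step hS x.items (cw x.wp 0) x.ok (fun t => yl.getD (rk t) 0) ?_
          (flat B1) T hw2 ?_
        · intro t
          by_cases hlt : rk t < yl.length
          · rw [List.getD_eq_getElem _ _ hlt]
            exact hyl _ (List.getElem_mem hlt)
          · rw [List.getD_eq_default _ _ (by omega)]
            exact h0
        · intro v hv hlt
          have hb1 := hbound v hv
          exact ih _ (by simp only [List.length_nil] at hn; omega) v hv rfl
  intro w hw
  exact main _ w hw rfl

/-- the marks of `BCert` -/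
def XM (X : Fin 3 → U) : Mk → U
  | .d => X 0
  | .r => X 1
  | .q => X 2

theorem lie0 {S : Set U} {u : U} (h : LieMonS (insert 0 S) u) : u = 0 ∨ LieMonS S u := by
  induction h with
  | letter y hy =>
    rcases hy with rfl | hy
    · exact Or.inl rfl
    · exact Or.inr (LieMonS.letter y hy)
  | br a b _ _ iha ihb =>
    rcases iha with rfl | iha
    · left; simp
    · rcases ihb with rfl | ihb
      · left; simp
      · exact Or.inr (LieMonS.br a b iha ihb)

theorem mword_list {X : Fin 3 → U} {Y : Set U} {k : Fin 3 → ℕ} {w : U} (h : MWord X Y k w) :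
    ∃ l : List (Mk ⊕ U), evG (XM X) l = w ∧ gd l = k 0 ∧ gr l = k 1 ∧ gq l = k 2 ∧
      ∀ y, Sum.inr y ∈ l → y ∈ Y := by
  have hbase : ∀ s ∈ Submonoid.closure Y, ∃ L : List U, (∀ y ∈ L, y ∈ Y) ∧ L.prod = s :=
    fun s hs => Submonoid.exists_list_of_mem_closure hs
  have hev : ∀ L : List U, evG (XM X) (L.map .inr) = L.prod := by
    intro L
    simp only [evG, List.map_map]
    congr 1
    induction L with
    | nil => rfl
    | cons y L ih => simp
  induction h with
  | base s hs =>
    obtain ⟨L, hL, rfl⟩ := hbase s hs
    refine ⟨L.map .inr, hev L, ?_, ?_, ?_, ?_⟩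
    · rw [gd_inr]; rfl
    · rw [gr_inr]; rfl
    · rw [gq_inr]; rfl
    · intro y hy
      simp only [List.mem_map, Sum.inr.injEq, exists_eq_right] at hy
      exact hL y hy
  | step k i w s _ hs ih =>
    obtain ⟨l, rfl, hd, hr, hq, hy⟩ := ih
    obtain ⟨L, hL, rfl⟩ := hbase s hs
    have hmem : ∀ m : Mk, ∀ y, Sum.inr y ∈ l ++ Sum.inl m :: L.map .inr → y ∈ Y := by
      intro m y h
      simp only [List.mem_append, List.mem_cons, reduceCtorEq, List.mem_map, Sum.inr.injEq,
        exists_eq_right, false_or] at h
      rcases h with h | h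
      · exact hy y h
      · exact hL y h
    have hev2 : ∀ m : Mk, evG (XM X) (l ++ Sum.inl m :: L.map .inr) =
        evG (XM X) l * XM X m * L.prod := by
      intro m
      have e1 : evG (XM X) (Sum.inl m :: L.map .inr) = XM X m * evG (XM X) (L.map .inr) := by
        simp [evG]
      rw [evG_append, e1, hev, mul_assoc]
    fin_cases i
    · refine ⟨l ++ Sum.inl .d :: L.map .inr, hev2 .d, ?_, ?_, ?_, hmem .d⟩
      · rw [gd_append, gd, gd_inr, hd]; simp
      · rw [gr_append, gr, gr_inr, hr]; simp
        intro h; exact absurd h (by simp)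
      · rw [gq_append, gq, gq_inr, hq]; simp
        intro h; exact absurd h (by simp)
    · refine ⟨l ++ Sum.inl .r :: L.map .inr, hev2 .r, ?_, ?_, ?_, hmem .r⟩
      · rw [gd_append, gd, gd_inr, hd]; simp
        intro h; exact absurd h (by simp)
      · rw [gr_append, gr, gr_inr, hr]; simp
      · rw [gq_append, gq, gq_inr, hq]; simp
        intro h; exact absurd h (by simp)
    · refine ⟨l ++ Sum.inl .q :: L.map .inr, hev2 .q, ?_, ?_, ?_, hmem .q⟩
      · rw [gd_append, gd, gd_inr, hd]; simp
        intro h; exact absurd h (by simp)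
      · rw [gr_append, gr, gr_inr, hr]; simp
        intro h; exact absurd h (by simp)
      · rw [gq_append, gq, gq_inr, hq]; simp

end Vanish

/-- `BCert` from a covering list of checked windows. -/
theorem bCert_of (W : List Win) (hcov : cov (W.map Win.wp) 7 5 1 1 [] = true)
    (h3 : ∀ m : Mk, ∃ x ∈ W, x.wp = [(m, 3)]) : BCert := by
  intro U _ h5 X Y hyy hE hsym A _ φ hleft _ w hw
  obtain ⟨l, rfl, hd, hr, hq, hy⟩ := mword_list hw
  have hS : Setting (XM X) (insert 0 Y) φ := by
    refine ⟨h5, hE 1 0 (Or.inr rfl), hE 2 0 (Or.inr rfl), ?_, ?_, ?_⟩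
    · intro y hy z hz
      rcases hy with rfl | hy
      · simp
      · rcases hz with rfl | hz
        · simp
        · exact hyy y hy z hz
    · intro u1 u2 u3 u4 h1 h2 h3 h4
      have hr : Set.range (XM X) ∪ insert 0 Y ⊆ insert 0 (Set.range X ∪ Y) := by
        rintro u (⟨m, rfl⟩ | hu)
        · right; left
          cases m
          · exact ⟨0, rfl⟩
          · exact ⟨1, rfl⟩
          · exact ⟨2, rfl⟩
        · rcases hu with rfl | hu
          · exact Or.inl rfl
          · exact Or.inr (Or.inr hu)
      have hmono : ∀ u, LieMonS (Set.range (XM X) ∪ insert 0 Y) u →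
          u = 0 ∨ LieMonS (Set.range X ∪ Y) u := by
        intro u hu
        refine lie0 ?_
        induction hu with
        | letter y hy => exact LieMonS.letter y (hr hy)
        | br a b _ _ iha ihb => exact LieMonS.br a b iha ihb
      rcases hmono u1 h1 with rfl | h1
      · simp [sym4]
      rcases hmono u2 h2 with rfl | h2
      · simp [sym4]
      rcases hmono u3 h3 with rfl | h3
      · simp [sym4]
      rcases hmono u4 h4 with rfl | h4
      · simp [sym4]
      exact hsym u1 u2 u3 u4 h1 h2 h3 h4
    · intro y hy v
      rcases hy with rfl | hy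
      · simp
      · exact hleft y hy v
  exact vanish hS (Or.inl rfl) W 5 1 1 hcov h3 (gl l) l
    ⟨hd, hr, hq, rfl, fun y h => Or.inr (hy y h)⟩

end Pool.Agent.MP5c99ad.BC
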