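import Mathlib
import Pool.Agent.Lib.MP_5c99ad_al.BCertE

set_option autoImplicit false

/-!
Windows at the right end of the word: words ending with a letter are dropped.
-/

namespace Pool.Agent.MP5c99ad.BC

/-- does the word end with a letter? -/
noncomputable def el (w : List Sy) (e : Bool) : Bool :=
  @List.rec Sy (fun _ => Bool → Bool) (fun e => e)
    (fun s _ ih _ => ih (@Sy.rec (fun _ => Bool) false false false (fun _ => true) s)) w e

theorem el_true : ∀ (w : List Sy) (e : Bool), el w e = true →
    (w = [] ∧ e = true) ∨ ∃ w' t, w = w' ++ [Sy.l t] := by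
  intro w
  induction w with
  | nil => intro e h; exact Or.inl ⟨rfl, h⟩
  | cons s w ih =>
    intro e h
    right
    have key : ∀ e' : Bool, (e' = true → ∃ t, s = Sy.l t) → el w e' = true →
        ∃ w' t, s :: w = w' ++ [Sy.l t] := by
      intro e' hs h'
      rcases ih e' h' with ⟨h1, h2⟩ | ⟨w', t, h1⟩
      · obtain ⟨t, rfl⟩ := hs h2
        exact ⟨[], t, by rw [h1]; rfl⟩
      · exact ⟨s :: w', t, by rw [h1]; rfl⟩
    cases s with
    | d => exact key false (fun h => absurd h (by simp)) h
    | r => exact key false (fun h => absurd h (by simp)) h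
    | q => exact key false (fun h => absurd h (by simp)) h
    | l t => exact key true (fun _ => ⟨t, rfl⟩) h

/-- all words with a value not divisible by 5 have content `I, J, K, H`, and they end with a letter
or have measure `> (M, V)` -/
noncomputable def allgtR (M V I J K H : Nat) (t : Tr) :
    Nat → Nat → Nat → Nat → Nat → Nat → Bool → Bool :=
  @Tr.rec (fun _ => Nat → Nat → Nat → Nat → Nat → Nat → Bool → Bool)
    (fun _ _ _ _ _ _ _ => true)
    (fun v _ _ _ _ _ _ _ _ _ h1 h2 h3 h4 h5 h6 h7 h8 h9 m n i j k h e =>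
      band (@Bool.rec (fun _ => Bool)
          (band (Nat.beq i I) (band (Nat.beq j J) (band (Nat.beq k K) (band (Nat.beq h H)
            (bor e (@Bool.rec (fun _ => Bool)
            (band (Nat.beq m M) (Nat.ble (Nat.succ V) n)) true (Nat.ble (Nat.succ M) m)))))))
          true (Nat.beq (Nat.mod v 5) 0))
      (band (h1 (Nat.mul m 100) (Nat.mul n 3) (Nat.succ i) j k h false)
      (band (h2 (Nat.mul m 100) (Nat.add (Nat.mul n 3) 1) i (Nat.succ j) k h false)
      (band (h3 (Nat.mul m 100) (Nat.add (Nat.mul n 3) 2) i j (Nat.succ k) h false)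
      (band (h4 (Nat.succ m) n i j k (Nat.succ h) true)
      (band (h5 (Nat.succ m) n i j k (Nat.succ h) true)
      (band (h6 (Nat.succ m) n i j k (Nat.succ h) true)
      (band (h7 (Nat.succ m) n i j k (Nat.succ h) true)
      (band (h8 (Nat.succ m) n i j k (Nat.succ h) true)
        (h9 (Nat.succ m) n i j k (Nat.succ h) true)))))))))) t

/-- the check at the right end -/
noncomputable def checkR (items : List Item) (w0 : List Sy) : Bool :=
  sumK itemK items Tr.z (fun t => insK (preW w0 []) 4 t
    (fun t => allgtR (mu w0 0) (nu w0 0) (cd w0 0) (cr w0 0) (cq w0 0) (cl w0 0) t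
      0 0 0 0 0 0 false))

/-- the words admitted by the final test at the right end -/
structure GoodR (M V I J K H m n i j k h : Nat) (e : Bool) (w : List Sy) : Prop where
  hi : cd w i = I
  hj : cr w j = J
  hk : cq w k = K
  hh : cl w h = H
  hm : el w e = true ∨ M < mu w m ∨ (mu w m = M ∧ V < nu w n)

section Sound

variable {U : Type} [Ring U]

theorem allgtR_sound {g : Sy → U} (h5 : (5 : U) = 0) (M V I J K H : Nat) (t : Tr) :
    ∀ m n i j k h e, allgtR M V I J K H t m n i j k h e = true →
      val g t ∈ AddSubgroup.closure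
        {u : U | ∃ w, GoodR M V I J K H m n i j k h e w ∧ u = ev g w} := by
  induction t with
  | z => intro m n i j k h e _; exact AddSubgroup.zero_mem _
  | n v t1 t2 t3 t4 t5 t6 t7 t8 t9 ih1 ih2 ih3 ih4 ih5 ih6 ih7 ih8 ih9 =>
    intro m n i j k h e H0
    have step : ∀ (s : Sy) (t : Tr) (m' n' i' j' k' h' : Nat) (e' : Bool),
        (∀ w, GoodR M V I J K H m' n' i' j' k' h' e' w →
          GoodR M V I J K H m n i j k h e (s :: w)) →
        val g t ∈ AddSubgroup.closure
          {u : U | ∃ w, GoodR M V I J K H m' n' i' j' k' h' e' w ∧ u = ev g w} →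
        g s * val g t ∈ AddSubgroup.closure
          {u : U | ∃ w, GoodR M V I J K H m n i j k h e w ∧ u = ev g w} := by
      intro s t m' n' i' j' k' h' e' hG ht
      generalize val g t = z at ht ⊢
      induction ht using AddSubgroup.closure_induction with
      | mem u hu =>
        obtain ⟨w, hw, rfl⟩ := hu
        exact AddSubgroup.subset_closure ⟨s :: w, hG w hw, (ev_cons g s w).symm⟩
      | zero => rw [mul_zero]; exact AddSubgroup.zero_mem _
      | add a b _ _ ha hb => rw [mul_add]; exact AddSubgroup.add_mem _ ha hb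
      | neg a _ ha => rw [mul_neg]; exact AddSubgroup.neg_mem _ ha
    obtain ⟨c0, H1⟩ := band_true H0
    obtain ⟨c1, H2⟩ := band_true H1
    obtain ⟨c2, H3⟩ := band_true H2
    obtain ⟨c3, H4⟩ := band_true H3
    obtain ⟨c4, H5⟩ := band_true H4
    obtain ⟨c5, H6⟩ := band_true H5
    obtain ⟨c6, H7⟩ := band_true H6
    obtain ⟨c7, H8⟩ := band_true H7
    obtain ⟨c8, c9⟩ := band_true H8
    have hv : (v : U) ∈ AddSubgroup.closure
        {u : U | ∃ w, GoodR M V I J K H m n i j k h e w ∧ u = ev g w} := by
      cases hb : Nat.beq (Nat.mod v 5) 0 with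
      | true =>
        have hm : v % 5 = 0 := Nat.eq_of_beq_eq_true hb
        have hvv : (v : U) = 0 := by
          obtain ⟨w, rfl⟩ := Nat.dvd_of_mod_eq_zero hm
          push_cast
          rw [h5, zero_mul]
        rw [hvv]; exact AddSubgroup.zero_mem _
      | false =>
        rw [hb] at c0
        obtain ⟨b1, c0⟩ := band_true c0
        obtain ⟨b2, c0⟩ := band_true c0
        obtain ⟨b3, c0⟩ := band_true c0
        obtain ⟨b4, c0⟩ := band_true c0
        have hG : GoodR M V I J K H m n i j k h e [] := by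
          refine ⟨Nat.eq_of_beq_eq_true b1, Nat.eq_of_beq_eq_true b2, Nat.eq_of_beq_eq_true b3,
            Nat.eq_of_beq_eq_true b4, ?_⟩
          rcases bor_true c0 with he | c0
          · exact Or.inl he
          · right
            cases hl : Nat.ble (Nat.succ M) m with
            | true => exact Or.inl (Nat.le_of_ble_eq_true hl)
            | false =>
              rw [hl] at c0
              obtain ⟨b5, b6⟩ := band_true c0
              exact Or.inr ⟨Nat.eq_of_beq_eq_true b5, Nat.le_of_ble_eq_true b6⟩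
        have h1 : (1 : U) ∈ AddSubgroup.closure
            {u : U | ∃ w, GoodR M V I J K H m n i j k h e w ∧ u = ev g w} :=
          AddSubgroup.subset_closure ⟨[], hG, rfl⟩
        have := AddSubgroup.nsmul_mem _ h1 v
        rwa [nsmul_one] at this
    simp only [val]
    refine AddSubgroup.add_mem _ hv ?_
    repeat refine AddSubgroup.add_mem _ ?_ ?_
    · exact step Sy.d t1 (m * 100) (n * 3) (i + 1) j k h false (fun w hw => ⟨hw.hi, hw.hj, hw.hk, hw.hh, hw.hm⟩)
        (ih1 _ _ _ _ _ _ _ c1)
    · exact step Sy.r t2 (m * 100) (n * 3 + 1) i (j + 1) k h false (fun w hw => ⟨hw.hi, hw.hj, hw.hk, hw.hh, hw.hm⟩)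
        (ih2 _ _ _ _ _ _ _ c2)
    · exact step Sy.q t3 (m * 100) (n * 3 + 2) i j (k + 1) h false (fun w hw => ⟨hw.hi, hw.hj, hw.hk, hw.hh, hw.hm⟩)
        (ih3 _ _ _ _ _ _ _ c3)
    · exact step (Sy.l Lt.a) t4 (m + 1) n i j k (h + 1) true (fun w hw => ⟨hw.hi, hw.hj, hw.hk, hw.hh, hw.hm⟩)
        (ih4 _ _ _ _ _ _ _ c4)
    · exact step (Sy.l Lt.b) t5 (m + 1) n i j k (h + 1) true (fun w hw => ⟨hw.hi, hw.hj, hw.hk, hw.hh, hw.hm⟩)
        (ih5 _ _ _ _ _ _ _ c5)
    · exact step (Sy.l Lt.c) t6 (m + 1) n i j k (h + 1) true (fun w hw => ⟨hw.hi, hw.hj, hw.hk, hw.hh, hw.hm⟩)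
        (ih6 _ _ _ _ _ _ _ c6)
    · exact step (Sy.l Lt.e) t7 (m + 1) n i j k (h + 1) true (fun w hw => ⟨hw.hi, hw.hj, hw.hk, hw.hh, hw.hm⟩)
        (ih7 _ _ _ _ _ _ _ c7)
    · exact step (Sy.l Lt.f) t8 (m + 1) n i j k (h + 1) true (fun w hw => ⟨hw.hi, hw.hj, hw.hk, hw.hh, hw.hm⟩)
        (ih8 _ _ _ _ _ _ _ c8)
    · exact step (Sy.l Lt.g) t9 (m + 1) n i j k (h + 1) true (fun w hw => ⟨hw.hi, hw.hj, hw.hk, hw.hh, hw.hm⟩)
        (ih9 _ _ _ _ _ _ _ c9)

/-- soundness of the check at the right end -/
theorem checkR_sound {g : Sy → U} (h5 : (5 : U) = 0) (hg : Comm g)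
    {S : Set U} (hS : ∀ l, g l ∈ S)
    (hsym : ∀ u1 u2 u3 u4, LieMonS S u1 → LieMonS S u2 → LieMonS S u3 → LieMonS S u4 →
      sym4 u1 u2 u3 u4 = 0) (items : List Item) (w0 : List Sy)
    (h : checkR items w0 = true) :
    ev g w0 ∈ AddSubgroup.closure {u : U | ∃ w,
      GoodR (mu w0 0) (nu w0 0) (cd w0 0) (cr w0 0) (cq w0 0) (cl w0 0) 0 0 0 0 0 0 false w ∧
        u = ev g w} := by
  unfold checkR at h
  have A := adds_sumK (fun i => adds_item h5 hg hS hsym i) items
  have B := adds_insK g (preW w0 []) 4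
  obtain ⟨t1, h1, h2⟩ := A Tr.z (fun t => insK (preW w0 []) 4 t
    (fun t => allgtR (mu w0 0) (nu w0 0) (cd w0 0) (cr w0 0) (cq w0 0) (cl w0 0) t
      0 0 0 0 0 0 false))
  obtain ⟨t2, h3, h4⟩ := B t1
    (fun t => allgtR (mu w0 0) (nu w0 0) (cd w0 0) (cr w0 0) (cq w0 0) (cl w0 0) t
      0 0 0 0 0 0 false)
  rw [h1, h3] at h
  have := allgtR_sound (g := g) h5 _ _ _ _ _ _ t2 _ _ _ _ _ _ _ h
  rw [h4, h2, ev_preW hg, ev_nil, mul_one] at this
  have h0 : val g Tr.z = 0 := rfl
  have h9 : val g Tr.z + (items.map (fun _ => (0 : U))).sum + ((4 : Nat) : U) * ev g w0 =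
      - ev g w0 := by
    rw [h0]
    push_cast
    rw [four_eq h5]
    simp
  rw [h9] at this
  exact neg_neg (ev g w0) ▸ AddSubgroup.neg_mem _ this

theorem window_stepR {X : Mk → U} {Y : Set U} {A : Type} [AddCommGroup A] {φ : U →+ A}
    (hS : Setting X Y φ) (hR : ∀ y ∈ Y, ∀ v, φ (v * y) = 0)
    (items : List Item) (w0 : List Sy) (hc : checkR items w0 = true)
    (y : Lt → U) (hy : ∀ t, y t ∈ Y) (P : List (Mk ⊕ U)) {I J K H : Nat}
    (hcont : Cont Y I J K H (P ++ w0.map (th y)))
    (ih : ∀ w : List (Mk ⊕ U), Cont Y I J K H w → Mz (P ++ w0.map (th y)) < Mz w →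
      φ (evG X w) = 0) : φ (evG X (P ++ w0.map (th y))) = 0 := by
  let g : Sy → U := fun s => Sum.elim X id (th y s)
  have hg : Comm g := ⟨hS.rd, hS.qd, fun s t => hS.yy _ (hy s) _ (hy t)⟩
  have hgS : ∀ l, g l ∈ Set.range X ∪ Y := by
    intro l
    cases l with
    | d => exact Or.inl ⟨.d, rfl⟩
    | r => exact Or.inl ⟨.r, rfl⟩
    | q => exact Or.inl ⟨.q, rfl⟩
    | l t => exact Or.inr (hy t)
  have key := checkR_sound hS.five hg hgS hS.sym items w0 hc
  have hev : evG X (w0.map (th y)) = ev g w0 := evG_th X y w0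
  rw [evG_append, hev]
  have gen : ∀ u ∈ AddSubgroup.closure {u : U | ∃ w,
      GoodR (mu w0 0) (nu w0 0) (cd w0 0) (cr w0 0) (cq w0 0) (cl w0 0) 0 0 0 0 0 0 false w ∧
        u = ev g w}, φ (evG X P * u) = 0 := by
    intro u hu
    induction hu using AddSubgroup.closure_induction with
    | mem u hu =>
      obtain ⟨w, hw, rfl⟩ := hu
      have e1 : evG X P * ev g w = evG X (P ++ w.map (th y)) := by
        rw [evG_append, evG_th]
      rw [e1]
      rcases hw.hm with he | hm
      · rcases el_true w false he with ⟨_, h2⟩ | ⟨w', t, rfl⟩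
        · exact absurd h2 (by simp)
        · have e2 : evG X (P ++ (w' ++ [Sy.l t]).map (th y)) =
              evG X (P ++ w'.map (th y)) * y t := by
            rw [List.map_append, ← List.append_assoc, evG_append]
            congr 1
            simp [evG, th]
          rw [e2]
          exact hR _ (hy t) _
      have d1 : gd (w.map (th y)) = gd (w0.map (th y)) := by
        have a1 := gd_th y w 0; have a2 := gd_th y w0 0; have := hw.hi; omega
      have d2 : gr (w.map (th y)) = gr (w0.map (th y)) := by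
        have a1 := gr_th y w 0; have a2 := gr_th y w0 0; have := hw.hj; omega
      have d3 : gq (w.map (th y)) = gq (w0.map (th y)) := by
        have a1 := gq_th y w 0; have a2 := gq_th y w0 0; have := hw.hk; omega
      have d4 : gl (w.map (th y)) = gl (w0.map (th y)) := by
        have a1 := gl_th y w 0; have a2 := gl_th y w0 0; have := hw.hh; omega
      have dm : gm (w.map (th y)) = gm (w0.map (th y)) := by
        simp only [gm, d1, d2, d3]
      have dM : gm (P ++ w.map (th y)) = gm (P ++ w0.map (th y)) := by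
        simp only [gm, gd_append, gr_append, gq_append, d1, d2, d3]
      refine ih _ ⟨?_, ?_, ?_, ?_, ?_⟩ ?_
      · rw [← hcont.hi]; simp only [gd_append, d1]
      · rw [← hcont.hj]; simp only [gr_append, d2]
      · rw [← hcont.hk]; simp only [gq_append, d3]
      · rw [← hcont.hh]; simp only [gl_append, d4]
      · intro z hz
        rw [List.mem_append] at hz
        rcases hz with hz | hz
        · exact hcont.hy z (by simp [hz])
        · obtain ⟨s, _, hs⟩ := List.mem_map.1 hz
          cases s with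
          | d => exact absurd hs (by simp [th])
          | r => exact absurd hs (by simp [th])
          | q => exact absurd hs (by simp [th])
          | l t =>
            have : y t = z := by simpa [th] using hs
            rw [← this]; exact hy t
      · unfold Mz
        rw [dM]
        have hnu := gnu_ub (P ++ w0.map (th y))
        set G := gm (P ++ w0.map (th y)) with hG
        rcases hm with h1 | ⟨h1, h2⟩
        · have h3 : gmu (P ++ w0.map (th y)) 0 < gmu (P ++ w.map (th y)) 0 := by
            rw [gmu_append, gmu_append]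
            rw [gmu_lin (w0.map (th y)), gmu_lin (w.map (th y)), dm, gmu_th, gmu_th]
            omega
          have h4 : (gmu (P ++ w0.map (th y)) 0 + 1) * 3 ^ G ≤
              gmu (P ++ w.map (th y)) 0 * 3 ^ G := Nat.mul_le_mul_right _ h3
          rw [add_mul, one_mul] at h4
          omega
        · have h3 : gmu (P ++ w0.map (th y)) 0 = gmu (P ++ w.map (th y)) 0 := by
            rw [gmu_append, gmu_append]
            rw [gmu_lin (w0.map (th y)), gmu_lin (w.map (th y)), dm, gmu_th, gmu_th, h1]
          have h4 : gnu (P ++ w0.map (th y)) 0 < gnu (P ++ w.map (th y)) 0 := by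
            rw [gnu_append, gnu_append]
            rw [gnu_lin (w0.map (th y)), gnu_lin (w.map (th y)), dm, gnu_th, gnu_th]
            omega
          rw [h3]
          omega
    | zero => simp
    | add a b _ _ ha hb => rw [mul_add, map_add, ha, hb, add_zero]
    | neg a _ ha => rw [mul_neg, map_neg, ha, neg_zero]
  exact gen _ key

end Sound

end Pool.Agent.MP5c99ad.BC
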