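import Mathlib
import Pool.Agent.Lib.MP_5c99ad_al.BCertF

set_option autoImplicit false

/-!
Coverage by interior windows and windows at the right end; the vanishing theorem with both end
conditions.
-/

namespace Pool.Agent.MP5c99ad.BC

/-- equality of patterns -/
noncomputable def eqP (wp : List (Mk × Nat)) : List (Mk × Nat) → Bool :=
  @List.rec (Mk × Nat) (fun _ => List (Mk × Nat) → Bool)
    (fun p => @List.rec (Mk × Nat) (fun _ => Bool) true (fun _ _ _ => false) p)
    (fun w _ ih p => @List.rec (Mk × Nat) (fun _ => Bool) false
      (fun h t _ => band (beqM w.1 h.1) (band (Nat.beq w.2 h.2) (ih t))) p) wp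

theorem eqP_eq : ∀ (wp p : List (Mk × Nat)), eqP wp p = true → wp = p := by
  intro wp
  induction wp with
  | nil =>
    intro p h
    cases p with
    | nil => rfl
    | cons x p => exact absurd h (by simp [eqP])
  | cons w ws ih =>
    intro p h
    cases p with
    | nil => exact absurd h (by simp [eqP])
    | cons x p =>
      obtain ⟨h1, h2⟩ := band_true h
      obtain ⟨h2, h3⟩ := band_true h2
      have e1 := beqM_eq h1
      have e2 : w.2 = x.2 := Nat.eq_of_beq_eq_true h2
      rw [ih p h3]
      congr 1
      exact Prod.ext e1 e2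

/-- some right-end window matches -/
noncomputable def foundR (W : List (List (Mk × Nat))) (p : List (Mk × Nat)) : Bool :=
  @List.rec (List (Mk × Nat)) (fun _ => Bool) false
    (fun w _ ih => @Bool.rec (fun _ => Bool) ih true (eqP w p)) W

theorem foundR_mem {W : List (List (Mk × Nat))} {p : List (Mk × Nat)} (h : foundR W p = true) :
    p ∈ W := by
  induction W with
  | nil => exact absurd h (by simp [foundR])
  | cons w W ih =>
    cases hw : eqP w p with
    | true => rw [eqP_eq _ _ hw]; simp
    | false =>
      have h' : @Bool.rec (fun _ => Bool) (foundR W p) true (eqP w p) = true := h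
      rw [hw] at h'
      exact List.mem_cons_of_mem _ (ih h')

/-- the test of a suffix of the pattern -/
noncomputable def hit (W WR : List (List (Mk × Nat))) (p : List (Mk × Nat)) : Bool :=
  bor (found W p) (foundR WR p)

/-- coverage test for a test `F` -/
noncomputable def covF (F : List (Mk × Nat) → Bool) (fuel : Nat) :
    Nat → Nat → Nat → List (Mk × Nat) → Bool :=
  @Nat.rec (fun _ => Nat → Nat → Nat → List (Mk × Nat) → Bool) (fun _ _ _ _ => false)
    (fun _ ih i j k p =>
      band (@Nat.rec (fun _ => Bool) true (fun i' _ =>
        band (bor (F ((.d, 0) :: p)) (ih i' j k ((.d, 0) :: p)))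
        (band (bor (F ((.d, 1) :: p)) (ih i' j k ((.d, 1) :: p)))
          (bor (F ((.d, 2) :: p)) (ih i' j k ((.d, 2) :: p))))) i)
      (band (@Nat.rec (fun _ => Bool) true (fun j' _ =>
        band (bor (F ((.r, 0) :: p)) (ih i j' k ((.r, 0) :: p)))
        (band (bor (F ((.r, 1) :: p)) (ih i j' k ((.r, 1) :: p)))
          (bor (F ((.r, 2) :: p)) (ih i j' k ((.r, 2) :: p))))) j)
      (@Nat.rec (fun _ => Bool) true (fun k' _ =>
        band (bor (F ((.q, 0) :: p)) (ih i j k' ((.q, 0) :: p)))
        (band (bor (F ((.q, 1) :: p)) (ih i j k' ((.q, 1) :: p)))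
          (bor (F ((.q, 2) :: p)) (ih i j k' ((.q, 2) :: p))))) k))) fuel

/-- coverage test at the top: the last gap is empty -/
noncomputable def covT (F : List (Mk × Nat) → Bool) (fuel i j k : Nat) : Bool :=
  band (@Nat.rec (fun _ => Bool) true (fun i' _ =>
    bor (F [(.d, 0)]) (covF F fuel i' j k [(.d, 0)])) i)
  (band (@Nat.rec (fun _ => Bool) true (fun j' _ =>
    bor (F [(.r, 0)]) (covF F fuel i j' k [(.r, 0)])) j)
  (@Nat.rec (fun _ => Bool) true (fun k' _ =>
    bor (F [(.q, 0)]) (covF F fuel i j k' [(.q, 0)])) k))

theorem covF_sound (F : List (Mk × Nat) → Bool) : ∀ (fuel i j k : Nat) (p : List (Mk × Nat)),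
    covF F fuel i j k p = true → ∀ ql : List (Mk × Nat), ql.length = fuel →
    pc .d ql = i → pc .r ql = j → pc .q ql = k → (∀ x ∈ ql, x.2 ≤ 2) →
    ∃ s1 s2, ql.reverse ++ p = s1 ++ s2 ∧ F s2 = true := by
  intro fuel
  induction fuel with
  | zero => intro i j k p h; exact absurd h (by simp [covF])
  | succ fuel ih =>
    intro i j k p h ql hl hi hj hk hg
    cases ql with
    | nil => simp at hl
    | cons x ql =>
      obtain ⟨m, g⟩ := x
      have hg2 : g ≤ 2 := hg (m, g) (by simp)
      have hg' : ∀ x ∈ ql, x.2 ≤ 2 := fun x hx => hg x (by simp [hx])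
      have hl' : ql.length = fuel := by simpa using hl
      have fin : ∀ i' j' k', pc .d ql = i' → pc .r ql = j' → pc .q ql = k' →
          bor (F ((m, g) :: p)) (covF F fuel i' j' k' ((m, g) :: p)) = true →
          ∃ s1 s2, ((m, g) :: ql).reverse ++ p = s1 ++ s2 ∧ F s2 = true := by
        intro i' j' k' h1 h2 h3 hb
        have e : ((m, g) :: ql).reverse ++ p = ql.reverse ++ ((m, g) :: p) := by simp
        rw [e]
        rcases bor_true hb with hb | hb
        · exact ⟨ql.reverse, (m, g) :: p, rfl, hb⟩
        · exact ih i' j' k' _ hb ql hl' h1 h2 h3 hg'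
      obtain ⟨hd, h⟩ := band_true h
      obtain ⟨hr, hq⟩ := band_true h
      cases m with
      | d =>
        have hi' : pc .d ql + 1 = i := by rw [← hi]; simp [pc, beqM]; omega
        have hj' : pc .r ql = j := by rw [← hj]; simp [pc, beqM]
        have hk' : pc .q ql = k := by rw [← hk]; simp [pc, beqM]
        rw [← hi'] at hd
        obtain ⟨a0, hd⟩ := band_true hd
        obtain ⟨a1, a2⟩ := band_true hd
        interval_cases g
        · exact fin _ _ _ rfl hj' hk' a0
        · exact fin _ _ _ rfl hj' hk' a1
        · exact fin _ _ _ rfl hj' hk' a2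
      | r =>
        have hi' : pc .d ql = i := by rw [← hi]; simp [pc, beqM]
        have hj' : pc .r ql + 1 = j := by rw [← hj]; simp [pc, beqM]; omega
        have hk' : pc .q ql = k := by rw [← hk]; simp [pc, beqM]
        rw [← hj'] at hr
        obtain ⟨a0, hr⟩ := band_true hr
        obtain ⟨a1, a2⟩ := band_true hr
        interval_cases g
        · exact fin _ _ _ hi' rfl hk' a0
        · exact fin _ _ _ hi' rfl hk' a1
        · exact fin _ _ _ hi' rfl hk' a2
      | q =>
        have hi' : pc .d ql = i := by rw [← hi]; simp [pc, beqM]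
        have hj' : pc .r ql = j := by rw [← hj]; simp [pc, beqM]
        have hk' : pc .q ql + 1 = k := by rw [← hk]; simp [pc, beqM]; omega
        rw [← hk'] at hq
        obtain ⟨a0, hq⟩ := band_true hq
        obtain ⟨a1, a2⟩ := band_true hq
        interval_cases g
        · exact fin _ _ _ hi' hj' rfl a0
        · exact fin _ _ _ hi' hj' rfl a1
        · exact fin _ _ _ hi' hj' rfl a2

theorem covT_sound (F : List (Mk × Nat) → Bool) (fuel i j k : Nat)
    (h : covT F fuel i j k = true) (m : Mk) (ql : List (Mk × Nat)) (hl : ql.length = fuel)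
    (hi : pc .d ((m, 0) :: ql) = i) (hj : pc .r ((m, 0) :: ql) = j)
    (hk : pc .q ((m, 0) :: ql) = k) (hg : ∀ x ∈ ql, x.2 ≤ 2) :
    ∃ s1 s2, ((m, 0) :: ql).reverse = s1 ++ s2 ∧ F s2 = true := by
  have fin : ∀ i' j' k', pc .d ql = i' → pc .r ql = j' → pc .q ql = k' →
      bor (F [(m, 0)]) (covF F fuel i' j' k' [(m, 0)]) = true →
      ∃ s1 s2, ((m, 0) :: ql).reverse = s1 ++ s2 ∧ F s2 = true := by
    intro i' j' k' h1 h2 h3 hb
    rw [List.reverse_cons]
    rcases bor_true hb with hb | hb
    · exact ⟨ql.reverse, [(m, 0)], rfl, hb⟩
    · exact covF_sound F fuel i' j' k' _ hb ql hl h1 h2 h3 hg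
  obtain ⟨hd, h⟩ := band_true h
  obtain ⟨hr, hq⟩ := band_true h
  cases m with
  | d =>
    have hi' : pc .d ql + 1 = i := by rw [← hi]; simp [pc, beqM]; omega
    have hj' : pc .r ql = j := by rw [← hj]; simp [pc, beqM]
    have hk' : pc .q ql = k := by rw [← hk]; simp [pc, beqM]
    rw [← hi'] at hd
    exact fin _ _ _ rfl hj' hk' hd
  | r =>
    have hi' : pc .d ql = i := by rw [← hi]; simp [pc, beqM]
    have hj' : pc .r ql + 1 = j := by rw [← hj]; simp [pc, beqM]; omega
    have hk' : pc .q ql = k := by rw [← hk]; simp [pc, beqM]
    rw [← hj'] at hr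
    exact fin _ _ _ hi' rfl hk' hr
  | q =>
    have hi' : pc .d ql = i := by rw [← hi]; simp [pc, beqM]
    have hj' : pc .r ql = j := by rw [← hj]; simp [pc, beqM]
    have hk' : pc .q ql + 1 = k := by rw [← hk]; simp [pc, beqM]; omega
    rw [← hk'] at hq
    exact fin _ _ _ hi' hj' rfl hq

/-- a right-end window with its certificate -/
structure WinR where
  /-- the pattern -/
  wp : List (Mk × Nat)
  /-- the certificate -/
  items : List Item
  /-- the certificate is valid -/
  ok : checkR items (cw wp 0) = true
  /-- at most six letters -/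
  le : tot wp ≤ 6

section Main

variable {U : Type}

theorem match_exact [Zero U] : ∀ (B : List (Mk × List U)) (pr : List U),
    pr.length + tot (pat B) ≤ 6 →
    ∃ yl, pr <+: yl ∧ (∀ z ∈ yl, z ∈ pr ∨ Sum.inr z ∈ flat B) ∧
      yl.length = pr.length + tot (pat B) ∧
      flat B = (cw (pat B) pr.length).map (th (fun t => yl.getD (rk t) 0)) := by
  intro B
  induction B with
  | nil => intro pr _; exact ⟨pr, List.prefix_rfl, fun z hz => Or.inl hz, rfl, rfl⟩
  | cons b B ih =>
    intro pr h6
    obtain ⟨m, A⟩ := b
    have ht : tot (pat ((m, A) :: B)) = A.length + tot (pat B) := rfl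
    rw [ht] at h6
    obtain ⟨yl, hp, hz, hlen, hf⟩ := ih (pr ++ A) (by rw [List.length_append]; omega)
    rw [List.length_append] at hlen
    refine ⟨yl, (List.prefix_append pr A).trans hp, ?_, by rw [ht]; omega, ?_⟩
    · intro z hz'
      rcases hz z hz' with h | h
      · rw [List.mem_append] at h
        rcases h with h | h
        · exact Or.inl h
        · right
          simp only [flat, List.mem_cons, List.mem_append, List.mem_map]
          right; left
          exact ⟨z, h, rfl⟩
      · right
        simp only [flat, List.mem_cons, List.mem_append]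
        right; right
        exact h
    · have key := L6_getD yl pr.length A.length (by omega) (by omega)
      have hA : (yl.drop pr.length).take A.length = A := by
        obtain ⟨s, rfl⟩ := hp
        rw [List.append_assoc, List.drop_left' rfl, List.take_left']
        rfl
      rw [hA] at key
      have e1 : (List.map (th (fun t => yl.getD (rk t) 0) ∘ Sy.l)
          (List.take A.length (List.drop pr.length L6))) =
          (((L6.drop pr.length).take A.length).map (fun t => yl.getD (rk t) 0)).map Sum.inr := by
        rw [List.map_map]; rfl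
      rw [show cw (pat ((m, A) :: B)) pr.length = m.sy ::
        (((L6.drop pr.length).take A.length).map Sy.l ++ cw (pat B) (pr.length + A.length)) from rfl]
      rw [show flat ((m, A) :: B) = .inl m :: (A.map .inr ++ flat B) from rfl]
      rw [List.length_append] at hf
      rw [List.map_cons, List.map_append, List.map_map, e1, key, th_sy, hf]

end Main

section Vanish

variable {U : Type} [Ring U]

theorem vanish2 {X : Mk → U} {Y : Set U} {A : Type} [AddCommGroup A] {φ : U →+ A}
    (hS : Setting X Y φ) (hR : ∀ y ∈ Y, ∀ v, φ (v * y) = 0) (h0 : (0 : U) ∈ Y)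
    (W : List Win) (WR : List WinR) (n I J K : Nat) (hn : n + 1 = I + J + K)
    (hcov : covT (hit (W.map Win.wp) (WR.map WinR.wp)) n I J K = true)
    (h3 : ∀ m : Mk, ∃ x ∈ W, x.wp = [(m, 3)]) (H : Nat) :
    ∀ w : List (Mk ⊕ U), Cont Y I J K H w → φ (evG X w) = 0 := by
  have hbound : ∀ w : List (Mk ⊕ U), Cont Y I J K H w →
      Mz w ≤ H * 100 ^ (I + J + K) * 3 ^ (I + J + K) + 3 ^ (I + J + K) := by
    intro w hw
    have hgm : gm w = I + J + K := by rw [gm, hw.hi, hw.hj, hw.hk]
    have h1 := gmu_le w 0
    rw [hgm, hw.hh, zero_add] at h1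
    have h2 := gnu_ub w
    rw [hgm] at h2
    unfold Mz
    rw [hgm]
    have := Nat.mul_le_mul_right (3 ^ (I + J + K)) h1
    omega
  have main : ∀ N : Nat, ∀ w : List (Mk ⊕ U), Cont Y I J K H w →
      H * 100 ^ (I + J + K) * 3 ^ (I + J + K) + 3 ^ (I + J + K) - Mz w = N →
      φ (evG X w) = 0 := by
    intro N
    induction N using Nat.strong_induction_on with
    | _ N ih =>
      intro w hw hN
      rcases exists_blocks w with ⟨y, v, rfl⟩ | ⟨B, rfl⟩
      · have e : evG X (Sum.inr y :: v) = y * evG X v := by simp [evG]
        rw [e]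
        exact hS.left y (hw.hy y (by simp)) _
      · -- the last block
        rcases List.eq_nil_or_concat B with rfl | ⟨B', b, hB'⟩
        · exfalso
          have h1 := hw.hi
          have h2 := hw.hj
          have h3 := hw.hk
          simp only [flat, gd, gr, gq] at h1 h2 h3
          omega
        · obtain ⟨m, Al⟩ := b
          rw [List.concat_eq_append] at hB'
          rcases List.eq_nil_or_concat Al with rfl | ⟨A', z, hA'⟩
          · -- the last gap is empty: find a matching window
            have hm : (∃ (x : Win) (B1 B2 : List (Mk × List U)), B = B1 ++ B2 ∧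
                pm x.wp (pat B2) = true) ∨
                (∃ (x : WinR) (B1 B2 : List (Mk × List U)), B = B1 ++ B2 ∧
                pat B2 = x.wp) := by
              by_cases hb : ∃ b ∈ B, 3 ≤ b.2.length
              · left
                obtain ⟨b, hb, hlen⟩ := hb
                obtain ⟨B1, B2, rfl⟩ := List.append_of_mem hb
                obtain ⟨m, A⟩ := b
                obtain ⟨x, _, hx⟩ := h3 m
                refine ⟨x, B1, (m, A) :: B2, rfl, ?_⟩
                rw [hx]
                have e1 : beqM m m = true := by cases m <;> rfl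
                have e2 : Nat.ble 3 A.length = true := Nat.ble_eq_true_of_le hlen
                show band (beqM m m) (Nat.ble 3 A.length) = true
                rw [e1, e2]
                rfl
              · have hpr : (pat B).reverse = (m, 0) :: (pat B').reverse := by
                  rw [hB']; simp [pat]
                have hb' : ∀ x ∈ (pat B').reverse, x.2 ≤ 2 := by
                  intro x hx
                  rw [List.mem_reverse, pat, List.mem_map] at hx
                  obtain ⟨b, hb2, rfl⟩ := hx
                  have : ¬ 3 ≤ b.2.length := fun hc => hb ⟨b, by rw [hB']; simp [hb2], hc⟩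
                  show b.2.length ≤ 2
                  omega
                have hd : pc .d ((m, 0) :: (pat B').reverse) = I := by
                  rw [← hpr, pc_reverse, pc_d, hw.hi]
                have hr : pc .r ((m, 0) :: (pat B').reverse) = J := by
                  rw [← hpr, pc_reverse, pc_r, hw.hj]
                have hq : pc .q ((m, 0) :: (pat B').reverse) = K := by
                  rw [← hpr, pc_reverse, pc_q, hw.hk]
                have hlen : (pat B').reverse.length = n := by
                  have h1 := length_pc ((m, 0) :: (pat B').reverse)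
                  rw [hd, hr, hq, List.length_cons] at h1
                  omega
                obtain ⟨s1, s2, hs, hf⟩ := covT_sound _ n I J K hcov m (pat B').reverse hlen
                  hd hr hq hb'
                rw [← hpr, List.reverse_reverse] at hs
                obtain ⟨B1, B2, hB, h1, h2⟩ := List.map_eq_append_iff.1 hs
                rcases bor_true hf with hf | hf
                · left
                  obtain ⟨wp, hwp, hpm⟩ := found_mem hf
                  obtain ⟨x, _, rfl⟩ := List.mem_map.1 hwp
                  refine ⟨x, B1, B2, hB, ?_⟩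
                  rw [← h2] at hpm
                  exact hpm
                · right
                  have hmem := foundR_mem hf
                  obtain ⟨x, _, hx⟩ := List.mem_map.1 hmem
                  exact ⟨x, B1, B2, hB, by rw [hx, ← h2]; rfl⟩
            have hyz : ∀ yl : List U, (∀ z ∈ yl, z ∈ Y) → ∀ t : Lt, yl.getD (rk t) 0 ∈ Y := by
              intro yl hyl t
              by_cases hlt : rk t < yl.length
              · rw [List.getD_eq_getElem _ _ hlt]
                exact hyl _ (List.getElem_mem hlt)
              · rw [List.getD_eq_default _ _ (by omega)]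
                exact h0
            rcases hm with ⟨x, B1, B2, hB, hpm⟩ | ⟨x, B1, B2, hB, hpm⟩
            · obtain ⟨yl, T, _, hz, _, hf⟩ := match_flat x.wp B2 [] x.ne hpm
                (by simpa using x.le)
              have hw2 := hw
              have hw3 := hw
              rw [hB, flat_append, hf, ← List.append_assoc] at hw2
              rw [hB, flat_append, hf, ← List.append_assoc] at hN ⊢
              refine window_step hS x.items (cw x.wp 0) x.ok (fun t => yl.getD (rk t) 0)
                (hyz yl ?_) (flat B1) T hw2 ?_
              · intro z hz'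
                rcases hz z hz' with h | h
                · simp at h
                · exact hw3.hy z (by rw [hB, flat_append]; simp [h])
              · intro v hv hlt
                have hb1 := hbound v hv
                exact ih _ (by simp only [List.length_nil] at hN; omega) v hv rfl
            · obtain ⟨yl, _, hz, _, hf⟩ := match_exact B2 [] (by rw [hpm]; simpa using x.le)
              have hw2 := hw
              have hw3 := hw
              rw [hpm] at hf
              rw [hB, flat_append, hf] at hw2
              rw [hB, flat_append, hf] at hN ⊢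
              refine window_stepR hS hR x.items (cw x.wp 0) x.ok (fun t => yl.getD (rk t) 0)
                (hyz yl ?_) (flat B1) hw2 ?_
              · intro z hz'
                rcases hz z hz' with h | h
                · simp at h
                · exact hw3.hy z (by rw [hB, flat_append]; simp [h])
              · intro v hv hlt
                have hb1 := hbound v hv
                exact ih _ (by simp only [List.length_nil] at hN; omega) v hv rfl
          · -- the word ends with a letter
            rw [List.concat_eq_append] at hA'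
            have e : flat B = flat B' ++ (Sum.inl m :: A'.map .inr) ++ [Sum.inr z] := by
              rw [hB', flat_append, hA']
              simp [flat]
            rw [e, evG_append]
            have e2 : evG X [Sum.inr z] = z := by simp [evG]
            rw [e2]
            exact hR z (hw.hy z (by rw [e]; simp)) _
  intro w hw
  exact main _ w hw rfl

/-- the marks of `BCert2` -/
def XM2 (X : Fin 2 → U) : Mk → U
  | .d => X 0
  | .r => X 1
  | .q => X 1

theorem mword_list2 {X : Fin 2 → U} {Y : Set U} {k : Fin 2 → ℕ} {w : U} (h : MWord X Y k w) :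
    ∃ l : List (Mk ⊕ U), evG (XM2 X) l = w ∧ gd l = k 0 ∧ gr l = k 1 ∧ gq l = 0 ∧
      ∀ y, Sum.inr y ∈ l → y ∈ Y := by
  have hbase : ∀ s ∈ Submonoid.closure Y, ∃ L : List U, (∀ y ∈ L, y ∈ Y) ∧ L.prod = s :=
    fun s hs => Submonoid.exists_list_of_mem_closure hs
  have hev : ∀ L : List U, evG (XM2 X) (L.map .inr) = L.prod := by
    intro L
    simp only [evG, List.map_map]
    congr 1
    induction L with
    | nil => rfl
    | cons y L ih => simp
  induction h with
  | base s hs =>
    obtain ⟨L, hL, rfl⟩ := hbase s hs
    refine ⟨L.map .inr, hev L, ?_, ?_, ?_, ?_⟩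
    · rw [gd_inr]; rfl
    · rw [gr_inr]; rfl
    · rw [gq_inr]
    · intro y hy
      simp only [List.mem_map, Sum.inr.injEq, exists_eq_right] at hy
      exact hL y hy
  | step k i w s _ hs ih =>
    obtain ⟨l, rfl, hd, hr, hq, hy⟩ := ih
    obtain ⟨L, hL, rfl⟩ := hbase s hs
    have hmem : ∀ m : Mk, ∀ y, Sum.inr y ∈ l ++ Sum.inl m :: L.map .inr → y ∈ Y := by
      intro m y h
      simp only [List.mem_append, List.mem_cons, reduceCtorEq, List.mem_map, Sum.inr.injEq,
        exists_eq_right, false_or] at h
      rcases h with h | h
      · exact hy y h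
      · exact hL y h
    have hev2 : ∀ m : Mk, evG (XM2 X) (l ++ Sum.inl m :: L.map .inr) =
        evG (XM2 X) l * XM2 X m * L.prod := by
      intro m
      have e1 : evG (XM2 X) (Sum.inl m :: L.map .inr) = XM2 X m * evG (XM2 X) (L.map .inr) := by
        simp [evG]
      rw [evG_append, e1, hev, mul_assoc]
    have cons : ∀ m : Mk, gd (l ++ Sum.inl m :: L.map .inr) = gd l + (gd [(Sum.inl m : Mk ⊕ U)]) ∧
        gr (l ++ Sum.inl m :: L.map .inr) = gr l + (gr [(Sum.inl m : Mk ⊕ U)]) ∧
        gq (l ++ Sum.inl m :: L.map .inr) = gq l + (gq [(Sum.inl m : Mk ⊕ U)]) := by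
      intro m
      have e : l ++ Sum.inl m :: L.map .inr = l ++ [Sum.inl m] ++ L.map .inr := by simp
      rw [e, gd_append, gr_append, gq_append, gd_append, gr_append, gq_append, gd_inr, gr_inr,
        gq_inr]
      exact ⟨rfl, rfl, rfl⟩
    fin_cases i
    · obtain ⟨c1, c2, c3⟩ := cons .d
      refine ⟨l ++ Sum.inl .d :: L.map .inr, hev2 .d, ?_, ?_, ?_, hmem .d⟩
      · rw [c1, hd]; simp [gd]
      · rw [c2, hr]; simp [gr]
      · rw [c3, hq]; simp [gq]
    · obtain ⟨c1, c2, c3⟩ := cons .r
      refine ⟨l ++ Sum.inl .r :: L.map .inr, hev2 .r, ?_, ?_, ?_, hmem .r⟩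
      · rw [c1, hd]; simp [gd]
      · rw [c2, hr]; simp [gr]
      · rw [c3, hq]; simp [gq]

end Vanish

/-- The certificate theorem with content `d^I r^J` from a covering list of checked windows. -/
theorem t1gen_of (n I J : Nat) (hn : n + 1 = I + J) (W : List Win) (WR : List WinR)
    (hcov : covT (hit (W.map Win.wp) (WR.map WinR.wp)) n I J 0 = true)
    (h3 : ∀ m : Mk, ∃ x ∈ W, x.wp = [(m, 3)]) (E : Fin 2 → Fin 2 → Prop) (hE10 : E 1 0) :
    T1Gen.{0} E ![I, J] := by
  intro U _ h5 X Y hyy hE hsym A _ φ hleft hright w hw
  obtain ⟨l, rfl, hd, hr, hq, hy⟩ := mword_list2 hw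
  have hS : Setting (XM2 X) (insert 0 Y) φ := by
    refine ⟨h5, hE 1 0 hE10, hE 1 0 hE10, ?_, ?_, ?_⟩
    · intro y hy z hz
      rcases hy with rfl | hy
      · simp
      · rcases hz with rfl | hz
        · simp
        · exact hyy y hy z hz
    · intro u1 u2 u3 u4 h1 h2 h3 h4
      have hr : Set.range (XM2 X) ∪ insert 0 Y ⊆ insert 0 (Set.range X ∪ Y) := by
        rintro u (⟨m, rfl⟩ | hu)
        · right; left
          cases m
          · exact ⟨0, rfl⟩
          · exact ⟨1, rfl⟩
          · exact ⟨1, rfl⟩
        · rcases hu with rfl | hu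
          · exact Or.inl rfl
          · exact Or.inr (Or.inr hu)
      have hmono : ∀ u, LieMonS (Set.range (XM2 X) ∪ insert 0 Y) u →
          u = 0 ∨ LieMonS (Set.range X ∪ Y) u := by
        intro u hu
        refine lie0 ?_
        induction hu with
        | letter y hy => exact LieMonS.letter y (hr hy)
        | br a b _ _ iha ihb => exact LieMonS.br a b iha ihb
      rcases hmono u1 h1 with rfl | h1
      · simp [sym4]
      rcases hmono u2 h2 with rfl | h2
      · simp [sym4]
      rcases hmono u3 h3 with rfl | h3
      · simp [sym4]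
      rcases hmono u4 h4 with rfl | h4
      · simp [sym4]
      exact hsym u1 u2 u3 u4 h1 h2 h3 h4
    · intro y hy v
      rcases hy with rfl | hy
      · simp
      · exact hleft y hy v
  have hR : ∀ y ∈ (insert 0 Y : Set U), ∀ v, φ (v * y) = 0 := by
    intro y hy v
    rcases hy with rfl | hy
    · simp
    · exact hright y hy v
  exact vanish2 hS hR (Or.inl rfl) W WR n I J 0 (by omega) hcov h3 (gl l) l
    ⟨hd, hr, hq, rfl, fun y h => Or.inr (hy y h)⟩

end Pool.Agent.MP5c99ad.BC
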