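import Mathlib
import Pool.Agent.Lib.MP_5c99ad_al.ClassA

set_option autoImplicit false

/-!
Fast certificate checker (packed polynomials) for linear consequences of the relations
`sym4 = 0` on multilinear words: formal Lie monomials, formal polynomials, packing into one natural
number (a word is encoded by the levels of its letters, a polynomial by base-`β` digits).
-/

namespace Pool.Agent.MP5c99ad.Pk

open Pool.Agent.MP5c99ad

/-- formal Lie monomials: symbol `0` is `X`, symbols `1,2,...` are letters -/
inductive LM where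
  | a : ℕ → LM
  | b : LM → LM → LM

/-- formal polynomials -/
abbrev Po := List (ℕ × List ℕ)

def mulP (p q : Po) : Po := p.flatMap (fun x => q.map (fun y => (x.1 * y.1, x.2 ++ y.2)))

def negP (p : Po) : Po := p.map (fun x => (4 * x.1, x.2))

def LM.po : LM → Po
  | .a s => [(1, [s])]
  | .b x y => mulP x.po y.po ++ negP (mulP y.po x.po)

/-- relation instance -/
structure Inst where
  c : ℕ
  u : List ℕ
  p : LM
  q : LM
  r : LM
  s : LM
  v : List ℕ

def mul4 (u v : List ℕ) (c : ℕ) (p q r s : Po) : Po :=
  mulP [(c, u)] (mulP (mulP p (mulP q (mulP r s))) [(1, v)])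

/-- the 24 values of `f` at the permutations of its arguments -/
def perm24 {α β : Type*} (f : α → α → α → α → β) (A B C D : α) : List β :=
  [f A B C D, f A B D C, f A C B D, f A C D B, f A D B C, f A D C B,
   f B A C D, f B A D C, f B C A D, f B C D A, f B D A C, f B D C A,
   f C A B D, f C A D B, f C B A D, f C B D A, f C D A B, f C D B A,
   f D A B C, f D A C B, f D B A C, f D B C A, f D C A B, f D C B A]

def Inst.po (I : Inst) : Po :=
  (perm24 (fun A B C D : LM => mul4 I.u I.v I.c A.po B.po C.po D.po) I.p I.q I.r I.s).flatten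

/-! ### evaluation -/

section eval

variable {U : Type*} [Ring U] (v : ℕ → U)

def evW (w : List ℕ) : U := (w.map v).prod

def evP (p : Po) : U := (p.map (fun x => (x.1 : U) * evW v x.2)).sum

def LM.ev : LM → U
  | .a s => v s
  | .b x y => x.ev * y.ev - y.ev * x.ev

variable {v}

theorem evW_append (u w : List ℕ) : evW v (u ++ w) = evW v u * evW v w := by
  simp [evW]

theorem evW_cons (a : ℕ) (w : List ℕ) : evW v (a :: w) = v a * evW v w := by
  simp [evW]

theorem evW_nil : evW v [] = 1 := by simp [evW]

theorem evP_nil : evP v [] = 0 := by simp [evP]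

theorem evP_cons (x : ℕ × List ℕ) (p : Po) : evP v (x :: p) = (x.1 : U) * evW v x.2 + evP v p := by
  simp [evP]

theorem evP_append (p q : Po) : evP v (p ++ q) = evP v p + evP v q := by
  simp [evP]

theorem evP_mulP (p q : Po) : evP v (mulP p q) = evP v p * evP v q := by
  induction p with
  | nil => simp [mulP, evP_nil]
  | cons x p ih =>
    have h1 : mulP (x :: p) q = q.map (fun y => (x.1 * y.1, x.2 ++ y.2)) ++ mulP p q := by
      simp [mulP]
    rw [h1, evP_append, ih, evP_cons, add_mul]
    congr 1
    clear h1 ih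
    induction q with
    | nil => simp [evP_nil]
    | cons y q ih =>
      rw [List.map_cons, evP_cons, evP_cons, ih, mul_add]
      congr 1
      simp only [evW_append, Nat.cast_mul]
      have hc : evW v x.2 * (y.1 : U) = (y.1 : U) * evW v x.2 := (Nat.cast_commute y.1 _).symm.eq
      rw [mul_assoc (x.1 : U) (evW v x.2), ← mul_assoc (evW v x.2) (y.1 : U), hc]
      simp only [mul_assoc]

theorem four_eq (h5 : (5 : U) = 0) : (4 : U) = -1 := by
  have : (4 : U) + 1 = 5 := by norm_num
  rw [h5] at this
  exact eq_neg_of_add_eq_zero_left this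

theorem evP_negP (h5 : (5 : U) = 0) (p : Po) : evP v (negP p) = - evP v p := by
  induction p with
  | nil => simp [negP, evP_nil]
  | cons x p ih =>
    have h1 : negP (x :: p) = (4 * x.1, x.2) :: negP p := by simp [negP]
    rw [h1, evP_cons, evP_cons, ih, neg_add]
    congr 1
    push_cast
    rw [four_eq h5]
    simp

theorem LM.evP_po (h5 : (5 : U) = 0) (x : LM) : evP v x.po = x.ev v := by
  induction x with
  | a s => simp [LM.po, evP, evW, LM.ev]
  | b x y ihx ihy =>
    rw [LM.po, evP_append, evP_negP h5, evP_mulP, evP_mulP, ihx, ihy, LM.ev, sub_eq_add_neg]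

theorem evP_mul4 (u w : List ℕ) (c : ℕ) (p q r s : Po) :
    evP v (mul4 u w c p q r s) = (c : U) * evW v u * (evP v p * (evP v q * (evP v r * evP v s)) * evW v w) := by
  unfold mul4
  simp only [evP_mulP, evP_cons, evP_nil, add_zero, Nat.cast_one, one_mul]

theorem Inst.evP_po (h5 : (5 : U) = 0) (I : Inst) : evP v I.po =
    (I.c : U) * evW v I.u * (sym4 (I.p.ev v) (I.q.ev v) (I.r.ev v) (I.s.ev v) * evW v I.v) := by
  unfold Inst.po perm24
  simp only [List.flatten_cons, List.flatten_nil, List.append_nil, evP_append, evP_mul4, LM.evP_po h5]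
  unfold sym4
  simp only [mul_add, add_mul, mul_assoc]
  abel

end eval

/-! ### levels and codes -/

section codes

/-- does the symbol advance the level? (`X` and the letters `≤ a` do) -/
def adv (a s : ℕ) : ℕ := bif Nat.ble s a then 1 else 0

/-- weight of a symbol -/
def wt (B : ℕ) : ℕ → ℕ
  | 0 => 0
  | s + 1 => B ^ s

def adW (a : ℕ) : List ℕ → ℕ
  | [] => 0
  | s :: w => adv a s + adW a w

/-- code of a word starting at level `g` -/
def cd (a B : ℕ) : ℕ → List ℕ → ℕ
  | _, [] => 0
  | g, s :: w => g * wt B s + cd a B (g + adv a s) w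

/-- level of the letter `i` in the word, starting at level `g` -/
def lvl (a : ℕ) : ℕ → List ℕ → ℕ → ℕ
  | _, [], _ => 0
  | g, s :: w, i => if s = i then g else lvl a (g + adv a s) w i

variable {a B : ℕ}

theorem adv_le (s : ℕ) : adv a s ≤ 1 := by
  unfold adv
  cases Nat.ble s a <;> simp

theorem adv_eq_one {s : ℕ} (h : s ≤ a) : adv a s = 1 := by
  unfold adv
  have : Nat.ble s a = true := by rw [Nat.ble_eq]; exact h
  rw [this]
  rfl

theorem adv_eq_zero {s : ℕ} (h : a < s) : adv a s = 0 := by
  unfold adv
  have : Nat.ble s a = false := by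
    rw [← Bool.not_eq_true, Nat.ble_eq]
    omega
  rw [this]
  rfl

theorem adW_append (u w : List ℕ) : adW a (u ++ w) = adW a u + adW a w := by
  induction u with
  | nil => simp [adW]
  | cons s u ih => rw [List.cons_append, adW, adW, ih, add_assoc]

theorem adW_perm {u w : List ℕ} (h : u.Perm w) : adW a u = adW a w := by
  induction h with
  | nil => rfl
  | cons x _ ih => rw [adW, adW, ih]
  | swap x y l =>
    simp only [adW]
    omega
  | trans _ _ ih1 ih2 => rw [ih1, ih2]

theorem cd_append (g : ℕ) (u w : List ℕ) : cd a B g (u ++ w) = cd a B g u + cd a B (g + adW a u) w := by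
  induction u generalizing g with
  | nil => simp [cd, adW]
  | cons s u ih =>
    rw [List.cons_append, cd, cd, ih, adW, ← add_assoc, ← add_assoc]

theorem lvl_not_mem {w : List ℕ} {i : ℕ} (h : i ∉ w) (g : ℕ) : lvl a g w i = 0 := by
  induction w generalizing g with
  | nil => rfl
  | cons s w ih =>
    rw [List.mem_cons, not_or] at h
    rw [lvl, if_neg (fun e => h.1 e.symm), ih h.2]

theorem lvl_ge {w : List ℕ} {i : ℕ} (h : i ∈ w) (g : ℕ) : g ≤ lvl a g w i := by
  induction w generalizing g with
  | nil => simp at h
  | cons s w ih =>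
    rw [lvl]
    split_ifs with hs
    · exact le_refl g
    · have h' : i ∈ w := by
        rw [List.mem_cons] at h
        rcases h with h | h
        · exact absurd h.symm hs
        · exact h
      exact le_trans (Nat.le_add_right _ _) (ih h' _)

theorem lvl_le (w : List ℕ) (i g : ℕ) : lvl a g w i ≤ g + adW a w := by
  induction w generalizing g with
  | nil => simp [lvl]
  | cons s w ih =>
    rw [lvl, adW]
    split_ifs with hs
    · omega
    · have := ih (g + adv a s)
      omega

/-- letters occur at most once -/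
def Lin (w : List ℕ) : Prop := (w.filter (fun s => s ≠ 0)).Nodup

theorem lin_cons_zero {w : List ℕ} (h : Lin (0 :: w)) : Lin w := by
  unfold Lin at h ⊢
  simpa using h

theorem lin_cons {s : ℕ} {w : List ℕ} (h : Lin (s :: w)) : Lin w := by
  unfold Lin at h ⊢
  rw [List.filter_cons] at h
  split_ifs at h
  · exact (List.nodup_cons.1 h).2
  · exact h

theorem lin_not_mem {s : ℕ} {w : List ℕ} (hs : s ≠ 0) (h : Lin (s :: w)) : s ∉ w := by
  unfold Lin at h
  rw [List.filter_cons] at h
  simp only [ne_eq, hs, not_false_eq_true, decide_true, if_true] at h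
  have := (List.nodup_cons.1 h).1
  intro hm
  apply this
  rw [List.mem_filter]
  exact ⟨hm, by simpa using hs⟩

theorem lin_perm {u w : List ℕ} (h : u.Perm w) (hu : Lin u) : Lin w :=
  (h.filter _).nodup_iff.1 hu

/-- the code in terms of the levels -/
theorem cd_eq_sum {k : ℕ} (w : List ℕ) (hw : Lin w) (hk : ∀ s ∈ w, s ≤ k) (g : ℕ) :
    cd a B g w = ∑ i ∈ Finset.range k, lvl a g w (i + 1) * B ^ i := by
  induction w generalizing g with
  | nil => simp [cd, lvl]
  | cons s w ih =>
    rw [cd, ih (lin_cons hw) (fun t ht => hk t (List.mem_cons_of_mem _ ht))]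
    cases s with
    | zero =>
      rw [wt, mul_zero, zero_add]
      apply Finset.sum_congr rfl
      intro i _
      rw [lvl, if_neg (by omega)]
    | succ j =>
      have hj : j < k := hk (j + 1) List.mem_cons_self
      have hnot : j + 1 ∉ w := lin_not_mem (Nat.succ_ne_zero j) hw
      rw [wt, ← Finset.sum_erase_add _ _ (Finset.mem_range.2 hj), ← Finset.sum_erase_add (Finset.range k) _ (Finset.mem_range.2 hj)]
      rw [lvl_not_mem hnot, zero_mul, add_zero, lvl, if_pos rfl, add_comm]
      congr 1
      apply Finset.sum_congr rfl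
      intro i hi
      rw [Finset.mem_erase] at hi
      rw [lvl, if_neg (by omega)]

theorem cd_lt {k : ℕ} (w : List ℕ) (hw : Lin w) (hk : ∀ s ∈ w, s ≤ k) (hB : adW a w < B) :
    cd a B 0 w < B ^ k := by
  rw [cd_eq_sum w hw hk]
  have h : ∀ i ∈ Finset.range k, lvl a 0 w (i + 1) * B ^ i ≤ (B - 1) * B ^ i := by
    intro i _
    have := lvl_le (a := a) w (i + 1) 0
    exact Nat.mul_le_mul_right _ (by omega)
  have h2 : ∑ i ∈ Finset.range k, (B - 1) * B ^ i + 1 = B ^ k := by
    rw [← Finset.mul_sum]
    clear h
    induction k with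
    | zero => simp
    | succ k ih =>
      have hk' : (B - 1) * ∑ i ∈ Finset.range k, B ^ i + 1 = B ^ k := by
        have e : ∀ m, (B - 1) * ∑ i ∈ Finset.range m, B ^ i + 1 = B ^ m := by
          intro m
          induction m with
          | zero => simp
          | succ m ihm =>
            rw [Finset.sum_range_succ, mul_add, pow_succ]
            have : B = (B - 1) + 1 := by omega
            calc (B - 1) * ∑ i ∈ Finset.range m, B ^ i + (B - 1) * B ^ m + 1
                = ((B - 1) * ∑ i ∈ Finset.range m, B ^ i + 1) + (B - 1) * B ^ m := by ring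
              _ = B ^ m + (B - 1) * B ^ m := by rw [ihm]
              _ = B ^ m * ((B - 1) + 1) := by ring
              _ = B ^ m * B := by rw [← this]
        exact e k
      rw [Finset.sum_range_succ, mul_add, pow_succ]
      have : B = (B - 1) + 1 := by omega
      calc (B - 1) * ∑ i ∈ Finset.range k, B ^ i + (B - 1) * B ^ k + 1
          = ((B - 1) * ∑ i ∈ Finset.range k, B ^ i + 1) + (B - 1) * B ^ k := by ring
        _ = B ^ k + (B - 1) * B ^ k := by rw [hk']
        _ = B ^ k * ((B - 1) + 1) := by ring
        _ = B ^ k * B := by rw [← this]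
  have h3 := Finset.sum_le_sum h
  omega

theorem levels_of_code {k : ℕ} (f g : ℕ → ℕ) (hf : ∀ i, f i < B) (hg : ∀ i, g i < B)
    (h : ∑ i ∈ Finset.range k, f i * B ^ i = ∑ i ∈ Finset.range k, g i * B ^ i) :
    ∀ i, i < k → f i = g i := by
  induction k generalizing f g with
  | zero => intro i hi; omega
  | succ k ih =>
    rw [Finset.sum_range_succ', Finset.sum_range_succ'] at h
    simp only [pow_zero, mul_one, pow_succ] at h
    have e1 : ∑ i ∈ Finset.range k, f (i + 1) * (B ^ i * B) = B * ∑ i ∈ Finset.range k, f (i + 1) * B ^ i := by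
      rw [Finset.mul_sum]
      apply Finset.sum_congr rfl
      intro i _
      ring
    have e2 : ∑ i ∈ Finset.range k, g (i + 1) * (B ^ i * B) = B * ∑ i ∈ Finset.range k, g (i + 1) * B ^ i := by
      rw [Finset.mul_sum]
      apply Finset.sum_congr rfl
      intro i _
      ring
    rw [e1, e2] at h
    have h0 : f 0 = g 0 := by
      have h1 := congrArg (· % B) h
      simp only [Nat.mul_add_mod] at h1
      rw [Nat.mod_eq_of_lt (hf 0), Nat.mod_eq_of_lt (hg 0)] at h1
      exact h1
    have hB : 0 < B := lt_of_le_of_lt (Nat.zero_le _) (hf 0)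
    have h2 : ∑ i ∈ Finset.range k, f (i + 1) * B ^ i = ∑ i ∈ Finset.range k, g (i + 1) * B ^ i := by
      rw [h0] at h
      exact Nat.eq_of_mul_eq_mul_left hB (Nat.add_right_cancel h)
    intro i hi
    cases i with
    | zero => exact h0
    | succ i => exact ih (fun i => f (i + 1)) (fun i => g (i + 1)) (fun i => hf _) (fun i => hg _) h2 i (by omega)

end codes

end Pool.Agent.MP5c99ad.Pk
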