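import Mathlib
import Pool.Agent.Lib.MP_5c99ad_al.PkA

set_option autoImplicit false

/-!
Packed checker for windows with two commuting marks, part A: codes, packing, evaluation by codes.
Symbols: `0` and `1` are the marks, `j + 2` is the letter number `j`.
-/

namespace Pool.Agent.MP5c99ad.PW

open Pool.Agent.MP5c99ad Pool.Agent.MP5c99ad.Pk

section codes

/-- advance of the level -/
def av (D : ℕ) : ℕ → ℕ
  | 0 => 1
  | 1 => D
  | _ + 2 => 0

/-- weight of a symbol -/
def wg (L : ℕ) : ℕ → ℕ
  | 0 => 0
  | 1 => 0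
  | j + 2 => L ^ j

def avW (D : ℕ) : List ℕ → ℕ
  | [] => 0
  | s :: w => av D s + avW D w

def wgW (L : ℕ) : List ℕ → ℕ
  | [] => 0
  | s :: w => wg L s + wgW L w

/-- code of a word starting at level `g` -/
def cod (D L : ℕ) : ℕ → List ℕ → ℕ
  | _, [] => 0
  | g, s :: w => g * wg L s + cod D L (g + av D s) w

variable {D L : ℕ}

theorem avW_append (u w : List ℕ) : avW D (u ++ w) = avW D u + avW D w := by
  induction u with
  | nil => simp [avW]
  | cons s u ih => rw [List.cons_append, avW, avW, ih, add_assoc]

theorem wgW_append (u w : List ℕ) : wgW L (u ++ w) = wgW L u + wgW L w := by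
  induction u with
  | nil => simp [wgW]
  | cons s u ih => rw [List.cons_append, wgW, wgW, ih, add_assoc]

theorem cod_append (g : ℕ) (u w : List ℕ) :
    cod D L g (u ++ w) = cod D L g u + cod D L (g + avW D u) w := by
  induction u generalizing g with
  | nil => simp [cod, avW]
  | cons s u ih =>
    rw [List.cons_append, cod, cod, ih, avW, ← add_assoc, ← add_assoc]

theorem cod_shift (g : ℕ) (w : List ℕ) : cod D L g w = g * wgW L w + cod D L 0 w := by
  induction w generalizing g with
  | nil => simp [cod, wgW]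
  | cons s w ih =>
    rw [cod, cod, wgW, ih, ih (0 + av D s)]
    ring

/-- packing of a formal polynomial -/
def pack (b D L : ℕ) (p : Po) : ℕ := (p.map (fun x => x.1 * b ^ cod D L 0 x.2)).sum

theorem pack_nil (b : ℕ) : pack b D L [] = 0 := rfl

theorem pack_cons (b : ℕ) (x : ℕ × List ℕ) (p : Po) :
    pack b D L (x :: p) = x.1 * b ^ cod D L 0 x.2 + pack b D L p := by
  simp [pack]

theorem pack_append (b : ℕ) (p q : Po) : pack b D L (p ++ q) = pack b D L p + pack b D L q := by
  simp [pack]

/-- all words have total advance `a` and total weight `w` -/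
def Hom (D L a w : ℕ) (p : Po) : Prop := ∀ x ∈ p, avW D x.2 = a ∧ wgW L x.2 = w

theorem pack_mulP (b : ℕ) {a w a' w' : ℕ} {p q : Po} (hp : Hom D L a w p) (hq : Hom D L a' w' q) :
    pack b D L (mulP p q) = pack b D L p * pack b D L q * b ^ (a * w') := by
  induction p with
  | nil => simp [mulP, pack_nil]
  | cons x p ih =>
    have h1 : mulP (x :: p) q = q.map (fun y => (x.1 * y.1, x.2 ++ y.2)) ++ mulP p q := by
      simp [mulP]
    rw [h1, pack_append, ih (fun y hy => hp y (List.mem_cons_of_mem _ hy)), pack_cons, add_mul,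
      add_mul]
    congr 1
    have hx : avW D x.2 = a := (hp x List.mem_cons_self).1
    clear h1 ih
    induction q with
    | nil => simp [pack_nil]
    | cons y q ih =>
      have hy : wgW L y.2 = w' := (hq y List.mem_cons_self).2
      rw [List.map_cons, pack_cons, pack_cons, ih (fun z hz => hq z (List.mem_cons_of_mem _ hz)),
        mul_add, add_mul]
      congr 1
      simp only [cod_append, hx, zero_add]
      rw [cod_shift a, hy, pow_add, pow_add]
      ring

theorem hom_mulP {a w a' w' : ℕ} {p q : Po} (hp : Hom D L a w p) (hq : Hom D L a' w' q) :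
    Hom D L (a + a') (w + w') (mulP p q) := by
  intro z hz
  unfold mulP at hz
  rw [List.mem_flatMap] at hz
  obtain ⟨x, hx, hz⟩ := hz
  rw [List.mem_map] at hz
  obtain ⟨y, hy, rfl⟩ := hz
  simp only [avW_append, wgW_append]
  rw [(hp x hx).1, (hq y hy).1, (hp x hx).2, (hq y hy).2]
  exact ⟨rfl, rfl⟩

theorem pack_negP (b : ℕ) (p : Po) : pack b D L (negP p) = 4 * pack b D L p := by
  induction p with
  | nil => simp [negP, pack_nil]
  | cons x p ih =>
    have h1 : negP (x :: p) = (4 * x.1, x.2) :: negP p := by simp [negP]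
    rw [h1, pack_cons, pack_cons, ih]
    ring

/-- total advance of a Lie monomial -/
def LA (D : ℕ) : LM → ℕ
  | .a s => av D s
  | .b x y => LA D x + LA D y

/-- total weight of a Lie monomial -/
def LW (L : ℕ) : LM → ℕ
  | .a s => wg L s
  | .b x y => LW L x + LW L y

/-- packed value of a Lie monomial at level 0 -/
def LN (b D L : ℕ) : LM → ℕ
  | .a _ => 1
  | .b x y => LN b D L x * LN b D L y * (b ^ (LA D x * LW L y) + 4 * b ^ (LA D y * LW L x))

theorem LM_hom (x : LM) : Hom D L (LA D x) (LW L x) x.po := by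
  induction x with
  | a s =>
    intro z hz
    rw [LM.po, List.mem_singleton] at hz
    subst hz
    simp [avW, wgW, LA, LW]
  | b x y ihx ihy =>
    intro z hz
    rw [LM.po, List.mem_append] at hz
    rcases hz with hz | hz
    · exact hom_mulP ihx ihy z hz
    · unfold negP at hz
      rw [List.mem_map] at hz
      obtain ⟨t, ht, rfl⟩ := hz
      rw [LA, LW, add_comm (LA D x), add_comm (LW L x)]
      exact hom_mulP ihy ihx t ht

theorem pack_LM (b : ℕ) (x : LM) : pack b D L x.po = LN b D L x := by
  induction x with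
  | a s => simp [LM.po, LN, pack, cod]
  | b x y ihx ihy =>
    rw [LM.po, pack_append, pack_negP, pack_mulP b (LM_hom x) (LM_hom y),
      pack_mulP b (LM_hom y) (LM_hom x), ihx, ihy, LN]
    ring

/-- exponent of a product of four factors -/
def E4 (D L : ℕ) (P Q R S : LM) : ℕ :=
  LA D P * (LW L Q + (LW L R + LW L S)) + (LA D Q * (LW L R + LW L S) + LA D R * LW L S)

theorem pack_mul4 (b : ℕ) (u w : List ℕ) (c : ℕ) (P Q R S : LM) :
    pack b D L (mul4 u w c P.po Q.po R.po S.po) =
      c * b ^ (cod D L 0 u + avW D u * (LW L P + (LW L Q + (LW L R + LW L S))) +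
        cod D L (avW D u + (LA D P + (LA D Q + (LA D R + LA D S)))) w) *
      (LN b D L P * (LN b D L Q * (LN b D L R * LN b D L S))) * b ^ E4 D L P Q R S := by
  unfold mul4
  have hu : Hom D L (avW D u) (wgW L u) [(c, u)] := by
    intro z hz
    rw [List.mem_singleton] at hz
    subst hz
    exact ⟨rfl, rfl⟩
  have hw : Hom D L (avW D w) (wgW L w) [(1, w)] := by
    intro z hz
    rw [List.mem_singleton] at hz
    subst hz
    exact ⟨rfl, rfl⟩
  have h3 := hom_mulP (LM_hom (D := D) (L := L) R) (LM_hom S)
  have h2 := hom_mulP (LM_hom (D := D) (L := L) Q) h3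
  have h1 := hom_mulP (LM_hom (D := D) (L := L) P) h2
  rw [pack_mulP b hu (hom_mulP h1 hw), pack_mulP b h1 hw, pack_mulP b (LM_hom P) h2,
    pack_mulP b (LM_hom Q) h3, pack_mulP b (LM_hom R) (LM_hom S), pack_LM, pack_LM, pack_LM, pack_LM]
  simp only [pack_cons, pack_nil, add_zero, one_mul]
  unfold E4
  rw [cod_shift (avW D u + _) w]
  simp only [pow_add, mul_add, add_mul]
  ring

/-- the sum over the permutations -/
def S4 (b D L : ℕ) (P Q R S : LM) : ℕ :=
  (perm24 (fun A B C E => b ^ E4 D L A B C E) P Q R S).sum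

theorem pack_inst (b : ℕ) (I : Inst) : pack b D L I.po =
    I.c * b ^ (cod D L 0 I.u + avW D I.u * (LW L I.p + (LW L I.q + (LW L I.r + LW L I.s))) +
        cod D L (avW D I.u + (LA D I.p + (LA D I.q + (LA D I.r + LA D I.s)))) I.v) *
      ((LN b D L I.p * (LN b D L I.q * (LN b D L I.r * LN b D L I.s))) *
        S4 b D L I.p I.q I.r I.s) := by
  have key : ∀ P Q R S : LM, LW L P + (LW L Q + (LW L R + LW L S)) =
      LW L I.p + (LW L I.q + (LW L I.r + LW L I.s)) →
      LA D P + (LA D Q + (LA D R + LA D S)) =
      LA D I.p + (LA D I.q + (LA D I.r + LA D I.s)) →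
      LN b D L P * (LN b D L Q * (LN b D L R * LN b D L S)) =
      LN b D L I.p * (LN b D L I.q * (LN b D L I.r * LN b D L I.s)) →
      pack b D L (mul4 I.u I.v I.c P.po Q.po R.po S.po) =
      I.c * b ^ (cod D L 0 I.u + avW D I.u * (LW L I.p + (LW L I.q + (LW L I.r + LW L I.s))) +
        cod D L (avW D I.u + (LA D I.p + (LA D I.q + (LA D I.r + LA D I.s)))) I.v) *
      (LN b D L I.p * (LN b D L I.q * (LN b D L I.r * LN b D L I.s))) * b ^ E4 D L P Q R S := by
    intro P Q R S h1 h2 h3
    rw [pack_mul4, h1, h2, h3]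
  unfold Inst.po S4 perm24
  simp only [List.flatten_cons, List.flatten_nil, List.append_nil, pack_append, List.sum_cons,
    List.sum_nil, add_zero]
  rw [key I.p I.q I.r I.s (by ring) (by ring) (by ring),
    key I.p I.q I.s I.r (by ring) (by ring) (by ring),
    key I.p I.r I.q I.s (by ring) (by ring) (by ring),
    key I.p I.r I.s I.q (by ring) (by ring) (by ring),
    key I.p I.s I.q I.r (by ring) (by ring) (by ring),
    key I.p I.s I.r I.q (by ring) (by ring) (by ring),
    key I.q I.p I.r I.s (by ring) (by ring) (by ring),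
    key I.q I.p I.s I.r (by ring) (by ring) (by ring),
    key I.q I.r I.p I.s (by ring) (by ring) (by ring),
    key I.q I.r I.s I.p (by ring) (by ring) (by ring),
    key I.q I.s I.p I.r (by ring) (by ring) (by ring),
    key I.q I.s I.r I.p (by ring) (by ring) (by ring),
    key I.r I.p I.q I.s (by ring) (by ring) (by ring),
    key I.r I.p I.s I.q (by ring) (by ring) (by ring),
    key I.r I.q I.p I.s (by ring) (by ring) (by ring),
    key I.r I.q I.s I.p (by ring) (by ring) (by ring),
    key I.r I.s I.p I.q (by ring) (by ring) (by ring),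
    key I.r I.s I.q I.p (by ring) (by ring) (by ring),
    key I.s I.p I.q I.r (by ring) (by ring) (by ring),
    key I.s I.p I.r I.q (by ring) (by ring) (by ring),
    key I.s I.q I.p I.r (by ring) (by ring) (by ring),
    key I.s I.q I.r I.p (by ring) (by ring) (by ring),
    key I.s I.r I.p I.q (by ring) (by ring) (by ring),
    key I.s I.r I.q I.p (by ring) (by ring) (by ring)]
  simp only [mul_add]
  ring

end codes

end Pool.Agent.MP5c99ad.PW
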