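import Mathlib
import Pool.Agent.Lib.MP_5c99ad_al.PWA

set_option autoImplicit false

/-!
Packed checker for windows, part B: words with the same content and the same code have the same value.
-/

namespace Pool.Agent.MP5c99ad.PW

open Pool.Agent.MP5c99ad Pool.Agent.MP5c99ad.Pk

section levels

/-- number of symbols `m` before the first occurrence of `i` -/
def bf (m : ℕ) : List ℕ → ℕ → ℕ
  | [], _ => 0
  | s :: w, i => if s = i then 0 else (if s = m then 1 else 0) + bf m w i

/-- level of the letter `i` in the word, starting at level `g` -/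
def lev (D : ℕ) : ℕ → List ℕ → ℕ → ℕ
  | _, [], _ => 0
  | g, s :: w, i => if s = i then g else lev D (g + av D s) w i

variable {D L : ℕ}

theorem lev_eq (g : ℕ) (w : List ℕ) (i : ℕ) (hi : i ∈ w) :
    lev D g w i = g + (bf 0 w i + D * bf 1 w i) := by
  induction w generalizing g with
  | nil => simp at hi
  | cons s w ih =>
    by_cases hs : s = i
    · subst hs
      simp [lev, bf]
    · have hi' : i ∈ w := by
        rw [List.mem_cons] at hi
        rcases hi with h | h
        · exact absurd h.symm hs
        · exact h
      rw [lev, if_neg hs, ih _ hi', bf, if_neg hs, bf, if_neg hs]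
      rcases s with _ | _ | s
      · simp [av]; ring
      · simp [av]; ring
      · simp [av]

theorem bf_le (m : ℕ) (w : List ℕ) (i : ℕ) : bf m w i ≤ w.count m := by
  induction w with
  | nil => simp [bf]
  | cons s w ih =>
    rw [bf]
    split_ifs with h1 h2
    · exact Nat.zero_le _
    · subst h2
      rw [List.count_cons_self]
      omega
    · rw [List.count_cons_of_ne (fun e => h2 e)]
      omega

theorem bf_append_not_mem {m i : ℕ} {p : List ℕ} (q : List ℕ) (h : i ∉ p) :
    bf m (p ++ q) i = p.count m + bf m q i := by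
  induction p with
  | nil => simp
  | cons s p ih =>
    rw [List.mem_cons, not_or] at h
    rw [List.cons_append, bf, if_neg (fun e => h.1 e.symm), ih h.2]
    by_cases hs : s = m
    · subst hs
      rw [if_pos rfl, List.count_cons_self]
      omega
    · rw [if_neg hs, List.count_cons_of_ne (fun e => hs e)]
      omega

theorem bf_append_mem {m i : ℕ} {p : List ℕ} (q : List ℕ) (h : i ∈ p) :
    bf m (p ++ q) i = bf m p i := by
  induction p with
  | nil => simp at h
  | cons s p ih =>
    by_cases hs : s = i
    · rw [List.cons_append, bf, if_pos hs, bf, if_pos hs]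
    · have h' : i ∈ p := by
        rw [List.mem_cons] at h
        rcases h with h | h
        · exact absurd h.symm hs
        · exact h
      rw [List.cons_append, bf, if_neg hs, bf, if_neg hs, ih h']

/-- each letter occurs at most once -/
def Lin2 (w : List ℕ) : Prop := ∀ i, 2 ≤ i → w.count i ≤ 1

theorem lin2_perm {w w' : List ℕ} (h : w.Perm w') (hw : Lin2 w) : Lin2 w' := by
  intro i hi
  rw [← h.count_eq]
  exact hw i hi

theorem lin2_cons {s : ℕ} {w : List ℕ} (h : Lin2 (s :: w)) : Lin2 w := by
  intro i hi
  exact le_trans List.count_le_count_cons (h i hi)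

end levels

section eval

variable {U : Type} [Ring U] {v : ℕ → U}

/-- the commutations -/
structure Cm (v : ℕ → U) : Prop where
  mm : v 0 * v 1 = v 1 * v 0
  ll : ∀ i j, 2 ≤ i → 2 ≤ j → v i * v j = v j * v i

theorem evW_comm_of (s : ℕ) (p : List ℕ) (hp : ∀ t ∈ p, v t * v s = v s * v t) :
    evW v p * v s = v s * evW v p := by
  induction p with
  | nil => simp [evW_nil]
  | cons t p ih =>
    rw [evW_cons, mul_assoc, ih (fun x hx => hp x (List.mem_cons_of_mem _ hx)), ← mul_assoc,
      hp t List.mem_cons_self, mul_assoc]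

/-- words with the same content and the same numbers of marks before each letter -/
theorem evW_eq_of_bf (hc : Cm v) : ∀ (w w' : List ℕ), w.Perm w' → Lin2 w →
    (∀ i, 2 ≤ i → i ∈ w → bf 0 w i = bf 0 w' i ∧ bf 1 w i = bf 1 w' i) → evW v w = evW v w' := by
  intro w
  induction w with
  | nil =>
    intro w' hp _ _
    rw [List.nil_perm.1 hp]
  | cons s t ih =>
    intro w' hp hl hb
    have hsm : s ∈ w' := hp.subset List.mem_cons_self
    obtain ⟨p, q, rfl, hnp⟩ := List.eq_append_cons_of_mem hsm
    have hp' : t.Perm (p ++ q) := by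
      have : (s :: t).Perm (s :: (p ++ q)) := hp.trans List.perm_middle
      exact (List.perm_cons s).1 this
    have hl' : Lin2 (p ++ s :: q) := lin2_perm hp hl
    have hcomm : ∀ x ∈ p, v x * v s = v s * v x := by
      intro x hx
      have hxs : x ≠ s := fun e => hnp (e ▸ hx)
      have hxm : x ∈ s :: t := hp.symm.subset (by simp [hx])
      rcases s with _ | _ | s
      · -- `s = 0`
        rcases x with _ | _ | x
        · exact absurd rfl hxs
        · exact hc.mm.symm
        · exfalso
          have h1 := (hb (x + 2) (by omega) hxm).1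
          rw [bf_append_mem _ hx] at h1
          have h2 : bf 0 p (x + 2) = 0 := by
            have := bf_le 0 p (x + 2)
            rw [List.count_eq_zero_of_not_mem hnp] at this
            omega
          rw [h2, bf, if_neg (by omega), if_pos rfl] at h1
          omega
      · -- `s = 1`
        rcases x with _ | _ | x
        · exact hc.mm
        · exact absurd rfl hxs
        · exfalso
          have h1 := (hb (x + 2) (by omega) hxm).2
          rw [bf_append_mem _ hx] at h1
          have h2 : bf 1 p (x + 2) = 0 := by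
            have := bf_le 1 p (x + 2)
            rw [List.count_eq_zero_of_not_mem hnp] at this
            omega
          rw [h2, bf, if_neg (by omega), if_pos rfl] at h1
          omega
      · -- a letter
        have h1 := hb (s + 2) (by omega) List.mem_cons_self
        rw [bf_append_not_mem _ hnp, bf_append_not_mem _ hnp] at h1
        simp only [bf, if_true] at h1
        have h0 : ∀ m, p.count m = 0 → x ≠ m := by
          intro m hm e
          subst e
          exact (List.count_eq_zero.1 hm) hx
        rcases x with _ | _ | x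
        · exact absurd rfl (h0 0 (by omega))
        · exact absurd rfl (h0 1 (by omega))
        · exact hc.ll _ _ (by omega) (by omega)
    have hval : evW v (p ++ s :: q) = v s * evW v (p ++ q) := by
      rw [evW_append, evW_cons, ← mul_assoc, evW_comm_of s p hcomm, mul_assoc, evW_append]
    rw [hval, evW_cons]
    congr 1
    refine ih (p ++ q) hp' (lin2_cons hl) ?_
    intro i hi hit
    have hne : s ≠ i := by
      rintro rfl
      have h1 := hl s hi
      rw [List.count_cons_self] at h1
      have h2 : 1 ≤ t.count s := List.one_le_count_iff.2 hit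
      omega
    have h1 := hb i hi (List.mem_cons_of_mem _ hit)
    -- reduce both sides
    by_cases hip : i ∈ p
    · -- then `s` is a letter or contradiction
      rw [bf_append_mem _ hip, bf_append_mem _ hip] at h1
      rw [bf_append_mem _ hip, bf_append_mem _ hip]
      rw [bf, if_neg hne, bf, if_neg hne] at h1
      have z0 : s = 0 → bf 0 p i = 0 := by
        rintro rfl
        have := bf_le 0 p i
        rw [List.count_eq_zero_of_not_mem hnp] at this
        omega
      have z1 : s = 1 → bf 1 p i = 0 := by
        rintro rfl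
        have := bf_le 1 p i
        rw [List.count_eq_zero_of_not_mem hnp] at this
        omega
      have s0 : s ≠ 0 := by
        intro e
        have := z0 e
        rw [if_pos e] at h1
        omega
      have s1 : s ≠ 1 := by
        intro e
        have := z1 e
        rw [if_pos e] at h1
        omega
      rw [if_neg s0, if_neg s1, zero_add, zero_add] at h1
      exact h1
    · rw [bf_append_not_mem _ hip, bf_append_not_mem _ hip] at h1
      rw [bf_append_not_mem _ hip, bf_append_not_mem _ hip]
      rw [bf, if_neg hne, bf, if_neg hne, bf, if_neg hne, bf, if_neg hne] at h1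
      constructor
      · have := h1.1
        omega
      · have := h1.2
        omega

end eval

section code

variable {D L n : ℕ}

theorem lev_not_mem {w : List ℕ} {i : ℕ} (h : i ∉ w) (g : ℕ) : lev D g w i = 0 := by
  induction w generalizing g with
  | nil => rfl
  | cons s w ih =>
    rw [List.mem_cons, not_or] at h
    rw [lev, if_neg (fun e => h.1 e.symm), ih h.2]

/-- the code in terms of the levels -/
theorem cod_eq_sum (w : List ℕ) (hw : Lin2 w) (hk : ∀ s ∈ w, s < n + 2) (g : ℕ) :
    cod D L g w = ∑ j ∈ Finset.range n, lev D g w (j + 2) * L ^ j := by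
  induction w generalizing g with
  | nil => simp [cod, lev]
  | cons s w ih =>
    rw [cod, ih (lin2_cons hw) (fun t ht => hk t (List.mem_cons_of_mem _ ht))]
    rcases s with _ | _ | j
    · rw [wg, mul_zero, zero_add]
      apply Finset.sum_congr rfl
      intro i _
      rw [lev, if_neg (by omega)]
    · rw [wg, mul_zero, zero_add]
      apply Finset.sum_congr rfl
      intro i _
      rw [lev, if_neg (by omega)]
    · have hj : j < n := by
        have := hk (j + 2) List.mem_cons_self
        omega
      have hnot : j + 2 ∉ w := by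
        intro hm
        have h1 := hw (j + 2) (by omega)
        rw [List.count_cons_self] at h1
        have h2 : 1 ≤ w.count (j + 2) := List.one_le_count_iff.2 hm
        omega
      rw [wg, ← Finset.sum_erase_add _ _ (Finset.mem_range.2 hj),
        ← Finset.sum_erase_add (Finset.range n) _ (Finset.mem_range.2 hj)]
      rw [lev_not_mem hnot, zero_mul, add_zero, lev, if_pos rfl, add_comm]
      congr 1
      apply Finset.sum_congr rfl
      intro i hi
      rw [Finset.mem_erase] at hi
      rw [lev, if_neg (by omega)]

/-- the words considered: `A` marks `0`, `B` marks `1`, letters `2, ..., n + 1` once each -/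
structure Ct (A B n : ℕ) (w : List ℕ) : Prop where
  c0 : w.count 0 = A
  c1 : w.count 1 = B
  cl : ∀ j, j < n → w.count (j + 2) = 1
  lt : ∀ s ∈ w, s < n + 2

theorem Ct.perm {A B n : ℕ} {w w' : List ℕ} (h : Ct A B n w) (hp : w.Perm w') : Ct A B n w' :=
  ⟨by rw [← hp.count_eq]; exact h.c0, by rw [← hp.count_eq]; exact h.c1,
    fun j hj => by rw [← hp.count_eq]; exact h.cl j hj, fun s hs => h.lt s (hp.symm.subset hs)⟩

theorem Ct.lin {A B n : ℕ} {w : List ℕ} (h : Ct A B n w) : Lin2 w := by
  intro i hi
  by_cases hin : i < n + 2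
  · have := h.cl (i - 2) (by omega)
    rw [show i - 2 + 2 = i by omega] at this
    omega
  · rw [List.count_eq_zero_of_not_mem (fun hm => hin (h.lt i hm))]
    omega

theorem Ct.mem {A B n : ℕ} {w : List ℕ} (h : Ct A B n w) {j : ℕ} (hj : j < n) : j + 2 ∈ w := by
  have := h.cl j hj
  exact List.one_le_count_iff.1 (by omega)

theorem Ct.lev_lt {A B n : ℕ} {w : List ℕ} (h : Ct A B n w) (j : ℕ) :
    lev (A + 1) 0 w (j + 2) < (A + 1) * (B + 1) := by
  by_cases hm : j + 2 ∈ w
  · rw [lev_eq _ _ _ hm]
    have h0 := bf_le 0 w (j + 2)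
    have h1 := bf_le 1 w (j + 2)
    rw [h.c0] at h0
    rw [h.c1] at h1
    have h2 : (A + 1) * bf 1 w (j + 2) ≤ (A + 1) * B := Nat.mul_le_mul_left _ h1
    rw [mul_add, mul_one]
    omega
  · rw [lev_not_mem hm]
    positivity

/-- digits of the code are the levels -/
theorem Ct.digit {A B n : ℕ} {w : List ℕ} (h : Ct A B n w) {j : ℕ} (hj : j < n) :
    cod (A + 1) ((A + 1) * (B + 1)) 0 w / ((A + 1) * (B + 1)) ^ j % ((A + 1) * (B + 1)) =
      bf 0 w (j + 2) + (A + 1) * bf 1 w (j + 2) := by
  rw [cod_eq_sum w h.lin h.lt]
  set L := (A + 1) * (B + 1) with hL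
  have hLpos : 0 < L := by positivity
  have key : ∀ (m : ℕ) (f : ℕ → ℕ), (∀ i, f i < L) → j < m →
      (∑ i ∈ Finset.range m, f i * L ^ i) / L ^ j % L = f j := by
    clear hj
    induction j with
    | zero =>
      intro m f hf hjm
      obtain ⟨m, rfl⟩ := Nat.exists_eq_add_of_lt hjm
      rw [show 0 + m + 1 = m + 1 by omega, Finset.sum_range_succ']
      simp only [pow_zero, mul_one, Nat.div_one, pow_succ]
      have e1 : ∑ i ∈ Finset.range m, f (i + 1) * (L ^ i * L) =
          L * ∑ i ∈ Finset.range m, f (i + 1) * L ^ i := by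
        rw [Finset.mul_sum]
        apply Finset.sum_congr rfl
        intro i _
        ring
      rw [e1, Nat.mul_add_mod, Nat.mod_eq_of_lt (hf 0)]
    | succ j ih =>
      intro m f hf hjm
      obtain ⟨m, rfl⟩ : ∃ m', m = m' + 1 := ⟨m - 1, by omega⟩
      rw [Finset.sum_range_succ']
      simp only [pow_zero, mul_one, pow_succ]
      have e1 : ∑ i ∈ Finset.range m, f (i + 1) * (L ^ i * L) =
          L * ∑ i ∈ Finset.range m, f (i + 1) * L ^ i := by
        rw [Finset.mul_sum]
        apply Finset.sum_congr rfl
        intro i _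
        ring
      rw [e1, mul_comm (L ^ j) L, ← Nat.div_div_eq_div_mul, Nat.mul_add_div hLpos,
        Nat.div_eq_of_lt (hf 0), add_zero]
      exact ih m (fun i => f (i + 1)) (fun i => hf _) (by omega)
  rw [key n (fun i => lev (A + 1) 0 w (i + 2)) (fun i => h.lev_lt i) hj]
  rw [lev_eq _ _ _ (h.mem hj), zero_add]

theorem Ct.bf0 {A B n : ℕ} {w : List ℕ} (h : Ct A B n w) {j : ℕ} (hj : j < n) :
    cod (A + 1) ((A + 1) * (B + 1)) 0 w / ((A + 1) * (B + 1)) ^ j % ((A + 1) * (B + 1)) % (A + 1) =
      bf 0 w (j + 2) := by
  rw [h.digit hj, Nat.add_mul_mod_self_left, Nat.mod_eq_of_lt]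
  have h0 := bf_le 0 w (j + 2)
  rw [h.c0] at h0
  omega

theorem Ct.bf1 {A B n : ℕ} {w : List ℕ} (h : Ct A B n w) {j : ℕ} (hj : j < n) :
    cod (A + 1) ((A + 1) * (B + 1)) 0 w / ((A + 1) * (B + 1)) ^ j % ((A + 1) * (B + 1)) / (A + 1) =
      bf 1 w (j + 2) := by
  have h0 := bf_le 0 w (j + 2)
  rw [h.c0] at h0
  rw [h.digit hj, Nat.add_mul_div_left _ _ (Nat.succ_pos A), Nat.div_eq_of_lt (by omega), zero_add]

theorem Ct.cod_lt {A B n : ℕ} {w : List ℕ} (h : Ct A B n w) :
    cod (A + 1) ((A + 1) * (B + 1)) 0 w < ((A + 1) * (B + 1)) ^ n := by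
  rw [cod_eq_sum w h.lin h.lt]
  set L := (A + 1) * (B + 1) with hL
  have hLpos : 0 < L := by positivity
  have key : ∀ (m : ℕ) (f : ℕ → ℕ), (∀ i, f i < L) →
      ∑ i ∈ Finset.range m, f i * L ^ i < L ^ m := by
    intro m f hf
    induction m with
    | zero => simp
    | succ m ih =>
      rw [Finset.sum_range_succ, pow_succ]
      have h1 : (f m + 1) * L ^ m ≤ L * L ^ m := Nat.mul_le_mul_right _ (hf m)
      rw [add_mul, one_mul] at h1
      rw [mul_comm (L ^ m) L]
      omega
  exact key n _ (fun i => h.lev_lt i)

/-- words with the same code have the same value -/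
theorem evW_eq_of_cod {U : Type} [Ring U] {v : ℕ → U} (hc : Cm v) {A B n : ℕ} {w w' : List ℕ}
    (h : Ct A B n w) (h' : Ct A B n w')
    (he : cod (A + 1) ((A + 1) * (B + 1)) 0 w = cod (A + 1) ((A + 1) * (B + 1)) 0 w') :
    evW v w = evW v w' := by
  apply evW_eq_of_bf hc w w'
  · rw [List.perm_iff_count]
    intro i
    rcases i with _ | _ | j
    · rw [h.c0, h'.c0]
    · rw [h.c1, h'.c1]
    · by_cases hj : j < n
      · rw [h.cl j hj, h'.cl j hj]
      · rw [List.count_eq_zero_of_not_mem (fun hm => hj (by have := h.lt _ hm; omega)),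
          List.count_eq_zero_of_not_mem (fun hm => hj (by have := h'.lt _ hm; omega))]
  · exact h.lin
  · intro i hi hm
    obtain ⟨j, rfl⟩ : ∃ j, i = j + 2 := ⟨i - 2, by omega⟩
    have hj : j < n := by
      have := h.lt _ hm
      omega
    exact ⟨by rw [← h.bf0 hj, ← h'.bf0 hj, he], by rw [← h.bf1 hj, ← h'.bf1 hj, he]⟩

end code

end Pool.Agent.MP5c99ad.PW
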