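import Mathlib
import Pool.Agent.Lib.MP_5c99ad_al.PWB

set_option autoImplicit false

/-!
Packed checker for windows, part C: kernel functions.

A word is a number: base 16 digits (first symbol = lowest digit), digit = symbol + 1.
A Lie monomial is a number of the same kind, read as a left normed bracket.
A core is `X1 + 2^24 X2 + 2^48 X3 + 2^72 X4`; a context is `c + 8 (u + 2^48 v)`.
-/

namespace Pool.Agent.MP5c99ad.PW

open Pool.Agent.MP5c99ad Pool.Agent.MP5c99ad.Pk

/-- the word of a number -/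
noncomputable def wd (x : ℕ) : List ℕ :=
  @Nat.rec (fun _ => ℕ → List ℕ) (fun _ => [])
    (fun _ ih x => @Bool.rec (fun _ => List ℕ)
      (List.cons (Nat.sub (Nat.mod x (nat_lit 16)) (nat_lit 1)) (ih (Nat.div x (nat_lit 16)))) []
      (Nat.beq x (nat_lit 0))) (nat_lit 12) x

/-- advance, fast -/
noncomputable def avF (D s : ℕ) : ℕ :=
  @Nat.rec (fun _ => ℕ) (nat_lit 1) (fun s' _ => @Nat.rec (fun _ => ℕ) D (fun _ _ => nat_lit 0) s') s

/-- weight, fast -/
noncomputable def wgF (L s : ℕ) : ℕ :=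
  @Nat.rec (fun _ => ℕ) (nat_lit 0) (fun s' _ => @Nat.rec (fun _ => ℕ) (nat_lit 0)
    (fun j _ => Nat.pow L j) s') s

theorem avF_eq (D s : ℕ) : avF D s = av D s := by
  rcases s with _ | _ | s <;> rfl

theorem wgF_eq (L s : ℕ) : wgF L s = wg L s := by
  rcases s with _ | _ | s <;> rfl

noncomputable def avWF (D : ℕ) (w : List ℕ) : ℕ :=
  @List.rec ℕ (fun _ => ℕ) (nat_lit 0) (fun s _ ih => Nat.add (avF D s) ih) w

noncomputable def codF (D L g : ℕ) (w : List ℕ) : ℕ :=
  @List.rec ℕ (fun _ => ℕ → ℕ) (fun _ => nat_lit 0)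
    (fun s _ ih g => Nat.add (Nat.mul g (wgF L s)) (ih (Nat.add g (avF D s)))) w g

/-- content code -/
noncomputable def cc (w : List ℕ) : ℕ :=
  @List.rec ℕ (fun _ => ℕ) (nat_lit 0) (fun s _ ih => Nat.add (Nat.pow (nat_lit 256) s) ih) w

theorem avWF_eq (D : ℕ) (w : List ℕ) : avWF D w = avW D w := by
  induction w with
  | nil => rfl
  | cons s w ih =>
    show Nat.add (avF D s) (avWF D w) = av D s + avW D w
    rw [ih, avF_eq]
    rfl

theorem codF_eq (D L : ℕ) (w : List ℕ) : ∀ g, codF D L g w = cod D L g w := by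
  induction w with
  | nil => intro g; rfl
  | cons s w ih =>
    intro g
    show Nat.add (Nat.mul g (wgF L s)) (codF D L (Nat.add g (avF D s)) w) =
      g * wg L s + cod D L (g + av D s) w
    rw [ih, wgF_eq, avF_eq]
    rfl

theorem cc_nil : cc [] = 0 := rfl

theorem cc_cons (s : ℕ) (w : List ℕ) : cc (s :: w) = 256 ^ s + cc w := rfl

theorem cc_append (u w : List ℕ) : cc (u ++ w) = cc u + cc w := by
  induction u with
  | nil => simp [cc_nil]
  | cons s u ih => rw [List.cons_append, cc_cons, cc_cons, ih, add_assoc]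

theorem cc_perm {u w : List ℕ} (h : u.Perm w) : cc u = cc w := by
  induction h with
  | nil => rfl
  | cons x _ ih => rw [cc_cons, cc_cons, ih]
  | swap x y l =>
    simp only [cc_cons]
    omega
  | trans _ _ ih1 ih2 => rw [ih1, ih2]

/-- left normed bracket -/
noncomputable def lmG (ys : List ℕ) (m : LM) : LM :=
  @List.rec ℕ (fun _ => LM → LM) (fun m => m) (fun y _ ih m => ih (LM.b m (LM.a y))) ys m

/-- Lie monomial of a list -/
noncomputable def lmF (l : List ℕ) : LM :=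
  @List.rec ℕ (fun _ => LM) (LM.a (nat_lit 0)) (fun x ys _ => lmG ys (LM.a x)) l

noncomputable def LAF (D : ℕ) (m : LM) : ℕ :=
  @LM.rec (fun _ => ℕ) (fun s => avF D s) (fun _ _ ihx ihy => Nat.add ihx ihy) m

noncomputable def LWF (L : ℕ) (m : LM) : ℕ :=
  @LM.rec (fun _ => ℕ) (fun s => wgF L s) (fun _ _ ihx ihy => Nat.add ihx ihy) m

noncomputable def LCF (m : LM) : ℕ :=
  @LM.rec (fun _ => ℕ) (fun s => Nat.pow (nat_lit 256) s) (fun _ _ ihx ihy => Nat.add ihx ihy) m

/-- `x * 2 ^ (s * e)` -/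
noncomputable def sh (s x e : ℕ) : ℕ := Nat.shiftLeft x (Nat.mul s e)

theorem sh_eq (s x e : ℕ) : sh s x e = x * (2 ^ s) ^ e := by
  show x <<< (s * e) = _
  rw [Nat.shiftLeft_eq, pow_mul]

noncomputable def LNF (s D L : ℕ) (m : LM) : ℕ :=
  @LM.rec (fun _ => ℕ) (fun _ => nat_lit 1)
    (fun x y ihx ihy => Nat.mul (Nat.mul ihx ihy)
      (Nat.add (sh s (nat_lit 1) (Nat.mul (LAF D x) (LWF L y)))
        (sh s (nat_lit 4) (Nat.mul (LAF D y) (LWF L x))))) m

theorem LAF_eq (D : ℕ) (m : LM) : LAF D m = LA D m := by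
  induction m with
  | a s => exact avF_eq D s
  | b x y ihx ihy =>
    show Nat.add (LAF D x) (LAF D y) = _
    rw [ihx, ihy]
    rfl

theorem LWF_eq (L : ℕ) (m : LM) : LWF L m = LW L m := by
  induction m with
  | a s => exact wgF_eq L s
  | b x y ihx ihy =>
    show Nat.add (LWF L x) (LWF L y) = _
    rw [ihx, ihy]
    rfl

theorem LNF_eq (s D L : ℕ) (m : LM) : LNF s D L m = LN (2 ^ s) D L m := by
  induction m with
  | a s => rfl
  | b x y ihx ihy =>
    show Nat.mul (Nat.mul (LNF s D L x) (LNF s D L y))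
      (Nat.add (sh s 1 (Nat.mul (LAF D x) (LWF L y)))
        (sh s 4 (Nat.mul (LAF D y) (LWF L x)))) = _
    rw [ihx, ihy, sh_eq, sh_eq, LAF_eq, LAF_eq, LWF_eq, LWF_eq, LN, one_mul]
    rfl

/-- sum over two permutations -/
noncomputable def E2F (s a1 w1 a2 w2 : ℕ) : ℕ :=
  Nat.add (sh s (nat_lit 1) (Nat.mul a1 w2)) (sh s (nat_lit 1) (Nat.mul a2 w1))

noncomputable def E3F (s a1 w1 a2 w2 a3 w3 : ℕ) : ℕ :=
  Nat.add (sh s (E2F s a2 w2 a3 w3) (Nat.mul a1 (Nat.add w2 w3)))
    (Nat.add (sh s (E2F s a1 w1 a3 w3) (Nat.mul a2 (Nat.add w1 w3)))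
      (sh s (E2F s a1 w1 a2 w2) (Nat.mul a3 (Nat.add w1 w2))))

noncomputable def E4F (s a1 w1 a2 w2 a3 w3 a4 w4 : ℕ) : ℕ :=
  Nat.add (Nat.add (sh s (E3F s a2 w2 a3 w3 a4 w4) (Nat.mul a1 (Nat.add w2 (Nat.add w3 w4))))
    (sh s (E3F s a1 w1 a3 w3 a4 w4) (Nat.mul a2 (Nat.add w1 (Nat.add w3 w4)))))
    (Nat.add (sh s (E3F s a1 w1 a2 w2 a4 w4) (Nat.mul a3 (Nat.add w1 (Nat.add w2 w4))))
    (sh s (E3F s a1 w1 a2 w2 a3 w3) (Nat.mul a4 (Nat.add w1 (Nat.add w2 w3)))))

theorem E4F_eq (s D L : ℕ) (P Q R S : LM) :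
    E4F s (LA D P) (LW L P) (LA D Q) (LW L Q) (LA D R) (LW L R) (LA D S) (LW L S) =
      S4 (2 ^ s) D L P Q R S := by
  have ea : ∀ a b, Nat.add a b = a + b := fun _ _ => rfl
  have em : ∀ a b, Nat.mul a b = a * b := fun _ _ => rfl
  unfold E4F E3F E2F S4 perm24 E4
  simp only [sh_eq, ea, em, List.sum_cons, List.sum_nil, add_zero, one_mul, mul_add, pow_add]
  ring

/-- slot of a core -/
noncomputable def sl1 (x : ℕ) : LM := lmF (wd (Nat.mod x (nat_lit 16777216)))
noncomputable def sl2 (x : ℕ) : LM := lmF (wd (Nat.mod (Nat.div x (nat_lit 16777216)) (nat_lit 16777216)))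
noncomputable def sl3 (x : ℕ) : LM := lmF (wd (Nat.mod (Nat.div x (nat_lit 281474976710656)) (nat_lit 16777216)))
noncomputable def sl4 (x : ℕ) : LM := lmF (wd (Nat.div x (nat_lit 4722366482869645213696)))

/-- packed core -/
noncomputable def coreK (s D L : ℕ) (P Q R S : LM) : ℕ :=
  Nat.mul (Nat.mul (Nat.mul (LNF s D L P) (LNF s D L Q)) (Nat.mul (LNF s D L R) (LNF s D L S)))
    (E4F s (LAF D P) (LWF L P) (LAF D Q) (LWF L Q) (LAF D R) (LWF L R) (LAF D S) (LWF L S))

noncomputable def cxC (x : ℕ) : ℕ := Nat.mod x (nat_lit 8)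
noncomputable def cxU (x : ℕ) : List ℕ := wd (Nat.mod (Nat.div x (nat_lit 8)) (nat_lit 281474976710656))
noncomputable def cxV (x : ℕ) : List ℕ := wd (Nat.div x (nat_lit 2251799813685248))

/-- exponent of a context -/
noncomputable def cxE (D L Ac Wc x : ℕ) : ℕ :=
  Nat.add (Nat.add (codF D L (nat_lit 0) (cxU x)) (Nat.mul (avWF D (cxU x)) Wc))
    (codF D L (Nat.add (avWF D (cxU x)) Ac) (cxV x))

/-- packed sum of the contexts -/
noncomputable def MC (s D L Ac Wc : ℕ) (l : List ℕ) : ℕ :=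
  @List.rec ℕ (fun _ => ℕ) (nat_lit 0)
    (fun x _ ih => Nat.add (sh s (cxC x) (cxE D L Ac Wc x)) ih) l

/-- all contexts have the right content -/
noncomputable def okC (rest : ℕ) (l : List ℕ) : Bool :=
  @List.rec ℕ (fun _ => Bool) true
    (fun x _ ih => @Bool.rec (fun _ => Bool) false ih
      (Nat.beq (Nat.add (cc (cxU x)) (cc (cxV x))) rest)) l

/-- packed value of a core with its contexts -/
noncomputable def coreV (s D L : ℕ) (x : ℕ × List ℕ) : ℕ :=
  Nat.mul (coreK s D L (sl1 x.1) (sl2 x.1) (sl3 x.1) (sl4 x.1))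
    (MC s D L (Nat.add (LAF D (sl1 x.1)) (Nat.add (LAF D (sl2 x.1)) (Nat.add (LAF D (sl3 x.1)) (LAF D (sl4 x.1)))))
      (Nat.add (LWF L (sl1 x.1)) (Nat.add (LWF L (sl2 x.1)) (Nat.add (LWF L (sl3 x.1)) (LWF L (sl4 x.1))))) x.2)

/-- content test of a core with its contexts; `tot` is the content code -/
noncomputable def coreOk (tot : ℕ) (x : ℕ × List ℕ) : Bool :=
  (fun c => @Bool.rec (fun _ => Bool) false (okC (Nat.sub tot c) x.2) (Nat.ble c tot))
    (Nat.add (LCF (sl1 x.1)) (Nat.add (LCF (sl2 x.1)) (Nat.add (LCF (sl3 x.1)) (LCF (sl4 x.1)))))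

/-- sum over a list -/
noncomputable def sumL {α : Type} (f : α → ℕ) (l : List α) : ℕ :=
  @List.rec α (fun _ => ℕ) (nat_lit 0) (fun x _ ih => Nat.add (f x) ih) l

/-- test over a list -/
noncomputable def allL {α : Type} (f : α → Bool) (l : List α) : Bool :=
  @List.rec α (fun _ => Bool) true (fun x _ ih => @Bool.rec (fun _ => Bool) false ih (f x)) l

theorem sumL_eq {α : Type} (f : α → ℕ) (l : List α) : sumL f l = (l.map f).sum := by
  induction l with
  | nil => rfl
  | cons x l ih =>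
    show Nat.add (f x) (sumL f l) = _
    rw [ih, List.map_cons, List.sum_cons]
    rfl

theorem allL_true {α : Type} {f : α → Bool} {l : List α} (h : allL f l = true) :
    ∀ x ∈ l, f x = true := by
  induction l with
  | nil => intro x hx; simp at hx
  | cons y l ih =>
    have h' : @Bool.rec (fun _ => Bool) false (allL f l) (f y) = true := h
    cases hy : f y with
    | false => rw [hy] at h'; exact absurd h' (by simp)
    | true =>
      rw [hy] at h'
      intro x hx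
      rw [List.mem_cons] at hx
      rcases hx with rfl | hx
      · exact hy
      · exact ih h' x hx

/-- scan of the digits: sum of the admissible digits -/
noncomputable def scan (s : ℕ) (K : ℕ → Bool) (k : ℕ) : ℕ → ℕ → ℕ :=
  @Nat.rec (fun _ => ℕ → ℕ → ℕ)
    (fun N κ => @Bool.rec (fun _ => ℕ)
      (@Bool.rec (fun _ => ℕ) (@Bool.rec (fun _ => ℕ) (nat_lit 0) N (K κ)) N
        (Nat.beq (Nat.mod N (nat_lit 5)) (nat_lit 0))) (nat_lit 0) (Nat.beq N (nat_lit 0)))
    (fun k ih N κ => @Bool.rec (fun _ => ℕ)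
      (Nat.add (ih (Nat.mod N (Nat.pow (nat_lit 2) (Nat.mul s (Nat.pow (nat_lit 2) k)))) (Nat.mul (nat_lit 2) κ))
        (ih (Nat.div N (Nat.pow (nat_lit 2) (Nat.mul s (Nat.pow (nat_lit 2) k)))) (Nat.succ (Nat.mul (nat_lit 2) κ))))
      (nat_lit 0) (Nat.beq N (nat_lit 0))) k

/-- marks before, from the level -/
noncomputable def mbs (D l : ℕ) : ℕ := Nat.add (Nat.mod l D) (Nat.div l D)

/-- the measure from the code -/
noncomputable def FK (D L K n κ : ℕ) : ℕ :=
  @Nat.rec (fun _ => ℕ → ℕ) (fun _ => nat_lit 0)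
    (fun _ ih κ => Nat.add (Nat.pow (nat_lit 100) (Nat.sub K (mbs D (Nat.mod κ L)))) (ih (Nat.div κ L))) n κ

/-- is there a letter behind all marks? -/
noncomputable def EK (D L K n κ : ℕ) : Bool :=
  @Nat.rec (fun _ => ℕ → Bool) (fun _ => false)
    (fun _ ih κ => @Bool.rec (fun _ => Bool) (ih (Nat.div κ L)) true
      (Nat.beq (mbs D (Nat.mod κ L)) K)) n κ

/-- measures of a word -/
noncomputable def muF (w : List ℕ) (m : ℕ) : ℕ :=
  @List.rec ℕ (fun _ => ℕ → ℕ) (fun m => m)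
    (fun s _ ih m => ih (@Nat.rec (fun _ => ℕ) (Nat.mul m (nat_lit 100))
      (fun s' _ => @Nat.rec (fun _ => ℕ) (Nat.mul m (nat_lit 100)) (fun _ _ => Nat.succ m) s') s)) w m
@[inherit_doc muF]
noncomputable def nuF (w : List ℕ) (m : ℕ) : ℕ :=
  @List.rec ℕ (fun _ => ℕ → ℕ) (fun m => m)
    (fun s _ ih m => ih (@Nat.rec (fun _ => ℕ) (Nat.mul m (nat_lit 3))
      (fun s' _ => @Nat.rec (fun _ => ℕ) (Nat.add (Nat.mul m (nat_lit 3)) (nat_lit 1))
        (fun _ _ => m) s') s)) w m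

/-- all symbols are `< 16` -/
noncomputable def smW (w : List ℕ) : Bool :=
  @List.rec ℕ (fun _ => Bool) true
    (fun s _ ih => @Bool.rec (fun _ => Bool) false ih (Nat.ble s (nat_lit 15))) w

noncomputable def len (w : List ℕ) : ℕ :=
  @List.rec ℕ (fun _ => ℕ) (nat_lit 0) (fun _ _ ih => Nat.succ ih) w

/-- repetition -/
noncomputable def repF (s k : ℕ) (l : List ℕ) : List ℕ :=
  @Nat.rec (fun _ => List ℕ) l (fun _ ih => s :: ih) k

/-- canonical word of a code -/
noncomputable def canonI (D L t n : ℕ) (k : ℕ → ℕ → List ℕ) : ℕ → ℕ → ℕ → ℕ → List ℕ :=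
  @Nat.rec (fun _ => ℕ → ℕ → ℕ → ℕ → List ℕ) (fun _ _ a b => k a b)
    (fun _ ih κ j a b => @Bool.rec (fun _ => List ℕ) (ih (Nat.div κ L) (Nat.succ j) a b)
      (repF (nat_lit 1) (Nat.sub (Nat.div (Nat.mod κ L) D) b)
        (repF (nat_lit 0) (Nat.sub (Nat.mod (Nat.mod κ L) D) a)
          (j :: ih (Nat.div κ L) (Nat.succ j) (Nat.mod (Nat.mod κ L) D) (Nat.div (Nat.mod κ L) D))))
      (Nat.beq (mbs D (Nat.mod κ L)) t)) n

@[inherit_doc canonI]
noncomputable def canonO (A B D L n κ f : ℕ) : ℕ → ℕ → ℕ → List ℕ :=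
  @Nat.rec (fun _ => ℕ → ℕ → ℕ → List ℕ)
    (fun _ a b => repF (nat_lit 1) (Nat.sub B b) (repF (nat_lit 0) (Nat.sub A a) []))
    (fun _ ih t a b => canonI D L t n (ih (Nat.succ t)) κ (nat_lit 2) a b) f

/-- conjunction -/
noncomputable def an (a b : Bool) : Bool := @Bool.rec (fun _ => Bool) false b a
/-- disjunction -/
noncomputable def orr (a b : Bool) : Bool := @Bool.rec (fun _ => Bool) b true a

/-- test of a word with the same first measure -/
noncomputable def tie (D L M V tot κ : ℕ) (w : List ℕ) : Bool :=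
  an (smW w) (an (Nat.ble (len w) (nat_lit 255)) (an (Nat.beq (cc w) tot)
    (an (Nat.beq (codF D L (nat_lit 0) w) κ) (an (Nat.beq (muF w (nat_lit 0)) M)
      (Nat.ble (Nat.succ V) (nuF w (nat_lit 0)))))))

/-- admissible codes -/
noncomputable def kill (e : Bool) (A B n D L K M V tot κ : ℕ) : Bool :=
  orr (Nat.ble (Nat.succ M) (FK D L K n κ)) (orr (an e (EK D L K n κ))
    (an (Nat.beq (FK D L K n κ) M)
      (tie D L M V tot κ (canonO A B D L n κ (Nat.succ K) (nat_lit 0) (nat_lit 0) (nat_lit 0)))))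

/-- content code of the windows -/
noncomputable def totc (A B n : ℕ) : ℕ :=
  Nat.add (Nat.add A (Nat.mul B (nat_lit 256)))
    (@Nat.rec (fun _ => ℕ) (nat_lit 0) (fun j ih => Nat.add ih (Nat.pow (nat_lit 256) (Nat.add j (nat_lit 2)))) n)

/-- the check, with parameters given -/
noncomputable def kchk (e : Bool) (s A B n kk D L K tot : ℕ) (cores : List (List (ℕ × List ℕ)))
    (target : List ℕ) : Bool :=
  an (Nat.ble (nat_lit 1) s) (an (Nat.ble A (nat_lit 255)) (an (Nat.ble B (nat_lit 255)) (an (Nat.ble n (nat_lit 13))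
  (an (smW target) (an (Nat.ble (len target) (nat_lit 255)) (an (Nat.beq (cc target) tot)
  (an (Nat.ble (Nat.pow L n) (Nat.pow (nat_lit 2) kk)) (an (allL (allL (coreOk tot)) cores)
    (Nat.beq (scan s (kill e A B n D L K (muF target (nat_lit 0)) (nuF target (nat_lit 0)) tot) kk
      (Nat.add (sh s (nat_lit 4) (codF D L (nat_lit 0) target)) (sumL (sumL (coreV s D L)) cores)) (nat_lit 0))
      (Nat.add (nat_lit 4) (sumL (sumL (coreV (nat_lit 0) D L)) cores)))))))))))

/-- the check -/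
noncomputable def kcheck (e : Bool) (s A B n kk : ℕ) (cores : List (List (ℕ × List ℕ)))
    (target : List ℕ) : Bool :=
  kchk e s A B n kk (Nat.succ A) (Nat.mul (Nat.succ A) (Nat.succ B)) (Nat.add A B) (totc A B n) cores target

end Pool.Agent.MP5c99ad.PW
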