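import Mathlib
import Pool.Agent.Lib.MP_5c99ad_al.PkA

set_option autoImplicit false

/-!
Fast certificate checker, part B: words with equal codes have equal values; packing; soundness.
-/

namespace Pool.Agent.MP5c99ad.Pk

open Pool.Agent.MP5c99ad

section same

variable {U : Type*} [Ring U] {v : ℕ → U} {a : ℕ}

/-- letters above `a` commute -/
def Comm (a : ℕ) (v : ℕ → U) : Prop := ∀ i j, a < i → a < j → v i * v j = v j * v i

theorem evW_comm_letter (hc : Comm a v) {s : ℕ} (hs : a < s) (p : List ℕ) (hp : ∀ t ∈ p, a < t) :
    evW v p * v s = v s * evW v p := by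
  induction p with
  | nil => simp [evW_nil]
  | cons t p ih =>
    rw [evW_cons, mul_assoc, ih (fun x hx => hp x (List.mem_cons_of_mem _ hx)), ← mul_assoc,
      hc t s (hp t List.mem_cons_self) hs, mul_assoc]

/-- a non-advancing letter at the starting level is preceded only by non-advancing letters -/
theorem split_at_level {g s : ℕ} (hs : s ≠ 0) : ∀ w : List ℕ, s ∈ w → lvl a g w s = g →
    ∃ p q, w = p ++ s :: q ∧ (∀ t ∈ p, a < t) ∧ s ∉ p := by
  intro w
  induction w with
  | nil => intro h; simp at h
  | cons t w ih =>
    intro hm hl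
    by_cases hts : t = s
    · subst hts
      exact ⟨[], w, rfl, by simp, by simp⟩
    · rw [lvl, if_neg hts] at hl
      have hm' : s ∈ w := by
        rw [List.mem_cons] at hm
        rcases hm with h | h
        · exact absurd h.symm hts
        · exact h
      have hge := lvl_ge (a := a) hm' (g + adv a t)
      have hadv : adv a t = 0 := by omega
      have hat : a < t := by
        by_contra hcon
        rw [adv_eq_one (by omega)] at hadv
        omega
      rw [hadv, add_zero] at hl
      obtain ⟨p, q, rfl, hp, hnp⟩ := ih hm' hl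
      refine ⟨t :: p, q, rfl, ?_, ?_⟩
      · intro x hx
        rw [List.mem_cons] at hx
        rcases hx with rfl | hx
        · exact hat
        · exact hp x hx
      · rw [List.mem_cons, not_or]
        exact ⟨fun h => hts h.symm, hnp⟩

theorem lvl_remove {g s i : ℕ} (hs : adv a s = 0) (hi : i ≠ s) (p q : List ℕ) :
    lvl a g (p ++ s :: q) i = lvl a g (p ++ q) i := by
  induction p generalizing g with
  | nil =>
    rw [List.nil_append, List.nil_append, lvl, if_neg (fun e => hi e.symm), hs, add_zero]
  | cons t p ih =>
    rw [List.cons_append, List.cons_append, lvl, lvl, ih]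

/-- words with the same content and the same levels have the same value -/
theorem evW_eq_of_lvl (hc : Comm a v) : ∀ (w w' : List ℕ) (g : ℕ), w.Perm w' → Lin w →
    (∀ i, i ≠ 0 → i ∈ w → lvl a g w i = lvl a g w' i) → evW v w = evW v w' := by
  intro w
  induction w with
  | nil =>
    intro w' g hp _ _
    rw [List.nil_perm.1 hp]
  | cons s t ih =>
    intro w' g hp hl hlev
    by_cases hs : a < s
    · -- non-advancing letter
      have hs0 : s ≠ 0 := by omega
      have h1 : lvl a g w' s = g := by
        rw [← hlev s hs0 List.mem_cons_self, lvl, if_pos rfl]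
      obtain ⟨p, q, rfl, hpa, hnp⟩ := split_at_level hs0 w' (hp.subset List.mem_cons_self) h1
      have h2 : evW v (p ++ s :: q) = v s * evW v (p ++ q) := by
        rw [evW_append, evW_cons, ← mul_assoc, evW_comm_letter hc hs p hpa, mul_assoc, evW_append]
      rw [h2, evW_cons]
      congr 1
      have hp' : t.Perm (p ++ q) := by
        have : (s :: t).Perm (s :: (p ++ q)) := hp.trans List.perm_middle
        exact (List.perm_cons s).1 this
      apply ih (p ++ q) g hp' (lin_cons hl)
      intro i hi0 hi
      have hne : i ≠ s := by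
        intro e
        subst e
        exact lin_not_mem hs0 hl hi
      have h3 := hlev i hi0 (List.mem_cons_of_mem _ hi)
      rw [lvl, if_neg (fun e => hne e.symm), adv_eq_zero hs, add_zero,
        lvl_remove (adv_eq_zero hs) hne] at h3
      exact h3
    · -- advancing symbol
      have hs' : s ≤ a := by omega
      cases w' with
      | nil => exact absurd hp (by simp)
      | cons s' t' =>
        have hss : s' = s := by
          by_contra hne
          by_cases hs1 : s' = 0
          · -- then `s ≠ 0` is a letter
            have hs0 : s ≠ 0 := fun e => hne (hs1.trans e.symm)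
            have h1 := hlev s hs0 List.mem_cons_self
            rw [lvl, if_pos rfl, lvl, if_neg hne] at h1
            have hm : s ∈ t' := by
              have := hp.subset List.mem_cons_self
              rw [List.mem_cons] at this
              rcases this with h | h
              · exact absurd h.symm hne
              · exact h
            have h2 := lvl_ge (a := a) hm (g + adv a s')
            rw [hs1, adv_eq_one (Nat.zero_le a)] at h2
            rw [hs1, adv_eq_one (Nat.zero_le a)] at h1
            omega
          · have hm : s' ∈ t := by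
              have := hp.symm.subset List.mem_cons_self
              rw [List.mem_cons] at this
              rcases this with h | h
              · exact absurd h hne
              · exact h
            have h1 := hlev s' hs1 (List.mem_cons_of_mem _ hm)
            rw [lvl, if_neg (fun e => hne e.symm), lvl, if_pos rfl, adv_eq_one hs'] at h1
            have h2 := lvl_ge (a := a) hm (g + 1)
            omega
        subst hss
        rw [evW_cons, evW_cons]
        congr 1
        apply ih t' (g + adv a s') ((List.perm_cons s').1 hp) (lin_cons hl)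
        intro i hi0 hi
        have h3 := hlev i hi0 (List.mem_cons_of_mem _ hi)
        by_cases hne : s' = i
        · -- then the letter occurs twice
          exfalso
          subst hne
          exact lin_not_mem hi0 hl hi
        · rw [lvl, if_neg hne, lvl, if_neg hne] at h3
          exact h3

theorem evW_eq_of_cd (hc : Comm a v) {B k : ℕ} (w w' : List ℕ) (hp : w.Perm w') (hl : Lin w)
    (hk : ∀ s ∈ w, s ≤ k) (hB : adW a w < B) (h : cd a B 0 w = cd a B 0 w') : evW v w = evW v w' := by
  apply evW_eq_of_lvl hc w w' 0 hp hl
  rw [cd_eq_sum w hl hk, cd_eq_sum w' (lin_perm hp hl) (fun s hs => hk s (hp.symm.subset hs))] at h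
  have h1 := levels_of_code (fun i => lvl a 0 w (i + 1)) (fun i => lvl a 0 w' (i + 1))
    (fun i => lt_of_le_of_lt (lvl_le w (i + 1) 0) (by omega))
    (fun i => lt_of_le_of_lt (lvl_le w' (i + 1) 0) (by rw [← adW_perm hp]; omega)) h
  intro i hi0 hi
  have h2 := h1 (i - 1) (by have := hk i hi; omega)
  have e : i - 1 + 1 = i := by omega
  simp only [e] at h2
  exact h2

end same

section pack

variable {a B : ℕ}

/-- packing of a formal polynomial -/
def pack (b a B g : ℕ) (p : Po) : ℕ := (p.map (fun x => x.1 * b ^ cd a B g x.2)).sum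

theorem pack_nil (b g : ℕ) : pack b a B g [] = 0 := rfl

theorem pack_cons (b g : ℕ) (x : ℕ × List ℕ) (p : Po) :
    pack b a B g (x :: p) = x.1 * b ^ cd a B g x.2 + pack b a B g p := by
  simp [pack]

theorem pack_append (b g : ℕ) (p q : Po) : pack b a B g (p ++ q) = pack b a B g p + pack b a B g q := by
  simp [pack]

/-- all words have total advance `d` -/
def Hom (a d : ℕ) (p : Po) : Prop := ∀ x ∈ p, adW a x.2 = d

theorem pack_mulP (b g d : ℕ) (p q : Po) (hp : Hom a d p) :
    pack b a B g (mulP p q) = pack b a B g p * pack b a B (g + d) q := by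
  induction p with
  | nil => simp [mulP, pack_nil]
  | cons x p ih =>
    have h1 : mulP (x :: p) q = q.map (fun y => (x.1 * y.1, x.2 ++ y.2)) ++ mulP p q := by
      simp [mulP]
    rw [h1, pack_append, ih (fun y hy => hp y (List.mem_cons_of_mem _ hy)), pack_cons, add_mul]
    congr 1
    have hx : adW a x.2 = d := hp x List.mem_cons_self
    clear h1 ih
    induction q with
    | nil => simp [pack_nil]
    | cons y q ih =>
      rw [List.map_cons, pack_cons, pack_cons, ih, mul_add]
      congr 1
      simp only [cd_append, hx, pow_add]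
      ring

theorem hom_mulP {d e : ℕ} {p q : Po} (hp : Hom a d p) (hq : Hom a e q) : Hom a (d + e) (mulP p q) := by
  intro z hz
  unfold mulP at hz
  rw [List.mem_flatMap] at hz
  obtain ⟨x, hx, hz⟩ := hz
  rw [List.mem_map] at hz
  obtain ⟨y, hy, rfl⟩ := hz
  simp only [adW_append]
  rw [hp x hx, hq y hy]

theorem pack_negP (b g : ℕ) (p : Po) : pack b a B g (negP p) = 4 * pack b a B g p := by
  induction p with
  | nil => simp [negP, pack_nil]
  | cons x p ih =>
    have h1 : negP (x :: p) = (4 * x.1, x.2) :: negP p := by simp [negP]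
    rw [h1, pack_cons, pack_cons, ih]
    ring

/-- total advance of a Lie monomial -/
def LM.ad (a : ℕ) : LM → ℕ
  | .a s => adv a s
  | .b x y => x.ad a + y.ad a

/-- packed value of a Lie monomial -/
def LM.pk (b a B : ℕ) : LM → ℕ → ℕ
  | .a s, g => b ^ (g * wt B s)
  | .b x y, g => x.pk b a B g * y.pk b a B (g + x.ad a) + 4 * (y.pk b a B g * x.pk b a B (g + y.ad a))

theorem LM.hom (x : LM) : Hom a (x.ad a) x.po := by
  induction x with
  | a s =>
    intro z hz
    rw [LM.po, List.mem_singleton] at hz
    subst hz
    simp [adW, LM.ad]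
  | b x y ihx ihy =>
    intro z hz
    rw [LM.po, List.mem_append] at hz
    rcases hz with hz | hz
    · exact hom_mulP ihx ihy z hz
    · unfold negP at hz
      rw [List.mem_map] at hz
      obtain ⟨t, ht, rfl⟩ := hz
      rw [LM.ad, add_comm]
      exact hom_mulP ihy ihx t ht

theorem LM.pack_po (b : ℕ) (x : LM) : ∀ g, pack b a B g x.po = x.pk b a B g := by
  induction x with
  | a s =>
    intro g
    simp [LM.po, LM.pk, pack, cd]
  | b x y ihx ihy =>
    intro g
    rw [LM.po, pack_append, pack_negP, pack_mulP b g _ _ _ x.hom, pack_mulP b g _ _ _ y.hom, ihx, ihy,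
      ihx, ihy, LM.pk]

/-- packed value of `u P Q R S v` -/
def pk4 (b a B : ℕ) (c cu gu cv : ℕ) (P Q R S : LM) : ℕ :=
  c * b ^ cu * (P.pk b a B gu * (Q.pk b a B (gu + P.ad a) * (R.pk b a B (gu + P.ad a + Q.ad a) *
    S.pk b a B (gu + P.ad a + Q.ad a + R.ad a))) * b ^ cv)

theorem pack_mul4 (b : ℕ) (u w : List ℕ) (c : ℕ) (P Q R S : LM) :
    pack b a B 0 (mul4 u w c P.po Q.po R.po S.po) =
      pk4 b a B c (cd a B 0 u) (adW a u) (cd a B (adW a u + (P.ad a + (Q.ad a + (R.ad a + S.ad a)))) w) P Q R S := by
  unfold mul4
  have h1 : Hom a (adW a u) [(c, u)] := by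
    intro z hz
    rw [List.mem_singleton] at hz
    subst hz
    rfl
  rw [pack_mulP b 0 _ _ _ h1, pack_mulP b _ _ _ _ (hom_mulP P.hom (hom_mulP Q.hom (hom_mulP R.hom S.hom))),
    pack_mulP b _ _ _ _ P.hom, pack_mulP b _ _ _ _ Q.hom, pack_mulP b _ _ _ _ R.hom, LM.pack_po,
    LM.pack_po, LM.pack_po, LM.pack_po]
  simp only [pack_cons, pack_nil, add_zero, zero_add, one_mul]
  rfl

/-- packed value of an instance -/
def Inst.pk (b a B : ℕ) (I : Inst) : ℕ :=
  let cu := cd a B 0 I.u
  let gu := adW a I.u
  let cv := cd a B (gu + (I.p.ad a + (I.q.ad a + (I.r.ad a + I.s.ad a)))) I.v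
  (perm24 (fun P Q R S => pk4 b a B I.c cu gu cv P Q R S) I.p I.q I.r I.s).sum

theorem Inst.pack_po (b : ℕ) (I : Inst) : pack b a B 0 I.po = I.pk b a B := by
  have key : ∀ P Q R S : LM, P.ad a + (Q.ad a + (R.ad a + S.ad a)) =
      I.p.ad a + (I.q.ad a + (I.r.ad a + I.s.ad a)) →
      pack b a B 0 (mul4 I.u I.v I.c P.po Q.po R.po S.po) =
      pk4 b a B I.c (cd a B 0 I.u) (adW a I.u)
        (cd a B (adW a I.u + (I.p.ad a + (I.q.ad a + (I.r.ad a + I.s.ad a)))) I.v) P Q R S := by
    intro P Q R S h
    rw [pack_mul4, h]
  unfold Inst.po Inst.pk perm24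
  simp only [List.flatten_cons, List.flatten_nil, List.append_nil, pack_append, List.sum_cons,
    List.sum_nil, add_zero]
  rw [key I.p I.q I.r I.s (by omega),
    key I.p I.q I.s I.r (by omega),
    key I.p I.r I.q I.s (by omega),
    key I.p I.r I.s I.q (by omega),
    key I.p I.s I.q I.r (by omega),
    key I.p I.s I.r I.q (by omega),
    key I.q I.p I.r I.s (by omega),
    key I.q I.p I.s I.r (by omega),
    key I.q I.r I.p I.s (by omega),
    key I.q I.r I.s I.p (by omega),
    key I.q I.s I.p I.r (by omega),
    key I.q I.s I.r I.p (by omega),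
    key I.r I.p I.q I.s (by omega),
    key I.r I.p I.s I.q (by omega),
    key I.r I.q I.p I.s (by omega),
    key I.r I.q I.s I.p (by omega),
    key I.r I.s I.p I.q (by omega),
    key I.r I.s I.q I.p (by omega),
    key I.s I.p I.q I.r (by omega),
    key I.s I.p I.r I.q (by omega),
    key I.s I.q I.p I.r (by omega),
    key I.s I.q I.r I.p (by omega),
    key I.s I.r I.p I.q (by omega),
    key I.s I.r I.q I.p (by omega)]

end pack

end Pool.Agent.MP5c99ad.Pk
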