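import Mathlib
import Pool.Agent.Lib.MP_5c99ad_al.PkB

set_option autoImplicit false

/-!
Fast certificate checker, part C: the checker and its soundness.
-/

namespace Pool.Agent.MP5c99ad.Pk

open Pool.Agent.MP5c99ad

/-! ### kernel friendly versions -/

def sumN : List ℕ → ℕ
  | [] => 0
  | x :: l => Nat.add x (sumN l)

theorem sumN_eq (l : List ℕ) : sumN l = l.sum := by
  induction l with
  | nil => rfl
  | cons x l ih =>
    rw [sumN, List.sum_cons, ih]
    rfl

def wtF (B : ℕ) : ℕ → ℕ
  | 0 => 0
  | s + 1 => Nat.pow B s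

theorem wtF_eq (B s : ℕ) : wtF B s = wt B s := by
  cases s <;> rfl

def adWF (a : ℕ) : List ℕ → ℕ
  | [] => 0
  | s :: w => Nat.add (adv a s) (adWF a w)

theorem adWF_eq (a : ℕ) (w : List ℕ) : adWF a w = adW a w := by
  induction w with
  | nil => rfl
  | cons s w ih =>
    rw [adWF, adW, ih]
    rfl

def cdF (a B : ℕ) : ℕ → List ℕ → ℕ
  | _, [] => 0
  | g, s :: w => Nat.add (Nat.mul g (wtF B s)) (cdF a B (Nat.add g (adv a s)) w)

theorem cdF_eq (a B : ℕ) (w : List ℕ) : ∀ g, cdF a B g w = cd a B g w := by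
  induction w with
  | nil => intro g; rfl
  | cons s w ih =>
    intro g
    rw [cdF, cd, ih, wtF_eq]
    rfl

def LM.adF (a : ℕ) : LM → ℕ
  | .a s => adv a s
  | .b x y => Nat.add (x.adF a) (y.adF a)

theorem LM.adF_eq (a : ℕ) (x : LM) : x.adF a = x.ad a := by
  induction x with
  | a s => rfl
  | b x y ihx ihy =>
    rw [LM.adF, LM.ad, ihx, ihy]
    rfl

def LM.pkF (b a B : ℕ) : LM → ℕ → ℕ
  | .a s, g => Nat.pow b (Nat.mul g (wtF B s))
  | .b x y, g => Nat.add (Nat.mul (x.pkF b a B g) (y.pkF b a B (Nat.add g (x.adF a))))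
      (Nat.mul 4 (Nat.mul (y.pkF b a B g) (x.pkF b a B (Nat.add g (y.adF a)))))

theorem LM.pkF_eq (b a B : ℕ) (x : LM) : ∀ g, x.pkF b a B g = x.pk b a B g := by
  induction x with
  | a s =>
    intro g
    rw [LM.pkF, LM.pk, wtF_eq]
    rfl
  | b x y ihx ihy =>
    intro g
    rw [LM.pkF, LM.pk, LM.adF_eq, LM.adF_eq, ihx, ihy, ihx, ihy]
    rfl

def pk4F (b a B : ℕ) (c cu gu cv : ℕ) (P Q R S : LM) : ℕ :=
  Nat.mul (Nat.mul c (Nat.pow b cu)) (Nat.mul (Nat.mul (P.pkF b a B gu) (Nat.mul (Q.pkF b a B (Nat.add gu (P.adF a)))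
    (Nat.mul (R.pkF b a B (Nat.add (Nat.add gu (P.adF a)) (Q.adF a)))
    (S.pkF b a B (Nat.add (Nat.add (Nat.add gu (P.adF a)) (Q.adF a)) (R.adF a)))))) (Nat.pow b cv))

theorem pk4F_eq (b a B c cu gu cv : ℕ) (P Q R S : LM) :
    pk4F b a B c cu gu cv P Q R S = pk4 b a B c cu gu cv P Q R S := by
  unfold pk4F pk4
  simp only [LM.pkF_eq, LM.adF_eq]
  rfl

def Inst.pkF (b a B : ℕ) (I : Inst) : ℕ :=
  (fun cu gu => (fun cv => sumN (perm24 (fun P Q R S => pk4F b a B I.c cu gu cv P Q R S) I.p I.q I.r I.s))
    (cdF a B (Nat.add gu (Nat.add (I.p.adF a) (Nat.add (I.q.adF a) (Nat.add (I.r.adF a) (I.s.adF a))))) I.v))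
    (cdF a B 0 I.u) (adWF a I.u)

theorem Inst.pkF_eq (b a B : ℕ) (I : Inst) : I.pkF b a B = I.pk b a B := by
  unfold Inst.pkF Inst.pk
  simp only [sumN_eq, cdF_eq, adWF_eq, LM.adF_eq, pk4F_eq]
  rfl

/-! ### permutations -/

def eraseB (x : ℕ) : List ℕ → Option (List ℕ)
  | [] => none
  | y :: l => bif Nat.beq x y then some l else (eraseB x l).map (fun l' => y :: l')

def permB : List ℕ → List ℕ → Bool
  | [], l => l.isEmpty
  | x :: w, l => match eraseB x l with
    | none => false
    | some l' => permB w l'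

theorem eraseB_sound (x : ℕ) (l l' : List ℕ) (h : eraseB x l = some l') : l.Perm (x :: l') := by
  induction l generalizing l' with
  | nil => simp [eraseB] at h
  | cons y l ih =>
    rw [eraseB] at h
    cases hb : Nat.beq x y with
    | true =>
      rw [hb, cond_true, Option.some.injEq] at h
      rw [Nat.beq_eq] at hb
      subst hb
      rw [h]
    | false =>
      rw [hb, cond_false, Option.map_eq_some_iff] at h
      obtain ⟨m, hm, rfl⟩ := h
      exact ((ih m hm).cons y).trans (List.Perm.swap x y m)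

theorem permB_sound (w : List ℕ) : ∀ l, permB w l = true → w.Perm l := by
  induction w with
  | nil =>
    intro l h
    have : l = [] := by simpa [permB] using h
    rw [this]
  | cons x w ih =>
    intro l h
    rw [permB] at h
    cases he : eraseB x l with
    | none => rw [he] at h; simp at h
    | some l' =>
      rw [he] at h
      exact ((ih l' h).cons x).trans (eraseB_sound x l l' he).symm

def LM.syms : LM → List ℕ
  | .a s => [s]
  | .b x y => x.syms ++ y.syms

def Inst.syms (I : Inst) : List ℕ := I.u ++ (I.p.syms ++ (I.q.syms ++ (I.r.syms ++ (I.s.syms ++ I.v))))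

/-- counts of symbols are constant on a formal polynomial -/
def Cnt (f : ℕ → ℕ) (p : Po) : Prop := ∀ x ∈ p, ∀ s, x.2.count s = f s

theorem cnt_mulP {f g : ℕ → ℕ} {p q : Po} (hp : Cnt f p) (hq : Cnt g q) :
    Cnt (fun s => f s + g s) (mulP p q) := by
  intro z hz s
  unfold mulP at hz
  rw [List.mem_flatMap] at hz
  obtain ⟨x, hx, hz⟩ := hz
  rw [List.mem_map] at hz
  obtain ⟨y, hy, rfl⟩ := hz
  simp only [List.count_append]
  rw [hp x hx, hq y hy]

theorem LM.cnt (x : LM) : Cnt (fun s => x.syms.count s) x.po := by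
  induction x with
  | a s =>
    intro z hz t
    rw [LM.po, List.mem_singleton] at hz
    subst hz
    rfl
  | b x y ihx ihy =>
    intro z hz s
    rw [LM.po, List.mem_append] at hz
    rcases hz with hz | hz
    · rw [cnt_mulP ihx ihy z hz]
      simp only [LM.syms, List.count_append]
    · unfold negP at hz
      rw [List.mem_map] at hz
      obtain ⟨t, ht, rfl⟩ := hz
      show t.2.count s = _
      rw [cnt_mulP ihy ihx t ht]
      simp only [LM.syms, List.count_append]
      omega

theorem cnt_mul4 (u w : List ℕ) (c : ℕ) (P Q R S : LM) :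
    Cnt (fun s => u.count s + (P.syms.count s + (Q.syms.count s + (R.syms.count s + S.syms.count s)) + w.count s))
      (mul4 u w c P.po Q.po R.po S.po) := by
  unfold mul4
  apply cnt_mulP
  · intro z hz s
    rw [List.mem_singleton] at hz
    subst hz
    rfl
  · apply cnt_mulP
    · exact cnt_mulP P.cnt (cnt_mulP Q.cnt (cnt_mulP R.cnt S.cnt))
    · intro z hz s
      rw [List.mem_singleton] at hz
      subst hz
      rfl

theorem Inst.perm_syms (I : Inst) (x : ℕ × List ℕ) (hx : x ∈ I.po) : x.2.Perm I.syms := by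
  rw [List.perm_iff_count]
  intro s
  unfold Inst.po perm24 at hx
  simp only [List.flatten_cons, List.flatten_nil, List.append_nil, List.mem_append] at hx
  unfold Inst.syms
  simp only [List.count_append]
  rcases hx with h | h | h | h | h | h | h | h | h | h | h | h | h | h | h | h | h | h | h | h | h | h | h | h <;>
    · have := cnt_mul4 _ _ _ _ _ _ _ x h s
      simp only at this
      omega

/-! ### digits -/

def chk (b : ℕ) (K : ℕ → Bool) : ℕ → ℕ → ℕ → Bool
  | 0, _, _ => true
  | f + 1, κ, N => (bif Nat.beq (Nat.mod (Nat.mod N b) 5) 0 then true else K κ) && chk b K f (Nat.succ κ) (Nat.div N b)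

theorem chk_sound (b : ℕ) (K : ℕ → Bool) (C : ℕ → ℕ) (hC : ∀ i, C i < b) : ∀ f κ N, chk b K f κ N = true →
    N = ∑ i ∈ Finset.range f, C (κ + i) * b ^ i → ∀ i, i < f → C (κ + i) % 5 = 0 ∨ K (κ + i) = true := by
  intro f
  induction f with
  | zero => intro κ N _ _ i hi; omega
  | succ f ih =>
    intro κ N h hN i hi
    rw [chk, Bool.and_eq_true] at h
    obtain ⟨h1, h2⟩ := h
    have hb : 0 < b := lt_of_le_of_lt (Nat.zero_le _) (hC 0)
    have hN' : N = C κ + b * ∑ i ∈ Finset.range f, C (κ + 1 + i) * b ^ i := by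
      rw [hN, Finset.sum_range_succ', pow_zero, mul_one, add_zero, add_comm, Finset.mul_sum]
      congr 1
      apply Finset.sum_congr rfl
      intro j _
      rw [pow_succ, show κ + (j + 1) = κ + 1 + j by ring]
      ring
    have hmod : Nat.mod N b = C κ := by
      show N % b = C κ
      rw [hN', Nat.add_mul_mod_self_left, Nat.mod_eq_of_lt (hC κ)]
    have hdiv : Nat.div N b = ∑ i ∈ Finset.range f, C (κ + 1 + i) * b ^ i := by
      show N / b = _
      rw [hN', Nat.add_mul_div_left _ _ hb, Nat.div_eq_of_lt (hC κ), zero_add]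
    cases i with
    | zero =>
      rw [add_zero]
      rw [hmod] at h1
      cases hc : Nat.beq (Nat.mod (C κ) 5) 0 with
      | true =>
        rw [Nat.beq_eq] at hc
        exact Or.inl hc
      | false =>
        rw [hc, cond_false] at h1
        exact Or.inr h1
    | succ i =>
      have h3 := ih (κ + 1) (Nat.div N b) h2 hdiv i (by omega)
      rw [show κ + (i + 1) = κ + 1 + i by ring]
      exact h3

def digs (B : ℕ) : ℕ → ℕ → List ℕ
  | 0, _ => []
  | k + 1, κ => Nat.mod κ B :: digs B k (Nat.div κ B)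

/-- letters with digit `g`; `adva = true`: those `≤ a`, otherwise those `> a` -/
def lettersAt (a g : ℕ) (adva : Bool) : ℕ → List ℕ → List ℕ
  | _, [] => []
  | i, d :: ds => bif Nat.beq d g && (bif Nat.ble i a then adva else !adva) then
      i :: lettersAt a g adva (Nat.succ i) ds else lettersAt a g adva (Nat.succ i) ds

def canon (a : ℕ) (ds : List ℕ) : ℕ → ℕ → List ℕ
  | 0, g => lettersAt a g false 1 ds
  | f + 1, g => lettersAt a g false 1 ds ++ (((lettersAt a g true 1 ds).headD 0) :: canon a ds f (Nat.succ g))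

def content (z k : ℕ) : List ℕ := List.replicate z 0 ++ List.range' 1 k

/-- killed codes -/
def killC (a B k : ℕ) (cont : List ℕ) (n : ℕ) (kill : List ℕ → Bool) (κ : ℕ) : Bool :=
  (fun w => permB w cont && (Nat.beq (cdF a B 0 w) κ && kill w)) (canon a (digs B k κ) n 0)

def pkCheck (b a B k z : ℕ) (cert : List (List Inst)) (target : List ℕ) (kill : List ℕ → Bool) : Bool :=
  (fun (cont : List ℕ) => (fun (n : ℕ) =>
    Nat.blt n B && (permB target cont && ((cert.all (fun l => l.all (fun I => permB I.syms cont))) &&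
    (Nat.blt (Nat.add 4 (sumN (cert.map (fun l => sumN (l.map (Inst.pkF 1 a B)))))) b &&
    chk b (killC a B k cont n kill) (Nat.pow B k) 0
      (Nat.add (Nat.mul 4 (Nat.pow b (cdF a B 0 target))) (sumN (cert.map (fun l => sumN (l.map (Inst.pkF b a B)))))))))) (adWF a cont)) (content z k)

/-! ### soundness -/

section sound

variable {a B : ℕ}

/-- total coefficient of a code -/
def Cf (a B : ℕ) (T : Po) (κ : ℕ) : ℕ := (T.map (fun x => if cd a B 0 x.2 = κ then x.1 else 0)).sum

theorem lin_lemma {A : Type*} [AddCommMonoid A] (h : ℕ → A) (M : ℕ) (T : Po)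
    (hT : ∀ x ∈ T, cd a B 0 x.2 < M) :
    (T.map (fun x => x.1 • h (cd a B 0 x.2))).sum = ∑ κ ∈ Finset.range M, Cf a B T κ • h κ := by
  induction T with
  | nil => simp [Cf]
  | cons x T ih =>
    rw [List.map_cons, List.sum_cons, ih (fun y hy => hT y (List.mem_cons_of_mem _ hy))]
    have e : ∀ κ, Cf a B (x :: T) κ = (if cd a B 0 x.2 = κ then x.1 else 0) + Cf a B T κ := by
      intro κ
      simp [Cf]
    simp only [e, add_smul, Finset.sum_add_distrib]
    congr 1
    rw [Finset.sum_eq_single (cd a B 0 x.2)]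
    · simp
    · intro κ _ hne
      rw [if_neg (fun h => hne h.symm), zero_smul]
    · intro hn
      exact absurd (Finset.mem_range.2 (hT x List.mem_cons_self)) hn

theorem Cf_le (T : Po) (κ : ℕ) : Cf a B T κ ≤ pack 1 a B 0 T := by
  induction T with
  | nil => simp [Cf, pack]
  | cons x T ih =>
    rw [pack_cons, one_pow, mul_one]
    have e : Cf a B (x :: T) κ = (if cd a B 0 x.2 = κ then x.1 else 0) + Cf a B T κ := by
      simp [Cf]
    rw [e]
    split_ifs
    · omega
    · omega

theorem pack_flatMap (b : ℕ) (l : List Inst) :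
    pack b a B 0 (l.flatMap Inst.po) = sumN (l.map (Inst.pkF b a B)) := by
  induction l with
  | nil => rfl
  | cons I l ih =>
    rw [List.flatMap_cons, pack_append, ih, Inst.pack_po, List.map_cons, sumN, Inst.pkF_eq]
    rfl

theorem pack_cert (b : ℕ) (cert : List (List Inst)) :
    pack b a B 0 (cert.flatMap (fun l => l.flatMap Inst.po)) =
      sumN (cert.map (fun l => sumN (l.map (Inst.pkF b a B)))) := by
  induction cert with
  | nil => rfl
  | cons l cert ih =>
    rw [List.flatMap_cons, pack_append, ih, pack_flatMap, List.map_cons, sumN]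
    rfl

theorem lin_content (z k : ℕ) : Lin (content z k) := by
  unfold Lin content
  rw [List.filter_append]
  have h1 : (List.replicate z 0).filter (fun s => decide (s ≠ 0)) = [] := by
    rw [List.filter_eq_nil_iff]
    intro x hx
    rw [List.eq_of_mem_replicate hx]
    simp
  rw [h1, List.nil_append]
  exact (List.nodup_range').filter _

theorem le_content (z k : ℕ) : ∀ s ∈ content z k, s ≤ k := by
  intro s hs
  unfold content at hs
  rw [List.mem_append] at hs
  rcases hs with hs | hs
  · rw [List.eq_of_mem_replicate hs]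
    exact Nat.zero_le k
  · rw [List.mem_range'_1] at hs
    omega

variable {U : Type*} [Ring U] {v : ℕ → U}

theorem evP_eq_smul (T : Po) : evP v T = (T.map (fun x => x.1 • evW v x.2)).sum := by
  unfold evP
  congr 1
  apply List.map_congr_left
  intro x _
  rw [nsmul_eq_mul]

/-- soundness of the packed certificate checker -/
theorem pkCheck_sound (h5 : (5 : U) = 0) (hc : Comm a v) (b k z : ℕ) (cert : List (List Inst))
    (target : List ℕ) (kill : List ℕ → Bool)
    (hs : ∀ l ∈ cert, ∀ I ∈ l, sym4 (I.p.ev v) (I.q.ev v) (I.r.ev v) (I.s.ev v) = 0)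
    (h : pkCheck b a B k z cert target kill = true) (J : AddSubgroup U)
    (hJ : ∀ w, w.Perm (content z k) → kill w = true → evW v w ∈ J) : evW v target ∈ J := by
  unfold pkCheck at h
  simp only [Bool.and_eq_true] at h
  obtain ⟨hB, ht, hall, hS, hchk⟩ := h
  rw [Nat.blt_eq, adWF_eq] at hB
  have ht' := permB_sound _ _ ht
  set T : Po := (4, target) :: cert.flatMap (fun l => l.flatMap Inst.po) with hT
  have hperm : ∀ x ∈ T, x.2.Perm (content z k) := by
    intro x hx
    rw [hT, List.mem_cons] at hx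
    rcases hx with rfl | hx
    · exact ht'
    · rw [List.mem_flatMap] at hx
      obtain ⟨l, hl, hx⟩ := hx
      rw [List.mem_flatMap] at hx
      obtain ⟨I, hI, hx⟩ := hx
      rw [List.all_eq_true] at hall
      have h1 := hall l hl
      rw [List.all_eq_true] at h1
      exact (I.perm_syms x hx).trans (permB_sound _ _ (h1 I hI))
  have hval : ∀ w : List ℕ, w.Perm (content z k) → Lin w ∧ (∀ s ∈ w, s ≤ k) ∧ adW a w < B := by
    intro w hw
    refine ⟨lin_perm hw.symm (lin_content z k), fun s hs => le_content z k s (hw.subset hs), ?_⟩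
    rw [adW_perm hw]
    exact hB
  have hpackT : ∀ b', pack b' a B 0 T = Nat.add (Nat.mul 4 (Nat.pow b' (cdF a B 0 target)))
      (sumN (cert.map (fun l => sumN (l.map (Inst.pkF b' a B))))) := by
    intro b'
    rw [hT, pack_cons, pack_cert, cdF_eq]
    rfl
  have hbound : ∀ κ, Cf a B T κ < b := by
    intro κ
    refine lt_of_le_of_lt (Cf_le T κ) ?_
    rw [hpackT 1]
    rw [Nat.blt_eq] at hS
    have e : Nat.mul 4 (Nat.pow 1 (cdF a B 0 target)) = 4 := by
      show 4 * 1 ^ _ = 4
      rw [one_pow, mul_one]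
    rw [e]
    exact hS
  have hcode : ∀ x ∈ T, cd a B 0 x.2 < B ^ k := by
    intro x hx
    obtain ⟨h1, h2, h3⟩ := hval x.2 (hperm x hx)
    exact cd_lt x.2 h1 h2 h3
  -- the value of a code
  classical
  let hv : ℕ → U := fun κ => if hw : ∃ w : List ℕ, w.Perm (content z k) ∧ cd a B 0 w = κ then
    evW v hw.choose else 0
  have hhv : ∀ w : List ℕ, w.Perm (content z k) → hv (cd a B 0 w) = evW v w := by
    intro w hw
    have hex : ∃ w' : List ℕ, w'.Perm (content z k) ∧ cd a B 0 w' = cd a B 0 w := ⟨w, hw, rfl⟩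
    simp only [hv, dif_pos hex]
    obtain ⟨h1, h2⟩ := hex.choose_spec
    obtain ⟨h3, h4, h5'⟩ := hval _ h1
    exact evW_eq_of_cd hc _ _ (h1.trans hw.symm) h3 h4 h5' h2
  have hNeq : Nat.add (Nat.mul 4 (Nat.pow b (cdF a B 0 target)))
      (sumN (cert.map (fun l => sumN (l.map (Inst.pkF b a B))))) =
      ∑ i ∈ Finset.range (Nat.pow B k), Cf a B T (0 + i) * b ^ i := by
    rw [← hpackT b]
    have h1 := lin_lemma (a := a) (B := B) (fun κ => b ^ κ) (B ^ k) T hcode
    simp only [smul_eq_mul] at h1
    simp only [zero_add]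
    rw [← Nat.pow_eq] at h1
    exact h1
  have hd := chk_sound b _ (Cf a B T) hbound _ _ _ hchk hNeq
  have hev : evP v T = ∑ κ ∈ Finset.range (B ^ k), Cf a B T κ • hv κ := by
    rw [← lin_lemma hv (B ^ k) T hcode, evP_eq_smul]
    congr 1
    apply List.map_congr_left
    intro x hx
    rw [hhv x.2 (hperm x hx)]
  have hmem : evP v T ∈ J := by
    rw [hev]
    apply AddSubgroup.sum_mem
    intro κ hκ
    have h1 := hd κ (Finset.mem_range.1 hκ)
    rw [zero_add] at h1
    rcases h1 with h1 | h1
    · have : Cf a B T κ • hv κ = 0 := by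
        rw [← Nat.mod_add_div (Cf a B T κ) 5, h1, zero_add, nsmul_eq_mul, Nat.cast_mul]
        rw [show ((5 : ℕ) : U) = 5 by norm_num, h5, zero_mul, zero_mul]
      rw [this]
      exact J.zero_mem
    · unfold killC at h1
      simp only [Bool.and_eq_true, Nat.beq_eq] at h1
      obtain ⟨h2, h3, h4⟩ := h1
      have h5' := permB_sound _ _ h2
      rw [cdF_eq] at h3
      have h6 := hhv _ h5'
      rw [h3] at h6
      rw [h6]
      exact J.nsmul_mem (hJ _ h5' h4) _
  have hrel : evP v (cert.flatMap (fun l => l.flatMap Inst.po)) = 0 := by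
    clear hchk hNeq hd hev hmem hpackT hbound hcode hperm hS hall
    have aux : ∀ l : List Inst, (∀ I ∈ l, sym4 (I.p.ev v) (I.q.ev v) (I.r.ev v) (I.s.ev v) = 0) →
        evP v (l.flatMap Inst.po) = 0 := by
      intro l hl
      induction l with
      | nil => exact evP_nil
      | cons I l ih =>
        rw [List.flatMap_cons, evP_append, ih (fun J hJ => hl J (List.mem_cons_of_mem _ hJ)),
          Inst.evP_po h5, hl I List.mem_cons_self]
        simp
    clear hT
    induction cert with
    | nil => exact evP_nil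
    | cons l cert ih =>
      rw [List.flatMap_cons, evP_append, aux l (hs l List.mem_cons_self),
        ih (fun m hm => hs m (List.mem_cons_of_mem _ hm)), add_zero]
  rw [hT, evP_cons, hrel, add_zero] at hmem
  have e4 : (((4 : ℕ) : U)) = -1 := by
    push_cast
    exact four_eq h5
  rw [e4, neg_one_mul] at hmem
  exact J.neg_mem_iff.1 hmem

end sound

end Pool.Agent.MP5c99ad.Pk
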