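import Mathlib
import Pool.Agent.Lib.MP_5c99ad_al.PWC
import Pool.Agent.Lib.MP_5c99ad_al.PkC
import Pool.Agent.Lib.MP_5c99ad_al.BCertB

set_option autoImplicit false

/-!
Packed checker for windows, part D: soundness of the parts.
-/

namespace Pool.Agent.MP5c99ad.PW

open Pool.Agent.MP5c99ad Pool.Agent.MP5c99ad.Pk

/-! ### digits -/

section digits

/-- the digits; the last one is not reduced -/
def dg (b M N i : ℕ) : ℕ := if i + 1 = M then N / b ^ i else N / b ^ i % b

theorem dg_le (b : ℕ) (hb : 2 ≤ b) : ∀ (M : ℕ) (N : ℕ) (C : ℕ → ℕ), 1 ≤ M →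
    N = ∑ i ∈ Finset.range M, C i * b ^ i →
    ∑ i ∈ Finset.range M, dg b M N i ≤ ∑ i ∈ Finset.range M, C i ∧
    (∑ i ∈ Finset.range M, dg b M N i = ∑ i ∈ Finset.range M, C i → ∀ i, i < M → dg b M N i = C i) := by
  intro M
  induction M with
  | zero => intro N C h; omega
  | succ M ih =>
    intro N C _ hN
    rcases Nat.eq_zero_or_pos M with rfl | hM
    · simp only [zero_add, Finset.sum_range_one, pow_zero, mul_one] at hN ⊢
      have e : dg b 1 N 0 = C 0 := by simp [dg, hN]
      refine ⟨e.le, fun _ i hi => ?_⟩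
      have : i = 0 := by omega
      subst this
      exact e
    · have hN' : N = C 0 + b * ∑ i ∈ Finset.range M, C (i + 1) * b ^ i := by
        rw [hN, Finset.sum_range_succ', pow_zero, mul_one, add_comm, Finset.mul_sum]
        congr 1
        apply Finset.sum_congr rfl
        intro j _
        rw [pow_succ]
        ring
      have hb0 : 0 < b := by omega
      set C' : ℕ → ℕ := fun i => C (i + 1) + if i = 0 then C 0 / b else 0 with hC'
      have hdiv : N / b = ∑ i ∈ Finset.range M, C' i * b ^ i := by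
        have e1 : N / b = C 0 / b + ∑ i ∈ Finset.range M, C (i + 1) * b ^ i := by
          rw [hN', Nat.add_mul_div_left _ _ hb0]
        rw [e1, hC']
        simp only [add_mul, Finset.sum_add_distrib]
        rw [add_comm]
        congr 1
        rw [Finset.sum_eq_single 0]
        · simp
        · intro i _ hi
          rw [if_neg hi, zero_mul]
        · intro h
          exact absurd (Finset.mem_range.2 hM) h
      obtain ⟨i1, i2⟩ := ih (N / b) C' hM hdiv
      have hsC' : ∑ i ∈ Finset.range M, C' i = ∑ i ∈ Finset.range M, C (i + 1) + C 0 / b := by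
        rw [hC']
        simp only [Finset.sum_add_distrib]
        congr 1
        rw [Finset.sum_eq_single 0]
        · simp
        · intro i _ hi
          rw [if_neg hi]
        · intro h
          exact absurd (Finset.mem_range.2 hM) h
      have hd0 : dg b (M + 1) N 0 = C 0 % b := by
        unfold dg
        rw [if_neg (by omega), pow_zero, Nat.div_one, hN', Nat.add_mul_mod_self_left]
      have hds : ∀ i, dg b (M + 1) N (i + 1) = dg b M (N / b) i := by
        intro i
        unfold dg
        have e : N / b ^ (i + 1) = N / b / b ^ i := by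
          rw [Nat.div_div_eq_div_mul, pow_succ']
        rw [e]
        by_cases h : i + 1 = M
        · rw [if_pos h, if_pos (by omega)]
        · rw [if_neg h, if_neg (by omega)]
      rw [Finset.sum_range_succ', hd0, Finset.sum_range_succ' C]
      simp only [hds]
      have hc : b * (C 0 / b) + C 0 % b = C 0 := Nat.div_add_mod (C 0) b
      have hq : 2 * (C 0 / b) ≤ b * (C 0 / b) := Nat.mul_le_mul_right _ hb
      constructor
      · omega
      · intro heq i hi
        have hq0 : C 0 / b = 0 := by omega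
        have hC'' : ∀ i, C' i = C (i + 1) := by
          intro i
          rw [hC']
          simp only
          split_ifs
          · rw [hq0, add_zero]
          · rw [add_zero]
        rcases i with _ | i
        · rw [hd0]
          omega
        · rw [hds, i2 (by omega) i (by omega), hC'']

/-- the admissible digit -/
def gd (K : ℕ → Bool) (d κ : ℕ) : ℕ := if d % 5 = 0 ∨ K κ = true then d else 0

theorem scan_zero (s : ℕ) (K : ℕ → Bool) (N κ : ℕ) : scan s K 0 N κ = gd K N κ := by
  have e : scan s K 0 N κ = @Bool.rec (fun _ => ℕ)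
      (@Bool.rec (fun _ => ℕ) (@Bool.rec (fun _ => ℕ) 0 N (K κ)) N
        (Nat.beq (Nat.mod N 5) 0)) 0 (Nat.beq N 0) := rfl
  rw [e]
  unfold gd
  cases h0 : Nat.beq N 0 with
  | true =>
    rw [Nat.beq_eq] at h0
    subst h0
    simp
  | false =>
    cases h5 : Nat.beq (Nat.mod N 5) 0 with
    | true =>
      rw [Nat.beq_eq] at h5
      have h5' : N % 5 = 0 := h5
      rw [if_pos (Or.inl h5')]
    | false =>
      have h5' : ¬ N % 5 = 0 := by
        intro h
        have : Nat.beq (Nat.mod N 5) 0 = true := by rw [Nat.beq_eq]; exact h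
        rw [this] at h5
        exact absurd h5 (by simp)
      cases hK : K κ with
      | true => rw [if_pos (Or.inr rfl)]
      | false => rw [if_neg (by simp [h5'])]

theorem scan_succ (s : ℕ) (K : ℕ → Bool) (k N κ : ℕ) : scan s K (k + 1) N κ =
    if N = 0 then 0 else scan s K k (N % 2 ^ (s * 2 ^ k)) (2 * κ) +
      scan s K k (N / 2 ^ (s * 2 ^ k)) (2 * κ + 1) := by
  have e : scan s K (k + 1) N κ = @Bool.rec (fun _ => ℕ)
      (Nat.add (scan s K k (Nat.mod N (Nat.pow 2 (Nat.mul s (Nat.pow 2 k)))) (Nat.mul 2 κ))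
        (scan s K k (Nat.div N (Nat.pow 2 (Nat.mul s (Nat.pow 2 k)))) (Nat.succ (Nat.mul 2 κ))))
      0 (Nat.beq N 0) := rfl
  rw [e]
  cases h0 : Nat.beq N 0 with
  | true =>
    rw [Nat.beq_eq] at h0
    rw [if_pos h0]
  | false =>
    have : N ≠ 0 := by
      intro h
      subst h
      exact absurd h0 (by simp)
    rw [if_neg this]
    rfl

theorem scan_eq (s : ℕ) (K : ℕ → Bool) (k : ℕ) : ∀ N κ,
    scan s K k N κ = ∑ i ∈ Finset.range (2 ^ k), gd K (dg (2 ^ s) (2 ^ k) N i) (κ * 2 ^ k + i) := by
  induction k with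
  | zero =>
    intro N κ
    rw [scan_zero]
    simp [dg]
  | succ k ih =>
    intro N κ
    rw [scan_succ]
    by_cases h0 : N = 0
    · subst h0
      rw [if_pos rfl]
      symm
      apply Finset.sum_eq_zero
      intro i _
      unfold gd dg
      simp
    · rw [if_neg h0, ih, ih]
      have e2 : 2 ^ (k + 1) = 2 ^ k + 2 ^ k := by ring
      rw [e2, Finset.sum_range_add]
      have hpow : (2 : ℕ) ^ (s * 2 ^ k) = (2 ^ s) ^ 2 ^ k := by rw [pow_mul]
      congr 1
      · apply Finset.sum_congr rfl
        intro i hi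
        rw [Finset.mem_range] at hi
        have e3 : dg (2 ^ s) (2 ^ k) (N % 2 ^ (s * 2 ^ k)) i = dg (2 ^ s) (2 ^ k + 2 ^ k) N i := by
          unfold dg
          rw [if_neg (show ¬ i + 1 = 2 ^ k + 2 ^ k by omega), hpow]
          obtain ⟨j, hj⟩ : ∃ j, 2 ^ k = i + (j + 1) := ⟨2 ^ k - i - 1, by omega⟩
          have e4 : N % (2 ^ s) ^ 2 ^ k / (2 ^ s) ^ i = N / (2 ^ s) ^ i % (2 ^ s) ^ (j + 1) := by
            rw [hj, pow_add, Nat.mod_mul_right_div_self]
          split_ifs with h
          · rw [e4]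
            have : j = 0 := by omega
            subst this
            rw [zero_add, pow_one]
          · rw [e4]
            exact Nat.mod_mod_of_dvd _ (dvd_pow_self _ (Nat.succ_ne_zero j))
        rw [e3]
        congr 1
        ring
      · apply Finset.sum_congr rfl
        intro i hi
        rw [Finset.mem_range] at hi
        have e3 : dg (2 ^ s) (2 ^ k) (N / 2 ^ (s * 2 ^ k)) i =
            dg (2 ^ s) (2 ^ k + 2 ^ k) N (2 ^ k + i) := by
          unfold dg
          have e4 : N / 2 ^ (s * 2 ^ k) / (2 ^ s) ^ i = N / (2 ^ s) ^ (2 ^ k + i) := by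
            rw [hpow, Nat.div_div_eq_div_mul, ← pow_add]
          rw [e4]
          by_cases h : i + 1 = 2 ^ k
          · rw [if_pos h, if_pos (by omega)]
          · rw [if_neg h, if_neg (by omega)]
        rw [e3]
        congr 1
        ring

theorem gd_le (K : ℕ → Bool) (d κ : ℕ) : gd K d κ ≤ d := by
  unfold gd
  split_ifs <;> omega

/-- soundness of the scan -/
theorem scan_sound {s : ℕ} (hs : 1 ≤ s) (K : ℕ → Bool) (k N : ℕ) (C : ℕ → ℕ)
    (hN : N = ∑ i ∈ Finset.range (2 ^ k), C i * (2 ^ s) ^ i)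
    (h : scan s K k N 0 = ∑ i ∈ Finset.range (2 ^ k), C i) :
    ∀ i, i < 2 ^ k → C i % 5 = 0 ∨ K i = true := by
  have hb : 2 ≤ 2 ^ s := by
    calc 2 = 2 ^ 1 := by norm_num
      _ ≤ 2 ^ s := Nat.pow_le_pow_right (by norm_num) hs
  obtain ⟨h1, h2⟩ := dg_le (2 ^ s) hb (2 ^ k) N C Nat.one_le_two_pow hN
  rw [scan_eq] at h
  have h3 : ∑ i ∈ Finset.range (2 ^ k), gd K (dg (2 ^ s) (2 ^ k) N i) (0 * 2 ^ k + i) ≤
      ∑ i ∈ Finset.range (2 ^ k), dg (2 ^ s) (2 ^ k) N i := Finset.sum_le_sum (fun i _ => gd_le _ _ _)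
  have h4 : ∑ i ∈ Finset.range (2 ^ k), dg (2 ^ s) (2 ^ k) N i = ∑ i ∈ Finset.range (2 ^ k), C i := by
    omega
  have h5 := h2 h4
  intro i hi
  have h6 : gd K (dg (2 ^ s) (2 ^ k) N i) (0 * 2 ^ k + i) = dg (2 ^ s) (2 ^ k) N i := by
    have := (Finset.sum_eq_sum_iff_of_le (fun i _ => gd_le K (dg (2 ^ s) (2 ^ k) N i) (0 * 2 ^ k + i))).1
      (by rw [h, h4]) i (Finset.mem_range.2 hi)
    exact this
  rw [h5 i hi, zero_mul, zero_add] at h6
  unfold gd at h6
  split_ifs at h6 with h7
  · exact h7
  · left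
    rw [← h6]

end digits

end Pool.Agent.MP5c99ad.PW
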