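import Mathlib
import Pool.Agent.Lib.MP_5c99ad_al.PWD

set_option autoImplicit false

/-!
Packed checker for windows, part E: contents and measures.
-/

namespace Pool.Agent.MP5c99ad.PW

open Pool.Agent.MP5c99ad Pool.Agent.MP5c99ad.Pk

/-! ### words of numbers -/

theorem wd_len_sm (x : ℕ) : (wd x).length ≤ 12 ∧ ∀ s ∈ wd x, s < 16 := by
  have key : ∀ f x : ℕ, (@Nat.rec (fun _ => ℕ → List ℕ) (fun _ => [])
      (fun _ ih x => @Bool.rec (fun _ => List ℕ)
        (List.cons (Nat.sub (Nat.mod x 16) 1) (ih (Nat.div x 16))) []
        (Nat.beq x 0)) f x).length ≤ f ∧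
      ∀ s ∈ (@Nat.rec (fun _ => ℕ → List ℕ) (fun _ => [])
      (fun _ ih x => @Bool.rec (fun _ => List ℕ)
        (List.cons (Nat.sub (Nat.mod x 16) 1) (ih (Nat.div x 16))) []
        (Nat.beq x 0)) f x), s < 16 := by
    intro f
    induction f with
    | zero => intro x; simp
    | succ f ih =>
      intro x
      cases h : Nat.beq x 0 with
      | true => simp [h]
      | false =>
        simp only [h]
        obtain ⟨h1, h2⟩ := ih (Nat.div x 16)
        refine ⟨by rw [List.length_cons]; omega, ?_⟩
        intro s hs
        rw [List.mem_cons] at hs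
        rcases hs with rfl | hs
        · have : Nat.sub (Nat.mod x 16) 1 = x % 16 - 1 := rfl
          rw [this]
          omega
        · exact h2 s hs
  exact key 12 x

/-! ### content -/

theorem cc_eq_sum (w : List ℕ) (hw : ∀ s ∈ w, s < 16) :
    cc w = ∑ i ∈ Finset.range 16, w.count i * 256 ^ i := by
  induction w with
  | nil => simp [cc_nil]
  | cons s w ih =>
    rw [cc_cons, ih (fun t ht => hw t (List.mem_cons_of_mem _ ht))]
    have hs := hw s List.mem_cons_self
    rw [← Finset.sum_erase_add _ _ (Finset.mem_range.2 hs),
      ← Finset.sum_erase_add (Finset.range 16) (fun i => (s :: w).count i * 256 ^ i) (Finset.mem_range.2 hs)]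
    have e : ∑ i ∈ (Finset.range 16).erase s, (s :: w).count i * 256 ^ i =
        ∑ i ∈ (Finset.range 16).erase s, w.count i * 256 ^ i := by
      apply Finset.sum_congr rfl
      intro i hi
      rw [Finset.mem_erase] at hi
      rw [List.count_cons_of_ne (fun e => hi.1 e.symm)]
    rw [e, List.count_cons_self]
    ring

theorem totc_eq (A B n : ℕ) : totc A B n = A + B * 256 + ∑ j ∈ Finset.range n, 256 ^ (j + 2) := by
  have key : ∀ n, @Nat.rec (fun _ => ℕ) 0 (fun j ih => Nat.add ih (Nat.pow 256 (Nat.add j 2))) n =
      ∑ j ∈ Finset.range n, 256 ^ (j + 2) := by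
    intro n
    induction n with
    | zero => rfl
    | succ n ih =>
      rw [Finset.sum_range_succ, ← ih]
      rfl
  rw [← key n]
  rfl

theorem ct_of_cc {A B n : ℕ} {w : List ℕ} (hl : w.length < 256) (hs : ∀ s ∈ w, s < 16)
    (hA : A < 256) (hB : B < 256) (hn : n ≤ 13) (h : cc w = totc A B n) : Ct A B n w := by
  rw [cc_eq_sum w hs, totc_eq] at h
  set f : ℕ → ℕ := fun i => if i = 0 then A else if i = 1 then B else if i < n + 2 then 1 else 0 with hf
  have e : A + B * 256 + ∑ j ∈ Finset.range n, 256 ^ (j + 2) = ∑ i ∈ Finset.range 16, f i * 256 ^ i := by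
    rw [Finset.sum_range_succ', Finset.sum_range_succ']
    have e1 : ∑ k ∈ Finset.range 14, f (k + 1 + 1) * 256 ^ (k + 1 + 1) =
        ∑ j ∈ Finset.range n, 256 ^ (j + 2) := by
      have hsub : Finset.range n ⊆ Finset.range 14 := by
        intro x hx
        rw [Finset.mem_range] at hx ⊢
        omega
      rw [← Finset.sum_subset hsub (f := fun k => f (k + 1 + 1) * 256 ^ (k + 1 + 1))]
      · apply Finset.sum_congr rfl
        intro k hk
        rw [Finset.mem_range] at hk
        have : f (k + 1 + 1) = 1 := by
          rw [hf]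
          simp only
          rw [if_neg (by omega), if_neg (by omega), if_pos (by omega)]
        rw [this, one_mul]
      · intro k _ hk
        rw [Finset.mem_range] at hk
        have : f (k + 1 + 1) = 0 := by
          rw [hf]
          simp only
          rw [if_neg (by omega), if_neg (by omega), if_neg (by omega)]
        rw [this, zero_mul]
    rw [e1]
    have f0 : f 0 = A := by rw [hf]; simp
    have f1 : f (0 + 1) = B := by rw [hf]; simp
    rw [f0, f1]
    ring
  rw [e] at h
  have hcount : ∀ i, w.count i < 256 := fun i => lt_of_le_of_lt List.count_le_length hl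
  have hflt : ∀ i, f i < 256 := by
    intro i
    rw [hf]
    simp only
    split_ifs <;> omega
  have key := levels_of_code (B := 256) (k := 16) (fun i => w.count i) f hcount hflt h
  refine ⟨?_, ?_, ?_, ?_⟩
  · have := key 0 (by norm_num)
    simpa [hf] using this
  · have := key 1 (by norm_num)
    simpa [hf] using this
  · intro j hj
    have := key (j + 2) (by omega)
    simp only [hf] at this
    rw [if_neg (by omega), if_neg (by omega), if_pos (by omega)] at this
    exact this
  · intro s hs'
    by_contra hcon
    have h1 := hs s hs'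
    have := key s h1
    simp only [hf] at this
    rw [if_neg (by omega), if_neg (by omega), if_neg (by omega)] at this
    exact (List.count_eq_zero.1 this) hs'

/-! ### Boolean functions -/

theorem an_true {a b : Bool} (h : an a b = true) : a = true ∧ b = true := by
  cases a with
  | false => exact absurd h (by simp [an])
  | true => exact ⟨rfl, h⟩

theorem orr_true {a b : Bool} (h : orr a b = true) : a = true ∨ b = true := by
  cases a with
  | false => exact Or.inr h
  | true => exact Or.inl rfl

theorem ble_true {a b : ℕ} (h : Nat.ble a b = true) : a ≤ b := Nat.le_of_ble_eq_true h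

theorem smW_true {w : List ℕ} (h : smW w = true) : ∀ s ∈ w, s < 16 := by
  induction w with
  | nil => intro s hs; simp at hs
  | cons x w ih =>
    have h' : @Bool.rec (fun _ => Bool) false (smW w) (Nat.ble x 15) = true := h
    cases hx : Nat.ble x 15 with
    | false => rw [hx] at h'; exact absurd h' (by simp)
    | true =>
      rw [hx] at h'
      intro s hs
      rw [List.mem_cons] at hs
      rcases hs with rfl | hs
      · have := ble_true hx
        omega
      · exact ih h' s hs

theorem len_eq (w : List ℕ) : len w = w.length := by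
  induction w with
  | nil => rfl
  | cons x w ih =>
    show Nat.succ (len w) = _
    rw [ih]
    rfl

/-! ### measures -/

/-- number of marks -/
def mk (w : List ℕ) : ℕ := w.count 0 + w.count 1

theorem muF_eq (w : List ℕ) (hw : Lin2 w) {n : ℕ} (hk : ∀ s ∈ w, s < n + 2) : ∀ m,
    muF w m = m * 100 ^ mk w + ∑ j ∈ Finset.range n,
      if j + 2 ∈ w then 100 ^ (mk w - (bf 0 w (j + 2) + bf 1 w (j + 2))) else 0 := by
  induction w with
  | nil => intro m; simp [muF, mk]
  | cons s w ih =>
    intro m
    have ih' := ih (lin2_cons hw) (fun t ht => hk t (List.mem_cons_of_mem _ ht))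
    rcases s with _ | _ | i
    · have e : muF (0 :: w) m = muF w (m * 100) := rfl
      rw [e, ih']
      have hm : mk (0 :: w) = mk w + 1 := by simp [mk]; omega
      rw [hm]
      congr 1
      · ring
      · apply Finset.sum_congr rfl
        intro j _
        have e1 : (j + 2 ∈ (0 :: w)) ↔ (j + 2 ∈ w) := by simp
        simp only [e1]
        split_ifs with hj
        · rw [bf, if_neg (by omega), if_pos rfl, bf, if_neg (by omega), if_neg (by omega)]
          congr 1
          omega
        · rfl
    · have e : muF (1 :: w) m = muF w (m * 100) := rfl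
      rw [show (0 + 1 : ℕ) = 1 from rfl, e, ih']
      have hm : mk (1 :: w) = mk w + 1 := by simp [mk]; omega
      rw [hm]
      congr 1
      · ring
      · apply Finset.sum_congr rfl
        intro j _
        have e1 : (j + 2 ∈ (1 :: w)) ↔ (j + 2 ∈ w) := by simp
        simp only [e1]
        split_ifs with hj
        · rw [bf, if_neg (by omega), if_neg (by omega), bf, if_neg (by omega), if_pos rfl]
          congr 1
          omega
        · rfl
    · have e : muF ((i + 2) :: w) m = muF w (m + 1) := rfl
      rw [e, ih']
      have hm : mk ((i + 2) :: w) = mk w := by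
        unfold mk
        rw [List.count_cons_of_ne (by omega), List.count_cons_of_ne (by omega)]
      rw [hm]
      have hi : i < n := by
        have := hk (i + 2) List.mem_cons_self
        omega
      have hnot : i + 2 ∉ w := by
        intro hm
        have h1 := hw (i + 2) (by omega)
        rw [List.count_cons_self] at h1
        have h2 : 1 ≤ w.count (i + 2) := List.one_le_count_iff.2 hm
        omega
      rw [← Finset.sum_erase_add _ _ (Finset.mem_range.2 hi),
        ← Finset.sum_erase_add (Finset.range n) (fun j => if j + 2 ∈ ((i + 2) :: w) then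
          100 ^ (mk w - (bf 0 ((i + 2) :: w) (j + 2) + bf 1 ((i + 2) :: w) (j + 2))) else 0)
          (Finset.mem_range.2 hi)]
      have e2 : ∑ j ∈ (Finset.range n).erase i, (if j + 2 ∈ ((i + 2) :: w) then
          100 ^ (mk w - (bf 0 ((i + 2) :: w) (j + 2) + bf 1 ((i + 2) :: w) (j + 2))) else 0) =
          ∑ j ∈ (Finset.range n).erase i, (if j + 2 ∈ w then
          100 ^ (mk w - (bf 0 w (j + 2) + bf 1 w (j + 2))) else 0) := by
        apply Finset.sum_congr rfl
        intro j hj
        rw [Finset.mem_erase] at hj
        have e1 : (j + 2 ∈ ((i + 2) :: w)) ↔ (j + 2 ∈ w) := by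
          rw [List.mem_cons]
          constructor
          · rintro (h | h)
            · exact absurd h (by omega)
            · exact h
          · exact Or.inr
        simp only [e1]
        split_ifs with hjw
        · rw [bf, if_neg (by omega), if_neg (by omega), bf, if_neg (by omega), if_neg (by omega),
            zero_add, zero_add]
        · rfl
      rw [e2, if_neg hnot, if_pos List.mem_cons_self, bf, if_pos rfl, bf, if_pos rfl]
      simp only [add_zero, Nat.sub_zero]
      ring

theorem FK_eq (D L K : ℕ) (n : ℕ) : ∀ κ, FK D L K n κ = ∑ j ∈ Finset.range n,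
    100 ^ (K - (κ / L ^ j % L % D + κ / L ^ j % L / D)) := by
  induction n with
  | zero => intro κ; rfl
  | succ n ih =>
    intro κ
    have e : FK D L K (n + 1) κ = 100 ^ (K - (κ % L % D + κ % L / D)) + FK D L K n (κ / L) := rfl
    rw [e, ih, Finset.sum_range_succ', pow_zero, Nat.div_one, add_comm]
    congr 1
    apply Finset.sum_congr rfl
    intro j _
    have e2 : κ / L / L ^ j = κ / L ^ (j + 1) := by
      rw [Nat.div_div_eq_div_mul, pow_succ']
    rw [e2]

theorem FK_mu {A B n : ℕ} {w : List ℕ} (h : Ct A B n w) :
    FK (A + 1) ((A + 1) * (B + 1)) (A + B) n (cod (A + 1) ((A + 1) * (B + 1)) 0 w) = muF w 0 := by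
  rw [FK_eq, muF_eq w h.lin h.lt, zero_mul, zero_add]
  apply Finset.sum_congr rfl
  intro j hj
  rw [Finset.mem_range] at hj
  rw [if_pos (h.mem hj), h.bf0 hj, h.bf1 hj]
  have : mk w = A + B := by rw [mk, h.c0, h.c1]
  rw [this]

theorem EK_true (D L K : ℕ) (n : ℕ) : ∀ κ, EK D L K n κ = true → ∃ j, j < n ∧
    κ / L ^ j % L % D + κ / L ^ j % L / D = K := by
  induction n with
  | zero => intro κ h; exact absurd h (by simp [EK])
  | succ n ih =>
    intro κ h
    have e : EK D L K (n + 1) κ = @Bool.rec (fun _ => Bool) (EK D L K n (κ / L)) true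
      (Nat.beq (κ % L % D + κ % L / D) K) := rfl
    rw [e] at h
    cases hb : Nat.beq (κ % L % D + κ % L / D) K with
    | true =>
      rw [Nat.beq_eq] at hb
      exact ⟨0, by omega, by rw [pow_zero, Nat.div_one]; exact hb⟩
    | false =>
      rw [hb] at h
      obtain ⟨j, hj, h2⟩ := ih _ h
      refine ⟨j + 1, by omega, ?_⟩
      have e2 : κ / L / L ^ j = κ / L ^ (j + 1) := by
        rw [Nat.div_div_eq_div_mul, pow_succ']
      rw [← e2]
      exact h2

/-- if a letter is behind all marks, the word ends with a letter -/
theorem ends_letter {A B n : ℕ} {w : List ℕ} (h : Ct A B n w) {j : ℕ} (hj : j < n)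
    (hk : bf 0 w (j + 2) + bf 1 w (j + 2) = A + B) : ∃ w' i, w = w' ++ [i + 2] := by
  obtain ⟨p, q, rfl, hnp⟩ := List.eq_append_cons_of_mem (h.mem hj)
  rw [bf_append_not_mem _ hnp, bf_append_not_mem _ hnp] at hk
  simp only [bf, if_true, add_zero] at hk
  have h0 := h.c0
  have h1 := h.c1
  rw [List.count_append, List.count_cons_of_ne (by omega)] at h0 h1
  have q0 : q.count 0 = 0 := by omega
  have q1 : q.count 1 = 0 := by omega
  rcases List.eq_nil_or_concat q with rfl | ⟨q', z, rfl⟩
  · exact ⟨p, j, rfl⟩
  · rcases z with _ | _ | z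
    · rw [List.count_concat_self] at q0
      omega
    · rw [show (0 + 1 : ℕ) = 1 from rfl, List.count_concat_self] at q1
      omega
    · exact ⟨p ++ (j + 2) :: q', z, by simp⟩

end Pool.Agent.MP5c99ad.PW
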