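import Mathlib
import Pool.Agent.Lib.MP_5c99ad_al.PWE

set_option autoImplicit false

/-!
Packed checker for windows, part F: soundness.
-/

namespace Pool.Agent.MP5c99ad.PW

open Pool.Agent.MP5c99ad Pool.Agent.MP5c99ad.Pk

/-- the symbol of a number -/
def toS : ℕ → BC.Sy
  | 0 => .d
  | 1 => .r
  | 2 => .l .a
  | 3 => .l .b
  | 4 => .l .c
  | 5 => .l .e
  | 6 => .l .f
  | _ + 7 => .l .g

theorem toS_letter (j : ℕ) : ∃ t, toS (j + 2) = .l t := by
  rcases j with _ | _ | _ | _ | _ | j
  · exact ⟨_, rfl⟩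
  · exact ⟨_, rfl⟩
  · exact ⟨_, rfl⟩
  · exact ⟨_, rfl⟩
  · exact ⟨_, rfl⟩
  · exact ⟨_, rfl⟩

theorem mu_toS (w : List ℕ) : ∀ m, BC.mu (w.map toS) m = muF w m := by
  induction w with
  | nil => intro m; rfl
  | cons s w ih =>
    intro m
    rcases s with _ | _ | j
    · exact ih _
    · exact ih _
    · obtain ⟨t, ht⟩ := toS_letter j
      rw [List.map_cons, ht]
      exact ih _

theorem nu_toS (w : List ℕ) : ∀ m, BC.nu (w.map toS) m = nuF w m := by
  induction w with
  | nil => intro m; rfl
  | cons s w ih =>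
    intro m
    rcases s with _ | _ | j
    · exact ih _
    · exact ih _
    · obtain ⟨t, ht⟩ := toS_letter j
      rw [List.map_cons, ht]
      exact ih _

theorem cd_toS (w : List ℕ) : ∀ m, BC.cd (w.map toS) m = m + w.count 0 := by
  induction w with
  | nil => intro m; rfl
  | cons s w ih =>
    intro m
    rcases s with _ | _ | j
    · have : BC.cd ((0 :: w).map toS) m = BC.cd (w.map toS) (m + 1) := rfl
      rw [this, ih, List.count_cons_self]
      omega
    · have : BC.cd ((1 :: w).map toS) m = BC.cd (w.map toS) m := rfl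
      rw [show (0 + 1 : ℕ) = 1 from rfl, this, ih, List.count_cons_of_ne (by omega)]
    · obtain ⟨t, ht⟩ := toS_letter j
      rw [List.map_cons, ht, List.count_cons_of_ne (by omega)]
      exact ih _

theorem cr_toS (w : List ℕ) : ∀ m, BC.cr (w.map toS) m = m + w.count 1 := by
  induction w with
  | nil => intro m; rfl
  | cons s w ih =>
    intro m
    rcases s with _ | _ | j
    · have : BC.cr ((0 :: w).map toS) m = BC.cr (w.map toS) m := rfl
      rw [this, ih, List.count_cons_of_ne (by omega)]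
    · have : BC.cr ((1 :: w).map toS) m = BC.cr (w.map toS) (m + 1) := rfl
      rw [show (0 + 1 : ℕ) = 1 from rfl, this, ih, List.count_cons_self]
      omega
    · obtain ⟨t, ht⟩ := toS_letter j
      rw [List.map_cons, ht, List.count_cons_of_ne (by omega)]
      exact ih _

theorem cq_toS (w : List ℕ) : ∀ m, BC.cq (w.map toS) m = m := by
  induction w with
  | nil => intro m; rfl
  | cons s w ih =>
    intro m
    rcases s with _ | _ | j
    · exact ih _
    · exact ih _
    · obtain ⟨t, ht⟩ := toS_letter j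
      rw [List.map_cons, ht]
      exact ih _

theorem cl_toS (w : List ℕ) : ∀ m, BC.cl (w.map toS) m + (w.count 0 + w.count 1) = m + w.length := by
  induction w with
  | nil => intro m; rfl
  | cons s w ih =>
    intro m
    rcases s with _ | _ | j
    · have : BC.cl ((0 :: w).map toS) m = BC.cl (w.map toS) m := rfl
      rw [this, List.count_cons_self, List.count_cons_of_ne (by omega), List.length_cons]
      have := ih m
      omega
    · have : BC.cl ((1 :: w).map toS) m = BC.cl (w.map toS) m := rfl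
      rw [show (0 + 1 : ℕ) = 1 from rfl, this, List.count_cons_self, List.count_cons_of_ne (by omega),
        List.length_cons]
      have := ih m
      omega
    · obtain ⟨t, ht⟩ := toS_letter j
      rw [List.map_cons, ht, List.count_cons_of_ne (by omega), List.count_cons_of_ne (by omega),
        List.length_cons]
      have : BC.cl (BC.Sy.l t :: w.map toS) m = BC.cl (w.map toS) (m + 1) := rfl
      rw [this]
      have := ih (m + 1)
      omega

/-- same content -/
structure Same (w w0 : List BC.Sy) : Prop where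
  hi : BC.cd w 0 = BC.cd w0 0
  hj : BC.cr w 0 = BC.cr w0 0
  hk : BC.cq w 0 = BC.cq w0 0
  hh : BC.cl w 0 = BC.cl w0 0

theorem Ct.perm_of {A B n : ℕ} {w w' : List ℕ} (h : Ct A B n w) (h' : Ct A B n w') : w.Perm w' := by
  rw [List.perm_iff_count]
  intro i
  rcases i with _ | _ | j
  · rw [h.c0, h'.c0]
  · rw [h.c1, h'.c1]
  · by_cases hj : j < n
    · rw [h.cl j hj, h'.cl j hj]
    · rw [List.count_eq_zero_of_not_mem (fun hm => hj (by have := h.lt _ hm; omega)),
        List.count_eq_zero_of_not_mem (fun hm => hj (by have := h'.lt _ hm; omega))]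

theorem Ct.same {A B n : ℕ} {w w' : List ℕ} (h : Ct A B n w) (h' : Ct A B n w') :
    Same (w.map toS) (w'.map toS) := by
  have hp := h.perm_of h'
  refine ⟨?_, ?_, ?_, ?_⟩
  · rw [cd_toS, cd_toS, hp.count_eq]
  · rw [cr_toS, cr_toS, hp.count_eq]
  · rw [cq_toS, cq_toS]
  · have h1 := cl_toS w 0
    have h2 := cl_toS w' 0
    rw [hp.length_eq, hp.count_eq, hp.count_eq] at h1
    omega

/-- the words dropped in a window: bigger words, and (if `e`) words ending with a letter -/
def Drop (e : Bool) (w0 w : List BC.Sy) : Prop :=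
  Same w w0 ∧ ((BC.mu w0 0 < BC.mu w 0 ∨ (BC.mu w 0 = BC.mu w0 0 ∧ BC.nu w0 0 < BC.nu w 0)) ∨
    (e = true ∧ ∃ w' t, w = w' ++ [BC.Sy.l t]))

/-- the instances of a core with contexts -/
noncomputable def instsOf (x : ℕ × List ℕ) : List Inst :=
  x.2.map (fun y => ⟨cxC y, cxU y, sl1 x.1, sl2 x.1, sl3 x.1, sl4 x.1, cxV y⟩)

theorem pack_flatMap {α : Type} (b D L : ℕ) (f : α → Po) (l : List α) :
    pack b D L (l.flatMap f) = (l.map (fun x => pack b D L (f x))).sum := by
  induction l with
  | nil => rfl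
  | cons x l ih => rw [List.flatMap_cons, pack_append, ih, List.map_cons, List.sum_cons]

theorem coreV_eq (s D L : ℕ) (x : ℕ × List ℕ) :
    coreV s D L x = pack (2 ^ s) D L ((instsOf x).flatMap Inst.po) := by
  rw [pack_flatMap]
  unfold coreV instsOf
  rw [List.map_map]
  have e : ∀ Ac Wc (l : List ℕ), MC s D L Ac Wc l =
      (l.map (fun y => cxC y * (2 ^ s) ^ cxE D L Ac Wc y)).sum := by
    intro Ac Wc l
    induction l with
    | nil => rfl
    | cons y l ih =>
      show Nat.add (sh s (cxC y) (cxE D L Ac Wc y)) (MC s D L Ac Wc l) = _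
      rw [ih, sh_eq, List.map_cons, List.sum_cons]
      rfl
  rw [e]
  have ea : ∀ a b, Nat.add a b = a + b := fun _ _ => rfl
  have em : ∀ a b, Nat.mul a b = a * b := fun _ _ => rfl
  simp only [ea, em, LAF_eq, LWF_eq, coreK, LNF_eq, E4F_eq]
  generalize x.2 = l
  induction l with
  | nil => simp
  | cons y l ih =>
    rw [List.map_cons, List.sum_cons, List.map_cons, List.sum_cons, mul_add, ih]
    congr 1
    show _ = pack (2 ^ s) D L (Inst.po ⟨cxC y, cxU y, sl1 x.1, sl2 x.1, sl3 x.1, sl4 x.1, cxV y⟩)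
    rw [pack_inst]
    have : cxE D L (LA D (sl1 x.1) + (LA D (sl2 x.1) + (LA D (sl3 x.1) + LA D (sl4 x.1))))
        (LW L (sl1 x.1) + (LW L (sl2 x.1) + (LW L (sl3 x.1) + LW L (sl4 x.1)))) y =
        cod D L 0 (cxU y) + avW D (cxU y) * (LW L (sl1 x.1) + (LW L (sl2 x.1) + (LW L (sl3 x.1) + LW L (sl4 x.1)))) +
        cod D L (avW D (cxU y) + (LA D (sl1 x.1) + (LA D (sl2 x.1) + (LA D (sl3 x.1) + LA D (sl4 x.1))))) (cxV y) := by
      unfold cxE
      simp only [ea, em, codF_eq, avWF_eq]
    rw [this]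
    ring

/-- total coefficient of a code -/
def Cf (D L : ℕ) (T : Po) (κ : ℕ) : ℕ := (T.map (fun x => if cod D L 0 x.2 = κ then x.1 else 0)).sum

theorem lin_lemma {M : Type*} [AddCommMonoid M] {D L : ℕ} (h : ℕ → M) (m : ℕ) (T : Po)
    (hT : ∀ x ∈ T, cod D L 0 x.2 < m) :
    (T.map (fun x => x.1 • h (cod D L 0 x.2))).sum = ∑ κ ∈ Finset.range m, Cf D L T κ • h κ := by
  induction T with
  | nil => simp [Cf]
  | cons x T ih =>
    rw [List.map_cons, List.sum_cons, ih (fun y hy => hT y (List.mem_cons_of_mem _ hy))]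
    have e : ∀ κ, Cf D L (x :: T) κ = (if cod D L 0 x.2 = κ then x.1 else 0) + Cf D L T κ := by
      intro κ
      simp [Cf]
    simp only [e, add_smul, Finset.sum_add_distrib]
    congr 1
    rw [Finset.sum_eq_single (cod D L 0 x.2)]
    · simp
    · intro κ _ hne
      rw [if_neg (fun h => hne h.symm), zero_smul]
    · intro hn
      exact absurd (Finset.mem_range.2 (hT x List.mem_cons_self)) hn

theorem Cf_pos {D L : ℕ} {T : Po} {κ : ℕ} (h : Cf D L T κ ≠ 0) : ∃ x ∈ T, cod D L 0 x.2 = κ := by
  by_contra hcon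
  apply h
  unfold Cf
  apply List.sum_eq_zero
  intro y hy
  rw [List.mem_map] at hy
  obtain ⟨x, hx, rfl⟩ := hy
  rw [if_neg]
  intro e
  exact hcon ⟨x, hx, e⟩

theorem pack_eq_Cf {D L : ℕ} (b m : ℕ) (T : Po) (hT : ∀ x ∈ T, cod D L 0 x.2 < m) :
    pack b D L T = ∑ κ ∈ Finset.range m, Cf D L T κ * b ^ κ := by
  have := lin_lemma (D := D) (L := L) (fun κ => b ^ κ) m T hT
  simp only [smul_eq_mul] at this
  exact this

theorem LCF_eq (m : LM) : LCF m = cc m.syms := by
  induction m with
  | a s => show 256 ^ s = 256 ^ s + 0; rfl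
  | b x y ihx ihy =>
    show Nat.add (LCF x) (LCF y) = cc (x.syms ++ y.syms)
    rw [cc_append, ihx, ihy]
    rfl

theorem lmF_syms (l : List ℕ) (hl : l.length ≤ 12) (hs : ∀ s ∈ l, s < 16) :
    (lmF l).syms.length ≤ 13 ∧ ∀ s ∈ (lmF l).syms, s < 16 := by
  have key : ∀ (ys : List ℕ) (m : LM), (lmG ys m).syms = m.syms ++ ys := by
    intro ys
    induction ys with
    | nil => intro m; simp [lmG]
    | cons y ys ih =>
      intro m
      show (lmG ys (LM.b m (LM.a y))).syms = _
      rw [ih]
      simp [LM.syms]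
  cases l with
  | nil =>
    refine ⟨by show [0].length ≤ 13; simp, ?_⟩
    intro s hs'
    have : s ∈ [0] := hs'
    rw [List.mem_singleton] at this
    omega
  | cons x ys =>
    have e : (lmF (x :: ys)).syms = x :: ys := by
      show (lmG ys (LM.a x)).syms = _
      rw [key]
      simp [LM.syms]
    rw [e]
    exact ⟨by omega, hs⟩

theorem okC_true {rest : ℕ} {l : List ℕ} (h : okC rest l = true) :
    ∀ y ∈ l, cc (cxU y) + cc (cxV y) = rest := by
  induction l with
  | nil => intro y hy; simp at hy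
  | cons x l ih =>
    have h' : @Bool.rec (fun _ => Bool) false (okC rest l)
      (Nat.beq (Nat.add (cc (cxU x)) (cc (cxV x))) rest) = true := h
    cases hx : Nat.beq (Nat.add (cc (cxU x)) (cc (cxV x))) rest with
    | false => rw [hx] at h'; exact absurd h' (by simp)
    | true =>
      rw [hx] at h'
      intro y hy
      rw [List.mem_cons] at hy
      rcases hy with rfl | hy
      · rw [Nat.beq_eq] at hx
        exact hx
      · exact ih h' y hy

theorem coreOk_true {tot : ℕ} {x : ℕ × List ℕ} (h : coreOk tot x = true) :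
    ∀ I ∈ instsOf x, cc I.syms = tot := by
  have h' : @Bool.rec (fun _ => Bool) false (okC (Nat.sub tot
      (Nat.add (LCF (sl1 x.1)) (Nat.add (LCF (sl2 x.1)) (Nat.add (LCF (sl3 x.1)) (LCF (sl4 x.1)))))) x.2)
      (Nat.ble (Nat.add (LCF (sl1 x.1)) (Nat.add (LCF (sl2 x.1)) (Nat.add (LCF (sl3 x.1)) (LCF (sl4 x.1))))) tot)
      = true := h
  cases hb : Nat.ble (Nat.add (LCF (sl1 x.1)) (Nat.add (LCF (sl2 x.1)) (Nat.add (LCF (sl3 x.1)) (LCF (sl4 x.1))))) tot with
  | false => rw [hb] at h'; exact absurd h' (by simp)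
  | true =>
    rw [hb] at h'
    have hle := ble_true hb
    have h2 := okC_true h'
    intro I hI
    unfold instsOf at hI
    rw [List.mem_map] at hI
    obtain ⟨y, hy, rfl⟩ := hI
    have h3 := h2 y hy
    simp only [Inst.syms, cc_append, ← LCF_eq]
    have ea : ∀ a b, Nat.add a b = a + b := fun _ _ => rfl
    have es : ∀ a b, Nat.sub a b = a - b := fun _ _ => rfl
    simp only [ea, es] at h3 hle
    omega

end Pool.Agent.MP5c99ad.PW
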