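import Mathlib
import Pool.Agent.Lib.MP_5c99ad_al.PWF

set_option autoImplicit false

/-!
Packed checker for windows, part G: the soundness theorem.
-/

namespace Pool.Agent.MP5c99ad.PW

open Pool.Agent.MP5c99ad Pool.Agent.MP5c99ad.Pk

/-- **The window property**: the word `w0` is, modulo the relations, a sum of dropped words. -/
def WOK (e : Bool) (w0 : List BC.Sy) : Prop :=
  ∀ (U : Type) [Ring U] (g : BC.Sy → U), (5 : U) = 0 → BC.Comm g → ∀ S : Set U, (∀ l, g l ∈ S) →
    (∀ u1 u2 u3 u4, LieMonS S u1 → LieMonS S u2 → LieMonS S u3 → LieMonS S u4 →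
      sym4 u1 u2 u3 u4 = 0) →
    BC.ev g w0 ∈ AddSubgroup.closure {u : U | ∃ w, Drop e w0 w ∧ u = BC.ev g w}

theorem lm_lie {U : Type} [Ring U] {v : ℕ → U} {S : Set U} (hS : ∀ i, v i ∈ S) (m : LM) :
    LieMonS S (m.ev v) := by
  induction m with
  | a s => exact LieMonS.letter _ (hS s)
  | b x y ihx ihy => exact LieMonS.br _ _ ihx ihy

theorem kcheck_sound {e : Bool} {s A B n kk : ℕ} {cores : List (List (ℕ × List ℕ))}
    {target : List ℕ} (h : kcheck e s A B n kk cores target = true) : WOK e (target.map toS) := by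
  intro U _ g h5 hg S hS hsym
  have h' : an (Nat.ble 1 s) (an (Nat.ble A 255) (an (Nat.ble B 255) (an (Nat.ble n 13)
  (an (smW target) (an (Nat.ble (len target) 255) (an (Nat.beq (cc target) (totc A B n))
  (an (Nat.ble (Nat.pow ((A + 1) * (B + 1)) n) (Nat.pow 2 kk)) (an (allL (allL (coreOk (totc A B n))) cores)
    (Nat.beq (scan s (kill e A B n (A + 1) ((A + 1) * (B + 1)) (A + B) (muF target 0) (nuF target 0) (totc A B n)) kk
      (Nat.add (sh s 4 (codF (A + 1) ((A + 1) * (B + 1)) 0 target))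
        (sumL (sumL (coreV s (A + 1) ((A + 1) * (B + 1)))) cores)) 0)
      (Nat.add 4 (sumL (sumL (coreV 0 (A + 1) ((A + 1) * (B + 1)))) cores))))))))))) = true := h
  set D := A + 1 with hD
  set L := (A + 1) * (B + 1) with hL
  obtain ⟨a1, h'⟩ := an_true h'
  obtain ⟨a2, h'⟩ := an_true h'
  obtain ⟨a3, h'⟩ := an_true h'
  obtain ⟨a4, h'⟩ := an_true h'
  obtain ⟨a5, h'⟩ := an_true h'
  obtain ⟨a6, h'⟩ := an_true h'
  obtain ⟨a7, h'⟩ := an_true h'
  obtain ⟨a8, h'⟩ := an_true h'
  obtain ⟨a9, h'⟩ := an_true h'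
  replace a1 := ble_true a1
  replace a2 := ble_true a2
  replace a3 := ble_true a3
  replace a4 := ble_true a4
  replace a5 := smW_true a5
  replace a6 := ble_true a6
  replace a8 := ble_true a8
  rw [Nat.beq_eq] at a7 h'
  rw [len_eq] at a6
  have a8' : L ^ n ≤ 2 ^ kk := a8
  -- values
  let v : ℕ → U := fun i => g (toS i)
  have hvS : ∀ i, v i ∈ S := fun i => hS _
  have hcm : Cm v := by
    refine ⟨hg.rd.symm, ?_⟩
    intro i j hi hj
    obtain ⟨t, ht⟩ := toS_letter (i - 2)
    obtain ⟨t', ht'⟩ := toS_letter (j - 2)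
    rw [show i - 2 + 2 = i by omega] at ht
    rw [show j - 2 + 2 = j by omega] at ht'
    show g (toS i) * g (toS j) = g (toS j) * g (toS i)
    rw [ht, ht']
    exact hg.ll _ _
  have hev : ∀ w : List ℕ, evW v w = BC.ev g (w.map toS) := by
    intro w
    simp only [evW, BC.ev, List.map_map]
    rfl
  -- the target
  have htc : Ct A B n target := ct_of_cc (by omega) a5 (by omega) (by omega) a4 a7
  -- the instances
  set insts : List Inst := cores.flatMap (fun l => l.flatMap instsOf) with hinsts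
  set T : Po := (4, target) :: insts.flatMap Inst.po with hT
  have hIct : ∀ I ∈ insts, Ct A B n I.syms := by
    intro I hI
    rw [hinsts, List.mem_flatMap] at hI
    obtain ⟨l, hl, hI⟩ := hI
    rw [List.mem_flatMap] at hI
    obtain ⟨x, hx, hI⟩ := hI
    have hok := coreOk_true (allL_true (allL_true a9 l hl) x hx) I hI
    unfold instsOf at hI
    rw [List.mem_map] at hI
    obtain ⟨y, _, rfl⟩ := hI
    have f1 := wd_len_sm (Nat.mod (Nat.div y 8) 281474976710656)
    have f2 := wd_len_sm (Nat.div y 2251799813685248)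
    have f3 : ∀ z, (lmF (wd z)).syms.length ≤ 13 ∧ ∀ s ∈ (lmF (wd z)).syms, s < 16 := fun z =>
      lmF_syms _ (wd_len_sm z).1 (wd_len_sm z).2
    have s1 := f3 (Nat.mod x.1 16777216)
    have s2 := f3 (Nat.mod (Nat.div x.1 16777216) 16777216)
    have s3 := f3 (Nat.mod (Nat.div x.1 281474976710656) 16777216)
    have s4 := f3 (Nat.div x.1 4722366482869645213696)
    refine ct_of_cc ?_ ?_ (by omega) (by omega) a4 hok
    · show (cxU y ++ ((sl1 x.1).syms ++ ((sl2 x.1).syms ++ ((sl3 x.1).syms ++ ((sl4 x.1).syms ++ cxV y))))).length < 256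
      simp only [List.length_append]
      have g1 : (cxU y).length ≤ 12 := f1.1
      have g2 : (cxV y).length ≤ 12 := f2.1
      have g3 : (sl1 x.1).syms.length ≤ 13 := s1.1
      have g4 : (sl2 x.1).syms.length ≤ 13 := s2.1
      have g5 : (sl3 x.1).syms.length ≤ 13 := s3.1
      have g6 : (sl4 x.1).syms.length ≤ 13 := s4.1
      omega
    · show ∀ s ∈ (cxU y ++ ((sl1 x.1).syms ++ ((sl2 x.1).syms ++ ((sl3 x.1).syms ++ ((sl4 x.1).syms ++ cxV y))))), s < 16
      intro s hs
      simp only [List.mem_append] at hs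
      rcases hs with hs | hs | hs | hs | hs | hs
      · exact f1.2 s hs
      · exact s1.2 s hs
      · exact s2.2 s hs
      · exact s3.2 s hs
      · exact s4.2 s hs
      · exact f2.2 s hs
  have hct : ∀ x ∈ T, Ct A B n x.2 := by
    intro x hx
    rw [hT, List.mem_cons] at hx
    rcases hx with rfl | hx
    · exact htc
    · rw [List.mem_flatMap] at hx
      obtain ⟨I, hI, hx⟩ := hx
      exact (hIct I hI).perm (Inst.perm_syms I x hx).symm
  have hlt : ∀ x ∈ T, cod D L 0 x.2 < 2 ^ kk := fun x hx => lt_of_lt_of_le (hct x hx).cod_lt a8'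
  -- packing
  have hsum : ∀ t : ℕ, sumL (sumL (coreV t D L)) cores = pack (2 ^ t) D L (insts.flatMap Inst.po) := by
    intro t
    rw [sumL_eq, hinsts, List.flatMap_assoc, pack_flatMap]
    congr 1
    apply List.map_congr_left
    intro l _
    rw [sumL_eq, List.flatMap_assoc, pack_flatMap]
    congr 1
    apply List.map_congr_left
    intro x _
    exact coreV_eq t D L x
  have ea : ∀ a b, Nat.add a b = a + b := fun _ _ => rfl
  rw [hsum, hsum, sh_eq, codF_eq, ea, ea] at h'
  have hN : 4 * (2 ^ s) ^ cod D L 0 target + pack (2 ^ s) D L (insts.flatMap Inst.po) =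
      ∑ i ∈ Finset.range (2 ^ kk), Cf D L T i * (2 ^ s) ^ i := by
    rw [← pack_eq_Cf (2 ^ s) (2 ^ kk) T hlt, hT, pack_cons]
  have h1 : 4 + pack (2 ^ 0) D L (insts.flatMap Inst.po) = ∑ i ∈ Finset.range (2 ^ kk), Cf D L T i := by
    have := pack_eq_Cf 1 (2 ^ kk) T hlt
    rw [hT, pack_cons] at this
    simp only [one_pow, mul_one] at this
    rw [pow_zero, this]
  rw [hN, h1] at h'
  have hgood := scan_sound a1 _ kk _ (Cf D L T) rfl h'
  -- values of codes
  classical
  let hv : ℕ → U := fun κ => if hκ : ∃ w, Ct A B n w ∧ cod D L 0 w = κ then evW v hκ.choose else 0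
  have hhv : ∀ w, Ct A B n w → hv (cod D L 0 w) = evW v w := by
    intro w hw
    have hκ : ∃ w', Ct A B n w' ∧ cod D L 0 w' = cod D L 0 w := ⟨w, hw, rfl⟩
    show (if hκ : ∃ w', Ct A B n w' ∧ cod D L 0 w' = cod D L 0 w then evW v hκ.choose else 0) = _
    rw [dif_pos hκ]
    exact evW_eq_of_cod hcm hκ.choose_spec.1 hw hκ.choose_spec.2
  set J := AddSubgroup.closure {u : U | ∃ w, Drop e (target.map toS) w ∧ u = BC.ev g w} with hJ
  have hsumT : evP v T = ∑ κ ∈ Finset.range (2 ^ kk), Cf D L T κ • hv κ := by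
    rw [← lin_lemma hv (2 ^ kk) T hlt]
    unfold evP
    congr 1
    apply List.map_congr_left
    intro x hx
    rw [hhv _ (hct x hx), nsmul_eq_mul]
  have hTJ : evP v T ∈ J := by
    rw [hsumT]
    apply AddSubgroup.sum_mem
    intro κ hκ
    rw [Finset.mem_range] at hκ
    by_cases hz : Cf D L T κ = 0
    · rw [hz, zero_smul]
      exact AddSubgroup.zero_mem _
    rcases hgood κ hκ with h0 | hk
    · have : Cf D L T κ • hv κ = 0 := by
        obtain ⟨m, hm⟩ := Nat.dvd_of_mod_eq_zero h0
        rw [hm, nsmul_eq_mul]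
        push_cast
        rw [h5, zero_mul, zero_mul]
      rw [this]
      exact AddSubgroup.zero_mem _
    · apply AddSubgroup.nsmul_mem
      obtain ⟨x, hx, hxc⟩ := Cf_pos hz
      have hx2 := hct x hx
      rw [← hxc, hhv _ hx2, hev]
      rcases orr_true hk with hk | hk
      · -- bigger first measure
        have hle := ble_true hk
        rw [← hxc, FK_mu hx2] at hle
        refine AddSubgroup.subset_closure ⟨_, ⟨hx2.same htc, Or.inl (Or.inl ?_)⟩, rfl⟩
        rw [mu_toS, mu_toS]
        exact hle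
      rcases orr_true hk with hk | hk
      · -- ends with a letter
        obtain ⟨he, hk⟩ := an_true hk
        obtain ⟨j, hj, hjk⟩ := EK_true _ _ _ _ _ hk
        rw [← hxc, hx2.bf0 hj, hx2.bf1 hj] at hjk
        obtain ⟨w', i, hw'⟩ := ends_letter hx2 hj hjk
        obtain ⟨t, ht⟩ := toS_letter i
        refine AddSubgroup.subset_closure ⟨_, ⟨hx2.same htc, Or.inr ⟨he, w'.map toS, t, ?_⟩⟩, rfl⟩
        rw [hw', List.map_append, List.map_cons, List.map_nil, ht]
      · -- same first measure
        obtain ⟨_, hk⟩ := an_true hk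
        set w := canonO A B D L n κ (Nat.succ (A + B)) 0 0 0 with hw
        obtain ⟨b1, hk⟩ := an_true hk
        obtain ⟨b2, hk⟩ := an_true hk
        obtain ⟨b3, hk⟩ := an_true hk
        obtain ⟨b4, hk⟩ := an_true hk
        obtain ⟨b5, b6⟩ := an_true hk
        replace b1 := smW_true b1
        replace b2 := ble_true b2
        rw [len_eq] at b2
        rw [Nat.beq_eq] at b3 b4 b5
        replace b6 := ble_true b6
        have b2' : w.length ≤ 255 := b2
        have hwc : Ct A B n w := ct_of_cc (by omega) b1 (by omega) (by omega) a4 b3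
        rw [codF_eq] at b4
        have b4' : cod D L 0 w = κ := b4
        have e1 : BC.ev g (x.2.map toS) = BC.ev g (w.map toS) := by
          rw [← hev, ← hev, ← hhv _ hx2, ← hhv _ hwc, hxc, b4']
        rw [e1]
        refine AddSubgroup.subset_closure ⟨_, ⟨hwc.same htc, Or.inl (Or.inr ⟨?_, ?_⟩)⟩, rfl⟩
        · rw [mu_toS, mu_toS]
          exact b5
        · rw [nu_toS, nu_toS]
          exact b6
  -- the instances vanish
  have hrel : evP v (insts.flatMap Inst.po) = 0 := by
    have aux : ∀ l : List Inst, evP v (l.flatMap Inst.po) = 0 := by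
      intro l
      induction l with
      | nil => exact evP_nil
      | cons I l ih =>
        rw [List.flatMap_cons, evP_append, ih, Inst.evP_po h5,
          hsym _ _ _ _ (lm_lie hvS _) (lm_lie hvS _) (lm_lie hvS _) (lm_lie hvS _)]
        simp
    exact aux insts
  rw [hT, evP_cons, hrel, add_zero] at hTJ
  have e4 : (((4 : ℕ) : U)) = -1 := by
    push_cast
    exact Pk.four_eq h5
  simp only [e4, neg_one_mul] at hTJ
  have := J.neg_mem_iff.1 hTJ
  rwa [hev] at this

theorem drop_good {w0 w : List BC.Sy} (h : Drop false w0 w) :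
    BC.Good (BC.mu w0 0) (BC.nu w0 0) (BC.cd w0 0) (BC.cr w0 0) (BC.cq w0 0) (BC.cl w0 0)
      0 0 0 0 0 0 w := by
  obtain ⟨hs, hd⟩ := h
  refine ⟨hs.hi, hs.hj, hs.hk, hs.hh, ?_⟩
  rcases hd with hd | ⟨he, _⟩
  · exact hd
  · exact absurd he (by simp)

end Pool.Agent.MP5c99ad.PW
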