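import Mathlib
import Pool.Agent.Lib.MP_5c99ad_al.BCertG
import Pool.Agent.Lib.MP_5c99ad_al.PWG

set_option autoImplicit false

/-!
The vanishing theorem from windows with the property `PW.WOK`.
-/

namespace Pool.Agent.MP5c99ad.BC

section Step

variable {U : Type} [Ring U]

theorem window_stepW {X : Mk → U} {Y : Set U} {A : Type} [AddCommGroup A] {φ : U →+ A}
    (hS : Setting X Y φ) (hR : ∀ y ∈ Y, ∀ v, φ (v * y) = 0) (e : Bool) (w0 : List Sy)
    (hc : PW.WOK e w0)
    (y : Lt → U) (hy : ∀ t, y t ∈ Y) (P T : List (Mk ⊕ U)) (heT : e = true → T = [])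
    {I J K H : Nat}
    (hcont : Cont Y I J K H (P ++ w0.map (th y) ++ T))
    (ih : ∀ w : List (Mk ⊕ U), Cont Y I J K H w → Mz (P ++ w0.map (th y) ++ T) < Mz w →
      φ (evG X w) = 0) : φ (evG X (P ++ w0.map (th y) ++ T)) = 0 := by
  let g : Sy → U := fun s => Sum.elim X id (th y s)
  have hg : Comm g := ⟨hS.rd, hS.qd, fun s t => hS.yy _ (hy s) _ (hy t)⟩
  have hgS : ∀ l, g l ∈ Set.range X ∪ Y := by
    intro l
    cases l with
    | d => exact Or.inl ⟨.d, rfl⟩
    | r => exact Or.inl ⟨.r, rfl⟩
    | q => exact Or.inl ⟨.q, rfl⟩
    | l t => exact Or.inr (hy t)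
  have key := hc U g hS.five hg _ hgS hS.sym
  have hev : evG X (w0.map (th y)) = ev g w0 := evG_th X y w0
  rw [evG_append, evG_append, hev]
  have gen : ∀ u ∈ AddSubgroup.closure {u : U | ∃ w, PW.Drop e w0 w ∧ u = ev g w},
      φ (evG X P * u * evG X T) = 0 := by
    intro u hu
    induction hu using AddSubgroup.closure_induction with
    | mem u hu =>
      obtain ⟨w, hw, rfl⟩ := hu
      obtain ⟨hw, hd⟩ := hw
      have e1 : evG X P * ev g w * evG X T = evG X (P ++ w.map (th y) ++ T) := by
        rw [evG_append, evG_append, evG_th]
      rw [e1]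
      have hd2 : (mu w0 0 < mu w 0 ∨ (mu w 0 = mu w0 0 ∧ nu w0 0 < nu w 0)) ∨
          φ (evG X (P ++ w.map (th y) ++ T)) = 0 := by
        rcases hd with hd | ⟨he, w', t, rfl⟩
        · exact Or.inl hd
        · right
          rw [heT he, List.append_nil]
          have e2 : evG X (P ++ (w' ++ [Sy.l t]).map (th y)) =
              evG X (P ++ w'.map (th y)) * y t := by
            rw [List.map_append, ← List.append_assoc, evG_append]
            congr 1
            simp [evG, th]
          rw [e2]
          exact hR _ (hy t) _
      rcases hd2 with hm | h0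
      swap
      · exact h0
      have d1 : gd (w.map (th y)) = gd (w0.map (th y)) := by
        have a1 := gd_th y w 0; have a2 := gd_th y w0 0; have := hw.hi; omega
      have d2 : gr (w.map (th y)) = gr (w0.map (th y)) := by
        have a1 := gr_th y w 0; have a2 := gr_th y w0 0; have := hw.hj; omega
      have d3 : gq (w.map (th y)) = gq (w0.map (th y)) := by
        have a1 := gq_th y w 0; have a2 := gq_th y w0 0; have := hw.hk; omega
      have d4 : gl (w.map (th y)) = gl (w0.map (th y)) := by
        have a1 := gl_th y w 0; have a2 := gl_th y w0 0; have := hw.hh; omega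
      have dm : gm (w.map (th y)) = gm (w0.map (th y)) := by
        simp only [gm, d1, d2, d3]
      have dM : gm (P ++ w.map (th y) ++ T) = gm (P ++ w0.map (th y) ++ T) := by
        simp only [gm, gd_append, gr_append, gq_append, d1, d2, d3]
      refine ih _ ⟨?_, ?_, ?_, ?_, ?_⟩ ?_
      · rw [← hcont.hi]; simp only [gd_append, d1]
      · rw [← hcont.hj]; simp only [gr_append, d2]
      · rw [← hcont.hk]; simp only [gq_append, d3]
      · rw [← hcont.hh]; simp only [gl_append, d4]
      · intro z hz
        rw [List.mem_append, List.mem_append] at hz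
        rcases hz with (hz | hz) | hz
        · exact hcont.hy z (by simp [hz])
        · obtain ⟨s, _, hs⟩ := List.mem_map.1 hz
          cases s with
          | d => exact absurd hs (by simp [th])
          | r => exact absurd hs (by simp [th])
          | q => exact absurd hs (by simp [th])
          | l t =>
            have : y t = z := by simpa [th] using hs
            rw [← this]; exact hy t
        · exact hcont.hy z (by simp [hz])
      · unfold Mz
        rw [dM]
        have hnu := gnu_ub (P ++ w0.map (th y) ++ T)
        set G := gm (P ++ w0.map (th y) ++ T) with hG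
        rcases hm with h1 | ⟨h1, h2⟩
        · have h3 : gmu (P ++ w0.map (th y) ++ T) 0 < gmu (P ++ w.map (th y) ++ T) 0 := by
            rw [gmu_append, gmu_append, gmu_append, gmu_append]
            refine gmu_lt T ?_
            rw [gmu_lin (w0.map (th y)), gmu_lin (w.map (th y)), dm, gmu_th, gmu_th]
            omega
          have h4 : (gmu (P ++ w0.map (th y) ++ T) 0 + 1) * 3 ^ G ≤
              gmu (P ++ w.map (th y) ++ T) 0 * 3 ^ G := Nat.mul_le_mul_right _ h3
          rw [add_mul, one_mul] at h4
          omega
        · have h3 : gmu (P ++ w0.map (th y) ++ T) 0 = gmu (P ++ w.map (th y) ++ T) 0 := by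
            rw [gmu_append, gmu_append, gmu_append, gmu_append]
            congr 1
            rw [gmu_lin (w0.map (th y)), gmu_lin (w.map (th y)), dm, gmu_th, gmu_th, h1]
          have h4 : gnu (P ++ w0.map (th y) ++ T) 0 < gnu (P ++ w.map (th y) ++ T) 0 := by
            rw [gnu_append, gnu_append, gnu_append, gnu_append]
            refine gnu_lt T ?_
            rw [gnu_lin (w0.map (th y)), gnu_lin (w.map (th y)), dm, gnu_th, gnu_th]
            omega
          rw [h3]
          omega
    | zero => simp
    | add a b _ _ ha hb => rw [mul_add, add_mul, map_add, ha, hb, add_zero]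
    | neg a _ ha => rw [mul_neg, neg_mul, map_neg, ha, neg_zero]
  exact gen _ key

end Step

/-- an interior window -/
structure PWin where
  /-- the pattern -/
  wp : List (Mk × Nat)
  /-- the window property -/
  ok : PW.WOK false (cw wp 0)
  /-- the pattern is nonempty -/
  ne : wp ≠ []
  /-- at most six letters -/
  le : tot wp ≤ 6

/-- a right-end window -/
structure PWinR where
  /-- the pattern -/
  wp : List (Mk × Nat)
  /-- the window property -/
  ok : PW.WOK true (cw wp 0)
  /-- at most six letters -/
  le : tot wp ≤ 6

section Vanish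

variable {U : Type} [Ring U]

theorem vanish3 {X : Mk → U} {Y : Set U} {A : Type} [AddCommGroup A] {φ : U →+ A}
    (hS : Setting X Y φ) (hR : ∀ y ∈ Y, ∀ v, φ (v * y) = 0) (h0 : (0 : U) ∈ Y)
    (W : List PWin) (WR : List PWinR) (n I J K : Nat) (hn : n + 1 = I + J + K)
    (hcov : covT (hit (W.map PWin.wp) (WR.map PWinR.wp)) n I J K = true)
    (h3 : ∀ m : Mk, ∃ x ∈ W, x.wp = [(m, 3)]) (H : Nat) :
    ∀ w : List (Mk ⊕ U), Cont Y I J K H w → φ (evG X w) = 0 := by
  have hbound : ∀ w : List (Mk ⊕ U), Cont Y I J K H w →
      Mz w ≤ H * 100 ^ (I + J + K) * 3 ^ (I + J + K) + 3 ^ (I + J + K) := by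
    intro w hw
    have hgm : gm w = I + J + K := by rw [gm, hw.hi, hw.hj, hw.hk]
    have h1 := gmu_le w 0
    rw [hgm, hw.hh, zero_add] at h1
    have h2 := gnu_ub w
    rw [hgm] at h2
    unfold Mz
    rw [hgm]
    have := Nat.mul_le_mul_right (3 ^ (I + J + K)) h1
    omega
  have main : ∀ N : Nat, ∀ w : List (Mk ⊕ U), Cont Y I J K H w →
      H * 100 ^ (I + J + K) * 3 ^ (I + J + K) + 3 ^ (I + J + K) - Mz w = N →
      φ (evG X w) = 0 := by
    intro N
    induction N using Nat.strong_induction_on with
    | _ N ih =>
      intro w hw hN
      rcases exists_blocks w with ⟨y, v, rfl⟩ | ⟨B, rfl⟩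
      · have e : evG X (Sum.inr y :: v) = y * evG X v := by simp [evG]
        rw [e]
        exact hS.left y (hw.hy y (by simp)) _
      · -- the last block
        rcases List.eq_nil_or_concat B with rfl | ⟨B', b, hB'⟩
        · exfalso
          have h1 := hw.hi
          have h2 := hw.hj
          have h3 := hw.hk
          simp only [flat, gd, gr, gq] at h1 h2 h3
          omega
        · obtain ⟨m, Al⟩ := b
          rw [List.concat_eq_append] at hB'
          rcases List.eq_nil_or_concat Al with rfl | ⟨A', z, hA'⟩
          · -- the last gap is empty: find a matching window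
            have hm : (∃ (x : PWin) (B1 B2 : List (Mk × List U)), B = B1 ++ B2 ∧
                pm x.wp (pat B2) = true) ∨
                (∃ (x : PWinR) (B1 B2 : List (Mk × List U)), B = B1 ++ B2 ∧
                pat B2 = x.wp) := by
              by_cases hb : ∃ b ∈ B, 3 ≤ b.2.length
              · left
                obtain ⟨b, hb, hlen⟩ := hb
                obtain ⟨B1, B2, rfl⟩ := List.append_of_mem hb
                obtain ⟨m, A⟩ := b
                obtain ⟨x, _, hx⟩ := h3 m
                refine ⟨x, B1, (m, A) :: B2, rfl, ?_⟩
                rw [hx]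
                have e1 : beqM m m = true := by cases m <;> rfl
                have e2 : Nat.ble 3 A.length = true := Nat.ble_eq_true_of_le hlen
                show band (beqM m m) (Nat.ble 3 A.length) = true
                rw [e1, e2]
                rfl
              · have hpr : (pat B).reverse = (m, 0) :: (pat B').reverse := by
                  rw [hB']; simp [pat]
                have hb' : ∀ x ∈ (pat B').reverse, x.2 ≤ 2 := by
                  intro x hx
                  rw [List.mem_reverse, pat, List.mem_map] at hx
                  obtain ⟨b, hb2, rfl⟩ := hx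
                  have : ¬ 3 ≤ b.2.length := fun hc => hb ⟨b, by rw [hB']; simp [hb2], hc⟩
                  show b.2.length ≤ 2
                  omega
                have hd : pc .d ((m, 0) :: (pat B').reverse) = I := by
                  rw [← hpr, pc_reverse, pc_d, hw.hi]
                have hr : pc .r ((m, 0) :: (pat B').reverse) = J := by
                  rw [← hpr, pc_reverse, pc_r, hw.hj]
                have hq : pc .q ((m, 0) :: (pat B').reverse) = K := by
                  rw [← hpr, pc_reverse, pc_q, hw.hk]
                have hlen : (pat B').reverse.length = n := by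
                  have h1 := length_pc ((m, 0) :: (pat B').reverse)
                  rw [hd, hr, hq, List.length_cons] at h1
                  omega
                obtain ⟨s1, s2, hs, hf⟩ := covT_sound _ n I J K hcov m (pat B').reverse hlen
                  hd hr hq hb'
                rw [← hpr, List.reverse_reverse] at hs
                obtain ⟨B1, B2, hB, h1, h2⟩ := List.map_eq_append_iff.1 hs
                rcases bor_true hf with hf | hf
                · left
                  obtain ⟨wp, hwp, hpm⟩ := found_mem hf
                  obtain ⟨x, _, rfl⟩ := List.mem_map.1 hwp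
                  refine ⟨x, B1, B2, hB, ?_⟩
                  rw [← h2] at hpm
                  exact hpm
                · right
                  have hmem := foundR_mem hf
                  obtain ⟨x, _, hx⟩ := List.mem_map.1 hmem
                  exact ⟨x, B1, B2, hB, by rw [hx, ← h2]; rfl⟩
            have hyz : ∀ yl : List U, (∀ z ∈ yl, z ∈ Y) → ∀ t : Lt, yl.getD (rk t) 0 ∈ Y := by
              intro yl hyl t
              by_cases hlt : rk t < yl.length
              · rw [List.getD_eq_getElem _ _ hlt]
                exact hyl _ (List.getElem_mem hlt)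
              · rw [List.getD_eq_default _ _ (by omega)]
                exact h0
            rcases hm with ⟨x, B1, B2, hB, hpm⟩ | ⟨x, B1, B2, hB, hpm⟩
            · obtain ⟨yl, T, _, hz, _, hf⟩ := match_flat x.wp B2 [] x.ne hpm
                (by simpa using x.le)
              have hw2 := hw
              have hw3 := hw
              rw [hB, flat_append, hf, ← List.append_assoc] at hw2
              rw [hB, flat_append, hf, ← List.append_assoc] at hN ⊢
              refine window_stepW hS hR false (cw x.wp 0) x.ok (fun t => yl.getD (rk t) 0)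
                (hyz yl ?_) (flat B1) T (fun h => absurd h (by simp)) hw2 ?_
              · intro z hz'
                rcases hz z hz' with h | h
                · simp at h
                · exact hw3.hy z (by rw [hB, flat_append]; simp [h])
              · intro v hv hlt
                have hb1 := hbound v hv
                exact ih _ (by simp only [List.length_nil] at hN; omega) v hv rfl
            · obtain ⟨yl, _, hz, _, hf⟩ := match_exact B2 [] (by rw [hpm]; simpa using x.le)
              have hw2 := hw
              have hw3 := hw
              rw [hpm] at hf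
              rw [hB, flat_append, hf, ← List.append_nil (flat B1 ++ _)] at hw2
              rw [hB, flat_append, hf, ← List.append_nil (flat B1 ++ _)] at hN ⊢
              refine window_stepW hS hR true (cw x.wp 0) x.ok (fun t => yl.getD (rk t) 0)
                (hyz yl ?_) (flat B1) [] (fun _ => rfl) hw2 ?_
              · intro z hz'
                rcases hz z hz' with h | h
                · simp at h
                · exact hw3.hy z (by rw [hB, flat_append]; simp [h])
              · intro v hv hlt
                have hb1 := hbound v hv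
                exact ih _ (by simp only [List.length_nil] at hN; omega) v hv rfl
          · -- the word ends with a letter
            rw [List.concat_eq_append] at hA'
            have e : flat B = flat B' ++ (Sum.inl m :: A'.map .inr) ++ [Sum.inr z] := by
              rw [hB', flat_append, hA']
              simp [flat]
            rw [e, evG_append]
            have e2 : evG X [Sum.inr z] = z := by simp [evG]
            rw [e2]
            exact hR z (hw.hy z (by rw [e]; simp)) _
  intro w hw
  exact main _ w hw rfl

/-- the marks: `d` is the second one (2 times), `r` the first one (5 times) -/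
def XM3 (X : Fin 2 → U) : Mk → U
  | .d => X 1
  | .r => X 0
  | .q => X 0

theorem mword_list3 {X : Fin 2 → U} {Y : Set U} {k : Fin 2 → ℕ} {w : U} (h : MWord X Y k w) :
    ∃ l : List (Mk ⊕ U), evG (XM3 X) l = w ∧ gd l = k 1 ∧ gr l = k 0 ∧ gq l = 0 ∧
      ∀ y, Sum.inr y ∈ l → y ∈ Y := by
  have hbase : ∀ s ∈ Submonoid.closure Y, ∃ L : List U, (∀ y ∈ L, y ∈ Y) ∧ L.prod = s :=
    fun s hs => Submonoid.exists_list_of_mem_closure hs
  have hev : ∀ L : List U, evG (XM3 X) (L.map .inr) = L.prod := by
    intro L
    simp only [evG, List.map_map]
    congr 1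
    induction L with
    | nil => rfl
    | cons y L ih => simp
  induction h with
  | base s hs =>
    obtain ⟨L, hL, rfl⟩ := hbase s hs
    refine ⟨L.map .inr, hev L, ?_, ?_, ?_, ?_⟩
    · rw [gd_inr]; rfl
    · rw [gr_inr]; rfl
    · rw [gq_inr]
    · intro y hy
      simp only [List.mem_map, Sum.inr.injEq, exists_eq_right] at hy
      exact hL y hy
  | step k i w s _ hs ih =>
    obtain ⟨l, rfl, hd, hr, hq, hy⟩ := ih
    obtain ⟨L, hL, rfl⟩ := hbase s hs
    have hmem : ∀ m : Mk, ∀ y, Sum.inr y ∈ l ++ Sum.inl m :: L.map .inr → y ∈ Y := by
      intro m y h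
      simp only [List.mem_append, List.mem_cons, reduceCtorEq, List.mem_map, Sum.inr.injEq,
        exists_eq_right, false_or] at h
      rcases h with h | h
      · exact hy y h
      · exact hL y h
    have hev2 : ∀ m : Mk, evG (XM3 X) (l ++ Sum.inl m :: L.map .inr) =
        evG (XM3 X) l * XM3 X m * L.prod := by
      intro m
      have e1 : evG (XM3 X) (Sum.inl m :: L.map .inr) = XM3 X m * evG (XM3 X) (L.map .inr) := by
        simp [evG]
      rw [evG_append, e1, hev, mul_assoc]
    have cons : ∀ m : Mk, gd (l ++ Sum.inl m :: L.map .inr) = gd l + (gd [(Sum.inl m : Mk ⊕ U)]) ∧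
        gr (l ++ Sum.inl m :: L.map .inr) = gr l + (gr [(Sum.inl m : Mk ⊕ U)]) ∧
        gq (l ++ Sum.inl m :: L.map .inr) = gq l + (gq [(Sum.inl m : Mk ⊕ U)]) := by
      intro m
      have e : l ++ Sum.inl m :: L.map .inr = l ++ [Sum.inl m] ++ L.map .inr := by simp
      rw [e, gd_append, gr_append, gq_append, gd_append, gr_append, gq_append, gd_inr, gr_inr,
        gq_inr]
      exact ⟨rfl, rfl, rfl⟩
    fin_cases i
    · obtain ⟨c1, c2, c3⟩ := cons .r
      refine ⟨l ++ Sum.inl .r :: L.map .inr, hev2 .r, ?_, ?_, ?_, hmem .r⟩
      · rw [c1, hd]; simp [gd]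
      · rw [c2, hr]; simp [gr]
      · rw [c3, hq]; simp [gq]
    · obtain ⟨c1, c2, c3⟩ := cons .d
      refine ⟨l ++ Sum.inl .d :: L.map .inr, hev2 .d, ?_, ?_, ?_, hmem .d⟩
      · rw [c1, hd]; simp [gd]
      · rw [c2, hr]; simp [gr]
      · rw [c3, hq]; simp [gq]

end Vanish

/-- The certificate theorem with content `X 0` (J times), `X 1` (I times). -/
theorem t1gen_of3 (n I J : Nat) (hn : n + 1 = I + J) (W : List PWin) (WR : List PWinR)
    (hcov : covT (hit (W.map PWin.wp) (WR.map PWinR.wp)) n I J 0 = true)
    (h3 : ∀ m : Mk, ∃ x ∈ W, x.wp = [(m, 3)]) (E : Fin 2 → Fin 2 → Prop) (hE01 : E 0 1) :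
    T1Gen.{0} E ![J, I] := by
  intro U _ h5 X Y hyy hE hsym A _ φ hleft hright w hw
  obtain ⟨l, rfl, hd, hr, hq, hy⟩ := mword_list3 hw
  have hS : Setting (XM3 X) (insert 0 Y) φ := by
    refine ⟨h5, hE 0 1 hE01, hE 0 1 hE01, ?_, ?_, ?_⟩
    · intro y hy z hz
      rcases hy with rfl | hy
      · simp
      · rcases hz with rfl | hz
        · simp
        · exact hyy y hy z hz
    · intro u1 u2 u3 u4 h1 h2 h3 h4
      have hr : Set.range (XM3 X) ∪ insert 0 Y ⊆ insert 0 (Set.range X ∪ Y) := by
        rintro u (⟨m, rfl⟩ | hu)
        · right; left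
          cases m
          · exact ⟨1, rfl⟩
          · exact ⟨0, rfl⟩
          · exact ⟨0, rfl⟩
        · rcases hu with rfl | hu
          · exact Or.inl rfl
          · exact Or.inr (Or.inr hu)
      have hmono : ∀ u, LieMonS (Set.range (XM3 X) ∪ insert 0 Y) u →
          u = 0 ∨ LieMonS (Set.range X ∪ Y) u := by
        intro u hu
        refine lie0 ?_
        induction hu with
        | letter y hy => exact LieMonS.letter y (hr hy)
        | br a b _ _ iha ihb => exact LieMonS.br a b iha ihb
      rcases hmono u1 h1 with rfl | h1
      · simp [sym4]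
      rcases hmono u2 h2 with rfl | h2
      · simp [sym4]
      rcases hmono u3 h3 with rfl | h3
      · simp [sym4]
      rcases hmono u4 h4 with rfl | h4
      · simp [sym4]
      exact hsym u1 u2 u3 u4 h1 h2 h3 h4
    · intro y hy v
      rcases hy with rfl | hy
      · simp
      · exact hleft y hy v
  have hR : ∀ y ∈ (insert 0 Y : Set U), ∀ v, φ (v * y) = 0 := by
    intro y hy v
    rcases hy with rfl | hy
    · simp
    · exact hright y hy v
  exact vanish3 hS hR (Or.inl rfl) W WR n I J 0 (by omega) hcov h3 (gl l) l
    ⟨hd, hr, hq, rfl, fun y h => Or.inr (hy y h)⟩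

end Pool.Agent.MP5c99ad.BC
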