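import Mathlib
import Pool.Agent.Lib.MP_5c99ad_al.ClassA

set_option autoImplicit false

/-!
A fast kernel checker for identities between noncommutative polynomials in the letters
`p a | r q | x y` (the letters `p, a` commute with `r, q`), used for the block laws.
Written in continuation style with raw recursors for speed.
-/

namespace Pool.Agent.MP5c99ad.H90

/-- the letters -/
inductive L : Type
  | p | a | r | q | x | y

/-- a trie with natural numbers at the nodes -/
inductive Tr : Type
  | e : Tr
  | n : Nat → Tr → Tr → Tr → Tr → Tr → Tr → Tr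

/-- insertion of the monomial `c * w` into the trie, continuation style -/
noncomputable def insK (w : List L) : Nat → Tr → (Tr → Bool) → Bool :=
  @List.rec L (fun _ => Nat → Tr → (Tr → Bool) → Bool)
    (fun c t k => @Tr.rec (fun _ => Bool)
      (k (Tr.n c Tr.e Tr.e Tr.e Tr.e Tr.e Tr.e))
      (fun v t1 t2 t3 t4 t5 t6 _ _ _ _ _ _ => k (Tr.n (Nat.add v c) t1 t2 t3 t4 t5 t6)) t)
    (fun l _ ih c t k => @Tr.rec (fun _ => Bool)
      (@L.rec (fun _ => Bool)
        (ih c Tr.e (fun s => k (Tr.n Nat.zero s Tr.e Tr.e Tr.e Tr.e Tr.e)))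
        (ih c Tr.e (fun s => k (Tr.n Nat.zero Tr.e s Tr.e Tr.e Tr.e Tr.e)))
        (ih c Tr.e (fun s => k (Tr.n Nat.zero Tr.e Tr.e s Tr.e Tr.e Tr.e)))
        (ih c Tr.e (fun s => k (Tr.n Nat.zero Tr.e Tr.e Tr.e s Tr.e Tr.e)))
        (ih c Tr.e (fun s => k (Tr.n Nat.zero Tr.e Tr.e Tr.e Tr.e s Tr.e)))
        (ih c Tr.e (fun s => k (Tr.n Nat.zero Tr.e Tr.e Tr.e Tr.e Tr.e s))) l)
      (fun v t1 t2 t3 t4 t5 t6 _ _ _ _ _ _ => @L.rec (fun _ => Bool)
        (ih c t1 (fun s => k (Tr.n v s t2 t3 t4 t5 t6)))
        (ih c t2 (fun s => k (Tr.n v t1 s t3 t4 t5 t6)))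
        (ih c t3 (fun s => k (Tr.n v t1 t2 s t4 t5 t6)))
        (ih c t4 (fun s => k (Tr.n v t1 t2 t3 s t5 t6)))
        (ih c t5 (fun s => k (Tr.n v t1 t2 t3 t4 s t6)))
        (ih c t6 (fun s => k (Tr.n v t1 t2 t3 t4 t5 s))) l) t) w

/-- prepend a letter of the second block to a normal word -/
noncomputable def pre2 (c : L) (w : List L) : List L :=
  @List.rec L (fun _ => List L) (c :: [])
    (fun d w ih => @L.rec (fun _ => List L) (d :: ih) (d :: ih) (c :: d :: w) (c :: d :: w)
      (c :: d :: w) (c :: d :: w) d) w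

/-- prepend a letter to a normal word -/
noncomputable def pre (c : L) (w : List L) : List L :=
  @L.rec (fun _ => List L) (c :: w) (c :: w) (pre2 c w) (pre2 c w) (c :: w) (c :: w) c

/-- prepend a word to a normal word -/
noncomputable def preW (w s : List L) : List L :=
  @List.rec L (fun _ => List L) s (fun c _ ih => pre c ih) w

/-- sum of actions over a list, continuation style -/
noncomputable def sumK {α : Type} (f : α → Tr → (Tr → Bool) → Bool) (l : List α) :
    Tr → (Tr → Bool) → Bool :=
  @List.rec α (fun _ => Tr → (Tr → Bool) → Bool) (fun t k => k t)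
    (fun h _ ih t k => f h t (fun t' => ih t' k)) l

/-- insertion of all words `u * σ(w) * s`, where `σ` replaces `x, y` by the polynomials `X, Y`;
the word `w` is given reversed -/
noncomputable def run (X Y : List (Nat × List L)) (u : List L) (w : List L) :
    List L → Nat → Tr → (Tr → Bool) → Bool :=
  @List.rec L (fun _ => List L → Nat → Tr → (Tr → Bool) → Bool)
    (fun s c => insK (preW u s) c)
    (fun l _ ih s c => @L.rec (fun _ => Tr → (Tr → Bool) → Bool)
      (ih (pre l s) c) (ih (pre l s) c) (ih (pre l s) c) (ih (pre l s) c)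
      (sumK (fun h => ih (preW h.2 s) (Nat.mul c h.1)) X)
      (sumK (fun h => ih (preW h.2 s) (Nat.mul c h.1)) Y) l) w

/-- `P * d` -/
noncomputable def polR (d : L) (P : List (Nat × List L)) : List (Nat × List L) :=
  P.map (fun h => (h.1, h.2 ++ [d]))

/-- `- d * P` (mod 5) -/
noncomputable def polL (d : L) (P : List (Nat × List L)) : List (Nat × List L) :=
  P.map (fun h => (Nat.mul 4 h.1, d :: h.2))

/-- the left-normed bracket of a list of letters; the list is given reversed -/
noncomputable def brP (l : L) (ds : List L) : List (Nat × List L) :=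
  @List.rec L (fun _ => List (Nat × List L)) [(1, [l])]
    (fun d _ ih => polR d ih ++ polL d ih) ds

/-- all values divisible by 5 -/
noncomputable def allz (t : Tr) : Bool :=
  @Tr.rec (fun _ => Bool) true
    (fun v _ _ _ _ _ _ h1 h2 h3 h4 h5 h6 =>
      @Bool.rec (fun _ => Bool) false
        (@Bool.rec (fun _ => Bool) false
          (@Bool.rec (fun _ => Bool) false
            (@Bool.rec (fun _ => Bool) false
              (@Bool.rec (fun _ => Bool) false
                (@Bool.rec (fun _ => Bool) false h6 h5) h4) h3) h2) h1)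
        (Nat.beq (Nat.mod v 5) 0)) t

/-- the 24 words of `sym4` -/
def words4 (l1 l2 l3 l4 : L) : List (List L) :=
  [[l1, l2, l3, l4], [l1, l2, l4, l3], [l1, l3, l2, l4], [l1, l3, l4, l2], [l1, l4, l2, l3],
   [l1, l4, l3, l2], [l2, l1, l3, l4], [l2, l1, l4, l3], [l2, l3, l1, l4], [l2, l3, l4, l1],
   [l2, l4, l1, l3], [l2, l4, l3, l1], [l3, l1, l2, l4], [l3, l1, l4, l2], [l3, l2, l1, l4],
   [l3, l2, l4, l1], [l3, l4, l1, l2], [l3, l4, l2, l1], [l4, l1, l2, l3], [l4, l1, l3, l2],
   [l4, l2, l1, l3], [l4, l2, l3, l1], [l4, l3, l1, l2], [l4, l3, l2, l1]]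

/-- the check of a schema -/
noncomputable def tabCheck (l1 l2 l3 l4 : L) (tb : List (Nat × List L)) : Bool :=
  sumK (fun h : Nat × List L => insK (preW (h.2.reverse) []) h.1) tb Tr.e
    (fun t => sumK (fun w : List L => insK (preW w []) 4) (words4 l1 l2 l3 l4) t allz)

/-- a relation schema: four letters and a list of monomials (words reversed) -/
structure Tab where
  l1 : L
  l2 : L
  l3 : L
  l4 : L
  tb : List (Nat × List L)
  ok : tabCheck l1 l2 l3 l4 tb = true

/-- an item of a certificate -/
structure Item where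
  k : Nat
  tab : Tab
  u : List L
  X : L
  Xs : List L
  Y : L
  Ys : List L
  v : List L

/-- the action of an item -/
noncomputable def itemK (i : Item) : Tr → (Tr → Bool) → Bool :=
  sumK (fun h => run (brP i.X i.Xs) (brP i.Y i.Ys) i.u h.2 i.v (Nat.mul i.k h.1)) i.tab.tb

/-- the check: the items sum up to minus the target -/
noncomputable def check (items : List Item) (target : List (Nat × List L)) : Bool :=
  sumK itemK items Tr.e (fun t => sumK (fun h => insK (preW h.2 []) h.1) target t allz)

end Pool.Agent.MP5c99ad.H90
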