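import Mathlib
import Pool.Agent.Lib.MP_5c99ad_al.CertA
import Pool.Agent.Lib.MP_5c99ad_al.LawC

set_option autoImplicit false

/-!
Soundness of the kernel checker of `CertA`.
-/

namespace Pool.Agent.MP5c99ad.H90

variable {U : Type} [Ring U]

/-- the value of a word -/
def ev (g : L → U) (w : List L) : U := (w.map g).prod

@[simp] theorem ev_nil (g : L → U) : ev g [] = 1 := rfl

@[simp] theorem ev_cons (g : L → U) (l : L) (w : List L) : ev g (l :: w) = g l * ev g w := by
  simp [ev]

theorem ev_append (g : L → U) (w s : List L) : ev g (w ++ s) = ev g w * ev g s := by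
  simp [ev]

/-- the value of a trie -/
def val (g : L → U) : Tr → U
  | Tr.e => 0
  | Tr.n v t1 t2 t3 t4 t5 t6 =>
    (v : U) + (g .p * val g t1 + g .a * val g t2 + g .r * val g t3 + g .q * val g t4 +
      g .x * val g t5 + g .y * val g t6)

/-- the two blocks commute -/
structure Comm (g : L → U) : Prop where
  rp : g .r * g .p = g .p * g .r
  ra : g .r * g .a = g .a * g .r
  qp : g .q * g .p = g .p * g .q
  qa : g .q * g .a = g .a * g .q

/-- the action `A` adds `d` -/
def Adds (g : L → U) (A : Tr → (Tr → Bool) → Bool) (d : U) : Prop :=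
  ∀ t k, ∃ t', A t k = k t' ∧ val g t' = val g t + d

theorem adds_insK (g : L → U) (w : List L) (c : Nat) : Adds g (insK w c) ((c : U) * ev g w) := by
  induction w with
  | nil =>
    intro t k
    cases t with
    | e => exact ⟨Tr.n c Tr.e Tr.e Tr.e Tr.e Tr.e Tr.e, rfl, by simp [val]⟩
    | n v t1 t2 t3 t4 t5 t6 =>
      refine ⟨Tr.n (v + c) t1 t2 t3 t4 t5 t6, rfl, ?_⟩
      simp only [val, ev_nil, mul_one, Nat.cast_add]
      abel
  | cons l w ih =>
    have e1 : ∀ a b d : U, d = b + (c : U) * ev g w → a * d = a * b + (c : U) * (a * ev g w) := by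
      intro a b d h
      rw [h, mul_add, ← mul_assoc, ← mul_assoc, Nat.cast_comm]
    intro t k
    cases t with
    | e =>
      cases l with
      | p =>
        obtain ⟨s, hs1, hs2⟩ := ih Tr.e (fun s => k (Tr.n Nat.zero s Tr.e Tr.e Tr.e Tr.e Tr.e))
        refine ⟨_, hs1, ?_⟩
        have := e1 (g .p) _ _ hs2
        simp only [val, ev_cons, Nat.cast_zero, mul_zero, add_zero, zero_add] at this ⊢
        simpa using this
      | a =>
        obtain ⟨s, hs1, hs2⟩ := ih Tr.e (fun s => k (Tr.n Nat.zero Tr.e s Tr.e Tr.e Tr.e Tr.e))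
        refine ⟨_, hs1, ?_⟩
        have := e1 (g .a) _ _ hs2
        simp only [val, ev_cons, Nat.cast_zero, mul_zero, add_zero, zero_add] at this ⊢
        simpa using this
      | r =>
        obtain ⟨s, hs1, hs2⟩ := ih Tr.e (fun s => k (Tr.n Nat.zero Tr.e Tr.e s Tr.e Tr.e Tr.e))
        refine ⟨_, hs1, ?_⟩
        have := e1 (g .r) _ _ hs2
        simp only [val, ev_cons, Nat.cast_zero, mul_zero, add_zero, zero_add] at this ⊢
        simpa using this
      | q =>
        obtain ⟨s, hs1, hs2⟩ := ih Tr.e (fun s => k (Tr.n Nat.zero Tr.e Tr.e Tr.e s Tr.e Tr.e))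
        refine ⟨_, hs1, ?_⟩
        have := e1 (g .q) _ _ hs2
        simp only [val, ev_cons, Nat.cast_zero, mul_zero, add_zero, zero_add] at this ⊢
        simpa using this
      | x =>
        obtain ⟨s, hs1, hs2⟩ := ih Tr.e (fun s => k (Tr.n Nat.zero Tr.e Tr.e Tr.e Tr.e s Tr.e))
        refine ⟨_, hs1, ?_⟩
        have := e1 (g .x) _ _ hs2
        simp only [val, ev_cons, Nat.cast_zero, mul_zero, add_zero, zero_add] at this ⊢
        simpa using this
      | y =>
        obtain ⟨s, hs1, hs2⟩ := ih Tr.e (fun s => k (Tr.n Nat.zero Tr.e Tr.e Tr.e Tr.e Tr.e s))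
        refine ⟨_, hs1, ?_⟩
        have := e1 (g .y) _ _ hs2
        simp only [val, ev_cons, Nat.cast_zero, mul_zero, add_zero, zero_add] at this ⊢
        simpa using this
    | n v t1 t2 t3 t4 t5 t6 =>
      cases l with
      | p =>
        obtain ⟨s, hs1, hs2⟩ := ih t1 (fun s => k (Tr.n v s t2 t3 t4 t5 t6))
        refine ⟨_, hs1, ?_⟩
        simp only [val, ev_cons]
        rw [e1 (g .p) _ _ hs2]
        abel
      | a =>
        obtain ⟨s, hs1, hs2⟩ := ih t2 (fun s => k (Tr.n v t1 s t3 t4 t5 t6))
        refine ⟨_, hs1, ?_⟩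
        simp only [val, ev_cons]
        rw [e1 (g .a) _ _ hs2]
        abel
      | r =>
        obtain ⟨s, hs1, hs2⟩ := ih t3 (fun s => k (Tr.n v t1 t2 s t4 t5 t6))
        refine ⟨_, hs1, ?_⟩
        simp only [val, ev_cons]
        rw [e1 (g .r) _ _ hs2]
        abel
      | q =>
        obtain ⟨s, hs1, hs2⟩ := ih t4 (fun s => k (Tr.n v t1 t2 t3 s t5 t6))
        refine ⟨_, hs1, ?_⟩
        simp only [val, ev_cons]
        rw [e1 (g .q) _ _ hs2]
        abel
      | x =>
        obtain ⟨s, hs1, hs2⟩ := ih t5 (fun s => k (Tr.n v t1 t2 t3 t4 s t6))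
        refine ⟨_, hs1, ?_⟩
        simp only [val, ev_cons]
        rw [e1 (g .x) _ _ hs2]
        abel
      | y =>
        obtain ⟨s, hs1, hs2⟩ := ih t6 (fun s => k (Tr.n v t1 t2 t3 t4 t5 s))
        refine ⟨_, hs1, ?_⟩
        simp only [val, ev_cons]
        rw [e1 (g .y) _ _ hs2]
        abel

theorem ev_pre2 {g : L → U} {c : L} (hp : g c * g .p = g .p * g c) (ha : g c * g .a = g .a * g c)
    (w : List L) : ev g (pre2 c w) = g c * ev g w := by
  induction w with
  | nil => simp [pre2]
  | cons d w ih =>
    cases d with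
    | p =>
      show ev g (L.p :: pre2 c w) = _
      rw [ev_cons, ih, ev_cons, ← mul_assoc, ← mul_assoc, hp]
    | a =>
      show ev g (L.a :: pre2 c w) = _
      rw [ev_cons, ih, ev_cons, ← mul_assoc, ← mul_assoc, ha]
    | r => show ev g (c :: L.r :: w) = _; simp
    | q => show ev g (c :: L.q :: w) = _; simp
    | x => show ev g (c :: L.x :: w) = _; simp
    | y => show ev g (c :: L.y :: w) = _; simp

theorem ev_pre {g : L → U} (hg : Comm g) (c : L) (w : List L) : ev g (pre c w) = g c * ev g w := by
  cases c with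
  | p => exact ev_cons g _ w
  | a => exact ev_cons g _ w
  | r => exact ev_pre2 hg.rp hg.ra w
  | q => exact ev_pre2 hg.qp hg.qa w
  | x => exact ev_cons g _ w
  | y => exact ev_cons g _ w

theorem ev_preW {g : L → U} (hg : Comm g) (w s : List L) :
    ev g (preW w s) = ev g w * ev g s := by
  induction w with
  | nil => simp [preW]
  | cons c w ih =>
    show ev g (pre c (preW w s)) = _
    rw [ev_pre hg, ih, ev_cons, mul_assoc]

theorem adds_sumK {α : Type} {g : L → U} {f : α → Tr → (Tr → Bool) → Bool} {d : α → U}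
    (h : ∀ z, Adds g (f z) (d z)) (l : List α) : Adds g (sumK f l) (l.map d).sum := by
  induction l with
  | nil => intro t k; exact ⟨t, rfl, by simp⟩
  | cons z l ih =>
    intro t k
    obtain ⟨t1, h1, h2⟩ := h z t (fun t' => sumK f l t' k)
    obtain ⟨t2, h3, h4⟩ := ih t1 k
    exact ⟨t2, h1.trans h3, by rw [h4, h2, List.map_cons, List.sum_cons, add_assoc]⟩

/-- the value of a polynomial -/
def pev (g : L → U) (P : List (Nat × List L)) : U := (P.map (fun h => (h.1 : U) * ev g h.2)).sum

/-- the substitution -/
def sig (g : L → U) (X Y : U) : L → U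
  | .p => g .p
  | .a => g .a
  | .r => g .r
  | .q => g .q
  | .x => X
  | .y => Y

/-- the value of a reversed word -/
def rev (s : L → U) : List L → U
  | [] => 1
  | l :: w => rev s w * s l

theorem rev_eq (s : L → U) (w : List L) : rev s w = ev s w.reverse := by
  induction w with
  | nil => rfl
  | cons l w ih => rw [rev, ih, List.reverse_cons, ev_append]; simp

theorem adds_congr {g : L → U} {A : Tr → (Tr → Bool) → Bool} {d e : U} (h : Adds g A d)
    (he : d = e) : Adds g A e := he ▸ h

theorem adds_run {g : L → U} (hg : Comm g) (X Y : List (Nat × List L)) (u w : List L) :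
    ∀ (s : List L) (c : Nat), Adds g (run X Y u w s c)
      ((c : U) * (ev g u * rev (sig g (pev g X) (pev g Y)) w * ev g s)) := by
  induction w with
  | nil =>
    intro s c
    refine adds_congr (adds_insK g (preW u s) c) ?_
    rw [ev_preW hg]
    simp [rev]
  | cons l w ih =>
    intro s c
    have key : ∀ Z : List (Nat × List L), Adds g
        (sumK (fun h => run X Y u w (preW h.2 s) (Nat.mul c h.1)) Z)
        ((c : U) * (ev g u * (rev (sig g (pev g X) (pev g Y)) w * pev g Z) * ev g s)) := by
      intro Z
      refine adds_congr (adds_sumK (fun h => ih (preW h.2 s) (Nat.mul c h.1)) Z) ?_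
      induction Z with
      | nil => simp [pev]
      | cons z Z ihZ =>
        rw [List.map_cons, List.sum_cons, ihZ, ev_preW hg]
        have : ((Nat.mul c z.1 : Nat) : U) = (c : U) * (z.1 : U) := Nat.cast_mul c z.1
        rw [this]
        have hz : pev g (z :: Z) = (z.1 : U) * ev g z.2 + pev g Z := by simp [pev]
        rw [hz]
        generalize rev (sig g (pev g X) (pev g Y)) w = R
        generalize pev g Z = PZ
        have hc : ev g u * (R * ((z.1 : U) * ev g z.2)) = (z.1 : U) * (ev g u * (R * ev g z.2)) := by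
          rw [← mul_assoc R, ← Nat.cast_comm, mul_assoc, ← mul_assoc (ev g u), ← Nat.cast_comm,
            mul_assoc]
        rw [mul_add, mul_add, add_mul, mul_add, hc]
        simp only [mul_assoc]
    cases l with
    | p =>
      refine adds_congr (ih (pre .p s) c) ?_
      rw [ev_pre hg]; simp only [rev, sig, mul_assoc]
    | a =>
      refine adds_congr (ih (pre .a s) c) ?_
      rw [ev_pre hg]; simp only [rev, sig, mul_assoc]
    | r =>
      refine adds_congr (ih (pre .r s) c) ?_
      rw [ev_pre hg]; simp only [rev, sig, mul_assoc]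
    | q =>
      refine adds_congr (ih (pre .q s) c) ?_
      rw [ev_pre hg]; simp only [rev, sig, mul_assoc]
    | x => exact key X
    | y => exact key Y


/-- the left-normed bracket -/
def brv (g : L → U) (l : L) : List L → U
  | [] => g l
  | d :: ds => brv g l ds * g d - g d * brv g l ds

theorem pev_brP {g : L → U} (h5 : (5 : U) = 0) (l : L) (ds : List L) :
    pev g (brP l ds) = brv g l ds := by
  induction ds with
  | nil =>
    show pev g [(1, [l])] = _
    simp [pev, brv]
  | cons d ds ih =>
    show pev g (polR d (brP l ds) ++ polL d (brP l ds)) = _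
    rw [brv, ← ih]
    generalize brP l ds = P
    have h1 : pev g (polR d P) = pev g P * g d := by
      induction P with
      | nil => simp [pev, polR]
      | cons z P ihP =>
        have e1 : pev g (polR d (z :: P)) = (z.1 : U) * ev g (z.2 ++ [d]) + pev g (polR d P) := by
          simp [pev, polR]
        have e2 : pev g (z :: P) = (z.1 : U) * ev g z.2 + pev g P := by simp [pev]
        rw [e1, e2, ihP, ev_append, add_mul]
        simp [mul_assoc]
    have h4 : (4 : U) = -1 := by
      have : (4 : U) + 1 = 0 := by rw [← h5]; norm_num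
      exact eq_neg_of_add_eq_zero_left this
    have h2 : pev g (polL d P) = - (g d * pev g P) := by
      clear h1
      induction P with
      | nil => simp [pev, polL]
      | cons z P ihP =>
        have e1 : pev g (polL d (z :: P)) =
            ((Nat.mul 4 z.1 : Nat) : U) * (g d * ev g z.2) + pev g (polL d P) := by
          simp [pev, polL]
        have e2 : pev g (z :: P) = (z.1 : U) * ev g z.2 + pev g P := by simp [pev]
        have e3 : ((Nat.mul 4 z.1 : Nat) : U) = - (z.1 : U) := by
          have : ((Nat.mul 4 z.1 : Nat) : U) = (4 : U) * (z.1 : U) := by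
            exact_mod_cast Nat.cast_mul 4 z.1
          rw [this, h4]; simp
        rw [e1, e2, ihP, e3, mul_add, ← mul_assoc (g d), ← Nat.cast_comm]
        simp only [neg_mul, mul_assoc, neg_add]
    have h3 : pev g (polR d P ++ polL d P) = pev g (polR d P) + pev g (polL d P) := by
      simp [pev]
    rw [h3, h1, h2, sub_eq_add_neg]

theorem allz_val {g : L → U} (h5 : (5 : U) = 0) (t : Tr) (h : allz t = true) : val g t = 0 := by
  induction t with
  | e => rfl
  | n v t1 t2 t3 t4 t5 t6 h1 h2 h3 h4 h5' h6 =>
    have hb : allz (Tr.n v t1 t2 t3 t4 t5 t6) =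
      @Bool.rec (fun _ => Bool) false
        (@Bool.rec (fun _ => Bool) false
          (@Bool.rec (fun _ => Bool) false
            (@Bool.rec (fun _ => Bool) false
              (@Bool.rec (fun _ => Bool) false
                (@Bool.rec (fun _ => Bool) false (allz t6) (allz t5)) (allz t4)) (allz t3))
                  (allz t2)) (allz t1))
        (Nat.beq (Nat.mod v 5) 0) := rfl
    rw [hb] at h
    cases hv : Nat.beq (Nat.mod v 5) 0 with
    | false => rw [hv] at h; exact absurd h (by simp)
    | true =>
    cases a1 : allz t1 with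
    | false => rw [hv, a1] at h; exact absurd h (by simp)
    | true =>
    cases a2 : allz t2 with
    | false => rw [hv, a1, a2] at h; exact absurd h (by simp)
    | true =>
    cases a3 : allz t3 with
    | false => rw [hv, a1, a2, a3] at h; exact absurd h (by simp)
    | true =>
    cases a4 : allz t4 with
    | false => rw [hv, a1, a2, a3, a4] at h; exact absurd h (by simp)
    | true =>
    cases a5 : allz t5 with
    | false => rw [hv, a1, a2, a3, a4, a5] at h; exact absurd h (by simp)
    | true =>
    cases a6 : allz t6 with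
    | false => rw [hv, a1, a2, a3, a4, a5, a6] at h; exact absurd h (by simp)
    | true =>
    have hm : v % 5 = 0 := Nat.eq_of_beq_eq_true hv
    have hvv : (v : U) = 0 := by
      obtain ⟨w, rfl⟩ := Nat.dvd_of_mod_eq_zero hm
      push_cast
      rw [h5, zero_mul]
    simp [val, hvv, h1 a1, h2 a2, h3 a3, h4 a4, h5' a5, h6 a6]

/-- the letters of the substitution are Lie monomials -/
theorem brv_lie {g : L → U} {S : Set U} (hS : ∀ l, g l ∈ S) (l : L) (ds : List L) :
    LieMonS S (brv g l ds) := by
  induction ds with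
  | nil => exact LieMonS.letter _ (hS l)
  | cons d ds ih => exact LieMonS.br _ _ ih (LieMonS.letter _ (hS d))

theorem rev_reverse (s : L → U) (w : List L) : ev s w.reverse = rev s w := (rev_eq s w).symm

/-- soundness of the schemas -/
theorem tab_sound {s : L → U} (h5 : (5 : U) = 0) (hs : Comm s) (T : Tab) :
    (T.tb.map (fun h => (h.1 : U) * rev s h.2)).sum = sym4 (s T.l1) (s T.l2) (s T.l3) (s T.l4) := by
  have h4 : (4 : U) = -1 := by
    have : (4 : U) + 1 = 0 := by rw [← h5]; norm_num
    exact eq_neg_of_add_eq_zero_left this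
  have hok := T.ok
  unfold tabCheck at hok
  have A : Adds s (sumK (fun h : Nat × List L => insK (preW (h.2.reverse) []) h.1) T.tb)
      (T.tb.map (fun h => (h.1 : U) * rev s h.2)).sum := by
    refine adds_sumK (d := fun h : Nat × List L => (h.1 : U) * rev s h.2) ?_ T.tb
    intro h
    refine adds_congr (adds_insK s _ h.1) ?_
    rw [ev_preW hs, ev_nil, mul_one, rev_reverse]
  have B : Adds s (sumK (fun w : List L => insK (preW w []) 4) (words4 T.l1 T.l2 T.l3 T.l4))
      (- sym4 (s T.l1) (s T.l2) (s T.l3) (s T.l4)) := by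
    refine adds_congr (adds_sumK (d := fun w : List L => - ev s w) ?_ _) ?_
    · intro w
      refine adds_congr (adds_insK s _ 4) ?_
      rw [ev_preW hs, ev_nil, mul_one]
      push_cast
      rw [h4, neg_one_mul]
    · simp only [words4, List.map_cons, List.map_nil, List.sum_cons, List.sum_nil, ev_cons, ev_nil,
        mul_one, sym4, mul_assoc]
      abel
  obtain ⟨t1, h1, h2⟩ := A Tr.e (fun t => sumK (fun w : List L => insK (preW w []) 4)
    (words4 T.l1 T.l2 T.l3 T.l4) t allz)
  obtain ⟨t2, h3, h4'⟩ := B t1 allz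
  rw [h1, h3] at hok
  have := allz_val (g := s) h5 t2 hok
  rw [h4', h2] at this
  have h0 : val s Tr.e = 0 := rfl
  rw [h0, zero_add] at this
  exact eq_of_sub_eq_zero (by rw [sub_eq_add_neg]; exact this)

theorem Comm.sig {g : L → U} (hg : Comm g) (X Y : U) : Comm (sig g X Y) :=
  ⟨hg.rp, hg.ra, hg.qp, hg.qa⟩

theorem sum_map_mul {α : Type} (l : List α) (f : α → U) (c d : U) :
    (l.map (fun z => c * f z * d)).sum = c * (l.map f).sum * d := by
  induction l with
  | nil => simp
  | cons z l ih => simp only [List.map_cons, List.sum_cons, ih]; noncomm_ring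

theorem adds_item {g : L → U} (h5 : (5 : U) = 0) (hg : Comm g)
    {S : Set U} (hS : ∀ l, g l ∈ S)
    (hsym : ∀ u1 u2 u3 u4, LieMonS S u1 → LieMonS S u2 → LieMonS S u3 → LieMonS S u4 →
      sym4 u1 u2 u3 u4 = 0) (i : Item) : Adds g (itemK i) 0 := by
  have A := adds_sumK (fun h : Nat × List L =>
    adds_run hg (brP i.X i.Xs) (brP i.Y i.Ys) i.u h.2 i.v (Nat.mul i.k h.1)) i.tab.tb
  refine adds_congr A ?_
  rw [pev_brP h5, pev_brP h5]
  set s := sig g (brv g i.X i.Xs) (brv g i.Y i.Ys) with hs
  have e : ∀ h : Nat × List L, ((Nat.mul i.k h.1 : Nat) : U) * (ev g i.u * rev s h.2 * ev g i.v) =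
      ((i.k : U) * ev g i.u) * ((h.1 : U) * rev s h.2) * ev g i.v := by
    intro h
    have e1 : ((Nat.mul i.k h.1 : Nat) : U) = (i.k : U) * (h.1 : U) := Nat.cast_mul _ _
    have e2 : (h.1 : U) * ev g i.u = ev g i.u * (h.1 : U) := Nat.cast_comm _ _
    rw [e1, mul_assoc (i.k : U), ← mul_assoc (h.1 : U), ← mul_assoc (h.1 : U), e2]
    simp only [mul_assoc]
  rw [List.map_congr_left (fun h _ => e h), sum_map_mul, tab_sound h5 (hg.sig _ _)]
  have hl : ∀ l, LieMonS S (s l) := by
    intro l
    cases l with
    | p => exact LieMonS.letter _ (hS .p)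
    | a => exact LieMonS.letter _ (hS .a)
    | r => exact LieMonS.letter _ (hS .r)
    | q => exact LieMonS.letter _ (hS .q)
    | x => exact brv_lie hS _ _
    | y => exact brv_lie hS _ _
  rw [hsym _ _ _ _ (hl _) (hl _) (hl _) (hl _)]
  simp

/-- soundness of the check -/
theorem check_sound {g : L → U} (h5 : (5 : U) = 0) (hg : Comm g)
    {S : Set U} (hS : ∀ l, g l ∈ S)
    (hsym : ∀ u1 u2 u3 u4, LieMonS S u1 → LieMonS S u2 → LieMonS S u3 → LieMonS S u4 →
      sym4 u1 u2 u3 u4 = 0) (items : List Item) (target : List (Nat × List L))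
    (h : check items target = true) : pev g target = 0 := by
  unfold check at h
  have A := adds_sumK (fun i => adds_item h5 hg hS hsym i) items
  have B : Adds g (sumK (fun h : Nat × List L => insK (preW h.2 []) h.1) target) (pev g target) := by
    refine adds_sumK (d := fun h : Nat × List L => (h.1 : U) * ev g h.2) ?_ target
    intro h
    refine adds_congr (adds_insK g _ h.1) ?_
    rw [ev_preW hg, ev_nil, mul_one]
  obtain ⟨t1, h1, h2⟩ := A Tr.e
    (fun t => sumK (fun h : Nat × List L => insK (preW h.2 []) h.1) target t allz)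
  obtain ⟨t2, h3, h4⟩ := B t1 allz
  rw [h1, h3] at h
  have := allz_val (g := g) h5 t2 h
  rw [h4, h2] at this
  have h0 : val g Tr.e = 0 := rfl
  simpa [h0] using this

end Pool.Agent.MP5c99ad.H90
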