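import Mathlib
import Pool.Agent.Lib.MP_5c99ad_al.CertA

set_option autoImplicit false
set_option maxRecDepth 100000

/-!
Certificate data (vw) for the block laws, checked by the kernel.
-/

namespace Pool.Agent.MP5c99ad.H90.VW

noncomputable def T_aaqq : Tab := ⟨.a, .a, .q, .q, [(4, [.q, .q, .a, .a])], by decide +kernel⟩
noncomputable def T_aarq : Tab := ⟨.a, .a, .r, .q, [(2, [.r, .q, .a, .a]), (2, [.q, .r, .a, .a])], by decide +kernel⟩
noncomputable def T_arqq : Tab := ⟨.a, .r, .q, .q, [(3, [.r, .q, .q, .a]), (3, [.q, .r, .q, .a]), (3, [.q, .q, .r, .a])], by decide +kernel⟩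
noncomputable def T_paqq : Tab := ⟨.p, .a, .q, .q, [(2, [.q, .q, .p, .a]), (2, [.q, .q, .a, .p])], by decide +kernel⟩

noncomputable def vw_0 : List Item := [
  ⟨4, T_aaqq, [], .x, [], .y, [], [.p, .r]⟩,
  ⟨3, T_aaqq, [.p], .x, [], .y, [], [.r]⟩,
  ⟨1, T_aaqq, [.r], .x, [], .y, [], [.p]⟩,
  ⟨2, T_aaqq, [.p, .r], .x, [], .y, [], []⟩,
  ⟨4, T_aarq, [.p], .x, [], .y, [], [.q]⟩,
  ⟨2, T_paqq, [.a, .r], .x, [], .y, [], []⟩,
  ⟨2, T_paqq, [], .x, [], .y, [], [.a, .r]⟩,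
  ⟨4, T_aarq, [], .x, [], .y, [], [.p, .q]⟩,
  ⟨3, T_arqq, [], .x, [], .y, [], [.p, .a]⟩]

noncomputable def vw : List Item := vw_0

/-- the target, times 4 -/
def tgt : List (Nat × List L) :=
  [(4, [.p, .a, .a, .r, .q, .q]), (2, [.p, .a, .a, .q, .r, .q]), (4, [.p, .a, .a, .q, .q, .r]), (2, [.a, .p, .a, .r, .q, .q]), (1, [.a, .p, .a, .q, .r, .q]), (2, [.a, .p, .a, .q, .q, .r]), (4, [.a, .a, .p, .r, .q, .q]), (2, [.a, .a, .p, .q, .r, .q]), (4, [.a, .a, .p, .q, .q, .r])]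

theorem ok : check vw tgt = true := by decide +kernel

end Pool.Agent.MP5c99ad.H90.VW
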