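import Mathlib
import Pool.Agent.Lib.MP_5c99ad_al.CertA

set_option autoImplicit false
set_option maxRecDepth 100000

/-!
Certificate data (xy) for the block laws, checked by the kernel.
-/

namespace Pool.Agent.MP5c99ad.H90.XY

noncomputable def T_aaqq : Tab := ⟨.a, .a, .q, .q, [(4, [.q, .q, .a, .a])], by decide +kernel⟩
noncomputable def T_aaqx : Tab := ⟨.a, .a, .q, .x, [(1, [.x, .q, .a, .a]), (2, [.q, .x, .a, .a]), (4, [.a, .x, .q, .a]), (4, [.q, .a, .x, .a]), (2, [.a, .a, .x, .q]), (1, [.q, .a, .a, .x])], by decide +kernel⟩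
noncomputable def T_aarq : Tab := ⟨.a, .a, .r, .q, [(2, [.r, .q, .a, .a]), (2, [.q, .r, .a, .a])], by decide +kernel⟩
noncomputable def T_aarx : Tab := ⟨.a, .a, .r, .x, [(1, [.x, .r, .a, .a]), (2, [.r, .x, .a, .a]), (4, [.a, .x, .r, .a]), (4, [.r, .a, .x, .a]), (2, [.a, .a, .x, .r]), (1, [.r, .a, .a, .x])], by decide +kernel⟩
noncomputable def T_aaxy : Tab := ⟨.a, .a, .x, .y, [(2, [.y, .x, .a, .a]), (2, [.x, .y, .a, .a]), (2, [.y, .a, .x, .a]), (2, [.a, .y, .x, .a]), (2, [.x, .a, .y, .a]), (2, [.a, .x, .y, .a]), (2, [.y, .a, .a, .x]), (2, [.a, .y, .a, .x]), (2, [.a, .a, .y, .x]), (2, [.x, .a, .a, .y]), (2, [.a, .x, .a, .y]), (2, [.a, .a, .x, .y])], by decide +kernel⟩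
noncomputable def T_aqqx : Tab := ⟨.a, .q, .q, .x, [(1, [.x, .q, .q, .a]), (4, [.q, .x, .q, .a]), (2, [.q, .q, .x, .a]), (2, [.a, .x, .q, .q]), (4, [.q, .a, .x, .q]), (1, [.q, .q, .a, .x])], by decide +kernel⟩
noncomputable def T_aqxy : Tab := ⟨.a, .q, .x, .y, [(2, [.y, .x, .q, .a]), (2, [.x, .y, .q, .a]), (1, [.y, .q, .x, .a]), (1, [.q, .y, .x, .a]), (1, [.x, .q, .y, .a]), (1, [.q, .x, .y, .a]), (1, [.y, .a, .x, .q]), (1, [.a, .y, .x, .q]), (1, [.x, .a, .y, .q]), (1, [.a, .x, .y, .q]), (2, [.y, .q, .a, .x]), (1, [.q, .y, .a, .x]), (1, [.a, .y, .q, .x]), (2, [.q, .a, .y, .x]), (2, [.x, .q, .a, .y]), (1, [.q, .x, .a, .y]), (1, [.a, .x, .q, .y]), (2, [.q, .a, .x, .y])], by decide +kernel⟩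
noncomputable def T_arqq : Tab := ⟨.a, .r, .q, .q, [(3, [.r, .q, .q, .a]), (3, [.q, .r, .q, .a]), (3, [.q, .q, .r, .a])], by decide +kernel⟩
noncomputable def T_arqx : Tab := ⟨.a, .r, .q, .x, [(3, [.x, .r, .q, .a]), (2, [.r, .x, .q, .a]), (3, [.x, .q, .r, .a]), (2, [.q, .x, .r, .a]), (1, [.r, .q, .x, .a]), (1, [.q, .r, .x, .a]), (1, [.a, .x, .r, .q]), (2, [.r, .a, .x, .q]), (1, [.a, .x, .q, .r]), (2, [.q, .a, .x, .r]), (3, [.r, .q, .a, .x]), (3, [.q, .r, .a, .x])], by decide +kernel⟩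
noncomputable def T_arxy : Tab := ⟨.a, .r, .x, .y, [(2, [.y, .x, .r, .a]), (2, [.x, .y, .r, .a]), (1, [.y, .r, .x, .a]), (1, [.r, .y, .x, .a]), (1, [.x, .r, .y, .a]), (1, [.r, .x, .y, .a]), (1, [.y, .a, .x, .r]), (1, [.a, .y, .x, .r]), (1, [.x, .a, .y, .r]), (1, [.a, .x, .y, .r]), (2, [.y, .r, .a, .x]), (1, [.r, .y, .a, .x]), (1, [.a, .y, .r, .x]), (2, [.r, .a, .y, .x]), (2, [.x, .r, .a, .y]), (1, [.r, .x, .a, .y]), (1, [.a, .x, .r, .y]), (2, [.r, .a, .x, .y])], by decide +kernel⟩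
noncomputable def T_paaq : Tab := ⟨.p, .a, .a, .q, [(3, [.q, .p, .a, .a]), (3, [.q, .a, .p, .a]), (3, [.q, .a, .a, .p])], by decide +kernel⟩
noncomputable def T_paar : Tab := ⟨.p, .a, .a, .r, [(3, [.r, .p, .a, .a]), (3, [.r, .a, .p, .a]), (3, [.r, .a, .a, .p])], by decide +kernel⟩
noncomputable def T_paax : Tab := ⟨.p, .a, .a, .x, [(2, [.x, .p, .a, .a]), (2, [.p, .x, .a, .a]), (2, [.x, .a, .p, .a]), (2, [.a, .x, .p, .a]), (2, [.p, .a, .x, .a]), (2, [.a, .p, .x, .a]), (2, [.x, .a, .a, .p]), (2, [.a, .x, .a, .p]), (2, [.a, .a, .x, .p]), (2, [.p, .a, .a, .x]), (2, [.a, .p, .a, .x]), (2, [.a, .a, .p, .x])], by decide +kernel⟩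
noncomputable def T_paqq : Tab := ⟨.p, .a, .q, .q, [(2, [.q, .q, .p, .a]), (2, [.q, .q, .a, .p])], by decide +kernel⟩
noncomputable def T_paqx : Tab := ⟨.p, .a, .q, .x, [(3, [.x, .q, .p, .a]), (1, [.q, .x, .p, .a]), (2, [.p, .x, .q, .a]), (2, [.q, .p, .x, .a]), (3, [.x, .q, .a, .p]), (1, [.q, .x, .a, .p]), (2, [.a, .x, .q, .p]), (2, [.q, .a, .x, .p]), (1, [.p, .a, .x, .q]), (1, [.a, .p, .x, .q]), (3, [.q, .p, .a, .x]), (3, [.q, .a, .p, .x])], by decide +kernel⟩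
noncomputable def T_parq : Tab := ⟨.p, .a, .r, .q, [(1, [.r, .q, .p, .a]), (1, [.q, .r, .p, .a]), (1, [.r, .q, .a, .p]), (1, [.q, .r, .a, .p])], by decide +kernel⟩
noncomputable def T_parx : Tab := ⟨.p, .a, .r, .x, [(3, [.x, .r, .p, .a]), (1, [.r, .x, .p, .a]), (2, [.p, .x, .r, .a]), (2, [.r, .p, .x, .a]), (3, [.x, .r, .a, .p]), (1, [.r, .x, .a, .p]), (2, [.a, .x, .r, .p]), (2, [.r, .a, .x, .p]), (1, [.p, .a, .x, .r]), (1, [.a, .p, .x, .r]), (3, [.r, .p, .a, .x]), (3, [.r, .a, .p, .x])], by decide +kernel⟩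
noncomputable def T_paxy : Tab := ⟨.p, .a, .x, .y, [(1, [.y, .x, .p, .a]), (1, [.x, .y, .p, .a]), (1, [.y, .p, .x, .a]), (1, [.p, .y, .x, .a]), (1, [.x, .p, .y, .a]), (1, [.p, .x, .y, .a]), (1, [.y, .x, .a, .p]), (1, [.x, .y, .a, .p]), (1, [.y, .a, .x, .p]), (1, [.a, .y, .x, .p]), (1, [.x, .a, .y, .p]), (1, [.a, .x, .y, .p]), (1, [.y, .p, .a, .x]), (1, [.p, .y, .a, .x]), (1, [.y, .a, .p, .x]), (1, [.a, .y, .p, .x]), (1, [.p, .a, .y, .x]), (1, [.a, .p, .y, .x]), (1, [.x, .p, .a, .y]), (1, [.p, .x, .a, .y]), (1, [.x, .a, .p, .y]), (1, [.a, .x, .p, .y]), (1, [.p, .a, .x, .y]), (1, [.a, .p, .x, .y])], by decide +kernel⟩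
noncomputable def T_pqqx : Tab := ⟨.p, .q, .q, .x, [(1, [.x, .q, .q, .p]), (4, [.q, .x, .q, .p]), (2, [.q, .q, .x, .p]), (2, [.p, .x, .q, .q]), (4, [.q, .p, .x, .q]), (1, [.q, .q, .p, .x])], by decide +kernel⟩
noncomputable def T_pqxy : Tab := ⟨.p, .q, .x, .y, [(2, [.y, .x, .q, .p]), (2, [.x, .y, .q, .p]), (1, [.y, .q, .x, .p]), (1, [.q, .y, .x, .p]), (1, [.x, .q, .y, .p]), (1, [.q, .x, .y, .p]), (1, [.y, .p, .x, .q]), (1, [.p, .y, .x, .q]), (1, [.x, .p, .y, .q]), (1, [.p, .x, .y, .q]), (2, [.y, .q, .p, .x]), (1, [.q, .y, .p, .x]), (1, [.p, .y, .q, .x]), (2, [.q, .p, .y, .x]), (2, [.x, .q, .p, .y]), (1, [.q, .x, .p, .y]), (1, [.p, .x, .q, .y]), (2, [.q, .p, .x, .y])], by decide +kernel⟩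
noncomputable def T_prqq : Tab := ⟨.p, .r, .q, .q, [(3, [.r, .q, .q, .p]), (3, [.q, .r, .q, .p]), (3, [.q, .q, .r, .p])], by decide +kernel⟩
noncomputable def T_prqx : Tab := ⟨.p, .r, .q, .x, [(3, [.x, .r, .q, .p]), (2, [.r, .x, .q, .p]), (3, [.x, .q, .r, .p]), (2, [.q, .x, .r, .p]), (1, [.r, .q, .x, .p]), (1, [.q, .r, .x, .p]), (1, [.p, .x, .r, .q]), (2, [.r, .p, .x, .q]), (1, [.p, .x, .q, .r]), (2, [.q, .p, .x, .r]), (3, [.r, .q, .p, .x]), (3, [.q, .r, .p, .x])], by decide +kernel⟩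
noncomputable def T_prxy : Tab := ⟨.p, .r, .x, .y, [(2, [.y, .x, .r, .p]), (2, [.x, .y, .r, .p]), (1, [.y, .r, .x, .p]), (1, [.r, .y, .x, .p]), (1, [.x, .r, .y, .p]), (1, [.r, .x, .y, .p]), (1, [.y, .p, .x, .r]), (1, [.p, .y, .x, .r]), (1, [.x, .p, .y, .r]), (1, [.p, .x, .y, .r]), (2, [.y, .r, .p, .x]), (1, [.r, .y, .p, .x]), (1, [.p, .y, .r, .x]), (2, [.r, .p, .y, .x]), (2, [.x, .r, .p, .y]), (1, [.r, .x, .p, .y]), (1, [.p, .x, .r, .y]), (2, [.r, .p, .x, .y])], by decide +kernel⟩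
noncomputable def T_qqxy : Tab := ⟨.q, .q, .x, .y, [(2, [.y, .x, .q, .q]), (2, [.x, .y, .q, .q]), (2, [.y, .q, .x, .q]), (2, [.q, .y, .x, .q]), (2, [.x, .q, .y, .q]), (2, [.q, .x, .y, .q]), (2, [.y, .q, .q, .x]), (2, [.q, .y, .q, .x]), (2, [.q, .q, .y, .x]), (2, [.x, .q, .q, .y]), (2, [.q, .x, .q, .y]), (2, [.q, .q, .x, .y])], by decide +kernel⟩
noncomputable def T_rqqx : Tab := ⟨.r, .q, .q, .x, [(2, [.x, .r, .q, .q]), (2, [.r, .x, .q, .q]), (2, [.x, .q, .r, .q]), (2, [.q, .x, .r, .q]), (2, [.r, .q, .x, .q]), (2, [.q, .r, .x, .q]), (2, [.x, .q, .q, .r]), (2, [.q, .x, .q, .r]), (2, [.q, .q, .x, .r]), (2, [.r, .q, .q, .x]), (2, [.q, .r, .q, .x]), (2, [.q, .q, .r, .x])], by decide +kernel⟩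
noncomputable def T_rqxy : Tab := ⟨.r, .q, .x, .y, [(1, [.y, .x, .r, .q]), (1, [.x, .y, .r, .q]), (1, [.y, .r, .x, .q]), (1, [.r, .y, .x, .q]), (1, [.x, .r, .y, .q]), (1, [.r, .x, .y, .q]), (1, [.y, .x, .q, .r]), (1, [.x, .y, .q, .r]), (1, [.y, .q, .x, .r]), (1, [.q, .y, .x, .r]), (1, [.x, .q, .y, .r]), (1, [.q, .x, .y, .r]), (1, [.y, .r, .q, .x]), (1, [.r, .y, .q, .x]), (1, [.y, .q, .r, .x]), (1, [.q, .y, .r, .x]), (1, [.r, .q, .y, .x]), (1, [.q, .r, .y, .x]), (1, [.x, .r, .q, .y]), (1, [.r, .x, .q, .y]), (1, [.x, .q, .r, .y]), (1, [.q, .x, .r, .y]), (1, [.r, .q, .x, .y]), (1, [.q, .r, .x, .y])], by decide +kernel⟩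

noncomputable def xy_0 : List Item := [
  ⟨2, T_aaqq, [], .x, [], .y, [], [.p, .r, .x, .y]⟩,
  ⟨4, T_aaqq, [], .x, [], .y, [], [.p, .x, .r, .y]⟩,
  ⟨4, T_aaqq, [.p], .x, [], .y, [], [.y, .x, .r]⟩,
  ⟨3, T_aaqq, [.r], .x, [], .y, [], [.p, .x, .y]⟩,
  ⟨3, T_aaqq, [.r], .x, [], .y, [], [.y, .x, .p]⟩,
  ⟨1, T_aaqq, [.r, .y, .x], .x, [], .y, [], [.p]⟩,
  ⟨4, T_aaqq, [.x, .y, .p], .x, [], .y, [], [.r]⟩,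
  ⟨2, T_aaqq, [.y], .x, [], .y, [], [.p, .r, .x]⟩,
  ⟨1, T_aaqq, [.y, .p], .x, [], .y, [], [.r, .x]⟩,
  ⟨2, T_aaqq, [.y, .p], .x, [], .y, [], [.x, .r]⟩,
  ⟨3, T_aaqq, [], .x, [], .y, [], [.p, .x, .y, .r]⟩,
  ⟨4, T_aaqq, [.r], .x, [], .y, [], [.p, .y, .x]⟩,
  ⟨2, T_aaqq, [.r, .x], .x, [], .y, [], [.p, .y]⟩,
  ⟨1, T_aaqq, [.x], .x, [], .y, [], [.p, .r, .y]⟩,
  ⟨3, T_aaqq, [.x, .p], .x, [], .y, [], [.r, .y]⟩,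
  ⟨3, T_aaqq, [.x, .p, .r, .y], .x, [], .y, [], []⟩,
  ⟨1, T_aaqq, [.x, .r], .x, [], .y, [], [.p, .y]⟩,
  ⟨4, T_aaqq, [.x, .y], .x, [], .y, [], [.p, .r]⟩,
  ⟨1, T_aaqq, [.y], .x, [], .y, [], [.r, .x, .p]⟩,
  ⟨3, T_aaqq, [.y, .p, .r], .x, [], .y, [], [.x]⟩,
  ⟨1, T_aaqq, [.y, .p, .x], .x, [], .y, [], [.r]⟩,
  ⟨2, T_aaqq, [.y, .r, .x], .x, [], .y, [], [.p]⟩,
  ⟨4, T_aaqq, [.y, .x, .p, .r], .x, [], .y, [], []⟩,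
  ⟨4, T_aaqq, [], .x, [], .y, [], [.p, .r, .y, .x]⟩,
  ⟨1, T_aaqq, [], .x, [], .y, [], [.r, .x, .y, .p]⟩,
  ⟨1, T_aaqq, [], .x, [], .y, [], [.r, .y, .p, .x]⟩,
  ⟨2, T_aaqq, [], .x, [], .y, [], [.x, .y, .p, .r]⟩,
  ⟨1, T_aaqq, [.p], .x, [], .y, [], [.r, .y, .x]⟩,
  ⟨2, T_aaqq, [.p, .r, .x], .x, [], .y, [], [.y]⟩,
  ⟨1, T_aaqq, [.p, .r, .x, .y], .x, [], .y, [], []⟩,
  ⟨4, T_aaqq, [.p, .x], .x, [], .y, [], [.y, .r]⟩,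
  ⟨1, T_aaqq, [.p, .y, .x, .r], .x, [], .y, [], []⟩,
  ⟨3, T_aaqq, [.r, .x], .x, [], .y, [], [.y, .p]⟩,
  ⟨2, T_aaqq, [.r, .x, .p], .x, [], .y, [], [.y]⟩,
  ⟨2, T_aaqq, [.r, .x, .y], .x, [], .y, [], [.p]⟩,
  ⟨2, T_aaqq, [.r, .x, .y, .p], .x, [], .y, [], []⟩,
  ⟨2, T_aaqq, [.r, .y], .x, [], .y, [], [.x, .p]⟩,
  ⟨2, T_aaqq, [.x, .p, .r], .x, [], .y, [], [.y]⟩,
  ⟨1, T_aaqq, [.x, .p, .y], .x, [], .y, [], [.r]⟩,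
  ⟨4, T_aaqq, [.x, .p, .y, .r], .x, [], .y, [], []⟩,
  ⟨3, T_aaqq, [.x, .y, .p, .r], .x, [], .y, [], []⟩,
  ⟨2, T_aaqq, [.y], .x, [], .y, [], [.p, .x, .r]⟩,
  ⟨4, T_aaqq, [.y, .r], .x, [], .y, [], [.p, .x]⟩,
  ⟨4, T_aaqq, [.y, .r, .x, .p], .x, [], .y, [], []⟩,
  ⟨3, T_aaqq, [.y, .x, .r], .x, [], .y, [], [.p]⟩,
  ⟨4, T_aaqq, [], .x, [], .y, [], [.r, .x, .p, .y]⟩,
  ⟨1, T_aaqq, [], .x, [], .y, [], [.y, .p, .r, .x]⟩,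
  ⟨1, T_aaqq, [], .x, [], .y, [], [.y, .p, .x, .r]⟩,
  ⟨3, T_aaqq, [.p, .r], .x, [], .y, [], [.y, .x]⟩,
  ⟨4, T_aaqq, [.p, .r, .y], .x, [], .y, [], [.x]⟩]

noncomputable def xy_1 : List Item := [
  ⟨1, T_aaqq, [.p, .x, .r], .x, [], .y, [], [.y]⟩,
  ⟨4, T_aaqq, [.p, .x, .y, .r], .x, [], .y, [], []⟩,
  ⟨3, T_aaqq, [.p, .y, .r, .x], .x, [], .y, [], []⟩,
  ⟨4, T_aaqq, [.p, .y, .x], .x, [], .y, [], [.r]⟩,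
  ⟨4, T_aaqq, [.r], .x, [], .y, [], [.y, .p, .x]⟩,
  ⟨2, T_aaqq, [.r, .y, .p, .x], .x, [], .y, [], []⟩,
  ⟨4, T_aaqq, [.x], .x, [], .y, [], [.y, .p, .r]⟩,
  ⟨2, T_aaqq, [.x, .p], .x, [], .y, [], [.y, .r]⟩,
  ⟨4, T_aaqq, [.x, .y, .r], .x, [], .y, [], [.p]⟩,
  ⟨3, T_aaqq, [.y], .x, [], .y, [], [.x, .p, .r]⟩,
  ⟨3, T_aaqq, [.y, .p, .r, .x], .x, [], .y, [], []⟩,
  ⟨3, T_aaqq, [.y, .p, .x, .r], .x, [], .y, [], []⟩,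
  ⟨4, T_aaqq, [.y, .r], .x, [], .y, [], [.x, .p]⟩,
  ⟨4, T_aaqq, [.y, .x], .x, [], .y, [], [.p, .r]⟩,
  ⟨4, T_aaqq, [], .x, [], .y, [], [.r, .y, .x, .p]⟩,
  ⟨2, T_aaqq, [], .x, [], .y, [], [.x, .r, .y, .p]⟩,
  ⟨2, T_aaqq, [], .x, [], .y, [], [.y, .x, .p, .r]⟩,
  ⟨1, T_aaqq, [.p], .x, [], .y, [], [.x, .r, .y]⟩,
  ⟨4, T_aaqq, [.p], .x, [], .y, [], [.x, .y, .r]⟩,
  ⟨3, T_aaqq, [.p, .r, .y, .x], .x, [], .y, [], []⟩,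
  ⟨2, T_aaqq, [.p, .y], .x, [], .y, [], [.r, .x]⟩,
  ⟨3, T_aaqq, [.p, .y], .x, [], .y, [], [.x, .r]⟩,
  ⟨4, T_aaqq, [.r, .y], .x, [], .y, [], [.p, .x]⟩,
  ⟨4, T_aaqq, [.r, .y, .x, .p], .x, [], .y, [], []⟩,
  ⟨3, T_aaqq, [.x], .x, [], .y, [], [.p, .y, .r]⟩,
  ⟨4, T_aaqq, [.x, .r], .x, [], .y, [], [.y, .p]⟩,
  ⟨2, T_aaqq, [.x, .r, .y], .x, [], .y, [], [.p]⟩,
  ⟨1, T_paqq, [.a], .x, [], .y, [], [.x, .y, .r]⟩,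
  ⟨4, T_aarq, [], .x, [], .y, [], [.p, .q, .y, .x]⟩,
  ⟨4, T_aarq, [], .x, [], .y, [], [.q, .x, .p, .y]⟩,
  ⟨4, T_aarq, [], .x, [], .y, [], [.q, .y, .x, .p]⟩,
  ⟨3, T_aarq, [], .x, [], .y, [], [.x, .q, .y, .p]⟩,
  ⟨2, T_aarq, [], .x, [], .y, [], [.x, .y, .p, .q]⟩,
  ⟨4, T_aarq, [], .x, [], .y, [], [.y, .p, .q, .x]⟩,
  ⟨3, T_paqq, [], .x, [], .y, [], [.r, .y, .x, .a]⟩,
  ⟨4, T_paqq, [], .x, [], .y, [], [.x, .r, .y, .a]⟩,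
  ⟨4, T_paqq, [], .x, [], .y, [], [.y, .a, .r, .x]⟩,
  ⟨3, T_paqq, [.a, .r, .y, .x], .x, [], .y, [], []⟩,
  ⟨4, T_paqq, [.a, .x, .y], .x, [], .y, [], [.r]⟩,
  ⟨3, T_paqq, [.a, .y, .r], .x, [], .y, [], [.x]⟩,
  ⟨3, T_aarq, [.p], .x, [], .y, [], [.x, .q, .y]⟩,
  ⟨3, T_aarq, [.p, .q], .x, [], .y, [], [.x, .y]⟩,
  ⟨3, T_aarq, [.p, .q, .x], .x, [], .y, [], [.y]⟩,
  ⟨1, T_aarq, [.p, .x], .x, [], .y, [], [.y, .q]⟩,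
  ⟨2, T_aarq, [.p, .x, .q, .y], .x, [], .y, [], []⟩,
  ⟨2, T_aarq, [.p, .y, .q, .x], .x, [], .y, [], []⟩,
  ⟨3, T_aarq, [.q], .x, [], .y, [], [.x, .y, .p]⟩,
  ⟨2, T_aarq, [.q, .x, .p], .x, [], .y, [], [.y]⟩,
  ⟨1, T_aarq, [.q, .x, .y], .x, [], .y, [], [.p]⟩,
  ⟨3, T_aarq, [.q, .x, .y, .p], .x, [], .y, [], []⟩]

noncomputable def xy_2 : List Item := [
  ⟨3, T_aarq, [.q, .y, .x], .x, [], .y, [], [.p]⟩,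
  ⟨3, T_paqq, [.x], .x, [], .y, [], [.r, .y, .a]⟩,
  ⟨4, T_paqq, [.x, .y, .a, .r], .x, [], .y, [], []⟩,
  ⟨2, T_aarq, [.y, .p], .x, [], .y, [], [.x, .q]⟩,
  ⟨4, T_aarq, [.y, .p, .x], .x, [], .y, [], [.q]⟩,
  ⟨1, T_paqq, [.y, .r], .x, [], .y, [], [.x, .a]⟩,
  ⟨2, T_aarq, [.y, .x, .q], .x, [], .y, [], [.p]⟩,
  ⟨4, T_paqq, [.a], .x, [], .y, [], [.r, .y, .x]⟩,
  ⟨4, T_aarq, [], .x, [], .y, [], [.q, .y, .p, .x]⟩,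
  ⟨1, T_paqq, [], .x, [], .y, [], [.y, .a, .x, .r]⟩,
  ⟨1, T_paqq, [.a, .x], .x, [], .y, [], [.y, .r]⟩,
  ⟨2, T_paqq, [.a, .x, .y, .r], .x, [], .y, [], []⟩,
  ⟨1, T_paqq, [.a, .y], .x, [], .y, [], [.r, .x]⟩,
  ⟨3, T_paqq, [.a, .y], .x, [], .y, [], [.x, .r]⟩,
  ⟨4, T_aarq, [.p], .x, [], .y, [], [.x, .y, .q]⟩,
  ⟨1, T_aarq, [.p], .x, [], .y, [], [.y, .q, .x]⟩,
  ⟨1, T_aarq, [.p, .q, .y], .x, [], .y, [], [.x]⟩,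
  ⟨1, T_aarq, [.p, .x, .y, .q], .x, [], .y, [], []⟩,
  ⟨1, T_aarq, [.p, .y, .q], .x, [], .y, [], [.x]⟩,
  ⟨2, T_aarq, [.q, .y, .p], .x, [], .y, [], [.x]⟩,
  ⟨4, T_paqq, [.r], .x, [], .y, [], [.x, .a, .y]⟩,
  ⟨3, T_paqq, [.r], .x, [], .y, [], [.x, .y, .a]⟩,
  ⟨1, T_paqq, [.r, .x, .a], .x, [], .y, [], [.y]⟩,
  ⟨4, T_paqq, [.r, .x, .a, .y], .x, [], .y, [], []⟩,
  ⟨1, T_paqq, [.r, .y, .a, .x], .x, [], .y, [], []⟩,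
  ⟨1, T_aarq, [.x, .p, .q], .x, [], .y, [], [.y]⟩,
  ⟨2, T_paqq, [.x, .r, .y, .a], .x, [], .y, [], []⟩,
  ⟨1, T_paqq, [.y], .x, [], .y, [], [.r, .x, .a]⟩,
  ⟨2, T_aarq, [.y, .p], .x, [], .y, [], [.q, .x]⟩,
  ⟨1, T_paqq, [.y, .r], .x, [], .y, [], [.a, .x]⟩,
  ⟨1, T_aarq, [.y, .x, .p], .x, [], .y, [], [.q]⟩,
  ⟨4, T_aarq, [], .x, [], .y, [], [.x, .p, .q, .y]⟩,
  ⟨4, T_aarq, [], .x, [], .y, [], [.y, .q, .x, .p]⟩,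
  ⟨4, T_paqq, [], .x, [], .y, [], [.r, .y, .a, .x]⟩,
  ⟨4, T_paqq, [], .x, [], .y, [], [.x, .y, .a, .r]⟩,
  ⟨3, T_paqq, [.a, .x, .r], .x, [], .y, [], [.y]⟩,
  ⟨2, T_paqq, [.a, .x, .r, .y], .x, [], .y, [], []⟩,
  ⟨2, T_paqq, [.a, .y, .x], .x, [], .y, [], [.r]⟩,
  ⟨3, T_aarq, [.p], .x, [], .y, [], [.y, .x, .q]⟩,
  ⟨4, T_aarq, [.p, .x], .x, [], .y, [], [.q, .y]⟩,
  ⟨3, T_aarq, [.q, .x], .x, [], .y, [], [.y, .p]⟩,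
  ⟨3, T_aarq, [.q, .y], .x, [], .y, [], [.p, .x]⟩,
  ⟨3, T_aarq, [.q, .y, .x, .p], .x, [], .y, [], []⟩,
  ⟨4, T_paqq, [.r], .x, [], .y, [], [.a, .y, .x]⟩,
  ⟨3, T_aarq, [.x], .x, [], .y, [], [.q, .y, .p]⟩,
  ⟨4, T_paqq, [.x, .y], .x, [], .y, [], [.a, .r]⟩,
  ⟨3, T_aarq, [.x, .y, .q], .x, [], .y, [], [.p]⟩,
  ⟨2, T_paqq, [.y, .a, .x], .x, [], .y, [], [.r]⟩,
  ⟨1, T_aarq, [.y, .q, .x, .p], .x, [], .y, [], []⟩,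
  ⟨2, T_paqq, [.y, .r, .x], .x, [], .y, [], [.a]⟩]

noncomputable def xy_3 : List Item := [
  ⟨3, T_paqq, [.y, .x, .a, .r], .x, [], .y, [], []⟩,
  ⟨4, T_aarq, [], .x, [], .y, [], [.p, .y, .q, .x]⟩,
  ⟨1, T_aarq, [], .x, [], .y, [], [.p, .y, .x, .q]⟩,
  ⟨1, T_aarq, [], .x, [], .y, [], [.y, .p, .x, .q]⟩,
  ⟨2, T_paqq, [], .x, [], .y, [], [.a, .r, .x, .y]⟩,
  ⟨3, T_paqq, [], .x, [], .y, [], [.y, .x, .a, .r]⟩,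
  ⟨1, T_paqq, [.a, .r, .x], .x, [], .y, [], [.y]⟩,
  ⟨3, T_paqq, [.a, .r, .x, .y], .x, [], .y, [], []⟩,
  ⟨4, T_paqq, [.a, .r, .y], .x, [], .y, [], [.x]⟩,
  ⟨2, T_paqq, [.a, .y, .r, .x], .x, [], .y, [], []⟩,
  ⟨4, T_aarq, [.p, .q, .y, .x], .x, [], .y, [], []⟩,
  ⟨2, T_aarq, [.p, .y, .x], .x, [], .y, [], [.q]⟩,
  ⟨1, T_aarq, [.q, .y, .p, .x], .x, [], .y, [], []⟩,
  ⟨3, T_paqq, [.r, .x, .y], .x, [], .y, [], [.a]⟩,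
  ⟨1, T_paqq, [.x], .x, [], .y, [], [.y, .a, .r]⟩,
  ⟨3, T_paqq, [.x, .a, .y, .r], .x, [], .y, [], []⟩,
  ⟨4, T_paqq, [.x, .r], .x, [], .y, [], [.y, .a]⟩,
  ⟨4, T_aarq, [.x, .y, .p, .q], .x, [], .y, [], []⟩,
  ⟨1, T_paqq, [.y, .a], .x, [], .y, [], [.r, .x]⟩,
  ⟨3, T_aarq, [.y], .x, [], .y, [], [.p, .x, .q]⟩,
  ⟨2, T_aarq, [.y], .x, [], .y, [], [.x, .p, .q]⟩,
  ⟨4, T_paqq, [.y], .x, [], .y, [], [.x, .a, .r]⟩,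
  ⟨2, T_paqq, [.y, .a, .r, .x], .x, [], .y, [], []⟩,
  ⟨2, T_aarq, [.y, .q, .x], .x, [], .y, [], [.p]⟩,
  ⟨2, T_aarq, [], .x, [], .y, [], [.p, .x, .q, .y]⟩,
  ⟨2, T_aarq, [], .x, [], .y, [], [.p, .x, .y, .q]⟩,
  ⟨4, T_aarq, [], .x, [], .y, [], [.y, .x, .p, .q]⟩,
  ⟨4, T_paqq, [], .x, [], .y, [], [.r, .x, .a, .y]⟩,
  ⟨3, T_paqq, [], .x, [], .y, [], [.y, .r, .x, .a]⟩,
  ⟨2, T_aarq, [.p], .x, [], .y, [], [.q, .y, .x]⟩,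
  ⟨2, T_aarq, [.p, .q, .x, .y], .x, [], .y, [], []⟩,
  ⟨4, T_aarq, [.p, .y], .x, [], .y, [], [.x, .q]⟩,
  ⟨4, T_aarq, [.q, .x], .x, [], .y, [], [.p, .y]⟩,
  ⟨1, T_aarq, [.q, .x, .p, .y], .x, [], .y, [], []⟩,
  ⟨3, T_paqq, [.r], .x, [], .y, [], [.y, .a, .x]⟩,
  ⟨1, T_paqq, [.r, .x], .x, [], .y, [], [.y, .a]⟩,
  ⟨1, T_paqq, [.x, .a], .x, [], .y, [], [.r, .y]⟩,
  ⟨3, T_paqq, [.x, .a], .x, [], .y, [], [.y, .r]⟩,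
  ⟨2, T_aarq, [.x], .x, [], .y, [], [.p, .y, .q]⟩,
  ⟨4, T_paqq, [.x, .a, .r, .y], .x, [], .y, [], []⟩,
  ⟨2, T_paqq, [.x, .a, .y], .x, [], .y, [], [.r]⟩,
  ⟨3, T_aarq, [.x, .p, .q, .y], .x, [], .y, [], []⟩,
  ⟨1, T_aarq, [.x, .p, .y], .x, [], .y, [], [.q]⟩,
  ⟨1, T_aarq, [.x, .q, .y], .x, [], .y, [], [.p]⟩,
  ⟨3, T_aarq, [.x, .q, .y, .p], .x, [], .y, [], []⟩,
  ⟨4, T_paqq, [.y, .a, .x, .r], .x, [], .y, [], []⟩,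
  ⟨3, T_paaq, [], .x, [], .y, [], [.r, .y, .q, .x]⟩,
  ⟨4, T_paaq, [], .x, [], .y, [], [.x, .y, .r, .q]⟩,
  ⟨3, T_paaq, [], .x, [], .y, [], [.y, .r, .q, .x]⟩,
  ⟨1, T_paar, [], .x, [], .y, [], [.x, .q, .y, .q]⟩]

noncomputable def xy_4 : List Item := [
  ⟨4, T_paar, [], .x, [], .y, [], [.x, .y, .q, .q]⟩,
  ⟨3, T_paar, [], .x, [], .y, [], [.y, .q, .q, .x]⟩,
  ⟨3, T_prqq, [.a, .a, .x], .x, [], .y, [], [.y]⟩,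
  ⟨1, T_arqq, [.a, .p, .x, .y], .x, [], .y, [], []⟩,
  ⟨4, T_arqq, [], .x, [], .y, [], [.p, .x, .a, .y]⟩,
  ⟨1, T_arqq, [], .x, [], .y, [], [.p, .y, .x, .a]⟩,
  ⟨4, T_arqq, [], .x, [], .y, [], [.x, .y, .a, .p]⟩,
  ⟨4, T_arqq, [], .x, [], .y, [], [.y, .a, .p, .x]⟩,
  ⟨4, T_prqq, [.a, .x, .a], .x, [], .y, [], [.y]⟩,
  ⟨4, T_prqq, [.a, .x, .a, .y], .x, [], .y, [], []⟩,
  ⟨1, T_arqq, [.p, .a, .x], .x, [], .y, [], [.y]⟩,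
  ⟨4, T_arqq, [.p, .a, .y], .x, [], .y, [], [.x]⟩,
  ⟨1, T_prqq, [], .x, [], .y, [], [.a, .x, .y, .a]⟩,
  ⟨4, T_arqq, [.p, .x, .a, .y], .x, [], .y, [], []⟩,
  ⟨2, T_arqq, [.p, .y], .x, [], .y, [], [.x, .a]⟩,
  ⟨1, T_paaq, [.q, .r, .y], .x, [], .y, [], [.x]⟩,
  ⟨1, T_paar, [.q, .x, .q, .y], .x, [], .y, [], []⟩,
  ⟨1, T_paaq, [.q, .y, .r], .x, [], .y, [], [.x]⟩,
  ⟨4, T_paaq, [.q, .y, .x], .x, [], .y, [], [.r]⟩,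
  ⟨3, T_arqq, [.x, .a, .y], .x, [], .y, [], [.p]⟩,
  ⟨4, T_prqq, [.x], .x, [], .y, [], [.a, .y, .a]⟩,
  ⟨3, T_paaq, [.x, .y, .q, .r], .x, [], .y, [], []⟩,
  ⟨2, T_arqq, [.y, .a, .p], .x, [], .y, [], [.x]⟩,
  ⟨4, T_arqq, [.y, .x, .a, .p], .x, [], .y, [], []⟩,
  ⟨3, T_paaq, [], .x, [], .y, [], [.y, .r, .x, .q]⟩,
  ⟨4, T_paar, [], .x, [], .y, [], [.y, .q, .x, .q]⟩,
  ⟨2, T_prqq, [.a], .x, [], .y, [], [.x, .y, .a]⟩,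
  ⟨1, T_arqq, [.a, .p, .y], .x, [], .y, [], [.x]⟩,
  ⟨3, T_arqq, [], .x, [], .y, [], [.p, .y, .a, .x]⟩,
  ⟨3, T_arqq, [], .x, [], .y, [], [.x, .p, .y, .a]⟩,
  ⟨3, T_arqq, [], .x, [], .y, [], [.x, .y, .p, .a]⟩,
  ⟨3, T_arqq, [], .x, [], .y, [], [.y, .x, .a, .p]⟩,
  ⟨2, T_arqq, [.a, .x], .x, [], .y, [], [.y, .p]⟩,
  ⟨2, T_arqq, [.a, .x, .y, .p], .x, [], .y, [], []⟩,
  ⟨3, T_arqq, [.a, .y], .x, [], .y, [], [.p, .x]⟩,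
  ⟨3, T_prqq, [], .x, [], .y, [], [.a, .x, .a, .y]⟩,
  ⟨1, T_paar, [.q], .x, [], .y, [], [.q, .y, .x]⟩,
  ⟨1, T_paar, [.q], .x, [], .y, [], [.x, .q, .y]⟩,
  ⟨3, T_paar, [.q], .x, [], .y, [], [.y, .x, .q]⟩,
  ⟨2, T_paaq, [.q, .r, .y, .x], .x, [], .y, [], []⟩,
  ⟨1, T_paar, [.q, .x, .y, .q], .x, [], .y, [], []⟩,
  ⟨3, T_paaq, [.q, .y], .x, [], .y, [], [.x, .r]⟩,
  ⟨4, T_paaq, [.r], .x, [], .y, [], [.x, .y, .q]⟩,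
  ⟨1, T_paaq, [.r, .q, .x], .x, [], .y, [], [.y]⟩,
  ⟨1, T_paaq, [.r, .q, .y], .x, [], .y, [], [.x]⟩,
  ⟨4, T_paaq, [.r, .y], .x, [], .y, [], [.x, .q]⟩,
  ⟨3, T_paaq, [.x], .x, [], .y, [], [.r, .y, .q]⟩,
  ⟨4, T_arqq, [.x, .a, .y, .p], .x, [], .y, [], []⟩,
  ⟨1, T_prqq, [.x], .x, [], .y, [], [.y, .a, .a]⟩,
  ⟨2, T_paar, [.x, .q, .y], .x, [], .y, [], [.q]⟩]

noncomputable def xy_5 : List Item := [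
  ⟨3, T_arqq, [.y], .x, [], .y, [], [.x, .p, .a]⟩,
  ⟨2, T_prqq, [.y, .a, .x, .a], .x, [], .y, [], []⟩,
  ⟨3, T_arqq, [.y, .p], .x, [], .y, [], [.x, .a]⟩,
  ⟨4, T_paar, [.y, .q, .x], .x, [], .y, [], [.q]⟩,
  ⟨3, T_paaq, [], .x, [], .y, [], [.x, .y, .q, .r]⟩,
  ⟨1, T_paaq, [], .x, [], .y, [], [.y, .x, .r, .q]⟩,
  ⟨4, T_paar, [], .x, [], .y, [], [.q, .x, .q, .y]⟩,
  ⟨1, T_prqq, [.a, .a, .y, .x], .x, [], .y, [], []⟩,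
  ⟨1, T_arqq, [.a, .p, .y, .x], .x, [], .y, [], []⟩,
  ⟨2, T_prqq, [.a, .y, .x, .a], .x, [], .y, [], []⟩,
  ⟨2, T_prqq, [.a, .y, .x], .x, [], .y, [], [.a]⟩,
  ⟨3, T_prqq, [], .x, [], .y, [], [.x, .a, .y, .a]⟩,
  ⟨3, T_prqq, [], .x, [], .y, [], [.x, .y, .a, .a]⟩,
  ⟨3, T_arqq, [.p, .y, .a, .x], .x, [], .y, [], []⟩,
  ⟨4, T_paar, [.q, .q, .x], .x, [], .y, [], [.y]⟩,
  ⟨1, T_paar, [.q, .q, .y], .x, [], .y, [], [.x]⟩,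
  ⟨3, T_paar, [.q, .q, .y, .x], .x, [], .y, [], []⟩,
  ⟨2, T_paaq, [.q, .r, .x], .x, [], .y, [], [.y]⟩,
  ⟨3, T_paar, [.q, .x, .q], .x, [], .y, [], [.y]⟩,
  ⟨4, T_paaq, [.r, .x, .q, .y], .x, [], .y, [], []⟩,
  ⟨4, T_paaq, [.x], .x, [], .y, [], [.y, .q, .r]⟩,
  ⟨3, T_paaq, [.x], .x, [], .y, [], [.y, .r, .q]⟩,
  ⟨4, T_arqq, [.x], .x, [], .y, [], [.y, .p, .a]⟩,
  ⟨1, T_paaq, [.x, .q, .r], .x, [], .y, [], [.y]⟩,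
  ⟨4, T_paar, [.x, .q, .y, .q], .x, [], .y, [], []⟩,
  ⟨3, T_paaq, [.y], .x, [], .y, [], [.r, .x, .q]⟩,
  ⟨4, T_paar, [.y], .x, [], .y, [], [.x, .q, .q]⟩,
  ⟨3, T_prqq, [.y, .a], .x, [], .y, [], [.x, .a]⟩,
  ⟨4, T_paaq, [.y, .q, .x], .x, [], .y, [], [.r]⟩,
  ⟨2, T_paaq, [], .x, [], .y, [], [.x, .q, .y, .r]⟩,
  ⟨3, T_paaq, [], .x, [], .y, [], [.y, .x, .q, .r]⟩,
  ⟨2, T_paar, [], .x, [], .y, [], [.q, .y, .q, .x]⟩,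
  ⟨4, T_paar, [], .x, [], .y, [], [.x, .q, .q, .y]⟩,
  ⟨2, T_arqq, [.a, .x, .p], .x, [], .y, [], [.y]⟩,
  ⟨1, T_prqq, [.a, .y], .x, [], .y, [], [.x, .a]⟩,
  ⟨3, T_arqq, [.a, .y, .p, .x], .x, [], .y, [], []⟩,
  ⟨4, T_arqq, [.p], .x, [], .y, [], [.y, .x, .a]⟩,
  ⟨2, T_arqq, [.p, .a, .y, .x], .x, [], .y, [], []⟩,
  ⟨3, T_paar, [.q, .q, .x, .y], .x, [], .y, [], []⟩,
  ⟨2, T_paaq, [.q, .x, .r, .y], .x, [], .y, [], []⟩,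
  ⟨3, T_paaq, [.q, .y], .x, [], .y, [], [.r, .x]⟩,
  ⟨3, T_paar, [.q, .y], .x, [], .y, [], [.x, .q]⟩,
  ⟨2, T_paar, [.q, .y, .q, .x], .x, [], .y, [], []⟩,
  ⟨4, T_paaq, [.q, .y, .r, .x], .x, [], .y, [], []⟩,
  ⟨4, T_paar, [.q, .y, .x], .x, [], .y, [], [.q]⟩,
  ⟨2, T_paaq, [.r, .q, .x, .y], .x, [], .y, [], []⟩,
  ⟨3, T_paaq, [.r, .q, .y, .x], .x, [], .y, [], []⟩,
  ⟨2, T_paaq, [.r, .x], .x, [], .y, [], [.y, .q]⟩,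
  ⟨4, T_paar, [.x], .x, [], .y, [], [.y, .q, .q]⟩,
  ⟨1, T_arqq, [.x, .a, .p, .y], .x, [], .y, [], []⟩]

noncomputable def xy_6 : List Item := [
  ⟨1, T_arqq, [.x], .x, [], .y, [], [.y, .a, .p]⟩,
  ⟨3, T_paaq, [.x, .q, .r, .y], .x, [], .y, [], []⟩,
  ⟨1, T_paaq, [.y], .x, [], .y, [], [.x, .q, .r]⟩,
  ⟨3, T_prqq, [.y, .a, .a, .x], .x, [], .y, [], []⟩,
  ⟨1, T_arqq, [.y, .a, .p, .x], .x, [], .y, [], []⟩,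
  ⟨3, T_arqq, [.y], .x, [], .y, [], [.x, .a, .p]⟩,
  ⟨3, T_prqq, [.y], .x, [], .y, [], [.x, .a, .a]⟩,
  ⟨3, T_paaq, [.y, .r, .q, .x], .x, [], .y, [], []⟩,
  ⟨4, T_paaq, [], .x, [], .y, [], [.x, .r, .q, .y]⟩,
  ⟨1, T_paaq, [], .x, [], .y, [], [.y, .q, .r, .x]⟩,
  ⟨4, T_paar, [], .x, [], .y, [], [.y, .x, .q, .q]⟩,
  ⟨1, T_arqq, [.a, .p, .x], .x, [], .y, [], [.y]⟩,
  ⟨3, T_arqq, [], .x, [], .y, [], [.x, .a, .p, .y]⟩,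
  ⟨4, T_arqq, [], .x, [], .y, [], [.x, .p, .a, .y]⟩,
  ⟨1, T_arqq, [], .x, [], .y, [], [.y, .a, .x, .p]⟩,
  ⟨4, T_arqq, [], .x, [], .y, [], [.y, .p, .x, .a]⟩,
  ⟨3, T_prqq, [.a, .x], .x, [], .y, [], [.y, .a]⟩,
  ⟨2, T_prqq, [.a, .y, .a, .x], .x, [], .y, [], []⟩,
  ⟨3, T_arqq, [.p, .a, .x, .y], .x, [], .y, [], []⟩,
  ⟨2, T_prqq, [], .x, [], .y, [], [.y, .a, .a, .x]⟩,
  ⟨3, T_prqq, [], .x, [], .y, [], [.y, .a, .x, .a]⟩,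
  ⟨3, T_arqq, [.p, .x], .x, [], .y, [], [.y, .a]⟩,
  ⟨2, T_paar, [.x], .x, [], .y, [], [.q, .y, .q]⟩,
  ⟨4, T_paaq, [.x, .r, .q, .y], .x, [], .y, [], []⟩,
  ⟨4, T_paaq, [.y], .x, [], .y, [], [.x, .r, .q]⟩,
  ⟨1, T_arqq, [.y, .p, .a, .x], .x, [], .y, [], []⟩,
  ⟨1, T_parq, [], .x, [], .y, [], [.x, .q, .y, .a]⟩,
  ⟨1, T_parq, [], .x, [], .y, [], [.y, .a, .x, .q]⟩,
  ⟨2, T_parq, [], .x, [], .y, [], [.y, .x, .a, .q]⟩,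
  ⟨1, T_parq, [.a, .y], .x, [], .y, [], [.x, .q]⟩,
  ⟨1, T_parq, [.y], .x, [], .y, [], [.x, .a, .q]⟩,
  ⟨3, T_parq, [], .x, [], .y, [], [.x, .a, .q, .y]⟩,
  ⟨4, T_parq, [.a, .q, .y], .x, [], .y, [], [.x]⟩,
  ⟨1, T_parq, [.a, .q, .y, .x], .x, [], .y, [], []⟩,
  ⟨4, T_parq, [.a, .x], .x, [], .y, [], [.y, .q]⟩,
  ⟨4, T_parq, [.q, .x, .a, .y], .x, [], .y, [], []⟩,
  ⟨4, T_parq, [], .x, [], .y, [], [.y, .a, .q, .x]⟩,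
  ⟨2, T_parq, [.a, .q, .x, .y], .x, [], .y, [], []⟩,
  ⟨2, T_parq, [], .x, [], .y, [], [.x, .a, .y, .q]⟩,
  ⟨4, T_parq, [], .x, [], .y, [], [.x, .y, .a, .q]⟩,
  ⟨1, T_parq, [.a, .q, .x], .x, [], .y, [], [.y]⟩,
  ⟨1, T_parq, [.q, .x], .x, [], .y, [], [.y, .a]⟩,
  ⟨3, T_parq, [.q, .y], .x, [], .y, [], [.x, .a]⟩,
  ⟨3, T_parq, [.x], .x, [], .y, [], [.y, .a, .q]⟩,
  ⟨1, T_parq, [.y, .a, .q, .x], .x, [], .y, [], []⟩,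
  ⟨2, T_parq, [.a, .x, .q, .y], .x, [], .y, [], []⟩,
  ⟨4, T_parq, [.a, .y, .q, .x], .x, [], .y, [], []⟩,
  ⟨1, T_parq, [.x, .a, .q, .y], .x, [], .y, [], []⟩,
  ⟨4, T_aaqx, [], .x, [], .y, [], [.q, .y, .p, .r]⟩,
  ⟨1, T_aaqx, [], .y, [], .y, [], [.p, .q, .x, .r]⟩]

noncomputable def xy_7 : List Item := [
  ⟨1, T_aaqx, [], .y, [], .y, [], [.p, .r, .x, .q]⟩,
  ⟨4, T_aaqx, [], .y, [], .y, [], [.r, .q, .x, .p]⟩,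
  ⟨2, T_aaqx, [], .y, [], .y, [], [.x, .p, .r, .q]⟩,
  ⟨1, T_pqqx, [.a, .a, .r], .x, [], .y, [], [.y]⟩,
  ⟨4, T_aarx, [], .x, [], .y, [], [.q, .q, .y, .p]⟩,
  ⟨4, T_pqqx, [.a], .y, [], .y, [], [.a, .x, .r]⟩,
  ⟨4, T_aqqx, [.a, .p, .r], .y, [], .y, [], [.x]⟩,
  ⟨1, T_aqqx, [.a, .p, .r, .x], .y, [], .y, [], []⟩,
  ⟨2, T_aqqx, [.a, .p, .x], .y, [], .y, [], [.r]⟩,
  ⟨4, T_aqqx, [], .x, [], .y, [], [.a, .p, .r, .y]⟩,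
  ⟨3, T_aqqx, [], .x, [], .y, [], [.p, .a, .r, .y]⟩,
  ⟨4, T_aqqx, [], .x, [], .y, [], [.r, .y, .p, .a]⟩,
  ⟨1, T_aqqx, [], .y, [], .y, [], [.p, .a, .x, .r]⟩,
  ⟨3, T_aqqx, [], .y, [], .y, [], [.x, .p, .a, .r]⟩,
  ⟨2, T_pqqx, [.a, .r], .x, [], .y, [], [.a, .y]⟩,
  ⟨3, T_pqqx, [.a, .r, .x, .a], .y, [], .y, [], []⟩,
  ⟨3, T_aqqx, [.a, .r, .y, .p], .x, [], .y, [], []⟩,
  ⟨4, T_pqqx, [.a, .x], .y, [], .y, [], [.a, .r]⟩,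
  ⟨2, T_aqqx, [.a, .x, .r], .y, [], .y, [], [.p]⟩,
  ⟨3, T_pqqx, [.a, .y, .a], .x, [], .y, [], [.r]⟩,
  ⟨1, T_aqqx, [.a, .y], .x, [], .y, [], [.p, .r]⟩,
  ⟨3, T_aaqx, [.p], .x, [], .y, [], [.q, .y, .r]⟩,
  ⟨2, T_aarx, [.p], .y, [], .y, [], [.x, .q, .q]⟩,
  ⟨1, T_aqqx, [.p], .x, [], .y, [], [.r, .y, .a]⟩,
  ⟨2, T_aqqx, [.p], .x, [], .y, [], [.y, .a, .r]⟩,
  ⟨1, T_aaqx, [.p, .q], .x, [], .y, [], [.r, .y]⟩,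
  ⟨3, T_aarx, [.p, .q], .y, [], .y, [], [.x, .q]⟩,
  ⟨2, T_aarx, [.p, .q, .q, .x], .y, [], .y, [], []⟩,
  ⟨3, T_pqqx, [], .x, [], .y, [], [.r, .y, .a, .a]⟩,
  ⟨1, T_aarx, [.p, .q, .q, .y], .x, [], .y, [], []⟩,
  ⟨2, T_aarx, [.p, .q, .y, .q], .x, [], .y, [], []⟩,
  ⟨3, T_aaqx, [.p, .r], .x, [], .y, [], [.q, .y]⟩,
  ⟨2, T_aaqx, [.p, .r], .x, [], .y, [], [.y, .q]⟩,
  ⟨3, T_aaqx, [.p, .r], .y, [], .y, [], [.x, .q]⟩,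
  ⟨3, T_aaqx, [.p, .r, .q], .y, [], .y, [], [.x]⟩,
  ⟨1, T_aaqx, [.p, .r, .y, .q], .x, [], .y, [], []⟩,
  ⟨2, T_aaqx, [.p, .x, .q], .y, [], .y, [], [.r]⟩,
  ⟨3, T_aaqx, [.p, .y], .x, [], .y, [], [.r, .q]⟩,
  ⟨1, T_aaqx, [.p, .y, .q], .x, [], .y, [], [.r]⟩,
  ⟨4, T_aarx, [.p, .y, .q], .x, [], .y, [], [.q]⟩,
  ⟨2, T_aaqx, [.q], .y, [], .y, [], [.r, .x, .p]⟩,
  ⟨4, T_aarx, [.q], .x, [], .y, [], [.p, .q, .y]⟩,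
  ⟨3, T_aarx, [.q, .q, .x, .p], .y, [], .y, [], []⟩,
  ⟨3, T_aarx, [.q, .x, .p, .q], .y, [], .y, [], []⟩,
  ⟨3, T_aarx, [.q, .x, .q], .y, [], .y, [], [.p]⟩,
  ⟨4, T_aarx, [.q, .y], .x, [], .y, [], [.p, .q]⟩,
  ⟨1, T_aarx, [.q, .y, .p, .q], .x, [], .y, [], []⟩,
  ⟨1, T_aaqx, [.q, .y, .r], .x, [], .y, [], [.p]⟩,
  ⟨3, T_aaqx, [.r], .y, [], .y, [], [.q, .x, .p]⟩,
  ⟨2, T_aqqx, [.r], .x, [], .y, [], [.y, .p, .a]⟩]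

noncomputable def xy_8 : List Item := [
  ⟨1, T_aaqx, [.r, .q], .x, [], .y, [], [.p, .y]⟩,
  ⟨3, T_aqqx, [.r, .x, .a], .y, [], .y, [], [.p]⟩,
  ⟨4, T_aaqx, [.r, .x], .y, [], .y, [], [.p, .q]⟩,
  ⟨3, T_aaqx, [.r, .y], .x, [], .y, [], [.p, .q]⟩,
  ⟨1, T_aaqx, [.r, .y, .p], .x, [], .y, [], [.q]⟩,
  ⟨3, T_aaqx, [.x], .y, [], .y, [], [.p, .q, .r]⟩,
  ⟨1, T_aaqx, [.x, .q], .y, [], .y, [], [.p, .r]⟩,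
  ⟨3, T_aarx, [.x, .q], .y, [], .y, [], [.p, .q]⟩,
  ⟨1, T_aqqx, [.y, .a], .x, [], .y, [], [.p, .r]⟩,
  ⟨1, T_pqqx, [.y, .a, .a, .r], .x, [], .y, [], []⟩,
  ⟨4, T_aqqx, [.y, .a, .p], .x, [], .y, [], [.r]⟩,
  ⟨4, T_aaqx, [.y, .p], .x, [], .y, [], [.q, .r]⟩,
  ⟨3, T_aaqx, [.y, .p], .x, [], .y, [], [.r, .q]⟩,
  ⟨4, T_aaqx, [.y, .p, .q, .r], .x, [], .y, [], []⟩,
  ⟨2, T_aaqx, [.y, .p, .r, .q], .x, [], .y, [], []⟩,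
  ⟨2, T_aqqx, [.y, .r], .x, [], .y, [], [.a, .p]⟩,
  ⟨4, T_aqqx, [.y, .r], .x, [], .y, [], [.p, .a]⟩,
  ⟨3, T_pqqx, [.y, .r], .x, [], .y, [], [.a, .a]⟩,
  ⟨3, T_pqqx, [.a, .a], .y, [], .y, [], [.x, .r]⟩,
  ⟨2, T_aqqx, [.a], .x, [], .y, [], [.r, .y, .p]⟩,
  ⟨4, T_aqqx, [.a], .x, [], .y, [], [.y, .p, .r]⟩,
  ⟨4, T_aqqx, [.a], .y, [], .y, [], [.p, .r, .x]⟩,
  ⟨2, T_aaqx, [], .x, [], .y, [], [.p, .r, .q, .y]⟩,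
  ⟨1, T_aaqx, [], .x, [], .y, [], [.q, .r, .y, .p]⟩,
  ⟨2, T_aaqx, [], .x, [], .y, [], [.r, .q, .y, .p]⟩,
  ⟨1, T_aaqx, [], .x, [], .y, [], [.y, .p, .r, .q]⟩,
  ⟨1, T_aaqx, [], .y, [], .y, [], [.p, .r, .q, .x]⟩,
  ⟨2, T_aaqx, [], .y, [], .y, [], [.p, .x, .q, .r]⟩,
  ⟨1, T_aaqx, [], .y, [], .y, [], [.p, .x, .r, .q]⟩,
  ⟨4, T_aaqx, [], .y, [], .y, [], [.q, .x, .p, .r]⟩,
  ⟨2, T_pqqx, [.a, .a, .r], .y, [], .y, [], [.x]⟩,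
  ⟨3, T_aarx, [], .x, [], .y, [], [.p, .q, .q, .y]⟩,
  ⟨4, T_aarx, [], .y, [], .y, [], [.p, .q, .x, .q]⟩,
  ⟨1, T_aarx, [], .y, [], .y, [], [.x, .p, .q, .q]⟩,
  ⟨2, T_pqqx, [.a, .a, .x, .r], .y, [], .y, [], []⟩,
  ⟨4, T_pqqx, [.a, .a, .y, .r], .x, [], .y, [], []⟩,
  ⟨3, T_pqqx, [.a], .x, [], .y, [], [.y, .a, .r]⟩,
  ⟨3, T_pqqx, [.a], .y, [], .y, [], [.x, .a, .r]⟩,
  ⟨4, T_aqqx, [], .x, [], .y, [], [.a, .p, .y, .r]⟩,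
  ⟨1, T_aqqx, [], .y, [], .y, [], [.a, .p, .x, .r]⟩,
  ⟨3, T_aqqx, [], .y, [], .y, [], [.a, .x, .p, .r]⟩,
  ⟨3, T_aqqx, [], .y, [], .y, [], [.p, .x, .a, .r]⟩,
  ⟨4, T_pqqx, [.a, .r], .x, [], .y, [], [.y, .a]⟩,
  ⟨3, T_pqqx, [.a, .r], .y, [], .y, [], [.x, .a]⟩,
  ⟨1, T_pqqx, [.a, .x, .a, .r], .y, [], .y, [], []⟩,
  ⟨3, T_aqqx, [.p, .a], .x, [], .y, [], [.y, .r]⟩,
  ⟨1, T_aqqx, [.p, .a], .y, [], .y, [], [.x, .r]⟩,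
  ⟨3, T_aaqx, [.p], .x, [], .y, [], [.r, .y, .q]⟩,
  ⟨2, T_aaqx, [.p], .x, [], .y, [], [.y, .r, .q]⟩,
  ⟨3, T_aarx, [.p], .x, [], .y, [], [.q, .q, .y]⟩]

noncomputable def xy_9 : List Item := [
  ⟨4, T_aqqx, [.p], .x, [], .y, [], [.a, .y, .r]⟩,
  ⟨1, T_aqqx, [.p], .y, [], .y, [], [.a, .r, .x]⟩,
  ⟨2, T_aqqx, [.p], .y, [], .y, [], [.x, .a, .r]⟩,
  ⟨2, T_aqqx, [.p, .a, .r], .y, [], .y, [], [.x]⟩,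
  ⟨2, T_aarx, [.p, .q, .q], .y, [], .y, [], [.x]⟩,
  ⟨4, T_pqqx, [], .x, [], .y, [], [.a, .y, .a, .r]⟩,
  ⟨3, T_pqqx, [], .y, [], .y, [], [.a, .a, .r, .x]⟩,
  ⟨3, T_aaqx, [.p, .q, .r, .x], .y, [], .y, [], []⟩,
  ⟨3, T_aaqx, [.p, .q, .x], .y, [], .y, [], [.r]⟩,
  ⟨4, T_aqqx, [.p, .r], .x, [], .y, [], [.a, .y]⟩,
  ⟨2, T_aaqx, [.p, .r, .x, .q], .y, [], .y, [], []⟩,
  ⟨1, T_aaqx, [.p, .r, .y], .x, [], .y, [], [.q]⟩,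
  ⟨4, T_aaqx, [.p, .x, .q, .r], .y, [], .y, [], []⟩,
  ⟨2, T_aqqx, [.p, .y], .x, [], .y, [], [.a, .r]⟩,
  ⟨4, T_aarx, [.q], .x, [], .y, [], [.q, .y, .p]⟩,
  ⟨1, T_aarx, [.q, .q], .x, [], .y, [], [.y, .p]⟩,
  ⟨2, T_aarx, [.q, .q], .y, [], .y, [], [.x, .p]⟩,
  ⟨3, T_aarx, [.q, .q, .x], .y, [], .y, [], [.p]⟩,
  ⟨4, T_aarx, [.q, .q, .y, .p], .x, [], .y, [], []⟩,
  ⟨3, T_aaqx, [.q, .r, .x, .p], .y, [], .y, [], []⟩,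
  ⟨3, T_aaqx, [.q, .r, .y], .x, [], .y, [], [.p]⟩,
  ⟨3, T_aarx, [.q, .x, .p], .y, [], .y, [], [.q]⟩,
  ⟨1, T_aaqx, [.q, .y, .p], .x, [], .y, [], [.r]⟩,
  ⟨4, T_aaqx, [.r], .y, [], .y, [], [.p, .x, .q]⟩,
  ⟨1, T_aaqx, [.r], .y, [], .y, [], [.x, .p, .q]⟩,
  ⟨2, T_aqqx, [.r], .x, [], .y, [], [.a, .y, .p]⟩,
  ⟨1, T_aqqx, [.r], .y, [], .y, [], [.x, .a, .p]⟩,
  ⟨4, T_pqqx, [.r], .x, [], .y, [], [.a, .a, .y]⟩,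
  ⟨1, T_pqqx, [.r], .x, [], .y, [], [.a, .y, .a]⟩,
  ⟨1, T_pqqx, [.r], .y, [], .y, [], [.a, .x, .a]⟩,
  ⟨3, T_pqqx, [.r, .x, .a, .a], .y, [], .y, [], []⟩,
  ⟨3, T_aqqx, [.r, .y, .p, .a], .x, [], .y, [], []⟩,
  ⟨4, T_aqqx, [.r, .y, .p], .x, [], .y, [], [.a]⟩,
  ⟨2, T_pqqx, [.x, .a, .a], .y, [], .y, [], [.r]⟩,
  ⟨1, T_aarx, [.x], .y, [], .y, [], [.p, .q, .q]⟩,
  ⟨4, T_aqqx, [.x, .a, .p, .r], .y, [], .y, [], []⟩,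
  ⟨4, T_aqqx, [.x], .y, [], .y, [], [.p, .a, .r]⟩,
  ⟨2, T_aaqx, [.x, .p], .y, [], .y, [], [.r, .q]⟩,
  ⟨3, T_aqqx, [.x, .p], .y, [], .y, [], [.a, .r]⟩,
  ⟨2, T_aaqx, [.x, .q, .r], .y, [], .y, [], [.p]⟩,
  ⟨3, T_aqqx, [.y, .p, .a], .x, [], .y, [], [.r]⟩,
  ⟨3, T_aarx, [.y, .p], .x, [], .y, [], [.q, .q]⟩,
  ⟨3, T_aarx, [.y, .q], .x, [], .y, [], [.p, .q]⟩,
  ⟨1, T_pqqx, [.a, .a], .x, [], .y, [], [.y, .r]⟩,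
  ⟨1, T_aqqx, [.a], .y, [], .y, [], [.p, .x, .r]⟩,
  ⟨3, T_aaqx, [], .x, [], .y, [], [.p, .y, .r, .q]⟩,
  ⟨1, T_aqqx, [.a, .p], .y, [], .y, [], [.r, .x]⟩,
  ⟨2, T_pqqx, [.a], .x, [], .y, [], [.a, .r, .y]⟩,
  ⟨2, T_pqqx, [.a], .x, [], .y, [], [.r, .y, .a]⟩,
  ⟨3, T_pqqx, [.a], .y, [], .y, [], [.r, .x, .a]⟩]

noncomputable def xy_10 : List Item := [
  ⟨1, T_aqqx, [.a, .p, .r, .y], .x, [], .y, [], []⟩,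
  ⟨3, T_aqqx, [.a, .p, .y, .r], .x, [], .y, [], []⟩,
  ⟨2, T_aqqx, [.a, .r], .y, [], .y, [], [.x, .p]⟩,
  ⟨2, T_aqqx, [.a, .r, .x, .p], .y, [], .y, [], []⟩,
  ⟨2, T_pqqx, [.a, .r, .y], .x, [], .y, [], [.a]⟩,
  ⟨1, T_pqqx, [.a, .y, .a, .r], .x, [], .y, [], []⟩,
  ⟨3, T_pqqx, [.a, .y], .x, [], .y, [], [.a, .r]⟩,
  ⟨1, T_aqqx, [.p, .a], .y, [], .y, [], [.r, .x]⟩,
  ⟨1, T_aaqx, [.p], .x, [], .y, [], [.y, .q, .r]⟩,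
  ⟨1, T_aaqx, [.p], .y, [], .y, [], [.x, .r, .q]⟩,
  ⟨4, T_aarx, [.p], .x, [], .y, [], [.q, .y, .q]⟩,
  ⟨4, T_aarx, [.p], .x, [], .y, [], [.y, .q, .q]⟩,
  ⟨2, T_aarx, [.p], .y, [], .y, [], [.q, .q, .x]⟩,
  ⟨2, T_aqqx, [.p], .y, [], .y, [], [.a, .x, .r]⟩,
  ⟨3, T_aaqx, [.p, .q], .y, [], .y, [], [.r, .x]⟩,
  ⟨1, T_aarx, [.p, .q], .x, [], .y, [], [.q, .y]⟩,
  ⟨1, T_aarx, [.p, .q], .x, [], .y, [], [.y, .q]⟩,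
  ⟨1, T_pqqx, [], .y, [], .y, [], [.r, .x, .a, .a]⟩,
  ⟨4, T_pqqx, [], .y, [], .y, [], [.x, .a, .a, .r]⟩,
  ⟨4, T_aaqx, [.p, .q, .r], .x, [], .y, [], [.y]⟩,
  ⟨3, T_aaqx, [.p, .q, .r], .y, [], .y, [], [.x]⟩,
  ⟨3, T_aarx, [.p, .q, .x, .q], .y, [], .y, [], []⟩,
  ⟨1, T_aaqx, [.p, .q, .x, .r], .y, [], .y, [], []⟩,
  ⟨1, T_aaqx, [.p, .q, .y, .r], .x, [], .y, [], []⟩,
  ⟨1, T_aaqx, [.p, .r, .q], .x, [], .y, [], [.y]⟩,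
  ⟨2, T_aaqx, [.p, .r, .q, .x], .y, [], .y, [], []⟩,
  ⟨4, T_aaqx, [.p, .r, .q, .y], .x, [], .y, [], []⟩,
  ⟨1, T_aaqx, [.p, .r, .x], .y, [], .y, [], [.q]⟩,
  ⟨4, T_aqqx, [.p, .r, .x], .y, [], .y, [], [.a]⟩,
  ⟨3, T_aqqx, [.p, .x, .a, .r], .y, [], .y, [], []⟩,
  ⟨1, T_aaqx, [.p, .x, .r, .q], .y, [], .y, [], []⟩,
  ⟨3, T_aarx, [.p, .y, .q, .q], .x, [], .y, [], []⟩,
  ⟨3, T_aaqx, [.p, .y, .q, .r], .x, [], .y, [], []⟩,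
  ⟨1, T_aaqx, [.p, .y, .r, .q], .x, [], .y, [], []⟩,
  ⟨4, T_aaqx, [.q], .x, [], .y, [], [.p, .r, .y]⟩,
  ⟨3, T_aaqx, [.q], .x, [], .y, [], [.r, .y, .p]⟩,
  ⟨2, T_aarx, [.q], .y, [], .y, [], [.p, .q, .x]⟩,
  ⟨4, T_aaqx, [.q, .r], .x, [], .y, [], [.p, .y]⟩,
  ⟨1, T_aaqx, [.q, .r], .y, [], .y, [], [.p, .x]⟩,
  ⟨3, T_aaqx, [.q, .r], .y, [], .y, [], [.x, .p]⟩,
  ⟨1, T_aqqx, [.r], .x, [], .y, [], [.p, .y, .a]⟩,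
  ⟨2, T_aqqx, [.r], .y, [], .y, [], [.p, .a, .x]⟩,
  ⟨3, T_aqqx, [.r], .y, [], .y, [], [.x, .p, .a]⟩,
  ⟨4, T_pqqx, [.r], .x, [], .y, [], [.y, .a, .a]⟩,
  ⟨1, T_aaqx, [.r, .q, .y, .p], .x, [], .y, [], []⟩,
  ⟨3, T_aqqx, [.r, .x, .a, .p], .y, [], .y, [], []⟩,
  ⟨2, T_aaqx, [.r, .x, .p], .y, [], .y, [], [.q]⟩,
  ⟨4, T_aqqx, [.r, .y, .a, .p], .x, [], .y, [], []⟩,
  ⟨4, T_aqqx, [.x, .a], .y, [], .y, [], [.p, .r]⟩,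
  ⟨3, T_aqqx, [.x, .a, .p], .y, [], .y, [], [.r]⟩]

noncomputable def xy_11 : List Item := [
  ⟨1, T_pqqx, [.x, .a], .y, [], .y, [], [.a, .r]⟩,
  ⟨3, T_pqqx, [.x, .a, .r], .y, [], .y, [], [.a]⟩,
  ⟨2, T_aaqx, [.x, .p], .y, [], .y, [], [.q, .r]⟩,
  ⟨4, T_aarx, [.x, .p, .q], .y, [], .y, [], [.q]⟩,
  ⟨4, T_pqqx, [.x], .y, [], .y, [], [.a, .a, .r]⟩,
  ⟨4, T_pqqx, [.x, .r], .y, [], .y, [], [.a, .a]⟩,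
  ⟨3, T_aaqx, [.x, .r, .q], .y, [], .y, [], [.p]⟩,
  ⟨1, T_pqqx, [.y, .a, .a], .x, [], .y, [], [.r]⟩,
  ⟨1, T_pqqx, [.y, .a], .x, [], .y, [], [.a, .r]⟩,
  ⟨1, T_aqqx, [.y, .p, .a, .r], .x, [], .y, [], []⟩,
  ⟨3, T_aarx, [.y, .p, .q], .x, [], .y, [], [.q]⟩,
  ⟨4, T_pqqx, [.a, .a], .y, [], .y, [], [.r, .x]⟩,
  ⟨2, T_aqqx, [.a], .x, [], .y, [], [.p, .y, .r]⟩,
  ⟨4, T_aaqx, [], .x, [], .y, [], [.r, .y, .p, .q]⟩,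
  ⟨1, T_aaqx, [], .y, [], .y, [], [.x, .p, .q, .r]⟩,
  ⟨2, T_aarx, [], .y, [], .y, [], [.p, .q, .q, .x]⟩,
  ⟨4, T_pqqx, [.a, .a, .x], .y, [], .y, [], [.r]⟩,
  ⟨1, T_pqqx, [.a, .a, .y], .x, [], .y, [], [.r]⟩,
  ⟨1, T_aqqx, [.a, .p], .x, [], .y, [], [.r, .y]⟩,
  ⟨4, T_pqqx, [.a], .x, [], .y, [], [.a, .y, .r]⟩,
  ⟨1, T_aqqx, [.a, .p, .x, .r], .y, [], .y, [], []⟩,
  ⟨3, T_aqqx, [], .x, [], .y, [], [.p, .r, .y, .a]⟩,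
  ⟨3, T_aqqx, [], .x, [], .y, [], [.p, .y, .a, .r]⟩,
  ⟨1, T_aqqx, [.a, .r], .y, [], .y, [], [.p, .x]⟩,
  ⟨4, T_pqqx, [.a, .r], .y, [], .y, [], [.a, .x]⟩,
  ⟨3, T_aqqx, [.a, .r, .x], .y, [], .y, [], [.p]⟩,
  ⟨1, T_pqqx, [.a, .r, .x], .y, [], .y, [], [.a]⟩,
  ⟨4, T_aqqx, [.a, .x], .y, [], .y, [], [.p, .r]⟩,
  ⟨3, T_pqqx, [.a, .x, .r], .y, [], .y, [], [.a]⟩,
  ⟨1, T_aaqx, [.p], .x, [], .y, [], [.q, .r, .y]⟩,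
  ⟨3, T_aaqx, [.p], .y, [], .y, [], [.x, .q, .r]⟩,
  ⟨3, T_aqqx, [.p], .y, [], .y, [], [.r, .x, .a]⟩,
  ⟨2, T_aqqx, [.p, .a, .r, .y], .x, [], .y, [], []⟩,
  ⟨4, T_aqqx, [.p, .a, .x], .y, [], .y, [], [.r]⟩,
  ⟨4, T_aaqx, [.p, .q], .y, [], .y, [], [.x, .r]⟩,
  ⟨4, T_aarx, [.p, .q, .q], .x, [], .y, [], [.y]⟩,
  ⟨1, T_pqqx, [], .x, [], .y, [], [.a, .a, .r, .y]⟩,
  ⟨4, T_pqqx, [], .x, [], .y, [], [.a, .a, .y, .r]⟩,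
  ⟨3, T_pqqx, [], .x, [], .y, [], [.y, .a, .a, .r]⟩,
  ⟨3, T_pqqx, [], .y, [], .y, [], [.a, .a, .x, .r]⟩,
  ⟨4, T_pqqx, [], .y, [], .y, [], [.a, .r, .x, .a]⟩,
  ⟨2, T_pqqx, [], .y, [], .y, [], [.a, .x, .a, .r]⟩,
  ⟨4, T_aarx, [.p, .x, .q, .q], .y, [], .y, [], []⟩,
  ⟨4, T_aqqx, [.p, .x, .r], .y, [], .y, [], [.a]⟩,
  ⟨1, T_aqqx, [.p, .y, .a], .x, [], .y, [], [.r]⟩,
  ⟨2, T_aaqx, [.p, .y, .r], .x, [], .y, [], [.q]⟩,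
  ⟨4, T_aarx, [.q], .x, [], .y, [], [.y, .p, .q]⟩,
  ⟨1, T_aarx, [.q], .y, [], .y, [], [.q, .x, .p]⟩,
  ⟨4, T_aarx, [.q], .y, [], .y, [], [.x, .p, .q]⟩,
  ⟨4, T_aarx, [.q, .q], .y, [], .y, [], [.p, .x]⟩]

noncomputable def xy_12 : List Item := [
  ⟨4, T_aaqx, [.q, .r], .x, [], .y, [], [.y, .p]⟩,
  ⟨4, T_aaqx, [.q, .r, .x], .y, [], .y, [], [.p]⟩,
  ⟨3, T_aaqx, [.q, .r, .y, .p], .x, [], .y, [], []⟩,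
  ⟨1, T_aaqx, [.q, .x, .p], .y, [], .y, [], [.r]⟩,
  ⟨3, T_aaqx, [.q, .x, .p, .r], .y, [], .y, [], []⟩,
  ⟨2, T_aaqx, [.r], .x, [], .y, [], [.p, .y, .q]⟩,
  ⟨1, T_aqqx, [.r], .y, [], .y, [], [.p, .x, .a]⟩,
  ⟨3, T_pqqx, [.r, .x, .a], .y, [], .y, [], [.a]⟩,
  ⟨1, T_aqqx, [.r, .x], .y, [], .y, [], [.p, .a]⟩,
  ⟨2, T_pqqx, [.r, .y, .a, .a], .x, [], .y, [], []⟩,
  ⟨4, T_aqqx, [.r, .y, .a], .x, [], .y, [], [.p]⟩,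
  ⟨2, T_pqqx, [.r, .y], .x, [], .y, [], [.a, .a]⟩,
  ⟨4, T_aaqx, [.x], .y, [], .y, [], [.p, .r, .q]⟩,
  ⟨4, T_aqqx, [.x, .p, .a], .y, [], .y, [], [.r]⟩,
  ⟨2, T_aaqx, [.x, .p, .q, .r], .y, [], .y, [], []⟩,
  ⟨3, T_aaqx, [.y], .x, [], .y, [], [.p, .q, .r]⟩,
  ⟨3, T_aqqx, [.y], .x, [], .y, [], [.a, .p, .r]⟩,
  ⟨2, T_aqqx, [.y], .x, [], .y, [], [.p, .a, .r]⟩,
  ⟨4, T_aqqx, [.y, .a, .r], .x, [], .y, [], [.p]⟩,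
  ⟨4, T_aqqx, [.y, .p], .x, [], .y, [], [.a, .r]⟩,
  ⟨4, T_aaqx, [.y, .p, .r], .x, [], .y, [], [.q]⟩,
  ⟨1, T_aarx, [.y, .q, .q], .x, [], .y, [], [.p]⟩,
  ⟨4, T_pqqx, [.a, .a], .x, [], .y, [], [.r, .y]⟩,
  ⟨1, T_aaqx, [], .x, [], .y, [], [.p, .q, .y, .r]⟩,
  ⟨4, T_aaqx, [], .x, [], .y, [], [.p, .y, .q, .r]⟩,
  ⟨3, T_aaqx, [], .x, [], .y, [], [.y, .p, .q, .r]⟩,
  ⟨3, T_aaqx, [], .y, [], .y, [], [.r, .x, .p, .q]⟩,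
  ⟨2, T_pqqx, [.a, .a, .r, .y], .x, [], .y, [], []⟩,
  ⟨1, T_aarx, [], .y, [], .y, [], [.p, .x, .q, .q]⟩,
  ⟨4, T_aarx, [], .y, [], .y, [], [.q, .q, .x, .p]⟩,
  ⟨2, T_pqqx, [.a], .y, [], .y, [], [.a, .r, .x]⟩,
  ⟨3, T_aqqx, [.a, .p, .r], .x, [], .y, [], [.y]⟩,
  ⟨3, T_aqqx, [.a, .p, .y], .x, [], .y, [], [.r]⟩,
  ⟨3, T_aqqx, [], .x, [], .y, [], [.r, .y, .a, .p]⟩,
  ⟨4, T_aqqx, [], .x, [], .y, [], [.y, .p, .a, .r]⟩,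
  ⟨3, T_aqqx, [], .y, [], .y, [], [.p, .r, .x, .a]⟩,
  ⟨2, T_aqqx, [], .y, [], .y, [], [.r, .x, .p, .a]⟩,
  ⟨1, T_aqqx, [], .y, [], .y, [], [.x, .a, .p, .r]⟩,
  ⟨3, T_aqqx, [.a, .r], .x, [], .y, [], [.y, .p]⟩,
  ⟨4, T_aqqx, [.a, .r, .y], .x, [], .y, [], [.p]⟩,
  ⟨4, T_aqqx, [.a, .y, .p], .x, [], .y, [], [.r]⟩,
  ⟨1, T_aqqx, [.a, .y, .r], .x, [], .y, [], [.p]⟩,
  ⟨2, T_aaqx, [.p], .x, [], .y, [], [.r, .q, .y]⟩,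
  ⟨2, T_aaqx, [.p], .y, [], .y, [], [.r, .q, .x]⟩,
  ⟨3, T_aaqx, [.p], .y, [], .y, [], [.r, .x, .q]⟩,
  ⟨4, T_aarx, [.p], .y, [], .y, [], [.q, .x, .q]⟩,
  ⟨2, T_aarx, [.p, .q], .y, [], .y, [], [.q, .x]⟩,
  ⟨2, T_aarx, [.p, .q, .y], .x, [], .y, [], [.q]⟩,
  ⟨3, T_aqqx, [.p, .r], .x, [], .y, [], [.y, .a]⟩,
  ⟨1, T_aaqx, [.p, .x], .y, [], .y, [], [.r, .q]⟩]

noncomputable def xy_13 : List Item := [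
  ⟨1, T_aarx, [.p, .x], .y, [], .y, [], [.q, .q]⟩,
  ⟨3, T_aarx, [.p, .y], .x, [], .y, [], [.q, .q]⟩,
  ⟨3, T_aqqx, [.p, .y, .a, .r], .x, [], .y, [], []⟩,
  ⟨1, T_aarx, [.q], .x, [], .y, [], [.p, .y, .q]⟩,
  ⟨4, T_aarx, [.q], .y, [], .y, [], [.p, .x, .q]⟩,
  ⟨1, T_aarx, [.q, .q], .x, [], .y, [], [.p, .y]⟩,
  ⟨2, T_aaqx, [.q, .y], .x, [], .y, [], [.p, .r]⟩,
  ⟨1, T_aaqx, [.r], .x, [], .y, [], [.q, .y, .p]⟩,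
  ⟨2, T_pqqx, [.r], .y, [], .y, [], [.a, .a, .x]⟩,
  ⟨2, T_pqqx, [.r], .y, [], .y, [], [.x, .a, .a]⟩,
  ⟨1, T_aaqx, [.r, .q, .y], .x, [], .y, [], [.p]⟩,
  ⟨4, T_pqqx, [.r, .x], .y, [], .y, [], [.a, .a]⟩,
  ⟨4, T_aqqx, [.x, .p, .a, .r], .y, [], .y, [], []⟩,
  ⟨2, T_aaqx, [.x, .r], .y, [], .y, [], [.p, .q]⟩,
  ⟨4, T_aqqx, [.x, .r], .y, [], .y, [], [.p, .a]⟩,
  ⟨1, T_aaqx, [.y], .x, [], .y, [], [.p, .r, .q]⟩,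
  ⟨2, T_pqqx, [.y], .x, [], .y, [], [.a, .a, .r]⟩,
  ⟨4, T_aaqx, [.y, .r], .x, [], .y, [], [.p, .q]⟩,
  ⟨4, T_prqx, [.a, .a], .y, [], .y, [], [.q, .x]⟩,
  ⟨3, T_paqx, [.a], .x, [], .y, [], [.q, .y, .r]⟩,
  ⟨3, T_paqx, [.a], .y, [], .y, [], [.r, .q, .x]⟩,
  ⟨2, T_paax, [], .x, [], .y, [], [.r, .y, .q, .q]⟩,
  ⟨1, T_paax, [], .y, [], .y, [], [.q, .x, .r, .q]⟩,
  ⟨4, T_qqxy, [.a, .a], .x, [], .y, [], [.p, .r]⟩,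
  ⟨4, T_aqqx, [.a], .y, [.r], .y, [], [.x, .p]⟩,
  ⟨2, T_arqx, [.a], .y, [], .y, [], [.p, .q, .x]⟩,
  ⟨3, T_aaqx, [], .x, [.p], .y, [], [.y, .r, .q]⟩,
  ⟨3, T_aaqx, [], .y, [.p], .y, [], [.r, .x, .q]⟩,
  ⟨1, T_aaqx, [], .y, [.p], .y, [], [.x, .r, .q]⟩,
  ⟨4, T_qqxy, [.a, .a, .r], .x, [], .y, [], [.p]⟩,
  ⟨2, T_aarx, [], .x, [.q], .y, [], [.p, .q, .y]⟩,
  ⟨1, T_aarx, [], .x, [.q], .y, [], [.y, .p, .q]⟩,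
  ⟨4, T_aarx, [], .y, [.p], .y, [], [.x, .q, .q]⟩,
  ⟨4, T_aaxy, [], .x, [], .y, [], [.p, .r, .q, .q]⟩,
  ⟨1, T_rqqx, [.a, .p, .a], .y, [], .y, [], [.x]⟩,
  ⟨1, T_rqqx, [.a, .p], .y, [], .y, [], [.x, .a]⟩,
  ⟨3, T_pqqx, [.a], .x, [.r], .y, [], [.y, .a]⟩,
  ⟨2, T_qqxy, [.a, .p], .x, [], .y, [], [.a, .r]⟩,
  ⟨3, T_pqqx, [.a], .y, [.r], .y, [], [.x, .a]⟩,
  ⟨2, T_prqx, [.a], .x, [], .y, [], [.a, .y, .q]⟩,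
  ⟨1, T_prqx, [.a], .y, [], .y, [], [.a, .x, .q]⟩,
  ⟨3, T_prqx, [.a], .y, [], .y, [], [.x, .a, .q]⟩,
  ⟨4, T_paqx, [], .x, [], .y, [], [.a, .q, .y, .r]⟩,
  ⟨4, T_paqx, [], .x, [], .y, [], [.a, .y, .q, .r]⟩,
  ⟨4, T_paqx, [], .x, [], .y, [], [.r, .y, .a, .q]⟩,
  ⟨1, T_paqx, [], .y, [], .y, [], [.a, .r, .x, .q]⟩,
  ⟨1, T_paqx, [], .y, [], .y, [], [.x, .a, .q, .r]⟩,
  ⟨4, T_aqqx, [.a, .p, .x], .y, [.r], .y, [], []⟩,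
  ⟨2, T_arqx, [.a, .p, .x], .y, [], .y, [], [.q]⟩,
  ⟨4, T_rqqx, [.a, .p, .y], .x, [], .y, [], [.a]⟩]

noncomputable def xy_14 : List Item := [
  ⟨2, T_prqx, [.a, .q], .x, [], .y, [], [.y, .a]⟩,
  ⟨1, T_rqqx, [.a], .x, [], .y, [], [.a, .y, .p]⟩,
  ⟨4, T_rqqx, [.a], .y, [], .y, [], [.a, .p, .x]⟩,
  ⟨4, T_rqqx, [.a], .y, [], .y, [], [.x, .a, .p]⟩,
  ⟨3, T_rqqx, [.a], .y, [], .y, [], [.x, .p, .a]⟩,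
  ⟨2, T_aqqx, [], .y, [.r], .y, [], [.a, .x, .p]⟩,
  ⟨1, T_aqqx, [], .y, [.r], .y, [], [.x, .a, .p]⟩,
  ⟨3, T_paqx, [.a, .q, .r], .y, [], .y, [], [.x]⟩,
  ⟨3, T_arqx, [], .x, [], .y, [], [.a, .p, .q, .y]⟩,
  ⟨4, T_arqx, [], .x, [], .y, [], [.a, .y, .p, .q]⟩,
  ⟨2, T_arqx, [], .x, [], .y, [], [.y, .p, .a, .q]⟩,
  ⟨4, T_arqx, [], .y, [], .y, [], [.p, .x, .a, .q]⟩,
  ⟨1, T_arqx, [], .y, [], .y, [], [.q, .x, .a, .p]⟩,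
  ⟨4, T_arqx, [], .y, [], .y, [], [.x, .a, .p, .q]⟩,
  ⟨1, T_parx, [.a, .q, .x], .y, [], .y, [], [.q]⟩,
  ⟨1, T_paqx, [.a, .q, .x, .r], .y, [], .y, [], []⟩,
  ⟨2, T_prqx, [.a, .q, .y, .a], .x, [], .y, [], []⟩,
  ⟨2, T_paqx, [.a, .q, .y], .x, [], .y, [], [.r]⟩,
  ⟨4, T_prqx, [.a, .q, .y], .x, [], .y, [], [.a]⟩,
  ⟨2, T_aqqx, [.a, .r], .y, [.p], .y, [], [.x]⟩,
  ⟨1, T_aqqx, [.a, .x], .y, [.r], .y, [], [.p]⟩,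
  ⟨2, T_rqqx, [.a, .x, .p, .a], .y, [], .y, [], []⟩,
  ⟨1, T_arqx, [.a, .x, .p], .y, [], .y, [], [.q]⟩,
  ⟨1, T_pqqx, [.a, .y], .x, [.r], .y, [], [.a]⟩,
  ⟨1, T_rqqx, [.a, .y], .x, [], .y, [], [.p, .a]⟩,
  ⟨3, T_paqx, [.a, .y, .q, .r], .x, [], .y, [], []⟩,
  ⟨4, T_arqx, [.p, .a], .x, [], .y, [], [.y, .q]⟩,
  ⟨3, T_arqx, [.p, .a], .y, [], .y, [], [.x, .q]⟩,
  ⟨3, T_rqqx, [.p, .a, .a, .y], .x, [], .y, [], []⟩,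
  ⟨2, T_aqqx, [.p], .x, [.r], .y, [], [.a, .y]⟩,
  ⟨4, T_aqqx, [.p], .y, [.r], .y, [], [.a, .x]⟩,
  ⟨2, T_aqqx, [.p], .y, [.r], .y, [], [.x, .a]⟩,
  ⟨1, T_arqx, [.p], .y, [], .y, [], [.x, .a, .q]⟩,
  ⟨1, T_arqx, [.p, .a, .q, .x], .y, [], .y, [], []⟩,
  ⟨1, T_arqx, [.p, .a, .y], .x, [], .y, [], [.q]⟩,
  ⟨1, T_aaqx, [.p, .q], .x, [.r], .y, [], [.y]⟩,
  ⟨2, T_aaqx, [.p, .q], .y, [.r], .y, [], [.x]⟩,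
  ⟨2, T_rqqx, [.p], .x, [], .y, [], [.a, .a, .y]⟩,
  ⟨4, T_rqqx, [.p], .x, [], .y, [], [.a, .y, .a]⟩,
  ⟨1, T_pqqx, [], .y, [.r], .y, [], [.a, .x, .a]⟩,
  ⟨4, T_pqqx, [], .y, [.r], .y, [], [.x, .a, .a]⟩,
  ⟨4, T_aaxy, [.p, .q, .r, .q], .x, [], .y, [], []⟩,
  ⟨1, T_prqx, [], .x, [], .y, [], [.a, .a, .y, .q]⟩,
  ⟨1, T_prqx, [], .y, [], .y, [], [.q, .x, .a, .a]⟩,
  ⟨4, T_aaqx, [.p, .q, .x], .y, [.r], .y, [], []⟩,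
  ⟨3, T_arqx, [.p, .q, .y], .x, [], .y, [], [.a]⟩,
  ⟨1, T_aaxy, [.p, .r, .q], .x, [], .y, [], [.q]⟩,
  ⟨2, T_qqxy, [.p, .r], .x, [], .y, [], [.a, .a]⟩,
  ⟨4, T_aqqx, [.p, .x, .a], .y, [.r], .y, [], []⟩,
  ⟨2, T_aaqx, [.p, .x], .y, [.r], .y, [], [.q]⟩]

noncomputable def xy_15 : List Item := [
  ⟨3, T_arqx, [.p, .y, .a, .q], .x, [], .y, [], []⟩,
  ⟨1, T_rqqx, [.p, .y], .x, [], .y, [], [.a, .a]⟩,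
  ⟨2, T_paax, [.q], .x, [], .y, [], [.q, .r, .y]⟩,
  ⟨1, T_paax, [.q], .x, [], .y, [], [.y, .q, .r]⟩,
  ⟨4, T_paax, [.q], .x, [], .y, [], [.y, .r, .q]⟩,
  ⟨1, T_paax, [.q], .y, [], .y, [], [.x, .q, .r]⟩,
  ⟨4, T_aaqx, [.q], .y, [.r], .y, [], [.x, .p]⟩,
  ⟨3, T_paqx, [.q], .y, [], .y, [], [.r, .x, .a]⟩,
  ⟨4, T_parx, [.q], .x, [], .y, [], [.a, .q, .y]⟩,
  ⟨3, T_parx, [.q], .y, [], .y, [], [.a, .q, .x]⟩,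
  ⟨3, T_arqx, [.q], .y, [], .y, [], [.a, .x, .p]⟩,
  ⟨2, T_prqx, [.q], .x, [], .y, [], [.y, .a, .a]⟩,
  ⟨4, T_rqqx, [], .x, [], .y, [], [.a, .p, .a, .y]⟩,
  ⟨3, T_rqqx, [], .x, [], .y, [], [.a, .y, .a, .p]⟩,
  ⟨4, T_rqqx, [], .x, [], .y, [], [.p, .a, .a, .y]⟩,
  ⟨2, T_rqqx, [], .x, [], .y, [], [.y, .a, .a, .p]⟩,
  ⟨2, T_rqqx, [], .y, [], .y, [], [.a, .p, .x, .a]⟩,
  ⟨1, T_rqqx, [], .y, [], .y, [], [.p, .a, .a, .x]⟩,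
  ⟨1, T_rqqx, [], .y, [], .y, [], [.p, .a, .x, .a]⟩,
  ⟨2, T_rqqx, [], .y, [], .y, [], [.p, .x, .a, .a]⟩,
  ⟨2, T_rqqx, [], .y, [], .y, [], [.x, .a, .p, .a]⟩,
  ⟨3, T_qqxy, [], .x, [], .y, [], [.a, .p, .a, .r]⟩,
  ⟨2, T_paax, [.q, .r], .y, [], .y, [], [.x, .q]⟩,
  ⟨4, T_paqx, [.q, .r], .x, [], .y, [], [.a, .y]⟩,
  ⟨1, T_paqx, [.q, .r], .y, [], .y, [], [.a, .x]⟩,
  ⟨4, T_paax, [.q, .r, .q], .y, [], .y, [], [.x]⟩,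
  ⟨1, T_paax, [.q, .r, .q, .y], .x, [], .y, [], []⟩,
  ⟨1, T_aaqx, [.q, .r, .x], .y, [.p], .y, [], []⟩,
  ⟨3, T_paax, [.q, .r, .x, .q], .y, [], .y, [], []⟩,
  ⟨4, T_paqx, [.q, .r, .y, .a], .x, [], .y, [], []⟩,
  ⟨2, T_paqx, [.q, .r, .y], .x, [], .y, [], [.a]⟩,
  ⟨3, T_paax, [.q, .r, .y, .q], .x, [], .y, [], []⟩,
  ⟨4, T_arqx, [.q, .x, .a], .y, [], .y, [], [.p]⟩,
  ⟨3, T_prqx, [.q, .x, .a], .y, [], .y, [], [.a]⟩,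
  ⟨3, T_arqx, [.q, .x, .p], .y, [], .y, [], [.a]⟩,
  ⟨4, T_paax, [.q, .x, .r, .q], .y, [], .y, [], []⟩,
  ⟨3, T_prqx, [.q, .y, .a], .x, [], .y, [], [.a]⟩,
  ⟨4, T_parx, [.q, .y, .a, .q], .x, [], .y, [], []⟩,
  ⟨4, T_arqx, [.q, .y], .x, [], .y, [], [.p, .a]⟩,
  ⟨2, T_aarx, [.q, .y, .p], .x, [.q], .y, [], []⟩,
  ⟨2, T_parx, [.q, .y, .q], .x, [], .y, [], [.a]⟩,
  ⟨2, T_paax, [.q, .y, .q, .r], .x, [], .y, [], []⟩,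
  ⟨2, T_aaqx, [.r], .y, [.p], .y, [], [.x, .q]⟩,
  ⟨2, T_aaxy, [.r], .x, [], .y, [], [.p, .q, .q]⟩,
  ⟨3, T_paqx, [.r], .x, [], .y, [], [.q, .y, .a]⟩,
  ⟨2, T_paqx, [.r], .y, [], .y, [], [.q, .x, .a]⟩,
  ⟨3, T_pqqx, [.r], .y, [.a], .y, [], [.a, .x]⟩,
  ⟨4, T_paax, [.r, .q], .y, [], .y, [], [.x, .q]⟩,
  ⟨2, T_aaqx, [.r, .q], .x, [.p], .y, [], [.y]⟩,
  ⟨3, T_paax, [.r, .q, .q], .x, [], .y, [], [.y]⟩]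

noncomputable def xy_16 : List Item := [
  ⟨2, T_aaqx, [.r, .q, .x], .y, [.p], .y, [], []⟩,
  ⟨3, T_paqx, [.r, .q, .x], .y, [], .y, [], [.a]⟩,
  ⟨1, T_paax, [.r, .q, .y, .q], .x, [], .y, [], []⟩,
  ⟨3, T_aqqx, [.r, .x, .a], .y, [.p], .y, [], []⟩,
  ⟨3, T_paax, [.r, .x, .q], .y, [], .y, [], [.q]⟩,
  ⟨2, T_prqx, [.x, .a, .a], .y, [], .y, [], [.q]⟩,
  ⟨2, T_paqx, [.x, .a], .y, [], .y, [], [.q, .r]⟩,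
  ⟨1, T_paax, [.x], .y, [], .y, [], [.q, .r, .q]⟩,
  ⟨4, T_rqqx, [.x, .a, .a], .y, [], .y, [], [.p]⟩,
  ⟨2, T_aqqx, [.x, .a], .y, [.p], .y, [], [.r]⟩,
  ⟨3, T_arqx, [.x, .a, .p], .y, [], .y, [], [.q]⟩,
  ⟨2, T_prqx, [.x, .a], .y, [], .y, [], [.a, .q]⟩,
  ⟨2, T_parx, [.x], .y, [], .y, [], [.a, .q, .q]⟩,
  ⟨4, T_rqqx, [.x, .a], .y, [], .y, [], [.a, .p]⟩,
  ⟨3, T_paqx, [.x, .a, .q, .r], .y, [], .y, [], []⟩,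
  ⟨4, T_rqqx, [.x, .p, .a, .a], .y, [], .y, [], []⟩,
  ⟨3, T_aaqx, [.x, .p], .y, [.r], .y, [], [.q]⟩,
  ⟨1, T_arqx, [.x, .p, .q], .y, [], .y, [], [.a]⟩,
  ⟨4, T_prqx, [.x], .y, [], .y, [], [.a, .a, .q]⟩,
  ⟨3, T_aaqx, [.x, .q], .y, [.p], .y, [], [.r]⟩,
  ⟨4, T_paax, [.x, .q, .q, .r], .y, [], .y, [], []⟩,
  ⟨2, T_rqqx, [.x], .y, [], .y, [], [.a, .p, .a]⟩,
  ⟨4, T_paqx, [.x, .q, .r], .y, [], .y, [], [.a]⟩,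
  ⟨2, T_aaqx, [.x, .r], .y, [.p], .y, [], [.q]⟩,
  ⟨4, T_paqx, [.x, .r], .y, [], .y, [], [.a, .q]⟩,
  ⟨1, T_paax, [.x, .r, .q], .y, [], .y, [], [.q]⟩,
  ⟨2, T_aqqx, [.y, .a], .x, [.r], .y, [], [.p]⟩,
  ⟨2, T_aarx, [.y], .x, [.p], .y, [], [.q, .q]⟩,
  ⟨2, T_rqqx, [.y, .a, .p, .a], .x, [], .y, [], []⟩,
  ⟨2, T_aqqx, [.y, .a, .p], .x, [.r], .y, [], []⟩,
  ⟨1, T_pqqx, [.y, .a], .x, [.a], .y, [], [.r]⟩,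
  ⟨2, T_prqx, [.y, .a], .x, [], .y, [], [.a, .q]⟩,
  ⟨1, T_paqx, [.y], .x, [], .y, [], [.a, .r, .q]⟩,
  ⟨4, T_paqx, [.y, .a, .q], .x, [], .y, [], [.r]⟩,
  ⟨1, T_rqqx, [.y, .a], .x, [], .y, [], [.p, .a]⟩,
  ⟨4, T_paqx, [.y, .a, .r], .x, [], .y, [], [.q]⟩,
  ⟨4, T_arqx, [.y, .p, .a, .q], .x, [], .y, [], []⟩,
  ⟨3, T_pqqx, [.y], .x, [.a], .y, [], [.a, .r]⟩,
  ⟨4, T_paax, [.y, .q], .x, [], .y, [], [.r, .q]⟩,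
  ⟨3, T_aarx, [.y, .q, .q], .x, [.p], .y, [], []⟩,
  ⟨1, T_paax, [.y, .q, .q, .r], .x, [], .y, [], []⟩,
  ⟨3, T_rqqx, [.y], .x, [], .y, [], [.a, .a, .p]⟩,
  ⟨3, T_paax, [.y, .r], .x, [], .y, [], [.q, .q]⟩,
  ⟨3, T_pqqx, [.a, .a], .x, [.r], .y, [], [.y]⟩,
  ⟨3, T_qqxy, [.a, .a, .p], .x, [], .y, [], [.r]⟩,
  ⟨2, T_pqqx, [.a, .a], .y, [.r], .y, [], [.x]⟩,
  ⟨1, T_prqx, [.a, .a], .x, [], .y, [], [.y, .q]⟩,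
  ⟨4, T_paqx, [.a], .x, [], .y, [], [.q, .r, .y]⟩,
  ⟨4, T_parx, [.a], .x, [], .y, [], [.q, .q, .y]⟩,
  ⟨3, T_rqqx, [.a, .a, .p, .x], .y, [], .y, [], []⟩]

noncomputable def xy_17 : List Item := [
  ⟨4, T_paax, [], .y, [], .y, [], [.q, .r, .x, .q]⟩,
  ⟨4, T_paax, [], .y, [], .y, [], [.r, .x, .q, .q]⟩,
  ⟨1, T_paax, [], .y, [], .y, [], [.x, .r, .q, .q]⟩,
  ⟨3, T_prqx, [.a, .a, .q], .x, [], .y, [], [.y]⟩,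
  ⟨4, T_arqx, [.a], .x, [], .y, [], [.q, .y, .p]⟩,
  ⟨3, T_prqx, [.a, .a, .q, .x], .y, [], .y, [], []⟩,
  ⟨2, T_aarx, [], .x, [.p], .y, [], [.q, .q, .y]⟩,
  ⟨2, T_aarx, [], .y, [.p], .y, [], [.q, .q, .x]⟩,
  ⟨4, T_aarx, [], .y, [.q], .y, [], [.p, .x, .q]⟩,
  ⟨3, T_rqqx, [.a, .a, .y, .p], .x, [], .y, [], []⟩,
  ⟨4, T_pqqx, [.a, .a, .y], .x, [.r], .y, [], []⟩,
  ⟨1, T_rqqx, [.a, .p], .x, [], .y, [], [.y, .a]⟩,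
  ⟨3, T_arqx, [.a, .p, .q, .y], .x, [], .y, [], []⟩,
  ⟨1, T_paqx, [], .y, [], .y, [], [.r, .q, .x, .a]⟩,
  ⟨1, T_parx, [], .x, [], .y, [], [.a, .q, .y, .q]⟩,
  ⟨3, T_parx, [], .x, [], .y, [], [.y, .a, .q, .q]⟩,
  ⟨1, T_arqx, [.a, .p, .y, .q], .x, [], .y, [], []⟩,
  ⟨4, T_prqx, [.a, .q], .y, [], .y, [], [.a, .x]⟩,
  ⟨3, T_rqqx, [.a], .x, [], .y, [], [.y, .a, .p]⟩,
  ⟨3, T_rqqx, [.a], .x, [], .y, [], [.y, .p, .a]⟩,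
  ⟨1, T_rqqx, [.a], .y, [], .y, [], [.p, .a, .x]⟩,
  ⟨4, T_aqqx, [], .x, [.r], .y, [], [.y, .a, .p]⟩,
  ⟨1, T_aqqx, [], .x, [.r], .y, [], [.y, .p, .a]⟩,
  ⟨4, T_aqqx, [], .y, [.r], .y, [], [.a, .p, .x]⟩,
  ⟨2, T_arqx, [.a, .q, .x], .y, [], .y, [], [.p]⟩,
  ⟨4, T_prqx, [.a, .q, .x], .y, [], .y, [], [.a]⟩,
  ⟨2, T_parx, [.a, .q, .y, .q], .x, [], .y, [], []⟩,
  ⟨1, T_paqx, [.a, .r], .x, [], .y, [], [.y, .q]⟩,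
  ⟨4, T_pqqx, [.a, .r], .x, [.a], .y, [], [.y]⟩,
  ⟨1, T_qqxy, [.a, .r], .x, [], .y, [], [.p, .a]⟩,
  ⟨3, T_pqqx, [.a, .r, .x], .y, [.a], .y, [], []⟩,
  ⟨2, T_paqx, [.a, .r, .y], .x, [], .y, [], [.q]⟩,
  ⟨4, T_rqqx, [.a, .x, .a, .p], .y, [], .y, [], []⟩,
  ⟨4, T_pqqx, [.a, .x, .a], .y, [.r], .y, [], []⟩,
  ⟨2, T_prqx, [.a, .x, .a, .q], .y, [], .y, [], []⟩,
  ⟨4, T_rqqx, [.a, .x, .p], .y, [], .y, [], [.a]⟩,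
  ⟨3, T_prqx, [.a, .x], .y, [], .y, [], [.a, .q]⟩,
  ⟨2, T_paqx, [.a, .x, .q], .y, [], .y, [], [.r]⟩,
  ⟨4, T_rqqx, [.a, .x], .y, [], .y, [], [.a, .p]⟩,
  ⟨2, T_paqx, [.a, .x, .r], .y, [], .y, [], [.q]⟩,
  ⟨3, T_aqqx, [.a, .y], .x, [.r], .y, [], [.p]⟩,
  ⟨4, T_prqx, [.a, .y, .q], .x, [], .y, [], [.a]⟩,
  ⟨3, T_paqx, [.a, .y, .r], .x, [], .y, [], [.q]⟩,
  ⟨2, T_aqqx, [.a, .y, .r], .x, [.p], .y, [], []⟩,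
  ⟨3, T_aarx, [.p], .y, [.q], .y, [], [.q, .x]⟩,
  ⟨4, T_aaxy, [.p], .x, [], .y, [], [.q, .q, .r]⟩,
  ⟨1, T_rqqx, [.p, .a], .x, [], .y, [], [.a, .y]⟩,
  ⟨3, T_rqqx, [.p, .a], .y, [], .y, [], [.x, .a]⟩,
  ⟨1, T_arqx, [.p], .y, [], .y, [], [.q, .x, .a]⟩,
  ⟨3, T_aaxy, [.p, .q, .q], .x, [], .y, [], [.r]⟩]

noncomputable def xy_18 : List Item := [
  ⟨3, T_aaxy, [.p, .q, .q, .r], .x, [], .y, [], []⟩,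
  ⟨4, T_pqqx, [], .x, [.r], .y, [], [.a, .y, .a]⟩,
  ⟨4, T_prqx, [], .x, [], .y, [], [.a, .a, .q, .y]⟩,
  ⟨2, T_prqx, [], .x, [], .y, [], [.q, .y, .a, .a]⟩,
  ⟨2, T_prqx, [], .x, [], .y, [], [.y, .a, .a, .q]⟩,
  ⟨4, T_rqqx, [.p, .x, .a, .a], .y, [], .y, [], []⟩,
  ⟨3, T_arqx, [.p, .x, .a, .q], .y, [], .y, [], []⟩,
  ⟨2, T_paax, [.q], .x, [], .y, [], [.r, .y, .q]⟩,
  ⟨4, T_paax, [.q], .y, [], .y, [], [.r, .x, .q]⟩,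
  ⟨3, T_aaqx, [.q], .x, [.p], .y, [], [.r, .y]⟩,
  ⟨1, T_aaqx, [.q], .x, [.p], .y, [], [.y, .r]⟩,
  ⟨1, T_aaqx, [.q], .y, [.p], .y, [], [.r, .x]⟩,
  ⟨1, T_aaqx, [.q], .y, [.r], .y, [], [.p, .x]⟩,
  ⟨3, T_aarx, [.q], .y, [.p], .y, [], [.x, .q]⟩,
  ⟨3, T_aaxy, [.q], .x, [], .y, [], [.p, .r, .q]⟩,
  ⟨4, T_parx, [.q], .x, [], .y, [], [.y, .a, .q]⟩,
  ⟨3, T_parx, [.q], .y, [], .y, [], [.q, .x, .a]⟩,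
  ⟨2, T_parx, [.q], .y, [], .y, [], [.x, .a, .q]⟩,
  ⟨1, T_arqx, [.q], .y, [], .y, [], [.x, .p, .a]⟩,
  ⟨4, T_prqx, [.q], .x, [], .y, [], [.a, .y, .a]⟩,
  ⟨1, T_aaxy, [.q, .q, .r], .x, [], .y, [], [.p]⟩,
  ⟨4, T_rqqx, [], .x, [], .y, [], [.a, .p, .y, .a]⟩,
  ⟨2, T_rqqx, [], .y, [], .y, [], [.a, .x, .p, .a]⟩,
  ⟨3, T_rqqx, [], .y, [], .y, [], [.x, .a, .a, .p]⟩,
  ⟨4, T_aarx, [.q, .q, .x], .y, [.p], .y, [], []⟩,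
  ⟨4, T_parx, [.q, .q, .x], .y, [], .y, [], [.a]⟩,
  ⟨1, T_parx, [.q, .q, .y, .a], .x, [], .y, [], []⟩,
  ⟨4, T_aarx, [.q, .q, .y], .x, [.p], .y, [], []⟩,
  ⟨1, T_aaqx, [.q, .r], .y, [.p], .y, [], [.x]⟩,
  ⟨1, T_paax, [.q, .r, .q], .x, [], .y, [], [.y]⟩,
  ⟨3, T_paqx, [.q, .r, .x, .a], .y, [], .y, [], []⟩,
  ⟨2, T_parx, [.q, .x, .a], .y, [], .y, [], [.q]⟩,
  ⟨2, T_aarx, [.q, .x], .y, [.p], .y, [], [.q]⟩,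
  ⟨3, T_arqx, [.q, .x, .a, .p], .y, [], .y, [], []⟩,
  ⟨2, T_paqx, [.q, .x], .y, [], .y, [], [.a, .r]⟩,
  ⟨1, T_aarx, [.q, .x, .p], .y, [.q], .y, [], []⟩,
  ⟨3, T_aarx, [.q, .x, .q], .y, [.p], .y, [], []⟩,
  ⟨4, T_paax, [.q, .x, .q, .r], .y, [], .y, [], []⟩,
  ⟨4, T_aarx, [.q, .y], .x, [.q], .y, [], [.p]⟩,
  ⟨1, T_paqx, [.q, .y, .a, .r], .x, [], .y, [], []⟩,
  ⟨3, T_prqx, [.q, .y], .x, [], .y, [], [.a, .a]⟩,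
  ⟨4, T_paqx, [.q, .y, .r], .x, [], .y, [], [.a]⟩,
  ⟨3, T_paax, [.r], .y, [], .y, [], [.q, .x, .q]⟩,
  ⟨3, T_paax, [.r], .y, [], .y, [], [.x, .q, .q]⟩,
  ⟨2, T_paqx, [.r], .x, [], .y, [], [.y, .a, .q]⟩,
  ⟨3, T_aqqx, [.r], .x, [.p], .y, [], [.y, .a]⟩,
  ⟨2, T_pqqx, [.r], .y, [.a], .y, [], [.x, .a]⟩,
  ⟨2, T_paax, [.r, .q, .q], .y, [], .y, [], [.x]⟩,
  ⟨1, T_paax, [.r, .q, .q, .x], .y, [], .y, [], []⟩,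
  ⟨2, T_qqxy, [.r], .x, [], .y, [], [.a, .a, .p]⟩]

noncomputable def xy_19 : List Item := [
  ⟨4, T_qqxy, [.r], .x, [], .y, [], [.a, .p, .a]⟩,
  ⟨2, T_paqx, [.r, .x, .a], .y, [], .y, [], [.q]⟩,
  ⟨1, T_pqqx, [.r, .x], .y, [.a], .y, [], [.a]⟩,
  ⟨2, T_paax, [.r, .y, .q], .x, [], .y, [], [.q]⟩,
  ⟨2, T_rqqx, [.x, .a, .a, .p], .y, [], .y, [], []⟩,
  ⟨3, T_aqqx, [.x, .a], .y, [.r], .y, [], [.p]⟩,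
  ⟨2, T_aqqx, [.x], .y, [.r], .y, [], [.p, .a]⟩,
  ⟨4, T_pqqx, [.x, .a, .r], .y, [.a], .y, [], []⟩,
  ⟨4, T_pqqx, [.y, .a, .a], .x, [.r], .y, [], []⟩,
  ⟨4, T_paqx, [.y, .a], .x, [], .y, [], [.r, .q]⟩,
  ⟨3, T_paax, [.y], .x, [], .y, [], [.q, .q, .r]⟩,
  ⟨3, T_prqx, [.y, .a, .a, .q], .x, [], .y, [], []⟩,
  ⟨3, T_aaqx, [.y], .x, [.p], .y, [], [.q, .r]⟩,
  ⟨1, T_parx, [.y, .a, .q, .q], .x, [], .y, [], []⟩,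
  ⟨3, T_aarx, [.y, .p], .x, [.q], .y, [], [.q]⟩,
  ⟨1, T_aarx, [.y, .q], .x, [.p], .y, [], [.q]⟩,
  ⟨3, T_rqqx, [.y], .x, [], .y, [], [.a, .p, .a]⟩,
  ⟨3, T_rqqx, [.y], .x, [], .y, [], [.p, .a, .a]⟩,
  ⟨1, T_paqx, [.a], .x, [], .y, [], [.r, .q, .y]⟩,
  ⟨4, T_paqx, [.a], .x, [], .y, [], [.y, .q, .r]⟩,
  ⟨2, T_paqx, [.a], .y, [], .y, [], [.q, .x, .r]⟩,
  ⟨1, T_qqxy, [.a, .a, .p, .r], .x, [], .y, [], []⟩,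
  ⟨2, T_parx, [.a], .x, [], .y, [], [.q, .y, .q]⟩,
  ⟨4, T_paax, [], .x, [], .y, [], [.q, .r, .y, .q]⟩,
  ⟨1, T_paax, [], .x, [], .y, [], [.q, .y, .r, .q]⟩,
  ⟨2, T_paax, [], .x, [], .y, [], [.y, .q, .q, .r]⟩,
  ⟨4, T_paax, [], .y, [], .y, [], [.r, .q, .q, .x]⟩,
  ⟨1, T_paax, [], .y, [], .y, [], [.x, .q, .q, .r]⟩,
  ⟨2, T_aqqx, [.a], .x, [.p], .y, [], [.y, .r]⟩,
  ⟨4, T_arqx, [.a], .y, [], .y, [], [.x, .p, .q]⟩,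
  ⟨4, T_aaqx, [], .x, [.p], .y, [], [.q, .r, .y]⟩,
  ⟨3, T_aaqx, [], .x, [.p], .y, [], [.q, .y, .r]⟩,
  ⟨3, T_aaqx, [], .y, [.r], .y, [], [.p, .q, .x]⟩,
  ⟨1, T_rqqx, [.a, .a, .x], .y, [], .y, [], [.p]⟩,
  ⟨3, T_rqqx, [.a, .a, .y], .x, [], .y, [], [.p]⟩,
  ⟨2, T_pqqx, [.a], .x, [.r], .y, [], [.a, .y]⟩,
  ⟨4, T_paqx, [], .y, [], .y, [], [.x, .a, .r, .q]⟩,
  ⟨4, T_rqqx, [.a, .p, .x], .y, [], .y, [], [.a]⟩,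
  ⟨2, T_arqx, [.a, .p, .y], .x, [], .y, [], [.q]⟩,
  ⟨2, T_aqqx, [], .y, [.p], .y, [], [.r, .x, .a]⟩,
  ⟨2, T_aqqx, [], .y, [.r], .y, [], [.p, .x, .a]⟩,
  ⟨3, T_prqx, [.a, .q, .x, .a], .y, [], .y, [], []⟩,
  ⟨1, T_paqx, [.a, .q, .x], .y, [], .y, [], [.r]⟩,
  ⟨4, T_paqx, [.a, .r, .x], .y, [], .y, [], [.q]⟩,
  ⟨3, T_paqx, [.a, .x], .y, [], .y, [], [.r, .q]⟩,
  ⟨1, T_pqqx, [.a, .x], .y, [.r], .y, [], [.a]⟩,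
  ⟨4, T_rqqx, [.a, .x], .y, [], .y, [], [.p, .a]⟩,
  ⟨2, T_prqx, [.a, .y, .a], .x, [], .y, [], [.q]⟩,
  ⟨3, T_aqqx, [.a, .y], .x, [.p], .y, [], [.r]⟩,
  ⟨1, T_arqx, [.a, .y], .x, [], .y, [], [.p, .q]⟩]

noncomputable def xy_20 : List Item := [
  ⟨1, T_arqx, [.a, .y, .p, .q], .x, [], .y, [], []⟩,
  ⟨4, T_prqx, [.a, .y], .x, [], .y, [], [.a, .q]⟩,
  ⟨3, T_paqx, [.a, .y, .q], .x, [], .y, [], [.r]⟩,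
  ⟨4, T_aaqx, [.p], .y, [.r], .y, [], [.x, .q]⟩,
  ⟨4, T_aqqx, [.p, .a, .x], .y, [.r], .y, [], []⟩,
  ⟨2, T_rqqx, [.p, .a, .y, .a], .x, [], .y, [], []⟩,
  ⟨4, T_aqqx, [.p, .a, .y], .x, [.r], .y, [], []⟩,
  ⟨2, T_aaxy, [.p, .q], .x, [], .y, [], [.r, .q]⟩,
  ⟨1, T_arqx, [.p, .q], .y, [], .y, [], [.x, .a]⟩,
  ⟨2, T_rqqx, [.p], .y, [], .y, [], [.x, .a, .a]⟩,
  ⟨4, T_prqx, [], .y, [], .y, [], [.a, .q, .x, .a]⟩,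
  ⟨3, T_aqqx, [.p, .x], .y, [.r], .y, [], [.a]⟩,
  ⟨2, T_aqqx, [.p, .y, .a], .x, [.r], .y, [], []⟩,
  ⟨2, T_aaqx, [.q], .x, [.r], .y, [], [.p, .y]⟩,
  ⟨1, T_paqx, [.q], .x, [], .y, [], [.y, .a, .r]⟩,
  ⟨3, T_paqx, [.q], .y, [], .y, [], [.x, .a, .r]⟩,
  ⟨4, T_arqx, [.q], .x, [], .y, [], [.p, .y, .a]⟩,
  ⟨2, T_arqx, [.q], .x, [], .y, [], [.y, .a, .p]⟩,
  ⟨1, T_arqx, [.q], .y, [], .y, [], [.x, .a, .p]⟩,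
  ⟨4, T_aaxy, [.q, .q], .x, [], .y, [], [.p, .r]⟩,
  ⟨3, T_paax, [.q, .q, .r, .x], .y, [], .y, [], []⟩,
  ⟨3, T_rqqx, [], .y, [], .y, [], [.x, .p, .a, .a]⟩,
  ⟨3, T_parx, [.q, .q, .x, .a], .y, [], .y, [], []⟩,
  ⟨2, T_paax, [.q, .q, .y, .r], .x, [], .y, [], []⟩,
  ⟨1, T_paax, [.q, .r, .q, .x], .y, [], .y, [], []⟩,
  ⟨3, T_prqx, [.q, .x, .a, .a], .y, [], .y, [], []⟩,
  ⟨1, T_paqx, [.q, .x, .a], .y, [], .y, [], [.r]⟩,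
  ⟨1, T_aarx, [.q, .x], .y, [.q], .y, [], [.p]⟩,
  ⟨2, T_parx, [.q, .x], .y, [], .y, [], [.a, .q]⟩,
  ⟨4, T_prqx, [.q, .y, .a, .a], .x, [], .y, [], []⟩,
  ⟨2, T_aarx, [.q, .y, .q], .x, [.p], .y, [], []⟩,
  ⟨1, T_paqx, [.r], .y, [], .y, [], [.x, .a, .q]⟩,
  ⟨4, T_paax, [.r, .q], .x, [], .y, [], [.y, .q]⟩,
  ⟨4, T_paax, [.r, .q, .x], .y, [], .y, [], [.q]⟩,
  ⟨1, T_aqqx, [.r, .y, .a], .x, [.p], .y, [], []⟩,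
  ⟨1, T_aqqx, [.x, .a, .p], .y, [.r], .y, [], []⟩,
  ⟨1, T_pqqx, [.x, .a], .y, [.r], .y, [], [.a]⟩,
  ⟨4, T_aqqx, [.x, .p, .a], .y, [.r], .y, [], []⟩,
  ⟨4, T_aaqx, [.x, .q, .r], .y, [.p], .y, [], []⟩,
  ⟨4, T_aqqx, [.x, .r], .y, [.p], .y, [], [.a]⟩,
  ⟨2, T_aqqx, [.y], .x, [.r], .y, [], [.a, .p]⟩,
  ⟨3, T_aaqx, [.y, .p, .q], .x, [.r], .y, [], []⟩,
  ⟨2, T_aaqx, [.y, .q], .x, [.r], .y, [], [.p]⟩,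
  ⟨3, T_prqx, [.a, .a], .y, [], .y, [], [.x, .q]⟩,
  ⟨3, T_paqx, [.a], .x, [], .y, [], [.r, .y, .q]⟩,
  ⟨3, T_paqx, [.a], .y, [], .y, [], [.x, .r, .q]⟩,
  ⟨4, T_paax, [], .x, [], .y, [], [.y, .q, .r, .q]⟩,
  ⟨3, T_rqqx, [.a, .a, .p, .y], .x, [], .y, [], []⟩,
  ⟨4, T_aqqx, [.a], .x, [.r], .y, [], [.y, .p]⟩,
  ⟨1, T_aqqx, [.a], .y, [.p], .y, [], [.x, .r]⟩]

noncomputable def xy_21 : List Item := [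
  ⟨3, T_arqx, [.a], .x, [], .y, [], [.p, .y, .q]⟩,
  ⟨4, T_aaqx, [], .x, [.r], .y, [], [.p, .y, .q]⟩,
  ⟨4, T_pqqx, [.a, .a, .x], .y, [.r], .y, [], []⟩,
  ⟨1, T_aaxy, [], .x, [], .y, [], [.p, .q, .r, .q]⟩,
  ⟨4, T_prqx, [.a, .a, .y], .x, [], .y, [], [.q]⟩,
  ⟨2, T_rqqx, [.a, .p, .a, .x], .y, [], .y, [], []⟩,
  ⟨2, T_arqx, [.a, .p, .q, .x], .y, [], .y, [], []⟩,
  ⟨4, T_parx, [.a, .q, .q, .x], .y, [], .y, [], []⟩,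
  ⟨1, T_aqqx, [], .x, [.r], .y, [], [.a, .y, .p]⟩,
  ⟨4, T_aqqx, [], .x, [.r], .y, [], [.p, .a, .y]⟩,
  ⟨3, T_aqqx, [], .x, [.r], .y, [], [.p, .y, .a]⟩,
  ⟨3, T_qqxy, [.a], .x, [], .y, [], [.a, .p, .r]⟩,
  ⟨3, T_qqxy, [.a], .x, [], .y, [], [.p, .a, .r]⟩,
  ⟨1, T_aqqx, [], .y, [.r], .y, [], [.x, .p, .a]⟩,
  ⟨2, T_arqx, [], .x, [], .y, [], [.q, .y, .p, .a]⟩,
  ⟨3, T_arqx, [], .x, [], .y, [], [.y, .a, .p, .q]⟩,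
  ⟨3, T_arqx, [], .y, [], .y, [], [.p, .a, .x, .q]⟩,
  ⟨2, T_arqx, [], .y, [], .y, [], [.x, .p, .a, .q]⟩,
  ⟨1, T_arqx, [.a, .q, .y], .x, [], .y, [], [.p]⟩,
  ⟨2, T_paqx, [.a, .q, .y, .r], .x, [], .y, [], []⟩,
  ⟨1, T_prqx, [.a, .x, .a], .y, [], .y, [], [.q]⟩,
  ⟨3, T_aqqx, [.a, .x], .y, [.p], .y, [], [.r]⟩,
  ⟨2, T_arqx, [.a, .x], .y, [], .y, [], [.p, .q]⟩,
  ⟨1, T_pqqx, [.a, .x, .r], .y, [.a], .y, [], []⟩,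
  ⟨1, T_pqqx, [.a, .y, .a], .x, [.r], .y, [], []⟩,
  ⟨4, T_aqqx, [.a, .y, .p], .x, [.r], .y, [], []⟩,
  ⟨1, T_aqqx, [.p, .a], .x, [.r], .y, [], [.y]⟩,
  ⟨4, T_qqxy, [.p, .a, .a, .r], .x, [], .y, [], []⟩,
  ⟨3, T_rqqx, [.p, .a], .x, [], .y, [], [.y, .a]⟩,
  ⟨1, T_aqqx, [.p], .x, [.r], .y, [], [.y, .a]⟩,
  ⟨1, T_arqx, [.p], .x, [], .y, [], [.q, .y, .a]⟩,
  ⟨2, T_arqx, [.p, .a, .x, .q], .y, [], .y, [], []⟩,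
  ⟨3, T_rqqx, [.p], .x, [], .y, [], [.y, .a, .a]⟩,
  ⟨1, T_pqqx, [], .y, [.a], .y, [], [.x, .a, .r]⟩,
  ⟨1, T_aaqx, [.p, .y], .x, [.r], .y, [], [.q]⟩,
  ⟨4, T_paax, [.q], .y, [], .y, [], [.x, .r, .q]⟩,
  ⟨3, T_parx, [.q], .x, [], .y, [], [.a, .y, .q]⟩,
  ⟨1, T_aarx, [.q, .q], .x, [.p], .y, [], [.y]⟩,
  ⟨1, T_parx, [.q, .q], .x, [], .y, [], [.y, .a]⟩,
  ⟨2, T_parx, [.q, .q], .y, [], .y, [], [.x, .a]⟩,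
  ⟨1, T_rqqx, [], .x, [], .y, [], [.y, .a, .p, .a]⟩,
  ⟨3, T_paax, [.q, .q, .x, .r], .y, [], .y, [], []⟩,
  ⟨2, T_aaqx, [.q, .x], .y, [.p], .y, [], [.r]⟩,
  ⟨4, T_arqx, [.q, .x], .y, [], .y, [], [.p, .a]⟩,
  ⟨2, T_aaqx, [.q, .x, .r], .y, [.p], .y, [], []⟩,
  ⟨4, T_paqx, [.q, .x, .r], .y, [], .y, [], [.a]⟩,
  ⟨4, T_paqx, [.q, .y, .a], .x, [], .y, [], [.r]⟩,
  ⟨4, T_paax, [.r], .x, [], .y, [], [.y, .q, .q]⟩,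
  ⟨1, T_aaxy, [.r, .q], .x, [], .y, [], [.p, .q]⟩,
  ⟨4, T_aaxy, [.r, .q, .q], .x, [], .y, [], [.p]⟩]

noncomputable def xy_22 : List Item := [
  ⟨3, T_qqxy, [.r], .x, [], .y, [], [.p, .a, .a]⟩,
  ⟨3, T_paqx, [.r, .q, .y, .a], .x, [], .y, [], []⟩,
  ⟨4, T_paqx, [.r, .q, .y], .x, [], .y, [], [.a]⟩,
  ⟨4, T_pqqx, [.r, .y], .x, [.a], .y, [], [.a]⟩,
  ⟨2, T_aaqx, [.x], .y, [.p], .y, [], [.r, .q]⟩,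
  ⟨4, T_aaqx, [], .x, [.p], .y, [], [.r, .y, .q]⟩,
  ⟨3, T_aaqx, [], .x, [.p], .y, [], [.y, .q, .r]⟩,
  ⟨1, T_aaqx, [], .y, [.p], .y, [], [.q, .x, .r]⟩,
  ⟨1, T_aarx, [], .y, [.p], .y, [], [.q, .x, .q]⟩,
  ⟨2, T_prqx, [.a], .x, [], .y, [], [.y, .a, .q]⟩,
  ⟨4, T_parx, [.a, .q, .y], .x, [], .y, [], [.q]⟩,
  ⟨2, T_aqqx, [.a, .x, .p], .y, [.r], .y, [], []⟩,
  ⟨3, T_paqx, [.a, .y], .x, [], .y, [], [.r, .q]⟩,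
  ⟨3, T_aaqx, [.p, .q, .y], .x, [.r], .y, [], []⟩,
  ⟨4, T_aarx, [.q], .x, [.p], .y, [], [.y, .q]⟩,
  ⟨4, T_arqx, [.q], .x, [], .y, [], [.y, .p, .a]⟩,
  ⟨2, T_aarx, [.q, .y], .x, [.p], .y, [], [.q]⟩,
  ⟨2, T_aaqx, [.q, .y, .r], .x, [.p], .y, [], []⟩,
  ⟨1, T_pqxy, [.a, .a, .q, .r], .x, [], .y, [], []⟩,
  ⟨2, T_aqxy, [.a, .p, .r], .x, [], .y, [], [.q]⟩,
  ⟨2, T_aqxy, [.a, .q], .x, [], .y, [], [.p, .r]⟩,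
  ⟨3, T_prxy, [.a, .q], .x, [], .y, [], [.a, .q]⟩,
  ⟨4, T_prxy, [.a, .q, .q], .x, [], .y, [], [.a]⟩,
  ⟨2, T_aqxy, [.p], .x, [], .y, [], [.a, .r, .q]⟩,
  ⟨4, T_arxy, [.p, .q, .q], .x, [], .y, [], [.a]⟩,
  ⟨1, T_aqxy, [.p, .q, .r], .x, [], .y, [], [.a]⟩,
  ⟨1, T_aqxy, [.p, .r, .q], .x, [], .y, [], [.a]⟩,
  ⟨1, T_arxy, [.q, .q], .x, [], .y, [], [.a, .p]⟩,
  ⟨1, T_aqxy, [.q, .r], .x, [], .y, [], [.p, .a]⟩,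
  ⟨1, T_pqxy, [.a, .a, .q], .x, [], .y, [], [.r]⟩,
  ⟨2, T_aqxy, [.a, .p], .x, [], .y, [], [.r, .q]⟩,
  ⟨3, T_aqxy, [.a, .p, .q], .x, [], .y, [], [.r]⟩,
  ⟨2, T_arxy, [.a, .p, .q], .x, [], .y, [], [.q]⟩,
  ⟨3, T_arxy, [.a, .q], .x, [], .y, [], [.p, .q]⟩,
  ⟨4, T_pqxy, [.a, .q, .r], .x, [], .y, [], [.a]⟩,
  ⟨1, T_aqxy, [], .x, [], .y, [], [.a, .p, .r, .q]⟩,
  ⟨2, T_aqxy, [.a, .r, .q], .x, [], .y, [], [.p]⟩,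
  ⟨4, T_pqxy, [.a, .r, .q], .x, [], .y, [], [.a]⟩,
  ⟨4, T_aqxy, [.r, .q], .x, [], .y, [], [.p, .a]⟩,
  ⟨1, T_prxy, [.a, .a, .q], .x, [], .y, [], [.q]⟩,
  ⟨1, T_aqxy, [.p, .a], .x, [], .y, [], [.q, .r]⟩,
  ⟨2, T_aarx, [], .y, [.q, .q], .y, [], [.x, .p]⟩,
  ⟨3, T_aarx, [.x, .p], .y, [.q, .q], .y, [], []⟩,
  ⟨3, T_aarx, [], .x, [.q, .q], .y, [], [.p, .y]⟩,
  ⟨3, T_pqqx, [], .x, [.a, .a], .y, [], [.y, .r]⟩,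
  ⟨2, T_aarx, [.p, .y], .x, [.q, .q], .y, [], []⟩,
  ⟨4, T_aarx, [], .y, [.q, .q], .y, [], [.p, .x]⟩,
  ⟨4, T_pqqx, [], .y, [.a, .a], .y, [], [.r, .x]⟩,
  ⟨2, T_aarx, [.p, .x], .y, [.q, .q], .y, [], []⟩,
  ⟨2, T_pqqx, [.r], .y, [.a, .a], .y, [], [.x]⟩]

noncomputable def xy_23 : List Item := [
  ⟨3, T_aarx, [.x], .y, [.q, .q], .y, [], [.p]⟩,
  ⟨4, T_pqqx, [.x], .y, [.a, .a], .y, [], [.r]⟩,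
  ⟨4, T_aarx, [], .x, [.q, .q], .y, [], [.y, .p]⟩,
  ⟨1, T_pqqx, [.r, .y], .x, [.a, .a], .y, [], []⟩,
  ⟨3, T_paxy, [.a], .x, [], .y, [], [.q, .r, .q]⟩,
  ⟨4, T_aaxy, [], .x, [.p], .y, [], [.q, .q, .r]⟩,
  ⟨2, T_aaxy, [], .x, [.p], .y, [], [.r, .q, .q]⟩,
  ⟨3, T_aaxy, [], .x, [], .y, [.p], [.q, .r, .q]⟩,
  ⟨3, T_rqxy, [.a, .p], .x, [], .y, [], [.a, .q]⟩,
  ⟨3, T_parx, [], .y, [.q], .y, [], [.q, .x, .a]⟩,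
  ⟨3, T_paxy, [], .x, [], .y, [], [.a, .q, .q, .r]⟩,
  ⟨2, T_aqqx, [], .y, [.r, .p], .y, [], [.a, .x]⟩,
  ⟨2, T_arqx, [], .x, [.p], .y, [], [.a, .y, .q]⟩,
  ⟨3, T_arqx, [], .x, [.p], .y, [], [.y, .a, .q]⟩,
  ⟨2, T_arqx, [.a, .q, .x], .y, [.p], .y, [], []⟩,
  ⟨1, T_parx, [.a, .x, .q], .y, [.q], .y, [], []⟩,
  ⟨4, T_aaxy, [.p], .x, [.r], .y, [], [.q, .q]⟩,
  ⟨3, T_pqqx, [], .x, [.r, .a], .y, [], [.a, .y]⟩,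
  ⟨4, T_qqxy, [.p], .x, [], .y, [.r], [.a, .a]⟩,
  ⟨2, T_aaxy, [.q], .x, [.p], .y, [], [.r, .q]⟩,
  ⟨1, T_aaxy, [.q], .x, [], .y, [.p], [.q, .r]⟩,
  ⟨1, T_aaxy, [.q], .x, [], .y, [.p], [.r, .q]⟩,
  ⟨3, T_qqxy, [], .x, [.a], .y, [], [.a, .p, .r]⟩,
  ⟨1, T_qqxy, [], .x, [.p], .y, [], [.a, .a, .r]⟩,
  ⟨2, T_qqxy, [], .x, [.r], .y, [], [.a, .p, .a]⟩,
  ⟨2, T_aaxy, [.q, .r], .x, [.p], .y, [], [.q]⟩,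
  ⟨2, T_aaxy, [.q, .r], .x, [], .y, [.p], [.q]⟩,
  ⟨2, T_aaxy, [.q, .r], .x, [], .y, [.q], [.p]⟩,
  ⟨1, T_arqx, [.q, .x], .y, [.p], .y, [], [.a]⟩,
  ⟨2, T_aaxy, [.r], .x, [.q], .y, [], [.p, .q]⟩,
  ⟨2, T_aaxy, [.r, .q], .x, [], .y, [.q], [.p]⟩,
  ⟨2, T_qqxy, [.r], .x, [.p], .y, [], [.a, .a]⟩,
  ⟨1, T_aaqx, [.x], .y, [.r, .p], .y, [], [.q]⟩,
  ⟨2, T_aqqx, [.x], .y, [.r, .p], .y, [], [.a]⟩,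
  ⟨1, T_aaqx, [.y], .x, [.r, .p], .y, [], [.q]⟩,
  ⟨3, T_pqqx, [.y], .x, [.r, .a], .y, [], [.a]⟩,
  ⟨3, T_qqxy, [.a, .a], .x, [.r], .y, [], [.p]⟩,
  ⟨2, T_aaxy, [], .x, [.q], .y, [], [.p, .q, .r]⟩,
  ⟨3, T_aaxy, [], .x, [.r], .y, [], [.p, .q, .q]⟩,
  ⟨1, T_aaxy, [], .x, [], .y, [.q], [.p, .r, .q]⟩,
  ⟨1, T_qqxy, [.a, .p, .a], .x, [.r], .y, [], []⟩,
  ⟨4, T_paqx, [], .y, [.r], .y, [], [.x, .a, .q]⟩,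
  ⟨3, T_paqx, [.a, .q, .x], .y, [.r], .y, [], []⟩,
  ⟨2, T_paqx, [.a, .q, .y], .x, [.r], .y, [], []⟩,
  ⟨2, T_arqx, [.a, .q, .y], .x, [.p], .y, [], []⟩,
  ⟨3, T_qqxy, [.a, .r], .x, [.p], .y, [], [.a]⟩,
  ⟨3, T_qqxy, [.p, .a, .a], .x, [.r], .y, [], []⟩,
  ⟨1, T_aaxy, [.p], .x, [], .y, [.q], [.q, .r]⟩,
  ⟨3, T_aaxy, [.p, .q, .r], .x, [], .y, [.q], []⟩,
  ⟨2, T_prqx, [], .y, [.a], .y, [], [.x, .a, .q]⟩]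

noncomputable def xy_24 : List Item := [
  ⟨2, T_aaxy, [.q, .q], .x, [.r], .y, [], [.p]⟩,
  ⟨4, T_aaxy, [.q, .q, .r], .x, [], .y, [.p], []⟩,
  ⟨1, T_qqxy, [], .x, [.r], .y, [], [.a, .a, .p]⟩,
  ⟨4, T_aarx, [.q, .x], .y, [.q, .p], .y, [], []⟩,
  ⟨3, T_aaxy, [.r], .x, [], .y, [.p], [.q, .q]⟩,
  ⟨4, T_aaxy, [.r, .q, .q], .x, [.p], .y, [], []⟩,
  ⟨2, T_aqqx, [.a], .x, [.r, .p], .y, [], [.y]⟩,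
  ⟨1, T_qqxy, [.a, .a], .x, [], .y, [.r], [.p]⟩,
  ⟨3, T_aarx, [], .y, [.q, .p], .y, [], [.q, .x]⟩,
  ⟨1, T_qqxy, [.a, .p], .x, [.r], .y, [], [.a]⟩,
  ⟨1, T_qqxy, [.a, .p], .x, [], .y, [.r], [.a]⟩,
  ⟨3, T_parx, [], .x, [.q], .y, [], [.y, .a, .q]⟩,
  ⟨3, T_qqxy, [.a], .x, [.a], .y, [], [.p, .r]⟩,
  ⟨1, T_aqqx, [], .x, [.r, .p], .y, [], [.y, .a]⟩,
  ⟨2, T_qqxy, [.a], .x, [.p], .y, [], [.a, .r]⟩,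
  ⟨1, T_qqxy, [.a], .x, [], .y, [.r], [.a, .p]⟩,
  ⟨2, T_qqxy, [.a], .x, [], .y, [.r], [.p, .a]⟩,
  ⟨3, T_aqqx, [.a, .x], .y, [.r, .p], .y, [], []⟩,
  ⟨4, T_qqxy, [.p, .a], .x, [.r], .y, [], [.a]⟩,
  ⟨1, T_aaxy, [.p, .q], .x, [], .y, [.q], [.r]⟩,
  ⟨4, T_aaxy, [.p, .q], .x, [], .y, [.r], [.q]⟩,
  ⟨3, T_qqxy, [.p], .x, [], .y, [.a], [.a, .r]⟩,
  ⟨3, T_aaxy, [.p, .r, .q], .x, [.q], .y, [], []⟩,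
  ⟨1, T_qqxy, [.p, .r], .x, [], .y, [.a], [.a]⟩,
  ⟨1, T_aaxy, [.q], .x, [.q], .y, [], [.p, .r]⟩,
  ⟨2, T_aaxy, [.q, .q], .x, [], .y, [.p], [.r]⟩,
  ⟨2, T_aaxy, [.q, .r, .q], .x, [], .y, [.p], []⟩,
  ⟨2, T_aaqx, [.q, .y], .x, [.r, .p], .y, [], []⟩,
  ⟨1, T_aaxy, [.r, .q, .q], .x, [], .y, [.p], []⟩,
  ⟨3, T_qqxy, [.r], .x, [.a], .y, [], [.a, .p]⟩,
  ⟨2, T_qqxy, [.a, .a, .p], .x, [.r], .y, [], []⟩,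
  ⟨4, T_aaqx, [], .y, [.r, .p], .y, [], [.x, .q]⟩,
  ⟨4, T_aaxy, [], .x, [.p], .y, [], [.q, .r, .q]⟩,
  ⟨2, T_qqxy, [.p, .a], .x, [], .y, [.a], [.r]⟩,
  ⟨1, T_aaxy, [.q, .q, .r], .x, [.p], .y, [], []⟩,
  ⟨1, T_qqxy, [], .x, [.r], .y, [], [.p, .a, .a]⟩,
  ⟨1, T_qqxy, [], .x, [], .y, [.r], [.a, .p, .a]⟩,
  ⟨4, T_qqxy, [.r], .x, [], .y, [.a], [.p, .a]⟩,
  ⟨3, T_qqxy, [.a, .p], .x, [.a], .y, [], [.r]⟩,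
  ⟨3, T_qqxy, [.a, .p, .r], .x, [.a], .y, [], []⟩,
  ⟨4, T_aaxy, [.p, .r], .x, [.q], .y, [], [.q]⟩,
  ⟨3, T_aqxy, [.a], .x, [], .y, [.q], [.p, .r]⟩,
  ⟨1, T_pqxy, [.a, .a, .r], .x, [], .y, [.q], []⟩,
  ⟨2, T_aqxy, [.a, .p], .x, [.q], .y, [], [.r]⟩,
  ⟨2, T_pqxy, [.a], .x, [], .y, [.q], [.a, .r]⟩,
  ⟨3, T_aqxy, [], .x, [.a], .y, [], [.p, .q, .r]⟩,
  ⟨4, T_pqxy, [.a, .r], .x, [], .y, [.q], [.a]⟩,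
  ⟨4, T_aqxy, [.p], .x, [], .y, [.a], [.q, .r]⟩,
  ⟨1, T_aqxy, [.p], .x, [], .y, [.a], [.r, .q]⟩,
  ⟨4, T_arxy, [.p, .q, .q], .x, [], .y, [.a], []⟩]

noncomputable def xy_25 : List Item := [
  ⟨1, T_pqxy, [], .x, [.q], .y, [], [.a, .a, .r]⟩,
  ⟨2, T_aqxy, [.p, .r], .x, [], .y, [.a], [.q]⟩,
  ⟨4, T_aqxy, [], .x, [], .y, [.a], [.p, .r, .q]⟩,
  ⟨4, T_aqxy, [.a, .r], .x, [.q], .y, [], [.p]⟩,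
  ⟨4, T_arxy, [.p, .q], .x, [], .y, [.a], [.q]⟩,
  ⟨3, T_aqxy, [.p, .r], .x, [.q], .y, [], [.a]⟩,
  ⟨2, T_arxy, [.q], .x, [.a], .y, [], [.p, .q]⟩,
  ⟨3, T_aqxy, [.r], .x, [], .y, [.q], [.p, .a]⟩,
  ⟨1, T_pqxy, [.r], .x, [.q], .y, [], [.a, .a]⟩,
  ⟨4, T_arxy, [], .x, [.a], .y, [], [.p, .q, .q]⟩,
  ⟨3, T_arxy, [.p], .x, [.a], .y, [], [.q, .q]⟩,
  ⟨3, T_arxy, [.q, .q], .x, [.a], .y, [], [.p]⟩,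
  ⟨4, T_aqxy, [.q, .r], .x, [], .y, [.a], [.p]⟩,
  ⟨1, T_arxy, [.a], .x, [.q], .y, [], [.p, .q]⟩,
  ⟨1, T_arxy, [.a], .x, [], .y, [.q], [.p, .q]⟩,
  ⟨1, T_aqxy, [.a, .p], .x, [.r], .y, [], [.q]⟩,
  ⟨1, T_prxy, [.a], .x, [.a], .y, [], [.q, .q]⟩,
  ⟨1, T_aqxy, [.a, .q], .x, [.p], .y, [], [.r]⟩,
  ⟨3, T_aqxy, [.a, .q], .x, [], .y, [.r], [.p]⟩,
  ⟨4, T_arxy, [.a, .q], .x, [.q], .y, [], [.p]⟩,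
  ⟨1, T_pqxy, [.a, .q], .x, [], .y, [.r], [.a]⟩,
  ⟨1, T_prxy, [.a, .q], .x, [.q], .y, [], [.a]⟩,
  ⟨2, T_pqxy, [.a, .q, .r], .x, [], .y, [.a], []⟩,
  ⟨3, T_aqxy, [.a, .r, .q], .x, [], .y, [.p], []⟩,
  ⟨3, T_arxy, [], .x, [], .y, [.p], [.a, .q, .q]⟩,
  ⟨3, T_aqxy, [.p, .a], .x, [.r], .y, [], [.q]⟩,
  ⟨1, T_aqxy, [.p, .a, .q], .x, [], .y, [.r], []⟩,
  ⟨1, T_arxy, [.p, .q], .x, [.q], .y, [], [.a]⟩,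
  ⟨2, T_pqxy, [], .x, [.r], .y, [], [.a, .a, .q]⟩,
  ⟨2, T_prxy, [], .x, [.a], .y, [], [.a, .q, .q]⟩,
  ⟨2, T_aqxy, [.q], .x, [], .y, [.r], [.p, .a]⟩,
  ⟨2, T_arxy, [.q], .x, [], .y, [.p], [.a, .q]⟩,
  ⟨3, T_pqxy, [.q], .x, [.a], .y, [], [.a, .r]⟩,
  ⟨1, T_pqxy, [.q], .x, [], .y, [.a], [.a, .r]⟩,
  ⟨3, T_pqxy, [.q], .x, [], .y, [.r], [.a, .a]⟩,
  ⟨3, T_aqxy, [.r, .q], .x, [.p], .y, [], [.a]⟩,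
  ⟨3, T_aqxy, [.a], .x, [.p], .y, [], [.r, .q]⟩,
  ⟨4, T_aqxy, [.a], .x, [], .y, [.p], [.r, .q]⟩,
  ⟨3, T_arxy, [.a], .x, [.p], .y, [], [.q, .q]⟩,
  ⟨4, T_arxy, [.a, .p, .q], .x, [], .y, [.q], []⟩,
  ⟨3, T_pqxy, [.a], .x, [.a], .y, [], [.q, .r]⟩,
  ⟨4, T_prxy, [.a], .x, [.q], .y, [], [.a, .q]⟩,
  ⟨1, T_prxy, [.a], .x, [], .y, [.q], [.a, .q]⟩,
  ⟨1, T_arxy, [.a, .q, .q], .x, [], .y, [.p], []⟩,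
  ⟨2, T_pqxy, [.a, .r, .q], .x, [], .y, [.a], []⟩,
  ⟨1, T_arxy, [.q], .x, [], .y, [.q], [.p, .a]⟩,
  ⟨2, T_arxy, [.q, .q], .x, [.p], .y, [], [.a]⟩,
  ⟨1, T_prxy, [.a, .a], .x, [], .y, [.q], [.q]⟩,
  ⟨3, T_prxy, [], .x, [.q], .y, [], [.a, .a, .q]⟩,
  ⟨3, T_parx, [], .y, [.q, .q], .y, [], [.x, .a]⟩]

noncomputable def xy_26 : List Item := [
  ⟨2, T_parx, [.a, .x], .y, [.q, .q], .y, [], []⟩,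
  ⟨2, T_qqxy, [.p], .x, [], .y, [.a, .a], [.r]⟩,
  ⟨3, T_prqx, [], .y, [.a, .a], .y, [], [.x, .q]⟩,
  ⟨3, T_aaxy, [.p, .r], .x, [.q, .q], .y, [], []⟩,
  ⟨2, T_paxy, [.q, .q], .x, [.a], .y, [], [.r]⟩,
  ⟨1, T_qqxy, [], .x, [.a, .a], .y, [], [.p, .r]⟩,
  ⟨4, T_prqx, [.q, .x], .y, [.a, .a], .y, [], []⟩,
  ⟨1, T_aaxy, [.r], .x, [], .y, [.q, .q], [.p]⟩,
  ⟨3, T_aaxy, [.p], .x, [.q, .q], .y, [], [.r]⟩,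
  ⟨3, T_qqxy, [.r], .x, [], .y, [.a, .a], [.p]⟩,
  ⟨4, T_qqxy, [.p, .r], .x, [.a, .a], .y, [], []⟩,
  ⟨1, T_qqxy, [.a, .a], .x, [.r], .y, [.p], []⟩,
  ⟨3, T_aaxy, [], .x, [.p], .y, [.r], [.q, .q]⟩,
  ⟨4, T_qqxy, [.a, .p], .x, [.r, .a], .y, [], []⟩,
  ⟨4, T_qqxy, [.a], .x, [.r, .a], .y, [], [.p]⟩,
  ⟨1, T_qqxy, [.a], .x, [.r, .p], .y, [], [.a]⟩,
  ⟨3, T_qqxy, [.p, .a], .x, [.r], .y, [.a], []⟩,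
  ⟨1, T_aaxy, [.p, .q], .x, [.q], .y, [.r], []⟩,
  ⟨2, T_aaxy, [.q], .x, [.q, .r], .y, [], [.p]⟩,
  ⟨4, T_aaxy, [.q], .x, [], .y, [.q, .p], [.r]⟩,
  ⟨2, T_aaxy, [.q], .x, [], .y, [.q, .r], [.p]⟩,
  ⟨2, T_aaxy, [.q, .q], .x, [], .y, [.r, .p], []⟩,
  ⟨4, T_qqxy, [], .x, [.a], .y, [.r], [.a, .p]⟩,
  ⟨2, T_qqxy, [], .x, [], .y, [.p, .a], [.a, .r]⟩,
  ⟨3, T_aaxy, [.q, .r], .x, [.q], .y, [.p], []⟩,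
  ⟨2, T_qqxy, [.a, .a], .x, [], .y, [.r, .p], []⟩,
  ⟨3, T_aaxy, [], .x, [.p], .y, [.q], [.r, .q]⟩,
  ⟨2, T_aaxy, [], .x, [], .y, [.q, .p], [.q, .r]⟩,
  ⟨4, T_aaxy, [], .x, [], .y, [.r, .q], [.p, .q]⟩,
  ⟨2, T_qqxy, [.a], .x, [.a], .y, [.r], [.p]⟩,
  ⟨3, T_qqxy, [.a], .x, [], .y, [.p, .a], [.r]⟩,
  ⟨1, T_qqxy, [.a, .r], .x, [.a, .p], .y, [], []⟩,
  ⟨1, T_aaxy, [.p], .x, [.r, .q], .y, [], [.q]⟩,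
  ⟨1, T_qqxy, [.p, .a], .x, [.a], .y, [.r], []⟩,
  ⟨1, T_qqxy, [.p], .x, [.r, .a], .y, [], [.a]⟩,
  ⟨1, T_qqxy, [.p], .x, [.a], .y, [.r], [.a]⟩,
  ⟨4, T_aaxy, [.q], .x, [.p], .y, [.q], [.r]⟩,
  ⟨2, T_qqxy, [], .x, [.r], .y, [.a], [.p, .a]⟩,
  ⟨4, T_qqxy, [.a, .r], .x, [.a], .y, [.p], []⟩,
  ⟨3, T_aaxy, [.p, .q], .x, [.q, .r], .y, [], []⟩,
  ⟨3, T_aaxy, [.r], .x, [.q, .p], .y, [], [.q]⟩,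
  ⟨4, T_aaxy, [.r, .q], .x, [.q, .p], .y, [], []⟩,
  ⟨2, T_aaxy, [.r, .q], .x, [.q], .y, [.p], []⟩,
  ⟨3, T_qqxy, [.r], .x, [.a, .p], .y, [], [.a]⟩,
  ⟨4, T_aqxy, [.p, .r], .x, [], .y, [.q, .a], []⟩,
  ⟨4, T_aqxy, [.r], .x, [.q, .a], .y, [], [.p]⟩,
  ⟨3, T_aqxy, [.p], .x, [.q, .a], .y, [], [.r]⟩,
  ⟨4, T_prxy, [.a, .a], .x, [.q, .q], .y, [], []⟩,
  ⟨1, T_prxy, [.a, .a], .x, [], .y, [.q, .q], []⟩,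
  ⟨2, T_prxy, [.a], .x, [.q, .q], .y, [], [.a]⟩]

noncomputable def xy_27 : List Item := [
  ⟨1, T_arxy, [], .x, [.q, .q], .y, [], [.p, .a]⟩,
  ⟨3, T_arxy, [], .x, [], .y, [.q, .q], [.a, .p]⟩,
  ⟨1, T_prxy, [], .x, [], .y, [.a, .a], [.q, .q]⟩,
  ⟨1, T_pqxy, [.q, .r], .x, [.a, .a], .y, [], []⟩,
  ⟨3, T_arxy, [], .x, [], .y, [.q, .q], [.p, .a]⟩,
  ⟨1, T_pqxy, [], .x, [], .y, [.a, .a], [.r, .q]⟩,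
  ⟨4, T_pqxy, [.q], .x, [.a, .a], .y, [], [.r]⟩,
  ⟨1, T_prxy, [.q, .q], .x, [], .y, [.a, .a], []⟩,
  ⟨1, T_pqxy, [.r], .x, [.a, .a], .y, [], [.q]⟩,
  ⟨3, T_arxy, [.a, .p], .x, [], .y, [.q, .q], []⟩,
  ⟨3, T_pqxy, [], .x, [], .y, [.a, .a], [.q, .r]⟩,
  ⟨4, T_pqxy, [.r, .q], .x, [], .y, [.a, .a], []⟩,
  ⟨1, T_prxy, [], .x, [.q, .q], .y, [], [.a, .a]⟩,
  ⟨2, T_pqxy, [.a, .a], .x, [], .y, [.q, .r], []⟩,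
  ⟨4, T_pqxy, [.a], .x, [.a], .y, [.q], [.r]⟩,
  ⟨2, T_pqxy, [.a], .x, [.q], .y, [.r], [.a]⟩,
  ⟨2, T_aqxy, [], .x, [.a, .p], .y, [], [.q, .r]⟩,
  ⟨1, T_aqxy, [], .x, [.q], .y, [.r], [.p, .a]⟩,
  ⟨2, T_aqxy, [], .x, [], .y, [.a, .p], [.q, .r]⟩,
  ⟨3, T_aqxy, [.a, .r], .x, [], .y, [.q, .p], []⟩,
  ⟨4, T_arxy, [], .x, [.a, .p], .y, [], [.q, .q]⟩,
  ⟨1, T_arxy, [], .x, [], .y, [.a, .p], [.q, .q]⟩,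
  ⟨3, T_arxy, [.p], .x, [.q], .y, [.a], [.q]⟩,
  ⟨4, T_arxy, [.p], .x, [], .y, [.q, .a], [.q]⟩,
  ⟨1, T_pqxy, [], .x, [.q], .y, [.r], [.a, .a]⟩,
  ⟨3, T_pqxy, [], .x, [.r], .y, [.q], [.a, .a]⟩,
  ⟨3, T_arxy, [.q], .x, [.a, .p], .y, [], [.q]⟩,
  ⟨1, T_aqxy, [.r], .x, [.p], .y, [.a], [.q]⟩,
  ⟨3, T_pqxy, [.a, .a], .x, [.r], .y, [.q], []⟩,
  ⟨1, T_aqxy, [.a], .x, [], .y, [.q, .r], [.p]⟩,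
  ⟨1, T_pqxy, [.a], .x, [], .y, [.q, .a], [.r]⟩,
  ⟨2, T_aqxy, [], .x, [.p], .y, [.a], [.r, .q]⟩,
  ⟨1, T_aqxy, [], .x, [.p], .y, [.q], [.a, .r]⟩,
  ⟨1, T_pqxy, [.a, .r], .x, [.a], .y, [.q], []⟩,
  ⟨4, T_aqxy, [.p], .x, [.a], .y, [.r], [.q]⟩,
  ⟨4, T_arxy, [.p, .q], .x, [.q, .a], .y, [], []⟩,
  ⟨4, T_aqxy, [.q], .x, [.r, .a], .y, [], [.p]⟩,
  ⟨3, T_arxy, [.q], .x, [.a], .y, [.p], [.q]⟩,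
  ⟨3, T_arxy, [.q, .q], .x, [], .y, [.a, .p], []⟩,
  ⟨4, T_pqxy, [.a], .x, [.r], .y, [.q], [.a]⟩,
  ⟨3, T_arxy, [.q, .q], .x, [.a, .p], .y, [], []⟩,
  ⟨3, T_pqxy, [.a, .a], .x, [.r, .q], .y, [], []⟩,
  ⟨1, T_aqxy, [.a], .x, [.r, .p], .y, [], [.q]⟩,
  ⟨1, T_aqxy, [.a], .x, [.r], .y, [.p], [.q]⟩,
  ⟨3, T_arxy, [.a], .x, [.p], .y, [.q], [.q]⟩,
  ⟨4, T_arxy, [.a], .x, [], .y, [.q, .p], [.q]⟩,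
  ⟨2, T_aqxy, [], .x, [.p, .a], .y, [], [.r, .q]⟩,
  ⟨2, T_prxy, [], .x, [.q], .y, [.q], [.a, .a]⟩,
  ⟨2, T_aqxy, [.q], .x, [.p, .a], .y, [], [.r]⟩,
  ⟨4, T_aqxy, [.q, .r], .x, [.p, .a], .y, [], []⟩]

noncomputable def xy_28 : List Item := [
  ⟨2, T_aaxy, [.p], .x, [], .y, [.r, .q, .q], []⟩,
  ⟨1, T_qqxy, [.p], .x, [], .y, [.r, .a, .a], []⟩,
  ⟨3, T_qqxy, [], .x, [], .y, [.p, .a, .a], [.r]⟩,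
  ⟨2, T_aaxy, [.r], .x, [.q, .q], .y, [.p], []⟩,
  ⟨2, T_aaxy, [], .x, [.r], .y, [.q, .q], [.p]⟩,
  ⟨4, T_qqxy, [], .x, [.a, .a], .y, [.r], [.p]⟩,
  ⟨1, T_aaxy, [.r], .x, [.p], .y, [.q, .q], []⟩,
  ⟨2, T_qqxy, [.r], .x, [.a, .a], .y, [.p], []⟩,
  ⟨2, T_qqxy, [.p], .x, [.r, .a, .a], .y, [], []⟩,
  ⟨4, T_aaxy, [], .x, [], .y, [.q, .q, .p], [.r]⟩,
  ⟨2, T_qqxy, [], .x, [.p, .a, .a], .y, [], [.r]⟩,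
  ⟨4, T_aaxy, [], .x, [.r, .p], .y, [.q], [.q]⟩,
  ⟨4, T_aaxy, [], .x, [.p], .y, [.q, .r], [.q]⟩,
  ⟨1, T_aaxy, [], .x, [.r, .q], .y, [.p], [.q]⟩,
  ⟨4, T_aaxy, [], .x, [.r, .q], .y, [.q], [.p]⟩,
  ⟨3, T_aaxy, [], .x, [], .y, [.r, .q, .p], [.q]⟩,
  ⟨4, T_qqxy, [.a], .x, [.a], .y, [.r, .p], []⟩,
  ⟨2, T_aaxy, [.p], .x, [.r, .q], .y, [.q], []⟩,
  ⟨2, T_aaxy, [.q], .x, [.r, .q, .p], .y, [], []⟩,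
  ⟨1, T_aaxy, [.q], .x, [.p], .y, [.r, .q], []⟩,
  ⟨3, T_aaxy, [.q], .x, [.q], .y, [.r, .p], []⟩,
  ⟨4, T_qqxy, [], .x, [.a], .y, [.p, .a], [.r]⟩,
  ⟨2, T_qqxy, [.r], .x, [.a, .p, .a], .y, [], []⟩,
  ⟨4, T_qqxy, [], .x, [], .y, [.r, .p, .a], [.a]⟩,
  ⟨2, T_qqxy, [], .x, [], .y, [.r, .a, .p], [.a]⟩,
  ⟨2, T_arxy, [], .x, [.a], .y, [.q, .q], [.p]⟩,
  ⟨2, T_aqxy, [.p], .x, [.q, .r, .a], .y, [], []⟩,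
  ⟨4, T_arxy, [.p], .x, [.q, .q, .a], .y, [], []⟩,
  ⟨4, T_pqxy, [], .x, [.q], .y, [.a, .a], [.r]⟩,
  ⟨2, T_aqxy, [], .x, [.q, .a], .y, [.r], [.p]⟩,
  ⟨3, T_arxy, [], .x, [.q, .q], .y, [.a], [.p]⟩,
  ⟨3, T_pqxy, [], .x, [.a, .a], .y, [.q], [.r]⟩,
  ⟨4, T_aqxy, [.r], .x, [], .y, [.q, .a, .p], []⟩,
  ⟨1, T_pqxy, [.r], .x, [.q], .y, [.a, .a], []⟩,
  ⟨3, T_arxy, [], .x, [.q, .q, .p], .y, [], [.a]⟩,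
  ⟨2, T_pqxy, [.q], .x, [.r], .y, [.a, .a], []⟩,
  ⟨3, T_aaxy, [], .x, [.r, .q, .q, .p], .y, [], []⟩,
  ⟨3, T_qqxy, [], .x, [.r, .a, .a], .y, [.p], []⟩,
  ⟨3, T_prxy, [], .x, [.a, .a], .y, [.q, .q], []⟩]

noncomputable def xy : List Item := xy_0 ++ xy_1 ++ xy_2 ++ xy_3 ++ xy_4 ++ xy_5 ++ xy_6 ++ xy_7 ++ xy_8 ++ xy_9 ++ xy_10 ++ xy_11 ++ xy_12 ++ xy_13 ++ xy_14 ++ xy_15 ++ xy_16 ++ xy_17 ++ xy_18 ++ xy_19 ++ xy_20 ++ xy_21 ++ xy_22 ++ xy_23 ++ xy_24 ++ xy_25 ++ xy_26 ++ xy_27 ++ xy_28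

/-- the target, times 4 -/
def tgt : List (Nat × List L) :=
  [(4, [.p, .a, .a, .x, .y, .r, .q, .q]), (2, [.p, .a, .a, .x, .y, .q, .r, .q]), (4, [.p, .a, .a, .x, .y, .q, .q, .r]), (2, [.a, .p, .a, .x, .y, .r, .q, .q]), (1, [.a, .p, .a, .x, .y, .q, .r, .q]), (2, [.a, .p, .a, .x, .y, .q, .q, .r]), (4, [.a, .a, .p, .x, .y, .r, .q, .q]), (2, [.a, .a, .p, .x, .y, .q, .r, .q]), (4, [.a, .a, .p, .x, .y, .q, .q, .r])]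

theorem ok : check xy tgt = true := by decide +kernel

end Pool.Agent.MP5c99ad.H90.XY
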