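import Mathlib
import Pool.Agent.Lib.MP_5c99ad_al.PkC

set_option autoImplicit false

/-!
Gap patterns of words, lexicographic comparison, certified windows.
-/

namespace Pool.Agent.MP5c99ad.Cert

open Pool.Agent.MP5c99ad Pool.Agent.MP5c99ad.Pk

/-- gap pattern -/
def pat : List ℕ → List ℕ
  | [] => [0]
  | 0 :: w => 0 :: pat w
  | (_ + 1) :: w => match pat w with
    | [] => [1]
    | n :: l => (n + 1) :: l

/-- lexicographic comparison -/
def lexGt : List ℕ → List ℕ → Bool
  | a :: l, b :: m => if Nat.blt b a then true else if Nat.blt a b then false else lexGt l m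
  | _, _ => false

/-- the word `x A₁ x A₂ …` with consecutive letters `l, l+1, …` and gap sizes `rho` -/
def mkT : ℕ → List ℕ → List ℕ
  | _, [] => []
  | l, r :: rs => 0 :: (List.range' l r ++ mkT (l + r) rs)

/-- killed words: lexicographically bigger gap pattern -/
def killed (rho : List ℕ) (w : List ℕ) : Bool := lexGt (pat w) (0 :: rho)

/-- a certified window -/
def Rule (rho : List ℕ) : Prop := ∃ b B cert, pkCheck b 0 B rho.sum rho.length cert (mkT 1 rho) (killed rho) = true

end Pool.Agent.MP5c99ad.Cert
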