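import Mathlib
import Pool.Agent.Lib.MP_5c99ad_al.T1A

set_option autoImplicit false

/-!
Pattern induction: local rules (certified windows) imply that every word with enough `X`'s lies in
the right ideal generated by the letters.
-/

namespace Pool.Agent.MP5c99ad.Cert

open Pool.Agent.MP5c99ad Pool.Agent.MP5c99ad.Pk

section lex

theorem lexGt_append_left (p a b : List ℕ) : lexGt (p ++ a) (p ++ b) = lexGt a b := by
  induction p with
  | nil => rfl
  | cons x p ih =>
    rw [List.cons_append, List.cons_append, lexGt]
    have : Nat.blt x x = false := by
      rw [← Bool.not_eq_true, Nat.blt_eq]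
      exact lt_irrefl x
    simp [this, ih]

theorem lexGt_append_right (a b c d : List ℕ) (h : lexGt a b = true) :
    lexGt (a ++ c) (b ++ d) = true := by
  induction a generalizing b with
  | nil => simp [lexGt] at h
  | cons x a ih =>
    cases b with
    | nil => simp [lexGt] at h
    | cons y b =>
      rw [List.cons_append, List.cons_append, lexGt]
      rw [lexGt] at h
      split_ifs at h ⊢ with h1 h2
      · rfl
      · exact ih b h

theorem lexGt_add_head (x y e : ℕ) (l m : List ℕ) :
    lexGt ((x + e) :: l) ((y + e) :: m) = lexGt (x :: l) (y :: m) := by
  rw [lexGt, lexGt]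
  have h1 : Nat.blt (y + e) (x + e) = Nat.blt y x := by
    rw [Bool.eq_iff_iff, Nat.blt_eq, Nat.blt_eq]
    omega
  have h2 : Nat.blt (x + e) (y + e) = Nat.blt x y := by
    rw [Bool.eq_iff_iff, Nat.blt_eq, Nat.blt_eq]
    omega
  rw [h1, h2]

theorem lexGt_add_last (a b : List ℕ) (x y e : ℕ) (hl : a.length = b.length)
    (h : lexGt (a ++ [x]) (b ++ [y]) = true) : lexGt (a ++ [x + e]) (b ++ [y + e]) = true := by
  induction a generalizing b with
  | nil =>
    have : b = [] := by
      rw [← List.length_eq_zero_iff]
      simpa using hl.symm
    subst this
    rw [List.nil_append, List.nil_append] at h ⊢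
    rw [lexGt_add_head]
    exact h
  | cons z a ih =>
    cases b with
    | nil => simp at hl
    | cons w b =>
      rw [List.cons_append, List.cons_append, lexGt] at h ⊢
      split_ifs at h ⊢ with h1 h2
      · rfl
      · exact ih b (by simpa using hl) h

/-- numerical value of a pattern in base `b` -/
def mu (b : ℕ) : List ℕ → ℕ
  | [] => 0
  | a :: l => a * b ^ l.length + mu b l

theorem mu_lt (b : ℕ) (l : List ℕ) (h : ∀ x ∈ l, x < b) : mu b l < b ^ l.length := by
  induction l with
  | nil => simp [mu]
  | cons a l ih =>
    rw [mu, List.length_cons, pow_succ]
    have h1 := ih (fun x hx => h x (List.mem_cons_of_mem _ hx))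
    have h2 : a + 1 ≤ b := h a List.mem_cons_self
    calc a * b ^ l.length + mu b l < a * b ^ l.length + b ^ l.length := by omega
      _ = (a + 1) * b ^ l.length := by ring
      _ ≤ b * b ^ l.length := Nat.mul_le_mul_right _ h2
      _ = b ^ l.length * b := by ring

theorem mu_lexGt (b : ℕ) (l m : List ℕ) (hlen : l.length = m.length) (hm : ∀ x ∈ m, x < b)
    (h : lexGt l m = true) : mu b m < mu b l := by
  induction l generalizing m with
  | nil => simp [lexGt] at h
  | cons a l ih =>
    cases m with
    | nil => simp [lexGt] at h
    | cons c m =>
      rw [lexGt] at h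
      have hlen' : l.length = m.length := by simpa using hlen
      rw [mu, mu, hlen']
      split_ifs at h with h1 h2
      · rw [Nat.blt_eq] at h1
        have h3 := mu_lt b m (fun x hx => hm x (List.mem_cons_of_mem _ hx))
        calc c * b ^ m.length + mu b m < c * b ^ m.length + b ^ m.length := by omega
          _ = (c + 1) * b ^ m.length := by ring
          _ ≤ a * b ^ m.length := Nat.mul_le_mul_right _ h1
          _ ≤ a * b ^ m.length + mu b l := Nat.le_add_right _ _
      · have h3 : ¬ (c < a) := by rwa [Nat.blt_eq] at h1
        have h4 : ¬ (a < c) := by rwa [Nat.blt_eq] at h2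
        have h5 : a = c := by omega
        subst h5
        have := ih m hlen' (fun x hx => hm x (List.mem_cons_of_mem _ hx)) h
        omega

end lex

section words

variable {U : Type*} [Ring U] (X : U) (Y : Set U)

/-- value of a gap word `X A₁ X A₂ …` -/
def gv (L : List (List U)) : U := (L.map (fun A => X * A.prod)).prod

theorem gv_nil : gv X [] = 1 := by simp [gv]

theorem gv_cons (A : List U) (L : List (List U)) : gv X (A :: L) = X * A.prod * gv X L := by
  simp [gv]

theorem gv_append (L M : List (List U)) : gv X (L ++ M) = gv X L * gv X M := by
  simp [gv]

/-- all letters in `Y` -/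
def InY (L : List (List U)) : Prop := ∀ A ∈ L, ∀ y ∈ A, y ∈ Y

variable {X Y}

theorem decode {v : ℕ → U} (hv0 : v 0 = X) (hv : ∀ s, s ≠ 0 → v s ∈ Y) (w : List ℕ) :
    ∃ (G : List U) (B : List (List U)), evW v w = G.prod * gv X B ∧
      G.length :: B.map List.length = pat w ∧ (∀ y ∈ G, y ∈ Y) ∧ InY Y B := by
  induction w with
  | nil => exact ⟨[], [], by simp [evW, gv], by simp [pat], by simp, by simp [InY]⟩
  | cons a w ih =>
    obtain ⟨G, B, h1, h2, h3, h4⟩ := ih
    cases a with
    | zero =>
      refine ⟨[], G :: B, ?_, ?_, by simp, ?_⟩
      · rw [evW_cons, hv0, h1, gv_cons]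
        simp [mul_assoc]
      · rw [pat, ← h2]
        simp
      · intro A hA
        rw [List.mem_cons] at hA
        rcases hA with rfl | hA
        · exact h3
        · exact h4 A hA
    | succ a =>
      refine ⟨v (a + 1) :: G, B, ?_, ?_, ?_, h4⟩
      · rw [evW_cons, h1, List.prod_cons, mul_assoc]
      · rw [pat, ← h2]
        simp
      · intro y hy
        rw [List.mem_cons] at hy
        rcases hy with rfl | hy
        · exact hv _ (Nat.succ_ne_zero a)
        · exact h3 y hy

theorem length_pat (w : List ℕ) : w.length + 1 = (pat w).sum + (pat w).length := by
  induction w with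
  | nil => simp [pat]
  | cons a w ih =>
    cases a with
    | zero =>
      rw [pat, List.length_cons, List.length_cons, List.sum_cons]
      omega
    | succ a =>
      rw [pat]
      cases h : pat w with
      | nil =>
        rw [h] at ih
        simp at ih
      | cons n l =>
        rw [h] at ih
        simp only [List.length_cons, List.sum_cons] at ih ⊢
        omega

theorem length_pat' (w : List ℕ) : (pat w).length = w.count 0 + 1 := by
  induction w with
  | nil => simp [pat]
  | cons a w ih =>
    cases a with
    | zero =>
      rw [pat, List.length_cons, ih, List.count_cons_self]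
    | succ a =>
      rw [pat]
      cases h : pat w with
      | nil =>
        rw [h] at ih
        simp at ih
      | cons n l =>
        rw [h] at ih
        rw [List.count_cons_of_ne (Nat.succ_ne_zero a), ← ih]
        rfl

theorem evW_range' {v : ℕ → U} (A : List U) (l : ℕ) (h : ∀ i (hi : i < A.length), v (l + i) = A[i]) :
    evW v (List.range' l A.length) = A.prod := by
  unfold evW
  congr 1
  apply List.ext_getElem
  · simp
  · intro i h1 h2
    simp only [List.getElem_map, List.getElem_range', one_mul]
    exact h i h2

theorem evW_mkT {v : ℕ → U} (hv0 : v 0 = X) (W : List (List U)) : ∀ (l : ℕ),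
    (∀ i (hi : i < W.flatten.length), v (l + i) = W.flatten[i]) →
    evW v (mkT l (W.map List.length)) = gv X W := by
  induction W with
  | nil => intro l _; simp [mkT, evW, gv]
  | cons A W ih =>
    intro l h
    rw [List.map_cons, mkT, evW_cons, evW_append, gv_cons, hv0, evW_range' A l, ih (l + A.length)]
    · rw [mul_assoc]
    · intro i hi
      have h1 := h (A.length + i) (by simpa using hi)
      rw [← add_assoc] at h1
      rw [h1]
      simp only [List.flatten_cons]
      rw [List.getElem_append_right (by omega)]
      congr 1
      omega
    · intro i hi
      have h1 := h i (by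
        rw [List.flatten_cons, List.length_append]
        omega)
      rw [h1]
      simp only [List.flatten_cons]
      rw [List.getElem_append_left hi]

theorem ev_lieMon {v : ℕ → U} (hv0 : v 0 = X) (hv : ∀ s, s ≠ 0 → v s ∈ Y) (p : LM) :
    LieMon X Y (p.ev v) := by
  induction p with
  | a s =>
    by_cases h : s = 0
    · subst h
      rw [LM.ev, hv0]
      exact LieMon.base
    · exact LieMon.letter _ (hv s h)
  | b x y ihx ihy => exact LieMon.br _ _ ihx ihy

/-- hypotheses on `U`, `X`, `Y` -/
structure Hyp (X : U) (Y : Set U) : Prop where
  h5 : (5 : U) = 0
  zero_mem : (0 : U) ∈ Y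
  comm : ∀ y ∈ Y, ∀ z ∈ Y, y * z = z * y
  sym : ∀ u1 u2 u3 u4, LieMon X Y u1 → LieMon X Y u2 → LieMon X Y u3 → LieMon X Y u4 →
      sym4 u1 u2 u3 u4 = 0

theorem local_rule (H : Hyp X Y) {rho : List ℕ} (hr : Rule rho) (W : List (List U))
    (hW : W.map List.length = rho) (hWY : InY Y W) (I : AddSubgroup U)
    (hI : ∀ (G : List U) (B : List (List U)), (∀ y ∈ G, y ∈ Y) → InY Y B → B.length = rho.length →
      G.length + (B.map List.length).sum = rho.sum →
      lexGt (G.length :: B.map List.length) (0 :: rho) = true → G.prod * gv X B ∈ I) :
    gv X W ∈ I := by
  obtain ⟨b, B, cert, hc⟩ := hr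
  set v : ℕ → U := fun s => if s = 0 then X else W.flatten.getD (s - 1) 0 with hv
  have hv0 : v 0 = X := by simp [hv]
  have hvY : ∀ s, s ≠ 0 → v s ∈ Y := by
    intro s hs
    simp only [hv, if_neg hs]
    by_cases hlt : s - 1 < W.flatten.length
    · rw [List.getD_eq_getElem _ _ hlt]
      have hm := List.getElem_mem hlt
      rw [List.mem_flatten] at hm
      obtain ⟨A, hA, hy⟩ := hm
      exact hWY A hA _ hy
    · rw [List.getD_eq_default _ _ (by omega)]
      exact H.zero_mem
  have hlen : W.flatten.length = rho.sum := by
    rw [List.length_flatten, hW]
  have e1 : evW v (mkT 1 rho) = gv X W := by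
    rw [← hW]
    apply evW_mkT hv0
    intro i hi
    simp only [hv]
    rw [if_neg (by omega)]
    have : 1 + i - 1 = i := by omega
    rw [this, List.getD_eq_getElem _ _ hi]
  rw [← e1]
  refine pkCheck_sound H.h5 ?_ b _ _ cert _ _ ?_ hc I ?_
  · intro i j hi hj
    exact H.comm _ (hvY i (by omega)) _ (hvY j (by omega))
  · intro _ _ J _
    exact H.sym _ _ _ _ (ev_lieMon hv0 hvY _) (ev_lieMon hv0 hvY _) (ev_lieMon hv0 hvY _)
      (ev_lieMon hv0 hvY _)
  · intro w hw hkill
    obtain ⟨G, B, h1, h2, h3, h4⟩ := decode (X := X) (Y := Y) hv0 hvY w
    have hp := length_pat w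
    have hp' := length_pat' w
    have hlen1 : w.length = rho.length + rho.sum := by
      rw [hw.length_eq]
      simp [content]
    have hcount : w.count 0 = rho.length := by
      rw [hw.count_eq, content, List.count_append, List.count_replicate_self]
      have : (List.range' 1 rho.sum).count 0 = 0 := by
        rw [List.count_eq_zero]
        intro h
        rw [List.mem_range'_1] at h
        omega
      rw [this, add_zero]
    rw [h1]
    unfold killed at hkill
    rw [← h2] at hkill hp hp'
    simp only [List.length_cons, List.length_map] at hp'
    simp only [List.sum_cons, List.length_cons, List.length_map] at hp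
    exact hI G B h3 h4 (by omega) (by omega) hkill

/-- the right ideal generated by the letters -/
def RI (Y : Set U) : AddSubgroup U := AddSubgroup.closure {z | ∃ y ∈ Y, ∃ u, z = y * u}

theorem mul_mem_RI {y : U} (hy : y ∈ Y) (u : U) : y * u ∈ RI Y :=
  AddSubgroup.subset_closure ⟨y, hy, u, rfl⟩

/-- one step of the pattern induction -/
theorem step (H : Hyp X Y) {rho : List ℕ} (hr : Rule rho) (pre W post : List (List U)) (last extra : List U)
    (hW : (W ++ [last]).map List.length = rho) (hY : InY Y (pre ++ ((W ++ [last ++ extra]) ++ post)))
    (IH : ∀ L' : List (List U), InY Y L' → L'.length = (pre ++ ((W ++ [last ++ extra]) ++ post)).length →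
      (L'.map List.length).sum = ((pre ++ ((W ++ [last ++ extra]) ++ post)).map List.length).sum →
      lexGt (L'.map List.length) ((pre ++ ((W ++ [last ++ extra]) ++ post)).map List.length) = true →
      gv X L' ∈ RI Y) :
    gv X (pre ++ ((W ++ [last ++ extra]) ++ post)) ∈ RI Y := by
  have e0 : gv X (pre ++ ((W ++ [last ++ extra]) ++ post)) =
      gv X pre * (gv X (W ++ [last]) * (extra.prod * gv X post)) := by
    simp only [gv_append, gv_cons, gv_nil, List.prod_append, mul_one, mul_assoc]
  rw [e0]
  -- the additive subgroup of all `z` with `gv pre * (z * tail)` in `RI`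
  let f : U →+ U := (AddMonoidHom.mulLeft (gv X pre)).comp (AddMonoidHom.mulRight (extra.prod * gv X post))
  have hf : ∀ z, f z = gv X pre * (z * (extra.prod * gv X post)) := fun z => rfl
  have hWY : InY Y (W ++ [last]) := by
    intro A hA y hy
    rw [List.mem_append, List.mem_singleton] at hA
    rcases hA with hA | rfl
    · exact hY A (by simp [hA]) y hy
    · exact hY (A ++ extra) (by simp) y (by simp [hy])
  have hpreY : InY Y pre := fun A hA => hY A (by simp [hA])
  have hpostY : InY Y post := fun A hA => hY A (by simp [hA])
  have hextraY : ∀ y ∈ extra, y ∈ Y := fun y hy => hY (last ++ extra) (by simp) y (by simp [hy])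
  have key : gv X (W ++ [last]) ∈ (RI Y).comap f := by
    refine local_rule H hr _ hW hWY _ ?_
    intro G B hG hB hBl hsum hlex
    rw [AddSubgroup.mem_comap, hf]
    -- `B` is nonempty
    have hBne : B ≠ [] := by
      intro h0
      rw [h0] at hBl
      have : rho.length = 0 := by simpa using hBl.symm
      rw [← hW] at this
      simp at this
    obtain ⟨B', bl, rfl⟩ : ∃ B' bl, B = B' ++ [bl] := ⟨B.dropLast, B.getLast hBne, (List.dropLast_append_getLast hBne).symm⟩
    have hBl' : B'.length = W.length := by
      rw [← hW] at hBl
      simpa using hBl
    have hsum' : G.length + ((B'.map List.length).sum + bl.length) = (W.map List.length).sum + last.length := by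
      rw [← hW] at hsum
      simpa using hsum
    rcases List.eq_nil_or_concat pre with hpre | ⟨pre', P, hpre⟩
    · subst hpre
      cases G with
      | cons y G =>
        have : gv X [] * ((y :: G).prod * gv X (B' ++ [bl]) * (extra.prod * gv X post)) =
            y * (G.prod * gv X (B' ++ [bl]) * (extra.prod * gv X post)) := by
          rw [gv_nil, one_mul, List.prod_cons]
          simp only [mul_assoc]
        rw [this]
        exact mul_mem_RI (hG y List.mem_cons_self) _
      | nil =>
        have : gv X [] * ((([] : List U)).prod * gv X (B' ++ [bl]) * (extra.prod * gv X post)) =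
            gv X ((B' ++ [bl ++ extra]) ++ post) := by
          simp only [gv_append, gv_cons, gv_nil, List.prod_append, mul_one, mul_assoc, one_mul, List.prod_nil]
        rw [this]
        apply IH
        · intro A hA y hy
          simp only [List.mem_append, List.mem_singleton] at hA
          rcases hA with (hA | rfl) | hA
          · exact hB A (by simp [hA]) y hy
          · rw [List.mem_append] at hy
            rcases hy with hy | hy
            · exact hB bl (by simp) y hy
            · exact hextraY y hy
          · exact hpostY A hA y hy
        · simp only [List.length_append, List.length_cons, List.length_nil]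
          omega
        · simp only [List.map_append, List.map_cons, List.map_nil, List.sum_append, List.sum_cons,
            List.sum_nil, List.length_append, List.length_nil] at hsum' ⊢
          omega
        · have h2 : lexGt ((B' ++ [bl]).map List.length) ((W ++ [last]).map List.length) = true := by
            rw [← hW] at hlex
            rw [lexGt] at hlex
            simpa using hlex
          simp only [List.nil_append, List.map_append, List.map_cons, List.map_nil, List.length_append] at h2 ⊢
          apply lexGt_append_right
          exact lexGt_add_last _ _ _ _ _ (by simpa using hBl') h2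
    · rw [List.concat_eq_append] at hpre
      subst hpre
      have : gv X (pre' ++ [P]) * (G.prod * gv X (B' ++ [bl]) * (extra.prod * gv X post)) =
          gv X ((pre' ++ [P ++ G]) ++ ((B' ++ [bl ++ extra]) ++ post)) := by
        simp only [gv_append, gv_cons, gv_nil, List.prod_append, mul_one, mul_assoc]
      rw [this]
      apply IH
      · intro A hA y hy
        simp only [List.mem_append, List.mem_singleton] at hA
        rcases hA with (hA | rfl) | ((hA | rfl) | hA)
        · exact hpreY A (by simp [hA]) y hy
        · rw [List.mem_append] at hy
          rcases hy with hy | hy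
          · exact hpreY P (by simp) y hy
          · exact hG y hy
        · exact hB A (by simp [hA]) y hy
        · rw [List.mem_append] at hy
          rcases hy with hy | hy
          · exact hB bl (by simp) y hy
          · exact hextraY y hy
        · exact hpostY A hA y hy
      · simp only [List.length_append, List.length_cons, List.length_nil]
        omega
      · simp only [List.map_append, List.map_cons, List.map_nil, List.sum_append, List.sum_cons,
            List.sum_nil, List.length_append, List.length_nil] at hsum' ⊢
        omega
      · simp only [List.map_append, List.map_cons, List.map_nil, List.length_append, List.append_assoc]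
        rw [lexGt_append_left]
        have h2 : lexGt (G.length :: (B' ++ [bl]).map List.length) (0 :: (W ++ [last]).map List.length) = true := by
          rw [hW]
          exact hlex
        have h3 : lexGt ((G.length :: (B'.map List.length)) ++ [bl.length + extra.length])
            ((0 :: (W.map List.length)) ++ [last.length + extra.length]) = true := by
          apply lexGt_add_last
          · simpa using hBl'
          · simpa using h2
        have h4 := lexGt_append_right _ _ (post.map List.length) (post.map List.length) h3
        simp only [List.cons_append, List.append_assoc, List.nil_append] at h4 ⊢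
        have h5 := lexGt_add_head G.length 0 P.length (List.map List.length B' ++ (bl.length + extra.length) :: List.map List.length post)
          (List.map List.length W ++ (last.length + extra.length) :: List.map List.length post)
        rw [h4] at h5
        have e1 : G.length + P.length = P.length + G.length := by omega
        have e2 : 0 + P.length = P.length := by omega
        rw [e1, e2] at h5
        exact h5
  rw [AddSubgroup.mem_comap, hf] at key
  exact key

end words

end Pool.Agent.MP5c99ad.Cert
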