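import Mathlib
import Pool.Agent.Lib.MP_5c99ad_al.T1B

set_option autoImplicit false

/-!
Every gap pattern of length 7 contains a certified window; the pattern induction.
-/

namespace Pool.Agent.MP5c99ad.Cert

open Pool.Agent.MP5c99ad Pool.Agent.MP5c99ad.Pk

/-- does the reversed window `r` match the end of the word whose reversed pattern is `p`?
(interior gaps exactly, last gap at least) -/
def preR : List ℕ → List ℕ → Bool
  | [], _ => true
  | _ :: _, [] => false
  | a :: r, b :: p => Nat.beq a b && preR r p

def hitR : List ℕ → List ℕ → Bool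
  | a :: r, b :: p => Nat.ble a b && preR r p
  | _, _ => false

def anyHit (R : List (List ℕ)) (p : List ℕ) : Bool := R.any (fun r => hitR r p)

def cover (R : List (List ℕ)) : ℕ → List ℕ → Bool
  | 0, p => anyHit R p
  | n + 1, p => anyHit R p || (cover R n (0 :: p) && (cover R n (1 :: p) && cover R n (2 :: p)))

theorem preR_sound (r p : List ℕ) (h : preR r p = true) : ∃ q, p = r ++ q := by
  induction r generalizing p with
  | nil => exact ⟨p, rfl⟩
  | cons a r ih =>
    cases p with
    | nil => simp [preR] at h
    | cons b p =>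
      rw [preR, Bool.and_eq_true, Nat.beq_eq] at h
      obtain ⟨h1, h2⟩ := h
      obtain ⟨q, rfl⟩ := ih p h2
      exact ⟨q, by rw [h1]; rfl⟩

/-- a certified window occurs in the pattern `kap` -/
def Hit (R : List (List ℕ)) (kap : List ℕ) : Prop :=
  ∃ (pre mid post : List ℕ) (l e : ℕ), kap = pre ++ ((mid ++ [l + e]) ++ post) ∧ (mid ++ [l]).reverse ∈ R

theorem anyHit_sound (R : List (List ℕ)) (p post : List ℕ) (h : anyHit R p = true) :
    Hit R (p.reverse ++ post) := by
  unfold anyHit at h
  rw [List.any_eq_true] at h
  obtain ⟨r, hr, h⟩ := h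
  cases r with
  | nil => simp [hitR] at h
  | cons a r =>
    cases p with
    | nil => simp [hitR] at h
    | cons b p =>
      rw [hitR, Bool.and_eq_true, Nat.ble_eq] at h
      obtain ⟨h1, h2⟩ := h
      obtain ⟨q, rfl⟩ := preR_sound r p h2
      refine ⟨q.reverse, r.reverse, post, a, b - a, ?_, ?_⟩
      · have : a + (b - a) = b := by omega
        rw [this]
        simp
      · simpa using hr

theorem cover_sound (R : List (List ℕ)) (h3 : [3] ∈ R) (n : ℕ) : ∀ (p kap : List ℕ), cover R n p = true →
    kap.length = n → Hit R (p.reverse ++ kap) := by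
  induction n with
  | zero =>
    intro p kap h hk
    exact anyHit_sound R p kap h
  | succ n ih =>
    intro p kap h hk
    rw [cover, Bool.or_eq_true] at h
    rcases h with h | h
    · exact anyHit_sound R p kap h
    · simp only [Bool.and_eq_true] at h
      obtain ⟨h0, h1, h2⟩ := h
      cases kap with
      | nil => simp at hk
      | cons c kap =>
        have hk' : kap.length = n := by simpa using hk
        by_cases hc : 3 ≤ c
        · refine ⟨p.reverse, [], kap, 3, c - 3, ?_, by simpa using h3⟩
          have : 3 + (c - 3) = c := by omega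
          rw [this]
          simp
        · have : c = 0 ∨ c = 1 ∨ c = 2 := by omega
          rcases this with rfl | rfl | rfl
          · simpa using ih (0 :: p) kap h0 hk'
          · simpa using ih (1 :: p) kap h1 hk'
          · simpa using ih (2 :: p) kap h2 hk'

section main

variable {U : Type*} [Ring U] {X : U} {Y : Set U}

theorem pattern_induction (H : Hyp X Y) (R : List (List ℕ)) (hR : ∀ r ∈ R, Rule r.reverse)
    (n : ℕ) (hcov : ∀ kap : List ℕ, kap.length = n → Hit R kap) (K : ℕ) (m : ℕ) :
    ∀ L : List (List U), InY Y L → L.length = n → (L.map List.length).sum = K →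
      (K + 1) ^ n ≤ m + mu (K + 1) (L.map List.length) → gv X L ∈ RI Y := by
  induction m with
  | zero =>
    intro L hL hn hK hm
    exfalso
    have h1 : ∀ x ∈ L.map List.length, x < K + 1 := by
      intro x hx
      have := List.single_le_sum (by intro y hy; omega) x hx
      omega
    have h2 := mu_lt (K + 1) (L.map List.length) h1
    rw [List.length_map, hn] at h2
    omega
  | succ m ih =>
    intro L hL hn hK hm
    obtain ⟨pre, mid, post, l, e, hkap, hr⟩ := hcov (L.map List.length) (by simpa using hn)
    rw [List.map_eq_append_iff] at hkap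
    obtain ⟨Lp, Lr, rfl, hp, hkap⟩ := hkap
    rw [List.map_eq_append_iff] at hkap
    obtain ⟨Lm, Lq, rfl, hm2, hq⟩ := hkap
    rw [List.map_eq_append_iff] at hm2
    obtain ⟨W, Ll, rfl, hW, hl⟩ := hm2
    obtain ⟨A, rfl, hA⟩ : ∃ A, Ll = [A] ∧ A.length = l + e := by
      cases Ll with
      | nil => simp at hl
      | cons A Ll =>
        cases Ll with
        | nil => exact ⟨A, rfl, by simpa using hl⟩
        | cons B Ll => simp at hl
    have hsplit : A = A.take l ++ A.drop l := (List.take_append_drop l A).symm
    have htl : (A.take l).length = l := by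
      rw [List.length_take]
      omega
    have hrule : Rule (mid ++ [l]) := by
      have := hR _ hr
      rwa [List.reverse_reverse] at this
    rw [hsplit] at hL hn hK hm ⊢
    refine step H hrule Lp W Lq (A.take l) (A.drop l) ?_ hL ?_
    · rw [List.map_append, hW, List.map_cons, htl, List.map_nil]
    · intro L' hL' hlen hsum hlex
      apply ih L' hL'
      · rw [hlen, hn]
      · rw [hsum, hK]
      · have h1 : ∀ x ∈ (Lp ++ ((W ++ [A.take l ++ A.drop l]) ++ Lq)).map List.length, x < K + 1 := by
          intro x hx
          have := List.single_le_sum (by intro y hy; omega) x hx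
          omega
        have h2 := mu_lexGt (K + 1) (L'.map List.length) _ (by simpa using hlen) h1 hlex
        omega

theorem gv_mem_RI (H : Hyp X Y) (R : List (List ℕ)) (h3 : [3] ∈ R) (hR : ∀ r ∈ R, Rule r.reverse)
    (n : ℕ) (hcov : cover R n [] = true) (L : List (List U)) (hL : InY Y L) (hn : L.length = n) :
    gv X L ∈ RI Y := by
  refine pattern_induction H R hR n ?_ (L.map List.length).sum
    (((L.map List.length).sum + 1) ^ n) L hL hn rfl (Nat.le_add_right _ _)
  intro kap hk
  simpa using cover_sound R h3 n [] kap hcov hk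

theorem gapWord_list {k : ℕ} {w : U} (hw : GapWord X Y k w) : ∃ (G : List U) (L : List (List U)),
    (∀ y ∈ G, y ∈ Y) ∧ InY Y L ∧ L.length = k ∧ w = G.prod * gv X L := by
  induction hw with
  | base s hs =>
    obtain ⟨G, hG, rfl⟩ := Submonoid.exists_list_of_mem_closure hs
    exact ⟨G, [], hG, by simp [InY], rfl, by simp [gv]⟩
  | step k w s _ hs ih =>
    obtain ⟨G, L, hG, hL, hk, rfl⟩ := ih
    obtain ⟨A, hA, rfl⟩ := Submonoid.exists_list_of_mem_closure hs
    refine ⟨G, L ++ [A], hG, ?_, by simp [hk], ?_⟩
    · intro B hB y hy
      rw [List.mem_append, List.mem_singleton] at hB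
      rcases hB with hB | rfl
      · exact hL B hB y hy
      · exact hA y hy
    · rw [gv_append, gv_cons, gv_nil]
      simp only [mul_assoc, mul_one]

theorem lieMon_insert_zero {u : U} (h : LieMon X (insert 0 Y) u) : LieMon X Y u ∨ u = 0 := by
  induction h with
  | base => exact Or.inl LieMon.base
  | letter y hy =>
    rcases hy with rfl | hy
    · exact Or.inr rfl
    · exact Or.inl (LieMon.letter y hy)
  | br a b _ _ iha ihb =>
    rcases iha with iha | rfl
    · rcases ihb with ihb | rfl
      · exact Or.inl (LieMon.br _ _ iha ihb)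
      · right
        simp
    · right
      simp

theorem T1_of_rules (R : List (List ℕ)) (h3 : [3] ∈ R) (hR : ∀ r ∈ R, Rule r.reverse)
    (n : ℕ) (hcov : cover R n [] = true) : T1Prop n := by
  intro U _ h5 X Y hcomm hsym A _ φ hl _ w hw
  have H : Hyp X (insert (0 : U) Y) := by
    refine ⟨h5, Set.mem_insert _ _, ?_, ?_⟩
    · intro y hy z hz
      rcases hy with rfl | hy
      · simp
      · rcases hz with rfl | hz
        · simp
        · exact hcomm y hy z hz
    · intro u1 u2 u3 u4 h1 h2 h3 h4
      rcases lieMon_insert_zero h1 with h1 | rfl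
      · rcases lieMon_insert_zero h2 with h2 | rfl
        · rcases lieMon_insert_zero h3 with h3 | rfl
          · rcases lieMon_insert_zero h4 with h4 | rfl
            · exact hsym _ _ _ _ h1 h2 h3 h4
            · simp [sym4]
          · simp [sym4]
        · simp [sym4]
      · simp [sym4]
  obtain ⟨G, L, hG, hL, hk, rfl⟩ := gapWord_list hw
  cases G with
  | cons y G =>
    rw [List.prod_cons, mul_assoc]
    exact hl y (hG y List.mem_cons_self) _
  | nil =>
    rw [List.prod_nil, one_mul]
    have hL' : InY (insert (0 : U) Y) L := fun A hA y hy => Set.mem_insert_of_mem _ (hL A hA y hy)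
    have := gv_mem_RI H R h3 hR n hcov L hL' hk
    unfold RI at this
    generalize gv X L = z at this ⊢
    induction this using AddSubgroup.closure_induction with
    | mem z hz =>
      obtain ⟨y, hy, u, rfl⟩ := hz
      rcases hy with rfl | hy
      · simp
      · exact hl y hy u
    | zero => exact map_zero φ
    | add a b _ _ iha ihb => rw [map_add, iha, ihb, add_zero]
    | neg a _ iha => rw [map_neg, iha, neg_zero]

end main

/-- the 18 certified windows (reversed) -/
def rules7 : List (List ℕ) := [[3], [2,0], [1,0,0], [0,0,0,0], [2,2], [2,1,0], [1,2,1], [2,1,1],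
  [1,1,1,0], [1,1,0,1], [1,1,1,1], [0,1,0,1,0], [1,0,2,1], [0,1,0,1,1,0], [0,0,1,0,1,1],
  [0,1,1,0,2], [0,1,0,1,2], [1,1,1,2]]

theorem cover7 : cover rules7 7 [] = true := by decide +kernel

end Pool.Agent.MP5c99ad.Cert
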