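import Mathlib
import Pool.Agent.Lib.MP_5c99ad_al.T1B

set_option autoImplicit false
set_option maxRecDepth 100000

/-!
Certificates for the windows 21010 (computer generated, kernel checked).
-/

namespace Pool.Agent.MP5c99ad.Cert

open Pool.Agent.MP5c99ad Pool.Agent.MP5c99ad.Pk

def cert_21010 : List (List Pk.Inst) := [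
  [⟨1,[0,3],(.a 0),(.a 1),(.a 2),(.a 4),[0,0,0]⟩,
   ⟨1,[0,2],(.a 0),(.a 1),(.a 3),(.a 4),[0,0,0]⟩,
   ⟨4,[0,1],(.a 0),(.a 2),(.a 3),(.a 4),[0,0,0]⟩,
   ⟨2,[0,0,4],(.a 0),(.a 1),(.a 2),(.a 3),[0,0]⟩,
   ⟨4,[0,0],(.a 0),(.a 1),(.a 2),(.a 3),[0,0,4]⟩,
   ⟨3,[0,0,3],(.a 0),(.a 1),(.a 2),(.a 4),[0,0]⟩,
   ⟨3,[0,0],(.a 0),(.a 1),(.a 2),(.a 4),[0,3,0]⟩,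
   ⟨1,[0,0,2],(.a 0),(.a 1),(.a 3),(.a 4),[0,0]⟩,
   ⟨1,[0,0],(.a 0),(.a 1),(.a 3),(.a 4),[0,2,0]⟩,
   ⟨3,[0,0],(.a 0),(.a 2),(.a 3),(.a 4),[0,0,1]⟩,
   ⟨4,[0,0,0],(.a 0),(.a 1),(.a 2),(.a 3),[4,0]⟩,
   ⟨2,[0,0,0],(.a 0),(.a 1),(.a 2),(.a 3),[0,4]⟩,
   ⟨1,[0,3,0,0],(.a 0),(.a 1),(.a 2),(.a 4),[0]⟩,
   ⟨3,[0,0,0,3],(.a 0),(.a 1),(.a 2),(.a 4),[0]⟩,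
   ⟨4,[0,0,2,0],(.a 0),(.a 1),(.a 3),(.a 4),[0]⟩,
   ⟨1,[0,0,0,2],(.a 0),(.a 1),(.a 3),(.a 4),[0]⟩,
   ⟨3,[0,0,0],(.a 0),(.a 1),(.a 3),(.a 4),[2,0]⟩,
   ⟨4,[0,0,0],(.a 0),(.a 1),(.a 3),(.a 4),[0,2]⟩,
   ⟨2,[0,0,1,0],(.a 0),(.a 2),(.a 3),(.a 4),[0]⟩,
   ⟨3,[0,0,0],(.a 0),(.a 2),(.a 3),(.a 4),[1,0]⟩],
  [⟨2,[0,0,0],(.a 0),(.a 2),(.a 3),(.a 4),[0,1]⟩,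
   ⟨3,[0,4,0,0,0],(.a 0),(.a 1),(.a 2),(.a 3),[]⟩,
   ⟨3,[0,0,0,4,0],(.a 0),(.a 1),(.a 2),(.a 3),[]⟩,
   ⟨3,[0,0,0,3,0],(.a 0),(.a 1),(.a 2),(.a 4),[]⟩,
   ⟨4,[0,2,0,0,0],(.a 0),(.a 1),(.a 3),(.a 4),[]⟩,
   ⟨3,[0,0,2,0,0],(.a 0),(.a 1),(.a 3),(.a 4),[]⟩,
   ⟨3,[0,0,0,1,0],(.a 0),(.a 2),(.a 3),(.a 4),[]⟩,
   ⟨1,[0,0],(.b (.b (.a 0) (.a 1)) (.a 0)),(.a 2),(.a 3),(.a 4),[0]⟩,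
   ⟨1,[0,0],(.b (.b (.a 0) (.a 2)) (.a 0)),(.a 1),(.a 3),(.a 4),[0]⟩,
   ⟨4,[0,0],(.b (.b (.a 0) (.a 3)) (.a 0)),(.a 1),(.a 2),(.a 4),[0]⟩,
   ⟨3,[0,0],(.b (.b (.a 0) (.a 4)) (.a 0)),(.a 1),(.a 2),(.a 3),[0]⟩,
   ⟨4,[0,0,0],(.b (.b (.a 0) (.a 1)) (.a 0)),(.a 2),(.a 3),(.a 4),[]⟩,
   ⟨3,[0,0,0],(.b (.b (.a 0) (.a 2)) (.a 0)),(.a 1),(.a 3),(.a 4),[]⟩,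
   ⟨4,[0,0,0],(.b (.b (.a 0) (.a 3)) (.a 0)),(.a 1),(.a 2),(.a 4),[]⟩,
   ⟨3,[0,0,0],(.b (.b (.a 0) (.a 4)) (.a 0)),(.a 1),(.a 2),(.a 3),[]⟩,
   ⟨1,[],(.a 0),(.a 0),(.a 1),(.a 2),[4,0,3,0,0]⟩,
   ⟨1,[],(.a 0),(.a 0),(.a 1),(.a 2),[4,0,0,0,3]⟩,
   ⟨3,[],(.a 0),(.a 0),(.a 1),(.a 3),[4,0,0,2,0]⟩,
   ⟨2,[],(.a 0),(.a 0),(.a 2),(.a 3),[4,0,1,0,0]⟩,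
   ⟨1,[],(.a 0),(.a 0),(.a 2),(.a 3),[4,0,0,1,0]⟩],
  [⟨3,[],(.a 0),(.a 0),(.a 2),(.a 3),[4,0,0,0,1]⟩,
   ⟨4,[],(.a 0),(.a 0),(.a 1),(.a 2),[3,0,4,0,0]⟩,
   ⟨2,[],(.a 0),(.a 0),(.a 1),(.a 2),[0,4,0,3,0]⟩,
   ⟨4,[],(.a 0),(.a 0),(.a 1),(.a 3),[0,2,4,0,0]⟩,
   ⟨1,[],(.a 0),(.a 0),(.a 2),(.a 3),[0,1,4,0,0]⟩,
   ⟨2,[],(.a 0),(.a 0),(.a 2),(.a 3),[0,4,0,1,0]⟩,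
   ⟨3,[],(.a 0),(.a 0),(.a 1),(.a 2),[3,0,0,4,0]⟩,
   ⟨1,[],(.a 0),(.a 0),(.a 1),(.a 2),[0,3,0,4,0]⟩,
   ⟨4,[],(.a 0),(.a 0),(.a 1),(.a 2),[0,0,4,0,3]⟩,
   ⟨4,[],(.a 0),(.a 0),(.a 1),(.a 3),[2,0,0,4,0]⟩,
   ⟨4,[],(.a 0),(.a 0),(.a 1),(.a 3),[0,2,0,4,0]⟩,
   ⟨4,[],(.a 0),(.a 0),(.a 1),(.a 3),[0,0,4,0,2]⟩,
   ⟨4,[],(.a 0),(.a 0),(.a 2),(.a 3),[0,0,4,0,1]⟩,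
   ⟨2,[],(.a 0),(.a 0),(.a 1),(.a 2),[0,0,3,0,4]⟩,
   ⟨2,[],(.a 0),(.a 0),(.a 1),(.a 2),[0,0,0,3,4]⟩,
   ⟨2,[],(.a 0),(.a 0),(.a 1),(.a 3),[0,0,2,0,4]⟩,
   ⟨1,[],(.a 0),(.a 0),(.a 1),(.a 3),[0,0,0,2,4]⟩,
   ⟨1,[],(.a 0),(.a 0),(.a 2),(.a 3),[0,1,0,0,4]⟩,
   ⟨2,[],(.a 0),(.a 0),(.a 2),(.a 3),[0,0,0,1,4]⟩,
   ⟨2,[],(.a 0),(.a 0),(.a 1),(.a 4),[3,0,2,0,0]⟩],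
  [⟨1,[],(.a 0),(.a 0),(.a 2),(.a 4),[3,0,0,0,1]⟩,
   ⟨2,[],(.a 0),(.a 0),(.a 1),(.a 4),[2,0,3,0,0]⟩,
   ⟨2,[],(.a 0),(.a 0),(.a 1),(.a 4),[0,2,3,0,0]⟩,
   ⟨1,[],(.a 0),(.a 0),(.a 1),(.a 4),[0,3,0,2,0]⟩,
   ⟨4,[],(.a 0),(.a 0),(.a 1),(.a 4),[0,3,0,0,2]⟩,
   ⟨1,[],(.a 0),(.a 0),(.a 2),(.a 4),[1,0,3,0,0]⟩,
   ⟨1,[],(.a 0),(.a 0),(.a 2),(.a 4),[0,3,0,1,0]⟩,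
   ⟨4,[],(.a 0),(.a 0),(.a 2),(.a 4),[0,3,0,0,1]⟩,
   ⟨1,[],(.a 0),(.a 0),(.a 1),(.a 4),[0,0,3,0,2]⟩,
   ⟨4,[],(.a 0),(.a 0),(.a 2),(.a 4),[1,0,0,3,0]⟩,
   ⟨2,[],(.a 0),(.a 0),(.a 2),(.a 4),[0,1,0,3,0]⟩,
   ⟨4,[],(.a 0),(.a 0),(.a 2),(.a 4),[0,0,1,3,0]⟩,
   ⟨2,[],(.a 0),(.a 0),(.a 2),(.a 4),[0,0,3,0,1]⟩,
   ⟨4,[],(.a 0),(.a 0),(.a 1),(.a 4),[2,0,0,0,3]⟩,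
   ⟨3,[],(.a 0),(.a 0),(.a 1),(.a 4),[0,2,0,0,3]⟩,
   ⟨3,[],(.a 0),(.a 0),(.a 1),(.a 4),[0,0,0,2,3]⟩,
   ⟨4,[],(.a 0),(.a 0),(.a 2),(.a 4),[1,0,0,0,3]⟩,
   ⟨3,[],(.a 0),(.a 0),(.a 2),(.a 4),[0,1,0,0,3]⟩,
   ⟨3,[],(.a 0),(.a 0),(.a 2),(.a 4),[0,0,1,0,3]⟩,
   ⟨1,[],(.a 0),(.a 0),(.a 2),(.a 4),[0,0,0,1,3]⟩],
  [⟨3,[],(.a 0),(.a 0),(.a 3),(.a 4),[0,1,2,0,0]⟩,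
   ⟨2,[],(.a 0),(.a 0),(.a 3),(.a 4),[0,2,0,1,0]⟩,
   ⟨1,[],(.a 0),(.a 0),(.a 3),(.a 4),[1,0,0,2,0]⟩,
   ⟨3,[],(.a 0),(.a 0),(.a 3),(.a 4),[0,1,0,2,0]⟩,
   ⟨4,[],(.a 0),(.a 0),(.a 3),(.a 4),[0,0,1,2,0]⟩,
   ⟨2,[],(.a 0),(.a 0),(.a 3),(.a 4),[0,0,2,0,1]⟩,
   ⟨1,[],(.a 0),(.a 0),(.a 3),(.a 4),[0,0,1,0,2]⟩,
   ⟨2,[],(.a 0),(.a 0),(.a 3),(.a 4),[0,0,0,1,2]⟩,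
   ⟨2,[0,4],(.a 0),(.a 0),(.a 1),(.a 2),[3,0,0]⟩,
   ⟨1,[0,2,4],(.a 0),(.a 0),(.a 1),(.a 3),[0,0]⟩,
   ⟨1,[0,4],(.a 0),(.a 0),(.a 1),(.a 3),[2,0,0]⟩,
   ⟨3,[0,4],(.a 0),(.a 0),(.a 1),(.a 3),[0,2,0]⟩,
   ⟨4,[0,1,4],(.a 0),(.a 0),(.a 2),(.a 3),[0,0]⟩,
   ⟨4,[0,4],(.a 0),(.a 0),(.a 2),(.a 3),[0,1,0]⟩,
   ⟨4,[0,2],(.a 0),(.a 0),(.a 1),(.a 3),[4,0,0]⟩,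
   ⟨4,[0,1],(.a 0),(.a 0),(.a 2),(.a 3),[4,0,0]⟩,
   ⟨3,[0,2],(.a 0),(.a 0),(.a 1),(.a 3),[0,4,0]⟩,
   ⟨3,[0,1],(.a 0),(.a 0),(.a 2),(.a 3),[0,4,0]⟩,
   ⟨2,[0,1],(.a 0),(.a 0),(.a 2),(.a 3),[0,0,4]⟩,
   ⟨2,[0,1,3],(.a 0),(.a 0),(.a 2),(.a 4),[0,0]⟩],
  [⟨4,[0,3],(.a 0),(.a 0),(.a 2),(.a 4),[1,0,0]⟩,
   ⟨2,[0,2],(.a 0),(.a 0),(.a 1),(.a 4),[0,0,3]⟩,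
   ⟨1,[0,1,2],(.a 0),(.a 0),(.a 3),(.a 4),[0,0]⟩,
   ⟨4,[0,2],(.a 0),(.a 0),(.a 3),(.a 4),[1,0,0]⟩,
   ⟨3,[0,1],(.a 0),(.a 0),(.a 3),(.a 4),[2,0,0]⟩,
   ⟨4,[0,1],(.a 0),(.a 0),(.a 3),(.a 4),[0,2,0]⟩,
   ⟨3,[0,0,3,4],(.a 0),(.a 0),(.a 1),(.a 2),[0]⟩,
   ⟨4,[0,0,2,4],(.a 0),(.a 0),(.a 1),(.a 3),[0]⟩,
   ⟨4,[0,0,4],(.a 0),(.a 0),(.a 1),(.a 3),[2,0]⟩,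
   ⟨3,[0,0,4],(.a 0),(.a 0),(.a 2),(.a 3),[0,1]⟩,
   ⟨4,[0,0,2],(.a 0),(.a 0),(.a 1),(.a 3),[4,0]⟩,
   ⟨3,[0,0,2],(.a 0),(.a 0),(.a 1),(.a 3),[0,4]⟩,
   ⟨1,[0,1,0,3],(.a 0),(.a 0),(.a 2),(.a 4),[0]⟩,
   ⟨4,[0,0,1,3],(.a 0),(.a 0),(.a 2),(.a 4),[0]⟩,
   ⟨1,[0,4,0,0,3],(.a 0),(.a 0),(.a 1),(.a 2),[]⟩,
   ⟨4,[0,4,0,0],(.a 0),(.a 0),(.a 1),(.a 2),[3]⟩,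
   ⟨2,[0,2,0,4,0],(.a 0),(.a 0),(.a 1),(.a 3),[]⟩,
   ⟨1,[0,1,0,4,0],(.a 0),(.a 0),(.a 2),(.a 3),[]⟩,
   ⟨2,[0,3,0,0,4],(.a 0),(.a 0),(.a 1),(.a 2),[]⟩,
   ⟨4,[0,0,0,2,4],(.a 0),(.a 0),(.a 1),(.a 3),[]⟩],
  [⟨1,[0,1,0,0,4],(.a 0),(.a 0),(.a 2),(.a 3),[]⟩,
   ⟨4,[0,0,0,1,4],(.a 0),(.a 0),(.a 2),(.a 3),[]⟩,
   ⟨1,[0,3,0,0],(.a 0),(.a 0),(.a 1),(.a 2),[4]⟩,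
   ⟨4,[0,3,0,0],(.a 0),(.a 0),(.a 2),(.a 4),[1]⟩,
   ⟨1,[0,0,3,0],(.a 0),(.a 0),(.a 1),(.a 4),[2]⟩,
   ⟨1,[0,0,3,0,1],(.a 0),(.a 0),(.a 2),(.a 4),[]⟩,
   ⟨3,[0,2,0,0,3],(.a 0),(.a 0),(.a 1),(.a 4),[]⟩,
   ⟨1,[0,0,0,2,3],(.a 0),(.a 0),(.a 1),(.a 4),[]⟩,
   ⟨4,[0,0,0,1,3],(.a 0),(.a 0),(.a 2),(.a 4),[]⟩,
   ⟨4,[0,1,0,0],(.a 0),(.a 0),(.a 2),(.a 4),[3]⟩,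
   ⟨3,[0,2,0,0],(.a 0),(.a 0),(.a 3),(.a 4),[1]⟩,
   ⟨4,[0,0,2,0,1],(.a 0),(.a 0),(.a 3),(.a 4),[]⟩,
   ⟨2,[0,0,1,0,2],(.a 0),(.a 0),(.a 3),(.a 4),[]⟩,
   ⟨3,[0,0,0,1,2],(.a 0),(.a 0),(.a 3),(.a 4),[]⟩,
   ⟨4,[0,0,0,1],(.a 0),(.a 0),(.a 3),(.a 4),[2]⟩,
   ⟨1,[],(.b (.b (.a 0) (.a 3)) (.a 0)),(.a 0),(.a 1),(.a 2),[0,0,4]⟩,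
   ⟨2,[],(.b (.b (.a 0) (.a 1)) (.a 0)),(.a 0),(.a 3),(.a 4),[0,2,0]⟩,
   ⟨2,[],(.b (.b (.a 0) (.a 3)) (.a 0)),(.a 0),(.a 2),(.a 4),[0,1,0]⟩,
   ⟨2,[],(.b (.b (.a 0) (.a 3)) (.a 0)),(.a 0),(.a 2),(.a 4),[0,0,1]⟩,
   ⟨3,[],(.b (.b (.a 0) (.a 4)) (.a 0)),(.a 0),(.a 1),(.a 2),[0,3,0]⟩],
  [⟨3,[],(.b (.b (.a 0) (.a 4)) (.a 0)),(.a 0),(.a 1),(.a 3),[0,0,2]⟩,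
   ⟨1,[],(.b (.b (.a 0) (.a 4)) (.a 0)),(.a 0),(.a 2),(.a 3),[0,1,0]⟩,
   ⟨4,[],(.a 0),(.a 0),(.a 0),(.a 1),[2,3,4,0,0]⟩,
   ⟨4,[],(.a 0),(.a 0),(.a 0),(.a 1),[3,4,0,2,0]⟩,
   ⟨3,[],(.a 0),(.a 0),(.a 0),(.a 1),[3,4,0,0,2]⟩,
   ⟨1,[],(.a 0),(.a 0),(.a 0),(.a 2),[1,3,4,0,0]⟩,
   ⟨1,[],(.a 0),(.a 0),(.a 0),(.a 2),[3,4,0,1,0]⟩,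
   ⟨3,[],(.a 0),(.a 0),(.a 0),(.a 2),[3,4,0,0,1]⟩,
   ⟨1,[],(.a 0),(.a 0),(.a 0),(.a 1),[2,4,0,3,0]⟩,
   ⟨1,[],(.a 0),(.a 0),(.a 0),(.a 1),[4,0,2,3,0]⟩,
   ⟨2,[],(.a 0),(.a 0),(.a 0),(.a 1),[4,0,3,0,2]⟩,
   ⟨2,[],(.a 0),(.a 0),(.a 0),(.a 2),[1,4,0,3,0]⟩,
   ⟨1,[],(.a 0),(.a 0),(.a 0),(.a 2),[4,0,3,0,1]⟩,
   ⟨1,[],(.a 0),(.a 0),(.a 0),(.a 1),[2,4,0,0,3]⟩,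
   ⟨2,[],(.a 0),(.a 0),(.a 0),(.a 1),[4,0,2,0,3]⟩,
   ⟨3,[],(.a 0),(.a 0),(.a 0),(.a 1),[4,0,0,2,3]⟩,
   ⟨2,[],(.a 0),(.a 0),(.a 0),(.a 2),[1,4,0,0,3]⟩,
   ⟨2,[],(.a 0),(.a 0),(.a 0),(.a 2),[4,0,1,0,3]⟩,
   ⟨2,[],(.a 0),(.a 0),(.a 0),(.a 3),[1,2,4,0,0]⟩,
   ⟨4,[],(.a 0),(.a 0),(.a 0),(.a 3),[2,4,0,1,0]⟩],
  [⟨2,[],(.a 0),(.a 0),(.a 0),(.a 3),[2,4,0,0,1]⟩,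
   ⟨1,[],(.a 0),(.a 0),(.a 0),(.a 3),[1,4,0,2,0]⟩,
   ⟨3,[],(.a 0),(.a 0),(.a 0),(.a 3),[4,0,1,2,0]⟩,
   ⟨3,[],(.a 0),(.a 0),(.a 0),(.a 3),[4,0,2,0,1]⟩,
   ⟨2,[],(.a 0),(.a 0),(.a 0),(.a 3),[1,4,0,0,2]⟩,
   ⟨1,[],(.a 0),(.a 0),(.a 0),(.a 3),[4,0,1,0,2]⟩,
   ⟨3,[],(.a 0),(.a 0),(.a 0),(.a 3),[4,0,0,1,2]⟩,
   ⟨3,[],(.b (.a 0) (.a 1)),(.b (.a 0) (.a 3)),(.a 0),(.a 2),[4,0,0]⟩,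
   ⟨4,[],(.a 0),(.a 0),(.a 0),(.a 1),[2,3,0,4,0]⟩,
   ⟨2,[],(.a 0),(.a 0),(.a 0),(.a 1),[3,0,2,4,0]⟩,
   ⟨1,[],(.a 0),(.a 0),(.a 0),(.a 1),[3,0,4,0,2]⟩,
   ⟨1,[],(.a 0),(.a 0),(.a 0),(.a 2),[1,3,0,4,0]⟩,
   ⟨3,[],(.a 0),(.a 0),(.a 0),(.a 2),[3,0,4,0,1]⟩,
   ⟨2,[],(.a 0),(.a 0),(.a 0),(.a 1),[2,0,3,4,0]⟩,
   ⟨4,[],(.a 0),(.a 0),(.a 0),(.a 1),[0,2,3,4,0]⟩,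
   ⟨3,[],(.a 0),(.a 0),(.a 0),(.a 1),[0,3,4,0,2]⟩,
   ⟨2,[],(.a 0),(.a 0),(.a 0),(.a 2),[0,1,3,4,0]⟩,
   ⟨3,[],(.a 0),(.a 0),(.a 0),(.a 2),[0,3,4,0,1]⟩,
   ⟨1,[],(.a 0),(.a 0),(.a 0),(.a 1),[2,0,4,0,3]⟩,
   ⟨4,[],(.a 0),(.a 0),(.a 0),(.a 1),[0,2,4,0,3]⟩],
  [⟨4,[],(.a 0),(.a 0),(.a 0),(.a 1),[0,4,0,2,3]⟩,
   ⟨4,[],(.a 0),(.a 0),(.a 0),(.a 2),[1,0,4,0,3]⟩,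
   ⟨1,[],(.a 0),(.a 0),(.a 0),(.a 2),[0,1,4,0,3]⟩,
   ⟨3,[],(.a 0),(.a 0),(.a 0),(.a 2),[0,4,0,1,3]⟩,
   ⟨3,[],(.a 0),(.a 0),(.a 0),(.a 3),[2,0,1,4,0]⟩,
   ⟨2,[],(.a 0),(.a 0),(.a 0),(.a 3),[2,0,4,0,1]⟩,
   ⟨3,[],(.a 0),(.a 0),(.a 0),(.a 3),[1,0,2,4,0]⟩,
   ⟨4,[],(.a 0),(.a 0),(.a 0),(.a 3),[0,1,2,4,0]⟩,
   ⟨1,[],(.a 0),(.a 0),(.a 0),(.a 3),[0,2,4,0,1]⟩,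
   ⟨4,[],(.a 0),(.a 0),(.a 0),(.a 3),[1,0,4,0,2]⟩,
   ⟨2,[],(.a 0),(.a 0),(.a 0),(.a 3),[0,1,4,0,2]⟩,
   ⟨2,[],(.a 0),(.a 0),(.a 0),(.a 3),[0,4,0,1,2]⟩,
   ⟨2,[],(.b (.a 0) (.a 2)),(.b (.a 0) (.a 3)),(.a 0),(.a 1),[0,4,0]⟩,
   ⟨3,[],(.a 0),(.a 0),(.a 0),(.a 1),[2,3,0,0,4]⟩,
   ⟨3,[],(.a 0),(.a 0),(.a 0),(.a 1),[3,0,2,0,4]⟩,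
   ⟨3,[],(.a 0),(.a 0),(.a 0),(.a 1),[3,0,0,2,4]⟩,
   ⟨2,[],(.a 0),(.a 0),(.a 0),(.a 2),[1,3,0,0,4]⟩,
   ⟨2,[],(.a 0),(.a 0),(.a 0),(.a 2),[3,0,1,0,4]⟩,
   ⟨4,[],(.a 0),(.a 0),(.a 0),(.a 2),[3,0,0,1,4]⟩,
   ⟨2,[],(.a 0),(.a 0),(.a 0),(.a 1),[0,2,3,0,4]⟩],
  [⟨2,[],(.a 0),(.a 0),(.a 0),(.a 1),[0,3,0,2,4]⟩,
   ⟨1,[],(.a 0),(.a 0),(.a 0),(.a 2),[1,0,3,0,4]⟩,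
   ⟨1,[],(.a 0),(.a 0),(.a 0),(.a 2),[0,1,3,0,4]⟩,
   ⟨2,[],(.a 0),(.a 0),(.a 0),(.a 2),[0,3,0,1,4]⟩,
   ⟨1,[],(.a 0),(.a 0),(.a 0),(.a 1),[2,0,0,3,4]⟩,
   ⟨3,[],(.a 0),(.a 0),(.a 0),(.a 1),[0,2,0,3,4]⟩,
   ⟨2,[],(.a 0),(.a 0),(.a 0),(.a 1),[0,0,2,3,4]⟩,
   ⟨1,[],(.a 0),(.a 0),(.a 0),(.a 2),[0,1,0,3,4]⟩,
   ⟨3,[],(.a 0),(.a 0),(.a 0),(.a 2),[0,0,1,3,4]⟩,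
   ⟨2,[],(.a 0),(.a 0),(.a 0),(.a 3),[2,0,1,0,4]⟩,
   ⟨1,[],(.a 0),(.a 0),(.a 0),(.a 3),[2,0,0,1,4]⟩,
   ⟨4,[],(.a 0),(.a 0),(.a 0),(.a 3),[1,0,2,0,4]⟩,
   ⟨2,[],(.a 0),(.a 0),(.a 0),(.a 3),[0,2,0,1,4]⟩,
   ⟨4,[],(.a 0),(.a 0),(.a 0),(.a 3),[0,1,0,2,4]⟩,
   ⟨2,[],(.a 0),(.a 0),(.a 0),(.a 3),[0,0,1,2,4]⟩,
   ⟨1,[],(.b (.a 0) (.a 2)),(.b (.a 0) (.a 3)),(.a 0),(.a 1),[0,0,4]⟩,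
   ⟨3,[],(.a 0),(.a 0),(.a 0),(.a 4),[1,2,3,0,0]⟩,
   ⟨4,[],(.a 0),(.a 0),(.a 0),(.a 4),[2,3,0,0,1]⟩,
   ⟨3,[],(.a 0),(.a 0),(.a 0),(.a 4),[3,0,1,2,0]⟩,
   ⟨2,[],(.a 0),(.a 0),(.a 0),(.a 4),[3,0,2,0,1]⟩],
  [⟨2,[],(.a 0),(.a 0),(.a 0),(.a 4),[1,3,0,0,2]⟩,
   ⟨4,[],(.a 0),(.a 0),(.a 0),(.a 4),[3,0,1,0,2]⟩,
   ⟨2,[],(.a 0),(.a 0),(.a 0),(.a 4),[3,0,0,1,2]⟩,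
   ⟨3,[],(.a 0),(.a 0),(.a 0),(.a 4),[1,2,0,3,0]⟩,
   ⟨3,[],(.a 0),(.a 0),(.a 0),(.a 4),[2,0,3,0,1]⟩,
   ⟨1,[],(.a 0),(.a 0),(.a 0),(.a 4),[1,0,2,3,0]⟩,
   ⟨3,[],(.a 0),(.a 0),(.a 0),(.a 4),[0,1,2,3,0]⟩,
   ⟨1,[],(.a 0),(.a 0),(.a 0),(.a 4),[0,2,3,0,1]⟩,
   ⟨4,[],(.a 0),(.a 0),(.a 0),(.a 4),[1,0,3,0,2]⟩,
   ⟨4,[],(.a 0),(.a 0),(.a 0),(.a 4),[0,1,3,0,2]⟩,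
   ⟨3,[],(.a 0),(.a 0),(.a 0),(.a 4),[0,3,0,1,2]⟩,
   ⟨4,[],(.b (.a 0) (.a 1)),(.b (.a 0) (.a 2)),(.a 0),(.a 4),[0,3,0]⟩,
   ⟨2,[],(.a 0),(.a 0),(.a 0),(.a 4),[1,2,0,0,3]⟩,
   ⟨1,[],(.a 0),(.a 0),(.a 0),(.a 4),[0,1,2,0,3]⟩,
   ⟨3,[],(.a 0),(.a 0),(.a 0),(.a 4),[0,2,0,1,3]⟩,
   ⟨1,[],(.a 0),(.a 0),(.a 0),(.a 4),[1,0,0,2,3]⟩,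
   ⟨1,[],(.b (.a 0) (.a 1)),(.b (.a 0) (.a 3)),(.a 0),(.a 4),[0,0,2]⟩,
   ⟨1,[],(.b (.a 0) (.a 1)),(.b (.a 0) (.a 4)),(.a 0),(.a 3),[2,0,0]⟩,
   ⟨1,[],(.b (.a 0) (.a 1)),(.b (.a 0) (.a 4)),(.a 0),(.a 3),[0,2,0]⟩,
   ⟨4,[],(.b (.a 0) (.a 2)),(.b (.a 0) (.a 4)),(.a 0),(.a 3),[0,1,0]⟩],
  [⟨3,[],(.b (.a 0) (.a 3)),(.b (.a 0) (.a 4)),(.a 0),(.a 1),[2,0,0]⟩,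
   ⟨3,[],(.b (.a 0) (.a 3)),(.b (.a 0) (.a 4)),(.a 0),(.a 1),[0,2,0]⟩,
   ⟨3,[0,3,4],(.a 0),(.a 0),(.a 0),(.a 1),[2,0]⟩,
   ⟨3,[0,3,4],(.a 0),(.a 0),(.a 0),(.a 1),[0,2]⟩,
   ⟨3,[0,3,4],(.a 0),(.a 0),(.a 0),(.a 2),[1,0]⟩,
   ⟨3,[0,2,4],(.a 0),(.a 0),(.a 0),(.a 1),[3,0]⟩,
   ⟨3,[0,4],(.a 0),(.a 0),(.a 0),(.a 1),[2,3,0]⟩,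
   ⟨3,[0,4],(.a 0),(.a 0),(.a 0),(.a 1),[3,0,2]⟩,
   ⟨2,[0,4],(.a 0),(.a 0),(.a 0),(.a 2),[3,0,1]⟩,
   ⟨4,[0,2,4],(.a 0),(.a 0),(.a 0),(.a 1),[0,3]⟩,
   ⟨2,[0,4],(.a 0),(.a 0),(.a 0),(.a 1),[2,0,3]⟩,
   ⟨3,[0,4],(.a 0),(.a 0),(.a 0),(.a 1),[0,2,3]⟩,
   ⟨4,[0,1,4],(.a 0),(.a 0),(.a 0),(.a 2),[0,3]⟩,
   ⟨4,[0,4],(.a 0),(.a 0),(.a 0),(.a 2),[0,1,3]⟩,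
   ⟨3,[0,2,4],(.a 0),(.a 0),(.a 0),(.a 3),[1,0]⟩,
   ⟨4,[0,2,4],(.a 0),(.a 0),(.a 0),(.a 3),[0,1]⟩,
   ⟨3,[0,4],(.a 0),(.a 0),(.a 0),(.a 3),[1,2,0]⟩,
   ⟨3,[0,4],(.a 0),(.a 0),(.a 0),(.a 3),[2,0,1]⟩,
   ⟨3,[0,1,4],(.a 0),(.a 0),(.a 0),(.a 3),[0,2]⟩,
   ⟨3,[0,4],(.a 0),(.a 0),(.a 0),(.a 3),[1,0,2]⟩],
  [⟨1,[0,4],(.b (.b (.a 0) (.a 2)) (.a 3)),(.a 0),(.a 0),(.a 1),[0]⟩,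
   ⟨3,[0,2,3],(.a 0),(.a 0),(.a 0),(.a 1),[4,0]⟩,
   ⟨3,[0,3],(.a 0),(.a 0),(.a 0),(.a 1),[2,4,0]⟩,
   ⟨3,[0,3],(.a 0),(.a 0),(.a 0),(.a 1),[4,0,2]⟩,
   ⟨3,[0,1,3],(.a 0),(.a 0),(.a 0),(.a 2),[4,0]⟩,
   ⟨1,[0,3],(.a 0),(.a 0),(.a 0),(.a 2),[1,4,0]⟩,
   ⟨3,[0,3],(.a 0),(.a 0),(.a 0),(.a 2),[4,0,1]⟩,
   ⟨3,[0,2],(.a 0),(.a 0),(.a 0),(.a 1),[3,4,0]⟩,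
   ⟨3,[0,1],(.a 0),(.a 0),(.a 0),(.a 2),[3,4,0]⟩,
   ⟨4,[0,2],(.a 0),(.a 0),(.a 0),(.a 1),[4,0,3]⟩,
   ⟨1,[0,1],(.a 0),(.a 0),(.a 0),(.a 2),[4,0,3]⟩,
   ⟨3,[0,1,2],(.a 0),(.a 0),(.a 0),(.a 3),[4,0]⟩,
   ⟨4,[0,2],(.a 0),(.a 0),(.a 0),(.a 3),[1,4,0]⟩,
   ⟨2,[0,1],(.a 0),(.a 0),(.a 0),(.a 3),[2,4,0]⟩,
   ⟨3,[0,2,3],(.a 0),(.a 0),(.a 0),(.a 1),[0,4]⟩,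
   ⟨4,[0,3],(.a 0),(.a 0),(.a 0),(.a 1),[2,0,4]⟩,
   ⟨4,[0,3],(.a 0),(.a 0),(.a 0),(.a 1),[0,2,4]⟩,
   ⟨3,[0,1,3],(.a 0),(.a 0),(.a 0),(.a 2),[0,4]⟩,
   ⟨3,[0,3],(.a 0),(.a 0),(.a 0),(.a 2),[1,0,4]⟩,
   ⟨3,[0,3],(.a 0),(.a 0),(.a 0),(.a 2),[0,1,4]⟩],
  [⟨1,[0,2],(.a 0),(.a 0),(.a 0),(.a 1),[3,0,4]⟩,
   ⟨4,[0,2],(.a 0),(.a 0),(.a 0),(.a 1),[0,3,4]⟩,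
   ⟨2,[0,1],(.a 0),(.a 0),(.a 0),(.a 2),[0,3,4]⟩,
   ⟨1,[0,1,2],(.a 0),(.a 0),(.a 0),(.a 3),[0,4]⟩,
   ⟨2,[0,2],(.a 0),(.a 0),(.a 0),(.a 3),[1,0,4]⟩,
   ⟨1,[0,2],(.a 0),(.a 0),(.a 0),(.a 3),[0,1,4]⟩,
   ⟨2,[0,1],(.a 0),(.a 0),(.a 0),(.a 3),[2,0,4]⟩,
   ⟨1,[0,1],(.a 0),(.a 0),(.a 0),(.a 3),[0,2,4]⟩,
   ⟨2,[0,2,3],(.a 0),(.a 0),(.a 0),(.a 4),[1,0]⟩,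
   ⟨2,[0,1,3],(.a 0),(.a 0),(.a 0),(.a 4),[2,0]⟩,
   ⟨2,[0,3],(.a 0),(.a 0),(.a 0),(.a 4),[1,2,0]⟩,
   ⟨1,[0,1,3],(.a 0),(.a 0),(.a 0),(.a 4),[0,2]⟩,
   ⟨4,[0,3],(.a 0),(.a 0),(.a 0),(.a 4),[1,0,2]⟩,
   ⟨4,[0,3],(.b (.b (.a 0) (.a 1)) (.a 2)),(.a 0),(.a 0),(.a 4),[0]⟩,
   ⟨1,[0,2],(.a 0),(.a 0),(.a 0),(.a 4),[1,3,0]⟩,
   ⟨1,[0,2],(.a 0),(.a 0),(.a 0),(.a 4),[3,0,1]⟩,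
   ⟨3,[0,1],(.a 0),(.a 0),(.a 0),(.a 4),[2,3,0]⟩,
   ⟨2,[0,1],(.a 0),(.a 0),(.a 0),(.a 4),[3,0,2]⟩,
   ⟨1,[0,1,2],(.a 0),(.a 0),(.a 0),(.a 4),[0,3]⟩,
   ⟨4,[0,2],(.a 0),(.a 0),(.a 0),(.a 4),[1,0,3]⟩],
  [⟨4,[0,1],(.a 0),(.a 0),(.a 0),(.a 4),[2,0,3]⟩,
   ⟨3,[0,1],(.a 0),(.a 0),(.a 0),(.a 4),[0,2,3]⟩,
   ⟨4,[0,3],(.b (.b (.a 0) (.a 1)) (.a 4)),(.a 0),(.a 0),(.a 2),[0]⟩,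
   ⟨4,[0,3],(.b (.b (.a 0) (.a 2)) (.a 4)),(.a 0),(.a 0),(.a 1),[0]⟩,
   ⟨1,[0,1],(.b (.b (.a 0) (.a 2)) (.a 4)),(.a 0),(.a 0),(.a 3),[0]⟩,
   ⟨2,[0,3,4,0,2],(.a 0),(.a 0),(.a 0),(.a 1),[]⟩,
   ⟨4,[0,3,4,0,1],(.a 0),(.a 0),(.a 0),(.a 2),[]⟩,
   ⟨4,[0,1,4,0,3],(.a 0),(.a 0),(.a 0),(.a 2),[]⟩,
   ⟨2,[0,4,0,1,3],(.a 0),(.a 0),(.a 0),(.a 2),[]⟩,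
   ⟨1,[0,4,0,3],(.a 0),(.a 0),(.a 0),(.a 2),[1]⟩,
   ⟨4,[0,2,4,0,1],(.a 0),(.a 0),(.a 0),(.a 3),[]⟩,
   ⟨3,[0,1,4,0,2],(.a 0),(.a 0),(.a 0),(.a 3),[]⟩,
   ⟨2,[0,4,0,1],(.a 0),(.a 0),(.a 0),(.a 3),[2]⟩,
   ⟨4,[0,2,3,0,4],(.a 0),(.a 0),(.a 0),(.a 1),[]⟩,
   ⟨1,[0,3,0,4],(.a 0),(.a 0),(.a 0),(.a 1),[2]⟩,
   ⟨2,[0,1,3,0,4],(.a 0),(.a 0),(.a 0),(.a 2),[]⟩,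
   ⟨1,[0,3,0,1,4],(.a 0),(.a 0),(.a 0),(.a 2),[]⟩,
   ⟨3,[0,3,0,4],(.a 0),(.a 0),(.a 0),(.a 2),[1]⟩,
   ⟨1,[0,2,0,3,4],(.a 0),(.a 0),(.a 0),(.a 1),[]⟩,
   ⟨4,[0,0,2,3,4],(.a 0),(.a 0),(.a 0),(.a 1),[]⟩],
  [⟨1,[0,2,0,4],(.a 0),(.a 0),(.a 0),(.a 1),[3]⟩,
   ⟨4,[0,0,2,4],(.a 0),(.a 0),(.a 0),(.a 1),[3]⟩,
   ⟨3,[0,0,4],(.a 0),(.a 0),(.a 0),(.a 1),[2,3]⟩,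
   ⟨2,[0,0,1,4],(.a 0),(.a 0),(.a 0),(.a 2),[3]⟩,
   ⟨1,[0,0,4],(.a 0),(.a 0),(.a 0),(.a 2),[1,3]⟩,
   ⟨1,[0,2,0,4],(.a 0),(.a 0),(.a 0),(.a 3),[1]⟩,
   ⟨4,[0,1,0,2,4],(.a 0),(.a 0),(.a 0),(.a 3),[]⟩,
   ⟨2,[0,0,1,2,4],(.a 0),(.a 0),(.a 0),(.a 3),[]⟩,
   ⟨1,[0,0,2,4],(.a 0),(.a 0),(.a 0),(.a 3),[1]⟩,
   ⟨1,[0,1,0,4],(.a 0),(.a 0),(.a 0),(.a 3),[2]⟩,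
   ⟨1,[0,0,4],(.a 0),(.a 0),(.a 0),(.a 3),[1,2]⟩,
   ⟨1,[0,0,4],(.b (.b (.a 0) (.a 2)) (.a 3)),(.a 0),(.a 0),(.a 1),[]⟩,
   ⟨4,[0,3,0,2],(.a 0),(.a 0),(.a 0),(.a 1),[4]⟩,
   ⟨4,[0,1,0,3],(.a 0),(.a 0),(.a 0),(.a 2),[4]⟩,
   ⟨3,[0,0,1,3],(.a 0),(.a 0),(.a 0),(.a 2),[4]⟩,
   ⟨2,[0,0,2],(.a 0),(.a 0),(.a 0),(.a 1),[3,4]⟩,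
   ⟨4,[0,2,0,1],(.a 0),(.a 0),(.a 0),(.a 3),[4]⟩,
   ⟨3,[0,0,1,2],(.a 0),(.a 0),(.a 0),(.a 3),[4]⟩,
   ⟨3,[0,2,3,0,1],(.a 0),(.a 0),(.a 0),(.a 4),[]⟩,
   ⟨3,[0,1,3,0,2],(.a 0),(.a 0),(.a 0),(.a 4),[]⟩],
  [⟨3,[0,1,2,0,3],(.a 0),(.a 0),(.a 0),(.a 4),[]⟩,
   ⟨4,[0,2,0,1,3],(.a 0),(.a 0),(.a 0),(.a 4),[]⟩,
   ⟨4,[0,2,0,3],(.a 0),(.a 0),(.a 0),(.a 4),[1]⟩,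
   ⟨2,[0,0,1,2,3],(.a 0),(.a 0),(.a 0),(.a 4),[]⟩,
   ⟨2,[0,0,2,3],(.a 0),(.a 0),(.a 0),(.a 4),[1]⟩,
   ⟨3,[0,1,0,3],(.a 0),(.a 0),(.a 0),(.a 4),[2]⟩,
   ⟨4,[0,0,3],(.a 0),(.a 0),(.a 0),(.a 4),[1,2]⟩,
   ⟨4,[0,2,0,1],(.a 0),(.a 0),(.a 0),(.a 4),[3]⟩,
   ⟨1,[0,1,0,2],(.a 0),(.a 0),(.a 0),(.a 4),[3]⟩,
   ⟨2,[0,0,1,2],(.a 0),(.a 0),(.a 0),(.a 4),[3]⟩,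
   ⟨2,[0,0,2],(.a 0),(.a 0),(.a 0),(.a 4),[1,3]⟩,
   ⟨1,[0,0,1],(.a 0),(.a 0),(.a 0),(.a 4),[2,3]⟩,
   ⟨1,[0,0,1],(.b (.b (.a 0) (.a 2)) (.a 4)),(.a 0),(.a 0),(.a 3),[]⟩,
   ⟨1,[],(.b (.b (.a 0) (.a 2)) (.a 0)),(.b (.b (.a 0) (.a 1)) (.a 0)),(.a 3),(.a 4),[0]⟩,
   ⟨1,[],(.b (.b (.a 0) (.a 2)) (.b (.a 0) (.a 1))),(.a 0),(.a 0),(.a 4),[0,3]⟩,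
   ⟨1,[],(.b (.b (.a 0) (.a 3)) (.b (.a 0) (.a 1))),(.a 0),(.a 0),(.a 4),[0,2]⟩,
   ⟨3,[],(.b (.b (.a 0) (.a 4)) (.b (.a 0) (.a 1))),(.a 0),(.a 0),(.a 2),[0,3]⟩,
   ⟨1,[],(.b (.b (.a 0) (.a 4)) (.b (.a 0) (.a 2))),(.a 0),(.a 0),(.a 3),[0,1]⟩,
   ⟨3,[],(.b (.b (.a 0) (.a 4)) (.b (.a 0) (.a 3))),(.a 0),(.a 0),(.a 1),[0,2]⟩,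
   ⟨2,[],(.b (.b (.a 0) (.a 4)) (.b (.a 0) (.a 3))),(.a 0),(.a 0),(.a 2),[0,1]⟩],
  [⟨1,[0,4],(.b (.b (.a 0) (.a 3)) (.b (.a 0) (.a 2))),(.a 0),(.a 0),(.a 1),[]⟩,
   ⟨1,[0,2],(.b (.b (.a 0) (.a 3)) (.b (.a 0) (.a 1))),(.a 0),(.a 0),(.a 4),[]⟩,
   ⟨4,[0,3],(.b (.b (.a 0) (.a 4)) (.b (.a 0) (.a 2))),(.a 0),(.a 0),(.a 1),[]⟩,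
   ⟨4,[0,2],(.b (.b (.a 0) (.a 4)) (.b (.a 0) (.a 1))),(.a 0),(.a 0),(.a 3),[]⟩,
   ⟨1,[0,2],(.b (.b (.a 0) (.a 4)) (.b (.a 0) (.a 3))),(.a 0),(.a 0),(.a 1),[]⟩,
   ⟨2,[],(.b (.b (.a 0) (.a 1)) (.a 2)),(.a 0),(.a 0),(.a 0),[3,4,0]⟩,
   ⟨4,[],(.b (.b (.a 0) (.a 1)) (.a 2)),(.a 0),(.a 0),(.a 0),[4,0,3]⟩,
   ⟨1,[],(.b (.b (.a 0) (.a 1)) (.a 3)),(.a 0),(.a 0),(.a 0),[2,4,0]⟩,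
   ⟨3,[],(.b (.b (.a 0) (.a 1)) (.a 3)),(.a 0),(.a 0),(.a 0),[4,0,2]⟩,
   ⟨2,[],(.b (.b (.a 0) (.a 2)) (.a 3)),(.a 0),(.a 0),(.a 0),[1,4,0]⟩,
   ⟨1,[],(.b (.b (.a 0) (.a 2)) (.a 3)),(.a 0),(.a 0),(.a 0),[4,0,1]⟩,
   ⟨4,[],(.b (.b (.b (.a 0) (.a 1)) (.a 2)) (.a 3)),(.a 0),(.a 0),(.a 0),[4,0]⟩,
   ⟨4,[],(.b (.b (.a 0) (.a 1)) (.a 2)),(.a 0),(.a 0),(.a 0),[3,0,4]⟩,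
   ⟨4,[],(.b (.b (.a 0) (.a 1)) (.a 2)),(.a 0),(.a 0),(.a 0),[0,3,4]⟩,
   ⟨3,[],(.b (.b (.a 0) (.a 1)) (.a 3)),(.a 0),(.a 0),(.a 0),[0,2,4]⟩,
   ⟨2,[],(.b (.b (.a 0) (.a 2)) (.a 3)),(.a 0),(.a 0),(.a 0),[1,0,4]⟩,
   ⟨4,[],(.b (.b (.b (.a 0) (.a 1)) (.a 2)) (.a 3)),(.a 0),(.a 0),(.a 0),[0,4]⟩,
   ⟨1,[],(.b (.b (.a 0) (.a 1)) (.a 4)),(.a 0),(.a 0),(.a 0),[3,0,2]⟩,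
   ⟨2,[],(.b (.b (.a 0) (.a 2)) (.a 4)),(.a 0),(.a 0),(.a 0),[3,0,1]⟩,
   ⟨3,[],(.b (.b (.b (.a 0) (.a 1)) (.a 2)) (.a 4)),(.a 0),(.a 0),(.a 0),[3,0]⟩],
  [⟨4,[],(.b (.b (.a 0) (.a 1)) (.a 4)),(.a 0),(.a 0),(.a 0),[2,0,3]⟩,
   ⟨4,[],(.b (.b (.a 0) (.a 2)) (.a 4)),(.a 0),(.a 0),(.a 0),[1,0,3]⟩,
   ⟨4,[],(.b (.b (.a 0) (.a 2)) (.a 4)),(.a 0),(.a 0),(.a 0),[0,1,3]⟩,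
   ⟨4,[],(.b (.b (.b (.a 0) (.a 1)) (.a 2)) (.a 4)),(.a 0),(.a 0),(.a 0),[0,3]⟩,
   ⟨3,[],(.b (.b (.a 0) (.a 3)) (.a 4)),(.a 0),(.a 0),(.a 0),[2,0,1]⟩,
   ⟨3,[],(.b (.b (.b (.a 0) (.a 1)) (.a 3)) (.a 4)),(.a 0),(.a 0),(.a 0),[2,0]⟩,
   ⟨4,[],(.b (.b (.a 0) (.a 3)) (.a 4)),(.a 0),(.a 0),(.a 0),[1,0,2]⟩,
   ⟨1,[],(.b (.b (.b (.a 0) (.a 1)) (.a 3)) (.a 4)),(.a 0),(.a 0),(.a 0),[0,2]⟩,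
   ⟨3,[],(.b (.b (.b (.a 0) (.a 2)) (.a 3)) (.a 4)),(.a 0),(.a 0),(.a 0),[1,0]⟩,
   ⟨1,[],(.b (.b (.b (.a 0) (.a 2)) (.a 3)) (.a 4)),(.a 0),(.a 0),(.a 0),[0,1]⟩,
   ⟨2,[0,4],(.b (.b (.a 0) (.a 1)) (.a 2)),(.a 0),(.a 0),(.a 0),[3]⟩,
   ⟨1,[0,2,4],(.b (.b (.a 0) (.a 1)) (.a 3)),(.a 0),(.a 0),(.a 0),[]⟩,
   ⟨2,[0,4],(.b (.b (.a 0) (.a 1)) (.a 3)),(.a 0),(.a 0),(.a 0),[2]⟩,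
   ⟨1,[0,1,4],(.b (.b (.a 0) (.a 2)) (.a 3)),(.a 0),(.a 0),(.a 0),[]⟩,
   ⟨4,[0,4],(.b (.b (.a 0) (.a 2)) (.a 3)),(.a 0),(.a 0),(.a 0),[1]⟩,
   ⟨2,[0,3],(.b (.b (.a 0) (.a 1)) (.a 2)),(.a 0),(.a 0),(.a 0),[4]⟩,
   ⟨1,[0,2],(.b (.b (.a 0) (.a 1)) (.a 3)),(.a 0),(.a 0),(.a 0),[4]⟩,
   ⟨4,[0,2,3],(.b (.b (.a 0) (.a 1)) (.a 4)),(.a 0),(.a 0),(.a 0),[]⟩,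
   ⟨3,[0,3],(.b (.b (.a 0) (.a 1)) (.a 4)),(.a 0),(.a 0),(.a 0),[2]⟩,
   ⟨4,[0,1,3],(.b (.b (.a 0) (.a 2)) (.a 4)),(.a 0),(.a 0),(.a 0),[]⟩],
  [⟨1,[0,2],(.b (.b (.a 0) (.a 1)) (.a 4)),(.a 0),(.a 0),(.a 0),[3]⟩,
   ⟨2,[0,1],(.b (.b (.a 0) (.a 2)) (.a 4)),(.a 0),(.a 0),(.a 0),[3]⟩,
   ⟨1,[0,1,2],(.b (.b (.a 0) (.a 3)) (.a 4)),(.a 0),(.a 0),(.a 0),[]⟩,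
   ⟨1,[0,2],(.b (.b (.b (.a 0) (.a 1)) (.a 3)) (.a 4)),(.a 0),(.a 0),(.a 0),[]⟩,
   ⟨2,[0,1],(.b (.b (.a 0) (.a 3)) (.a 4)),(.a 0),(.a 0),(.a 0),[2]⟩,
   ⟨1,[0,1],(.b (.b (.b (.a 0) (.a 2)) (.a 3)) (.a 4)),(.a 0),(.a 0),(.a 0),[]⟩,
   ⟨2,[],(.b (.b (.a 0) (.a 4)) (.a 0)),(.b (.b (.b (.a 0) (.a 1)) (.a 2)) (.a 0)),(.a 0),(.a 3),[]⟩,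
   ⟨4,[],(.b (.b (.a 0) (.a 2)) (.b (.a 0) (.a 1))),(.a 0),(.a 0),(.a 0),[3,4]⟩,
   ⟨1,[],(.b (.b (.a 0) (.a 3)) (.b (.a 0) (.a 1))),(.a 0),(.a 0),(.a 0),[2,4]⟩,
   ⟨2,[],(.b (.b (.a 0) (.a 3)) (.b (.a 0) (.a 2))),(.a 0),(.a 0),(.a 0),[1,4]⟩,
   ⟨1,[],(.b (.b (.b (.a 0) (.a 1)) (.a 3)) (.b (.a 0) (.a 2))),(.a 0),(.a 0),(.a 0),[4]⟩,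
   ⟨2,[],(.b (.b (.a 0) (.a 4)) (.b (.a 0) (.a 1))),(.a 0),(.a 0),(.a 0),[2,3]⟩,
   ⟨4,[],(.b (.b (.b (.a 0) (.a 2)) (.a 4)) (.b (.a 0) (.a 1))),(.a 0),(.a 0),(.a 0),[3]⟩,
   ⟨4,[],(.b (.b (.a 0) (.a 4)) (.b (.a 0) (.a 2))),(.a 0),(.a 0),(.a 0),[1,3]⟩,
   ⟨2,[],(.b (.b (.b (.a 0) (.a 3)) (.a 4)) (.b (.a 0) (.a 1))),(.a 0),(.a 0),(.a 0),[2]⟩,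
   ⟨4,[],(.b (.b (.b (.a 0) (.a 3)) (.a 4)) (.b (.a 0) (.a 2))),(.a 0),(.a 0),(.a 0),[1]⟩,
   ⟨2,[],(.b (.b (.a 0) (.a 4)) (.b (.a 0) (.a 3))),(.a 0),(.a 0),(.a 0),[1,2]⟩,
   ⟨1,[],(.b (.b (.a 0) (.a 4)) (.b (.b (.a 0) (.a 1)) (.a 3))),(.a 0),(.a 0),(.a 0),[2]⟩,
   ⟨1,[],(.b (.b (.a 0) (.a 4)) (.b (.b (.a 0) (.a 2)) (.a 3))),(.a 0),(.a 0),(.a 0),[1]⟩,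
   ⟨2,[0,0],(.a 1),(.a 2),(.a 3),(.a 4),[0,0,0]⟩],
  [⟨4,[],(.a 0),(.a 0),(.a 0),(.a 0),[1,2,3,4,0]⟩,
   ⟨4,[0,0,0],(.a 1),(.a 2),(.a 3),(.a 4),[0,0]⟩,
   ⟨1,[],(.a 0),(.a 0),(.a 0),(.a 0),[1,3,4,0,2]⟩,
   ⟨3,[],(.a 0),(.a 0),(.a 0),(.a 0),[2,3,4,0,1]⟩,
   ⟨2,[0,2],(.a 0),(.a 0),(.a 0),(.a 0),[1,3,4]⟩,
   ⟨1,[],(.a 0),(.a 0),(.a 0),(.a 0),[0,1,2,3,4]⟩,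
   ⟨4,[],(.a 0),(.a 0),(.a 0),(.a 0),[2,0,1,3,4]⟩,
   ⟨4,[],(.a 0),(.a 0),(.a 0),(.a 0),[3,0,1,2,4]⟩,
   ⟨1,[],(.a 0),(.a 0),(.a 0),(.a 0),[4,0,1,2,3]⟩,
   ⟨1,[0,1,2],(.a 0),(.a 0),(.a 0),(.a 0),[3,4]⟩,
   ⟨4,[0,1,3],(.a 0),(.a 0),(.a 0),(.a 0),[2,4]⟩,
   ⟨1,[0,2,3],(.a 0),(.a 0),(.a 0),(.a 0),[1,4]⟩,
   ⟨4,[0,1,4],(.a 0),(.a 0),(.a 0),(.a 0),[2,3]⟩,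
   ⟨2,[0,2,4],(.a 0),(.a 0),(.a 0),(.a 0),[1,3]⟩,
   ⟨2,[0,3],(.a 0),(.a 0),(.a 0),(.a 0),[1,2,4]⟩,
   ⟨3,[0,1],(.a 0),(.a 0),(.a 0),(.a 0),[2,3,4]⟩,
   ⟨3,[],(.a 0),(.a 0),(.a 0),(.a 0),[1,2,4,0,3]⟩,
   ⟨4,[],(.a 0),(.a 0),(.a 0),(.a 0),[1,2,0,3,4]⟩,
   ⟨1,[],(.a 0),(.a 0),(.a 0),(.a 0),[2,4,0,1,3]⟩,
   ⟨4,[],(.a 0),(.a 0),(.a 0),(.a 0),[2,3,0,1,4]⟩],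
  [⟨4,[],(.a 0),(.a 0),(.a 0),(.a 0),[3,4,0,1,2]⟩]]

theorem rule_21010 : Rule [2, 1, 0, 1, 0] := ⟨16777216, 6, cert_21010, by decide +kernel⟩

end Pool.Agent.MP5c99ad.Cert
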