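import Mathlib
import Pool.Agent.Lib.MP_5c99ad_al.T1C
import Pool.Agent.Lib.MP_5c99ad_al.T1D1
import Pool.Agent.Lib.MP_5c99ad_al.T1D2
import Pool.Agent.Lib.MP_5c99ad_al.T1D3
import Pool.Agent.Lib.MP_5c99ad_al.T1D4

set_option autoImplicit false

/-!
The ring theorem for seven `X`'s.
-/

namespace Pool.Agent.MP5c99ad

open Cert

universe u

/-- The ring theorem: every word with seven `X`'s is killed. -/
theorem T1_seven : T1Prop.{u} 7 := by
  refine T1_of_rules rules7 (by simp [rules7]) ?_ 7 cover7
  intro r hr
  simp only [rules7, List.mem_cons, List.not_mem_nil, or_false] at hr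
  rcases hr with rfl | rfl | rfl | rfl | rfl | rfl | rfl | rfl | rfl | rfl | rfl | rfl | rfl | rfl |
    rfl | rfl | rfl | rfl
  · exact rule_3
  · exact rule_02
  · exact rule_001
  · exact rule_0000
  · exact rule_22
  · exact rule_012
  · exact rule_121
  · exact rule_112
  · exact rule_0111
  · exact rule_1011
  · exact rule_1111
  · exact rule_01010
  · exact rule_1201
  · exact rule_011010
  · exact rule_110100
  · exact rule_20110
  · exact rule_21010
  · exact rule_2111

end Pool.Agent.MP5c99ad
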