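import Mathlib
import Pool.Agent.Lib.MP_5c99ad_al.ClassH
import Pool.Agent.Lib.MP_5c99ad_al.T1E

set_option autoImplicit false

/-!
The class bound with seven factors.
-/

namespace Pool.Agent.MP5c99ad

universe u

/-- In every ring of characteristic 5 acted on by a finite group of exponent 5 with
`(ρ g - 1)^4 = 0` for all `g`, the product of seven factors `(ρ x - 1) * ρ g_i` is zero. -/
theorem class_bound_seven {G R : Type u} [Group G] [Finite G] [Ring R] (ρ : G →* R) (x : G)
    (hG : ∀ g : G, g ^ 5 = 1) (h5 : (5 : R) = 0) (hρ : ∀ g, (ρ g - 1) ^ 4 = 0)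
    (l : List G) (hl : l.length = 7) : (l.map (fun g => (ρ x - 1) * ρ g)).prod = 0 :=
  class_bound_finite ρ x T1_seven hG h5 hρ l hl

end Pool.Agent.MP5c99ad
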