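import Mathlib

/-!
# A finite ring with anticommuting square-zero elements and a parity (MP_5c99ad_al)
-/

set_option autoImplicit false

namespace Pool.Agent.ExpP

section

variable {T : Type*} [Ring T]

/-- the product `(P f_{k+d-1}) ... (P f_{k+1}) (P f_k)` -/
def TT (f : ℕ → T) (P : T) (k : ℕ) : ℕ → T
  | 0 => 1
  | d + 1 => (P * f (k + d)) * TT f P k d

lemma TT_zero (f : ℕ → T) (P : T) (k : ℕ) : TT f P k 0 = 1 := rfl

lemma TT_succ (f : ℕ → T) (P : T) (k d : ℕ) :
    TT f P k (d + 1) = (P * f (k + d)) * TT f P k d := rfl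

lemma TT_add (f : ℕ → T) (P : T) (k d e : ℕ) :
    TT f P (k + d) e * TT f P k d = TT f P k (d + e) := by
  induction e with
  | zero => rw [TT_zero, one_mul, add_zero]
  | succ e ih =>
    rw [TT_succ, mul_assoc, ih, ← add_assoc d e 1, TT_succ, add_assoc]

/-- anticommuting square-zero elements with a parity -/
structure Fermi (f : ℕ → T) (P : T) : Prop where
  PP : P * P = 1
  ff : ∀ i j, f i * f j = - (f j * f i)
  f2 : ∀ i, f i * f i = 0
  Pf : ∀ i, f i * P = - (P * f i)

lemma Fermi.comm {f : ℕ → T} {P : T} (hF : Fermi f P) (k d i : ℕ) :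
    f i * TT f P k d = TT f P k d * f i := by
  induction d with
  | zero => rw [TT_zero, one_mul, mul_one]
  | succ d ih =>
    have h1 : f i * (P * f (k + d)) = P * f (k + d) * f i := by
      rw [← mul_assoc, hF.Pf, neg_mul, mul_assoc, hF.ff i (k + d), mul_neg, neg_neg, mul_assoc]
    rw [TT_succ, mul_assoc (P * f (k + d)), ← ih, ← mul_assoc (f i), h1, mul_assoc]

lemma Fermi.anti {f : ℕ → T} {P : T} (hF : Fermi f P) (k d i : ℕ) :
    f i * (P * TT f P k d) = - ((P * TT f P k d) * f i) := by
  rw [← mul_assoc, hF.Pf, neg_mul, mul_assoc, hF.comm, mul_assoc]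

end

/-- existence -/
theorem exists_fermi (p : ℕ) [Fact p.Prime] (c : ℕ) :
    ∃ (T : Type) (_ : Ring T) (_ : Finite T) (_ : Algebra (ZMod p) T) (f : ℕ → T) (P : T),
      Fermi f P ∧ TT f P 0 c ≠ 0 := by
  induction c with
  | zero =>
    refine ⟨ZMod p, inferInstance, inferInstance, Algebra.id _, fun _ => 0, 1, ⟨?_, ?_, ?_, ?_⟩, ?_⟩
    · rw [mul_one]
    · intro i j; simp
    · intro i; simp
    · intro i; simp
    · rw [TT_zero]; exact one_ne_zero
  | succ c ih =>
    obtain ⟨T, _, _, _, f, P, hF, hT⟩ := ih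
    classical
    set f' : ℕ → Matrix (Fin 2) (Fin 2) T := fun i =>
      if i = c then !![0, P; 0, 0] else !![f i, 0; 0, f i] with hf'
    set P' : Matrix (Fin 2) (Fin 2) T := !![P, 0; 0, -P] with hP'
    have f'c : f' c = !![0, P; 0, 0] := by rw [hf']; exact if_pos rfl
    have f'i : ∀ i, i ≠ c → f' i = !![f i, 0; 0, f i] := fun i hi => by rw [hf']; exact if_neg hi
    refine ⟨Matrix (Fin 2) (Fin 2) T, inferInstance, inferInstance, inferInstance, f', P',
      ⟨?_, ?_, ?_, ?_⟩, ?_⟩
    · rw [hP', Matrix.mul_fin_two, Matrix.one_fin_two]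
      simp [hF.PP]
    · intro i j
      by_cases hi : i = c <;> by_cases hj : j = c
      · subst hi; subst hj; rw [f'c, Matrix.mul_fin_two]
        ext a b; fin_cases a <;> fin_cases b <;> simp
      · subst hi; rw [f'c, f'i j hj, Matrix.mul_fin_two, Matrix.mul_fin_two]
        ext a b; fin_cases a <;> fin_cases b <;> simp [hF.Pf]
      · subst hj; rw [f'c, f'i i hi, Matrix.mul_fin_two, Matrix.mul_fin_two]
        ext a b; fin_cases a <;> fin_cases b <;> simp [hF.Pf]
      · rw [f'i i hi, f'i j hj, Matrix.mul_fin_two, Matrix.mul_fin_two]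
        ext a b; fin_cases a <;> fin_cases b <;> simp [hF.ff i j]
    · intro i
      by_cases hi : i = c
      · subst hi; rw [f'c, Matrix.mul_fin_two]
        ext a b; fin_cases a <;> fin_cases b <;> simp
      · rw [f'i i hi, Matrix.mul_fin_two]
        ext a b; fin_cases a <;> fin_cases b <;> simp [hF.f2 i]
    · intro i
      by_cases hi : i = c
      · subst hi; rw [f'c, hP', Matrix.mul_fin_two, Matrix.mul_fin_two]
        ext a b; fin_cases a <;> fin_cases b <;> simp [hF.PP]
      · rw [f'i i hi, hP', Matrix.mul_fin_two, Matrix.mul_fin_two]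
        ext a b; fin_cases a <;> fin_cases b <;> simp [hF.Pf i]
    · have key : ∀ d, d ≤ c → TT f' P' 0 d = !![TT f P 0 d, 0; 0, (-1) ^ d * TT f P 0 d] := by
        intro d
        induction d with
        | zero =>
          intro _
          rw [TT_zero, TT_zero, pow_zero, mul_one, Matrix.one_fin_two]
        | succ d ihd =>
          intro hd
          rw [TT_succ, ihd (by omega), f'i (0 + d) (by omega), hP', TT_succ, pow_succ',
            Matrix.mul_fin_two, Matrix.mul_fin_two]
          ext a b; fin_cases a <;> fin_cases b <;> simp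
          rcases neg_one_pow_eq_or T d with h | h <;> simp [h]
      rw [TT_succ, key c le_rfl, zero_add, f'c, hP', Matrix.mul_fin_two, Matrix.mul_fin_two]
      intro h
      have h1 := congrFun (congrFun h 0) 1
      simp [hF.PP] at h1
      exact hT h1

end Pool.Agent.ExpP
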