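import Pool.Agent.Lib.MP_5c99ad_al.Grp
import Pool.Agent.Lib.MP_5c99ad_al.Fermi

/-!
# The embedding into the derived subgroup (MP_5c99ad_al)
-/

set_option autoImplicit false

namespace Pool.Agent.ExpP

open Finset

open scoped commutatorElement

section

variable {p : ℕ} {M : Type} [Fintype M] [DecidableEq M] {lev : M → ℕ} {T : Type} [Ring T]
  [Algebra (ZMod p) T] {f : ℕ → T} {P : T}

/-- the filtration by the levels -/
def NL (lev : M → ℕ) (T : Type) [Ring T] (k : ℕ) : AddSubgroup (Matrix M M T) where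
  carrier := {X | ∀ i j, X i j ≠ 0 → lev j + k ≤ lev i}
  zero_mem' := fun i j h => absurd rfl h
  add_mem' := by
    intro X Y hX hY i j h
    by_contra hcon
    have h1 : X i j = 0 := by
      by_contra hx; exact hcon (hX i j hx)
    have h2 : Y i j = 0 := by
      by_contra hy; exact hcon (hY i j hy)
    exact h (by rw [Matrix.add_apply, h1, h2, add_zero])
  neg_mem' := by
    intro X hX i j h
    refine hX i j fun h1 => h ?_
    rw [Matrix.neg_apply, h1, neg_zero]

lemma mem_NL {k : ℕ} {X : Matrix M M T} :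
    X ∈ NL lev T k ↔ ∀ i j, X i j ≠ 0 → lev j + k ≤ lev i := Iff.rfl

/-- the scalar matrices `f k` -/
def FL (M : Type) [Fintype M] [DecidableEq M] (f : ℕ → T) (k : ℕ) : Matrix M M T :=
  Matrix.diagonal fun _ => f k

lemma natCast_p_zero : (p : T) = 0 := by
  have h : (algebraMap (ZMod p) T) (p : ZMod p) = (p : T) := map_natCast _ p
  rw [← h, ZMod.natCast_self, map_zero]

lemma gd_levels (hF : Fermi f P) (hlev : ∀ m, lev m < p - 1) : GD p (NL lev T) (FL M f) where
  char := by
    ext i j
    rw [Matrix.natCast_apply, Matrix.zero_apply]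
    split_ifs
    · exact natCast_p_zero
    · exact Nat.cast_zero
  mul := by
    intro a b x y hx hy i j h
    rw [Matrix.mul_apply] at h
    obtain ⟨k, _, hk⟩ := Finset.exists_ne_zero_of_sum_ne_zero h
    have h1 := hx i k fun h0 => hk (by rw [h0, zero_mul])
    have h2 := hy k j fun h0 => hk (by rw [h0, mul_zero])
    omega
  one := by
    intro i j h
    rw [Matrix.one_apply] at h
    have hij : i = j := by
      by_contra hne
      exact h (if_neg hne)
    rw [hij, add_zero]
  anti := by
    intro a b hab X hX i j h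
    have := hX i j h
    omega
  bot := by
    rw [eq_bot_iff]
    intro X hX
    rw [AddSubgroup.mem_bot]
    ext i j
    by_contra h
    have h1 := hX i j h
    have h2 := hlev i
    omega
  F0 := by
    intro k i j h
    rw [FL, Matrix.diagonal_apply] at h
    have hij : i = j := by
      by_contra hne
      exact h (if_neg hne)
    rw [hij, add_zero]
  FF := by
    intro i j
    rw [FL, FL, Matrix.diagonal_mul_diagonal, Matrix.diagonal_mul_diagonal]
    ext a b
    rw [Matrix.neg_apply, Matrix.diagonal_apply, Matrix.diagonal_apply]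
    split_ifs
    · exact hF.ff i j
    · rw [neg_zero]
  F2 := by
    intro i
    rw [FL, Matrix.diagonal_mul_diagonal]
    rw [← Matrix.diagonal_zero]
    congr 1
    funext _
    exact hF.f2 i

lemma ev_of {X : Matrix M M T} (h : ∀ k i j, f k * X i j = X i j * f k) : Ev (FL M f) X := by
  intro k
  ext i j
  rw [FL, Matrix.diagonal_mul, Matrix.mul_diagonal]
  exact h k i j

lemma od_of {X : Matrix M M T} (h : ∀ k i j, f k * X i j = -(X i j * f k)) : Od (FL M f) X := by
  intro k
  ext i j
  rw [Matrix.neg_apply, FL, Matrix.diagonal_mul, Matrix.mul_diagonal]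
  exact h k i j

/-- unitriangular with respect to the levels -/
def UT (lev : M → ℕ) (X : Matrix M M (ZMod p)) : Prop :=
  ∀ i j, X i j ≠ (1 : Matrix M M (ZMod p)) i j → lev j < lev i

lemma UT.le {X : Matrix M M (ZMod p)} (hX : UT lev X) {i j : M} (h : X i j ≠ 0) :
    lev j ≤ lev i := by
  by_cases h1 : X i j = (1 : Matrix M M (ZMod p)) i j
  · have hij : i = j := by
      by_contra hne
      exact h (by rw [h1, Matrix.one_apply_ne hne])
    rw [hij]
  · exact (hX i j h1).le

/-- the twisted matrix -/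
def io (lev : M → ℕ) (f : ℕ → T) (P : T) (X : Matrix M M (ZMod p)) : Matrix M M T :=
  Matrix.of fun i j => X i j • TT f P (lev j) (lev i - lev j)

lemma io_apply (X : Matrix M M (ZMod p)) (i j : M) :
    io lev f P X i j = X i j • TT f P (lev j) (lev i - lev j) := rfl

lemma io_one : io lev f P (1 : Matrix M M (ZMod p)) = 1 := by
  ext i j
  rw [io_apply]
  by_cases h : i = j
  · subst h
    rw [Matrix.one_apply_eq, Matrix.one_apply_eq, Nat.sub_self, TT_zero, one_smul]
  · rw [Matrix.one_apply_ne h, Matrix.one_apply_ne h, zero_smul]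

lemma io_mul {X Y : Matrix M M (ZMod p)} (hX : UT lev X) (hY : UT lev Y) :
    io lev f P X * io lev f P Y = io lev f P (X * Y) := by
  ext i j
  rw [io_apply, Matrix.mul_apply, Matrix.mul_apply, Finset.sum_smul]
  refine Finset.sum_congr rfl fun k _ => ?_
  rw [io_apply, io_apply, smul_mul_smul_comm]
  by_cases h1 : X i k = 0
  · rw [h1, zero_mul, zero_smul, zero_smul]
  by_cases h2 : Y k j = 0
  · rw [h2, mul_zero, zero_smul, zero_smul]
  have h3 := hX.le h1
  have h4 := hY.le h2
  have e := TT_add f P (lev j) (lev k - lev j) (lev i - lev k)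
  rw [show lev j + (lev k - lev j) = lev k by omega,
    show lev k - lev j + (lev i - lev k) = lev i - lev j by omega] at e
  rw [e]

lemma io_ev (hF : Fermi f P) (X : Matrix M M (ZMod p)) : Ev (FL M f) (io lev f P X) :=
  ev_of fun k i j => by
    rw [io_apply, mul_smul_comm, smul_mul_assoc, hF.comm]

lemma io_na {X : Matrix M M (ZMod p)} (hX : UT lev X) : io lev f P X - 1 ∈ NL lev T 1 := by
  intro i j h
  refine hX i j fun h1 => h ?_
  rw [Matrix.sub_apply, io_apply, h1, ← io_apply, io_one, sub_self]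

lemma io_good (hF : Fermi f P) {X : Matrix M M (ZMod p)} (hX : UT lev X) :
    Good (NL lev T) (FL M f) (io lev f P X) 0 0 :=
  ⟨io_ev hF X, io_na hX, Od.zero, (NL lev T 1).zero_mem, (VV _).zero_mem⟩

lemma mt_zero_mul (a b : Matrix M M T) : Mt a 0 0 * Mt b 0 0 = Mt (a * b) 0 0 := by
  rw [Mt, Mt, Mt, Matrix.mul_fin_two]
  simp

lemma mt_zero_inj {a b : Matrix M M T} (h : Mt a 0 0 = Mt b 0 0) : a = b := by
  have h1 := congrFun (congrFun h 1) 1
  simpa [Mt] using h1

/-- the homomorphism -/
def emb (hF : Fermi f P) (hG : GD p (NL lev T) (FL M f)) {H : Type} [Group H]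
    (R : H →* Matrix M M (ZMod p)) (hR : ∀ h, UT lev (R h)) : H →* hG.G where
  toFun h := ⟨Mt (io lev f P (R h)) 0 0, hG.mem_G (io_good hF (hR h))⟩
  map_one' := Subtype.ext (by
    show Mt (io lev f P (R 1)) 0 0 = 1
    rw [map_one, io_one, mt_one])
  map_mul' a b := Subtype.ext (by
    show Mt (io lev f P (R (a * b))) 0 0 = Mt (io lev f P (R a)) 0 0 * Mt (io lev f P (R b)) 0 0
    rw [mt_zero_mul, io_mul (hR a) (hR b), map_mul])

/-- the product of the rows up to level `m` -/
def kap (lev : M → ℕ) (f : ℕ → T) (P : T) (X : Matrix M M (ZMod p)) (m : ℕ) : Matrix M M T :=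
  Matrix.of fun i j => if lev i ≤ m then io lev f P X i j else (1 : Matrix M M T) i j

lemma kap_apply (X : Matrix M M (ZMod p)) (m : ℕ) (i j : M) : kap lev f P X m i j =
    if lev i ≤ m then io lev f P X i j else (1 : Matrix M M T) i j := rfl

/-- the odd matrix of the rows of level `m + 1` -/
def xm (lev : M → ℕ) (f : ℕ → T) (P : T) (X : Matrix M M (ZMod p)) (m : ℕ) : Matrix M M T :=
  Matrix.of fun i j => if lev i = m + 1 ∧ lev j ≤ m then
    X i j • (P * TT f P (lev j) (m - lev j)) else 0

lemma xm_apply (X : Matrix M M (ZMod p)) (m : ℕ) (i j : M) : xm lev f P X m i j =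
    if lev i = m + 1 ∧ lev j ≤ m then X i j • (P * TT f P (lev j) (m - lev j)) else 0 := rfl

lemma xm_od (hF : Fermi f P) (X : Matrix M M (ZMod p)) (m : ℕ) : Od (FL M f) (xm lev f P X m) :=
  od_of fun k i j => by
    rw [xm_apply]
    split_ifs
    · rw [mul_smul_comm, smul_mul_assoc, hF.anti, smul_neg]
    · rw [mul_zero, zero_mul, neg_zero]

lemma xm_nb (X : Matrix M M (ZMod p)) (m : ℕ) : xm lev f P X m ∈ NL lev T 1 := by
  intro i j h
  rw [xm_apply] at h
  by_cases h1 : lev i = m + 1 ∧ lev j ≤ m
  · omega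
  · exact absurd (if_neg h1) h

lemma xm_sq (X : Matrix M M (ZMod p)) (m : ℕ) : xm lev f P X m * xm lev f P X m = 0 := by
  ext i j
  rw [Matrix.mul_apply, Matrix.zero_apply]
  refine Finset.sum_eq_zero fun k _ => ?_
  rw [xm_apply, xm_apply]
  by_cases h1 : lev i = m + 1 ∧ lev k ≤ m
  · have h2 : ¬ (lev k = m + 1 ∧ lev j ≤ m) := by omega
    rw [if_neg h2, mul_zero]
  · rw [if_neg h1, zero_mul]

lemma xm_F (hF : Fermi f P) (X : Matrix M M (ZMod p)) (m : ℕ) (i j : M) :
    (xm lev f P X m * FL M f m) i j =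
      if lev i = m + 1 ∧ lev j ≤ m then io lev f P X i j else 0 := by
  rw [FL, Matrix.mul_diagonal, xm_apply, io_apply]
  by_cases h1 : lev i = m + 1 ∧ lev j ≤ m
  · rw [if_pos h1, if_pos h1, smul_mul_assoc, mul_assoc, ← hF.comm, ← mul_assoc]
    have e : lev i - lev j = (m - lev j) + 1 := by omega
    rw [e, TT_succ, show lev j + (m - lev j) = m by omega]
  · rw [if_neg h1, if_neg h1, zero_mul]

lemma kap_zero {X : Matrix M M (ZMod p)} (hX : UT lev X) : kap lev f P X 0 = 1 := by
  ext i j
  rw [kap_apply]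
  split_ifs with h
  · have h1 : X i j = (1 : Matrix M M (ZMod p)) i j := by
      by_contra hne
      have := hX i j hne
      omega
    rw [io_apply, h1, ← io_apply, io_one]
  · rfl

lemma kap_top {X : Matrix M M (ZMod p)} {c : ℕ} (hc : ∀ m, lev m ≤ c) :
    kap lev f P X c = io lev f P X := by
  ext i j
  rw [kap_apply, if_pos (hc i)]

lemma kap_succ (hF : Fermi f P) {X : Matrix M M (ZMod p)} (hX : UT lev X) (m : ℕ) :
    kap lev f P X (m + 1) = kap lev f P X m * (1 + xm lev f P X m * FL M f m) := by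
  rw [mul_add, mul_one]
  ext i j
  rw [Matrix.add_apply, Matrix.mul_apply]
  by_cases h1 : lev i ≤ m
  · have e1 : ∑ k, kap lev f P X m i k * (xm lev f P X m * FL M f m) k j = 0 := by
      refine Finset.sum_eq_zero fun k _ => ?_
      rw [xm_F hF, kap_apply, if_pos h1, io_apply]
      by_cases h2 : lev k = m + 1 ∧ lev j ≤ m
      · have h3 : X i k = 0 := by
          by_contra hne
          have := hX.le hne
          omega
        rw [h3, zero_smul, zero_mul]
      · rw [if_neg h2, mul_zero]
    rw [e1, add_zero, kap_apply, kap_apply, if_pos h1, if_pos (by omega)]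
  · have e1 : ∑ k, kap lev f P X m i k * (xm lev f P X m * FL M f m) k j =
        (xm lev f P X m * FL M f m) i j := by
      rw [Finset.sum_eq_single i]
      · rw [kap_apply, if_neg h1, Matrix.one_apply_eq, one_mul]
      · intro k _ hk
        rw [kap_apply, if_neg h1, Matrix.one_apply_ne (Ne.symm hk), zero_mul]
      · intro h
        exact absurd (Finset.mem_univ _) h
    rw [e1, xm_F hF, kap_apply, kap_apply, if_neg h1]
    by_cases h2 : lev i = m + 1
    · rw [if_pos (by omega)]
      by_cases h3 : lev j ≤ m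
      · have hne : i ≠ j := by
          intro h4
          rw [h4] at h2
          omega
        rw [if_pos ⟨h2, h3⟩, Matrix.one_apply_ne hne, zero_add]
      · have h4 : X i j = (1 : Matrix M M (ZMod p)) i j := by
          by_contra hne
          have := hX i j hne
          omega
        rw [if_neg (fun h => h3 h.2), add_zero, io_apply, h4, ← io_apply, io_one]
    · rw [if_neg (by omega), if_neg (fun h => h2 h.1), add_zero]

/-- the commutator identity -/
lemma comm_id {x F : Matrix M M T} (h1 : F * x = -(x * F)) (h2 : x * x = 0) (h3 : F * F = 0) :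
    Mt 1 x 0 * Mt 1 0 F = Mt (1 + x * F) 0 0 * (Mt 1 0 F * Mt 1 x 0) := by
  have e1 : x * F * x = 0 := by
    rw [mul_assoc, h1, mul_neg, ← mul_assoc, h2, zero_mul, neg_zero]
  have e2 : x * F * F = 0 := by rw [mul_assoc, h3, mul_zero]
  simp only [Mt, Matrix.mul_fin_two]
  ext i j
  fin_cases i <;> fin_cases j
  · simp
  · simp [add_mul, e1]
  · simp [add_mul, e2]
  · simp [add_mul, mul_add, h1, e1, ← mul_assoc]

lemma mem_commutator_of {G : Type} [Group G] {a b d : G} (h : a * b = d * (b * a)) :
    d ∈ commutator G := by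
  have hdc : d = ⁅a, b⁆ := by
    rw [commutatorElement_def, h]
    group
  rw [hdc]
  exact Subgroup.commutator_mem_commutator (Subgroup.mem_top a) (Subgroup.mem_top b)

/-- the elements with rows up to level `m` are in the derived subgroup -/
lemma kap_mem (hF : Fermi f P) (hp : p.Prime) (hG : GD p (NL lev T) (FL M f))
    {X : Matrix M M (ZMod p)} (hX : UT lev X) (m : ℕ) :
    ∃ g : hG.G, g ∈ @commutator hG.G (hG.group hp) ∧
      (g : Matrix (Fin 2) (Fin 2) (Matrix M M T)) = Mt (kap lev f P X m) 0 0 := by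
  letI := hG.group hp
  induction m with
  | zero => exact ⟨1, Subgroup.one_mem _, by rw [kap_zero hX, mt_one]; rfl⟩
  | succ m ih =>
    obtain ⟨g, hg, hge⟩ := ih
    set x := xm lev f P X m with hx
    set F := FL M f m with hFm
    have hFV : F ∈ VV (FL M f) := AddSubgroup.subset_closure ⟨m, rfl⟩
    have od : Od (FL M f) x := xm_od hF X m
    have nb : x ∈ NL lev T 1 := xm_nb X m
    have g1 : Good (NL lev T) (FL M f) 1 x 0 :=
      ⟨Ev.one, by rw [sub_self]; exact (NL lev T 1).zero_mem, od, nb, (VV _).zero_mem⟩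
    have g2 : Good (NL lev T) (FL M f) 1 0 F :=
      ⟨Ev.one, by rw [sub_self]; exact (NL lev T 1).zero_mem, Od.zero, (NL lev T 1).zero_mem, hFV⟩
    have nxF : x * F ∈ NL lev T 1 := by
      have := hG.mul nb (hG.F0 m)
      rwa [add_zero] at this
    have g3 : Good (NL lev T) (FL M f) (1 + x * F) 0 0 := by
      refine ⟨Ev.one.add (od.mul (hG.od_VV hFV)), ?_, Od.zero, (NL lev T 1).zero_mem,
        (VV _).zero_mem⟩
      rw [add_sub_cancel_left]
      exact nxF
    set a : hG.G := ⟨_, hG.mem_G g1⟩ with ha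
    set b : hG.G := ⟨_, hG.mem_G g2⟩ with hb
    set d : hG.G := ⟨_, hG.mem_G g3⟩ with hd
    have hab : a * b = d * (b * a) :=
      Subtype.ext (comm_id (od m) (xm_sq X m) (hG.F2 m))
    refine ⟨g * d, Subgroup.mul_mem _ hg ?_, ?_⟩
    · exact mem_commutator_of hab
    · show (g : Matrix (Fin 2) (Fin 2) (Matrix M M T)) * (d : Matrix (Fin 2) (Fin 2) (Matrix M M T))
        = _
      rw [hge, kap_succ hF hX, ← mt_zero_mul]

lemma TT_ne_zero {c : ℕ} (h : TT f P 0 c ≠ 0) {k l : ℕ} (hkl : k ≤ l) (hl : l ≤ c) :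
    TT f P k (l - k) ≠ 0 := by
  intro h0
  refine h ?_
  have e1 := TT_add f P 0 l (c - l)
  have e2 := TT_add f P 0 k (l - k)
  rw [zero_add, show l + (c - l) = c by omega] at e1
  rw [zero_add, show k + (l - k) = l by omega] at e2
  rw [← e1, ← e2, h0, zero_mul, mul_zero]

end

/-- **the embedding theorem for unitriangular groups** -/
theorem embed {p : ℕ} [Fact p.Prime] {H : Type} [Group H] {c : ℕ} (hc : c < p - 1)
    {M : Type} [Fintype M] [DecidableEq M] {lev : M → ℕ} (hlev : ∀ m, lev m ≤ c)
    (R : H →* Matrix M M (ZMod p)) (hinj : Function.Injective R)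
    (hR : ∀ h i j, R h i j ≠ (1 : Matrix M M (ZMod p)) i j → lev j < lev i) :
    ∃ (G : Type) (_ : Group G), Finite G ∧ (∀ y : G, y ^ p = 1) ∧
      ∃ φ : H →* G, Function.Injective φ ∧ ∀ h, φ h ∈ commutator G := by
  have hp : p.Prime := Fact.out
  obtain ⟨T, _, _, _, f, P, hF, hT⟩ := exists_fermi p c
  have hG : GD p (NL lev T) (FL M f) := gd_levels hF fun m => lt_of_le_of_lt (hlev m) hc
  have hUT : ∀ h, UT lev (R h) := hR
  refine ⟨hG.G, hG.group hp, ?_, ?_, ?_⟩
  · have : Finite (Matrix M M T) := Pi.finite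
    have : Finite (Matrix (Fin 2) (Fin 2) (Matrix M M T)) := Pi.finite
    exact Subtype.finite
  · intro y
    exact hG.pow_G hp y
  · refine ⟨emb hF hG R hUT, ?_, ?_⟩
    · intro h h' hh
      apply hinj
      have h1 : Mt (io lev f P (R h)) 0 0 = Mt (io lev f P (R h')) 0 0 := congrArg Subtype.val hh
      have h2 := mt_zero_inj h1
      ext i j
      by_cases hij : lev j ≤ lev i
      · have h3 := congrFun (congrFun h2 i) j
        rw [io_apply, io_apply, ← sub_eq_zero, ← sub_smul] at h3
        have h4 := TT_ne_zero hT hij (hlev i)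
        exact sub_eq_zero.1 ((smul_eq_zero_iff_left h4).1 h3)
      · have e : ∀ g, R g i j = (1 : Matrix M M (ZMod p)) i j := by
          intro g
          by_contra hne
          have := hR g i j hne
          omega
        rw [e h, e h']
    · intro h
      obtain ⟨g, hg, hge⟩ := kap_mem hF hp hG (hUT h) c
      rw [kap_top hlev] at hge
      have e : emb hF hG R hUT h = g := Subtype.ext hge.symm
      rw [e]
      exact hg

end Pool.Agent.ExpP
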