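import Mathlib

set_option autoImplicit false

/-!
If a normal subgroup `N` of a group `G` of exponent 5 contains all commutators of an element with
a conjugate of it, then it contains `γ₃(G)` (2-Engel groups without 3-torsion have class 2).
-/

namespace Pool.Agent.MP5c99ad

section ring
variable {G R : Type*} [Group G] [Ring R] {ρ : G →* R}

theorem engel_yzy (h : ∀ g, (ρ g - 1) * (ρ g - 1) = 0) (y z : G) :
    (ρ y - 1) * (ρ z - 1) * (ρ y - 1) = 0 := by
  have hyz := h (y * z)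
  rw [map_mul] at hyz
  have hy := h y
  have hz := h z
  set Y := ρ y - 1 with hY
  set Z := ρ z - 1 with hZ
  have ey : ρ y = 1 + Y := by rw [hY]; abel
  have ez : ρ z = 1 + Z := by rw [hZ]; abel
  rw [ey, ez] at hyz
  have e1 : ((1 + Y) * (1 + Z) - 1) * ((1 + Y) * (1 + Z) - 1) =
      Y * Y + Z * Z + Y * Y * Z + Y * Z * Z + Y * Z + Z * Y + Y * Z * Y + Z * Y * Z + Y * Z * Y * Z := by
    noncomm_ring
  rw [e1, hy, hz, mul_assoc Y Z Z, hz] at hyz
  simp only [zero_mul, mul_zero, zero_add, add_zero] at hyz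
  have h2 := congrArg (fun t => Y * t) hyz
  simp only [mul_zero] at h2
  have e2 : Y * (Y * Z + Z * Y + Y * Z * Y + Z * Y * Z + Y * Z * Y * Z) =
      Y * Y * (Z + Z * Y + Z * Y * Z) + Y * Z * Y * (1 + Z) := by
    noncomm_ring
  rw [e2, hy, zero_mul, zero_add] at h2
  have h3 := congrArg (fun t => t * (1 - Z)) h2
  simp only [zero_mul] at h3
  have e3 : Y * Z * Y * (1 + Z) * (1 - Z) = Y * Z * Y - Y * Z * Y * (Z * Z) := by noncomm_ring
  rw [e3, hz, mul_zero, sub_zero] at h3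
  exact h3

theorem engel_anti (h : ∀ g, (ρ g - 1) * (ρ g - 1) = 0) (y z : G) :
    (ρ y - 1) * (ρ z - 1) + (ρ z - 1) * (ρ y - 1) = 0 := by
  have hyz := h (y * z)
  rw [map_mul] at hyz
  have hy := h y
  have hz := h z
  have h1 := engel_yzy h y z
  have h2 := engel_yzy h z y
  set Y := ρ y - 1 with hY
  set Z := ρ z - 1 with hZ
  have ey : ρ y = 1 + Y := by rw [hY]; abel
  have ez : ρ z = 1 + Z := by rw [hZ]; abel
  rw [ey, ez] at hyz
  have e1 : ((1 + Y) * (1 + Z) - 1) * ((1 + Y) * (1 + Z) - 1) =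
      Y * Y + Z * Z + Y * Y * Z + Y * (Z * Z) + (Y * Z + Z * Y) + Y * Z * Y + Z * Y * Z + Y * Z * Y * Z := by
    noncomm_ring
  rw [e1, hy, hz, h1, h2] at hyz
  simpa using hyz

theorem engel_comm (h : ∀ g, (ρ g - 1) * (ρ g - 1) = 0) (y z : G) :
    ρ (y * z * y⁻¹ * z⁻¹) - 1 = 2 * ((ρ y - 1) * (ρ z - 1)) := by
  have hy := h y
  have hz := h z
  have h1 := engel_yzy h y z
  have h2 := engel_yzy h z y
  have h3 := engel_anti h y z
  have iy : ρ y⁻¹ = 1 - (ρ y - 1) := by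
    have e1 : ρ y * ρ y⁻¹ = 1 := by rw [← map_mul]; simp
    have e2 : (1 - (ρ y - 1)) * ρ y = 1 := by
      have : (1 - (ρ y - 1)) * ρ y = 1 - (ρ y - 1) * (ρ y - 1) := by noncomm_ring
      rw [this, hy, sub_zero]
    calc ρ y⁻¹ = ((1 - (ρ y - 1)) * ρ y) * ρ y⁻¹ := by rw [e2, one_mul]
      _ = _ := by rw [mul_assoc, e1, mul_one]
  have iz : ρ z⁻¹ = 1 - (ρ z - 1) := by
    have e1 : ρ z * ρ z⁻¹ = 1 := by rw [← map_mul]; simp
    have e2 : (1 - (ρ z - 1)) * ρ z = 1 := by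
      have : (1 - (ρ z - 1)) * ρ z = 1 - (ρ z - 1) * (ρ z - 1) := by noncomm_ring
      rw [this, hz, sub_zero]
    calc ρ z⁻¹ = ((1 - (ρ z - 1)) * ρ z) * ρ z⁻¹ := by rw [e2, one_mul]
      _ = _ := by rw [mul_assoc, e1, mul_one]
  rw [map_mul, map_mul, map_mul, iy, iz]
  set Y := ρ y - 1 with hY
  set Z := ρ z - 1 with hZ
  have ey : ρ y = 1 + Y := by rw [hY]; abel
  have ez : ρ z = 1 + Z := by rw [hZ]; abel
  rw [ey, ez]
  have h4 : Z * Y = - (Y * Z) := by
    rw [eq_neg_iff_add_eq_zero, add_comm]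
    exact h3
  have e : (1 + Y) * (1 + Z) * (1 - Y) * (1 - Z) - 1 =
      Y * Z - Z * Y - Y * Y - Z * Z - Y * Z * Y + (Y * Y + Z * Y) * Z - Y * (Z * Z) + Y * Z * Y * Z := by
    noncomm_ring
  rw [e, h4, hy, hz, h1]
  have e' : (0 + - (Y * Z)) * Z = - (Y * (Z * Z)) := by noncomm_ring
  rw [e', hz]
  noncomm_ring

end ring

section group
universe u
variable {G : Type u} [Group G]

theorem engel_module (hE : ∀ y g : G, y * (g * y * g⁻¹) = (g * y * g⁻¹) * y) (x : G) :
    ∃ (M : Type u) (_ : AddCommGroup M) (ρ : G →* AddMonoid.End M) (i : M → G),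
      (∀ a b, i (a + b) = i a * i b) ∧ (∀ g a, i (ρ g a) = g * i a * g⁻¹) ∧ (∃ a, i a = x) ∧
      (Function.Injective i) := by
  let S : Set G := Set.range (fun g => g * x * g⁻¹)
  have hcomm : ∀ a ∈ S, ∀ b ∈ S, a * b = b * a := by
    rintro _ ⟨g, rfl⟩ _ ⟨h, rfl⟩
    have := hE (g * x * g⁻¹) (h * g⁻¹)
    have e : h * g⁻¹ * (g * x * g⁻¹) * (h * g⁻¹)⁻¹ = h * x * h⁻¹ := by group
    rw [e] at this
    exact this
  have hcS := Subgroup.isMulCommutative_closure hcomm
  let _ : CommGroup (Subgroup.closure S) :=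
    { (inferInstance : Group (Subgroup.closure S)) with mul_comm := hcS.is_comm.comm }
  have hconj : ∀ (g : G), ∀ a ∈ Subgroup.closure S, g * a * g⁻¹ ∈ Subgroup.closure S := by
    intro g a ha
    induction ha using Subgroup.closure_induction with
    | mem a ha =>
      obtain ⟨h, rfl⟩ := ha
      exact Subgroup.subset_closure ⟨g * h, by simp only; group⟩
    | one => simp
    | mul a b _ _ ha hb =>
      have : g * (a * b) * g⁻¹ = (g * a * g⁻¹) * (g * b * g⁻¹) := by group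
      rw [this]
      exact mul_mem ha hb
    | inv a _ ha =>
      have : g * a⁻¹ * g⁻¹ = (g * a * g⁻¹)⁻¹ := by group
      rw [this]
      exact inv_mem ha
  refine ⟨Additive (Subgroup.closure S), inferInstance,
    { toFun := fun g =>
        { toFun := fun a => Additive.ofMul ⟨g * ((Additive.toMul a : Subgroup.closure S) : G) * g⁻¹,
            hconj g _ (Additive.toMul a).2⟩
          map_zero' := by
            apply Additive.toMul.injective
            apply Subtype.ext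
            show g * ((1 : Subgroup.closure S) : G) * g⁻¹ = ((1 : Subgroup.closure S) : G)
            simp
          map_add' := by
            intro a b
            apply Additive.toMul.injective
            apply Subtype.ext
            show g * (((Additive.toMul a : Subgroup.closure S) : G) * ((Additive.toMul b : Subgroup.closure S) : G)) * g⁻¹ =
              (g * ((Additive.toMul a : Subgroup.closure S) : G) * g⁻¹) *
              (g * ((Additive.toMul b : Subgroup.closure S) : G) * g⁻¹)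
            group }
      map_one' := by
        ext a
        show (1 : G) * _ * (1 : G)⁻¹ = _
        simp
      map_mul' := by
        intro g h
        ext a
        show g * h * _ * (g * h)⁻¹ = g * (h * _ * h⁻¹) * g⁻¹
        group },
    fun a => ((Additive.toMul a : Subgroup.closure S) : G), ?_, ?_, ?_, ?_⟩
  · intro a b
    rfl
  · intro g a
    rfl
  · exact ⟨Additive.ofMul ⟨x, Subgroup.subset_closure ⟨1, by simp⟩⟩, rfl⟩
  · intro a b h
    exact Additive.toMul.injective (Subtype.ext h)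

/-- `⁅y, ⁅z, x⁆⁆` -/
def cc (y z x : G) : G := y * (z * x * z⁻¹ * x⁻¹) * y⁻¹ * (z * x * z⁻¹ * x⁻¹)⁻¹

theorem engel_facts (hE : ∀ y g : G, y * (g * y * g⁻¹) = (g * y * g⁻¹) * y) (x y z : G) :
    cc y z x * cc z y x = 1 ∧ cc y x z = (cc y z x)⁻¹ ∧
    (y * z * y⁻¹ * z⁻¹) * x * (y * z * y⁻¹ * z⁻¹)⁻¹ * x⁻¹ = cc y z x * cc y z x := by
  obtain ⟨M, _, ρ, i, hadd, hact, ⟨a, ha⟩, hinj⟩ := engel_module hE x
  have h0 : i 0 = 1 := by
    have := hadd 0 0
    rw [add_zero] at this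
    exact (left_eq_mul.mp this)
  have hneg : ∀ b, i (-b) = (i b)⁻¹ := by
    intro b
    have := hadd (-b) b
    rw [neg_add_cancel, h0] at this
    exact eq_inv_of_mul_eq_one_left this.symm
  have hsub : ∀ b c, i (b - c) = i b * (i c)⁻¹ := by
    intro b c
    rw [sub_eq_add_neg, hadd, hneg]
  have hD : ∀ (g : G) (b : M), i ((ρ g - 1 : AddMonoid.End M) b) = g * i b * g⁻¹ * (i b)⁻¹ := by
    intro g b
    show i (ρ g b - b) = _
    rw [hsub, hact]
  have h2 : ∀ g, (ρ g - 1) * (ρ g - 1) = 0 := by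
    intro g
    ext b
    apply hinj
    show i ((ρ g - 1 : AddMonoid.End M) ((ρ g - 1 : AddMonoid.End M) b)) = i 0
    rw [hD, hD, h0]
    have := hE g (i b)
    have e1 : g * (g * i b * g⁻¹ * (i b)⁻¹) * g⁻¹ * (g * i b * g⁻¹ * (i b)⁻¹)⁻¹ =
        g * (g * (i b * g⁻¹ * (i b)⁻¹)) * g⁻¹ * (g * (i b * g⁻¹ * (i b)⁻¹))⁻¹ := by group
    have e2 : i b * g⁻¹ * (i b)⁻¹ = (i b * g * (i b)⁻¹)⁻¹ := by group
    rw [e1, e2]
    have hc : Commute g (i b * g * (i b)⁻¹) := this
    have hc' : Commute g (g * (i b * g * (i b)⁻¹)⁻¹) := (Commute.refl g).mul_right hc.inv_right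
    rw [hc'.eq]
    group
  have hcc : ∀ g h : G, i (((ρ g - 1) * (ρ h - 1) : AddMonoid.End M) a) = cc g h x := by
    intro g h
    show i ((ρ g - 1 : AddMonoid.End M) ((ρ h - 1 : AddMonoid.End M) a)) = _
    rw [hD, hD, ha]
    rfl
  refine ⟨?_, ?_, ?_⟩
  · rw [← hcc, ← hcc, ← hadd]
    have := engel_anti h2 y z
    have e : ((ρ y - 1) * (ρ z - 1) : AddMonoid.End M) a + ((ρ z - 1) * (ρ y - 1) : AddMonoid.End M) a =
        (((ρ y - 1) * (ρ z - 1) + (ρ z - 1) * (ρ y - 1) : AddMonoid.End M)) a := rfl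
    rw [e, this]
    exact h0
  · rw [← hcc, ← hneg]
    have e : -(((ρ y - 1) * (ρ z - 1) : AddMonoid.End M) a) =
        (ρ y - 1 : AddMonoid.End M) (- ((ρ z - 1 : AddMonoid.End M) a)) := by
      rw [map_neg]
      rfl
    rw [e, hD, hneg, hD, ha]
    have e' : (z * x * z⁻¹ * x⁻¹)⁻¹ = x * z * x⁻¹ * z⁻¹ := by group
    rw [e']
    rfl
  · have := engel_comm h2 y z
    rw [← hcc, ← hadd]
    have e : ((ρ y - 1) * (ρ z - 1) : AddMonoid.End M) a + ((ρ y - 1) * (ρ z - 1) : AddMonoid.End M) a =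
        (2 * ((ρ y - 1) * (ρ z - 1)) : AddMonoid.End M) a := by
      rw [two_mul]
      rfl
    rw [e, ← this, hD, ha]

theorem cc_eq_one (hE : ∀ y g : G, y * (g * y * g⁻¹) = (g * y * g⁻¹) * y)
    (h5 : ∀ g : G, g ^ 5 = 1) (x y z : G) : cc y z x = 1 := by
  obtain ⟨-, h2, h3⟩ := engel_facts hE x y z
  obtain ⟨h1, -, -⟩ := engel_facts hE z x y
  -- h1 : cc x y z * cc y x z = 1
  have e1 : cc x y z = cc y z x := by
    rw [h2] at h1
    exact mul_inv_eq_one.mp h1
  have e2 : (y * z * y⁻¹ * z⁻¹) * x * (y * z * y⁻¹ * z⁻¹)⁻¹ * x⁻¹ = (cc x y z)⁻¹ := by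
    unfold cc
    group
  rw [e2, e1] at h3
  have h6 : cc y z x ^ 3 = 1 := by
    have : cc y z x ^ 3 = (cc y z x * cc y z x) * cc y z x := by
      simp only [pow_succ, pow_zero, one_mul]
    rw [this, ← h3, inv_mul_cancel]
  have h7 := h5 (cc y z x)
  have : cc y z x = (cc y z x ^ 3) ^ 2 * (cc y z x ^ 5)⁻¹ := by group
  rw [this, h6, h7]
  simp

/-- **γ₃(G) ≤ N** for every normal `N` containing the commutators of conjugate elements -/
theorem engel_le (h5 : ∀ g : G, g ^ 5 = 1) (N : Subgroup G) [hN : N.Normal]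
    (h : ∀ y g : G, y * (g * y * g⁻¹) * y⁻¹ * (g * y * g⁻¹)⁻¹ ∈ N) (x y z : G) :
    y * (z * x * z⁻¹ * x⁻¹) * y⁻¹ * (z * x * z⁻¹ * x⁻¹)⁻¹ ∈ N := by
  have hE : ∀ y g : G ⧸ N, y * (g * y * g⁻¹) = (g * y * g⁻¹) * y := by
    intro y g
    obtain ⟨y, rfl⟩ := QuotientGroup.mk'_surjective N y
    obtain ⟨g, rfl⟩ := QuotientGroup.mk'_surjective N g
    have := h y g
    rw [← QuotientGroup.eq_one_iff] at this
    have h' : (QuotientGroup.mk' N y) * ((QuotientGroup.mk' N g) * (QuotientGroup.mk' N y) *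
        (QuotientGroup.mk' N g)⁻¹) * (QuotientGroup.mk' N y)⁻¹ *
        ((QuotientGroup.mk' N g) * (QuotientGroup.mk' N y) * (QuotientGroup.mk' N g)⁻¹)⁻¹ = 1 := this
    rw [mul_inv_eq_one, mul_inv_eq_iff_eq_mul] at h'
    exact h'
  have h5' : ∀ g : G ⧸ N, g ^ 5 = 1 := by
    intro g
    obtain ⟨g, rfl⟩ := QuotientGroup.mk'_surjective N g
    rw [← map_pow, h5, map_one]
  have := cc_eq_one hE h5' (QuotientGroup.mk' N x) (QuotientGroup.mk' N y) (QuotientGroup.mk' N z)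
  unfold cc at this
  rw [← QuotientGroup.eq_one_iff]
  exact this

open scoped commutatorElement in
/-- `γ₃(G) = ⁅⁅G, G⁆, G⁆ ≤ N` -/
theorem engel_gamma3 (h5 : ∀ g : G, g ^ 5 = 1) (N : Subgroup G) [hN : N.Normal]
    (h : ∀ y g : G, y * (g * y * g⁻¹) * y⁻¹ * (g * y * g⁻¹)⁻¹ ∈ N) :
    ⁅⁅(⊤ : Subgroup G), (⊤ : Subgroup G)⁆, (⊤ : Subgroup G)⁆ ≤ N := by
  have h1 : ⁅(⊤ : Subgroup G), (⊤ : Subgroup G)⁆ ≤
      (Subgroup.center (G ⧸ N)).comap (QuotientGroup.mk' N) := by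
    rw [Subgroup.commutator_le]
    intro z _ x _
    rw [Subgroup.mem_comap, Subgroup.mem_center_iff]
    intro y
    obtain ⟨y, rfl⟩ := QuotientGroup.mk'_surjective N y
    have := engel_le h5 N h x y z
    rw [← QuotientGroup.eq_one_iff] at this
    have h' : (QuotientGroup.mk' N y) * (QuotientGroup.mk' N ⁅z, x⁆) *
        (QuotientGroup.mk' N y)⁻¹ * (QuotientGroup.mk' N ⁅z, x⁆)⁻¹ = 1 := this
    rw [mul_inv_eq_one, mul_inv_eq_iff_eq_mul] at h'
    exact h'
  have h2 : ⁅(Subgroup.center (G ⧸ N)).comap (QuotientGroup.mk' N), (⊤ : Subgroup G)⁆ ≤ N := by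
    rw [Subgroup.commutator_le]
    intro u hu y _
    rw [Subgroup.mem_comap, Subgroup.mem_center_iff] at hu
    rw [← QuotientGroup.eq_one_iff]
    show QuotientGroup.mk' N ⁅u, y⁆ = 1
    rw [map_commutatorElement, commutatorElement_eq_one_iff_mul_comm]
    exact (hu _).symm
  exact le_trans (Subgroup.commutator_mono h1 le_rfl) h2

theorem engel_derived (h5 : ∀ g : G, g ^ 5 = 1) (N : Subgroup G) [hN : N.Normal]
    (h : ∀ y g : G, y * (g * y * g⁻¹) * y⁻¹ * (g * y * g⁻¹)⁻¹ ∈ N) :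
    derivedSeries G 2 ≤ N := by
  refine le_trans ?_ (engel_gamma3 h5 N h)
  rw [derivedSeries_succ, derivedSeries_one, commutator_def]
  exact Subgroup.commutator_mono le_rfl le_top

end group

end Pool.Agent.MP5c99ad
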