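import Mathlib

set_option autoImplicit false

/-!
If every finite group of exponent `p` embeds in the derived subgroup of a finite group of
exponent `p`, then it embeds in every term of the derived series of such a group.
-/

namespace Pool.Agent.MP5c99ad

theorem map_derivedSeries_le' {G H : Type*} [Group G] [Group H] (f : G →* H)
    (hf : ∀ g, f g ∈ commutator H) (n : ℕ) :
    (derivedSeries G n).map f ≤ derivedSeries H (n + 1) := by
  induction n with
  | zero =>
    rw [Subgroup.map_le_iff_le_comap]
    intro g _
    rw [Subgroup.mem_comap, derivedSeries_one]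
    exact hf g
  | succ n ih =>
    rw [derivedSeries_succ, Subgroup.map_commutator, derivedSeries_succ H (n + 1)]
    exact Subgroup.commutator_mono ih ih

theorem embed_iterate (p : ℕ)
    (h : ∀ (G : Type) (_ : Group G), Finite G → (∀ x : G, x ^ p = 1) →
        ∃ (H : Type) (_ : Group H), Finite H ∧ (∀ y : H, y ^ p = 1) ∧
          ∃ f : G →* H, Function.Injective f ∧ ∀ g : G, f g ∈ commutator H)
    (n : ℕ) (G : Type) [Group G] [Finite G] (hG : ∀ x : G, x ^ p = 1) :
    ∃ (H : Type) (_ : Group H), Finite H ∧ (∀ y : H, y ^ p = 1) ∧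
      ∃ f : G →* H, Function.Injective f ∧ ∀ g : G, f g ∈ derivedSeries H n := by
  induction n with
  | zero => exact ⟨G, inferInstance, inferInstance, hG, MonoidHom.id G, Function.injective_id, fun g => by simp⟩
  | succ n ih =>
    obtain ⟨H, _, hfin, hH, f, hf, hfm⟩ := ih
    obtain ⟨K, _, hfinK, hK, g, hg, hgm⟩ := h H inferInstance hfin hH
    refine ⟨K, inferInstance, hfinK, hK, g.comp f, hg.comp hf, ?_⟩
    intro x
    apply map_derivedSeries_le' g hgm n
    exact Subgroup.mem_map_of_mem g (hfm x)

end Pool.Agent.MP5c99ad
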