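import Mathlib
import Pool.Agent.Lib.MP_5c99ad_al.LawD

set_option autoImplicit false

/-!
The block law on the group level: vanishing on commutators of the subgroup generated by the nice
elements, and passage from Lie polynomials in logarithms to group commutators.
-/

namespace Pool.Agent.MP5c99ad

open scoped commutatorElement

section Z

variable {G R : Type} [Group G] [Ring R] (ρ : G →* R)

/-- span of the products of at least `k` logarithms of nice elements -/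
def Zn (k : ℕ) : AddSubgroup R :=
  AddSubgroup.closure {r | ∃ l : List G, k ≤ l.length ∧ (∀ g ∈ l, IsNice ρ g) ∧
    r = (l.map (fun g => lg (ρ g))).prod}

theorem Zn_mul {i j : ℕ} {x y : R} (hx : x ∈ Zn ρ i) (hy : y ∈ Zn ρ j) : x * y ∈ Zn ρ (i + j) := by
  refine closure_mul_mem hx hy ?_
  rintro _ ⟨l, h1, h2, rfl⟩ _ ⟨l', h1', h2', rfl⟩
  refine AddSubgroup.subset_closure ⟨l ++ l', ?_, ?_, by simp⟩
  · rw [List.length_append]; omega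
  · intro g hg
    rcases List.mem_append.1 hg with h | h
    · exact h2 g h
    · exact h2' g h

theorem Zn_anti {i j : ℕ} (h : i ≤ j) : Zn ρ j ≤ Zn ρ i := by
  refine AddSubgroup.closure_mono ?_
  rintro _ ⟨l, h1, h2, rfl⟩
  exact ⟨l, h.trans h1, h2, rfl⟩

theorem Zn_mul' {i j k : ℕ} {x y : R} (hx : x ∈ Zn ρ i) (hy : y ∈ Zn ρ j) (h : k ≤ i + j) :
    x * y ∈ Zn ρ k := Zn_anti ρ h (Zn_mul ρ hx hy)

theorem Zn_lg {n : G} (hn : IsNice ρ n) : lg (ρ n) ∈ Zn ρ 1 :=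
  AddSubgroup.subset_closure ⟨[n], le_rfl, by simpa using hn, by simp⟩

theorem nice_diff (h5 : (5 : R) = 0) (hρ : ∀ g, (ρ g - 1) ^ 4 = 0) {n : G} (hn : IsNice ρ n) :
    ρ n - 1 ∈ Zn ρ 1 := by
  have hB := Zn_lg ρ hn
  have e := exp_lg h5 (hρ n)
  set B := lg (ρ n) with hBd
  have h2 : B ^ 2 ∈ Zn ρ 1 := by rw [pow_two]; exact Zn_mul' ρ hB hB (by omega)
  have h3 : B ^ 3 ∈ Zn ρ 1 := by rw [pow_succ]; exact Zn_mul' ρ h2 hB (by omega)
  have e2 : ρ n - 1 = B + 3 • B ^ 2 + B ^ 3 := by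
    rw [e, nsmul_eq_mul]
    push_cast
    abel
  rw [e2]
  exact AddSubgroup.add_mem _ (AddSubgroup.add_mem _ hB (AddSubgroup.nsmul_mem _ h2 _)) h3

/-- the elements congruent to 1 modulo `Zn k` form a subgroup -/
def Cong (h5 : (5 : R) = 0) (hρ : ∀ g, (ρ g - 1) ^ 4 = 0) (k : ℕ) : Subgroup G where
  carrier := {g | ρ g - 1 ∈ Zn ρ k}
  one_mem' := by
    show ρ 1 - 1 ∈ Zn ρ k
    rw [map_one, sub_self]
    exact AddSubgroup.zero_mem _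
  mul_mem' := by
    intro a b ha hb
    show ρ (a * b) - 1 ∈ Zn ρ k
    have e : ρ (a * b) - 1 = (ρ a - 1) + (ρ b - 1) + (ρ a - 1) * (ρ b - 1) := by
      rw [map_mul]; noncomm_ring
    rw [e]
    exact AddSubgroup.add_mem _ (AddSubgroup.add_mem _ ha hb) (Zn_mul' ρ ha hb (by omega))
  inv_mem' := by
    intro a ha
    show ρ a⁻¹ - 1 ∈ Zn ρ k
    have ha' : ρ a - 1 ∈ Zn ρ k := ha
    have h1 : ρ a⁻¹ = ρ a ^ 4 := by
      have e1 : ρ a * ρ a⁻¹ = 1 := by rw [← map_mul]; simp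
      have e2 : ρ a ^ 4 * ρ a = 1 := by
        rw [← pow_succ]
        exact pow_five_eq_one h5 (hρ a)
      calc ρ a⁻¹ = (ρ a ^ 4 * ρ a) * ρ a⁻¹ := by rw [e2, one_mul]
        _ = ρ a ^ 4 := by rw [mul_assoc, e1, mul_one]
    set F := ρ a - 1 with hF
    have e : ρ a⁻¹ - 1 = 4 • F + 6 • (F * F) + 4 • (F * F * F) + F * F * F * F := by
      have : ρ a = 1 + F := by rw [hF]; abel
      rw [h1, this]
      noncomm_ring
    rw [e]
    have m2 : F * F ∈ Zn ρ k := Zn_mul' ρ ha' ha' (by omega)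
    have m3 : F * F * F ∈ Zn ρ k := Zn_mul' ρ m2 ha' (by omega)
    have m4 : F * F * F * F ∈ Zn ρ k := Zn_mul' ρ m3 ha' (by omega)
    exact AddSubgroup.add_mem _ (AddSubgroup.add_mem _ (AddSubgroup.add_mem _ (AddSubgroup.nsmul_mem _ ha' _)
      (AddSubgroup.nsmul_mem _ m2 _)) (AddSubgroup.nsmul_mem _ m3 _)) m4

theorem mem_Cong {h5 : (5 : R) = 0} {hρ : ∀ g, (ρ g - 1) ^ 4 = 0} {k : ℕ} {g : G} :
    g ∈ Cong ρ h5 hρ k ↔ ρ g - 1 ∈ Zn ρ k := Iff.rfl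

/-- the subgroup generated by the nice elements -/
def NK : Subgroup G := Subgroup.closure {n | IsNice ρ n}

theorem NK_le (h5 : (5 : R) = 0) (hρ : ∀ g, (ρ g - 1) ^ 4 = 0) : NK ρ ≤ Cong ρ h5 hρ 1 := by
  refine (Subgroup.closure_le _).2 ?_
  intro n hn
  exact nice_diff ρ h5 hρ hn

theorem comm_est_ring {A B C : R} (hA : A ∈ Zn ρ 1) (hB : B ∈ Zn ρ 1) (hC : C ∈ Zn ρ 1) :
    (A * B - B * A) + (A * B - B * A) * C ∈ Zn ρ 2 := by
  have hc : A * B - B * A ∈ Zn ρ 2 := AddSubgroup.sub_mem _ (Zn_mul' ρ hA hB (by omega)) (Zn_mul' ρ hB hA (by omega))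
  exact AddSubgroup.add_mem _ hc (Zn_mul' ρ hc hC (by omega))

theorem comm_id3 (a b : G) : ρ (a * b * a⁻¹ * b⁻¹) - 1 =
    ((ρ a - 1) * (ρ b - 1) - (ρ b - 1) * (ρ a - 1)) +
      ((ρ a - 1) * (ρ b - 1) - (ρ b - 1) * (ρ a - 1)) * (ρ ((b * a)⁻¹) - 1) := by
  have e1 : ρ (a * b * a⁻¹ * b⁻¹) = ρ (a * b) * ρ ((b * a)⁻¹) := by
    rw [← map_mul]
    congr 1
    rw [mul_inv_rev]
    simp only [mul_assoc]
  have e2 : ρ (b * a) * ρ ((b * a)⁻¹) = 1 := by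
    rw [← map_mul, mul_inv_cancel, map_one]
  have e3 : ((ρ a - 1) * (ρ b - 1) - (ρ b - 1) * (ρ a - 1)) = ρ (a * b) - ρ (b * a) := by
    rw [map_mul, map_mul]; noncomm_ring
  rw [e3, e1]
  have : (ρ (a * b) - ρ (b * a)) * (ρ ((b * a)⁻¹) - 1) =
      ρ (a * b) * ρ ((b * a)⁻¹) - ρ (b * a) * ρ ((b * a)⁻¹) - ρ (a * b) + ρ (b * a) := by
    noncomm_ring
  rw [this, e2]
  abel

theorem comm_NK_mem (h5 : (5 : R) = 0) (hρ : ∀ g, (ρ g - 1) ^ 4 = 0) {a b : G} (ha : a ∈ NK ρ)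
    (hb : b ∈ NK ρ) : a * b * a⁻¹ * b⁻¹ ∈ Cong ρ h5 hρ 2 := by
  have ha1 : ρ a - 1 ∈ Zn ρ 1 := (mem_Cong ρ).1 (NK_le ρ h5 hρ ha)
  have hb1 : ρ b - 1 ∈ Zn ρ 1 := (mem_Cong ρ).1 (NK_le ρ h5 hρ hb)
  have hi : ρ ((b * a)⁻¹) - 1 ∈ Zn ρ 1 :=
    (mem_Cong ρ).1 (NK_le ρ h5 hρ ((NK ρ).inv_mem ((NK ρ).mul_mem hb ha)))
  rw [mem_Cong, comm_id3]
  exact comm_est_ring ρ ha1 hb1 hi

theorem comm_NK_le (h5 : (5 : R) = 0) (hρ : ∀ g, (ρ g - 1) ^ 4 = 0) :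
    ⁅NK ρ, NK ρ⁆ ≤ Cong ρ h5 hρ 2 :=
  Subgroup.commutator_le.2 fun _ ha _ hb => comm_NK_mem ρ h5 hρ ha hb

/-- the law kills `Zn 2` -/
theorem law_Zn [Finite G] (hB : BCert2) (hVW : LawVW) (hXY : LawXY) (hBX : LawBX)
    (hG : ∀ g : G, g ^ 5 = 1) (h5 : (5 : R) = 0)
    (hρ : ∀ g, (ρ g - 1) ^ 4 = 0) {p a r q : G} (hpr : p * r = r * p) (hpq : p * q = q * p)
    (har : a * r = r * a) (haq : a * q = q * a) {T : R} (hT : T ∈ Zn ρ 2) :
    brk (brk (lg (ρ p)) (lg (ρ a))) (lg (ρ a)) * T * brk (brk (lg (ρ r)) (lg (ρ q))) (lg (ρ q)) = 0 := by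
  induction hT using AddSubgroup.closure_induction with
  | mem s hs =>
    obtain ⟨l, h1, h2, rfl⟩ := hs
    exact block_law ρ hB hVW hXY hBX hG h5 hρ hpr hpq har haq l h1 h2
  | zero => simp
  | add a b _ _ ha hb => rw [mul_add, add_mul, ha, hb, add_zero]
  | neg a _ ha => rw [mul_neg, neg_mul, ha, neg_zero]

/-- **vanishing on commutators** -/
theorem law_commutator [Finite G] (hB : BCert2) (hVW : LawVW) (hXY : LawXY) (hBX : LawBX)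
    (hG : ∀ g : G, g ^ 5 = 1) (h5 : (5 : R) = 0)
    (hρ : ∀ g, (ρ g - 1) ^ 4 = 0) {p a r q : G} (hpr : p * r = r * p) (hpq : p * q = q * p)
    (har : a * r = r * a) (haq : a * q = q * a) {x : G} (hx : x ∈ ⁅NK ρ, NK ρ⁆) :
    brk (brk (lg (ρ p)) (lg (ρ a))) (lg (ρ a)) * (ρ x - 1) * brk (brk (lg (ρ r)) (lg (ρ q))) (lg (ρ q)) = 0 :=
  law_Zn ρ hB hVW hXY hBX hG h5 hρ hpr hpq har haq (comm_NK_le ρ h5 hρ hx)

end Z

section Grp

variable {Λ : Type} [Fintype Λ] [DecidableEq Λ] {G R : Type} [Group G] [Ring R] (ρ : G →* R) (h : Λ → G)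

/-- extraction of a power word -/
theorem Ext_pow (h5 : (5 : R) = 0) (hρ : ∀ g, (ρ g - 1) ^ 4 = 0) (m : Λ → ℕ) (hm : ∃ l, Odd (m l)) (v : G) :
    Ext m (fun t : Λ → ℕ => ρ (v ^ (∏ l, t l ^ m l)) - 1) = lg (ρ v) := by
  have e : (fun t : Λ → ℕ => ρ (v ^ (∏ l, t l ^ m l)) - 1) = mono m (lg (ρ v)) +
      (mono (2 • m) (3 • lg (ρ v) ^ 2) + mono (3 • m) (lg (ρ v) ^ 3)) := by
    funext t
    rw [map_pow, one_add_pow_eq h5 (hρ v)]
    have h2 : ∏ l, t l ^ (2 • m) l = (∏ l, t l ^ m l) ^ 2 := by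
      rw [← Finset.prod_pow]
      refine Finset.prod_congr rfl fun l _ => ?_
      rw [← pow_mul, mul_comm]
      rfl
    have h3 : ∏ l, t l ^ (3 • m) l = (∏ l, t l ^ m l) ^ 3 := by
      rw [← Finset.prod_pow]
      refine Finset.prod_congr rfl fun l _ => ?_
      rw [← pow_mul, mul_comm]
      rfl
    simp only [Pi.add_apply, mono, h2, h3]
    simp only [nsmul_eq_mul, Nat.cast_pow]
    push_cast
    noncomm_ring
  obtain ⟨l0, hl0⟩ := hm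
  rw [e, map_add, map_add, Ext_mono h5, Ext_mono h5, Ext_mono h5, if_pos, if_neg, if_neg, add_zero, add_zero]
  · intro hd
    have := hd l0
    simp only [Pi.smul_apply, smul_eq_mul] at this
    obtain ⟨c, hc⟩ := hl0
    omega
  · intro hd
    have := hd l0
    simp only [Pi.smul_apply, smul_eq_mul] at this
    obtain ⟨c, hc⟩ := hl0
    omega
  · intro l
    exact ⟨m l, by ring⟩

theorem Lead.lg_sub (h5 : (5 : R) = 0) (hρ : ∀ g, (ρ g - 1) ^ 4 = 0) {u : R} {m : Λ → ℕ}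
    {g : (Λ → ℕ) → G} (hg : Lead ρ h u m g) (hm : ∃ l, Odd (m l)) {v : G}
    (hv : ∀ t, g t = v ^ (∏ l, t l ^ m l)) : lg (ρ v) - u ∈ Dd ρ h m := by
  have h1 := hg.ext_sub ρ h h5
  have e : (fun t => ρ (g t) - 1) = (fun t : Λ → ℕ => ρ (v ^ (∏ l, t l ^ m l)) - 1) := by
    funext t
    rw [hv]
  rw [e, Ext_pow ρ h5 hρ m hm v] at h1
  exact h1

end Grp

end Pool.Agent.MP5c99ad
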