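import Mathlib
import Pool.Agent.Lib.MP_5c99ad_al.LawE

set_option autoImplicit false

/-!
The final operator law: for commuting blocks `p, a` and `r, q` which are of class 3, the product
`lg v * (x - 1) * lg w` vanishes for `x` in the commutator subgroup of the subgroup generated by the nice
elements.
-/

namespace Pool.Agent.MP5c99ad

section Final

variable {G R : Type} [Group G] [Ring R] (ρ : G →* R)

/-- the commutator `x⁻¹ y⁻¹ x y` -/
def gc (x y : G) : G := x⁻¹ * y⁻¹ * x * y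

/-- content of the first block -/
def mV : Fin 4 → ℕ := Pi.single 0 1 + Pi.single 1 1 + Pi.single 1 1
/-- content of the second block -/
def mW : Fin 4 → ℕ := Pi.single 2 1 + Pi.single 3 1 + Pi.single 3 1

theorem prod_mV (t : Fin 4 → ℕ) : ∏ l, t l ^ mV l = t 0 * t 1 * t 1 := by
  rw [Fin.prod_univ_four, show mV 0 = 1 from by decide, show mV 1 = 2 from by decide,
    show mV 2 = 0 from by decide, show mV 3 = 0 from by decide]
  ring

theorem prod_mW (t : Fin 4 → ℕ) : ∏ l, t l ^ mW l = t 2 * t 3 * t 3 := by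
  rw [Fin.prod_univ_four, show mW 0 = 0 from by decide, show mW 1 = 0 from by decide,
    show mW 2 = 1 from by decide, show mW 3 = 2 from by decide]
  ring

theorem Dd_le {Λ : Type} [Fintype Λ] [DecidableEq Λ] (h : Λ → G) (c : Λ → ℕ) : Dd ρ h c ≤ MG ρ h c 0 := by
  unfold Dd
  refine iSup_le fun l => MG_anti ρ h _ _ _ _ ?_ le_rfl
  intro i
  simp

theorem Lead_V (h5 : (5 : R) = 0) (hρ : ∀ g, (ρ g - 1) ^ 4 = 0) {Λ : Type} [Fintype Λ] [DecidableEq Λ]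
    (h : Λ → G) (i j : Λ) :
    Lead ρ h (brk (brk (lg (ρ (h i))) (lg (ρ (h j)))) (lg (ρ (h j))))
      (Pi.single i 1 + Pi.single j 1 + Pi.single j 1)
      (fun t => gc (gc (h i ^ t i) (h j ^ t j)) (h j ^ t j)) :=
  lead_comm ρ h h5 hρ (lead_comm ρ h h5 hρ (lead_letter ρ h h5 hρ i) (lead_letter ρ h h5 hρ j))
    (lead_letter ρ h h5 hρ j)

theorem operator_law [Finite G] (hB : BCert2) (hVW : LawVW) (hXY : LawXY) (hBX : LawBX)
    (hG : ∀ g : G, g ^ 5 = 1) (h5 : (5 : R) = 0)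
    (hρ : ∀ g, (ρ g - 1) ^ 4 = 0) {p a r q v w : G} (hpr : p * r = r * p) (hpq : p * q = q * p)
    (har : a * r = r * a) (haq : a * q = q * a)
    (hv : ∀ s t : ℕ, gc (gc (p ^ s) (a ^ t)) (a ^ t) = v ^ (s * t * t))
    (hw : ∀ s t : ℕ, gc (gc (r ^ s) (q ^ t)) (q ^ t) = w ^ (s * t * t))
    {x : G} (hx : x ∈ ⁅NK ρ, NK ρ⁆) :
    lg (ρ v) * (ρ x - 1) * lg (ρ w) = 0 := by
  let h : Fin 4 → G := blk p a r q
  have hL1 := Lead_V ρ h5 hρ h 0 1
  have hL2 := Lead_V ρ h5 hρ h 2 3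
  have hv' : lg (ρ v) - brk (brk (lg (ρ p)) (lg (ρ a))) (lg (ρ a)) ∈ Dd ρ h mV := by
    refine hL1.lg_sub ρ h h5 hρ ⟨0, by decide⟩ ?_
    intro t
    show gc (gc (p ^ t 0) (a ^ t 1)) (a ^ t 1) = v ^ (∏ l, t l ^ mV l)
    rw [hv, prod_mV]
  have hw' : lg (ρ w) - brk (brk (lg (ρ r)) (lg (ρ q))) (lg (ρ q)) ∈ Dd ρ h mW := by
    refine hL2.lg_sub ρ h h5 hρ ⟨2, by decide⟩ ?_
    intro t
    show gc (gc (r ^ t 2) (q ^ t 3)) (q ^ t 3) = w ^ (∏ l, t l ^ mW l)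
    rw [hw, prod_mW]
  have hVm : brk (brk (lg (ρ p)) (lg (ρ a))) (lg (ρ a)) ∈ MG ρ h mV 0 := hL1.umem
  have hWm : brk (brk (lg (ρ r)) (lg (ρ q))) (lg (ρ q)) ∈ MG ρ h mW 0 := hL2.umem
  have hlaw := law_commutator ρ hB hVW hXY hBX hG h5 hρ hpr hpq har haq hx
  set V := brk (brk (lg (ρ p)) (lg (ρ a))) (lg (ρ a)) with hVd
  set W := brk (brk (lg (ρ r)) (lg (ρ q))) (lg (ρ q)) with hWd
  have hT : ρ x - 1 ∈ MG ρ h 0 0 := AddSubgroup.sub_mem _ (rho_mem_MG ρ h x) (one_mem_MG ρ h)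
  have hbot : Dd ρ h (mV + mW) = ⊥ := by
    unfold Dd
    rw [iSup_eq_bot]
    intro l'
    have hga : 2 ≤ (mV + mW + Pi.single l' 4 : Fin 4 → ℕ) 1 :=
      (show 2 ≤ (mV + mW : Fin 4 → ℕ) 1 by decide).trans (Nat.le_add_right _ _)
    have hgq : 2 ≤ (mV + mW + Pi.single l' 4 : Fin 4 → ℕ) 3 :=
      (show 2 ≤ (mV + mW : Fin 4 → ℕ) 3 by decide).trans (Nat.le_add_right _ _)
    have hself : 5 ≤ (mV + mW + Pi.single l' 4 : Fin 4 → ℕ) l' := by
      have : 1 ≤ (mV + mW : Fin 4 → ℕ) l' := by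
        fin_cases l' <;> decide
      rw [Pi.add_apply, Pi.single_eq_same]
      omega
    fin_cases l'
    · exact MG_bot_D ρ h hB hG h5 hρ (d := 0) (r := 3) (by decide) hpq hself hgq
    · exact MG_bot_D ρ h hB hG h5 hρ (d := 1) (r := 3) (by decide) haq hself hgq
    · exact MG_bot_D ρ h hB hG h5 hρ (d := 2) (r := 1) (by decide) har.symm hself hga
    · exact MG_bot_D ρ h hB hG h5 hρ (d := 3) (r := 1) (by decide) haq.symm hself hga
  have e : lg (ρ v) * (ρ x - 1) * lg (ρ w) =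
      (lg (ρ v) - V) * (ρ x - 1) * (lg (ρ w) - W) + (lg (ρ v) - V) * (ρ x - 1) * W +
      V * (ρ x - 1) * (lg (ρ w) - W) + V * (ρ x - 1) * W := by
    noncomm_ring
  have z : ∀ c : R, c ∈ Dd ρ h (mV + mW) → c = 0 := by
    intro c hc
    rwa [hbot, AddSubgroup.mem_bot] at hc
  have hTV := Dd_mul_right ρ h hv' hT
  rw [add_zero] at hTV
  have hVT := MG_mul' ρ h (A := mV) (D := 0) hVm hT (by simp) le_rfl
  rw [e, z _ (Dd_mul_right ρ h hTV (Dd_le ρ h _ hw')), z _ (Dd_mul_right ρ h hTV hWm),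
    z _ (Dd_mul_left ρ h hVT hw'), hlaw]
  simp

end Final

end Pool.Agent.MP5c99ad
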