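import Mathlib
import Pool.Agent.Lib.MP_5c99ad_al.LawF

set_option autoImplicit false

/-!
The product `V W` of the two blocks vanishes, and the operator law in the form
`(ρ v - 1) ρ k (ρ w - 1) = 0` for `k` in the commutator subgroup of the subgroup generated by the nice
elements.
-/

namespace Pool.Agent.MP5c99ad

open scoped commutatorElement

section VW

variable {G R : Type} [Group G] [Ring R] (ρ : G →* R)

theorem block_law0 [Finite G] (hB : BCert2) (hVW : LawVW)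
    (hG : ∀ g : G, g ^ 5 = 1) (h5 : (5 : R) = 0)
    (hρ : ∀ g, (ρ g - 1) ^ 4 = 0) {p a r q : G} (hpr : p * r = r * p) (hpq : p * q = q * p)
    (har : a * r = r * a) (haq : a * q = q * a) :
    brk (brk (lg (ρ p)) (lg (ρ a))) (lg (ρ a)) * brk (brk (lg (ρ r)) (lg (ρ q))) (lg (ρ q)) = 0 := by
  let h : Fin 4 ⊕ Fin 0 → G := Sum.elim (blk p a r q) (fun i => i.elim0)
  have htr := law_transfer ρ h h5 hρ (E := fun i j => h i * h j = h j * h i) (fun i j hij => hij)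
    (lawC 0) (lawFR 0) (lawFR_mem 0) (by
      intro U _ h5U X hX hsym
      rw [evF_lawFR]
      have h0 : BlockRing U (X (Sum.inl 0)) (X (Sum.inl 1)) (X (Sum.inl 2)) (X (Sum.inl 3)) ∅ := by
        refine ⟨h5U, hX _ _ hpr, hX _ _ hpq, hX _ _ har, hX _ _ haq, ?_⟩
        have hsub : ∀ u, LieMonS ({X (Sum.inl 0), X (Sum.inl 1), X (Sum.inl 2), X (Sum.inl 3)} ∪
            (∅ : Set U)) u → LieMonS (Set.range X) u := by
          intro u hu
          induction hu with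
          | letter y hy =>
            refine LieMonS.letter y ?_
            rcases hy with hy | hy
            · simp only [Set.mem_insert_iff, Set.mem_singleton_iff] at hy
              rcases hy with rfl | rfl | rfl | rfl <;> exact ⟨_, rfl⟩
            · exact absurd hy (Set.notMem_empty _)
          | br a b _ _ iha ihb => exact LieMonS.br a b iha ihb
        intro u1 u2 u3 u4 h1 h2 h3 h4
        exact hsym _ _ _ _ (hsub _ h1) (hsub _ h2) (hsub _ h3) (hsub _ h4)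
      have := hVW U _ _ _ _ h0
      simpa using this)
  have hbot : Dd ρ h (mct (lawC 0)) = ⊥ := by
    unfold Dd
    rw [iSup_eq_bot]
    intro l'
    have hga : 2 ≤ (mct (lawC 0) + Pi.single l' 4 : Fin 4 ⊕ Fin 0 → ℕ) (Sum.inl 1) :=
      (lawC_count_a 0).trans (mct_le_of_add _ _ _ _)
    have hgq : 2 ≤ (mct (lawC 0) + Pi.single l' 4 : Fin 4 ⊕ Fin 0 → ℕ) (Sum.inl 3) :=
      (lawC_count_q 0).trans (mct_le_of_add _ _ _ _)
    have hself : 5 ≤ (mct (lawC 0) + Pi.single l' 4 : Fin 4 ⊕ Fin 0 → ℕ) l' := by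
      have := lawC_count 0 l'
      simp only [Pi.add_apply, mct, Pi.single_eq_same]
      omega
    rcases l' with l' | i
    · fin_cases l'
      · exact MG_bot_D ρ h hB hG h5 hρ (d := Sum.inl 0) (r := Sum.inl 3) (by simp) hpq hself hgq
      · exact MG_bot_D ρ h hB hG h5 hρ (d := Sum.inl 1) (r := Sum.inl 3) (by simp) haq hself hgq
      · exact MG_bot_D ρ h hB hG h5 hρ (d := Sum.inl 2) (r := Sum.inl 1) (by simp) har.symm hself hga
      · exact MG_bot_D ρ h hB hG h5 hρ (d := Sum.inl 3) (r := Sum.inl 1) (by simp) haq.symm hself hga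
    · exact i.elim0
  rw [hbot, AddSubgroup.mem_bot, evF_lawFR] at htr
  rw [List.ofFn_zero, List.prod_nil, mul_one] at htr
  exact htr

theorem operator_law0 [Finite G] (hB : BCert2) (hVW : LawVW)
    (hG : ∀ g : G, g ^ 5 = 1) (h5 : (5 : R) = 0)
    (hρ : ∀ g, (ρ g - 1) ^ 4 = 0) {p a r q v w : G} (hpr : p * r = r * p) (hpq : p * q = q * p)
    (har : a * r = r * a) (haq : a * q = q * a)
    (hv : ∀ s t : ℕ, gc (gc (p ^ s) (a ^ t)) (a ^ t) = v ^ (s * t * t))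
    (hw : ∀ s t : ℕ, gc (gc (r ^ s) (q ^ t)) (q ^ t) = w ^ (s * t * t)) :
    lg (ρ v) * lg (ρ w) = 0 := by
  let h : Fin 4 → G := blk p a r q
  have hL1 := Lead_V ρ h5 hρ h 0 1
  have hL2 := Lead_V ρ h5 hρ h 2 3
  have hv' : lg (ρ v) - brk (brk (lg (ρ p)) (lg (ρ a))) (lg (ρ a)) ∈ Dd ρ h mV := by
    refine hL1.lg_sub ρ h h5 hρ ⟨0, by decide⟩ ?_
    intro t
    show gc (gc (p ^ t 0) (a ^ t 1)) (a ^ t 1) = v ^ (∏ l, t l ^ mV l)
    rw [hv, prod_mV]
  have hw' : lg (ρ w) - brk (brk (lg (ρ r)) (lg (ρ q))) (lg (ρ q)) ∈ Dd ρ h mW := by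
    refine hL2.lg_sub ρ h h5 hρ ⟨2, by decide⟩ ?_
    intro t
    show gc (gc (r ^ t 2) (q ^ t 3)) (q ^ t 3) = w ^ (∏ l, t l ^ mW l)
    rw [hw, prod_mW]
  have hVm : brk (brk (lg (ρ p)) (lg (ρ a))) (lg (ρ a)) ∈ MG ρ h mV 0 := hL1.umem
  have hWm : brk (brk (lg (ρ r)) (lg (ρ q))) (lg (ρ q)) ∈ MG ρ h mW 0 := hL2.umem
  have hlaw := block_law0 ρ hB hVW hG h5 hρ hpr hpq har haq
  set V := brk (brk (lg (ρ p)) (lg (ρ a))) (lg (ρ a)) with hVd
  set W := brk (brk (lg (ρ r)) (lg (ρ q))) (lg (ρ q)) with hWd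
  have hbot : Dd ρ h (mV + mW) = ⊥ := by
    unfold Dd
    rw [iSup_eq_bot]
    intro l'
    have hga : 2 ≤ (mV + mW + Pi.single l' 4 : Fin 4 → ℕ) 1 :=
      (show 2 ≤ (mV + mW : Fin 4 → ℕ) 1 by decide).trans (Nat.le_add_right _ _)
    have hgq : 2 ≤ (mV + mW + Pi.single l' 4 : Fin 4 → ℕ) 3 :=
      (show 2 ≤ (mV + mW : Fin 4 → ℕ) 3 by decide).trans (Nat.le_add_right _ _)
    have hself : 5 ≤ (mV + mW + Pi.single l' 4 : Fin 4 → ℕ) l' := by
      have : 1 ≤ (mV + mW : Fin 4 → ℕ) l' := by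
        fin_cases l' <;> decide
      rw [Pi.add_apply, Pi.single_eq_same]
      omega
    fin_cases l'
    · exact MG_bot_D ρ h hB hG h5 hρ (d := 0) (r := 3) (by decide) hpq hself hgq
    · exact MG_bot_D ρ h hB hG h5 hρ (d := 1) (r := 3) (by decide) haq hself hgq
    · exact MG_bot_D ρ h hB hG h5 hρ (d := 2) (r := 1) (by decide) har.symm hself hga
    · exact MG_bot_D ρ h hB hG h5 hρ (d := 3) (r := 1) (by decide) haq.symm hself hga
  have e : lg (ρ v) * lg (ρ w) =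
      (lg (ρ v) - V) * (lg (ρ w) - W) + (lg (ρ v) - V) * W +
      V * (lg (ρ w) - W) + V * W := by
    noncomm_ring
  have z : ∀ c : R, c ∈ Dd ρ h (mV + mW) → c = 0 := by
    intro c hc
    rwa [hbot, AddSubgroup.mem_bot] at hc
  rw [e, z _ (Dd_mul_right ρ h hv' (Dd_le ρ h _ hw')), z _ (Dd_mul_right ρ h hv' hWm),
    z _ (Dd_mul_left ρ h hVm hw'), hlaw]
  simp

theorem sub_one_eq_lg_mul (h5 : (5 : R) = 0) {u : R} (hu : (u - 1) ^ 4 = 0) :
    u - 1 = lg u * (1 + 3 * lg u + lg u ^ 2) ∧ u - 1 = (1 + 3 * lg u + lg u ^ 2) * lg u := by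
  have e := exp_lg h5 hu
  set L := lg u with hL
  have e1 : u - 1 = L + 3 * L ^ 2 + L ^ 3 := by rw [e]; abel
  constructor <;> rw [e1] <;> noncomm_ring

/-- **the operator law** in the form needed for the adjoint law -/
theorem operator_law1 [Finite G] (hB : BCert2) (hVW : LawVW) (hXY : LawXY) (hBX : LawBX)
    (hG : ∀ g : G, g ^ 5 = 1) (h5 : (5 : R) = 0)
    (hρ : ∀ g, (ρ g - 1) ^ 4 = 0) {p a r q v w : G} (hpr : p * r = r * p) (hpq : p * q = q * p)
    (har : a * r = r * a) (haq : a * q = q * a)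
    (hv : ∀ s t : ℕ, gc (gc (p ^ s) (a ^ t)) (a ^ t) = v ^ (s * t * t))
    (hw : ∀ s t : ℕ, gc (gc (r ^ s) (q ^ t)) (q ^ t) = w ^ (s * t * t))
    {x : G} (hx : x ∈ ⁅NK ρ, NK ρ⁆) :
    (ρ v - 1) * ρ x * (ρ w - 1) = 0 := by
  have h1 := operator_law ρ hB hVW hXY hBX hG h5 hρ hpr hpq har haq hv hw hx
  have h0 := operator_law0 ρ hB hVW hG h5 hρ hpr hpq har haq hv hw
  have e1 := (sub_one_eq_lg_mul h5 (hρ v)).2
  have e2 := (sub_one_eq_lg_mul h5 (hρ w)).1
  rw [e1, e2]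
  set A := 1 + 3 * lg (ρ v) + lg (ρ v) ^ 2
  set B := 1 + 3 * lg (ρ w) + lg (ρ w) ^ 2
  have e : A * lg (ρ v) * ρ x * (lg (ρ w) * B) = A * (lg (ρ v) * (ρ x - 1) * lg (ρ w)) * B +
      A * (lg (ρ v) * lg (ρ w)) * B := by
    noncomm_ring
  rw [e, h1, h0]
  simp

end VW

end Pool.Agent.MP5c99ad
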