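import Mathlib
import Pool.Agent.Lib.MP_5c99ad_al.AdjointC
import Pool.Agent.Lib.MP_5c99ad_al.LawG
import Pool.Agent.Lib.MP_5c99ad_al.Engel
import Pool.Agent.Lib.MP_5c99ad_al.Iter

set_option autoImplicit false

/-!
The law satisfied by deep subgroups of finite groups of exponent 5, and the final contradiction, from the
ring certificates and from the existence of the group `H`.
-/

namespace Pool.Agent.MP5c99ad

open scoped commutatorElement

section deep
variable (K : Type) [Group K]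

/-- commutators of elements with their conjugates -/
def SS1 : Set K := {x | ∃ y g : K, x = ⁅y, g * y * g⁻¹⁆}

def KK1 : Subgroup K := Subgroup.closure (SS1 K)

def SS2 : Set K := {x | ∃ y ∈ KK1 K, ∃ g ∈ KK1 K, x = ⁅y, g * y * g⁻¹⁆}

def KK2 : Subgroup K := Subgroup.closure (SS2 K)

theorem normal_of_set {K : Type} [Group K] (S : Set K) (h : ∀ x ∈ S, ∀ g : K, g * x * g⁻¹ ∈ S) :
    (Subgroup.closure S).Normal where
  conj_mem := by
    intro n hn g
    induction hn using Subgroup.closure_induction with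
    | mem x hx => exact Subgroup.subset_closure (h x hx g)
    | one => simp
    | mul a b _ _ ha hb =>
      have : g * (a * b) * g⁻¹ = (g * a * g⁻¹) * (g * b * g⁻¹) := by group
      rw [this]
      exact mul_mem ha hb
    | inv a _ ha =>
      have : g * a⁻¹ * g⁻¹ = (g * a * g⁻¹)⁻¹ := by group
      rw [this]
      exact inv_mem ha

instance KK1_normal : (KK1 K).Normal := by
  refine normal_of_set _ ?_
  rintro _ ⟨y, g, rfl⟩ h
  refine ⟨h * y * h⁻¹, h * g * h⁻¹, ?_⟩
  rw [conjugate_commutatorElement]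
  congr 1
  group

instance KK2_normal : (KK2 K).Normal := by
  refine normal_of_set _ ?_
  rintro _ ⟨y, hy, g, hg, rfl⟩ h
  refine ⟨h * y * h⁻¹, (KK1_normal K).conj_mem _ hy h, h * g * h⁻¹, (KK1_normal K).conj_mem _ hg h, ?_⟩
  rw [conjugate_commutatorElement]
  congr 1
  group

variable {K}

theorem derived_le_KK1 (h5 : ∀ g : K, g ^ 5 = 1) : derivedSeries K 2 ≤ KK1 K := by
  apply engel_derived h5
  intro y g
  exact Subgroup.subset_closure ⟨y, g, rfl⟩

theorem derived_le_KK2 (h5 : ∀ g : K, g ^ 5 = 1) : derivedSeries K 4 ≤ KK2 K := by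
  have h1 := derived_le_KK1 h5
  have h2 : derivedSeries (KK1 K) 2 ≤ (KK2 K).subgroupOf (KK1 K) := by
    apply engel_derived
    · intro g
      ext
      exact h5 g
    · intro y g
      rw [Subgroup.mem_subgroupOf]
      exact Subgroup.subset_closure ⟨y, y.2, g, g.2, rfl⟩
  have h3 : ∀ n, derivedSeries K (n + 2) ≤ (derivedSeries (KK1 K) n).map (KK1 K).subtype := by
    intro n
    induction n with
    | zero =>
      rw [derivedSeries_zero]
      intro x hx
      exact ⟨⟨x, h1 hx⟩, Subgroup.mem_top _, rfl⟩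
    | succ n ih =>
      rw [show n + 1 + 2 = (n + 2) + 1 from rfl, derivedSeries_succ K (n + 2), derivedSeries_succ (KK1 K) n,
        Subgroup.map_commutator]
      exact Subgroup.commutator_mono ih ih
  refine (h3 2).trans ?_
  rintro _ ⟨x, hx, rfl⟩
  exact h2 hx

end deep

section law

theorem KK1_le_NK {K R : Type} [Group K] [Finite K] [Ring R] (T1 : T1Prop.{0} 7) (hK : ∀ g : K, g ^ 5 = 1)
    (h5 : (5 : R) = 0) (ρ : K →* R) (hρ : ∀ g, (ρ g - 1) ^ 4 = 0) : KK1 K ≤ NK ρ := by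
  refine (Subgroup.closure_le _).2 ?_
  rintro _ ⟨y, g, rfl⟩
  refine Subgroup.subset_closure ?_
  have h10 : ∀ l : List K, l.length = 10 → (l.map (fun g => (ρ y - 1) * ρ g)).prod = 0 := by
    intro l hl
    have h7 := class_bound_finite ρ y T1 hK h5 hρ (l.take 7) (by simp [hl])
    rw [← List.take_append_drop 7 l, List.map_append, List.prod_append, h7, zero_mul]
  have := nice_comm h10 g 1
  rw [one_mul, inv_one, mul_one] at this
  exact this

theorem KK2_le {K R : Type} [Group K] [Finite K] [Ring R] (T1 : T1Prop.{0} 7) (hK : ∀ g : K, g ^ 5 = 1)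
    (h5 : (5 : R) = 0) (ρ : K →* R) (hρ : ∀ g, (ρ g - 1) ^ 4 = 0) : KK2 K ≤ ⁅NK ρ, NK ρ⁆ := by
  refine (Subgroup.closure_le _).2 ?_
  rintro _ ⟨y, hy, g, hg, rfl⟩
  have h1 := KK1_le_NK T1 hK h5 ρ hρ
  exact Subgroup.commutator_mem_commutator (h1 hy) (h1 (mul_mem (mul_mem hg hy) (inv_mem hg)))

variable {K : Type} [Group K] [Finite K]

theorem comm_of_gc {p a s : K} (hp : p * s = s * p) (ha : a * s = s * a) :
    gc (gc p a) a * s = s * gc (gc p a) a := by
  have hp' : Commute p s := hp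
  have ha' : Commute a s := ha
  have h1 : Commute (gc p a) s := by
    unfold gc
    exact ((hp'.inv_left.mul_left ha'.inv_left).mul_left hp').mul_left ha'
  have h2 : Commute (gc (gc p a) a) s := by
    have e : gc (gc p a) a = (gc p a)⁻¹ * a⁻¹ * gc p a * a := rfl
    rw [e]
    exact ((h1.inv_left.mul_left ha'.inv_left).mul_left h1).mul_left ha'
  exact h2

/-- **The law**: deep subgroups of finite groups of exponent 5. -/
theorem deep_law (T1 : T1Prop.{0} 7) (hB : BCert2) (hVW : LawVW) (hXY : LawXY) (hBX : LawBX)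
    (hK : ∀ g : K, g ^ 5 = 1) {p a r q v w m x : K}
    (hpr : p * r = r * p) (hpq : p * q = q * p) (har : a * r = r * a) (haq : a * q = q * a)
    (hv : ∀ s t : ℕ, gc (gc (p ^ s) (a ^ t)) (a ^ t) = v ^ (s * t * t))
    (hw : ∀ s t : ℕ, gc (gc (r ^ s) (q ^ t)) (q ^ t) = w ^ (s * t * t))
    (hvm : v ∈ KK2 K) (hwm : w ∈ KK2 K) (hm : m ∈ KK2 K) (hx : x ∈ KK2 K) :
    gc (gc (gc m v) x) w = 1 := by
  have ev : gc (gc p a) a = v := by simpa using hv 1 1
  have ew : gc (gc r q) q = w := by simpa using hw 1 1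
  have hcomm : v * w = w * v := by
    have h1 : v * r = r * v := by rw [← ev]; exact comm_of_gc hpr har
    have h2 : v * q = q * v := by rw [← ev]; exact comm_of_gc hpq haq
    rw [← ew]
    exact (comm_of_gc h1.symm h2.symm).symm
  have hD : AdjData K (KK2 K) (SS2 K) v w := by
    refine ⟨hK, KK2_normal K, rfl, ?_, ?_, hvm, hwm, hcomm⟩
    · rintro _ ⟨y, -, g, -, rfl⟩
      exact class_comm T1 hK y g
    · intro R _ ρ h5 h4 k hk
      exact operator_law1 ρ hB hVW hXY hBX hK h5 h4 hpr.symm har.symm hpq.symm haq.symm hw hv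
        (KK2_le T1 hK h5 ρ h4 hk)
  have hvV : v ∈ VV (KK2 K) v := VV_self
  have hwW : w ∈ VV (KK2 K) w := VV_self
  have h1 : gc m v ∈ VV (KK2 K) v := by
    have e : gc m v = (m⁻¹ * v⁻¹ * m⁻¹⁻¹) * v := by unfold gc; group
    rw [e]
    exact mul_mem (VV_conj (inv_mem hvV) (inv_mem hm)) hvV
  have h2 : gc (gc m v) x ∈ VV (KK2 K) v := by
    have e : gc (gc m v) x = (gc m v)⁻¹ * (x⁻¹ * gc m v * x⁻¹⁻¹) := by
      show (gc m v)⁻¹ * x⁻¹ * gc m v * x = _
      group
    rw [e]
    exact mul_mem (inv_mem h1) (VV_conj h1 (inv_mem hx))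
  have h3 := adj_law_VV hD h2 hwW
  show (gc (gc m v) x)⁻¹ * w⁻¹ * gc (gc m v) x * w = 1
  rw [mul_assoc, h3]
  group

end law

/-- the group `H` -/
def HExists : Prop :=
  ∃ (H : Type) (_ : Group H) (_ : Finite H) (p a r q v w x m : H), (∀ g : H, g ^ 5 = 1) ∧
    p * r = r * p ∧ p * q = q * p ∧ a * r = r * a ∧ a * q = q * a ∧
    (∀ s t : ℕ, gc (gc (p ^ s) (a ^ t)) (a ^ t) = v ^ (s * t * t)) ∧
    (∀ s t : ℕ, gc (gc (r ^ s) (q ^ t)) (q ^ t) = w ^ (s * t * t)) ∧
    gc (gc (gc m v) x) w ≠ 1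

theorem map_gc {G H : Type} [Group G] [Group H] (f : G →* H) (x y : G) : f (gc x y) = gc (f x) (f y) := by
  simp [gc]

/-- **Final assembly.** -/
theorem final (T1 : T1Prop.{0} 7) (hB : BCert2) (hVW : LawVW) (hXY : LawXY) (hBX : LawBX)
    (hH : HExists) :
    ¬ (∀ p : ℕ, p.Prime → 3 < p →
      ∀ (G : Type) (_ : Group G), Finite G → (∀ x : G, x ^ p = 1) →
        ∃ (H : Type) (_ : Group H), Finite H ∧ (∀ y : H, y ^ p = 1) ∧
          ∃ f : G →* H, Function.Injective f ∧ ∀ g : G, f g ∈ commutator H) := by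
  intro hall
  obtain ⟨H, _, _, p, a, r, q, v, w, x, m, h5, hpr, hpq, har, haq, hv, hw, hne⟩ := hH
  obtain ⟨K, _, _, hK, f, hf, hfd⟩ := embed_iterate 5 (hall 5 (by norm_num) (by norm_num)) 4 H h5
  have hmem : ∀ g : H, f g ∈ KK2 K := fun g => derived_le_KK2 hK (hfd g)
  apply hne
  apply hf
  rw [map_one, map_gc, map_gc, map_gc]
  refine deep_law T1 hB hVW hXY hBX hK (p := f p) (a := f a) (r := f r) (q := f q) ?_ ?_ ?_ ?_ ?_ ?_
    (hmem v) (hmem w) (hmem m) (hmem x)
  · rw [← map_mul, hpr, map_mul]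
  · rw [← map_mul, hpq, map_mul]
  · rw [← map_mul, har, map_mul]
  · rw [← map_mul, haq, map_mul]
  · intro s t
    rw [← map_pow, ← map_pow, ← map_gc, ← map_gc, hv, map_pow]
  · intro s t
    rw [← map_pow, ← map_pow, ← map_gc, ← map_gc, hw, map_pow]

end Pool.Agent.MP5c99ad
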