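import Pool.Agent.Lib.MP_5c99ad_al.Power

/-!
# The group of exponent `p` built from a filtered ring (MP_5c99ad_al)
-/

set_option autoImplicit false

namespace Pool.Agent.ExpP

open Finset

section

variable {S : Type} [Ring S] {p : ℕ} {N : ℕ → AddSubgroup S} {F : ℕ → S}

/-- the data: a filtered ring with anticommuting square-zero elements -/
structure GD (p : ℕ) (N : ℕ → AddSubgroup S) (F : ℕ → S) : Prop extends Filt p N where
  F0 : ∀ k, F k ∈ N 0
  FF : ∀ i j, F i * F j = -(F j * F i)
  F2 : ∀ i, F i * F i = 0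

/-- even elements: they commute with the `F k` -/
def Ev (F : ℕ → S) (x : S) : Prop := ∀ k, F k * x = x * F k

/-- odd elements: they anticommute with the `F k` -/
def Od (F : ℕ → S) (x : S) : Prop := ∀ k, F k * x = -(x * F k)

/-- the additive group generated by the `F k` -/
def VV (F : ℕ → S) : AddSubgroup S := AddSubgroup.closure (Set.range F)

lemma Ev.one : Ev F 1 := fun k => by rw [mul_one, one_mul]

lemma Ev.mul {x y : S} (hx : Ev F x) (hy : Ev F y) : Ev F (x * y) := fun k => by
  rw [← mul_assoc, hx k, mul_assoc, hy k, mul_assoc]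

lemma Ev.pow {x : S} (hx : Ev F x) (n : ℕ) : Ev F (x ^ n) := by
  induction n with
  | zero => rw [pow_zero]; exact Ev.one
  | succ n ih => rw [pow_succ]; exact ih.mul hx

lemma Ev.mul_od {x y : S} (hx : Ev F x) (hy : Od F y) : Od F (x * y) := fun k => by
  rw [← mul_assoc, hx k, mul_assoc, hy k, mul_neg, mul_assoc]

lemma Od.mul_ev {x y : S} (hx : Od F x) (hy : Ev F y) : Od F (x * y) := fun k => by
  rw [← mul_assoc, hx k, neg_mul, mul_assoc, hy k, mul_assoc]

lemma Od.mul {x y : S} (hx : Od F x) (hy : Od F y) : Ev F (x * y) := fun k => by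
  rw [← mul_assoc, hx k, neg_mul, mul_assoc, hy k, mul_neg, neg_neg, mul_assoc]

lemma Ev.sub {x y : S} (hx : Ev F x) (hy : Ev F y) : Ev F (x - y) := fun k => by
  rw [mul_sub, hx k, hy k, sub_mul]

lemma Ev.add {x y : S} (hx : Ev F x) (hy : Ev F y) : Ev F (x + y) := fun k => by
  rw [mul_add, hx k, hy k, add_mul]

lemma Od.add {x y : S} (hx : Od F x) (hy : Od F y) : Od F (x + y) := fun k => by
  rw [mul_add, hx k, hy k, add_mul, neg_add]

lemma Od.zero : Od F 0 := fun k => by rw [mul_zero, zero_mul, neg_zero]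

lemma Ev.comm {x v : S} (hx : Ev F x) (hv : v ∈ VV F) : v * x = x * v := by
  induction hv using AddSubgroup.closure_induction with
  | mem y hy => obtain ⟨k, rfl⟩ := hy; exact hx k
  | zero => rw [zero_mul, mul_zero]
  | add a b _ _ ha hb => rw [add_mul, mul_add, ha, hb]
  | neg a _ ha => rw [neg_mul, mul_neg, ha]

lemma Od.anti {x v : S} (hx : Od F x) (hv : v ∈ VV F) : v * x = -(x * v) := by
  induction hv using AddSubgroup.closure_induction with
  | mem y hy => obtain ⟨k, rfl⟩ := hy; exact hx k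
  | zero => rw [zero_mul, mul_zero, neg_zero]
  | add a b _ _ ha hb => rw [add_mul, mul_add, ha, hb, neg_add]
  | neg a _ ha => rw [neg_mul, mul_neg, ha]

lemma GD.od_VV (hG : GD p N F) {v : S} (hv : v ∈ VV F) : Od F v := by
  induction hv using AddSubgroup.closure_induction with
  | mem y hy => obtain ⟨k, rfl⟩ := hy; exact fun i => hG.FF i k
  | zero => exact Od.zero
  | add a b _ _ ha hb => exact ha.add hb
  | neg a _ ha => intro k; rw [mul_neg, neg_mul, ha k]

lemma GD.sq_VV (hG : GD p N F) {v : S} (hv : v ∈ VV F) : v * v = 0 := by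
  induction hv using AddSubgroup.closure_induction with
  | mem y hy => obtain ⟨k, rfl⟩ := hy; exact hG.F2 k
  | zero => rw [mul_zero]
  | add a b ha' hb' ha hb =>
    have h1 := (hG.od_VV hb').anti ha'
    rw [add_mul, mul_add, mul_add, ha, hb, h1]
    abel
  | neg a _ ha => rw [neg_mul, mul_neg, ha, neg_neg]

lemma GD.VV_N0 (hG : GD p N F) {v : S} (hv : v ∈ VV F) : v ∈ N 0 := by
  have h : VV F ≤ N 0 := by
    rw [VV, AddSubgroup.closure_le]
    rintro _ ⟨k, rfl⟩
    exact hG.F0 k
  exact h hv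

/-- the matrix `[[a + b v, b], [a v, a]]` -/
def Mt (a b v : S) : Matrix (Fin 2) (Fin 2) S := !![a + b * v, b; a * v, a]

/-- the conditions on the three entries -/
structure Good (N : ℕ → AddSubgroup S) (F : ℕ → S) (a b v : S) : Prop where
  ea : Ev F a
  na : a - 1 ∈ N 1
  ob : Od F b
  nb : b ∈ N 1
  hv : v ∈ VV F

lemma GD.a_N0 (hG : GD p N F) {a : S} (ha : a - 1 ∈ N 1) : a ∈ N 0 := by
  have h := (N 0).add_mem (hG.anti (Nat.zero_le 1) ha) hG.one
  rwa [sub_add_cancel] at h

lemma GD.mt_mul (hG : GD p N F) {a b v a' b' v' : S} (h : Good N F a b v)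
    (h' : Good N F a' b' v') : Mt a b v * Mt a' b' v' =
      Mt (a * (a' - b' * v)) (a * b' + b * (a' - b' * v)) (v + v') := by
  have e1 : v * a' = a' * v := h'.ea.comm h.hv
  have e2 : v * b' = -(b' * v) := h'.ob.anti h.hv
  have e3 : v * v = 0 := hG.sq_VV h.hv
  have e1' : ∀ x, v * (a' * x) = a' * (v * x) := fun x => by rw [← mul_assoc, e1, mul_assoc]
  have e2' : ∀ x, v * (b' * x) = -(b' * (v * x)) := fun x => by
    rw [← mul_assoc, e2, neg_mul, mul_assoc]
  have e3' : ∀ x, v * (v * x) = 0 := fun x => by rw [← mul_assoc, e3, zero_mul]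
  rw [Mt, Mt, Mt, Matrix.mul_fin_two]
  ext i j
  fin_cases i <;> fin_cases j
  · simp [mul_add, add_mul, mul_sub, sub_mul, mul_assoc, e1, e2, e3, e2']
    abel
  · simp [mul_add, add_mul, mul_sub, sub_mul, mul_assoc, e1, e2, e3, e2']
    abel
  · simp [mul_add, add_mul, mul_sub, sub_mul, mul_assoc, e1, e2, e3, e2']
    abel
  · simp [mul_add, add_mul, mul_sub, sub_mul, mul_assoc, e1, e2, e3, e2']
    abel

lemma GD.good_mul (hG : GD p N F) {a b v a' b' v' : S} (h : Good N F a b v)
    (h' : Good N F a' b' v') :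
    Good N F (a * (a' - b' * v)) (a * b' + b * (a' - b' * v)) (v + v') := by
  have n1 : b' * v ∈ N 1 := by
    have := hG.mul h'.nb (hG.VV_N0 h.hv)
    rwa [add_zero] at this
  have n2 : a' - b' * v - 1 ∈ N 1 := by
    have e : a' - b' * v - 1 = (a' - 1) - b' * v := by abel
    rw [e]
    exact (N 1).sub_mem h'.na n1
  have ev : Ev F (a' - b' * v) := h'.ea.sub (h'.ob.mul (hG.od_VV h.hv))
  refine ⟨h.ea.mul ev, ?_, (h.ea.mul_od h'.ob).add (h.ob.mul_ev ev), ?_,
    (VV F).add_mem h.hv h'.hv⟩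
  · have e : a * (a' - b' * v) - 1 = (a - 1) * (a' - b' * v) + (a' - b' * v - 1) := by
      noncomm_ring
    rw [e]
    refine (N 1).add_mem ?_ n2
    have := hG.mul h.na (hG.a_N0 n2)
    rwa [add_zero] at this
  · refine (N 1).add_mem ?_ ?_
    · have := hG.mul (hG.a_N0 h.na) h'.nb
      rwa [zero_add] at this
    · have := hG.mul h.nb (hG.a_N0 n2)
      rwa [add_zero] at this

lemma mt_one : Mt (1 : S) 0 0 = 1 := by
  rw [Mt, Matrix.one_fin_two]
  simp

lemma GD.good_one (hG : GD p N F) : Good N F 1 0 0 :=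
  ⟨Ev.one, by rw [sub_self]; exact (N 1).zero_mem, Od.zero, (N 1).zero_mem, (VV F).zero_mem⟩

/-- the monoid -/
def GD.G (hG : GD p N F) : Submonoid (Matrix (Fin 2) (Fin 2) S) where
  carrier := {X | ∃ a b v, Good N F a b v ∧ X = Mt a b v}
  one_mem' := ⟨1, 0, 0, hG.good_one, mt_one.symm⟩
  mul_mem' := by
    rintro _ _ ⟨a, b, v, h, rfl⟩ ⟨a', b', v', h', rfl⟩
    exact ⟨_, _, _, hG.good_mul h h', hG.mt_mul h h'⟩

lemma GD.mem_G (hG : GD p N F) {a b v : S} (h : Good N F a b v) : Mt a b v ∈ hG.G :=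
  ⟨a, b, v, h, rfl⟩

/-- the filtration on two by two matrices -/
def NM (N : ℕ → AddSubgroup S) (k : ℕ) : AddSubgroup (Matrix (Fin 2) (Fin 2) S) where
  carrier := {X | ∀ i j, X i j ∈ N k}
  zero_mem' := fun _ _ => (N k).zero_mem
  add_mem' := fun hx hy i j => (N k).add_mem (hx i j) (hy i j)
  neg_mem' := fun hx i j => (N k).neg_mem (hx i j)

lemma mem_NM {k : ℕ} {X : Matrix (Fin 2) (Fin 2) S} : X ∈ NM N k ↔ ∀ i j, X i j ∈ N k := Iff.rfl

lemma Filt.mat (hF : Filt p N) : Filt p (NM N) where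
  char := by
    ext i j
    rw [Matrix.natCast_apply, Matrix.zero_apply]
    split_ifs
    · exact hF.char
    · exact Nat.cast_zero
  mul := by
    intro i j x y hx hy a b
    rw [Matrix.mul_apply]
    exact (N _).sum_mem fun k _ => hF.mul (hx a k) (hy k b)
  one := by
    intro i j
    rw [Matrix.one_apply]
    split_ifs
    · exact hF.one
    · exact (N 0).zero_mem
  anti := fun i j hij X hX a b => hF.anti hij (hX a b)
  bot := by
    rw [eq_bot_iff]
    intro X hX
    rw [AddSubgroup.mem_bot]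
    ext i j
    have h := hX i j
    rw [hF.bot] at h
    exact (AddSubgroup.mem_bot).1 h

lemma pow_upper {a b : S} (ha : Ev F a) (hb : Od F b) (n : ℕ) :
    ∃ b', Od F b' ∧ (!![a, b; 0, a] : Matrix (Fin 2) (Fin 2) S) ^ n = !![a ^ n, b'; 0, a ^ n] := by
  induction n with
  | zero => exact ⟨0, Od.zero, by rw [pow_zero, pow_zero, Matrix.one_fin_two]⟩
  | succ n ih =>
    obtain ⟨b', h1, h2⟩ := ih
    refine ⟨a ^ n * b + b' * a, ((ha.pow n).mul_od hb).add (h1.mul_ev ha), ?_⟩
    rw [pow_succ, h2, Matrix.mul_fin_two, pow_succ]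
    simp

lemma pow_lower (v : S) (n : ℕ) :
    (!![1, 0; v, 1] : Matrix (Fin 2) (Fin 2) S) ^ n = !![1, 0; (n : S) * v, 1] := by
  induction n with
  | zero => rw [pow_zero, Matrix.one_fin_two, Nat.cast_zero, zero_mul]
  | succ n ih =>
    rw [pow_succ, ih, Matrix.mul_fin_two]
    push_cast
    simp [add_mul]

/-- **every element has `p`-th power one** -/
theorem GD.mt_pow (hG : GD p N F) (hp : p.Prime) {a b v : S} (h : Good N F a b v) :
    Mt a b v ^ p = 1 := by
  have e1 : v * a = a * v := h.ea.comm h.hv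
  have e2 : v * b = -(b * v) := h.ob.anti h.hv
  have e3 : v * v = 0 := hG.sq_VV h.hv
  have hA : Mt a b v = !![a, b; 0, a] * !![1, 0; v, 1] := by
    rw [Mt, Matrix.mul_fin_two]
    simp
  rw [hA]
  refine hG.toFilt.mat.AQ_pow hp (D := !![b * v, 0; 0, b * v]) ?_ ?_ ?_ ?_ ?_ ?_
  · intro i j
    fin_cases i <;> fin_cases j
    · simpa using h.na
    · simpa using h.nb
    · simp
    · simpa using h.na
  · have n1 : b * v ∈ N 1 := by
      have := hG.mul h.nb (hG.VV_N0 h.hv)
      rwa [add_zero] at this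
    intro i j
    fin_cases i <;> fin_cases j
    · simpa using n1
    · simp
    · simp
    · simpa using n1
  · ext i j
    fin_cases i <;> fin_cases j
    · simp [Matrix.mul_apply, Fin.sum_univ_two]
    · simp [Matrix.mul_apply, Fin.sum_univ_two]
    · simp [Matrix.mul_apply, Fin.sum_univ_two, e1, sub_mul, mul_assoc, e3]
    · simp [Matrix.mul_apply, Fin.sum_univ_two, e2, sub_mul]
      abel
  · ext i j
    fin_cases i <;> fin_cases j
    · simp [Matrix.mul_apply, Fin.sum_univ_two]
    · simp [Matrix.mul_apply, Fin.sum_univ_two]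
    · simp only [Matrix.mul_apply, Fin.sum_univ_two]
      simp [← mul_assoc, e2]
      simp [mul_assoc, e3]
    · simp [Matrix.mul_apply, Fin.sum_univ_two]
  · intro n
    obtain ⟨b', h1, h2⟩ := pow_upper (F := F) h.ea h.ob n
    have e4 : b * v * a ^ n * (b * v) = 0 := by
      have : v * (a ^ n * b) = -((a ^ n * b) * v) := ((h.ea.pow n).mul_od h.ob).anti h.hv
      have e : b * v * a ^ n * (b * v) = b * (v * (a ^ n * b)) * v := by noncomm_ring
      rw [e, this]
      simp [mul_assoc, e3]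
    have e5 : b * v * b' * (b * v) = 0 := by
      have : v * (b' * b) = (b' * b) * v := (h1.mul h.ob).comm h.hv
      have e : b * v * b' * (b * v) = b * (v * (b' * b)) * v := by noncomm_ring
      rw [e, this]
      simp [mul_assoc, e3]
    rw [h2, Matrix.mul_fin_two, Matrix.mul_fin_two]
    ext i j
    fin_cases i <;> fin_cases j
    · simpa using e4
    · simpa using e5
    · simp
    · simpa using e4
  · rw [pow_lower, hG.char, zero_mul, Matrix.one_fin_two]

/-- every element of the monoid has `p`-th power one -/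
theorem GD.pow_G (hG : GD p N F) (hp : p.Prime) (x : hG.G) : x ^ p = 1 := by
  obtain ⟨_, a, b, v, h, rfl⟩ := x
  exact Subtype.ext (hG.mt_pow hp h)

/-- **the group** -/
@[reducible] def GD.group (hG : GD p N F) (hp : p.Prime) : Group hG.G :=
  { (inferInstance : Monoid hG.G) with
    inv := fun x => x ^ (p - 1)
    inv_mul_cancel := fun x => by
      show x ^ (p - 1) * x = 1
      rw [← pow_succ, Nat.sub_add_cancel hp.one_lt.le]
      exact hG.pow_G hp x }

end

end Pool.Agent.ExpP
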