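import Pool.Agent.Lib.MP_5c99ad_al.ClassA

set_option autoImplicit false

/-!
An explicit finite group of exponent 5, part A: one block `P, A` (ring level).
-/

namespace Pool.Agent.MP5c99ad
namespace Hex

variable {U : Type*} [Ring U]

/-- the ring bracket -/
def bk (x y : U) : U := x * y - y * x

/-- relations of a block: content at most `P A A` -/
structure Blk (P A : U) : Prop where
  AAA : A * A * A = 0
  PP : P * P = 0
  PAP : P * A * P = 0
  PAAP : P * A * A * P = 0
  APAA : A * P * A * A = 0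
  AAPA : A * A * P * A = 0

/-- the additive group spanned by `P, [P,A], [P,A,A]` -/
def VV (P A : U) : AddSubgroup U := AddSubgroup.closure {P, bk P A, bk (bk P A) A}

theorem bk_add_left (x y z : U) : bk (x + y) z = bk x z + bk y z := by
  unfold bk; noncomm_ring

theorem bk_neg_left (x z : U) : bk (-x) z = - bk x z := by
  unfold bk; noncomm_ring

theorem bk_zsmul_right (x z : U) (n : ℤ) : bk x (n • z) = n • bk x z := by
  unfold bk; rw [mul_smul_comm, smul_mul_assoc, smul_sub]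

section blk

variable {P A : U} (h : Blk P A)

include h

theorem Blk.two : ∀ f ∈ VV P A, ∀ g ∈ VV P A, f * g = 0 ∧ f * A * g = 0 ∧ f * A * A * g = 0 := by
  have r1 : ∀ t : U, A * (A * (A * t)) = 0 := fun t => by
    rw [← mul_assoc A A t, ← mul_assoc A (A * A) t, ← mul_assoc A A A, h.AAA, zero_mul]
  have r1' : A * (A * A) = 0 := by rw [← mul_assoc, h.AAA]
  have r2 : ∀ t : U, P * (P * t) = 0 := fun t => by rw [← mul_assoc, h.PP, zero_mul]
  have r3 : ∀ t : U, P * (A * (P * t)) = 0 := fun t => by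
    rw [← mul_assoc A P t, ← mul_assoc P (A * P) t, ← mul_assoc P A P, h.PAP, zero_mul]
  have r3' : P * (A * P) = 0 := by rw [← mul_assoc, h.PAP]
  have r4' : P * (A * (A * P)) = 0 := by
    rw [← mul_assoc A A P, ← mul_assoc P (A * A) P, ← mul_assoc P A A, h.PAAP]
  have r4 : ∀ t : U, P * (A * (A * (P * t))) = 0 := fun t => by
    have : P * (A * (A * (P * t))) = P * (A * (A * P)) * t := by simp only [mul_assoc]
    rw [this, r4', zero_mul]
  have base : ∀ f ∈ ({P, bk P A, bk (bk P A) A} : Set U), ∀ g ∈ ({P, bk P A, bk (bk P A) A} : Set U),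
      f * g = 0 ∧ f * A * g = 0 ∧ f * A * A * g = 0 := by
    intro f hf g hg
    simp only [Set.mem_insert_iff, Set.mem_singleton_iff] at hf hg
    rcases hf with rfl | rfl | rfl <;> rcases hg with rfl | rfl | rfl <;>
      simp only [bk, mul_sub, sub_mul, mul_assoc, r1, r1', r2, r3, r3', r4, r4', h.PP, mul_zero, zero_mul,
        sub_self, and_self]
  intro f hf g hg
  induction hf using AddSubgroup.closure_induction with
  | mem f hf =>
    induction hg using AddSubgroup.closure_induction with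
    | mem g hg => exact base f hf g hg
    | zero => simp
    | add x y _ _ hx hy =>
      refine ⟨?_, ?_, ?_⟩
      · rw [mul_add, hx.1, hy.1, add_zero]
      · rw [mul_add, hx.2.1, hy.2.1, add_zero]
      · rw [mul_add, hx.2.2, hy.2.2, add_zero]
    | neg x _ hx =>
      refine ⟨?_, ?_, ?_⟩
      · rw [mul_neg, hx.1, neg_zero]
      · rw [mul_neg, hx.2.1, neg_zero]
      · rw [mul_neg, hx.2.2, neg_zero]
  | zero => simp
  | add x y _ _ hx hy =>
    refine ⟨?_, ?_, ?_⟩
    · rw [add_mul, hx.1, hy.1, add_zero]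
    · rw [add_mul, add_mul, hx.2.1, hy.2.1, add_zero]
    · rw [add_mul, add_mul, add_mul, hx.2.2, hy.2.2, add_zero]
  | neg x _ hx =>
    refine ⟨?_, ?_, ?_⟩
    · rw [neg_mul, hx.1, neg_zero]
    · rw [neg_mul, neg_mul, hx.2.1, neg_zero]
    · rw [neg_mul, neg_mul, neg_mul, hx.2.2, neg_zero]

theorem Blk.three : ∀ f ∈ VV P A, A * f * A * A = 0 ∧ A * A * f * A = 0 := by
  have r1 : ∀ t : U, A * (A * (A * t)) = 0 := fun t => by
    rw [← mul_assoc A A t, ← mul_assoc A (A * A) t, ← mul_assoc A A A, h.AAA, zero_mul]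
  have r1' : A * (A * A) = 0 := by rw [← mul_assoc, h.AAA]
  have r2' : A * (P * (A * A)) = 0 := by
    rw [← mul_assoc P A A, ← mul_assoc A (P * A) A, ← mul_assoc A P A, h.APAA]
  have r2 : ∀ t : U, A * (P * (A * (A * t))) = 0 := fun t => by
    have : A * (P * (A * (A * t))) = A * (P * (A * A)) * t := by simp only [mul_assoc]
    rw [this, r2', zero_mul]
  have r3' : A * (A * (P * A)) = 0 := by
    rw [← mul_assoc A P A, ← mul_assoc A (A * P) A, ← mul_assoc A A P, h.AAPA]
  have r3 : ∀ t : U, A * (A * (P * (A * t))) = 0 := fun t => by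
    have : A * (A * (P * (A * t))) = A * (A * (P * A)) * t := by simp only [mul_assoc]
    rw [this, r3', zero_mul]
  intro f hf
  induction hf using AddSubgroup.closure_induction with
  | mem f hf =>
    simp only [Set.mem_insert_iff, Set.mem_singleton_iff] at hf
    rcases hf with rfl | rfl | rfl <;>
      simp only [bk, mul_sub, sub_mul, mul_assoc, r1, r1', r2, r2', r3, r3', mul_zero, zero_mul,
        sub_self, and_self]
  | zero => simp
  | add x y _ _ hx hy =>
    refine ⟨?_, ?_⟩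
    · rw [mul_add, add_mul, add_mul, hx.1, hy.1, add_zero]
    · rw [mul_add, add_mul, hx.2, hy.2, add_zero]
  | neg x _ hx =>
    refine ⟨?_, ?_⟩
    · rw [mul_neg, neg_mul, neg_mul, hx.1, neg_zero]
    · rw [mul_neg, neg_mul, hx.2, neg_zero]

theorem Blk.bk_mem : ∀ f ∈ VV P A, bk f A ∈ VV P A := by
  have r1' : A * (A * A) = 0 := by rw [← mul_assoc, h.AAA]
  have r1 : ∀ t : U, A * (A * (A * t)) = 0 := fun t => by
    rw [← mul_assoc A A t, ← mul_assoc A (A * A) t, ← mul_assoc A A A, h.AAA, zero_mul]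
  have r2' : A * (P * (A * A)) = 0 := by
    rw [← mul_assoc P A A, ← mul_assoc A (P * A) A, ← mul_assoc A P A, h.APAA]
  have r3' : A * (A * (P * A)) = 0 := by
    rw [← mul_assoc A P A, ← mul_assoc A (A * P) A, ← mul_assoc A A P, h.AAPA]
  intro f hf
  induction hf using AddSubgroup.closure_induction with
  | mem f hf =>
    simp only [Set.mem_insert_iff, Set.mem_singleton_iff] at hf
    rcases hf with rfl | rfl | rfl
    · exact AddSubgroup.subset_closure (by simp)
    · exact AddSubgroup.subset_closure (by simp)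
    · have : bk (bk (bk P A) A) A = 0 := by
        simp only [bk, mul_sub, sub_mul, mul_assoc, r1, r1', r2', r3', mul_zero, zero_mul, sub_self]
      rw [this]
      exact AddSubgroup.zero_mem _
  | zero => simp [bk, AddSubgroup.zero_mem]
  | add x y _ _ hx hy =>
    rw [bk_add_left]
    exact AddSubgroup.add_mem _ hx hy
  | neg x _ hx =>
    rw [bk_neg_left]
    exact AddSubgroup.neg_mem _ hx

end blk

/-- relations between an element `f` of `VV` and a multiple `Z` of `A` -/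
structure Rel (f Z : U) : Prop where
  ff : f * f = 0
  fZf : f * Z * f = 0
  fZZf : f * Z * Z * f = 0
  ZZZ : Z * Z * Z = 0
  ZfZZ : Z * f * Z * Z = 0
  ZZfZ : Z * Z * f * Z = 0

theorem Blk.rel {P A : U} (h : Blk P A) {f Z : U} (hf : f ∈ VV P A)
    (hZ : Z ∈ AddSubgroup.zmultiples A) : Rel f Z := by
  obtain ⟨n, rfl⟩ := AddSubgroup.mem_zmultiples_iff.1 hZ
  obtain ⟨h1, h2, h3⟩ := h.two f hf f hf
  obtain ⟨h4, h5⟩ := h.three f hf
  refine ⟨h1, ?_, ?_, ?_, ?_, ?_⟩
  · rw [mul_smul_comm, smul_mul_assoc, h2, smul_zero]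
  · simp only [mul_smul_comm, smul_mul_assoc, h3, smul_zero]
  · simp only [mul_smul_comm, smul_mul_assoc, h.AAA, smul_zero]
  · simp only [mul_smul_comm, smul_mul_assoc, h4, smul_zero]
  · simp only [mul_smul_comm, smul_mul_assoc, h5, smul_zero]

theorem Blk.bk_mem' {P A : U} (h : Blk P A) {f Z : U} (hf : f ∈ VV P A)
    (hZ : Z ∈ AddSubgroup.zmultiples A) : bk f Z ∈ VV P A := by
  obtain ⟨n, rfl⟩ := AddSubgroup.mem_zmultiples_iff.1 hZ
  rw [bk_zsmul_right]
  exact AddSubgroup.zsmul_mem _ (h.bk_mem f hf) n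

/-- truncated exponential -/
def Ex (X : U) : U := 1 + X + 3 * (X * X) + X * X * X

/-- truncated exponential of an element with vanishing cube -/
def E1 (Z : U) : U := 1 + Z + 3 * (Z * Z)

theorem five_mul (h5 : (5 : U) = 0) (t : U) : 5 * t = 0 := by rw [h5, zero_mul]

section relf

variable {f Z : U} (h : Rel f Z) (h5 : (5 : U) = 0)

include h

theorem Rel.rules :
    (∀ t : U, f * (f * t) = 0) ∧ (f * (Z * f) = 0) ∧ (∀ t : U, f * (Z * (f * t)) = 0) ∧
    (f * (Z * (Z * f)) = 0) ∧ (∀ t : U, f * (Z * (Z * (f * t))) = 0) ∧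
    (Z * (Z * Z) = 0) ∧ (∀ t : U, Z * (Z * (Z * t)) = 0) ∧
    (Z * (f * (Z * Z)) = 0) ∧ (∀ t : U, Z * (f * (Z * (Z * t))) = 0) ∧
    (Z * (Z * (f * Z)) = 0) ∧ (∀ t : U, Z * (Z * (f * (Z * t))) = 0) := by
  have a1 : f * (Z * f) = 0 := by rw [← mul_assoc, h.fZf]
  have a2 : f * (Z * (Z * f)) = 0 := by
    have := h.fZZf
    simp only [mul_assoc] at this
    exact this
  have a3 : Z * (Z * Z) = 0 := by rw [← mul_assoc, h.ZZZ]
  have a4 : Z * (f * (Z * Z)) = 0 := by
    have := h.ZfZZ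
    simp only [mul_assoc] at this
    exact this
  have a5 : Z * (Z * (f * Z)) = 0 := by
    have := h.ZZfZ
    simp only [mul_assoc] at this
    exact this
  refine ⟨fun t => by rw [← mul_assoc, h.ff, zero_mul], a1, ?_, a2, ?_, a3, ?_, a4, ?_, a5, ?_⟩
  · intro t
    have : f * (Z * (f * t)) = f * (Z * f) * t := by simp only [mul_assoc]
    rw [this, a1, zero_mul]
  · intro t
    have : f * (Z * (Z * (f * t))) = f * (Z * (Z * f)) * t := by simp only [mul_assoc]
    rw [this, a2, zero_mul]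
  · intro t
    have : Z * (Z * (Z * t)) = Z * (Z * Z) * t := by simp only [mul_assoc]
    rw [this, a3, zero_mul]
  · intro t
    have : Z * (f * (Z * (Z * t))) = Z * (f * (Z * Z)) * t := by simp only [mul_assoc]
    rw [this, a4, zero_mul]
  · intro t
    have : Z * (Z * (f * (Z * t))) = Z * (Z * (f * Z)) * t := by simp only [mul_assoc]
    rw [this, a5, zero_mul]

theorem Rel.bk3 : bk (bk (bk f Z) Z) Z = 0 := by
  obtain ⟨r1, r2, r3, r4, r5, r6, r7, r8, r9, r10, r11⟩ := h.rules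
  have e2 : bk (bk (bk f Z) Z) Z = f * (Z * (Z * Z)) - 3 * (Z * (f * (Z * Z))) +
      3 * (Z * (Z * (f * Z))) - Z * (Z * (Z * f)) := by
    unfold bk
    noncomm_ring
  rw [e2, r6, r7, r8, r10]
  simp

include h5

/-- `(1 + f + 2 f' + f'') e^Z = e^(Z + f)` -/
theorem Rel.exp_add : (1 + (f + 2 * bk f Z + bk (bk f Z) Z)) * E1 Z = Ex (Z + f) := by
  obtain ⟨r1, r2, r3, r4, r5, r6, r7, r8, r9, r10, r11⟩ := h.rules
  have e1 : (1 + (f + 2 * bk f Z + bk (bk f Z) Z)) * E1 Z =
      1 + Z + f + 3 * (Z * Z) + 3 * (Z * f) + 3 * (f * Z) + Z * (Z * f) + Z * (f * Z) +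
        f * (Z * Z) + 5 * (f * (Z * Z) - Z * f - Z * (f * Z)) := by
    unfold bk E1
    have e2 : (1 + (f + 2 * (f * Z - Z * f) + ((f * Z - Z * f) * Z - Z * (f * Z - Z * f)))) *
        (1 + Z + 3 * (Z * Z)) = 1 + Z + f + 3 * (Z * Z) + 3 * (Z * f) + 3 * (f * Z) + Z * (Z * f) +
        Z * (f * Z) + f * (Z * Z) + 5 * (f * (Z * Z) - Z * f - Z * (f * Z)) +
        (7 * (f * (Z * (Z * Z))) + (-8) * (Z * (f * (Z * Z))) + Z * (Z * (f * Z)) +
          3 * (f * (Z * (Z * (Z * Z)))) + (-6) * (Z * (f * (Z * (Z * Z)))) +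
          3 * (Z * (Z * (f * (Z * Z))))) := by
      noncomm_ring
    rw [e2]
    simp only [r6, r7, r8, r9, r10, r11, mul_zero, add_zero]
  have e3 : Ex (Z + f) = 1 + Z + f + 3 * (Z * Z) + 3 * (Z * f) + 3 * (f * Z) + Z * (Z * f) +
      Z * (f * Z) + f * (Z * Z) := by
    unfold Ex
    have e4 : 1 + (Z + f) + 3 * ((Z + f) * (Z + f)) + (Z + f) * (Z + f) * (Z + f) =
        1 + Z + f + 3 * (Z * Z) + 3 * (Z * f) + 3 * (f * Z) + Z * (Z * f) +
      Z * (f * Z) + f * (Z * Z) + (3 * (f * f) + Z * (Z * Z) + Z * (f * f) + f * (Z * f) +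
        f * (f * Z) + f * (f * f)) := by
      noncomm_ring
    rw [e4, h.ff]
    simp only [r1, r2, r6, h.ff, mul_zero, add_zero]
  rw [e1, e3, five_mul h5, add_zero]

/-- `e^Z (1 + f) = (1 + f - f' + 3 f'') e^Z` -/
theorem Rel.move : E1 Z * (1 + f) = (1 + (f - bk f Z + 3 * bk (bk f Z) Z)) * E1 Z := by
  obtain ⟨r1, r2, r3, r4, r5, r6, r7, r8, r9, r10, r11⟩ := h.rules
  have e1 : (1 + (f - bk f Z + 3 * bk (bk f Z) Z)) * E1 Z =
      E1 Z * (1 + f) + 5 * (f * (Z * Z) - Z * (f * Z)) := by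
    unfold bk E1
    have e2 : (1 + (f - (f * Z - Z * f) + 3 * ((f * Z - Z * f) * Z - Z * (f * Z - Z * f)))) *
        (1 + Z + 3 * (Z * Z)) = (1 + Z + 3 * (Z * Z)) * (1 + f) +
        5 * (f * (Z * Z) - Z * (f * Z)) +
        (0 * (f * (Z * (Z * Z))) + (-3) * (Z * (f * (Z * Z))) + 3 * (Z * (Z * (f * Z))) +
          9 * (f * (Z * (Z * (Z * Z)))) + (-18) * (Z * (f * (Z * (Z * Z)))) +
          9 * (Z * (Z * (f * (Z * Z))))) := by
      noncomm_ring
    rw [e2]
    simp only [r6, r7, r8, r9, r10, r11, mul_zero, add_zero]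
  rw [e1, five_mul h5, add_zero]

end relf

theorem E1_mul (h5 : (5 : U) = 0) {A Z W : U} (hA : A * A * A = 0)
    (hZ : Z ∈ AddSubgroup.zmultiples A) (hW : W ∈ AddSubgroup.zmultiples A) :
    E1 Z * E1 W = E1 (Z + W) := by
  obtain ⟨n, rfl⟩ := AddSubgroup.mem_zmultiples_iff.1 hZ
  obtain ⟨m, rfl⟩ := AddSubgroup.mem_zmultiples_iff.1 hW
  have hA' : A * (A * A) = 0 := by rw [← mul_assoc, hA]
  have hc : (m • A) * (n • A) = (n • A) * (m • A) := by
    simp only [mul_smul_comm, smul_mul_assoc, smul_smul]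
    rw [mul_comm]
  have z1 : n • A * (m • A * m • A) = 0 := by
    simp only [mul_smul_comm, smul_mul_assoc, hA', smul_zero]
  have z2 : n • A * (n • A * m • A) = 0 := by
    simp only [mul_smul_comm, smul_mul_assoc, hA', smul_zero]
  have z3 : n • A * (n • A * (m • A * m • A)) = 0 := by rw [z1, mul_zero]
  generalize n • A = Z at *
  generalize m • A = W at *
  have e1 : E1 Z * E1 W = 1 + Z + W + 3 * (Z * Z) + 3 * (W * W) + Z * W + 3 * (Z * (W * W)) +
      3 * (Z * (Z * W)) + 9 * (Z * (Z * (W * W))) := by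
    unfold E1; noncomm_ring
  have e2 : E1 (Z + W) = 1 + Z + W + 3 * (Z * Z) + 3 * (W * W) + Z * W + 5 * (Z * W) := by
    unfold E1
    have : 1 + (Z + W) + 3 * ((Z + W) * (Z + W)) =
        1 + Z + W + 3 * (Z * Z) + 3 * (W * W) + 3 * (Z * W) + 3 * (W * Z) := by noncomm_ring
    rw [this, hc]
    noncomm_ring
  rw [e1, e2, z1, z2, five_mul h5]
  simp

end Hex
end Pool.Agent.MP5c99ad
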