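import Pool.Agent.Lib.MP_5c99ad_al.NiceC
import Pool.Agent.Lib.MP_5c99ad_al.HexA

set_option autoImplicit false

/-!
An explicit finite group of exponent 5, part B: two commuting blocks and one more letter `x`; every
element `g` of the group generated by the exponentials satisfies `(g - 1) ^ 4 = 0`.
-/

namespace Pool.Agent.MP5c99ad
namespace Hex

variable {U : Type*} [Ring U]

theorem bk_lin (a b c Z : U) : bk (a - 2 * b + 3 * c) Z = bk a Z - 2 * bk b Z + 3 * bk c Z := by
  unfold bk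
  noncomm_ring

/-- the Lie elements of the two blocks -/
def LS (P A R Q : U) : Set U :=
  {P, A, bk P A, bk (bk P A) A, R, Q, bk R Q, bk (bk R Q) Q}

/-- the additive group spanned by the Lie elements of the two blocks -/
def LL (P A R Q : U) : AddSubgroup U := AddSubgroup.closure (LS P A R Q)

/-- all hypotheses -/
structure HData (P A R Q x : U) : Prop where
  five : (5 : U) = 0
  bA : Blk P A
  bB : Blk R Q
  PR : P * R = R * P
  PQ : P * Q = Q * P
  AR : A * R = R * A
  AQ : A * Q = Q * A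
  s4 : ∀ u1 ∈ LS P A R Q, ∀ u2 ∈ LS P A R Q, ∀ u3 ∈ LS P A R Q, ∀ u4 ∈ LS P A R Q,
    sym4 u1 u2 u3 u4 = 0
  s4x : ∀ u1 ∈ LS P A R Q, ∀ u2 ∈ LS P A R Q, ∀ u3 ∈ LS P A R Q, sym4 u1 u2 u3 x = 0
  xx : ∀ w ∈ Subring.closure ({P, A, R, Q} : Set U), x * w * x = 0

section data

variable {P A R Q x : U} (h : HData P A R Q x)

include h

theorem HData.s4x' : ∀ u1 ∈ LL P A R Q, ∀ u2 ∈ LL P A R Q, ∀ u3 ∈ LL P A R Q,
    sym4 u1 u2 u3 x = 0 := by
  intro u1 h1 u2 h2 u3 h3
  induction h1 using AddSubgroup.closure_induction with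
  | mem u1 h1 =>
    induction h2 using AddSubgroup.closure_induction with
    | mem u2 h2 =>
      induction h3 using AddSubgroup.closure_induction with
      | mem u3 h3 => exact h.s4x u1 h1 u2 h2 u3 h3
      | zero => exact sym4_zero3 _ _ _
      | add a b _ _ ha hb => rw [sym4_add3, ha, hb, add_zero]
      | neg a _ ha => rw [sym4_neg3, ha, neg_zero]
    | zero => exact sym4_zero2 _ _ _
    | add a b _ _ ha hb => rw [sym4_add2, ha, hb, add_zero]
    | neg a _ ha => rw [sym4_neg2, ha, neg_zero]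
  | zero => exact sym4_zero1 _ _ _
  | add a b _ _ ha hb => rw [sym4_add1, ha, hb, add_zero]
  | neg a _ ha => rw [sym4_neg1, ha, neg_zero]

theorem HData.s4' : ∀ u1 ∈ LL P A R Q, ∀ u2 ∈ LL P A R Q, ∀ u3 ∈ LL P A R Q,
    ∀ u4 ∈ LL P A R Q, sym4 u1 u2 u3 u4 = 0 := by
  intro u1 h1 u2 h2 u3 h3 u4 h4
  induction h1 using AddSubgroup.closure_induction with
  | mem u1 h1 =>
    induction h2 using AddSubgroup.closure_induction with
    | mem u2 h2 =>
      induction h3 using AddSubgroup.closure_induction with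
      | mem u3 h3 =>
        induction h4 using AddSubgroup.closure_induction with
        | mem u4 h4 => exact h.s4 u1 h1 u2 h2 u3 h3 u4 h4
        | zero => exact sym4_zero4 _ _ _
        | add a b _ _ ha hb => rw [sym4_add4, ha, hb, add_zero]
        | neg a _ ha => rw [sym4_neg4, ha, neg_zero]
      | zero => exact sym4_zero3 _ _ _
      | add a b _ _ ha hb => rw [sym4_add3, ha, hb, add_zero]
      | neg a _ ha => rw [sym4_neg3, ha, neg_zero]
    | zero => exact sym4_zero2 _ _ _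
    | add a b _ _ ha hb => rw [sym4_add2, ha, hb, add_zero]
    | neg a _ ha => rw [sym4_neg2, ha, neg_zero]
  | zero => exact sym4_zero1 _ _ _
  | add a b _ _ ha hb => rw [sym4_add1, ha, hb, add_zero]
  | neg a _ ha => rw [sym4_neg1, ha, neg_zero]

theorem HData.pow4 : ∀ X ∈ LL P A R Q, X * X * X * X = 0 := by
  intro X hX
  have h1 := h.s4' X hX X hX X hX X hX
  have h2 : sym4 X X X X = 5 * (5 * (X * X * X * X)) - X * X * X * X := by
    unfold sym4; noncomm_ring
  rw [h2, five_mul h.five, zero_sub, neg_eq_zero] at h1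
  exact h1

theorem HData.h3 : ∀ X ∈ LL P A R Q,
    X * X * X * x + X * X * x * X + X * x * X * X + x * X * X * X = 0 := by
  intro X hX
  have h1 := h.s4x' X hX X hX X hX
  have h2 : sym4 X X X x = 5 * (X * X * X * x + X * X * x * X + X * x * X * X + x * X * X * X) +
      (X * X * X * x + X * X * x * X + X * x * X * X + x * X * X * X) := by
    unfold sym4; noncomm_ring
  rw [h2, five_mul h.five, zero_add] at h1
  exact h1

omit h in
theorem VV_le_LL : VV P A ≤ LL P A R Q := by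
  unfold VV LL
  refine AddSubgroup.closure_mono ?_
  intro y hy
  simp only [Set.mem_insert_iff, Set.mem_singleton_iff, LS] at hy ⊢
  tauto

omit h in
theorem VV_le_LL' : VV R Q ≤ LL P A R Q := by
  unfold VV LL
  refine AddSubgroup.closure_mono ?_
  intro y hy
  simp only [Set.mem_insert_iff, Set.mem_singleton_iff, LS] at hy ⊢
  tauto

omit h in
theorem ZZ_le_LL : AddSubgroup.zmultiples A ≤ LL P A R Q := by
  rw [AddSubgroup.zmultiples_le]
  exact AddSubgroup.subset_closure (by simp [LS])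

omit h in
theorem ZZ_le_LL' : AddSubgroup.zmultiples Q ≤ LL P A R Q := by
  rw [AddSubgroup.zmultiples_le]
  exact AddSubgroup.subset_closure (by simp [LS])

/-- elements of the first block (with all multiples of `A`) -/
def CA (P A : U) : AddSubgroup U := VV P A ⊔ AddSubgroup.zmultiples A

omit h in
theorem commute_of_gen {S T : Set U} (hST : ∀ s ∈ S, ∀ t ∈ T, s * t = t * s) :
    ∀ s ∈ Subring.closure S, ∀ t ∈ Subring.closure T, s * t = t * s := by
  intro s hs t ht
  have h1 : ∀ s ∈ S, ∀ t ∈ Subring.closure T, s * t = t * s := by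
    intro s hs t ht
    induction ht using Subring.closure_induction with
    | mem t ht => exact hST s hs t ht
    | zero => simp
    | one => simp
    | add a b _ _ ha hb => rw [mul_add, add_mul, ha, hb]
    | neg a _ ha => rw [mul_neg, neg_mul, ha]
    | mul a b _ _ ha hb => rw [← mul_assoc, ha, mul_assoc, hb, mul_assoc]
  induction hs using Subring.closure_induction with
  | mem s hs => exact h1 s hs t ht
  | zero => simp
  | one => simp
  | add a b _ _ ha hb => rw [mul_add, add_mul, ha, hb]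
  | neg a _ ha => rw [mul_neg, neg_mul, ha]
  | mul a b _ _ ha hb => rw [mul_assoc, hb, ← mul_assoc, ha, mul_assoc]

theorem HData.comm : ∀ s ∈ Subring.closure ({P, A} : Set U),
    ∀ t ∈ Subring.closure ({R, Q} : Set U), s * t = t * s := by
  refine commute_of_gen ?_
  intro s hs t ht
  simp only [Set.mem_insert_iff, Set.mem_singleton_iff] at hs ht
  rcases hs with rfl | rfl <;> rcases ht with rfl | rfl
  · exact h.PR
  · exact h.PQ
  · exact h.AR
  · exact h.AQ

omit h in
theorem VV_le_sub : ∀ f ∈ VV P A, f ∈ Subring.closure ({P, A} : Set U) := by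
  intro f hf
  have hP : P ∈ Subring.closure ({P, A} : Set U) := Subring.subset_closure (by simp)
  have hA : A ∈ Subring.closure ({P, A} : Set U) := Subring.subset_closure (by simp)
  have hC : bk P A ∈ Subring.closure ({P, A} : Set U) :=
    Subring.sub_mem _ (Subring.mul_mem _ hP hA) (Subring.mul_mem _ hA hP)
  have hD : bk (bk P A) A ∈ Subring.closure ({P, A} : Set U) :=
    Subring.sub_mem _ (Subring.mul_mem _ hC hA) (Subring.mul_mem _ hA hC)
  induction hf using AddSubgroup.closure_induction with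
  | mem f hf =>
    simp only [Set.mem_insert_iff, Set.mem_singleton_iff] at hf
    rcases hf with rfl | rfl | rfl
    · exact hP
    · exact hC
    · exact hD
  | zero => exact Subring.zero_mem _
  | add a b _ _ ha hb => exact Subring.add_mem _ ha hb
  | neg a _ ha => exact Subring.neg_mem _ ha

omit h in
theorem ZZ_le_sub : ∀ Z ∈ AddSubgroup.zmultiples A, Z ∈ Subring.closure ({P, A} : Set U) := by
  intro Z hZ
  obtain ⟨n, rfl⟩ := AddSubgroup.mem_zmultiples_iff.1 hZ
  exact Subring.zsmul_mem _ (Subring.subset_closure (by simp)) n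

omit h in
theorem three_mem (S : Subring U) : (3 : U) ∈ S := by
  have : (3 : U) = 1 + 1 + 1 := by norm_num
  rw [this]
  exact Subring.add_mem _ (Subring.add_mem _ (Subring.one_mem _) (Subring.one_mem _))
    (Subring.one_mem _)

omit h in
theorem E1_mem (S : Subring U) {Z : U} (hZ : Z ∈ S) : E1 Z ∈ S := by
  unfold E1
  exact Subring.add_mem _ (Subring.add_mem _ (Subring.one_mem _) hZ)
    (Subring.mul_mem _ (three_mem S) (Subring.mul_mem _ hZ hZ))

/-- the products `(1 + f) e^Z (1 + f') e^Z'` -/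
def SS (P A R Q : U) : Set U :=
  {k | ∃ f ∈ VV P A, ∃ Z ∈ AddSubgroup.zmultiples A, ∃ f' ∈ VV R Q,
    ∃ Z' ∈ AddSubgroup.zmultiples Q, k = (1 + f) * E1 Z * ((1 + f') * E1 Z')}

omit h in
theorem block_mul {P A : U} (h : Blk P A) (h5 : (5 : U) = 0) {f f1 Z Z1 : U} (hf : f ∈ VV P A)
    (hf1 : f1 ∈ VV P A) (hZ : Z ∈ AddSubgroup.zmultiples A)
    (hZ1 : Z1 ∈ AddSubgroup.zmultiples A) :
    ∃ f2 ∈ VV P A, (1 + f) * E1 Z * ((1 + f1) * E1 Z1) = (1 + f2) * E1 (Z + Z1) := by
  have hm1 := h.bk_mem' hf1 hZ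
  have hm2 := h.bk_mem' hm1 hZ
  have hf1' : f1 - bk f1 Z + 3 * bk (bk f1 Z) Z ∈ VV P A := by
    have h3 : (3 : U) * bk (bk f1 Z) Z = (3 : ℕ) • bk (bk f1 Z) Z := by
      rw [nsmul_eq_mul]
      norm_num
    rw [h3]
    exact AddSubgroup.add_mem _ (AddSubgroup.sub_mem _ hf1 hm1) (AddSubgroup.nsmul_mem _ hm2 3)
  refine ⟨f + (f1 - bk f1 Z + 3 * bk (bk f1 Z) Z), AddSubgroup.add_mem _ hf hf1', ?_⟩
  have e1 := (h.rel hf1 hZ).move h5
  have e2 := E1_mul h5 h.AAA hZ hZ1
  have e3 := (h.two f hf _ hf1').1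
  calc (1 + f) * E1 Z * ((1 + f1) * E1 Z1) = (1 + f) * (E1 Z * (1 + f1)) * E1 Z1 := by
        simp only [mul_assoc]
    _ = (1 + f) * ((1 + (f1 - bk f1 Z + 3 * bk (bk f1 Z) Z)) * E1 Z) * E1 Z1 := by rw [e1]
    _ = (1 + f) * (1 + (f1 - bk f1 Z + 3 * bk (bk f1 Z) Z)) * (E1 Z * E1 Z1) := by
        simp only [mul_assoc]
    _ = (1 + (f + (f1 - bk f1 Z + 3 * bk (bk f1 Z) Z)) +
        f * (f1 - bk f1 Z + 3 * bk (bk f1 Z) Z)) * E1 (Z + Z1) := by
        rw [e2]
        congr 1
        noncomm_ring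
    _ = _ := by rw [e3, add_zero]

theorem HData.SS_mul : ∀ k ∈ SS P A R Q, ∀ k1 ∈ SS P A R Q, k * k1 ∈ SS P A R Q := by
  rintro k ⟨f, hf, Z, hZ, f', hf', Z', hZ', rfl⟩ k1 ⟨g, hg, W, hW, g', hg', W', hW', rfl⟩
  obtain ⟨f2, hf2, e2⟩ := block_mul h.bA h.five hf hg hZ hW
  obtain ⟨f3, hf3, e3⟩ := block_mul h.bB h.five hf' hg' hZ' hW'
  have hc : ((1 + f') * E1 Z') * ((1 + g) * E1 W) = ((1 + g) * E1 W) * ((1 + f') * E1 Z') := by
    refine (h.comm _ ?_ _ ?_).symm
    · exact Subring.mul_mem _ (Subring.add_mem _ (Subring.one_mem _) (VV_le_sub g hg))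
        (E1_mem _ (ZZ_le_sub W hW))
    · exact Subring.mul_mem _ (Subring.add_mem _ (Subring.one_mem _) (VV_le_sub f' hf'))
        (E1_mem _ (ZZ_le_sub Z' hZ'))
  refine ⟨f2, hf2, Z + W, AddSubgroup.add_mem _ hZ hW, f3, hf3, Z' + W',
    AddSubgroup.add_mem _ hZ' hW', ?_⟩
  rw [← e2, ← e3]
  calc (1 + f) * E1 Z * ((1 + f') * E1 Z') * ((1 + g) * E1 W * ((1 + g') * E1 W')) =
      (1 + f) * E1 Z * (((1 + f') * E1 Z') * ((1 + g) * E1 W)) * ((1 + g') * E1 W') := by
        simp only [mul_assoc]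
    _ = _ := by
        rw [hc]
        simp only [mul_assoc]

omit h in
theorem SS_one : (1 : U) ∈ SS P A R Q :=
  ⟨0, AddSubgroup.zero_mem _, 0, AddSubgroup.zero_mem _, 0, AddSubgroup.zero_mem _, 0,
    AddSubgroup.zero_mem _, by simp [E1]⟩

omit h in
theorem SS_left {f Z : U} (hf : f ∈ VV P A) (hZ : Z ∈ AddSubgroup.zmultiples A) :
    (1 + f) * E1 Z ∈ SS P A R Q :=
  ⟨f, hf, Z, hZ, 0, AddSubgroup.zero_mem _, 0, AddSubgroup.zero_mem _, by simp [E1]⟩

omit h in
theorem SS_right {f Z : U} (hf : f ∈ VV R Q) (hZ : Z ∈ AddSubgroup.zmultiples Q) :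
    (1 + f) * E1 Z ∈ SS P A R Q :=
  ⟨0, AddSubgroup.zero_mem _, 0, AddSubgroup.zero_mem _, f, hf, Z, hZ, by simp [E1]⟩

omit h in
theorem SS_sub : ∀ k ∈ SS P A R Q, k ∈ Subring.closure ({P, A, R, Q} : Set U) := by
  rintro k ⟨f, hf, Z, hZ, f', hf', Z', hZ', rfl⟩
  have h1 : Subring.closure ({P, A} : Set U) ≤ Subring.closure ({P, A, R, Q} : Set U) :=
    Subring.closure_mono (by
      intro y hy
      simp only [Set.mem_insert_iff, Set.mem_singleton_iff] at hy ⊢
      tauto)
  have h2 : Subring.closure ({R, Q} : Set U) ≤ Subring.closure ({P, A, R, Q} : Set U) :=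
    Subring.closure_mono (by
      intro y hy
      simp only [Set.mem_insert_iff, Set.mem_singleton_iff] at hy ⊢
      tauto)
  refine Subring.mul_mem _ (h1 ?_) (h2 ?_)
  · exact Subring.mul_mem _ (Subring.add_mem _ (Subring.one_mem _) (VV_le_sub f hf))
      (E1_mem _ (ZZ_le_sub Z hZ))
  · exact Subring.mul_mem _ (Subring.add_mem _ (Subring.one_mem _) (VV_le_sub f' hf'))
      (E1_mem _ (ZZ_le_sub Z' hZ'))

omit h in
theorem block_inv {P A : U} (h : Blk P A) (h5 : (5 : U) = 0) {f Z : U} (hf : f ∈ VV P A)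
    (hZ : Z ∈ AddSubgroup.zmultiples A) :
    (1 + f) * E1 Z * ((1 + 0) * E1 (-Z) * ((1 + -f) * E1 0)) = 1 := by
  have hZ' : -Z ∈ AddSubgroup.zmultiples A := AddSubgroup.neg_mem _ hZ
  have e1 := E1_mul h5 h.AAA hZ hZ'
  have e0 : E1 (0 : U) = 1 := by simp [E1]
  rw [add_neg_cancel, e0] at e1
  have e3 := (h.two f hf f hf).1
  calc (1 + f) * E1 Z * ((1 + 0) * E1 (-Z) * ((1 + -f) * E1 0)) =
      (1 + f) * (E1 Z * E1 (-Z)) * (1 + -f) := by
        rw [e0]
        simp only [mul_assoc, add_zero, one_mul, mul_one]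
    _ = 1 - f * f := by
        rw [e1]
        noncomm_ring
    _ = 1 := by rw [e3, sub_zero]

theorem HData.SS_inv : ∀ k ∈ SS P A R Q, ∃ k' ∈ SS P A R Q, k * k' = 1 := by
  rintro k ⟨f, hf, Z, hZ, f', hf', Z', hZ', rfl⟩
  have z0 : (0 : U) ∈ VV P A := AddSubgroup.zero_mem _
  have z1 : (0 : U) ∈ VV R Q := AddSubgroup.zero_mem _
  have z2 : (0 : U) ∈ AddSubgroup.zmultiples A := AddSubgroup.zero_mem _
  have z3 : (0 : U) ∈ AddSubgroup.zmultiples Q := AddSubgroup.zero_mem _
  refine ⟨(((1 + 0) * E1 (-Z')) * ((1 + -f') * E1 0)) * (((1 + 0) * E1 (-Z)) * ((1 + -f) * E1 0)),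
    ?_, ?_⟩
  · refine h.SS_mul _ (h.SS_mul _ (SS_right z1 (AddSubgroup.neg_mem _ hZ')) _
      (SS_right (AddSubgroup.neg_mem _ hf') z3)) _ (h.SS_mul _ (SS_left z0
      (AddSubgroup.neg_mem _ hZ)) _ (SS_left (AddSubgroup.neg_mem _ hf) z2))
  · have e1 := block_inv h.bA h.five hf hZ
    have e2 := block_inv h.bB h.five hf' hZ'
    generalize (1 + f) * E1 Z = a at *
    generalize (1 + f') * E1 Z' = b at *
    generalize (1 + 0) * E1 (-Z) * ((1 + -f) * E1 0) = c at *
    generalize (1 + 0) * E1 (-Z') * ((1 + -f') * E1 0) = d at *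
    calc a * b * (d * c) = a * (b * d) * c := by simp only [mul_assoc]
      _ = 1 := by rw [e2, mul_one, e1]

/-- every element of `SS` is the exponential of a Lie element -/
theorem HData.SS_exp : ∀ k ∈ SS P A R Q, ∃ X ∈ LL P A R Q, k = Ex X := by
  have key : ∀ {P A : U}, Blk P A → ∀ f ∈ VV P A, ∀ Z ∈ AddSubgroup.zmultiples A,
      ∃ g ∈ VV P A, (1 + f) * E1 Z = Ex (Z + g) := by
    intro P A hb f hf Z hZ
    have m1 := hb.bk_mem' hf hZ
    have m2 := hb.bk_mem' m1 hZ
    have e3 : (3 : U) * bk (bk f Z) Z = (3 : ℕ) • bk (bk f Z) Z := by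
      rw [nsmul_eq_mul]
      norm_num
    have e2 : (2 : U) * bk f Z = (2 : ℕ) • bk f Z := by
      rw [nsmul_eq_mul]
      norm_num
    have hg : f - 2 * bk f Z + 3 * bk (bk f Z) Z ∈ VV P A := by
      rw [e3, e2]
      exact AddSubgroup.add_mem _ (AddSubgroup.sub_mem _ hf (AddSubgroup.nsmul_mem _ m1 2))
        (AddSubgroup.nsmul_mem _ m2 3)
    refine ⟨_, hg, ?_⟩
    rw [← (hb.rel hg hZ).exp_add h.five]
    congr 2
    have b3 := (hb.rel hf hZ).bk3
    have c1 : bk (f - 2 * bk f Z + 3 * bk (bk f Z) Z) Z =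
        bk f Z - 2 * bk (bk f Z) Z + 3 * bk (bk (bk f Z) Z) Z := bk_lin _ _ _ _
    have c2 : bk (bk f Z - 2 * bk (bk f Z) Z + 3 * bk (bk (bk f Z) Z) Z) Z =
        bk (bk f Z) Z - 2 * bk (bk (bk f Z) Z) Z + 3 * bk (bk (bk (bk f Z) Z) Z) Z :=
      bk_lin _ _ _ _
    have c3 : bk (0 : U) Z = 0 := by simp [bk]
    rw [c1, c2, b3, c3]
    noncomm_ring
  rintro k ⟨f, hf, Z, hZ, f', hf', Z', hZ', rfl⟩
  obtain ⟨g, hg, e1⟩ := key h.bA f hf Z hZ
  obtain ⟨g', hg', e2⟩ := key h.bB f' hf' Z' hZ'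
  have hX : Z + g ∈ LL P A R Q := AddSubgroup.add_mem _ (ZZ_le_LL hZ) (VV_le_LL hg)
  have hY : Z' + g' ∈ LL P A R Q := AddSubgroup.add_mem _ (ZZ_le_LL' hZ') (VV_le_LL' hg')
  have hc : (Z + g) * (Z' + g') = (Z' + g') * (Z + g) :=
    h.comm _ (Subring.add_mem _ (ZZ_le_sub Z hZ) (VV_le_sub g hg)) _
      (Subring.add_mem _ (ZZ_le_sub Z' hZ') (VV_le_sub g' hg'))
  rw [e1, e2]
  generalize Z + g = X at *
  generalize Z' + g' = Y at *
  refine ⟨X + Y, AddSubgroup.add_mem _ hX hY, ?_⟩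
  have h5 := h.five
  have hc' : Y * X = X * Y := hc.symm
  have hcr : ∀ t : U, Y * (X * t) = X * (Y * t) := fun t => by
    rw [← mul_assoc, hc', mul_assoc]
  have q1 : X * (X * (X * Y)) = 0 := by
    have h1 := h.s4' X hX X hX X hX Y hY
    have h2 : sym4 X X X Y = 24 * (X * (X * (X * Y))) := by
      unfold sym4
      simp only [mul_assoc, hc', hcr]
      noncomm_ring
    have h3 : (24 : U) * (X * (X * (X * Y))) = 5 * (5 * (X * (X * (X * Y)))) - X * (X * (X * Y)) := by
      noncomm_ring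
    rw [h2, h3, five_mul h5, zero_sub, neg_eq_zero] at h1
    exact h1
  have q2 : X * (X * (Y * Y)) = 0 := by
    have h1 := h.s4' X hX X hX Y hY Y hY
    have h2 : sym4 X X Y Y = 24 * (X * (X * (Y * Y))) := by
      unfold sym4
      simp only [mul_assoc, hc', hcr]
      noncomm_ring
    have h3 : (24 : U) * (X * (X * (Y * Y))) = 5 * (5 * (X * (X * (Y * Y)))) - X * (X * (Y * Y)) := by
      noncomm_ring
    rw [h2, h3, five_mul h5, zero_sub, neg_eq_zero] at h1
    exact h1
  have q3 : X * (Y * (Y * Y)) = 0 := by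
    have h1 := h.s4' X hX Y hY Y hY Y hY
    have h2 : sym4 X Y Y Y = 24 * (X * (Y * (Y * Y))) := by
      unfold sym4
      simp only [mul_assoc, hc', hcr]
      noncomm_ring
    have h3 : (24 : U) * (X * (Y * (Y * Y))) = 5 * (5 * (X * (Y * (Y * Y)))) - X * (Y * (Y * Y)) := by
      noncomm_ring
    rw [h2, h3, five_mul h5, zero_sub, neg_eq_zero] at h1
    exact h1
  have e3 : Ex X * Ex Y = 1 + X + Y + 3 * (X * X) + 3 * (Y * Y) + X * Y + X * (X * X) +
      Y * (Y * Y) + 3 * (X * (X * Y)) + 3 * (X * (Y * Y)) + (X * (X * (X * Y)) +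
      9 * (X * (X * (Y * Y))) + X * (Y * (Y * Y)) + 3 * (X * (X * (X * Y)) * Y) +
      3 * (X * (X * (Y * Y)) * Y) + X * (X * (X * Y)) * Y * Y) := by
    unfold Ex
    noncomm_ring
  have e4 : Ex (X + Y) = 1 + X + Y + 3 * (X * X) + 3 * (Y * Y) + X * Y + X * (X * X) +
      Y * (Y * Y) + 3 * (X * (X * Y)) + 3 * (X * (Y * Y)) + 5 * (X * Y) := by
    unfold Ex
    simp only [mul_add, add_mul, mul_assoc, hc', hcr]
    noncomm_ring
  rw [e3, e4, q1, q2, q3, five_mul h5]
  simp

/-- the relation with `x` for the exponential of a Lie element -/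
theorem HData.hx3 : ∀ k ∈ SS P A R Q,
    k * x * ((k - 1) * (k - 1) * (k - 1)) + (k - 1) * k * x * ((k - 1) * (k - 1)) +
      (k - 1) * (k - 1) * k * x * (k - 1) + (k - 1) * (k - 1) * (k - 1) * k * x = 0 := by
  intro k hk
  obtain ⟨X, hX, rfl⟩ := h.SS_exp k hk
  have h4 := h.pow4 X hX
  have h3 := h.h3 X hX
  have h5 := h.five
  have h4' : X * (X * (X * X)) = 0 := by
    have := h4
    simp only [mul_assoc] at this
    exact this
  have h4t : ∀ t : U, X * (X * (X * (X * t))) = 0 := fun t => by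
    have : X * (X * (X * (X * t))) = X * (X * (X * X)) * t := by simp only [mul_assoc]
    rw [this, h4', zero_mul]
  have y1 : Ex X - 1 = X + 3 * (X * X) + X * X * X := by
    unfold Ex
    noncomm_ring
  have y2 : (Ex X - 1) * (Ex X - 1) = X * X + X * X * X := by
    rw [y1]
    have : (X + 3 * (X * X) + X * X * X) * (X + 3 * (X * X) + X * X * X) =
        X * X + X * X * X + 5 * (X * X * X) + (11 * (X * (X * (X * X))) +
        6 * (X * (X * (X * (X * X)))) + X * (X * (X * (X * (X * X))))) := by noncomm_ring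
    rw [this, five_mul h5]
    simp only [h4t, h4', mul_zero, add_zero]
  have y3 : (Ex X - 1) * (Ex X - 1) * (Ex X - 1) = X * X * X := by
    rw [y2, y1]
    have : (X * X + X * X * X) * (X + 3 * (X * X) + X * X * X) =
        X * X * X + (4 * (X * (X * (X * X))) + 4 * (X * (X * (X * (X * X)))) +
          X * (X * (X * (X * (X * X))))) := by noncomm_ring
    rw [this]
    simp only [h4t, h4', mul_zero, add_zero]
  have k1 : (Ex X - 1) * Ex X = X + 4 * (X * X) + 2 * (X * X * X) := by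
    rw [y1]
    unfold Ex
    have : (X + 3 * (X * X) + X * X * X) * (1 + X + 3 * (X * X) + X * X * X) =
        X + 4 * (X * X) + 2 * (X * X * X) + 5 * (X * X * X) + (10 * (X * (X * (X * X))) +
        6 * (X * (X * (X * (X * X)))) + X * (X * (X * (X * (X * X)))) + X * (X * (X * X))) := by
      noncomm_ring
    rw [this, five_mul h5]
    simp only [h4t, h4', mul_zero, add_zero]
  have k2 : (Ex X - 1) * (Ex X - 1) * Ex X = X * X + 2 * (X * X * X) := by
    rw [y2]
    unfold Ex
    have : (X * X + X * X * X) * (1 + X + 3 * (X * X) + X * X * X) =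
        X * X + 2 * (X * X * X) + (4 * (X * (X * (X * X))) + 4 * (X * (X * (X * (X * X)))) +
          X * (X * (X * (X * (X * X))))) := by noncomm_ring
    rw [this]
    simp only [h4t, h4', mul_zero, add_zero]
  have k3 : (Ex X - 1) * (Ex X - 1) * (Ex X - 1) * Ex X = X * X * X := by
    rw [y3]
    unfold Ex
    have : X * X * X * (1 + X + 3 * (X * X) + X * X * X) =
        X * X * X + (X * (X * (X * X)) + 3 * (X * (X * (X * (X * X)))) +
          X * (X * (X * (X * (X * X))))) := by noncomm_ring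
    rw [this]
    simp only [h4t, h4', mul_zero, add_zero]
  rw [k3, k2, k1, y3, y2, y1]
  -- consequences of `h3`
  have d1 : X * (X * (X * (x * X))) + X * (X * (x * (X * X))) + X * (x * (X * (X * X))) = 0 := by
    have := congrArg (fun t => X * t) h3
    simp only [mul_add, mul_assoc, h4t, zero_add, mul_zero] at this
    exact this
  have d2 : X * (X * (X * (x * (X * X)))) + X * (X * (x * (X * (X * X)))) = 0 := by
    have := congrArg (fun t => X * t) d1
    simp only [mul_add, mul_assoc, h4t, zero_add, mul_zero] at this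
    exact this
  have d3 : X * (X * (X * (x * (X * (X * X))))) = 0 := by
    have := congrArg (fun t => X * t) d2
    simp only [mul_add, mul_assoc, h4t, zero_add, mul_zero] at this
    exact this
  have e : Ex X * x * (X * X * X) + (X + 4 * (X * X) + 2 * (X * X * X)) * x * (X * X + X * X * X) +
      (X * X + 2 * (X * X * X)) * x * (X + 3 * (X * X) + X * X * X) + X * X * X * x =
      (X * X * X * x + X * X * x * X + X * x * X * X + x * X * X * X) +
      2 * (X * (X * (X * (x * X))) + X * (X * (x * (X * X))) + X * (x * (X * (X * X)))) +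
      8 * (X * (X * (X * (x * (X * X)))) + X * (X * (x * (X * (X * X))))) +
      5 * (X * (X * (x * (X * X)))) + 5 * (X * (X * (X * (x * (X * (X * X)))))) := by
    unfold Ex
    noncomm_ring
  rw [e, h3, d1, d2, five_mul h5, five_mul h5]
  simp

theorem HData.SS_pow4 : ∀ k ∈ SS P A R Q, (k - 1) * (k - 1) * (k - 1) * (k - 1) = 0 := by
  intro k hk
  obtain ⟨X, hX, rfl⟩ := h.SS_exp k hk
  have h4 := h.pow4 X hX
  have h4' : X * (X * (X * X)) = 0 := by
    have := h4
    simp only [mul_assoc] at this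
    exact this
  have y1 : Ex X - 1 = X * (1 + 3 * X + X * X) := by
    unfold Ex
    noncomm_ring
  have hc : (1 + 3 * X + X * X) * X = X * (1 + 3 * X + X * X) := by noncomm_ring
  rw [y1]
  generalize 1 + 3 * X + X * X = u at *
  have hc' : ∀ t : U, u * (X * t) = X * (u * t) := fun t => by
    rw [← mul_assoc, hc, mul_assoc]
  simp only [mul_assoc, hc']
  have : X * (X * (X * (X * (u * (u * (u * u)))))) = X * (X * (X * X)) * (u * (u * (u * u))) := by
    simp only [mul_assoc]
  rw [this, h4', zero_mul]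

end data

end Hex
end Pool.Agent.MP5c99ad
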