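import Pool.Agent.Lib.MP_5c99ad_al.HexB

set_option autoImplicit false

/-!
An explicit finite group of exponent 5, part C: the group generated by the exponentials.
-/

namespace Pool.Agent.MP5c99ad
namespace Hex

variable {U : Type*} [Ring U]

/-- the five generators of the operator group -/
structure Gens (P A R Q x : U) where
  uP : Uˣ
  uA : Uˣ
  uR : Uˣ
  uQ : Uˣ
  uX : Uˣ
  hP : (uP : U) = 1 + P
  hA : (uA : U) = E1 A
  hR : (uR : U) = 1 + R
  hQ : (uQ : U) = E1 Q
  hX : (uX : U) = 1 + x

section grp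

variable {P A R Q x : U} (h : HData P A R Q x) (G : Gens P A R Q x)

/-- the group of the two blocks -/
def Gens.K0 : Subgroup Uˣ := Subgroup.closure {G.uP, G.uA, G.uR, G.uQ}

/-- the operator group -/
def Gens.K : Subgroup Uˣ := Subgroup.closure {G.uP, G.uA, G.uR, G.uQ, G.uX}

/-- the span of the conjugates of `x` -/
def Gens.N : AddSubgroup U :=
  AddSubgroup.closure {y | ∃ k ∈ G.K0, y = ((k⁻¹ : Uˣ) : U) * x * (k : U)}

include h

theorem Gens.K0_SS : ∀ k ∈ G.K0, (k : U) ∈ SS P A R Q := by
  intro k hk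
  unfold Gens.K0 at hk
  induction hk using Subgroup.closure_induction with
  | mem k hk =>
    simp only [Set.mem_insert_iff, Set.mem_singleton_iff] at hk
    have z0 : ∀ y : U, (0 : U) ∈ AddSubgroup.zmultiples y := fun y => AddSubgroup.zero_mem _
    have z1 : ∀ a b : U, (0 : U) ∈ VV a b := fun a b => AddSubgroup.zero_mem _
    rcases hk with rfl | rfl | rfl | rfl
    · rw [G.hP]
      have hm : P ∈ VV P A := AddSubgroup.subset_closure (by simp)
      have := SS_left (R := R) (Q := Q) hm (z0 A)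
      simpa [E1] using this
    · rw [G.hA]
      have := SS_left (R := R) (Q := Q) (z1 P A) (AddSubgroup.mem_zmultiples A)
      simpa using this
    · rw [G.hR]
      have hm : R ∈ VV R Q := AddSubgroup.subset_closure (by simp)
      have := SS_right (P := P) (A := A) hm (z0 Q)
      simpa [E1] using this
    · rw [G.hQ]
      have := SS_right (P := P) (A := A) (z1 R Q) (AddSubgroup.mem_zmultiples Q)
      simpa using this
  | one => simpa using SS_one (P := P) (A := A) (R := R) (Q := Q)
  | mul a b _ _ ha hb =>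
    rw [Units.val_mul]
    exact h.SS_mul _ ha _ hb
  | inv a _ ha =>
    obtain ⟨k', hk', e⟩ := h.SS_inv _ ha
    rw [Units.inv_eq_of_mul_eq_one_right e]
    exact hk'

theorem Gens.K0_sub : ∀ k ∈ G.K0, (k : U) ∈ Subring.closure ({P, A, R, Q} : Set U) :=
  fun k hk => SS_sub _ (G.K0_SS h k hk)

theorem Gens.NN : ∀ n ∈ G.N, ∀ n' ∈ G.N, ∀ w ∈ Subring.closure ({P, A, R, Q} : Set U),
    n * w * n' = 0 := by
  intro n hn n' hn'
  unfold Gens.N at hn hn'
  induction hn using AddSubgroup.closure_induction with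
  | mem n hn =>
    obtain ⟨k, hk, rfl⟩ := hn
    induction hn' using AddSubgroup.closure_induction with
    | mem n' hn' =>
      obtain ⟨k', hk', rfl⟩ := hn'
      intro w hw
      have h1 := h.xx ((k : U) * w * ((k'⁻¹ : Uˣ) : U)) (Subring.mul_mem _ (Subring.mul_mem _
        (G.K0_sub h k hk) hw) (G.K0_sub h _ (Subgroup.inv_mem _ hk')))
      calc ((k⁻¹ : Uˣ) : U) * x * (k : U) * w * (((k'⁻¹ : Uˣ) : U) * x * (k' : U)) =
          ((k⁻¹ : Uˣ) : U) * (x * ((k : U) * w * ((k'⁻¹ : Uˣ) : U)) * x) * (k' : U) := by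
            simp only [mul_assoc]
        _ = 0 := by rw [h1, mul_zero, zero_mul]
    | zero => intro w _; rw [mul_zero]
    | add a b _ _ ha hb => intro w hw; rw [mul_add, ha w hw, hb w hw, add_zero]
    | neg a _ ha => intro w hw; rw [mul_neg, ha w hw, neg_zero]
  | zero => intro w _; rw [zero_mul, zero_mul]
  | add a b _ _ ha hb => intro w hw; rw [add_mul, add_mul, ha w hw, hb w hw, add_zero]
  | neg a _ ha => intro w hw; rw [neg_mul, neg_mul, ha w hw, neg_zero]

omit h in
theorem Gens.N_conj : ∀ n ∈ G.N, ∀ k ∈ G.K0, ((k⁻¹ : Uˣ) : U) * n * (k : U) ∈ G.N := by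
  intro n hn k hk
  unfold Gens.N at hn ⊢
  induction hn using AddSubgroup.closure_induction with
  | mem n hn =>
    obtain ⟨k1, hk1, rfl⟩ := hn
    refine AddSubgroup.subset_closure ⟨k1 * k, Subgroup.mul_mem _ hk1 hk, ?_⟩
    rw [mul_inv_rev, Units.val_mul, Units.val_mul]
    simp only [mul_assoc]
  | zero => rw [mul_zero, zero_mul]; exact AddSubgroup.zero_mem _
  | add a b _ _ ha hb => rw [mul_add, add_mul]; exact AddSubgroup.add_mem _ ha hb
  | neg a _ ha => rw [mul_neg, neg_mul]; exact AddSubgroup.neg_mem _ ha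

theorem Gens.K_form : ∀ g ∈ G.K, ∃ k ∈ G.K0, ∃ n ∈ G.N, (g : U) = (k : U) * (1 + n) := by
  intro g hg
  unfold Gens.K at hg
  have hx0 : x ∈ G.N := AddSubgroup.subset_closure ⟨1, Subgroup.one_mem _, by simp⟩
  induction hg using Subgroup.closure_induction with
  | mem g hg =>
    simp only [Set.mem_insert_iff, Set.mem_singleton_iff] at hg
    rcases hg with rfl | rfl | rfl | rfl | rfl
    · exact ⟨G.uP, Subgroup.subset_closure (by simp), 0, AddSubgroup.zero_mem _, by simp⟩
    · exact ⟨G.uA, Subgroup.subset_closure (by simp), 0, AddSubgroup.zero_mem _, by simp⟩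
    · exact ⟨G.uR, Subgroup.subset_closure (by simp), 0, AddSubgroup.zero_mem _, by simp⟩
    · exact ⟨G.uQ, Subgroup.subset_closure (by simp), 0, AddSubgroup.zero_mem _, by simp⟩
    · exact ⟨1, Subgroup.one_mem _, x, hx0, by rw [G.hX, Units.val_one, one_mul]⟩
  | one => exact ⟨1, Subgroup.one_mem _, 0, AddSubgroup.zero_mem _, by simp⟩
  | mul a b _ _ ha hb =>
    obtain ⟨k, hk, n, hn, ea⟩ := ha
    obtain ⟨k', hk', n', hn', eb⟩ := hb
    refine ⟨k * k', Subgroup.mul_mem _ hk hk', ((k'⁻¹ : Uˣ) : U) * n * (k' : U) + n',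
      AddSubgroup.add_mem _ (G.N_conj n hn k' hk') hn', ?_⟩
    rw [Units.val_mul, Units.val_mul, ea, eb]
    have h0 := G.NN h _ (G.N_conj n hn k' hk') n' hn' 1 (Subring.one_mem _)
    rw [mul_one] at h0
    have h1 : ∀ t : U, (k' : U) * (((k'⁻¹ : Uˣ) : U) * t) = t := fun t => by
      rw [← mul_assoc, Units.mul_inv, one_mul]
    have e1 : (k : U) * (1 + n) * ((k' : U) * (1 + n')) = (k : U) * (k' : U) *
        (1 + (((k'⁻¹ : Uˣ) : U) * n * (k' : U) + n') + ((k'⁻¹ : Uˣ) : U) * n * (k' : U) * n') := by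
      simp only [mul_add, add_mul, mul_one, mul_assoc, h1]
      abel
    rw [e1, h0, add_zero]
  | inv a _ ha =>
    obtain ⟨k, hk, n, hn, ea⟩ := ha
    have hn' : (k : U) * n * ((k⁻¹ : Uˣ) : U) ∈ G.N := by
      have := G.N_conj n hn k⁻¹ (Subgroup.inv_mem _ hk)
      rwa [inv_inv] at this
    refine ⟨k⁻¹, Subgroup.inv_mem _ hk, -((k : U) * n * ((k⁻¹ : Uˣ) : U)),
      AddSubgroup.neg_mem _ hn', ?_⟩
    have h0 := G.NN h n hn n hn 1 (Subring.one_mem _)
    rw [mul_one] at h0
    have h1 : ∀ t : U, (k : U) * (((k⁻¹ : Uˣ) : U) * t) = t := fun t => by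
      rw [← mul_assoc, Units.mul_inv, one_mul]
    have h2 : ∀ t : U, ((k⁻¹ : Uˣ) : U) * ((k : U) * t) = t := fun t => by
      rw [← mul_assoc, Units.inv_mul, one_mul]
    have e : (a : U) * (((k⁻¹ : Uˣ) : U) * (1 + -((k : U) * n * ((k⁻¹ : Uˣ) : U)))) = 1 := by
      rw [ea]
      have h0' : ∀ t : U, n * (n * t) = 0 := fun t => by rw [← mul_assoc, h0, zero_mul]
      simp only [mul_add, add_mul, mul_one, mul_neg, mul_assoc, h1, h2, h0', Units.mul_inv]
      simp
    rw [Units.inv_eq_of_mul_eq_one_right e]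

theorem Gens.T_zero : ∀ k ∈ G.K0, ∀ n ∈ G.N,
    (k : U) * n * (((k : U) - 1) * ((k : U) - 1) * ((k : U) - 1)) +
    ((k : U) - 1) * (k : U) * n * (((k : U) - 1) * ((k : U) - 1)) +
    ((k : U) - 1) * ((k : U) - 1) * (k : U) * n * ((k : U) - 1) +
    ((k : U) - 1) * ((k : U) - 1) * ((k : U) - 1) * (k : U) * n = 0 := by
  intro k hk n hn
  unfold Gens.N at hn
  induction hn using AddSubgroup.closure_induction with
  | mem n hn =>
    obtain ⟨u, hu, rfl⟩ := hn
    have h1 := h.hx3 _ (G.K0_SS h (u * k * u⁻¹)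
      (Subgroup.mul_mem _ (Subgroup.mul_mem _ hu hk) (Subgroup.inv_mem _ hu)))
    have hab : (u : U) * ((u⁻¹ : Uˣ) : U) = 1 := Units.mul_inv u
    have hba : ((u⁻¹ : Uˣ) : U) * (u : U) = 1 := Units.inv_mul u
    rw [Units.val_mul, Units.val_mul] at h1
    generalize (u : U) = a at *
    generalize ((u⁻¹ : Uˣ) : U) = b at *
    generalize (k : U) = c at *
    have hk1 : c = b * (a * c * b) * a := by
      calc c = (b * a) * c * (b * a) := by rw [hba, one_mul, mul_one]
        _ = _ := by simp only [mul_assoc]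
    have hk2 : c - 1 = b * (a * c * b - 1) * a := by
      rw [mul_sub, sub_mul, ← hk1, mul_one, hba]
    generalize a * c * b = d at *
    rw [hk2, hk1]
    have hab' : ∀ t : U, a * (b * t) = t := fun t => by rw [← mul_assoc, hab, one_mul]
    generalize hd : d - 1 = y at *
    have h2 := congrArg (fun t => b * t * a) h1
    simp only [mul_zero, zero_mul, mul_add, add_mul, mul_assoc] at h2
    simp only [mul_assoc, hab']
    exact h2
  | zero => simp
  | add a b _ _ ha hb =>
    have e : ∀ (c y n m : U), c * (n + m) * (y * y * y) + y * c * (n + m) * (y * y) +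
        y * y * c * (n + m) * y + y * y * y * c * (n + m) =
        (c * n * (y * y * y) + y * c * n * (y * y) + y * y * c * n * y + y * y * y * c * n) +
        (c * m * (y * y * y) + y * c * m * (y * y) + y * y * c * m * y + y * y * y * c * m) := by
      intro c y n m
      noncomm_ring
    rw [e, ha, hb, add_zero]
  | neg a _ ha =>
    have e : ∀ (c y n : U), c * (-n) * (y * y * y) + y * c * (-n) * (y * y) +
        y * y * c * (-n) * y + y * y * y * c * (-n) =
        -(c * n * (y * y * y) + y * c * n * (y * y) + y * y * c * n * y + y * y * y * c * n) := by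
      intro c y n
      noncomm_ring
    rw [e, ha, neg_zero]

/-- **every element of the operator group satisfies `(g - 1) ^ 4 = 0`** -/
theorem Gens.K_pow4 : ∀ g ∈ G.K, ((g : U) - 1) * ((g : U) - 1) * ((g : U) - 1) * ((g : U) - 1) = 0 := by
  intro g hg
  obtain ⟨k, hk, n, hn, e⟩ := G.K_form h g hg
  have hT := G.T_zero h k hk n hn
  have h4 := h.SS_pow4 _ (G.K0_SS h k hk)
  have hkB := G.K0_sub h k hk
  have hyB : (k : U) - 1 ∈ Subring.closure ({P, A, R, Q} : Set U) :=
    Subring.sub_mem _ hkB (Subring.one_mem _)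
  have n1 := G.NN h n hn n hn _ hkB
  have n2 := G.NN h n hn n hn _ (Subring.mul_mem _ hyB hkB)
  have n3 := G.NN h n hn n hn _ (Subring.mul_mem _ (Subring.mul_mem _ hyB hyB) hkB)
  rw [e]
  generalize (k : U) = c at *
  have hz : c * (1 + n) - 1 = (c - 1) + c * n := by noncomm_ring
  rw [hz]
  generalize hy : c - 1 = y at *
  have m1 : n * (c * n) = 0 := by rw [← mul_assoc, n1]
  have m1' : ∀ t : U, n * (c * (n * t)) = 0 := fun t => by
    have : n * (c * (n * t)) = n * (c * n) * t := by simp only [mul_assoc]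
    rw [this, m1, zero_mul]
  have m2 : n * (y * (c * n)) = 0 := by
    have := n2
    simp only [mul_assoc] at this
    exact this
  have m2' : ∀ t : U, n * (y * (c * (n * t))) = 0 := fun t => by
    have : n * (y * (c * (n * t))) = n * (y * (c * n)) * t := by simp only [mul_assoc]
    rw [this, m2, zero_mul]
  have m3 : n * (y * (y * (c * n))) = 0 := by
    have := n3
    simp only [mul_assoc] at this
    exact this
  have e2 : (y + c * n) * (y + c * n) * (y + c * n) * (y + c * n) = y * y * y * y +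
      (c * n * (y * y * y) + y * c * n * (y * y) + y * y * c * n * y + y * y * y * c * n) := by
    simp only [mul_add, add_mul, mul_assoc, m1, m1', m2, m2', m3, mul_zero, zero_mul, add_zero,
      zero_add]
    abel
  rw [e2, h4, hT, add_zero]

end grp

end Hex
end Pool.Agent.MP5c99ad
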