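import Pool.Agent.Lib.MP_5c99ad_al.HexD

set_option autoImplicit false

/-! The finite check, by kernel computation. -/

namespace Pool.Agent.MP5c99ad
namespace Hex

set_option maxRecDepth 100000 in
theorem chkAll_true : chkAll = true := by decide +kernel

set_option maxRecDepth 100000 in
theorem value_true : evN [] [] (fmul (fb 7) (fmul (fb 8) (fb 3))) % 5 = 1 := by decide +kernel

end Hex
end Pool.Agent.MP5c99ad
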