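import Mathlib

set_option autoImplicit false

/-!
An explicit finite group of exponent 5, part D: words, formal combinations, the functional and the
finite check of its relations.
-/

namespace Pool.Agent.MP5c99ad
namespace Hex

/-- words in the letters `p, a, r, q, x` (numbered `0, ..., 4`) -/
abbrev Wd := List (Fin 5)

/-- formal integer combinations of words -/
abbrev Fm := List (ℤ × Wd)

/-- product; the word of the right factor is read first -/
def fmul (F G : Fm) : Fm := F.flatMap fun s => G.map fun t => (s.1 * t.1, t.2 ++ s.2)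

def fneg (F : Fm) : Fm := F.map fun s => (-s.1, s.2)

def fbk (F G : Fm) : Fm := fmul F G ++ fneg (fmul G F)

def flet (l : Fin 5) : Fm := [(1, [l])]

/-- the nine Lie elements -/
def fb (i : ℕ) : Fm :=
  match i with
  | 0 => flet 0
  | 1 => flet 1
  | 2 => fbk (flet 0) (flet 1)
  | 3 => fbk (fbk (flet 0) (flet 1)) (flet 1)
  | 4 => flet 2
  | 5 => flet 3
  | 6 => fbk (flet 2) (flet 3)
  | 7 => fbk (fbk (flet 2) (flet 3)) (flet 3)
  | _ => flet 4

def fsym4 (a b c d : Fm) : Fm :=
  fmul (fmul (fmul a b) c) d ++ fmul (fmul (fmul a b) d) c ++ fmul (fmul (fmul a c) b) d ++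
  fmul (fmul (fmul a c) d) b ++ fmul (fmul (fmul a d) b) c ++ fmul (fmul (fmul a d) c) b ++
  fmul (fmul (fmul b a) c) d ++ fmul (fmul (fmul b a) d) c ++ fmul (fmul (fmul b c) a) d ++
  fmul (fmul (fmul b c) d) a ++ fmul (fmul (fmul b d) a) c ++ fmul (fmul (fmul b d) c) a ++
  fmul (fmul (fmul c a) b) d ++ fmul (fmul (fmul c a) d) b ++ fmul (fmul (fmul c b) a) d ++
  fmul (fmul (fmul c b) d) a ++ fmul (fmul (fmul c d) a) b ++ fmul (fmul (fmul c d) b) a ++
  fmul (fmul (fmul d a) b) c ++ fmul (fmul (fmul d a) c) b ++ fmul (fmul (fmul d b) a) c ++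
  fmul (fmul (fmul d b) c) a ++ fmul (fmul (fmul d c) a) b ++ fmul (fmul (fmul d c) b) a

/-- code of the part of a word in the letters `p, a, x` -/
def cdA : Wd → ℕ
  | [] => 0
  | l :: w =>
    match l with
    | 0 => 1 + 4 * cdA w
    | 1 => 2 + 4 * cdA w
    | 4 => 3 + 4 * cdA w
    | _ => cdA w

/-- code of the part of a word in the letters `r, q, x` -/
def cdB : Wd → ℕ
  | [] => 0
  | l :: w =>
    match l with
    | 2 => 1 + 4 * cdB w
    | 3 => 2 + 4 * cdB w
    | 4 => 3 + 4 * cdB w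
    | _ => cdB w

def look {α : Type} (n : ℕ) (d : α) : List (ℕ × α) → α
  | [] => d
  | e :: l => if e.1 = n then e.2 else look n d l

/-- the table of the functional -/
def tab : List (ℕ × List (ℕ × ℕ)) :=
  [(167, [(158, 2), (182, 2), (230, 4), (110, 3), (122, 3), (218, 1)]),
   (173, [(158, 1), (182, 4), (230, 2), (110, 4), (122, 1), (218, 3)]),
   (185, [(167, 3), (155, 4), (158, 2), (182, 1), (230, 2), (107, 3), (110, 3), (122, 4), (218, 3)]),
   (233, [(167, 4), (155, 1), (158, 2), (110, 3)]),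
   (155, [(158, 3), (182, 3), (230, 1), (110, 2), (122, 2), (218, 4)]),
   (158, [(158, 4), (182, 1), (230, 3), (110, 1), (122, 4), (218, 2)]),
   (182, [(167, 2), (155, 1), (158, 3), (182, 4), (230, 3), (107, 2), (110, 2), (122, 1), (218, 2)]),
   (230, [(155, 4), (158, 1), (107, 1), (110, 4)]),
   (218, [(167, 1), (158, 2), (107, 4), (110, 3)])]

def gN (w : Wd) : ℕ := look (cdB w) 0 (look (cdA w) [] tab)

/-- integer evaluation -/
def evN (u v : Wd) : Fm → ℤ
  | [] => 0
  | t :: F => t.1 * (gN (u ++ t.2 ++ v) : ℤ) + evN u v F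

/-- contents of the Lie elements -/
def cs (i : ℕ) (l : ℕ) : ℕ :=
  match i, l with
  | 0, 0 => 1
  | 1, 1 => 1
  | 2, 0 => 1
  | 2, 1 => 1
  | 3, 0 => 1
  | 3, 1 => 2
  | 4, 2 => 1
  | 5, 3 => 1
  | 6, 2 => 1
  | 6, 3 => 1
  | 7, 2 => 1
  | 7, 3 => 2
  | 8, 4 => 1
  | _, _ => 0

/-- all words of length `n` with given numbers of letters -/
def words : ℕ → ℕ → ℕ → ℕ → ℕ → ℕ → List Wd
  | 0, _, _, _, _, _ => [[]]
  | n + 1, a, b, c, d, e =>
    (match a with
      | 0 => []
      | a' + 1 => (words n a' b c d e).map (fun w => (0 : Fin 5) :: w)) ++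
    (match b with
      | 0 => []
      | b' + 1 => (words n a b' c d e).map (fun w => (1 : Fin 5) :: w)) ++
    (match c with
      | 0 => []
      | c' + 1 => (words n a b c' d e).map (fun w => (2 : Fin 5) :: w)) ++
    (match d with
      | 0 => []
      | d' + 1 => (words n a b c d' e).map (fun w => (3 : Fin 5) :: w)) ++
    (match e with
      | 0 => []
      | e' + 1 => (words n a b c d e').map (fun w => (4 : Fin 5) :: w))

def chkW (S : Fm) (w : Wd) : Bool :=
  (List.range (w.length + 1)).all fun i => evN (w.take i) (w.drop i) S % 5 == 0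

def chk (a b c d : ℕ) : Bool :=
  let t : ℕ → ℕ := fun l => cs a l + cs b l + cs c l + cs d l
  if t 0 ≤ 1 ∧ t 1 ≤ 2 ∧ t 2 ≤ 1 ∧ t 3 ≤ 2 ∧ t 4 ≤ 1 then
    (words (7 - (t 0 + t 1 + t 2 + t 3 + t 4)) (1 - t 0) (2 - t 1) (1 - t 2) (2 - t 3)
      (1 - t 4)).all (chkW (fsym4 (fb a) (fb b) (fb c) (fb d)))
  else true

/-- the check over all sorted quadruples -/
def chkAll : Bool :=
  (List.range 9).all fun a => (List.range 9).all fun b => (List.range 9).all fun c =>
    (List.range 9).all fun d => if a ≤ b ∧ b ≤ c ∧ c ≤ d then chk a b c d else true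

end Hex
end Pool.Agent.MP5c99ad
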