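import Pool.Agent.Lib.MP_5c99ad_al.HexC
import Pool.Agent.Lib.MP_5c99ad_al.HexCheck

set_option autoImplicit false

/-!
An explicit finite group of exponent 5, part E: the module of functions on words.
-/

namespace Pool.Agent.MP5c99ad
namespace Hex

/-- evaluation of a formal combination -/
def ev (φ : Wd → ZMod 5) (u v : Wd) : Fm → ZMod 5
  | [] => 0
  | t :: F => (t.1 : ZMod 5) * φ (u ++ t.2 ++ v) + ev φ u v F

theorem ev_add (φ ψ : Wd → ZMod 5) (u v : Wd) (F : Fm) :
    ev (φ + ψ) u v F = ev φ u v F + ev ψ u v F := by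
  induction F with
  | nil => simp [ev]
  | cons t F ih =>
    simp only [ev, ih, Pi.add_apply]
    ring

theorem ev_smul (c : ZMod 5) (φ : Wd → ZMod 5) (u v : Wd) (F : Fm) :
    ev (c • φ) u v F = c * ev φ u v F := by
  induction F with
  | nil => simp [ev]
  | cons t F ih =>
    simp only [ev, ih, Pi.smul_apply, smul_eq_mul]
    ring

theorem ev_zero (u v : Wd) (F : Fm) : ev (0 : Wd → ZMod 5) u v F = 0 := by
  induction F with
  | nil => simp [ev]
  | cons t F ih => simp [ev, ih]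

theorem ev_shift (l : Fin 5) (φ : Wd → ZMod 5) (u v : Wd) (F : Fm) :
    ev (fun w => φ (l :: w)) u v F = ev φ (l :: u) v F := by
  induction F with
  | nil => simp [ev]
  | cons t F ih => simp only [ev, ih, List.cons_append]

/-- words of content at most `p a a r q q x` -/
def Fits (w : Wd) : Prop :=
  w.count 0 ≤ 1 ∧ w.count 1 ≤ 2 ∧ w.count 2 ≤ 1 ∧ w.count 3 ≤ 2 ∧ w.count 4 ≤ 1

theorem Fits.of_cons {l : Fin 5} {w : Wd} (h : Fits (l :: w)) : Fits w := by
  unfold Fits at *
  simp only [List.count_cons] at h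
  refine ⟨?_, ?_, ?_, ?_, ?_⟩ <;> omega

/-- the relations of a function on words -/
def Good (φ : Wd → ZMod 5) : Prop :=
  (∀ w, φ w ≠ 0 → Fits w) ∧
  (∀ (u v : Wd) (l l' : Fin 5), (l = 0 ∨ l = 1) → (l' = 2 ∨ l' = 3) →
    φ (u ++ l :: l' :: v) = φ (u ++ l' :: l :: v)) ∧
  (∀ a b c d : ℕ, a ≤ b → b ≤ c → c ≤ d → d < 9 → ∀ u v : Wd,
    ev φ u v (fsym4 (fb a) (fb b) (fb c) (fb d)) = 0)

/-- the module -/
def MM : Submodule (ZMod 5) (Wd → ZMod 5) where
  carrier := {φ | Good φ}
  zero_mem' := by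
    refine ⟨fun w h => absurd rfl h, fun _ _ _ _ _ _ => rfl, fun a b c d _ _ _ _ u v => ?_⟩
    exact ev_zero u v _
  add_mem' := by
    rintro φ ψ ⟨h1, h2, h3⟩ ⟨k1, k2, k3⟩
    refine ⟨fun w h => ?_, fun u v l l' hl hl' => ?_, fun a b c d hab hbc hcd hd u v => ?_⟩
    · by_cases h0 : φ w = 0
      · refine k1 w fun h0' => h ?_
        rw [Pi.add_apply, h0, h0', add_zero]
      · exact h1 w h0
    · rw [Pi.add_apply, Pi.add_apply, h2 u v l l' hl hl', k2 u v l l' hl hl']
    · rw [ev_add, h3 a b c d hab hbc hcd hd u v, k3 a b c d hab hbc hcd hd u v, add_zero]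
  smul_mem' := by
    rintro c φ ⟨h1, h2, h3⟩
    refine ⟨fun w h => ?_, fun u v l l' hl hl' => ?_, fun a b c d hab hbc hcd hd u v => ?_⟩
    · refine h1 w fun h0 => h ?_
      rw [Pi.smul_apply, h0, smul_zero]
    · rw [Pi.smul_apply, Pi.smul_apply, h2 u v l l' hl hl']
    · rw [ev_smul, h3 a b c d hab hbc hcd hd u v, mul_zero]

theorem mem_MM {φ : Wd → ZMod 5} : φ ∈ MM ↔ Good φ := Iff.rfl

theorem shift_mem (l : Fin 5) {φ : Wd → ZMod 5} (h : φ ∈ MM) : (fun w => φ (l :: w)) ∈ MM := by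
  obtain ⟨h1, h2, h3⟩ := h
  refine ⟨fun w hw => (h1 _ hw).of_cons, fun u v a b ha hb => ?_,
    fun a b c d hab hbc hcd hd u v => ?_⟩
  · exact h2 (l :: u) v a b ha hb
  · rw [ev_shift]
    exact h3 a b c d hab hbc hcd hd (l :: u) v

/-- the endomorphism ring -/
abbrev UU := Module.End (ZMod 5) MM

/-- the letters act by shifts -/
def op (l : Fin 5) : UU where
  toFun φ := ⟨fun w => φ.1 (l :: w), shift_mem l φ.2⟩
  map_add' _ _ := rfl
  map_smul' _ _ := rfl

theorem op_apply (l : Fin 5) (φ : MM) (w : Wd) : (op l φ).1 w = φ.1 (l :: w) := rfl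

/-- words act; the first letter acts first -/
def opW : Wd → UU
  | [] => 1
  | l :: w => opW w * op l

theorem opW_apply (w : Wd) : ∀ (φ : MM) (v : Wd), (opW w φ).1 v = φ.1 (w ++ v) := by
  induction w with
  | nil => intro φ v; rfl
  | cons l w ih =>
    intro φ v
    show (opW w (op l φ)).1 v = φ.1 (l :: (w ++ v))
    rw [ih, op_apply]

theorem opW_append (w w' : Wd) : opW (w ++ w') = opW w' * opW w := by
  induction w with
  | nil => simp [opW]
  | cons l w ih =>
    show opW (w ++ w') * op l = opW w' * (opW w * op l)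
    rw [ih, mul_assoc]

/-- formal combinations act -/
def opF : Fm → UU
  | [] => 0
  | t :: F => t.1 • opW t.2 + opF F

theorem opF_append (F G : Fm) : opF (F ++ G) = opF F + opF G := by
  induction F with
  | nil => simp [opF]
  | cons t F ih =>
    show t.1 • opW t.2 + opF (F ++ G) = t.1 • opW t.2 + opF F + opF G
    rw [ih, add_assoc]

theorem opF_fneg (F : Fm) : opF (fneg F) = - opF F := by
  induction F with
  | nil => simp [opF, fneg]
  | cons t F ih =>
    show (-t.1) • opW t.2 + opF (fneg F) = -(t.1 • opW t.2 + opF F)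
    rw [ih, neg_smul, neg_add]

theorem opF_map (s : ℤ × Wd) (G : Fm) :
    opF (G.map fun t => (s.1 * t.1, t.2 ++ s.2)) = (s.1 • opW s.2) * opF G := by
  induction G with
  | nil => simp [opF]
  | cons t G ih =>
    show (s.1 * t.1) • opW (t.2 ++ s.2) + opF (G.map fun t => (s.1 * t.1, t.2 ++ s.2)) =
      (s.1 • opW s.2) * (t.1 • opW t.2 + opF G)
    rw [ih, opW_append, mul_add, smul_mul_smul_comm]

theorem opF_fmul (F G : Fm) : opF (fmul F G) = opF F * opF G := by
  induction F with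
  | nil => simp [opF, fmul]
  | cons s F ih =>
    show opF ((G.map fun t => (s.1 * t.1, t.2 ++ s.2)) ++ fmul F G) =
      (s.1 • opW s.2 + opF F) * opF G
    rw [opF_append, opF_map, ih, add_mul]

theorem opF_fbk (F G : Fm) : opF (fbk F G) = bk (opF F) (opF G) := by
  rw [fbk, opF_append, opF_fneg, opF_fmul, opF_fmul, bk, sub_eq_add_neg]

theorem opF_flet (l : Fin 5) : opF (flet l) = op l := by
  show (1 : ℤ) • (opW [] * op l) + 0 = op l
  rw [one_smul, add_zero]
  exact one_mul _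

theorem opF_fsym4 (a b c d : Fm) :
    opF (fsym4 a b c d) = sym4 (opF a) (opF b) (opF c) (opF d) := by
  unfold fsym4 sym4
  iterate 23 rw [opF_append]
  iterate 72 rw [opF_fmul]

theorem opF_apply (F : Fm) (φ : MM) (v : Wd) : (opF F φ).1 v = ev φ.1 [] v F := by
  induction F with
  | nil => simp [opF, ev]
  | cons t F ih =>
    show (t.1 • (opW t.2 φ).1 + (opF F φ).1) v = _
    rw [Pi.add_apply, ih, Pi.smul_apply, opW_apply]
    simp [ev, zsmul_eq_mul]

theorem sym4_sw12 {U : Type*} [Ring U] (a b c d : U) : sym4 b a c d = sym4 a b c d := by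
  unfold sym4; abel
theorem sym4_sw23 {U : Type*} [Ring U] (a b c d : U) : sym4 a c b d = sym4 a b c d := by
  unfold sym4; abel
theorem sym4_sw34 {U : Type*} [Ring U] (a b c d : U) : sym4 a b d c = sym4 a b c d := by
  unfold sym4; abel

theorem sort4 {F : ℕ → ℕ → ℕ → ℕ → Prop} (s12 : ∀ a b c d, F a b c d → F b a c d)
    (s23 : ∀ a b c d, F a b c d → F a c b d) (s34 : ∀ a b c d, F a b c d → F a b d c)
    (hs : ∀ a b c d, a ≤ b → b ≤ c → c ≤ d → F a b c d) : ∀ a b c d, F a b c d := by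
  have h1 : ∀ a b c d, b ≤ c → c ≤ d → F a b c d := by
    intro a b c d hbc hcd
    rcases le_total a b with h | h
    · exact hs a b c d h hbc hcd
    rcases le_total a c with h' | h'
    · exact s12 _ _ _ _ (hs b a c d h h' hcd)
    rcases le_total a d with h'' | h''
    · exact s12 _ _ _ _ (s23 _ _ _ _ (hs b c a d hbc h' h''))
    · exact s12 _ _ _ _ (s23 _ _ _ _ (s34 _ _ _ _ (hs b c d a hbc hcd h'')))
  have h2 : ∀ a b c d, c ≤ d → F a b c d := by
    intro a b c d hcd
    rcases le_total b c with h | h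
    · exact h1 a b c d h hcd
    rcases le_total b d with h' | h'
    · exact s23 _ _ _ _ (h1 a c b d h h')
    · exact s23 _ _ _ _ (s34 _ _ _ _ (h1 a c d b hcd h'))
  intro a b c d
  rcases le_total c d with h | h
  · exact h2 a b c d h
  · exact s34 _ _ _ _ (h2 a b d c h)

theorem rel_sorted (a b c d : ℕ) (hab : a ≤ b) (hbc : b ≤ c) (hcd : c ≤ d) (hd : d < 9) :
    sym4 (opF (fb a)) (opF (fb b)) (opF (fb c)) (opF (fb d)) = 0 := by
  rw [← opF_fsym4]
  refine LinearMap.ext fun φ => Subtype.ext (funext fun v => ?_)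
  rw [opF_apply, φ.2.2.2 a b c d hab hbc hcd hd [] v]
  rfl

theorem rel_all : ∀ a b c d : ℕ, a < 9 → b < 9 → c < 9 → d < 9 →
    sym4 (opF (fb a)) (opF (fb b)) (opF (fb c)) (opF (fb d)) = 0 := by
  refine sort4 ?_ ?_ ?_ ?_
  · intro a b c d h h1 h2 h3 h4
    rw [sym4_sw12]
    exact h h2 h1 h3 h4
  · intro a b c d h h1 h2 h3 h4
    rw [sym4_sw23]
    exact h h1 h3 h2 h4
  · intro a b c d h h1 h2 h3 h4
    rw [sym4_sw34]
    exact h h1 h2 h4 h3
  · intro a b c d hab hbc hcd _ _ _ hd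
    exact rel_sorted a b c d hab hbc hcd hd

theorem fb_zero : opF (fb 0) = op 0 := opF_flet 0
theorem fb_one : opF (fb 1) = op 1 := opF_flet 1
theorem fb_two : opF (fb 2) = bk (op 0) (op 1) := by
  show opF (fbk (flet 0) (flet 1)) = _
  rw [opF_fbk, opF_flet, opF_flet]
theorem fb_three : opF (fb 3) = bk (bk (op 0) (op 1)) (op 1) := by
  show opF (fbk (fbk (flet 0) (flet 1)) (flet 1)) = _
  rw [opF_fbk, opF_fbk, opF_flet, opF_flet]
theorem fb_four : opF (fb 4) = op 2 := opF_flet 2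
theorem fb_five : opF (fb 5) = op 3 := opF_flet 3
theorem fb_six : opF (fb 6) = bk (op 2) (op 3) := by
  show opF (fbk (flet 2) (flet 3)) = _
  rw [opF_fbk, opF_flet, opF_flet]
theorem fb_seven : opF (fb 7) = bk (bk (op 2) (op 3)) (op 3) := by
  show opF (fbk (fbk (flet 2) (flet 3)) (flet 3)) = _
  rw [opF_fbk, opF_fbk, opF_flet, opF_flet]
theorem fb_eight : opF (fb 8) = op 4 := opF_flet 4

theorem LS_form : ∀ u ∈ LS (op 0) (op 1) (op 2) (op 3), ∃ i < 8, u = opF (fb i) := by
  intro u hu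
  simp only [LS, Set.mem_insert_iff, Set.mem_singleton_iff] at hu
  rcases hu with rfl | rfl | rfl | rfl | rfl | rfl | rfl | rfl
  · exact ⟨0, by norm_num, fb_zero.symm⟩
  · exact ⟨1, by norm_num, fb_one.symm⟩
  · exact ⟨2, by norm_num, fb_two.symm⟩
  · exact ⟨3, by norm_num, fb_three.symm⟩
  · exact ⟨4, by norm_num, fb_four.symm⟩
  · exact ⟨5, by norm_num, fb_five.symm⟩
  · exact ⟨6, by norm_num, fb_six.symm⟩
  · exact ⟨7, by norm_num, fb_seven.symm⟩

theorem MM_zero (φ : MM) (w : Wd) (h : ¬ Fits w) : φ.1 w = 0 := by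
  by_contra h0
  exact h (φ.2.1 w h0)

theorem five_UU : (5 : UU) = 0 := by
  refine LinearMap.ext fun φ => ?_
  have h1 : (5 : UU) = (5 : ℕ) • (1 : UU) := by
    rw [nsmul_eq_mul, mul_one]
    rfl
  rw [h1]
  show (5 : ℕ) • φ = 0
  have h2 : (5 : ℕ) • φ = ((5 : ℕ) : ZMod 5) • φ := by
    rw [Nat.cast_smul_eq_nsmul]
  rw [h2]
  have h3 : ((5 : ℕ) : ZMod 5) = 0 := by decide
  rw [h3, zero_smul]

theorem op_comm (l l' : Fin 5) (hl : l = 0 ∨ l = 1) (hl' : l' = 2 ∨ l' = 3) :
    op l * op l' = op l' * op l := by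
  refine LinearMap.ext fun φ => Subtype.ext (funext fun v => ?_)
  show φ.1 (l' :: l :: v) = φ.1 (l :: l' :: v)
  exact (φ.2.2.1 [] v l l' hl hl').symm

theorem blk_gen (p a : Fin 5) (hpa : p ≠ a)
    (hp : ∀ w, Fits w → w.count p ≤ 1) (ha : ∀ w, Fits w → w.count a ≤ 2) :
    Blk (op p) (op a) := by
  have key : ∀ (W : Wd) (T : UU), (∀ (φ : MM) (v : Wd), (T φ).1 v = φ.1 (W ++ v)) →
      (2 ≤ W.count p ∨ 3 ≤ W.count a) → T = 0 := by
    intro W T hT hc
    refine LinearMap.ext fun φ => Subtype.ext (funext fun v => ?_)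
    rw [hT]
    refine MM_zero φ _ fun hf => ?_
    have h1 := hp _ hf
    have h2 := ha _ hf
    rw [List.count_append] at h1 h2
    omega
  have hap : a ≠ p := hpa.symm
  refine ⟨?_, ?_, ?_, ?_, ?_, ?_⟩
  · exact key [a, a, a] _ (fun φ v => rfl) (Or.inr (by simp))
  · exact key [p, p] _ (fun φ v => rfl) (Or.inl (by simp))
  · exact key [p, a, p] _ (fun φ v => rfl) (Or.inl (by simp [List.count_cons]))
  · exact key [p, a, a, p] _ (fun φ v => rfl) (Or.inl (by simp [hap]))
  · exact key [a, a, p, a] _ (fun φ v => rfl) (Or.inr (by simp [List.count_cons]))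
  · exact key [a, p, a, a] _ (fun φ v => rfl) (Or.inr (by simp [List.count_cons]))

/-- functions without `x` -/
def NoX (φ : MM) : Prop := ∀ w : Wd, 1 ≤ w.count 4 → φ.1 w = 0

theorem op_NoX (l : Fin 5) (φ : MM) (h : NoX φ) : NoX (op l φ) := by
  intro w hw
  rw [op_apply]
  refine h _ (hw.trans ?_)
  rw [List.count_cons]
  omega

theorem sub_NoX : ∀ T ∈ Subring.closure ({op 0, op 1, op 2, op 3} : Set UU),
    ∀ φ : MM, NoX φ → NoX (T φ) := by
  intro T hT
  induction hT using Subring.closure_induction with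
  | mem T hT =>
    simp only [Set.mem_insert_iff, Set.mem_singleton_iff] at hT
    rcases hT with rfl | rfl | rfl | rfl <;> exact fun φ h => op_NoX _ φ h
  | zero => intro φ _ w _; rfl
  | one => intro φ h; exact h
  | add a b _ _ ha hb =>
    intro φ h w hw
    show (a φ).1 w + (b φ).1 w = 0
    rw [ha φ h w hw, hb φ h w hw, add_zero]
  | neg a _ ha =>
    intro φ h w hw
    show -(a φ).1 w = 0
    rw [ha φ h w hw, neg_zero]
  | mul a b _ _ ha hb =>
    intro φ h
    exact ha _ (hb φ h)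

theorem hdata : HData (op 0) (op 1) (op 2) (op 3) (op 4) where
  five := five_UU
  bA := blk_gen 0 1 (by decide) (fun w h => h.1) (fun w h => h.2.1)
  bB := blk_gen 2 3 (by decide) (fun w h => h.2.2.1) (fun w h => h.2.2.2.1)
  PR := op_comm 0 2 (Or.inl rfl) (Or.inl rfl)
  PQ := op_comm 0 3 (Or.inl rfl) (Or.inr rfl)
  AR := op_comm 1 2 (Or.inr rfl) (Or.inl rfl)
  AQ := op_comm 1 3 (Or.inr rfl) (Or.inr rfl)
  s4 := by
    intro u1 h1 u2 h2 u3 h3 u4 h4
    obtain ⟨a, ha, rfl⟩ := LS_form u1 h1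
    obtain ⟨b, hb, rfl⟩ := LS_form u2 h2
    obtain ⟨c, hc, rfl⟩ := LS_form u3 h3
    obtain ⟨d, hd, rfl⟩ := LS_form u4 h4
    exact rel_all a b c d (by omega) (by omega) (by omega) (by omega)
  s4x := by
    intro u1 h1 u2 h2 u3 h3
    obtain ⟨a, ha, rfl⟩ := LS_form u1 h1
    obtain ⟨b, hb, rfl⟩ := LS_form u2 h2
    obtain ⟨c, hc, rfl⟩ := LS_form u3 h3
    rw [← fb_eight]
    exact rel_all a b c 8 (by omega) (by omega) (by omega) (by omega)
  xx := by
    intro T hT
    refine LinearMap.ext fun φ => Subtype.ext (funext fun v => ?_)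
    have h1 : NoX (op 4 φ) := by
      intro w hw
      rw [op_apply]
      refine MM_zero φ _ fun hf => ?_
      have h2 := hf.2.2.2.2
      rw [List.count_cons_self] at h2
      omega
    have h2 := sub_NoX T hT _ h1 (4 :: v) (by rw [List.count_cons_self]; omega)
    exact h2

theorem length_eq (w : Wd) :
    w.length = w.count 0 + w.count 1 + w.count 2 + w.count 3 + w.count 4 := by
  induction w with
  | nil => rfl
  | cons l w ih =>
    rw [List.length_cons, ih]
    simp only [List.count_cons]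
    fin_cases l <;> simp <;> omega

instance finite_MM : Finite MM := by
  have h : {w : Wd | w.length ≤ 7}.Finite := List.finite_length_le (Fin 5) 7
  have hf : Finite {w : Wd | w.length ≤ 7} := h
  have : Finite ({w : Wd | w.length ≤ 7} → ZMod 5) := inferInstance
  refine Finite.of_injective (fun φ : MM => fun w : {w : Wd | w.length ≤ 7} => φ.1 w.1) ?_
  intro φ ψ hφ
  refine Subtype.ext (funext fun w => ?_)
  by_cases hw : Fits w
  · have hl : w.length ≤ 7 := by
      rw [length_eq]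
      unfold Fits at hw
      omega
    exact congrFun hφ ⟨w, hl⟩
  · rw [MM_zero φ w hw, MM_zero ψ w hw]

end Hex
end Pool.Agent.MP5c99ad
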