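import Pool.Agent.Lib.MP_5c99ad_al.HexE

set_option autoImplicit false

/-!
An explicit finite group of exponent 5, part F: the functional belongs to the module.
-/

namespace Pool.Agent.MP5c99ad
namespace Hex

/-- words of content exactly `p a a r q q x` -/
def Exact (w : Wd) : Prop :=
  w.count 0 = 1 ∧ w.count 1 = 2 ∧ w.count 2 = 1 ∧ w.count 3 = 2 ∧ w.count 4 = 1

instance (w : Wd) : Decidable (Exact w) := by unfold Exact; infer_instance

/-- the functional -/
def ff (w : Wd) : ZMod 5 := if Exact w then (gN w : ZMod 5) else 0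

theorem cdA_comm (u v : Wd) (l l' : Fin 5) (hl : l = 0 ∨ l = 1) (hl' : l' = 2 ∨ l' = 3) :
    cdA (u ++ l :: l' :: v) = cdA (u ++ l' :: l :: v) := by
  induction u with
  | nil => rcases hl with rfl | rfl <;> rcases hl' with rfl | rfl <;> rfl
  | cons m u ih =>
    simp only [List.cons_append, cdA, ih]

theorem cdB_comm (u v : Wd) (l l' : Fin 5) (hl : l = 0 ∨ l = 1) (hl' : l' = 2 ∨ l' = 3) :
    cdB (u ++ l :: l' :: v) = cdB (u ++ l' :: l :: v) := by
  induction u with
  | nil => rcases hl with rfl | rfl <;> rcases hl' with rfl | rfl <;> rfl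
  | cons m u ih =>
    simp only [List.cons_append, cdB, ih]

theorem ff_comm (u v : Wd) (l l' : Fin 5) (hl : l = 0 ∨ l = 1) (hl' : l' = 2 ∨ l' = 3) :
    ff (u ++ l :: l' :: v) = ff (u ++ l' :: l :: v) := by
  have hp : (u ++ l :: l' :: v).Perm (u ++ l' :: l :: v) :=
    List.Perm.append_left u (List.Perm.swap l' l v)
  have he : Exact (u ++ l :: l' :: v) ↔ Exact (u ++ l' :: l :: v) := by
    unfold Exact
    simp only [hp.count_eq]
  unfold ff gN
  rw [cdA_comm u v l l' hl hl', cdB_comm u v l l' hl hl']
  by_cases h : Exact (u ++ l' :: l :: v)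
  · rw [if_pos h, if_pos (he.2 h)]
  · rw [if_neg h, if_neg (fun h' => h (he.1 h'))]

/-- all words of a formal combination have content `c` -/
def HasC (F : Fm) (c : Fin 5 → ℕ) : Prop := ∀ t ∈ F, ∀ l, t.2.count l = c l

theorem HasC.fmul {F G : Fm} {c d : Fin 5 → ℕ} (hF : HasC F c) (hG : HasC G d) :
    HasC (fmul F G) (fun l => c l + d l) := by
  intro t ht l
  unfold Hex.fmul at ht
  rw [List.mem_flatMap] at ht
  obtain ⟨s, hs, ht⟩ := ht
  rw [List.mem_map] at ht
  obtain ⟨r, hr, rfl⟩ := ht
  show (r.2 ++ s.2).count l = _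
  rw [List.count_append, hF s hs l, hG r hr l, add_comm]

theorem HasC.four {a b c d : Fm} {ca cb cc cd : Fin 5 → ℕ} (ha : HasC a ca) (hb : HasC b cb)
    (hc : HasC c cc) (hd : HasC d cd) :
    HasC (Hex.fmul (Hex.fmul (Hex.fmul a b) c) d) (fun l => ca l + cb l + cc l + cd l) :=
  ((ha.fmul hb).fmul hc).fmul hd

theorem HasC.append {F G : Fm} {c : Fin 5 → ℕ} (hF : HasC F c) (hG : HasC G c) :
    HasC (F ++ G) c := by
  intro t ht l
  rw [List.mem_append] at ht
  rcases ht with ht | ht
  · exact hF t ht l
  · exact hG t ht l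

theorem HasC.congr {F : Fm} {c d : Fin 5 → ℕ} (hF : HasC F c) (h : ∀ l, c l = d l) : HasC F d :=
  fun t ht l => (hF t ht l).trans (h l)

theorem HasC.sym4 {a b c d : Fm} {ca cb cc cd : Fin 5 → ℕ} (ha : HasC a ca) (hb : HasC b cb)
    (hc : HasC c cc) (hd : HasC d cd) :
    HasC (fsym4 a b c d) (fun l => ca l + cb l + cc l + cd l) := by
  unfold fsym4
  refine HasC.append (HasC.append (HasC.append (HasC.append (HasC.append (HasC.append
    (HasC.append (HasC.append (HasC.append (HasC.append (HasC.append (HasC.append
    (HasC.append (HasC.append (HasC.append (HasC.append (HasC.append (HasC.append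
    (HasC.append (HasC.append (HasC.append (HasC.append (HasC.append
    ?_ ?_) ?_) ?_) ?_) ?_) ?_) ?_) ?_) ?_) ?_) ?_) ?_) ?_) ?_) ?_) ?_) ?_) ?_) ?_) ?_) ?_) ?_) ?_
  · exact (ha.four hb hc hd).congr fun l => by omega
  · exact (ha.four hb hd hc).congr fun l => by omega
  · exact (ha.four hc hb hd).congr fun l => by omega
  · exact (ha.four hc hd hb).congr fun l => by omega
  · exact (ha.four hd hb hc).congr fun l => by omega
  · exact (ha.four hd hc hb).congr fun l => by omega
  · exact (hb.four ha hc hd).congr fun l => by omega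
  · exact (hb.four ha hd hc).congr fun l => by omega
  · exact (hb.four hc ha hd).congr fun l => by omega
  · exact (hb.four hc hd ha).congr fun l => by omega
  · exact (hb.four hd ha hc).congr fun l => by omega
  · exact (hb.four hd hc ha).congr fun l => by omega
  · exact (hc.four ha hb hd).congr fun l => by omega
  · exact (hc.four ha hd hb).congr fun l => by omega
  · exact (hc.four hb ha hd).congr fun l => by omega
  · exact (hc.four hb hd ha).congr fun l => by omega
  · exact (hc.four hd ha hb).congr fun l => by omega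
  · exact (hc.four hd hb ha).congr fun l => by omega
  · exact (hd.four ha hb hc).congr fun l => by omega
  · exact (hd.four ha hc hb).congr fun l => by omega
  · exact (hd.four hb ha hc).congr fun l => by omega
  · exact (hd.four hb hc ha).congr fun l => by omega
  · exact (hd.four hc ha hb).congr fun l => by omega
  · exact (hd.four hc hb ha).congr fun l => by omega

theorem fb_content : ∀ i < 9, HasC (fb i) (fun l => cs i l.val) := by
  intro i hi
  unfold HasC
  interval_cases i <;> decide

theorem ev_exact (u v : Wd) (F : Fm) (h : ∀ t ∈ F, Exact (u ++ t.2 ++ v)) :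
    ev ff u v F = ((evN u v F : ℤ) : ZMod 5) := by
  induction F with
  | nil => simp [ev, evN]
  | cons t F ih =>
    have h1 : ff (u ++ t.2 ++ v) = (gN (u ++ t.2 ++ v) : ZMod 5) := by
      unfold ff
      rw [if_pos (h t (List.mem_cons_self))]
    simp only [ev, evN, ih fun s hs => h s (List.mem_cons_of_mem _ hs), h1]
    push_cast
    ring

theorem ev_not_exact (u v : Wd) (F : Fm) (h : ∀ t ∈ F, ¬ Exact (u ++ t.2 ++ v)) :
    ev ff u v F = 0 := by
  induction F with
  | nil => simp [ev]
  | cons t F ih =>
    have h1 : ff (u ++ t.2 ++ v) = 0 := by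
      unfold ff
      rw [if_neg (h t (List.mem_cons_self))]
    simp only [ev, ih fun s hs => h s (List.mem_cons_of_mem _ hs), h1, mul_zero, add_zero]

theorem mem_words (w : Wd) :
    w ∈ words w.length (w.count 0) (w.count 1) (w.count 2) (w.count 3) (w.count 4) := by
  induction w with
  | nil => simp [words]
  | cons l w ih =>
    rw [List.length_cons]
    fin_cases l
    · have e0 : List.count (0 : Fin 5) (0 :: w) = w.count 0 + 1 := List.count_cons_self
      have e1 : List.count (1 : Fin 5) (0 :: w) = w.count 1 := List.count_cons_of_ne (by decide)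
      have e2 : List.count (2 : Fin 5) (0 :: w) = w.count 2 := List.count_cons_of_ne (by decide)
      have e3 : List.count (3 : Fin 5) (0 :: w) = w.count 3 := List.count_cons_of_ne (by decide)
      have e4 : List.count (4 : Fin 5) (0 :: w) = w.count 4 := List.count_cons_of_ne (by decide)
      show (0 : Fin 5) :: w ∈ words (w.length + 1) (List.count (0 : Fin 5) (0 :: w))
        (List.count (1 : Fin 5) (0 :: w)) (List.count (2 : Fin 5) (0 :: w))
        (List.count (3 : Fin 5) (0 :: w)) (List.count (4 : Fin 5) (0 :: w))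
      rw [e0, e1, e2, e3, e4]
      simp only [words, List.mem_append]
      exact Or.inl (Or.inl (Or.inl (Or.inl (List.mem_map_of_mem ih))))
    · have e0 : List.count (0 : Fin 5) (1 :: w) = w.count 0 := List.count_cons_of_ne (by decide)
      have e1 : List.count (1 : Fin 5) (1 :: w) = w.count 1 + 1 := List.count_cons_self
      have e2 : List.count (2 : Fin 5) (1 :: w) = w.count 2 := List.count_cons_of_ne (by decide)
      have e3 : List.count (3 : Fin 5) (1 :: w) = w.count 3 := List.count_cons_of_ne (by decide)
      have e4 : List.count (4 : Fin 5) (1 :: w) = w.count 4 := List.count_cons_of_ne (by decide)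
      show (1 : Fin 5) :: w ∈ words (w.length + 1) (List.count (0 : Fin 5) (1 :: w))
        (List.count (1 : Fin 5) (1 :: w)) (List.count (2 : Fin 5) (1 :: w))
        (List.count (3 : Fin 5) (1 :: w)) (List.count (4 : Fin 5) (1 :: w))
      rw [e0, e1, e2, e3, e4]
      simp only [words, List.mem_append]
      exact Or.inl (Or.inl (Or.inl (Or.inr (List.mem_map_of_mem ih))))
    · have e0 : List.count (0 : Fin 5) (2 :: w) = w.count 0 := List.count_cons_of_ne (by decide)
      have e1 : List.count (1 : Fin 5) (2 :: w) = w.count 1 := List.count_cons_of_ne (by decide)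
      have e2 : List.count (2 : Fin 5) (2 :: w) = w.count 2 + 1 := List.count_cons_self
      have e3 : List.count (3 : Fin 5) (2 :: w) = w.count 3 := List.count_cons_of_ne (by decide)
      have e4 : List.count (4 : Fin 5) (2 :: w) = w.count 4 := List.count_cons_of_ne (by decide)
      show (2 : Fin 5) :: w ∈ words (w.length + 1) (List.count (0 : Fin 5) (2 :: w))
        (List.count (1 : Fin 5) (2 :: w)) (List.count (2 : Fin 5) (2 :: w))
        (List.count (3 : Fin 5) (2 :: w)) (List.count (4 : Fin 5) (2 :: w))
      rw [e0, e1, e2, e3, e4]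
      simp only [words, List.mem_append]
      exact Or.inl (Or.inl (Or.inr (List.mem_map_of_mem ih)))
    · have e0 : List.count (0 : Fin 5) (3 :: w) = w.count 0 := List.count_cons_of_ne (by decide)
      have e1 : List.count (1 : Fin 5) (3 :: w) = w.count 1 := List.count_cons_of_ne (by decide)
      have e2 : List.count (2 : Fin 5) (3 :: w) = w.count 2 := List.count_cons_of_ne (by decide)
      have e3 : List.count (3 : Fin 5) (3 :: w) = w.count 3 + 1 := List.count_cons_self
      have e4 : List.count (4 : Fin 5) (3 :: w) = w.count 4 := List.count_cons_of_ne (by decide)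
      show (3 : Fin 5) :: w ∈ words (w.length + 1) (List.count (0 : Fin 5) (3 :: w))
        (List.count (1 : Fin 5) (3 :: w)) (List.count (2 : Fin 5) (3 :: w))
        (List.count (3 : Fin 5) (3 :: w)) (List.count (4 : Fin 5) (3 :: w))
      rw [e0, e1, e2, e3, e4]
      simp only [words, List.mem_append]
      exact Or.inl (Or.inr (List.mem_map_of_mem ih))
    · have e0 : List.count (0 : Fin 5) (4 :: w) = w.count 0 := List.count_cons_of_ne (by decide)
      have e1 : List.count (1 : Fin 5) (4 :: w) = w.count 1 := List.count_cons_of_ne (by decide)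
      have e2 : List.count (2 : Fin 5) (4 :: w) = w.count 2 := List.count_cons_of_ne (by decide)
      have e3 : List.count (3 : Fin 5) (4 :: w) = w.count 3 := List.count_cons_of_ne (by decide)
      have e4 : List.count (4 : Fin 5) (4 :: w) = w.count 4 + 1 := List.count_cons_self
      show (4 : Fin 5) :: w ∈ words (w.length + 1) (List.count (0 : Fin 5) (4 :: w))
        (List.count (1 : Fin 5) (4 :: w)) (List.count (2 : Fin 5) (4 :: w))
        (List.count (3 : Fin 5) (4 :: w)) (List.count (4 : Fin 5) (4 :: w))
      rw [e0, e1, e2, e3, e4]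
      simp only [words, List.mem_append]
      exact Or.inr (List.mem_map_of_mem ih)

theorem chk_of (a b c d : ℕ) (hab : a ≤ b) (hbc : b ≤ c) (hcd : c ≤ d) (hd : d < 9) :
    chk a b c d = true := by
  have h := chkAll_true
  unfold chkAll at h
  rw [List.all_eq_true] at h
  have h1 := h a (List.mem_range.2 (by omega))
  rw [List.all_eq_true] at h1
  have h2 := h1 b (List.mem_range.2 (by omega))
  rw [List.all_eq_true] at h2
  have h3 := h2 c (List.mem_range.2 (by omega))
  rw [List.all_eq_true] at h3
  have h4 := h3 d (List.mem_range.2 (by omega))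
  rwa [if_pos ⟨hab, hbc, hcd⟩] at h4

theorem ff_rel (a b c d : ℕ) (hab : a ≤ b) (hbc : b ≤ c) (hcd : c ≤ d) (hd : d < 9) (u v : Wd) :
    ev ff u v (fsym4 (fb a) (fb b) (fb c) (fb d)) = 0 := by
  have hC := (fb_content a (by omega)).sym4 (fb_content b (by omega)) (fb_content c (by omega))
    (fb_content d hd)
  set S := fsym4 (fb a) (fb b) (fb c) (fb d) with hS
  set T : ℕ → ℕ := fun l => cs a l + cs b l + cs c l + cs d l with hT
  have hcount : ∀ t ∈ S, ∀ l : Fin 5, (u ++ t.2 ++ v).count l = u.count l + T l.val + v.count l := by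
    intro t ht l
    rw [List.count_append, List.count_append, hC t ht l]
  by_cases hx : u.count 0 + T 0 + v.count 0 = 1 ∧ u.count 1 + T 1 + v.count 1 = 2 ∧
      u.count 2 + T 2 + v.count 2 = 1 ∧ u.count 3 + T 3 + v.count 3 = 2 ∧
      u.count 4 + T 4 + v.count 4 = 1
  · have hex : ∀ t ∈ S, Exact (u ++ t.2 ++ v) := by
      intro t ht
      have h0 := hcount t ht 0
      have h1 := hcount t ht 1
      have h2 := hcount t ht 2
      have h3 := hcount t ht 3
      have h4 := hcount t ht 4
      unfold Exact
      rw [h0, h1, h2, h3, h4]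
      exact hx
    rw [ev_exact u v S hex]
    obtain ⟨x0, x1, x2, x3, x4⟩ := hx
    have hchk := chk_of a b c d hab hbc hcd hd
    unfold chk at hchk
    simp only [] at hchk
    rw [if_pos (show T 0 ≤ 1 ∧ T 1 ≤ 2 ∧ T 2 ≤ 1 ∧ T 3 ≤ 2 ∧ T 4 ≤ 1 by omega)] at hchk
    rw [List.all_eq_true] at hchk
    have hlen := length_eq (u ++ v)
    have c0 : (u ++ v).count 0 = 1 - T 0 := by rw [List.count_append]; omega
    have c1 : (u ++ v).count 1 = 2 - T 1 := by rw [List.count_append]; omega
    have c2 : (u ++ v).count 2 = 1 - T 2 := by rw [List.count_append]; omega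
    have c3 : (u ++ v).count 3 = 2 - T 3 := by rw [List.count_append]; omega
    have c4 : (u ++ v).count 4 = 1 - T 4 := by rw [List.count_append]; omega
    have hmem := mem_words (u ++ v)
    rw [c0, c1, c2, c3, c4] at hmem
    have hl : (u ++ v).length = 7 - (T 0 + T 1 + T 2 + T 3 + T 4) := by
      rw [hlen, c0, c1, c2, c3, c4]
      omega
    rw [hl] at hmem
    have h1 := hchk _ hmem
    unfold chkW at h1
    rw [List.all_eq_true] at h1
    have h2 := h1 u.length (List.mem_range.2 (by rw [List.length_append]; omega))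
    rw [List.take_left, List.drop_left] at h2
    have h3 : evN u v S % 5 = 0 := by simpa using h2
    exact (ZMod.intCast_zmod_eq_zero_iff_dvd _ 5).2 (Int.dvd_of_emod_eq_zero h3)
  · refine ev_not_exact u v S fun t ht he => hx ?_
    have h0 := hcount t ht 0
    have h1 := hcount t ht 1
    have h2 := hcount t ht 2
    have h3 := hcount t ht 3
    have h4 := hcount t ht 4
    unfold Exact at he
    rw [h0, h1, h2, h3, h4] at he
    exact he

theorem ff_mem : ff ∈ MM := by
  refine ⟨fun w h => ?_, fun u v l l' hl hl' => ff_comm u v l l' hl hl',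
    fun a b c d hab hbc hcd hd u v => ff_rel a b c d hab hbc hcd hd u v⟩
  have he : Exact w := by
    by_contra he
    apply h
    unfold ff
    rw [if_neg he]
  unfold Exact at he
  unfold Fits
  omega

/-- the generator of the module -/
def mm : MM := ⟨ff, ff_mem⟩

/-- the nonvanishing product -/
theorem mm_ne : (bk (bk (op 2) (op 3)) (op 3) * (op 4 * bk (bk (op 0) (op 1)) (op 1))) mm ≠ 0 := by
  intro h
  rw [← fb_three, ← fb_seven, ← fb_eight, ← opF_fmul, ← opF_fmul] at h
  have h1 := congrFun (congrArg Subtype.val h) []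
  rw [opF_apply] at h1
  have hC := (fb_content 7 (by norm_num)).fmul ((fb_content 8 (by norm_num)).fmul
    (fb_content 3 (by norm_num)))
  have hex : ∀ t ∈ fmul (fb 7) (fmul (fb 8) (fb 3)), Exact ([] ++ t.2 ++ []) := by
    intro t ht
    have h0 := hC t ht 0
    have h1 := hC t ht 1
    have h2 := hC t ht 2
    have h3 := hC t ht 3
    have h4 := hC t ht 4
    unfold Exact
    rw [List.nil_append, List.append_nil, h0, h1, h2, h3, h4]
    decide
  have h2 : ev ff [] [] (fmul (fb 7) (fmul (fb 8) (fb 3))) = 0 := h1
  rw [ev_exact _ _ _ hex, ZMod.intCast_zmod_eq_zero_iff_dvd] at h2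
  have h3 := value_true
  have h4 := Int.emod_eq_zero_of_dvd h2
  push_cast at h4
  rw [h4] at h3
  exact absurd h3 (by norm_num)

end Hex
end Pool.Agent.MP5c99ad
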