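import Pool.Agent.Lib.MP_5c99ad_al.HexF
import Pool.Agent.Lib.MP_5c99ad_al.LawF

set_option autoImplicit false

/-!
An explicit finite group of exponent 5, part G: the group `H` with the element
`[m, v, x, w] ≠ 1`, where `v = [p, a, a]` and `w = [r, q, q]` belong to commuting blocks.
-/

namespace Pool.Agent.MP5c99ad
namespace Hex

section units

variable {U : Type} [Ring U]

/-- `1 + y` as a unit, for `y * y = 0` -/
def unip (y : U) (h : y * y = 0) : Uˣ where
  val := 1 + y
  inv := 1 - y
  val_inv := by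
    have : (1 + y) * (1 - y) = 1 - y * y := by noncomm_ring
    rw [this, h, sub_zero]
  inv_val := by
    have : (1 - y) * (1 + y) = 1 - y * y := by noncomm_ring
    rw [this, h, sub_zero]

/-- `e^A` as a unit -/
def expu (h5 : (5 : U) = 0) (A : U) (h : A * A * A = 0) : Uˣ where
  val := E1 A
  inv := E1 (-A)
  val_inv := by
    rw [E1_mul h5 h (AddSubgroup.mem_zmultiples A) (AddSubgroup.neg_mem _
      (AddSubgroup.mem_zmultiples A)), add_neg_cancel]
    simp [E1]
  inv_val := by
    rw [E1_mul h5 h (AddSubgroup.neg_mem _ (AddSubgroup.mem_zmultiples A))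
      (AddSubgroup.mem_zmultiples A), neg_add_cancel]
    simp [E1]

theorem bk_neg_right (x z : U) : bk x (-z) = - bk x z := by
  unfold bk; noncomm_ring

theorem bk_smul_left (n : ℕ) (x z : U) : bk (n • x) z = n • bk x z := by
  unfold bk; rw [smul_mul_assoc, mul_smul_comm, smul_sub]

theorem bk_smul_right (n : ℕ) (x z : U) : bk x (n • z) = n • bk x z := by
  unfold bk; rw [mul_smul_comm, smul_mul_assoc, smul_sub]

theorem gc_val {P A : U} (hb : Blk P A) (h5 : (5 : U) = 0) {f Z : U} (hf : f ∈ VV P A)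
    (hZ : Z ∈ AddSubgroup.zmultiples A) (u z : Uˣ) (hu : (u : U) = 1 + f) (hz : (z : U) = E1 Z) :
    ((gc u z : Uˣ) : U) = 1 + (bk f Z + 3 * bk (bk f Z) Z) := by
  have hff := (hb.two f hf f hf).1
  have hui : ((u⁻¹ : Uˣ) : U) = 1 - f := by
    refine Units.inv_eq_of_mul_eq_one_right ?_
    rw [hu]
    have : (1 + f) * (1 - f) = 1 - f * f := by noncomm_ring
    rw [this, hff, sub_zero]
  have hZ' : -Z ∈ AddSubgroup.zmultiples A := AddSubgroup.neg_mem _ hZ
  have hzi : ((z⁻¹ : Uˣ) : U) = E1 (-Z) := by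
    refine Units.inv_eq_of_mul_eq_one_right ?_
    rw [hz, E1_mul h5 hb.AAA hZ hZ', add_neg_cancel]
    simp [E1]
  have hm := (hb.rel hf hZ').move h5
  rw [bk_neg_right, bk_neg_right, bk_neg_left, neg_neg, sub_neg_eq_add] at hm
  have h1 : E1 (-Z) * E1 Z = 1 := by
    rw [E1_mul h5 hb.AAA hZ' hZ, neg_add_cancel]
    simp [E1]
  have m1 := hb.bk_mem' hf hZ
  have m2 := hb.bk_mem' m1 hZ
  have t1 := (hb.two f hf _ m1).1
  have t2 := (hb.two f hf _ m2).1
  unfold gc
  rw [Units.val_mul, Units.val_mul, Units.val_mul, hui, hzi, hu, hz]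
  calc (1 - f) * E1 (-Z) * (1 + f) * E1 Z = (1 - f) * (E1 (-Z) * (1 + f)) * E1 Z := by
        simp only [mul_assoc]
    _ = (1 - f) * (1 + (f + bk f Z + 3 * bk (bk f Z) Z)) * (E1 (-Z) * E1 Z) := by
        rw [hm]
        simp only [mul_assoc]
    _ = 1 + (bk f Z + 3 * bk (bk f Z) Z) - f * f - f * bk f Z - 3 * (f * bk (bk f Z) Z) := by
        rw [h1]
        noncomm_ring
    _ = _ := by
        rw [hff, t1, t2]
        simp

theorem pow_unip {P : U} (hP : P * P = 0) (u : Uˣ) (hu : (u : U) = 1 + P) (s : ℕ) :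
    ((u ^ s : Uˣ) : U) = 1 + s • P := by
  induction s with
  | zero => simp
  | succ s ih =>
    rw [pow_succ, Units.val_mul, ih, hu, mul_add, mul_one, add_mul, one_mul, smul_mul_assoc, hP,
      smul_zero, add_zero, succ_nsmul, add_assoc]

theorem pow_exp {A : U} (h5 : (5 : U) = 0) (hA : A * A * A = 0) (u : Uˣ) (hu : (u : U) = E1 A)
    (s : ℕ) : ((u ^ s : Uˣ) : U) = E1 (s • A) := by
  induction s with
  | zero => simp [E1]
  | succ s ih =>
    rw [pow_succ, Units.val_mul, ih, hu, E1_mul h5 hA (AddSubgroup.nsmul_mem _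
      (AddSubgroup.mem_zmultiples A) s) (AddSubgroup.mem_zmultiples A), succ_nsmul]

/-- the commutator condition for a block -/
theorem gc_block {P A : U} (hb : Blk P A) (h5 : (5 : U) = 0) (p a : Uˣ) (hp : (p : U) = 1 + P)
    (ha : (a : U) = E1 A) (s t : ℕ) :
    gc (gc (p ^ s) (a ^ t)) (a ^ t) = (gc (gc p a) a) ^ (s * t * t) := by
  have hPm : P ∈ VV P A := AddSubgroup.subset_closure (by simp)
  have hCm : bk P A ∈ VV P A := AddSubgroup.subset_closure (by simp)
  have hDm : bk (bk P A) A ∈ VV P A := AddSubgroup.subset_closure (by simp)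
  have hA := AddSubgroup.mem_zmultiples A
  have hD0 : bk (bk (bk P A) A) A = 0 := (hb.rel hPm hA).bk3
  have e3 : ∀ y : U, (3 : U) * y = (3 : ℕ) • y := fun y => by
    rw [nsmul_eq_mul]
    norm_num
  have general : ∀ s t : ℕ, ((gc (gc (p ^ s) (a ^ t)) (a ^ t) : Uˣ) : U) =
      1 + (s * t * t) • bk (bk P A) A := by
    intro s t
    have hZ : t • A ∈ AddSubgroup.zmultiples A := AddSubgroup.nsmul_mem _ hA t
    have g1 := gc_val hb h5 (AddSubgroup.nsmul_mem _ hPm s) hZ (p ^ s) (a ^ t)
      (pow_unip hb.PP p hp s) (pow_exp h5 hb.AAA a ha t)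
    have hm : bk (s • P) (t • A) + 3 * bk (bk (s • P) (t • A)) (t • A) ∈ VV P A := by
      rw [e3]
      have h1 := hb.bk_mem' (AddSubgroup.nsmul_mem _ hPm s) hZ
      exact AddSubgroup.add_mem _ h1 (AddSubgroup.nsmul_mem _ (hb.bk_mem' h1 hZ) 3)
    have g2 := gc_val hb h5 hm hZ _ (a ^ t) g1 (pow_exp h5 hb.AAA a ha t)
    rw [g2]
    have c1 : bk (s • P) (t • A) = (s * t) • bk P A := by
      rw [bk_smul_left, bk_smul_right, smul_smul]
    have c2 : bk ((s * t) • bk P A) (t • A) = (s * t * t) • bk (bk P A) A := by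
      rw [bk_smul_left, bk_smul_right, smul_smul]
    have c3 : bk ((s * t * t) • bk (bk P A) A) (t • A) = 0 := by
      rw [bk_smul_left, bk_smul_right, hD0, smul_zero, smul_zero]
    have c0 : bk (0 : U) (t • A) = 0 := by simp [bk]
    rw [c1, c2, e3, bk_add_left, c2, bk_smul_left, c3, smul_zero, add_zero, c3]
    simp
  have h1 := general 1 1
  rw [pow_one, pow_one, mul_one, mul_one, one_smul] at h1
  refine Units.ext ?_
  rw [general s t, pow_unip ((hb.two _ hDm _ hDm).1) _ h1]

end units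

/-- the generators of the operator group -/
def GG : Gens (op 0) (op 1) (op 2) (op 3) (op 4) where
  uP := unip (op 0) hdata.bA.PP
  uA := expu five_UU (op 1) hdata.bA.AAA
  uR := unip (op 2) hdata.bB.PP
  uQ := expu five_UU (op 3) hdata.bB.AAA
  uX := unip (op 4) (by
    have := hdata.xx 1 (Subring.one_mem _)
    rwa [mul_one] at this)
  hP := rfl
  hA := rfl
  hR := rfl
  hQ := rfl
  hX := rfl

theorem K_sum (k : UUˣ) (hk : k ∈ GG.K) :
    (1 : UU) + k + (k : UU) * k + (k : UU) * k * k + (k : UU) * k * k * k = 0 := by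
  have h := GG.K_pow4 hdata k hk
  have e : (1 : UU) + k + (k : UU) * k + (k : UU) * k * k + (k : UU) * k * k * k =
      ((k : UU) - 1) * ((k : UU) - 1) * ((k : UU) - 1) * ((k : UU) - 1) +
      5 * ((k : UU) * k * k - (k : UU) * k + k) := by
    generalize (k : UU) = y
    noncomm_ring
  rw [e, h, five_mul five_UU, add_zero]

theorem K_pow5 (k : UUˣ) (hk : k ∈ GG.K) : k ^ 5 = 1 := by
  refine Units.ext ?_
  have h := K_sum k hk
  have e : ((k ^ 5 : UUˣ) : UU) - 1 = ((k : UU) - 1) * ((1 : UU) + k + (k : UU) * k +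
      (k : UU) * k * k + (k : UU) * k * k * k) := by
    rw [Units.val_pow_eq_pow_val]
    generalize (k : UU) = y
    noncomm_ring
  rw [h, mul_zero, sub_eq_zero] at e
  rw [e, Units.val_one]

/-- the action of the operator group on the module -/
def act : GG.K →* MulAut (Multiplicative MM) where
  toFun k :=
    { toFun := fun m => Multiplicative.ofAdd (((k : UUˣ) : UU) (Multiplicative.toAdd m))
      invFun := fun m => Multiplicative.ofAdd ((((k : UUˣ)⁻¹ : UUˣ) : UU) (Multiplicative.toAdd m))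
      left_inv := fun m => by
        show Multiplicative.ofAdd (((((k : UUˣ)⁻¹ : UUˣ) : UU) * ((k : UUˣ) : UU))
          (Multiplicative.toAdd m)) = m
        rw [Units.inv_mul]
        rfl
      right_inv := fun m => by
        show Multiplicative.ofAdd ((((k : UUˣ) : UU) * (((k : UUˣ)⁻¹ : UUˣ) : UU))
          (Multiplicative.toAdd m)) = m
        rw [Units.mul_inv]
        rfl
      map_mul' := fun m m' => by
        show Multiplicative.ofAdd (((k : UUˣ) : UU) (Multiplicative.toAdd m +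
          Multiplicative.toAdd m')) = _
        rw [map_add]
        rfl }
  map_one' := by
    ext m
    rfl
  map_mul' k k' := by
    ext m
    rfl

/-- **the group `H`** -/
abbrev HH := Multiplicative MM ⋊[act] GG.K

instance : Finite UUˣ := by
  have : Finite UU := by
    have : Finite (MM → MM) := inferInstance
    exact Finite.of_injective (fun f : UU => (f : MM → MM)) DFunLike.coe_injective
  exact Finite.of_injective (fun u : UUˣ => (u : UU)) Units.val_injective

instance : Finite HH := by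
  have : Finite (Multiplicative MM × GG.K) := inferInstance
  exact Finite.of_injective (fun h : HH => (h.left, h.right)) (by
    intro a b hab
    simp only [Prod.mk.injEq] at hab
    exact SemidirectProduct.ext hab.1 hab.2)

theorem act_apply (k : GG.K) (m : Multiplicative MM) :
    act k m = Multiplicative.ofAdd (((k : UUˣ) : UU) (Multiplicative.toAdd m)) := rfl

theorem HH_pow5 (h : HH) : h ^ 5 = 1 := by
  obtain ⟨m, k⟩ := h
  have h1 := K_sum k k.2
  have h2 : k ^ 5 = 1 := Subtype.ext (K_pow5 k k.2)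
  refine SemidirectProduct.ext ?_ ?_
  · have e : ((⟨m, k⟩ : HH) ^ 5).left = m * act k m * act (k * k) m * act (k * k * k) m *
        act (k * k * k * k) m := by
      simp only [pow_succ, pow_zero, one_mul, SemidirectProduct.mul_left,
        SemidirectProduct.mul_right]
    rw [e]
    have h3 := LinearMap.congr_fun h1 (Multiplicative.toAdd m)
    exact h3
  · have e : ((⟨m, k⟩ : HH) ^ 5).right = k ^ 5 := by
      simp only [pow_succ, pow_zero, one_mul, SemidirectProduct.mul_right]
    rw [e, h2]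
    rfl

/-- module elements in `H` -/
def il (m : MM) : HH := SemidirectProduct.inl (Multiplicative.ofAdd m)

/-- operators in `H` -/
def ir : GG.K →* HH := SemidirectProduct.inr

theorem gc_il (m : MM) (k : GG.K) :
    gc (il m) (ir k) = il (((((k : UUˣ)⁻¹ : UUˣ) : UU) - 1) m) := by
  have h1 : (ir k)⁻¹ * il m * ir k = il ((((k : UUˣ)⁻¹ : UUˣ) : UU) m) := by
    have h2 := SemidirectProduct.inl_aut (φ := act) k⁻¹ (Multiplicative.ofAdd m)
    have h3 : (ir k)⁻¹ * il m * ir k =
        SemidirectProduct.inr k⁻¹ * SemidirectProduct.inl (Multiplicative.ofAdd m) *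
          SemidirectProduct.inr k⁻¹⁻¹ := by
      rw [inv_inv, map_inv]
      rfl
    rw [h3, ← h2]
    rfl
  have h2 : gc (il m) (ir k) = (il m)⁻¹ * ((ir k)⁻¹ * il m * ir k) := by
    unfold gc
    simp only [mul_assoc]
  rw [h2, h1]
  have h3 : ∀ a b : MM, (il a)⁻¹ * il b = il (b - a) := by
    intro a b
    unfold il
    rw [← map_inv, ← map_mul]
    congr 1
    show Multiplicative.ofAdd (-a + b) = Multiplicative.ofAdd (b - a)
    rw [neg_add_eq_sub]
  rw [h3]
  rfl

theorem il_inj {m : MM} (h : il m = 1) : m = 0 := by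
  have h1 : (il m).left = 1 := by rw [h]; rfl
  exact h1

theorem gc_map {G G' : Type} [Group G] [Group G'] (f : G →* G') (x y : G) :
    f (gc x y) = gc (f x) (f y) := by
  unfold gc
  simp only [map_mul, map_inv]

/-- the blocks commute -/
theorem unit_comm (a b : UUˣ) (ha : (a : UU) ∈ Subring.closure ({op 0, op 1} : Set UU))
    (hb : (b : UU) ∈ Subring.closure ({op 2, op 3} : Set UU)) : a * b = b * a := by
  refine Units.ext ?_
  rw [Units.val_mul, Units.val_mul]
  exact hdata.comm _ ha _ hb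

theorem final_ne (a b c : GG.K) (ha : ((a : UUˣ) : UU) = 1 + bk (bk (op 0) (op 1)) (op 1))
    (hb : ((b : UUˣ) : UU) = 1 + op 4)
    (hc : ((c : UUˣ) : UU) = 1 + bk (bk (op 2) (op 3)) (op 3)) :
    gc (gc (gc (il mm) (ir a)) (ir b)) (ir c) ≠ 1 := by
  have inv_val : ∀ (u : UUˣ) (y : UU), (u : UU) = 1 + y → y * y = 0 →
      ((u⁻¹ : UUˣ) : UU) - 1 = -y := by
    intro u y hu hy
    have : ((u⁻¹ : UUˣ) : UU) = 1 - y := by
      refine Units.inv_eq_of_mul_eq_one_right ?_
      rw [hu]
      have e : (1 + y) * (1 - y) = 1 - y * y := by noncomm_ring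
      rw [e, hy, sub_zero]
    rw [this]
    abel
  have hDm : bk (bk (op 0) (op 1)) (op 1) ∈ VV (op 0) (op 1) :=
    AddSubgroup.subset_closure (by simp)
  have hDm' : bk (bk (op 2) (op 3)) (op 3) ∈ VV (op 2) (op 3) :=
    AddSubgroup.subset_closure (by simp)
  have hxx : op 4 * op 4 = 0 := by
    have := hdata.xx 1 (Subring.one_mem _)
    rwa [mul_one] at this
  have v1 := inv_val a _ ha (hdata.bA.two _ hDm _ hDm).1
  have w1 := inv_val c _ hc (hdata.bB.two _ hDm' _ hDm').1
  have x1 := inv_val b _ hb hxx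
  rw [gc_il, gc_il, gc_il]
  intro h
  have h2 := il_inj h
  rw [v1, w1, x1] at h2
  have key := mm_ne
  have h3 : (bk (bk (op 2) (op 3)) (op 3) * (op 4 * bk (bk (op 0) (op 1)) (op 1))) mm = 0 := by
    generalize bk (bk (op 2) (op 3)) (op 3) = c' at *
    generalize bk (bk (op 0) (op 1)) (op 1) = a' at *
    rw [Module.End.mul_apply, Module.End.mul_apply]
    rw [LinearMap.neg_apply, LinearMap.neg_apply, LinearMap.neg_apply, map_neg, map_neg, map_neg,
      neg_neg, neg_eq_zero] at h2
    exact h2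
  exact key h3

/-- **Existence of the group `H`.** -/
theorem exists_group : ∃ (H : Type) (_ : Group H) (_ : Finite H), (∀ g : H, g ^ 5 = 1) ∧
    ∃ p a r q v w x m : H, p * r = r * p ∧ p * q = q * p ∧ a * r = r * a ∧ a * q = q * a ∧
      (∀ s t : ℕ, gc (gc (p ^ s) (a ^ t)) (a ^ t) = v ^ (s * t * t)) ∧
      (∀ s t : ℕ, gc (gc (r ^ s) (q ^ t)) (q ^ t) = w ^ (s * t * t)) ∧
      gc (gc (gc m v) x) w ≠ 1 := by
  have iP : GG.uP ∈ GG.K := Subgroup.subset_closure (by simp)
  have iA : GG.uA ∈ GG.K := Subgroup.subset_closure (by simp)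
  have iR : GG.uR ∈ GG.K := Subgroup.subset_closure (by simp)
  have iQ : GG.uQ ∈ GG.K := Subgroup.subset_closure (by simp)
  have iX : GG.uX ∈ GG.K := Subgroup.subset_closure (by simp)
  have o0 : op 0 ∈ Subring.closure ({op 0, op 1} : Set UU) := Subring.subset_closure (by simp)
  have o1 : op 1 ∈ Subring.closure ({op 0, op 1} : Set UU) := Subring.subset_closure (by simp)
  have o2 : op 2 ∈ Subring.closure ({op 2, op 3} : Set UU) := Subring.subset_closure (by simp)
  have o3 : op 3 ∈ Subring.closure ({op 2, op 3} : Set UU) := Subring.subset_closure (by simp)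
  have mP : (GG.uP : UU) ∈ Subring.closure ({op 0, op 1} : Set UU) := by
    rw [GG.hP]
    exact Subring.add_mem _ (Subring.one_mem _) o0
  have mA : (GG.uA : UU) ∈ Subring.closure ({op 0, op 1} : Set UU) := by
    rw [GG.hA]
    exact E1_mem _ o1
  have mR : (GG.uR : UU) ∈ Subring.closure ({op 2, op 3} : Set UU) := by
    rw [GG.hR]
    exact Subring.add_mem _ (Subring.one_mem _) o2
  have mQ : (GG.uQ : UU) ∈ Subring.closure ({op 2, op 3} : Set UU) := by
    rw [GG.hQ]
    exact E1_mem _ o3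
  set kP : GG.K := ⟨GG.uP, iP⟩ with hkP
  set kA : GG.K := ⟨GG.uA, iA⟩ with hkA
  set kR : GG.K := ⟨GG.uR, iR⟩ with hkR
  set kQ : GG.K := ⟨GG.uQ, iQ⟩ with hkQ
  set kX : GG.K := ⟨GG.uX, iX⟩ with hkX
  refine ⟨HH, inferInstance, inferInstance, HH_pow5, ir kP, ir kA, ir kR, ir kQ,
    ir (gc (gc kP kA) kA), ir (gc (gc kR kQ) kQ), ir kX, il mm, ?_, ?_, ?_, ?_, ?_, ?_, ?_⟩
  · rw [← map_mul, ← map_mul]
    exact congrArg ir (Subtype.ext (unit_comm _ _ mP mR))
  · rw [← map_mul, ← map_mul]
    exact congrArg ir (Subtype.ext (unit_comm _ _ mP mQ))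
  · rw [← map_mul, ← map_mul]
    exact congrArg ir (Subtype.ext (unit_comm _ _ mA mR))
  · rw [← map_mul, ← map_mul]
    exact congrArg ir (Subtype.ext (unit_comm _ _ mA mQ))
  · intro s t
    rw [← map_pow, ← map_pow, ← map_pow, ← gc_map, ← gc_map]
    exact congrArg ir (Subtype.ext (gc_block hdata.bA five_UU GG.uP GG.uA GG.hP GG.hA s t))
  · intro s t
    rw [← map_pow, ← map_pow, ← map_pow, ← gc_map, ← gc_map]
    exact congrArg ir (Subtype.ext (gc_block hdata.bB five_UU GG.uR GG.uQ GG.hR GG.hQ s t))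
  · have vv : ((gc (gc GG.uP GG.uA) GG.uA : UUˣ) : UU) = 1 + bk (bk (op 0) (op 1)) (op 1) := by
      have h1 := gc_block hdata.bA five_UU GG.uP GG.uA GG.hP GG.hA 1 1
      have hPm : op 0 ∈ VV (op 0) (op 1) := AddSubgroup.subset_closure (by simp)
      have hCm : bk (op 0) (op 1) ∈ VV (op 0) (op 1) := AddSubgroup.subset_closure (by simp)
      have hA := AddSubgroup.mem_zmultiples (op 1)
      have g1 := gc_val hdata.bA five_UU hPm hA GG.uP GG.uA GG.hP GG.hA
      have m1 := hdata.bA.bk_mem' hPm hA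
      have m2 := hdata.bA.bk_mem' m1 hA
      have e3 : ∀ y : UU, (3 : UU) * y = (3 : ℕ) • y := fun y => by
        rw [nsmul_eq_mul]
        norm_num
      have hm : bk (op 0) (op 1) + 3 * bk (bk (op 0) (op 1)) (op 1) ∈ VV (op 0) (op 1) := by
        rw [e3]
        exact AddSubgroup.add_mem _ m1 (AddSubgroup.nsmul_mem _ m2 3)
      have g2 := gc_val hdata.bA five_UU hm hA _ GG.uA g1 GG.hA
      have b3 := (hdata.bA.rel hPm hA).bk3
      have c0 : bk (0 : UU) (op 1) = 0 := by simp [bk]
      rw [g2, bk_add_left, e3, bk_smul_left, b3, smul_zero, add_zero, b3, mul_zero, add_zero]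
    have ww : ((gc (gc GG.uR GG.uQ) GG.uQ : UUˣ) : UU) = 1 + bk (bk (op 2) (op 3)) (op 3) := by
      have hPm : op 2 ∈ VV (op 2) (op 3) := AddSubgroup.subset_closure (by simp)
      have hA := AddSubgroup.mem_zmultiples (op 3)
      have g1 := gc_val hdata.bB five_UU hPm hA GG.uR GG.uQ GG.hR GG.hQ
      have m1 := hdata.bB.bk_mem' hPm hA
      have m2 := hdata.bB.bk_mem' m1 hA
      have e3 : ∀ y : UU, (3 : UU) * y = (3 : ℕ) • y := fun y => by
        rw [nsmul_eq_mul]
        norm_num
      have hm : bk (op 2) (op 3) + 3 * bk (bk (op 2) (op 3)) (op 3) ∈ VV (op 2) (op 3) := by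
        rw [e3]
        exact AddSubgroup.add_mem _ m1 (AddSubgroup.nsmul_mem _ m2 3)
      have g2 := gc_val hdata.bB five_UU hm hA _ GG.uQ g1 GG.hQ
      have b3 := (hdata.bB.rel hPm hA).bk3
      rw [g2, bk_add_left, e3, bk_smul_left, b3, smul_zero, add_zero, b3, mul_zero, add_zero]
    exact final_ne _ _ _ vv GG.hX ww

end Hex
end Pool.Agent.MP5c99ad
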