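import Pool.Agent.Lib.MP_5c99ad_al.Final
import Pool.Agent.Lib.MP_5c99ad_al.HexG

set_option autoImplicit false

/-! The group `H` in the form required by the final assembly. -/

namespace Pool.Agent.MP5c99ad

theorem hExists : HExists := by
  obtain ⟨H, hG, hF, h5, p, a, r, q, v, w, x, m, h⟩ := Hex.exists_group
  exact ⟨H, hG, hF, p, a, r, q, v, w, x, m, h5, h⟩

end Pool.Agent.MP5c99ad
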