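import Mathlib

/-!
# Filtered representations of finite groups of exponent `p` (MP_5c99ad_al)

A finite group of exponent `p` with an `N`-series `S 0 = S 1 = ⊤ ≥ S 2 ≥ ...`, `S (c + 1) = ⊥`, has
a representation over `ZMod p` with a filtration `W` such that `h - 1` maps `W j` into `W (i + j)`
for `h` in `S i`, and which is faithful modulo `W (c + 1)`. (This is Jennings' theorem for groups of
exponent `p`.)
-/

set_option autoImplicit false

namespace Pool.Agent.ExpP

open MonoidAlgebra

/-- `N`-series -/
structure Ser {H : Type} [Group H] (S : ℕ → Subgroup H) : Prop where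
  zero : S 0 = ⊤
  one : S 1 = ⊤
  anti : Antitone S
  comm : ∀ i j, ⁅S i, S j⁆ ≤ S (i + j)

/-- multiplicative filtrations of the group algebra adapted to the series -/
structure Fam (p : ℕ) {H : Type} [Group H] (S : ℕ → Subgroup H)
    (F : ℕ → Submodule (ZMod p) (MonoidAlgebra (ZMod p) H)) : Prop where
  zero : F 0 = ⊤
  anti : Antitone F
  mul : ∀ i j x y, x ∈ F i → y ∈ F j → x * y ∈ F (i + j)
  one : ∀ i h, h ∈ S i → of (ZMod p) H h - 1 ∈ F i

/-- the smallest filtration -/
def EE (p : ℕ) {H : Type} [Group H] (S : ℕ → Subgroup H) (n : ℕ) :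
    Submodule (ZMod p) (MonoidAlgebra (ZMod p) H) where
  carrier := {x | ∀ F, Fam p S F → x ∈ F n}
  add_mem' := fun hx hy F hF => (F n).add_mem (hx F hF) (hy F hF)
  zero_mem' := fun F _ => (F n).zero_mem
  smul_mem' := fun c _ hx F hF => (F n).smul_mem c (hx F hF)

section

variable {p : ℕ} {H : Type} [Group H] {S : ℕ → Subgroup H}

lemma mem_EE {n : ℕ} {x : MonoidAlgebra (ZMod p) H} :
    x ∈ EE p S n ↔ ∀ F, Fam p S F → x ∈ F n := Iff.rfl

lemma fam_EE : Fam p S (EE p S) where
  zero := by
    rw [Submodule.eq_top_iff']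
    intro x F hF
    rw [hF.zero]
    exact Submodule.mem_top
  anti := fun _ _ h _ hx F hF => hF.anti h (hx F hF)
  mul := fun i j _ _ hx hy F hF => hF.mul i j _ _ (hx F hF) (hy F hF)
  one := fun i h hh F hF => hF.one i h hh

/-- filtered representation, faithful modulo `W (c + 1)` -/
def HasRep (p : ℕ) (H : Type) [Group H] (S : ℕ → Subgroup H) (c : ℕ) : Prop :=
  ∃ (V : Type) (_ : AddCommGroup V) (_ : Module (ZMod p) V) (_ : Finite V)
    (W : ℕ → Submodule (ZMod p) V) (r : H →* Module.End (ZMod p) V),
    W 0 = ⊤ ∧ Antitone W ∧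
    (∀ i j h v, h ∈ S i → v ∈ W j → r h v - v ∈ W (i + j)) ∧
    ∀ h, (∀ v, r h v - v ∈ W (c + 1)) → h = 1

lemma inj_of_rep {c : ℕ} (hS : Ser S) (hR : HasRep p H S c) {h : H}
    (hh : of (ZMod p) H h - 1 ∈ EE p S (c + 1)) : h = 1 := by
  obtain ⟨V, _, _, _, W, r, h0, hanti, hW, hf⟩ := hR
  refine hf h fun v => ?_
  set L := MonoidAlgebra.lift (ZMod p) (Module.End (ZMod p) V) H r with hL
  set F : ℕ → Submodule (ZMod p) (MonoidAlgebra (ZMod p) H) := fun j =>
    { carrier := {x | ∀ k v, v ∈ W k → L x v ∈ W (j + k)}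
      add_mem' := by
        intro x y hx hy k v hv
        rw [map_add, LinearMap.add_apply]
        exact (W (j + k)).add_mem (hx k v hv) (hy k v hv)
      zero_mem' := by
        intro k v _
        rw [map_zero, LinearMap.zero_apply]
        exact (W (j + k)).zero_mem
      smul_mem' := by
        intro a x hx k v hv
        rw [map_smul, LinearMap.smul_apply]
        exact (W (j + k)).smul_mem a (hx k v hv) } with hF
  have hLof : ∀ g : H, L (of (ZMod p) H g) = r g := fun g => by
    rw [hL, MonoidAlgebra.lift_of]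
  have hfam : Fam p S F := by
    refine ⟨?_, ?_, ?_, ?_⟩
    · rw [Submodule.eq_top_iff']
      intro x
      show ∀ k v, v ∈ W k → L x v ∈ W (0 + k)
      intro k v hv
      rw [zero_add]
      induction x using MonoidAlgebra.induction_linear with
      | zero => rw [map_zero, LinearMap.zero_apply]; exact (W k).zero_mem
      | add x y hx hy => rw [map_add, LinearMap.add_apply]; exact (W k).add_mem hx hy
      | single g a =>
        rw [hL, MonoidAlgebra.lift_single, LinearMap.smul_apply]
        refine (W k).smul_mem a ?_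
        have h1 := hW 0 k g v (by rw [hS.zero]; exact Subgroup.mem_top _) hv
        rw [zero_add] at h1
        have h2 := (W k).add_mem h1 hv
        rwa [sub_add_cancel] at h2
    · intro i j hij x hx k v hv
      exact hanti (by omega) (hx k v hv)
    · intro i j x y hx hy k v hv
      rw [map_mul, Module.End.mul_apply]
      have := hx (j + k) _ (hy k v hv)
      rwa [← add_assoc] at this
    · intro i g hg k v hv
      rw [map_sub, map_one, hLof, LinearMap.sub_apply, Module.End.one_apply]
      exact hW i k g v hg hv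
  have h1 := hh F hfam 0 v (by rw [h0]; exact Submodule.mem_top)
  rw [map_sub, map_one, hLof, LinearMap.sub_apply, Module.End.one_apply, add_zero] at h1
  exact h1

/-! ### the action of a group on the group algebra of a normal subgroup -/

variable {N : Subgroup H}

/-- the series of a subgroup -/
def SN (S : ℕ → Subgroup H) (N : Subgroup H) (i : ℕ) : Subgroup N := (S i).subgroupOf N

lemma mem_SN {i : ℕ} {n : N} : n ∈ SN S N i ↔ (n : H) ∈ S i := Subgroup.mem_subgroupOf

lemma ser_SN (hS : Ser S) : Ser (SN S N) where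
  zero := by
    rw [Subgroup.eq_top_iff']
    intro n
    rw [mem_SN, hS.zero]
    exact Subgroup.mem_top _
  one := by
    rw [Subgroup.eq_top_iff']
    intro n
    rw [mem_SN, hS.one]
    exact Subgroup.mem_top _
  anti := fun i j hij n hn => by
    rw [mem_SN] at hn ⊢
    exact hS.anti hij hn
  comm := by
    intro i j
    rw [Subgroup.commutator_le]
    intro a ha b hb
    rw [mem_SN] at ha hb ⊢
    exact hS.comm i j (Subgroup.commutator_mem_commutator ha hb)

/-- conjugation on the group algebra -/
noncomputable def sg (p : ℕ) (N : Subgroup H) [N.Normal] (g : H) :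
    MonoidAlgebra (ZMod p) N →ₐ[ZMod p] MonoidAlgebra (ZMod p) N :=
  MonoidAlgebra.lift (ZMod p) (MonoidAlgebra (ZMod p) N) N
    ((of (ZMod p) N).comp (MulAut.conjNormal g).toMonoidHom)

lemma sg_of [N.Normal] (g : H) (n : N) :
    sg p N g (of (ZMod p) N n) = of (ZMod p) N (MulAut.conjNormal g n) := by
  unfold sg
  rw [MonoidAlgebra.lift_of]
  rfl

lemma sg_mul [N.Normal] (g g' : H) (x : MonoidAlgebra (ZMod p) N) :
    sg p N (g * g') x = sg p N g (sg p N g' x) := by
  induction x using MonoidAlgebra.induction_linear with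
  | zero => simp
  | add x y hx hy => rw [map_add, map_add, map_add, hx, hy]
  | single n a =>
    have e : (MonoidAlgebra.single n a : MonoidAlgebra (ZMod p) N) = a • of (ZMod p) N n := by
      rw [MonoidAlgebra.of_apply, MonoidAlgebra.smul_single, smul_eq_mul, mul_one]
    rw [e, map_smul, map_smul, map_smul, sg_of, sg_of, sg_of, map_mul]
    rfl

lemma sg_one [N.Normal] (x : MonoidAlgebra (ZMod p) N) : sg p N (1 : H) x = x := by
  induction x using MonoidAlgebra.induction_linear with
  | zero => simp
  | add x y hx hy => rw [map_add, hx, hy]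
  | single n a =>
    have e : (MonoidAlgebra.single n a : MonoidAlgebra (ZMod p) N) = a • of (ZMod p) N n := by
      rw [MonoidAlgebra.of_apply, MonoidAlgebra.smul_single, smul_eq_mul, mul_one]
    rw [e, map_smul, sg_of, map_one]
    rfl

lemma conj_mem (hS : Ser S) {i : ℕ} (g : H) {n : H} (hn : n ∈ S i) : g * n * g⁻¹ ∈ S i := by
  have h1 := hS.comm 0 i (Subgroup.commutator_mem_commutator
    (by rw [hS.zero]; exact Subgroup.mem_top g) hn)
  rw [zero_add] at h1
  have h2 := (S i).mul_mem h1 hn
  rwa [commutatorElement_def, inv_mul_cancel_right] at h2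

lemma sg_mem (hS : Ser S) [N.Normal] (g : H) {j : ℕ} {x : MonoidAlgebra (ZMod p) N}
    (hx : x ∈ EE p (SN S N) j) : sg p N g x ∈ EE p (SN S N) j := by
  intro F hF
  have hfam : Fam p (SN S N) (fun j => (F j).comap (sg p N g).toLinearMap) := by
    refine ⟨?_, ?_, ?_, ?_⟩
    · show (F 0).comap _ = ⊤
      rw [hF.zero, Submodule.comap_top]
    · intro i j hij x hx
      exact hF.anti hij hx
    · intro i j x y hx hy
      show sg p N g (x * y) ∈ F (i + j)
      rw [map_mul]
      exact hF.mul i j _ _ hx hy
    · intro i n hn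
      show sg p N g (of (ZMod p) N n - 1) ∈ F i
      rw [map_sub, map_one, sg_of]
      refine hF.one i _ ?_
      rw [mem_SN] at hn ⊢
      exact conj_mem hS g hn
  exact hx _ hfam

/-- the difference of an element of the algebra and its conjugate -/
lemma sg_of_sub (hS : Ser S) [N.Normal] {g : H} {k i : ℕ} (hg : g ∈ S k) {n : N}
    (hn : n ∈ SN S N i) :
    sg p N g (of (ZMod p) N n) - of (ZMod p) N n ∈ EE p (SN S N) (k + i) := by
  rw [sg_of]
  set m : N := MulAut.conjNormal g n * n⁻¹ with hm
  have e : of (ZMod p) N (MulAut.conjNormal g n) - of (ZMod p) N n =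
      (of (ZMod p) N m - 1) * of (ZMod p) N n := by
    rw [sub_mul, one_mul, ← map_mul, hm, inv_mul_cancel_right]
  rw [e]
  have h1 : m ∈ SN S N (k + i) := by
    rw [mem_SN] at hn ⊢
    exact hS.comm k i (Subgroup.commutator_mem_commutator hg hn)
  have h2 := (fam_EE (p := p) (S := SN S N)).mul (k + i) 0 _ _
    ((fam_EE (p := p) (S := SN S N)).one (k + i) m h1)
    (show of (ZMod p) N n ∈ EE p (SN S N) 0 by
      rw [(fam_EE (p := p) (S := SN S N)).zero]; exact Submodule.mem_top)
  rwa [add_zero] at h2

lemma sg_sub_mem (hS : Ser S) [N.Normal] {g : H} {k : ℕ} (hg : g ∈ S k) {j : ℕ}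
    {x : MonoidAlgebra (ZMod p) N} (hx : x ∈ EE p (SN S N) j) :
    sg p N g x - x ∈ EE p (SN S N) (k + j) := by
  have hE := fam_EE (p := p) (S := SN S N)
  set F : ℕ → Submodule (ZMod p) (MonoidAlgebra (ZMod p) N) := fun j =>
    EE p (SN S N) j ⊓ (EE p (SN S N) (k + j)).comap ((sg p N g).toLinearMap - LinearMap.id)
    with hF
  have hmem : ∀ j x, x ∈ F j ↔ x ∈ EE p (SN S N) j ∧ sg p N g x - x ∈ EE p (SN S N) (k + j) :=
    fun j x => Iff.rfl
  have hfam : Fam p (SN S N) F := by
    refine ⟨?_, ?_, ?_, ?_⟩
    · rw [Submodule.eq_top_iff']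
      intro x
      rw [hmem, hE.zero, add_zero]
      refine ⟨Submodule.mem_top, ?_⟩
      induction x using MonoidAlgebra.induction_linear with
      | zero => rw [map_zero, sub_zero]; exact Submodule.zero_mem _
      | add x y hx hy =>
        rw [map_add, add_sub_add_comm]
        exact Submodule.add_mem _ hx hy
      | single n a =>
        have e : (MonoidAlgebra.single n a : MonoidAlgebra (ZMod p) N) = a • of (ZMod p) N n := by
          rw [MonoidAlgebra.of_apply, MonoidAlgebra.smul_single, smul_eq_mul, mul_one]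
        rw [e, map_smul, ← smul_sub]
        refine Submodule.smul_mem _ a ?_
        have h1 := sg_of_sub (p := p) hS hg (n := n) (i := 0)
          (by rw [mem_SN, hS.zero]; exact Subgroup.mem_top _)
        rwa [add_zero] at h1
    · intro i j hij x hx
      rw [hmem] at hx ⊢
      exact ⟨hE.anti hij hx.1, hE.anti (by omega) hx.2⟩
    · intro i j x y hx hy
      rw [hmem] at hx hy ⊢
      refine ⟨hE.mul i j x y hx.1 hy.1, ?_⟩
      have e : sg p N g (x * y) - x * y = (sg p N g x - x) * sg p N g y +
          x * (sg p N g y - y) := by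
        rw [map_mul]
        noncomm_ring
      rw [e]
      refine Submodule.add_mem _ ?_ ?_
      · have := hE.mul (k + i) j _ _ hx.2 (sg_mem hS g hy.1)
        rwa [add_assoc] at this
      · have := hE.mul i (k + j) _ _ hx.1 hy.2
        rwa [← add_assoc, add_comm i k, add_assoc] at this
    · intro i n hn
      rw [hmem]
      refine ⟨hE.one i n hn, ?_⟩
      have e : sg p N g (of (ZMod p) N n - 1) - (of (ZMod p) N n - 1) =
          sg p N g (of (ZMod p) N n) - of (ZMod p) N n := by
        rw [map_sub, map_one]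
        abel
      rw [e]
      exact sg_of_sub hS hg hn
  exact (hx F hfam).2

end

end Pool.Agent.ExpP
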