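import Mathlib
import Pool.Agent.Lib.MP_5c99ad_al.CertB
import Pool.Agent.Lib.MP_5c99ad_al.CertVW
import Pool.Agent.Lib.MP_5c99ad_al.CertBX
import Pool.Agent.Lib.MP_5c99ad_al.CertXY

set_option autoImplicit false

/-!
The three block laws.
-/

namespace Pool.Agent.MP5c99ad

open H90

theorem lawVW : LawVW := by
  intro U _ p a r q h
  let g : L → U := fun l => @L.rec (fun _ => U) p a r q p p l
  have hg : Comm g := ⟨h.pr.symm, h.ar.symm, h.pq.symm, h.aq.symm⟩
  have hS : ∀ l, g l ∈ ({p, a, r, q} ∪ ∅ : Set U) := by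
    intro l; cases l <;> simp [g]
  have key := check_sound h.five hg hS h.sym VW.vw VW.tgt VW.ok
  have e : brk (brk p a) a * brk (brk r q) q + pev g VW.tgt =
      5 * (p*a*a*r*q*q + p*a*a*q*q*r + a*p*a*q*r*q + a*a*p*r*q*q + a*a*p*q*q*r) := by
    simp only [VW.tgt, pev, ev, g, List.map_cons, List.map_nil, List.sum_cons, List.sum_nil,
      List.prod_cons, List.prod_nil, brk]
    push_cast
    noncomm_ring
  rw [key, h.five, zero_mul, add_zero] at e
  exact e

theorem lawBX : LawBX := by
  intro U _ p a r q x h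
  let g : L → U := fun l => @L.rec (fun _ => U) p a r q x x l
  have hg : Comm g := ⟨h.pr.symm, h.ar.symm, h.pq.symm, h.aq.symm⟩
  have hS : ∀ l, g l ∈ ({p, a, r, q} ∪ {x} : Set U) := by
    intro l; cases l <;> simp [g]
  have key := check_sound h.five hg hS h.sym BX.bx BX.tgt BX.ok
  have e : brk (brk p a) a * x * brk (brk r q) q * x + pev g BX.tgt =
      5 * (p*a*a*x*r*q*q*x + p*a*a*x*q*q*r*x + a*p*a*x*q*r*q*x + a*a*p*x*r*q*q*x
        + a*a*p*x*q*q*r*x) := by
    simp only [BX.tgt, pev, ev, g, List.map_cons, List.map_nil, List.sum_cons, List.sum_nil,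
      List.prod_cons, List.prod_nil, brk]
    push_cast
    noncomm_ring
  rw [key, h.five, zero_mul, add_zero] at e
  exact e

theorem lawXY : LawXY := by
  intro U _ p a r q x y h
  let g : L → U := fun l => @L.rec (fun _ => U) p a r q x y l
  have hg : Comm g := ⟨h.pr.symm, h.ar.symm, h.pq.symm, h.aq.symm⟩
  have hS : ∀ l, g l ∈ ({p, a, r, q} ∪ {x, y} : Set U) := by
    intro l; cases l <;> simp [g]
  have key := check_sound h.five hg hS h.sym XY.xy XY.tgt XY.ok
  have e : brk (brk p a) a * x * y * brk (brk r q) q + pev g XY.tgt =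
      5 * (p*a*a*x*y*r*q*q + p*a*a*x*y*q*q*r + a*p*a*x*y*q*r*q + a*a*p*x*y*r*q*q
        + a*a*p*x*y*q*q*r) := by
    simp only [XY.tgt, pev, ev, g, List.map_cons, List.map_nil, List.sum_cons, List.sum_nil,
      List.prod_cons, List.prod_nil, brk]
    push_cast
    noncomm_ring
  rw [key, h.five, zero_mul, add_zero] at e
  exact e

end Pool.Agent.MP5c99ad
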