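import Pool.Agent.Lib.MP_5c99ad_al.Mat
import Pool.Agent.Lib.MP_5c99ad_al.Emb

/-!
# The lower central series as an `N`-series, and the final theorem (MP_5c99ad_al)
-/

set_option autoImplicit false

namespace Pool.Agent.ExpP

open scoped commutatorElement

section

variable {H : Type} [Group H]

/-- the three subgroups lemma modulo a normal subgroup -/
lemma three_subgroups {A B C N : Subgroup H} [N.Normal] (h1 : ⁅⁅B, C⁆, A⁆ ≤ N)
    (h2 : ⁅⁅C, A⁆, B⁆ ≤ N) : ⁅⁅A, B⁆, C⁆ ≤ N := by
  have key : ∀ K : Subgroup H, K ≤ N ↔ K.map (QuotientGroup.mk' N) = ⊥ := by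
    intro K
    rw [Subgroup.map_eq_bot_iff, QuotientGroup.ker_mk']
  rw [key, Subgroup.map_commutator, Subgroup.map_commutator] at h1 h2 ⊢
  exact Subgroup.commutator_commutator_eq_bot_of_rotate h1 h2

lemma lcs_comm (i j : ℕ) : ⁅(⊤ : Subgroup H).lowerCentralSeries i,
    (⊤ : Subgroup H).lowerCentralSeries j⁆ ≤ (⊤ : Subgroup H).lowerCentralSeries (i + j + 1) := by
  induction j generalizing i with
  | zero => exact le_rfl
  | succ j ih =>
    rw [Subgroup.commutator_comm, Subgroup.lowerCentralSeries_succ]
    refine three_subgroups ?_ ?_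
    · rw [Subgroup.commutator_comm ⊤, ← Subgroup.lowerCentralSeries_succ]
      refine (ih (i + 1)).trans (le_of_eq ?_)
      congr 1
      omega
    · have h := Subgroup.commutator_mono (ih i) (le_refl (⊤ : Subgroup H))
      rw [← Subgroup.lowerCentralSeries_succ] at h
      exact h

/-- the series -/
lemma ser_lcs : Ser fun i => (⊤ : Subgroup H).lowerCentralSeries (i - 1) where
  zero := rfl
  one := rfl
  anti := fun i j hij => Subgroup.lowerCentralSeries_antitone _ (Nat.sub_le_sub_right hij 1)
  comm := by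
    intro i j
    show ⁅(⊤ : Subgroup H).lowerCentralSeries (i - 1),
      (⊤ : Subgroup H).lowerCentralSeries (j - 1)⁆ ≤ (⊤ : Subgroup H).lowerCentralSeries (i + j - 1)
    rcases Nat.eq_zero_or_pos i with rfl | hi
    · rw [Nat.zero_add]
      exact Subgroup.commutator_le_right _ _
    rcases Nat.eq_zero_or_pos j with rfl | hj
    · exact Subgroup.commutator_le_left _ _
    · refine (lcs_comm _ _).trans (le_of_eq ?_)
      congr 1
      omega

end

/-- **every finite group of exponent `p` and class at most `p - 2` embeds in the derived subgroup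
of a finite group of exponent `p`** -/
theorem small_class (p : ℕ) (hp : p.Prime) (H : Type) [Group H] [Finite H]
    (hexp : ∀ h : H, h ^ p = 1) (hcl : (⊤ : Subgroup H).lowerCentralSeries (p - 2) = ⊥) :
    ∃ (G : Type) (_ : Group G), Finite G ∧ (∀ y : G, y ^ p = 1) ∧
      ∃ φ : H →* G, Function.Injective φ ∧ ∀ h, φ h ∈ commutator G := by
  haveI : Fact p.Prime := ⟨hp⟩
  obtain ⟨M, _, _, lev, R, hlev, hinj, hR⟩ := exists_matrix hexp (ser_lcs (H := H)) (c := p - 2) hcl
  have h2 := hp.two_le
  exact embed (c := p - 2) (by omega) hlev R hinj hR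

end Pool.Agent.ExpP
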