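import Pool.Agent.Lib.MP_5c99ad_al.Rep

/-!
# Matrix form of the filtered representation (MP_5c99ad_al)
-/

set_option autoImplicit false

namespace Pool.Agent.ExpP

section

variable {K U : Type} [Field K] [AddCommGroup U] [Module K U]

/-- a linearly independent set adapted to a filtration -/
lemma exists_adapted (W : ℕ → Submodule K U) (hanti : Antitone W) (c : ℕ) (hbot : W (c + 1) = ⊥) :
    ∀ k, k ≤ c + 1 → ∃ B : Set U, LinearIndepOn K (fun x : U => x) B ∧
      (∀ x ∈ B, x ∈ W (c + 1 - k)) ∧
      ∀ j, c + 1 - k ≤ j → W j ≤ Submodule.span K (B ∩ W j) := by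
  intro k
  induction k with
  | zero =>
    intro _
    refine ⟨∅, linearIndepOn_empty K _, fun x hx => absurd hx (Set.notMem_empty x), ?_⟩
    intro j hj
    have h1 : W j ≤ W (c + 1) := hanti (by omega)
    rw [hbot] at h1
    exact h1.trans bot_le
  | succ k ih =>
    intro hk
    obtain ⟨B, hB1, hB2, hB3⟩ := ih (by omega)
    have hsub : B ⊆ (W (c + 1 - (k + 1)) : Set U) := fun x hx =>
      hanti (by omega : c + 1 - (k + 1) ≤ c + 1 - k) (hB2 x hx)
    obtain ⟨B', h1, h2, h3, h4⟩ := exists_linearIndepOn_extension hB1 hsub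
    refine ⟨B', h4, fun x hx => h1 hx, ?_⟩
    intro j hj
    rcases Nat.lt_or_ge j (c + 1 - k) with h5 | h5
    · have e : j = c + 1 - (k + 1) := by omega
      subst e
      intro x hx
      have h6 := h3 (Set.mem_image_of_mem (fun x : U => x) (show x ∈ (W (c + 1 - (k + 1)) : Set U)
        from hx))
      have e2 : (fun x : U => x) '' B' = B' ∩ (W (c + 1 - (k + 1)) : Set U) := by
        rw [Set.image_id', Set.inter_eq_left.2 h1]
      rw [e2] at h6
      exact h6
    · refine (hB3 j h5).trans (Submodule.span_mono ?_)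
      exact Set.inter_subset_inter_left _ h2

end

/-- **the matrix form** -/
theorem exists_matrix {p : ℕ} [Fact p.Prime] {H : Type} [Group H] [Finite H]
    (hexp : ∀ h : H, h ^ p = 1) {S : ℕ → Subgroup H} (hS : Ser S) {c : ℕ} (hc : S (c + 1) = ⊥) :
    ∃ (M : Type) (_ : Fintype M) (_ : DecidableEq M) (lev : M → ℕ)
      (R : H →* Matrix M M (ZMod p)), (∀ m, lev m ≤ c) ∧ Function.Injective R ∧
        ∀ h i j, R h i j ≠ (1 : Matrix M M (ZMod p)) i j → lev j < lev i := by
  obtain ⟨V, _, _, _, W, r, h0, hanti, hW, hf⟩ := hasRep c (Nat.card H) H inferInstance inferInstance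
    S rfl hexp hS hc
  set Z := W (c + 1) with hZ
  have hrZ : ∀ h : H, Z ≤ Z.comap (r h) := by
    intro h v hv
    have h1 := hW 0 (c + 1) h v (by rw [hS.zero]; exact Subgroup.mem_top _) hv
    rw [zero_add] at h1
    have h2 := Z.add_mem h1 hv
    rw [sub_add_cancel] at h2
    exact h2
  set r' : H →* Module.End (ZMod p) (V ⧸ Z) :=
    { toFun := fun h => Z.mapQ Z (r h) (hrZ h)
      map_one' := by
        refine LinearMap.ext fun v => ?_
        obtain ⟨v, rfl⟩ := Submodule.mkQ_surjective Z v
        rw [Submodule.mkQ_apply, Submodule.mapQ_apply, map_one]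
        rfl
      map_mul' := by
        intro a b
        refine LinearMap.ext fun v => ?_
        obtain ⟨v, rfl⟩ := Submodule.mkQ_surjective Z v
        rw [Module.End.mul_apply, Submodule.mkQ_apply, Submodule.mapQ_apply, Submodule.mapQ_apply,
          Submodule.mapQ_apply, map_mul]
        rfl } with hr'
  have r'_apply : ∀ h v, r' h (Submodule.Quotient.mk v) = Submodule.Quotient.mk (r h v) :=
    fun h v => rfl
  have r'_inj : Function.Injective r' := by
    rw [injective_iff_map_eq_one]
    intro h hh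
    refine hf h fun v => ?_
    have h1 := r'_apply h v
    rw [hh, Module.End.one_apply] at h1
    exact (Submodule.Quotient.eq Z).1 h1.symm
  set W' : ℕ → Submodule (ZMod p) (V ⧸ Z) := fun j => (W j).map Z.mkQ with hW'
  have hanti' : Antitone W' := fun i j hij => Submodule.map_mono (hanti hij)
  have hbot' : W' (c + 1) = ⊥ := by
    show (W (c + 1)).map Z.mkQ = ⊥
    exact Submodule.mkQ_map_self Z
  have htop' : W' 0 = ⊤ := by
    show (W 0).map Z.mkQ = ⊤
    rw [h0, Submodule.map_top, Submodule.range_mkQ]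
  have hstep : ∀ h j v, v ∈ W' j → r' h v - v ∈ W' (1 + j) := by
    intro h j v hv
    obtain ⟨u, hu, rfl⟩ := Submodule.mem_map.1 hv
    refine Submodule.mem_map.2 ⟨r h u - u, hW 1 j h u (by rw [hS.one]; exact Subgroup.mem_top _) hu,
      ?_⟩
    rw [map_sub]
    rfl
  obtain ⟨B, hB1, _, hB3⟩ := exists_adapted W' hanti' c hbot' (c + 1) le_rfl
  classical
  have hfinU : Finite (V ⧸ Z) := Finite.of_surjective _ (Submodule.mkQ_surjective Z)
  have hspan : ⊤ ≤ Submodule.span (ZMod p) (Set.range (fun x : B => (x : V ⧸ Z))) := by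
    rw [Subtype.range_coe_subtype, Set.ofPred_mem_eq, ← htop']
    exact (hB3 0 (by omega)).trans (Submodule.span_mono Set.inter_subset_left)
  set b : Module.Basis B (ZMod p) (V ⧸ Z) := Module.Basis.mk (v := fun x : B => (x : V ⧸ Z)) hB1 hspan
    with hb
  have hbx : ∀ x : B, b x = (x : V ⧸ Z) := fun x => Module.Basis.mk_apply _ _ x
  have : Fintype B := Fintype.ofFinite B
  set lev : B → ℕ := fun x => Nat.findGreatest (fun j => (x : V ⧸ Z) ∈ W' j) c with hlev
  have lev_le : ∀ x, lev x ≤ c := fun x => Nat.findGreatest_le c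
  have lev_mem : ∀ x : B, (x : V ⧸ Z) ∈ W' (lev x) := by
    intro x
    exact Nat.findGreatest_spec (P := fun j => (x : V ⧸ Z) ∈ W' j) (m := 0) (Nat.zero_le c)
      (by rw [htop']; exact Submodule.mem_top)
  have le_lev : ∀ (x : B) j, (x : V ⧸ Z) ∈ W' j → j ≤ lev x := by
    intro x j hj
    have hjc : j ≤ c := by
      by_contra hcon
      have h1 := hanti' (by omega : c + 1 ≤ j) hj
      rw [hbot', Submodule.mem_bot] at h1
      exact b.ne_zero x (by rw [hbx]; exact h1)
    exact Nat.le_findGreatest hjc hj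
  refine ⟨B, inferInstance, inferInstance, lev,
    (LinearMap.toMatrixAlgEquiv b).toAlgHom.toRingHom.toMonoidHom.comp r', lev_le, ?_, ?_⟩
  · intro h h' hh
    exact r'_inj ((LinearMap.toMatrixAlgEquiv b).injective hh)
  · intro h i j hij
    have e1 : (LinearMap.toMatrixAlgEquiv b) (r' h) i j - (1 : Matrix B B (ZMod p)) i j =
        b.repr (r' h (b j) - b j) i := by
      have e2 : (1 : Matrix B B (ZMod p)) = LinearMap.toMatrixAlgEquiv b 1 := by rw [map_one]
      rw [e2, LinearMap.toMatrixAlgEquiv_apply, LinearMap.toMatrixAlgEquiv_apply, map_sub,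
        Finsupp.sub_apply]
      rfl
    have h1 : b.repr (r' h (b j) - b j) i ≠ 0 := by
      rw [← e1]
      exact sub_ne_zero.2 hij
    have h2 : r' h (b j) - b j ∈ W' (1 + lev j) := by
      refine hstep h _ _ ?_
      rw [hbx]
      exact lev_mem j
    have h3 := hB3 (1 + lev j) (by omega) h2
    have e3 : B ∩ (W' (1 + lev j) : Set (V ⧸ Z)) = b '' {x : B | (x : V ⧸ Z) ∈ W' (1 + lev j)} := by
      ext y
      constructor
      · rintro ⟨hy1, hy2⟩
        exact ⟨⟨y, hy1⟩, hy2, hbx _⟩
      · rintro ⟨x, hx, rfl⟩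
        rw [hbx]
        exact ⟨x.2, hx⟩
    rw [e3] at h3
    have h4 := b.repr_support_subset_of_mem_span _ h3 (Finsupp.mem_support_iff.2 h1)
    have h5 := le_lev i _ h4
    omega

end Pool.Agent.ExpP
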