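import Mathlib

/-!
# Powers of `A S` in a filtered ring of characteristic `p` (MP_5c99ad_al)
-/

set_option autoImplicit false

namespace Pool.Agent.ExpP

open Finset

/-- a filtered ring in which `p` vanishes and the `(p-1)`-st step is zero -/
structure Filt {S : Type*} [Ring S] (p : ℕ) (N : ℕ → AddSubgroup S) : Prop where
  char : (p : S) = 0
  mul : ∀ {i j : ℕ} {x y : S}, x ∈ N i → y ∈ N j → x * y ∈ N (i + j)
  one : (1 : S) ∈ N 0
  anti : Antitone N
  bot : N (p - 1) = ⊥

section

variable {S : Type*} [Ring S] {p : ℕ} {N : ℕ → AddSubgroup S}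

lemma Filt.pow_mem (hF : Filt p N) {x : S} (hx : x ∈ N 1) (n : ℕ) : x ^ n ∈ N n := by
  induction n with
  | zero => rw [pow_zero]; exact hF.one
  | succ n ih => rw [pow_succ]; exact hF.mul ih hx

lemma Filt.eq_zero (hF : Filt p N) {x : S} {k : ℕ} (hx : x ∈ N k) (hk : p - 1 ≤ k) : x = 0 := by
  have h := hF.anti hk hx
  rw [hF.bot] at h
  exact (AddSubgroup.mem_bot).1 h

lemma Filt.natCast_eq_zero (hF : Filt p N) {n : ℕ} (h : p ∣ n) : (n : S) = 0 := by
  obtain ⟨k, rfl⟩ := h
  rw [Nat.cast_mul, hF.char, zero_mul]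

/-- `A^p = 1` for unipotent `A` -/
lemma Filt.pow_p (hF : Filt p N) (hp : p.Prime) {A : S} (hA : A - 1 ∈ N 1) : A ^ p = 1 := by
  set x := A - 1 with hx
  have hAx : A = x + 1 := by rw [hx, sub_add_cancel]
  rw [hAx, (Commute.one_right x).add_pow, Finset.sum_eq_single 0]
  · simp
  · intro m hm hm0
    rcases Nat.lt_or_ge m p with h | h
    · rw [hF.natCast_eq_zero (hp.dvd_choose_self hm0 h), mul_zero]
    · rw [hF.eq_zero (hF.pow_mem hA m) (by omega), zero_mul, zero_mul]
  · intro h
    exact absurd (Finset.mem_range.2 (Nat.succ_pos p)) h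

lemma sum_choose (m n : ℕ) : ∑ i ∈ range n, i.choose m = n.choose (m + 1) := by
  induction n with
  | zero => simp
  | succ n ih => rw [sum_range_succ, ih, Nat.choose_succ_succ, add_comm]

lemma sum_mul_choose (m n : ℕ) :
    ∑ i ∈ range n, i * i.choose m = (m + 1) * n.choose (m + 2) + m * n.choose (m + 1) := by
  have h : ∀ i, i * i.choose m = (m + 1) * i.choose (m + 1) + m * i.choose m := by
    intro i
    rcases Nat.lt_or_ge i m with h | h
    · rw [Nat.choose_eq_zero_of_lt h, Nat.choose_eq_zero_of_lt (by omega : i < m + 1)]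
      simp
    · have h1 := Nat.choose_succ_right_eq i m
      obtain ⟨d, rfl⟩ := Nat.exists_eq_add_of_le h
      rw [Nat.add_sub_cancel_left] at h1
      nlinarith
  rw [Finset.sum_congr rfl fun i _ => h i, Finset.sum_add_distrib, ← Finset.mul_sum,
    ← Finset.mul_sum, sum_choose, sum_choose]

/-- the weighted sum of the conjugates vanishes -/
lemma Filt.sum_zero (hF : Filt p N) (hp : p.Prime) {A D : S} (hA : A - 1 ∈ N 1) (hD : D ∈ N 1) :
    ∑ n ∈ range p, (n : S) * (A ^ n * D * A ^ (p - 1 - n)) = 0 := by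
  set L : Module.End ℤ S := LinearMap.mulLeft ℤ A with hL
  set R : Module.End ℤ S := LinearMap.mulRight ℤ A with hR
  have hLR : Commute L R := LinearMap.commute_mulLeft_right A A
  set E : Module.End ℤ S := L - R with hE
  have hER : Commute E R := hLR.sub_left (Commute.refl R)
  have hRp : ∀ n (y : S), (R ^ n) y = y * A ^ n := by
    intro n y
    rw [hR, LinearMap.pow_mulRight, LinearMap.mulRight_apply]
  have hLp : ∀ n (y : S), (L ^ n) y = A ^ n * y := by
    intro n y
    rw [hL, LinearMap.pow_mulLeft, LinearMap.mulLeft_apply]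
  have hEm : ∀ m, (E ^ m) D ∈ N (m + 1) := by
    intro m
    induction m with
    | zero => rw [pow_zero, zero_add, Module.End.one_apply]; exact hD
    | succ m ih =>
      rw [pow_succ', Module.End.mul_apply]
      set Y := (E ^ m) D
      have e : E Y = (A - 1) * Y - Y * (A - 1) := by
        rw [hE, LinearMap.sub_apply, hL, hR, LinearMap.mulLeft_apply, LinearMap.mulRight_apply]
        noncomm_ring
      rw [e]
      refine (N _).sub_mem ?_ ?_
      · have := hF.mul hA ih
        rwa [add_comm 1] at this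
      · exact hF.mul ih hA
  have hterm : ∀ n ∈ range p, A ^ n * D * A ^ (p - 1 - n) =
      ∑ m ∈ range p, (n.choose m : S) * ((E ^ m) D * A ^ (p - 1 - m)) := by
    intro n hn
    rw [mem_range] at hn
    have e1 : A ^ n * D = ∑ m ∈ range (n + 1), (n.choose m : S) * ((E ^ m) D * A ^ (n - m)) := by
      rw [← hLp]
      have e2 : L = E + R := by rw [hE, sub_add_cancel]
      rw [e2, hER.add_pow, LinearMap.sum_apply]
      refine Finset.sum_congr rfl fun m _ => ?_
      rw [(hER.pow_pow m (n - m)).eq, Module.End.mul_apply, Module.End.mul_apply, hRp]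
      rw [← Module.End.mul_apply (E ^ m), ← Nat.cast_commute (n.choose m) (E ^ m) |>.eq,
        Module.End.mul_apply]
      rw [show ((n.choose m : ℕ) : Module.End ℤ S) ((E ^ m) D) = (n.choose m : S) * (E ^ m) D from ?_]
      · rw [mul_assoc]
      · rw [Module.End.natCast_apply, nsmul_eq_mul]
    rw [e1, Finset.sum_mul]
    have e3 : ∀ m ∈ range p, m ∉ range (n + 1) →
        (n.choose m : S) * ((E ^ m) D * A ^ (p - 1 - m)) = 0 := by
      intro m _ hm
      rw [mem_range, not_lt] at hm
      rw [Nat.choose_eq_zero_of_lt (by omega), Nat.cast_zero, zero_mul]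
    rw [← Finset.sum_subset (Finset.range_subset_range.2 (by omega)) e3]
    refine Finset.sum_congr rfl fun m hm => ?_
    rw [mem_range] at hm
    rw [mul_assoc, mul_assoc, ← pow_add]
    congr 3
    omega
  rw [Finset.sum_congr rfl fun n hn => by rw [hterm n hn, Finset.mul_sum], Finset.sum_comm]
  refine Finset.sum_eq_zero fun m hm => ?_
  rcases Nat.lt_or_ge (m + 2) p with h | h
  · have e : ∑ n ∈ range p, (n : S) * ((n.choose m : S) * ((E ^ m) D * A ^ (p - 1 - m))) =
        ((∑ n ∈ range p, n * n.choose m : ℕ) : S) * ((E ^ m) D * A ^ (p - 1 - m)) := by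
      rw [Nat.cast_sum, Finset.sum_mul]
      refine Finset.sum_congr rfl fun n _ => ?_
      rw [Nat.cast_mul, mul_assoc]
    rw [e, sum_mul_choose, hF.natCast_eq_zero, zero_mul]
    exact dvd_add (Dvd.dvd.mul_left (hp.dvd_choose_self (by omega) h) _)
      (Dvd.dvd.mul_left (hp.dvd_choose_self (by omega) (by omega)) _)
  · refine Finset.sum_eq_zero fun n _ => ?_
    rw [hF.eq_zero (hEm m) (by omega), zero_mul, mul_zero, mul_zero]

/-- the ordered product `A (A - D) (A - 2 D) ... (A - (m-1) D)` -/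
def Pr (A D : S) : ℕ → S
  | 0 => 1
  | m + 1 => Pr A D m * (A - (m : S) * D)

lemma Pr_eq {A D : S} (hDD : ∀ n, D * A ^ n * D = 0) (m : ℕ) :
    Pr A D m = A ^ m - ∑ n ∈ range m, (n : S) * (A ^ n * D * A ^ (m - 1 - n)) := by
  induction m with
  | zero => simp [Pr]
  | succ m ih =>
    rw [Pr, ih, sub_mul, mul_sub, ← pow_succ, Finset.sum_mul, Finset.sum_range_succ]
    have e1 : ∀ n ∈ range m, (n : S) * (A ^ n * D * A ^ (m - 1 - n)) * (A - (m : S) * D) =
        (n : S) * (A ^ n * D * A ^ (m + 1 - 1 - n)) := by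
      intro n hn
      rw [mem_range] at hn
      have e2 : A ^ n * D * A ^ (m - 1 - n) * ((m : S) * D) = 0 := by
        rw [← mul_assoc, ← (Nat.cast_commute m (A ^ n * D * A ^ (m - 1 - n))).eq,
          mul_assoc (m : S), mul_assoc (A ^ n), mul_assoc (A ^ n), hDD, mul_zero, mul_zero]
      rw [mul_assoc, mul_sub, e2, sub_zero, mul_assoc (A ^ n * D), ← pow_succ]
      congr 3
      omega
    rw [Finset.sum_congr rfl e1]
    have e3 : A ^ m * ((m : S) * D) = (m : S) * (A ^ m * D * A ^ (m + 1 - 1 - m)) := by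
      rw [show m + 1 - 1 - m = 0 by omega, pow_zero, mul_one, ← mul_assoc, ← mul_assoc,
        (Nat.cast_commute m (A ^ m)).eq]
    rw [e3]
    abel

/-- the powers of `A Q` -/
lemma mul_pow_Pr {A D Q : S} (hQA : Q * A = (A - D) * Q) (hQD : Q * D = D * Q) (m : ℕ) :
    (A * Q) ^ m = Pr A D m * Q ^ m := by
  have h1 : ∀ n : ℕ, Q ^ n * A = (A - (n : S) * D) * Q ^ n := by
    intro n
    induction n with
    | zero => simp
    | succ n ih =>
      rw [pow_succ', mul_assoc, ih, ← mul_assoc, mul_sub, hQA, ← mul_assoc Q,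
        ← (Nat.cast_commute n Q).eq, mul_assoc (n : S), hQD, ← mul_assoc _ D Q, ← sub_mul,
        mul_assoc]
      congr 1
      push_cast
      noncomm_ring
  induction m with
  | zero => simp [Pr]
  | succ m ih =>
    rw [pow_succ, ih, Pr, mul_assoc, ← mul_assoc (Q ^ m), h1, mul_assoc _ (Q ^ m), ← pow_succ,
      mul_assoc]

/-- **the p-th power of `A Q` is one** -/
theorem Filt.AQ_pow (hF : Filt p N) (hp : p.Prime) {A D Q : S} (hA : A - 1 ∈ N 1) (hD : D ∈ N 1)
    (hQA : Q * A = (A - D) * Q) (hQD : Q * D = D * Q) (hDD : ∀ n, D * A ^ n * D = 0)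
    (hQ : Q ^ p = 1) : (A * Q) ^ p = 1 := by
  rw [mul_pow_Pr hQA hQD, Pr_eq hDD, hF.sum_zero hp hA hD, sub_zero, hQ, mul_one, hF.pow_p hp hA]

end

end Pool.Agent.ExpP
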