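import Pool.Agent.Lib.MP_5c99ad_al.Jennings

/-!
# Filtered representations of finite groups of exponent `p`: the induction (MP_5c99ad_al)
-/

set_option autoImplicit false

namespace Pool.Agent.ExpP

open MonoidAlgebra

section

variable {p : ℕ} [Fact p.Prime] {H : Type} [Group H]

lemma exists_dual' {V : Type} [AddCommGroup V] [Module (ZMod p) V] {q : V} (hq : q ≠ 0) :
    ∃ φ : V →+ ZMod p, φ q = 1 := by
  obtain ⟨φ, hφ⟩ : ∃ φ : Module.Dual (ZMod p) V, φ q ≠ 0 := by
    by_contra hcon
    push Not at hcon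
    exact hq ((Module.forall_dual_apply_eq_zero_iff (ZMod p) q).1 hcon)
  refine ⟨((φ q)⁻¹ • φ).toAddMonoidHom, ?_⟩
  show (φ q)⁻¹ • φ q = 1
  rw [smul_eq_mul]
  exact inv_mul_cancel₀ hφ

lemma exists_dual {V : Type} [AddCommGroup V] (hV : ∀ x : V, p • x = 0) {q : V} (hq : q ≠ 0) :
    ∃ φ : V →+ ZMod p, φ q = 1 := by
  let _ : Module (ZMod p) V := AddCommGroup.zmodModule hV
  exact exists_dual' hq

/-- a character that is trivial on a proper subgroup which contains the commutators -/
lemma exists_char (hexp : ∀ h : H, h ^ p = 1) (K : Subgroup H) (hK : K ≠ ⊤)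
    (hcomm : ⁅(⊤ : Subgroup H), (⊤ : Subgroup H)⁆ ≤ K) :
    ∃ (c : H → ZMod p) (g : H), (∀ a b, c (a * b) = c a + c b) ∧ (∀ a ∈ K, c a = 0) ∧ c g = 1 := by
  have hn : K.Normal := by
    refine ⟨fun n hn g => ?_⟩
    have h1 := hcomm (Subgroup.commutator_mem_commutator (Subgroup.mem_top g)
      (Subgroup.mem_top n))
    have h2 := K.mul_mem h1 hn
    rwa [commutatorElement_def, inv_mul_cancel_right] at h2
  let _ : CommGroup (H ⧸ K) :=
    { (inferInstance : Group (H ⧸ K)) with
      mul_comm := by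
        intro a b
        induction a using QuotientGroup.induction_on with
        | H a =>
          induction b using QuotientGroup.induction_on with
          | H b =>
            rw [← QuotientGroup.mk_mul, ← QuotientGroup.mk_mul, QuotientGroup.eq]
            have h1 := hcomm (Subgroup.commutator_mem_commutator (Subgroup.mem_top b⁻¹)
              (Subgroup.mem_top a⁻¹))
            rw [commutatorElement_def] at h1
            have e : (a * b)⁻¹ * (b * a) = b⁻¹ * a⁻¹ * b⁻¹⁻¹ * a⁻¹⁻¹ := by group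
            rw [e]
            exact h1 }
  have hV : ∀ x : Additive (H ⧸ K), p • x = 0 := by
    intro x
    obtain ⟨a, ha⟩ := QuotientGroup.mk_surjective (Additive.toMul x)
    have e : x = Additive.ofMul ((a : H ⧸ K)) := by rw [ha]; rfl
    rw [e, ← ofMul_pow, ← QuotientGroup.mk_pow, hexp a]
    rfl
  obtain ⟨a, ha⟩ : ∃ a : H, a ∉ K := by
    by_contra hcon
    push Not at hcon
    exact hK (Subgroup.eq_top_iff' K |>.2 hcon)
  have hq0 : (Additive.ofMul (a : H ⧸ K)) ≠ 0 := by
    intro h
    apply ha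
    exact (QuotientGroup.eq_one_iff a).1 (Additive.ofMul.injective h)
  obtain ⟨φ, hφ⟩ := exists_dual hV hq0
  refine ⟨fun b => φ (Additive.ofMul (b : H ⧸ K)), a, ?_, ?_, hφ⟩
  · intro b b'
    exact map_add φ (Additive.ofMul (b : H ⧸ K)) (Additive.ofMul (b' : H ⧸ K))
  · intro b hb
    show φ (Additive.ofMul (b : H ⧸ K)) = 0
    rw [(QuotientGroup.eq_one_iff b).2 hb]
    exact map_zero φ

/-- powers with exponents in `ZMod p` -/
def sp (g : H) (a : ZMod p) : H := g ^ a.val

lemma sp_add {g : H} (hg : g ^ p = 1) (a b : ZMod p) : sp g (a + b) = sp g a * sp g b := by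
  unfold sp
  rw [ZMod.val_add, ← pow_eq_pow_mod _ hg, pow_add]

lemma sp_zero (g : H) : sp g (0 : ZMod p) = 1 := by
  unfold sp
  rw [ZMod.val_zero, pow_zero]

/-- the filtration of the two-dimensional representation -/
def W2 (p w j : ℕ) : Submodule (ZMod p) (ZMod p × ZMod p) where
  carrier := {v | (0 < j → v.1 = 0) ∧ (w < j → v.2 = 0)}
  add_mem' := by
    intro u v hu hv
    exact ⟨fun h => by rw [Prod.fst_add, hu.1 h, hv.1 h, add_zero],
      fun h => by rw [Prod.snd_add, hu.2 h, hv.2 h, add_zero]⟩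
  zero_mem' := ⟨fun _ => rfl, fun _ => rfl⟩
  smul_mem' := by
    intro a v hv
    exact ⟨fun h => by rw [Prod.smul_fst, hv.1 h, smul_zero],
      fun h => by rw [Prod.smul_snd, hv.2 h, smul_zero]⟩

lemma mem_W2 {w j : ℕ} {v : ZMod p × ZMod p} :
    v ∈ W2 p w j ↔ (0 < j → v.1 = 0) ∧ (w < j → v.2 = 0) := Iff.rfl

/-- the two-dimensional representation -/
def r2 (a : ZMod p) : Module.End (ZMod p) (ZMod p × ZMod p) :=
  LinearMap.prod (LinearMap.fst _ _ _) (LinearMap.snd _ _ _ + a • LinearMap.fst _ _ _)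

lemma r2_apply (a : ZMod p) (v : ZMod p × ZMod p) : r2 a v = (v.1, v.2 + a * v.1) := rfl

end

/-- **the representation** -/
theorem hasRep {p : ℕ} [Fact p.Prime] (c : ℕ) : ∀ (n : ℕ) (H : Type) (_ : Group H) (_ : Finite H)
    (S : ℕ → Subgroup H), Nat.card H = n → (∀ h : H, h ^ p = 1) → Ser S → S (c + 1) = ⊥ →
    HasRep p H S c := by
  intro n
  induction n using Nat.strong_induction_on with
  | _ n ih =>
  intro H _ _ S hn hexp hS hc
  by_cases htriv : ∀ h : H, h = 1
  · refine ⟨ZMod p, inferInstance, inferInstance, inferInstance, fun _ => ⊤, 1, rfl,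
      fun _ _ _ => le_rfl, fun _ _ _ _ _ _ => Submodule.mem_top, fun h _ => htriv h⟩
  push Not at htriv
  obtain ⟨h0, hh0⟩ := htriv
  have hcne : S (c + 1) ≠ ⊤ := by
    rw [hc]
    intro h
    apply hh0
    have : h0 ∈ (⊥ : Subgroup H) := by rw [h]; exact Subgroup.mem_top _
    exact Subgroup.mem_bot.1 this
  -- the weight of the first step
  have hex : ∃ i, S (i + 1) ≠ ⊤ := ⟨c, hcne⟩
  classical
  set w := Nat.find hex with hw
  have hw1 : S (w + 1) ≠ ⊤ := Nat.find_spec hex
  have hwc : w ≤ c := Nat.find_min' hex hcne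
  have hwpos : 1 ≤ w := by
    by_contra hcon
    have : w = 0 := by omega
    rw [this, zero_add] at hw1
    exact hw1 hS.one
  have hwt : S w = ⊤ := by
    have h1 := Nat.find_min hex (m := w - 1) (by omega)
    rw [not_not, Nat.sub_add_cancel hwpos] at h1
    exact h1
  have hcomm : ⁅(⊤ : Subgroup H), (⊤ : Subgroup H)⁆ ≤ S (w + 1) := by
    have h1 := hS.comm w w
    rw [hwt] at h1
    exact h1.trans (hS.anti (by omega))
  obtain ⟨cc, g, cadd, cK, cg⟩ := exists_char hexp (S (w + 1)) hw1 hcomm
  have cone : cc 1 = 0 := by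
    have := cadd 1 1
    rw [mul_one] at this
    exact left_eq_add.1 this
  have cinv : ∀ a, cc a⁻¹ = -cc a := by
    intro a
    have := cadd a a⁻¹
    rw [mul_inv_cancel, cone] at this
    exact (neg_eq_of_add_eq_zero_right this.symm).symm
  have cpow : ∀ (a : H) (m : ℕ), cc (a ^ m) = m * cc a := by
    intro a m
    induction m with
    | zero => rw [pow_zero, cone, Nat.cast_zero, zero_mul]
    | succ m ih => rw [pow_succ, cadd, ih]; push_cast; ring
  have csp : ∀ a : ZMod p, cc (sp g a) = a := by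
    intro a
    unfold sp
    rw [cpow, cg, mul_one, ZMod.natCast_zmod_val]
  have hgp := hexp g
  set N : Subgroup H :=
    { carrier := {a | cc a = 0}
      mul_mem' := by
        intro a b ha hb
        show cc (a * b) = 0
        rw [cadd, show cc a = 0 from ha, show cc b = 0 from hb, add_zero]
      one_mem' := cone
      inv_mem' := by
        intro a ha
        show cc a⁻¹ = 0
        rw [cinv, show cc a = 0 from ha, neg_zero] } with hN
  have memN : ∀ a : H, a ∈ N ↔ cc a = 0 := fun a => Iff.rfl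
  have hNn : N.Normal := by
    refine ⟨fun a ha b => ?_⟩
    rw [memN] at ha ⊢
    rw [cadd, cadd, cinv, ha]
    ring
  have hKN : S (w + 1) ≤ N := fun a ha => cK a ha
  have hgN : g ∉ N := by
    rw [memN, cg]
    exact one_ne_zero
  have hcard : Nat.card N < n := by
    rw [← hn]
    refine lt_of_le_of_ne (Subgroup.card_le_card_group N) ?_
    intro h
    exact hgN (by rw [Subgroup.card_eq_iff_eq_top N |>.1 h]; exact Subgroup.mem_top _)
  have hSN := ser_SN (N := N) hS
  have hRN := ih (Nat.card N) hcard N inferInstance inferInstance (SN S N) rfl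
    (fun a => by
      apply Subtype.ext
      rw [SubmonoidClass.coe_pow, hexp]
      rfl) hSN
    (by
      rw [Subgroup.eq_bot_iff_forall]
      intro a ha
      rw [mem_SN, hc, Subgroup.mem_bot] at ha
      exact Subtype.ext ha)
  have hinj : ∀ a : N, of (ZMod p) N a - 1 ∈ EE p (SN S N) (c + 1) → a = 1 :=
    fun a ha => inj_of_rep hSN hRN ha
  have hE := fam_EE (p := p) (S := SN S N)
  -- the component in `N`
  have hcn : ∀ h : H, h * (sp g (cc h))⁻¹ ∈ N := by
    intro h
    rw [memN, cadd, cinv, csp]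
    ring
  set nn : H → N := fun h => ⟨h * (sp g (cc h))⁻¹, hcn h⟩ with hnn
  have hnnmul : ∀ a b : H, nn (a * b) = nn a * MulAut.conjNormal (sp g (cc a)) (nn b) := by
    intro a b
    apply Subtype.ext
    rw [Subgroup.coe_mul, MulAut.conjNormal_apply]
    show a * b * (sp g (cc (a * b)))⁻¹ = a * (sp g (cc a))⁻¹ *
      (sp g (cc a) * (b * (sp g (cc b))⁻¹) * (sp g (cc a))⁻¹)
    rw [cadd, sp_add hgp]
    group
  have hnnone : nn 1 = 1 := by
    apply Subtype.ext
    show 1 * (sp g (cc 1))⁻¹ = 1
    rw [cone, sp_zero, inv_one, mul_one]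
  set r1 : H → Module.End (ZMod p) (MonoidAlgebra (ZMod p) N) := fun h =>
    (LinearMap.mulLeft (ZMod p) (of (ZMod p) N (nn h))).comp (sg p N (sp g (cc h))).toLinearMap
    with hr1
  have r1_apply : ∀ h x, r1 h x = of (ZMod p) N (nn h) * sg p N (sp g (cc h)) x :=
    fun h x => rfl
  set r : H →* Module.End (ZMod p) (MonoidAlgebra (ZMod p) N × (ZMod p × ZMod p)) :=
    { toFun := fun h => LinearMap.prodMap (r1 h) (r2 (cc h))
      map_one' := by
        refine LinearMap.ext fun v => ?_
        rw [LinearMap.prodMap_apply, r1_apply, hnnone, cone, sp_zero, sg_one, map_one, one_mul,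
          r2_apply, zero_mul, add_zero]
        rfl
      map_mul' := by
        intro a b
        refine LinearMap.ext fun v => ?_
        rw [Module.End.mul_apply, LinearMap.prodMap_apply, LinearMap.prodMap_apply,
          LinearMap.prodMap_apply, r1_apply, r1_apply, r1_apply, r2_apply, r2_apply, r2_apply,
          hnnmul, cadd, sp_add hgp, sg_mul, map_mul, map_mul, sg_of, mul_assoc]
        congr 2
        ring } with hr
  have r_apply : ∀ h v, r h v = (r1 h v.1, r2 (cc h) v.2) := fun h v => rfl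
  have hfinA : Finite (MonoidAlgebra (ZMod p) N) := by
    have : NeZero p := ⟨(Fact.out : p.Prime).ne_zero⟩
    have : Finite (N →₀ ZMod p) := Finite.of_injective (fun f : N →₀ ZMod p => (f : N → ZMod p))
      DFunLike.coe_injective
    exact Finite.of_equiv _ (MonoidAlgebra.coeffEquiv (R := ZMod p) (M := N)).symm
  refine ⟨MonoidAlgebra (ZMod p) N × (ZMod p × ZMod p), inferInstance, inferInstance,
    inferInstance, fun j => (EE p (SN S N) j).prod (W2 p w j), r, ?_, ?_, ?_, ?_⟩
  · show (EE p (SN S N) 0).prod (W2 p w 0) = ⊤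
    rw [hE.zero]
    refine Submodule.eq_top_iff'.2 fun v => ⟨Submodule.mem_top, ?_⟩
    show v.2 ∈ W2 p w 0
    rw [mem_W2]
    exact ⟨fun h => absurd h (lt_irrefl 0), fun h => absurd h (Nat.not_lt_zero w)⟩
  · intro i j hij v hv
    refine ⟨hE.anti hij hv.1, ?_⟩
    have h2 := hv.2
    show v.2 ∈ W2 p w i
    have h3 : v.2 ∈ W2 p w j := h2
    rw [mem_W2] at h3 ⊢
    exact ⟨fun h => h3.1 (by omega), fun h => h3.2 (by omega)⟩
  · intro i j h v hh hv
    have hv1 : v.1 ∈ EE p (SN S N) j := hv.1
    have hv2 : v.2 ∈ W2 p w j := hv.2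
    -- the element `sp g (cc h)` lies in `S i`
    have hcase : cc h = 0 ∨ i ≤ w := by
      by_contra hcon
      push Not at hcon
      exact hcon.1 (hKN (hS.anti (by omega : w + 1 ≤ i) hh))
    have hspi : sp g (cc h) ∈ S i := by
      rcases hcase with h1 | h1
      · rw [h1, sp_zero]
        exact Subgroup.one_mem _
      · exact hS.anti h1 (by rw [hwt]; exact Subgroup.mem_top _)
    refine ⟨?_, ?_⟩
    · show r1 h v.1 - v.1 ∈ EE p (SN S N) (i + j)
      rw [r1_apply]
      have hni : nn h ∈ SN S N i := by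
        rw [mem_SN]
        exact (S i).mul_mem hh ((S i).inv_mem hspi)
      have e : of (ZMod p) N (nn h) * sg p N (sp g (cc h)) v.1 - v.1 =
          (of (ZMod p) N (nn h) - 1) * sg p N (sp g (cc h)) v.1 +
            (sg p N (sp g (cc h)) v.1 - v.1) := by
        rw [sub_mul, one_mul]
        abel
      rw [e]
      exact Submodule.add_mem _ (hE.mul i j _ _ (hE.one i _ hni) (sg_mem hS _ hv1))
        (sg_sub_mem hS hspi hv1)
    · show r2 (cc h) v.2 - v.2 ∈ W2 p w (i + j)
      rw [r2_apply, mem_W2]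
      rw [mem_W2] at hv2
      refine ⟨fun _ => by simp, fun hlt => ?_⟩
      show v.2.2 + cc h * v.2.1 - v.2.2 = 0
      rw [add_sub_cancel_left]
      rcases hcase with h1 | h1
      · rw [h1, zero_mul]
      · rw [hv2.1 (by omega), mul_zero]
  · intro h hh
    have h1 := (hh (0, (1, 0))).2
    have h2 : r2 (cc h) ((1 : ZMod p), (0 : ZMod p)) - (1, 0) ∈ W2 p w (c + 1) := h1
    rw [r2_apply, mem_W2] at h2
    have h3 := h2.2 (by omega)
    have h4 : cc h = 0 := by
      have : (0 : ZMod p) + cc h * 1 - 0 = 0 := h3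
      simpa using this
    have h5 := (hh (1, 0)).1
    have h6 : r1 h 1 - 1 ∈ EE p (SN S N) (c + 1) := h5
    rw [r1_apply, map_one, mul_one] at h6
    have h7 := hinj _ h6
    have h8 := congrArg Subtype.val h7
    have h9 : h * (sp g (cc h))⁻¹ = 1 := h8
    rwa [h4, sp_zero, inv_one, mul_one] at h9

end Pool.Agent.ExpP
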